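import Mathlib
set_option autoImplicit false
namespace Pool.Agent.Helper772

/-- nearest neighbour graph of `ℤ^d` -/
def Lat (d : ℕ) : SimpleGraph (Fin d → ℤ) where
  Adj x y := ∑ i, |x i - y i| = 1
  symm := ⟨by
    intro x y h
    simpa only [abs_sub_comm] using h⟩
  loopless := ⟨by intro x h; simp at h⟩

/-- the tile of side `L + 4` containing `y` (stretched lattice) -/
def tile {d : ℕ} (L : ℤ) (y : Fin d → ℤ) : Fin d → ℤ := fun i => y i / (L + 4)

/-- the cell of side `L` containing `x` (original lattice) -/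
def cellc {d : ℕ} (L : ℤ) (x : Fin d → ℤ) : Fin d → ℤ := fun i => x i / L

/-- `y` is a gate site of its tile: one coordinate is extreme in the tile, the others lie in the
central part `[2, L+2)` of the tile. -/
def IsGate {d : ℕ} (L : ℤ) (y : Fin d → ℤ) : Prop :=
  ∃ a, (y a % (L + 4) = 0 ∨ y a % (L + 4) = L + 3) ∧
    ∀ i, i ≠ a → 2 ≤ y i % (L + 4) ∧ y i % (L + 4) < L + 2

/-- the neighbour of a gate site in the adjacent tile -/
def opp {d : ℕ} (L : ℤ) (y : Fin d → ℤ) : Fin d → ℤ :=
  fun i => if y i % (L + 4) = 0 then y i - 1 else if y i % (L + 4) = L + 3 then y i + 1 else y i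

/-- stretching: the cell `[jL, (j+1)L)` becomes the central part of the tile `j` -/
def stretch {d : ℕ} (L : ℤ) (x : Fin d → ℤ) : Fin d → ℤ :=
  fun i => (x i / L) * (L + 4) + x i % L + 2

/-- contraction: collapses the margins of the tiles -/
def contract {d : ℕ} (L : ℤ) (y : Fin d → ℤ) : Fin d → ℤ :=
  fun i => (y i / (L + 4)) * L + max (-1) (min (L - 1) (y i % (L + 4) - 2))

/-- one directed step of the stretched graph, in direction `a` -/
def StrStep {d : ℕ} (L : ℤ) (F : SimpleGraph (Fin d → ℤ)) (a : Fin d) (y y' : Fin d → ℤ) : Prop :=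
  (∀ i, i ≠ a → y' i = y i ∧ 2 ≤ y i % (L + 4) ∧ y i % (L + 4) < L + 2) ∧ y' a = y a + 1 ∧
    F.Adj (contract L y) (Function.update (contract L y) a (contract L y a + 1))

/-- the stretched graph: edges of `F` inside a cell are kept, an edge of `F` between two cells
becomes a straight path of five edges through the margins. -/
def Str {d : ℕ} (L : ℤ) (F : SimpleGraph (Fin d → ℤ)) : SimpleGraph (Fin d → ℤ) where
  Adj y y' := ∃ a, StrStep L F a y y' ∨ StrStep L F a y' y
  symm := ⟨by
    rintro y y' ⟨a, h⟩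
    exact ⟨a, h.symm⟩⟩
  loopless := ⟨by
    rintro y ⟨a, h | h⟩
    · have := h.2.1
      omega
    · have := h.2.1
      omega⟩

/-- number of steps of the sequence `t` that change tiles and run between the two tiles of `e` -/
noncomputable def crossCount {d k : ℕ} (t : Fin (k + 1) → Fin d → ℤ)
    (e : Sym2 (Fin d → ℤ)) : ℕ :=
  {j : Fin k | t j.castSucc ≠ t j.succ ∧ s(t j.castSucc, t j.succ) = e}.ncard

/-- the graph formed by the edges of finitely many walks -/
def pathG {d r : ℕ} {n : Fin r → ℕ} (w : ∀ i, Fin (n i + 1) → Fin d → ℤ) :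
    SimpleGraph (Fin d → ℤ) where
  Adj x x' := x ≠ x' ∧ ∃ (i : Fin r) (j : Fin (n i)), s(x, x') = s(w i j.castSucc, w i j.succ)
  symm := ⟨by
    rintro x x' ⟨h, i, j, hj⟩
    exact ⟨h.symm, i, j, by rw [Sym2.eq_swap]; exact hj⟩⟩
  loopless := ⟨by
    rintro x ⟨h, _⟩
    exact h rfl⟩

/-- total number of crossings between the two tiles of `e`, by the walks `w` and by the
connectors `t` -/
noncomputable def Ntot {d r : ℕ} (L : ℤ) {n k : Fin r → ℕ}
    (w : ∀ i, Fin (n i + 1) → Fin d → ℤ) (t : ∀ i, Fin (k i + 1) → Fin d → ℤ)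
    (e : Sym2 (Fin d → ℤ)) : ℕ :=
  ∑ i, crossCount (fun j => cellc L (w i j)) e + ∑ i, crossCount (t i) e

/-- Chain data: `r` self-avoiding walks `w i` (positions in the original lattice), connectors `t i`
(sequences of tiles) from the cell of the end of `w i` to the cell of the start of `w (i + 1)`
(cyclically), and a finite set `U` of tiles containing all connectors and all cells that are visited
by two different walks. -/
structure ChainData {d r : ℕ} [NeZero r] (L : ℤ) {n k : Fin r → ℕ}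
    (w : ∀ i, Fin (n i + 1) → Fin d → ℤ) (t : ∀ i, Fin (k i + 1) → Fin d → ℤ)
    (U : Set (Fin d → ℤ)) : Prop where
  winj : ∀ i, Function.Injective (w i)
  wstep : ∀ i (j : Fin (n i)), (Lat d).Adj (w i j.castSucc) (w i j.succ)
  tstep : ∀ i (j : Fin (k i)), (Lat d).Adj (t i j.castSucc) (t i j.succ)
  tstart : ∀ i, t i 0 = cellc L (w i (Fin.last (n i)))
  tend : ∀ i, t i (Fin.last (k i)) = cellc L (w (i + 1) 0)
  Ufin : U.Finite
  tU : ∀ i j, t i j ∈ U
  coll : ∀ i i' j j', i ≠ i' → cellc L (w i j) = cellc L (w i' j') → cellc L (w i j) ∈ U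

/-- number of ordered pairs of adjacent points of `S` -/
def adjPairs {d : ℕ} (S : Finset (Fin d → ℤ)) : ℕ :=
  ((S ×ˢ S).filter (fun p => ∑ i, |p.1 i - p.2 i| = 1)).card

open Classical in
/-- self-avoiding walks with `n` steps starting at the origin -/
noncomputable def sawSet (d n : ℕ) : Finset (Fin (n + 1) → Fin d → ℤ) :=
  (Fintype.piFinset (fun _ : Fin (n + 1) =>
    Fintype.piFinset (fun _ : Fin d => Finset.Icc (-(n : ℤ)) (n : ℤ)))).filter
    (fun w => w 0 = 0 ∧ Function.Injective w ∧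
      ∀ i : Fin n, ∑ k, |w i.castSucc k - w i.succ k| = 1)

open Classical in
/-- closed self-avoiding walks with `M` steps rooted at the origin -/
noncomputable def polySet (d M : ℕ) : Finset (Fin (M + 1) → Fin d → ℤ) :=
  (Fintype.piFinset (fun _ : Fin (M + 1) =>
    Fintype.piFinset (fun _ : Fin d => Finset.Icc (-(M : ℤ)) (M : ℤ)))).filter
    (fun w => w 0 = 0 ∧ w (Fin.last M) = 0 ∧
      Function.Injective (fun i : Fin M => w i.castSucc) ∧
      ∀ i : Fin M, ∑ k, |w i.castSucc k - w i.succ k| = 1)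

/-- interacting walk partition function: a walk with vertex set `S` and `n` steps has
`adjPairs S / 2 - n` contacts -/
noncomputable def Zw (d : ℕ) (β : ℝ) (n : ℕ) : ℝ :=
  ∑ w ∈ sawSet d n, Real.exp (β * ((adjPairs (Finset.univ.image w) : ℝ) / 2 - n))

/-- interacting polygon partition function -/
noncomputable def Zp (d : ℕ) (β : ℝ) (M : ℕ) : ℝ :=
  ∑ w ∈ polySet d M, Real.exp (β * ((adjPairs (Finset.univ.image w) : ℝ) / 2 - M))

/-- number of steps of `w` between different cells -/
def crossNum {d m : ℕ} (L : ℤ) (w : Fin (m + 1) → Fin d → ℤ) : ℕ :=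
  ((Finset.univ : Finset (Fin m)).filter
    (fun j => cellc L (w j.castSucc) ≠ cellc L (w j.succ))).card

/-- number of ordered adjacent pairs of vertices of `w` lying in different cells -/
def adjCross {d m : ℕ} (L : ℤ) (w : Fin (m + 1) → Fin d → ℤ) : ℕ :=
  (((Finset.univ.image w) ×ˢ (Finset.univ.image w)).filter
    (fun p => ∑ i, |p.1 i - p.2 i| = 1 ∧ cellc L p.1 ≠ cellc L p.2)).card

/-- walks from `0` to `x` -/
noncomputable def Zwx (d : ℕ) (β : ℝ) (n : ℕ) (x : Fin d → ℤ) : ℝ :=
  ∑ w ∈ (sawSet d n).filter (fun w => w (Fin.last n) = x),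
    Real.exp (β * ((adjPairs (Finset.univ.image w) : ℝ) / 2 - n))

/-- Rails in tile `b`: an open path `W` through all gate sites of the tile, a disjoint cycle `C`,
and for every gate site `W[j]` (not the last entry of `W`) a unit square
`W[j], W[j+1], C[m j], C[m j + 1]`; squares of gates at distance at least two are disjoint. -/
structure Rails {V B : Type} (Γ : SimpleGraph V) (τ : V → B) (gate : V → Prop) (b : B)
    (W C : List V) (m : ℕ → ℕ) : Prop where
  W_nodup : W.Nodup
  W_adj : ∀ (j : ℕ) (h : j + 1 < W.length), Γ.Adj W[j] W[j + 1]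
  W_tile : ∀ v ∈ W, τ v = b
  C_nodup : C.Nodup
  C_len : 3 ≤ C.length
  C_adj : ∀ (j : ℕ) (h : j + 1 < C.length), Γ.Adj C[j] C[j + 1]
  C_close : ∀ x ∈ C.head?, ∀ y ∈ C.getLast?, Γ.Adj y x
  C_tile : ∀ v ∈ C, τ v = b
  disj : ∀ v ∈ W, v ∉ C
  gates : ∀ v, gate v → τ v = b → v ∈ W
  sq : ∀ (j : ℕ) (h : j + 1 < W.length), gate W[j] →
    ∃ h' : m j + 1 < C.length, Γ.Adj W[j] C[m j] ∧ Γ.Adj W[j + 1] C[m j + 1]
  sq_sep : ∀ (j j' : ℕ) (h : j + 2 ≤ j') (h' : j' + 1 < W.length),
    gate W[j] → gate W[j'] → m j + 2 ≤ m j'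

end Pool.Agent.Helper772
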