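import Mathlib
import Pool.Agent.Helper772.Defs
set_option autoImplicit false
namespace Pool.Agent.Helper772.A1


theorem merge_reach_mono {V : Type} {H H' : SimpleGraph V} {x y : V}
    (h : H.Reachable x y)
    (hH : ∀ u v, H.Reachable x u → H.Adj u v → H'.Reachable u v) : H'.Reachable x y := by
  obtain ⟨p⟩ := h
  induction p with
  | nil => exact SimpleGraph.Reachable.refl _
  | cons hadj p ih =>
    refine (hH _ _ (SimpleGraph.Reachable.refl _) hadj).trans (ih ?_)
    intro u v hu huv
    exact hH u v (hadj.reachable.trans hu) huv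

theorem merge_reach_delete {V : Type} (G : SimpleGraph V)
    (hfin : {v : V | ∃ w, G.Adj v w}.Finite) (hcyc : G.IsCycles) {a b : V} (hab : G.Adj a b) :
    (G.deleteEdges {s(a, b)}).Reachable a b := by
  classical
  let s : Set V := {v : V | ∃ w, G.Adj v w}
  have : Finite s := hfin
  have ha : a ∈ s := ⟨b, hab⟩
  have hb : b ∈ s := ⟨a, hab.symm⟩
  have hc : (G.induce s).IsCycles := by
    intro v hv
    have h1 : (Subtype.val '' ((G.induce s).neighborSet v)) = G.neighborSet v.1 := by
      ext w
      constructor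
      · rintro ⟨w', hw', rfl⟩
        exact hw'
      · intro hw
        exact ⟨⟨w, ⟨v.1, (show G.Adj v.1 w from hw).symm⟩⟩, hw, rfl⟩
    have h2 : (G.neighborSet v.1).Nonempty := by
      rw [← h1]; exact hv.image _
    have h3 := hcyc h2
    rw [← h1, Set.ncard_image_of_injective _ Subtype.val_injective] at h3
    exact h3
  have hadj : (G.induce s).Adj ⟨a, ha⟩ ⟨b, hb⟩ := hab
  have hr := SimpleGraph.IsCycles.reachable_deleteEdges hadj hc
  let f : ((G.induce s).deleteEdges {s((⟨a, ha⟩ : s), (⟨b, hb⟩ : s))}) →g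
      (G.deleteEdges {s(a, b)}) :=
    { toFun := Subtype.val
      map_rel' := by
        intro x y hxy
        rw [SimpleGraph.deleteEdges_adj] at hxy ⊢
        refine ⟨hxy.1, ?_⟩
        intro h
        apply hxy.2
        simp only [Set.mem_singleton_iff, Sym2.eq_iff] at h ⊢
        rcases h with h | h
        · left; exact ⟨Subtype.ext h.1, Subtype.ext h.2⟩
        · right; exact ⟨Subtype.ext h.1, Subtype.ext h.2⟩ }
  exact hr.map f

theorem merge_step {V : Type} (G : SimpleGraph V)
    (hfin : {v : V | ∃ w, G.Adj v w}.Finite) (hcyc : G.IsCycles)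
    (a b c e : V) (hnd : [a, b, c, e].Nodup) (hab : G.Adj a b) (hce : G.Adj c e)
    (hnr : ¬ G.Reachable a c) :
    ∃ G' : SimpleGraph V, G'.IsCycles ∧
      (∀ v, (∃ w, G'.Adj v w) ↔ (∃ w, G.Adj v w)) ∧
      (∀ u v, G.Reachable u v → G'.Reachable u v) ∧
      G'.Reachable a c ∧
      (∀ u v, G'.Adj u v ↔ (G.Adj u v ∧ s(u, v) ≠ s(a, b) ∧ s(u, v) ≠ s(c, e)) ∨
        s(u, v) = s(a, c) ∨ s(u, v) = s(b, e)) := by
  classical
  simp only [List.nodup_cons, List.mem_cons, List.not_mem_nil, or_false, not_or, not_false_eq_true,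
    List.nodup_nil, and_true] at hnd
  obtain ⟨⟨hnab, hnac, hnae⟩, ⟨hnbc, hnbe⟩, hnce⟩ := hnd
  have hnae' : ¬ G.Adj a e := fun h => hnr (h.reachable.trans hce.symm.reachable)
  have hnac' : ¬ G.Adj a c := fun h => hnr h.reachable
  have hnbc' : ¬ G.Adj b c := fun h => hnr (hab.reachable.trans h.reachable)
  have hnbe' : ¬ G.Adj b e :=
    fun h => hnr (hab.reachable.trans (h.reachable.trans hce.symm.reachable))
  let G' : SimpleGraph V :=
    { Adj := fun u v => (G.Adj u v ∧ s(u, v) ≠ s(a, b) ∧ s(u, v) ≠ s(c, e)) ∨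
        s(u, v) = s(a, c) ∨ s(u, v) = s(b, e)
      symm := by
        constructor
        intro u v h
        rw [Sym2.eq_swap (a := v) (b := u), G.adj_comm v u]
        exact h
      loopless := by
        constructor
        intro u h
        rcases h with h | h | h
        · exact G.loopless.irrefl _ h.1
        · rw [Sym2.eq_iff] at h
          rcases h with h | h
          · exact hnac (h.1.symm.trans h.2)
          · exact hnac (h.2.symm.trans h.1)
        · rw [Sym2.eq_iff] at h
          rcases h with h | h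
          · exact hnbe (h.1.symm.trans h.2)
          · exact hnbe (h.2.symm.trans h.1) }
  have hG' : ∀ u v, G'.Adj u v ↔ (G.Adj u v ∧ s(u, v) ≠ s(a, b) ∧ s(u, v) ≠ s(c, e)) ∨
        s(u, v) = s(a, c) ∨ s(u, v) = s(b, e) := fun u v => Iff.rfl
  -- neighbourhoods
  have hNa : G'.neighborSet a = insert c (G.neighborSet a \ {b}) := by
    ext w
    simp only [SimpleGraph.mem_neighborSet, hG', Set.mem_insert_iff, Set.mem_sdiff,
      Set.mem_singleton_iff, Sym2.eq_iff, ne_eq]
    constructor
    · rintro (h | h | h)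
      · refine Or.inr ⟨h.1, fun hw => h.2.1 (Or.inl ⟨by trivial, hw⟩)⟩
      · rcases h with h | h
        · exact Or.inl h.2
        · exact absurd h.1 hnac
      · rcases h with h | h
        · exact absurd h.1 hnab
        · exact absurd h.1 hnae
    · rintro (h | h)
      · exact Or.inr (Or.inl (Or.inl ⟨by trivial, h⟩))
      · refine Or.inl ⟨h.1, ?_, ?_⟩
        · rintro (h' | h')
          · exact h.2 h'.2
          · exact hnab h'.1
        · rintro (h' | h')
          · exact hnac h'.1
          · exact hnae h'.1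
  have hNb : G'.neighborSet b = insert e (G.neighborSet b \ {a}) := by
    ext w
    simp only [SimpleGraph.mem_neighborSet, hG', Set.mem_insert_iff, Set.mem_sdiff,
      Set.mem_singleton_iff, Sym2.eq_iff, ne_eq]
    constructor
    · rintro (h | h | h)
      · refine Or.inr ⟨h.1, fun hw => h.2.1 (Or.inr ⟨by trivial, hw⟩)⟩
      · rcases h with h | h
        · exact absurd h.1.symm hnab
        · exact absurd h.1 hnbc
      · rcases h with h | h
        · exact Or.inl h.2
        · exact absurd h.1 hnbe
    · rintro (h | h)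
      · exact Or.inr (Or.inr (Or.inl ⟨by trivial, h⟩))
      · refine Or.inl ⟨h.1, ?_, ?_⟩
        · rintro (h' | h')
          · exact hnab h'.1.symm
          · exact h.2 h'.2
        · rintro (h' | h')
          · exact hnbc h'.1
          · exact hnbe h'.1
  have hNc : G'.neighborSet c = insert a (G.neighborSet c \ {e}) := by
    ext w
    simp only [SimpleGraph.mem_neighborSet, hG', Set.mem_insert_iff, Set.mem_sdiff,
      Set.mem_singleton_iff, Sym2.eq_iff, ne_eq]
    constructor
    · rintro (h | h | h)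
      · refine Or.inr ⟨h.1, fun hw => h.2.2 (Or.inl ⟨by trivial, hw⟩)⟩
      · rcases h with h | h
        · exact absurd h.1.symm hnac
        · exact Or.inl h.2
      · rcases h with h | h
        · exact absurd h.1.symm hnbc
        · exact absurd h.1 hnce
    · rintro (h | h)
      · exact Or.inr (Or.inl (Or.inr ⟨by trivial, h⟩))
      · refine Or.inl ⟨h.1, ?_, ?_⟩
        · rintro (h' | h')
          · exact hnac h'.1.symm
          · exact hnbc h'.1.symm
        · rintro (h' | h')
          · exact h.2 h'.2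
          · exact hnce h'.1
  have hNe : G'.neighborSet e = insert b (G.neighborSet e \ {c}) := by
    ext w
    simp only [SimpleGraph.mem_neighborSet, hG', Set.mem_insert_iff, Set.mem_sdiff,
      Set.mem_singleton_iff, Sym2.eq_iff, ne_eq]
    constructor
    · rintro (h | h | h)
      · refine Or.inr ⟨h.1, fun hw => h.2.2 (Or.inr ⟨by trivial, hw⟩)⟩
      · rcases h with h | h
        · exact absurd h.1.symm hnae
        · exact absurd h.1.symm hnce
      · rcases h with h | h
        · exact absurd h.1.symm hnbe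
        · exact Or.inl h.2
    · rintro (h | h)
      · exact Or.inr (Or.inr (Or.inr ⟨by trivial, h⟩))
      · refine Or.inl ⟨h.1, ?_, ?_⟩
        · rintro (h' | h')
          · exact hnae h'.1.symm
          · exact hnbe h'.1.symm
        · rintro (h' | h')
          · exact hnce h'.1.symm
          · exact h.2 h'.2
  have hNo : ∀ v, v ≠ a → v ≠ b → v ≠ c → v ≠ e → G'.neighborSet v = G.neighborSet v := by
    intro v hva hvb hvc hve
    ext w
    simp only [SimpleGraph.mem_neighborSet, hG', Sym2.eq_iff, ne_eq]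
    constructor
    · rintro (h | h | h)
      · exact h.1
      · rcases h with h | h
        · exact absurd h.1 hva
        · exact absurd h.1 hvc
      · rcases h with h | h
        · exact absurd h.1 hvb
        · exact absurd h.1 hve
    · intro h
      refine Or.inl ⟨h, ?_, ?_⟩
      · rintro (h' | h')
        · exact hva h'.1
        · exact hvb h'.1
      · rintro (h' | h')
        · exact hvc h'.1
        · exact hve h'.1
  have key : ∀ v, ((G'.neighborSet v).Nonempty ↔ (G.neighborSet v).Nonempty) ∧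
      ((G'.neighborSet v).ncard = (G.neighborSet v).ncard) := by
    intro v
    by_cases hva : v = a
    · subst hva
      rw [hNa]
      refine ⟨⟨fun _ => ⟨b, hab⟩, fun _ => Set.insert_nonempty _ _⟩, ?_⟩
      exact Set.ncard_exchange (s := G.neighborSet v) hnac' hab
    by_cases hvb : v = b
    · subst hvb
      rw [hNb]
      refine ⟨⟨fun _ => ⟨a, hab.symm⟩, fun _ => Set.insert_nonempty _ _⟩, ?_⟩
      exact Set.ncard_exchange (s := G.neighborSet v) hnbe' hab.symm
    by_cases hvc : v = c
    · subst hvc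
      rw [hNc]
      refine ⟨⟨fun _ => ⟨e, hce⟩, fun _ => Set.insert_nonempty _ _⟩, ?_⟩
      exact Set.ncard_exchange (s := G.neighborSet v) (fun h => hnac' (SimpleGraph.Adj.symm h)) hce
    by_cases hve : v = e
    · subst hve
      rw [hNe]
      refine ⟨⟨fun _ => ⟨c, hce.symm⟩, fun _ => Set.insert_nonempty _ _⟩, ?_⟩
      exact Set.ncard_exchange (s := G.neighborSet v) (fun h => hnbe' (SimpleGraph.Adj.symm h))
        hce.symm
    rw [hNo v hva hvb hvc hve]
    exact ⟨Iff.rfl, rfl⟩
  -- a and b stay connected in G'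
  have hab' : G'.Reachable a b := by
    refine merge_reach_mono (merge_reach_delete G hfin hcyc hab) ?_
    intro u v hu huv
    rw [SimpleGraph.deleteEdges_adj] at huv
    refine SimpleGraph.Adj.reachable ((hG' u v).2 (Or.inl ⟨huv.1, huv.2, ?_⟩))
    intro h
    have hau : G.Reachable a u := hu.mono (SimpleGraph.deleteEdges_le _)
    rw [Sym2.eq_iff] at h
    rcases h with h | h
    · exact hnr (h.1 ▸ hau)
    · exact hnr ((h.1 ▸ hau).trans hce.symm.reachable)
  have hce' : G'.Reachable c e := by
    refine merge_reach_mono (merge_reach_delete G hfin hcyc hce) ?_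
    intro u v hu huv
    rw [SimpleGraph.deleteEdges_adj] at huv
    refine SimpleGraph.Adj.reachable ((hG' u v).2 (Or.inl ⟨huv.1, ?_, huv.2⟩))
    intro h
    have hau : G.Reachable c u := hu.mono (SimpleGraph.deleteEdges_le _)
    rw [Sym2.eq_iff] at h
    rcases h with h | h
    · exact hnr (h.1 ▸ hau).symm
    · exact hnr (hab.reachable.trans (h.1 ▸ hau).symm)
  refine ⟨G', ?_, ?_, ?_, ?_, hG'⟩
  · intro v hv
    rw [(key v).2]
    exact hcyc ((key v).1.1 hv)
  · intro v
    exact (key v).1
  · intro u v huv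
    refine merge_reach_mono huv ?_
    intro x y _ hxy
    by_cases h1 : s(x, y) = s(a, b)
    · rw [Sym2.eq_iff] at h1
      rcases h1 with h1 | h1
      · rw [h1.1, h1.2]; exact hab'
      · rw [h1.1, h1.2]; exact hab'.symm
    by_cases h2 : s(x, y) = s(c, e)
    · rw [Sym2.eq_iff] at h2
      rcases h2 with h2 | h2
      · rw [h2.1, h2.2]; exact hce'
      · rw [h2.1, h2.2]; exact hce'.symm
    exact SimpleGraph.Adj.reachable ((hG' x y).2 (Or.inl ⟨hxy, h1, h2⟩))
  · exact SimpleGraph.Adj.reachable ((hG' a c).2 (Or.inr (Or.inl rfl)))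

/-- Merging cycles by switches at unit squares.  A square `q = (a, b, c, e)` has the two
edges `a b` and `c e` in `G₀`; a switch removes them and adds the edges `a c` and `b e`. -/
theorem merge_squares {V : Type} (G₀ : SimpleGraph V)
    (hfin : {v : V | ∃ w, G₀.Adj v w}.Finite) (hcyc : G₀.IsCycles)
    (S : List (V × V × V × V))
    (hS : ∀ q ∈ S, G₀.Adj q.1 q.2.1 ∧ G₀.Adj q.2.2.1 q.2.2.2)
    (hnd : ∀ q ∈ S, [q.1, q.2.1, q.2.2.1, q.2.2.2].Nodup)
    (hdisj : S.Pairwise (fun q q' =>
      List.Disjoint [q.1, q.2.1, q.2.2.1, q.2.2.2] [q'.1, q'.2.1, q'.2.2.1, q'.2.2.2])) :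
    ∃ G : SimpleGraph V, G.IsCycles ∧
      (∀ v, (∃ w, G.Adj v w) ↔ (∃ w, G₀.Adj v w)) ∧
      (∀ u v, G₀.Reachable u v → G.Reachable u v) ∧
      (∀ q ∈ S, G.Reachable q.1 q.2.2.1) ∧
      (∀ u v, G.Adj u v → G₀.Adj u v ∨
        ∃ q ∈ S, s(u, v) = s(q.1, q.2.2.1) ∨ s(u, v) = s(q.2.1, q.2.2.2)) ∧
      (∀ u v, G₀.Adj u v → G.Adj u v ∨
        ∃ q ∈ S, s(u, v) = s(q.1, q.2.1) ∨ s(u, v) = s(q.2.2.1, q.2.2.2)) := by
  induction S generalizing G₀ with
  | nil =>
    exact ⟨G₀, hcyc, fun _ => Iff.rfl, fun _ _ h => h, by simp, fun _ _ h => Or.inl h,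
      fun _ _ h => Or.inl h⟩
  | cons q S ih =>
    obtain ⟨a, b, c, e⟩ := q
    have hq := hS _ (List.mem_cons_self)
    have hqn := hnd _ (List.mem_cons_self)
    simp only at hq hqn
    rw [List.pairwise_cons] at hdisj
    obtain ⟨hd1, hd2⟩ := hdisj
    by_cases hr : G₀.Reachable a c
    · obtain ⟨G, h1, h2, h3, h4, h5, h6⟩ := ih G₀ hfin hcyc
        (fun q' hq' => hS q' (List.mem_cons_of_mem _ hq'))
        (fun q' hq' => hnd q' (List.mem_cons_of_mem _ hq')) hd2
      refine ⟨G, h1, h2, h3, ?_, ?_, ?_⟩
      · intro q' hq'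
        rcases List.mem_cons.1 hq' with rfl | hq'
        · exact h3 _ _ hr
        · exact h4 q' hq'
      · intro u v huv
        rcases h5 u v huv with h | ⟨q', hq', h⟩
        · exact Or.inl h
        · exact Or.inr ⟨q', List.mem_cons_of_mem _ hq', h⟩
      · intro u v huv
        rcases h6 u v huv with h | ⟨q', hq', h⟩
        · exact Or.inl h
        · exact Or.inr ⟨q', List.mem_cons_of_mem _ hq', h⟩
    · obtain ⟨G₁, g1, g2, g3, g4, g5⟩ := merge_step G₀ hfin hcyc a b c e hqn hq.1 hq.2 hr
      have hfin1 : {v : V | ∃ w, G₁.Adj v w}.Finite := by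
        have : {v : V | ∃ w, G₁.Adj v w} = {v : V | ∃ w, G₀.Adj v w} := by
          ext v; exact g2 v
        rw [this]; exact hfin
      have hS1 : ∀ q' ∈ S, G₁.Adj q'.1 q'.2.1 ∧ G₁.Adj q'.2.2.1 q'.2.2.2 := by
        intro q' hq'
        have hdq := hd1 q' hq'
        simp only at hdq
        have hne : ∀ x ∈ [q'.1, q'.2.1, q'.2.2.1, q'.2.2.2], x ≠ a ∧ x ≠ c := by
          intro x hx
          refine ⟨?_, ?_⟩
          · rintro rfl
            exact hdq (by simp) hx
          · rintro rfl
            exact hdq (by simp) hx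
        have hne' : ∀ x ∈ [q'.1, q'.2.1, q'.2.2.1, q'.2.2.2], ∀ y,
            s(x, y) ≠ s(a, b) ∧ s(x, y) ≠ s(c, e) := by
          intro x hx y
          have hxb : x ≠ b := by
            rintro rfl
            exact hdq (by simp) hx
          have hxe : x ≠ e := by
            rintro rfl
            exact hdq (by simp) hx
          refine ⟨?_, ?_⟩
          · intro h
            rw [Sym2.eq_iff] at h
            rcases h with h | h
            · exact (hne x hx).1 h.1
            · exact hxb h.1
          · intro h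
            rw [Sym2.eq_iff] at h
            rcases h with h | h
            · exact (hne x hx).2 h.1
            · exact hxe h.1
        have hh := hS q' (List.mem_cons_of_mem _ hq')
        exact ⟨(g5 _ _).2 (Or.inl ⟨hh.1, hne' _ (by simp) _⟩),
          (g5 _ _).2 (Or.inl ⟨hh.2, hne' _ (by simp) _⟩)⟩
      obtain ⟨G, h1, h2, h3, h4, h5, h6⟩ := ih G₁ hfin1 g1 hS1
        (fun q' hq' => hnd q' (List.mem_cons_of_mem _ hq')) hd2
      refine ⟨G, h1, fun v => (h2 v).trans (g2 v), fun u v h => h3 _ _ (g3 _ _ h), ?_, ?_, ?_⟩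
      · intro q' hq'
        rcases List.mem_cons.1 hq' with rfl | hq'
        · exact h3 _ _ g4
        · exact h4 q' hq'
      · intro u v huv
        rcases h5 u v huv with h | ⟨q', hq', h⟩
        · rcases (g5 u v).1 h with h | h
          · exact Or.inl h.1
          · exact Or.inr ⟨(a, b, c, e), List.mem_cons_self, h⟩
        · exact Or.inr ⟨q', List.mem_cons_of_mem _ hq', h⟩
      · intro u v huv
        by_cases ha : s(u, v) = s(a, b)
        · exact Or.inr ⟨(a, b, c, e), List.mem_cons_self, Or.inl ha⟩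
        by_cases hc : s(u, v) = s(c, e)
        · exact Or.inr ⟨(a, b, c, e), List.mem_cons_self, Or.inr hc⟩
        have h' : G₁.Adj u v := (g5 u v).2 (Or.inl ⟨huv, ha, hc⟩)
        rcases h6 u v h' with h | ⟨q', hq', h⟩
        · exact Or.inl h
        · exact Or.inr ⟨q', List.mem_cons_of_mem _ hq', h⟩

end Pool.Agent.Helper772.A1
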