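import Mathlib
import Pool.Agent.Helper772.Defs
import Pool.Agent.Helper772.A1
set_option autoImplicit false
namespace Pool.Agent.Helper772.A2

open Pool.Agent.Helper772.A1 (merge_squares)

section helpers49

open Classical in
/-- number of elements satisfying `P` among the first `j` entries -/
private noncomputable def cnt {V : Type} (L : List V) (P : V → Prop) (j : ℕ) : ℕ :=
  (L.take j).countP (fun x => decide (P x))

private lemma cnt_zero {V : Type} (L : List V) (P : V → Prop) : cnt L P 0 = 0 := by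
  simp [cnt]

private lemma odd_cnt_succ {V : Type} (L : List V) (P : V → Prop) (j : ℕ) (x : V)
    (h : L[j]? = some x) : Odd (cnt L P (j + 1)) ↔
      ((Odd (cnt L P j) ∧ ¬ P x) ∨ (¬ Odd (cnt L P j) ∧ P x)) := by
  unfold cnt
  rw [List.take_add_one, h, List.countP_append]
  by_cases hx : P x
  · simp only [Option.toList_some, List.countP_singleton, hx, decide_true, if_true,
      Nat.odd_add_one]
    tauto
  · simp [hx]

open Classical in
private lemma cnt_last {V : Type} (L : List V) (P : V → Prop) (j : ℕ) (h : L.length ≤ j)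
    (hnd : L.Nodup) (s : Set V) (hs : ∀ v, v ∈ s ↔ v ∈ L ∧ P v) : cnt L P j = s.ncard := by
  unfold cnt
  rw [List.take_of_length_le h, List.countP_eq_length_filter]
  have h1 : (L.filter (fun x => decide (P x))).Nodup := hnd.filter _
  rw [← List.toFinset_card_of_nodup h1, ← Set.ncard_coe_finset]
  congr 1
  ext v
  simp [hs]

/-- cyclic successor of an index -/
private def nx (n j : ℕ) : ℕ := if j + 1 < n then j + 1 else 0

/-- adjacency in the cycle given by a list -/
private def cadj {V : Type} (L : List V) (u v : V) : Prop :=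
  ∃ j, j < L.length ∧ ((L[j]? = some u ∧ L[nx L.length j]? = some v) ∨
    (L[j]? = some v ∧ L[nx L.length j]? = some u))

private lemma get_inj {V : Type} {L : List V} (hnd : L.Nodup) {i j : ℕ} {x : V}
    (hi : L[i]? = some x) (hj : L[j]? = some x) : i = j := by
  have h1 : i < L.length := by
    by_contra h
    rw [List.getElem?_eq_none (by omega)] at hi
    exact absurd hi (by simp)
  exact (List.getElem?_inj h1 hnd).1 (hi.trans hj.symm)

private lemma get_lt {V : Type} {L : List V} {i : ℕ} {x : V}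
    (hi : L[i]? = some x) : i < L.length := by
  by_contra h
  rw [List.getElem?_eq_none (by omega)] at hi
  exact absurd hi (by simp)

private lemma get_mem {V : Type} {L : List V} {i : ℕ} {x : V}
    (hi : L[i]? = some x) : x ∈ L := List.mem_of_getElem? hi

private lemma exists_get {V : Type} {L : List V} {i : ℕ} (hi : i < L.length) :
    ∃ x, L[i]? = some x := ⟨L[i], List.getElem?_eq_getElem hi⟩

private lemma cadj_pair {V : Type} (L : List V) (hnd : L.Nodup) (h3 : 3 ≤ L.length) (u : V)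
    (hu : u ∈ L) : ∃ x y, x ≠ y ∧ ∀ v, cadj L u v ↔ v = x ∨ v = y := by
  obtain ⟨i, hi⟩ := List.mem_iff_getElem?.1 hu
  have hil := get_lt hi
  have hn : nx L.length i < L.length := by unfold nx; split_ifs <;> omega
  have hp : (if i = 0 then L.length - 1 else i - 1) < L.length := by split_ifs <;> omega
  obtain ⟨x, hx⟩ := exists_get hn
  obtain ⟨y, hy⟩ := exists_get hp
  refine ⟨x, y, ?_, ?_⟩
  · rintro rfl
    have := get_inj hnd hx hy
    unfold nx at this
    split_ifs at this <;> omega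
  · intro v
    constructor
    · rintro ⟨j, hj, ⟨h1, h2⟩ | ⟨h1, h2⟩⟩
      · have := get_inj hnd h1 hi
        subst this
        rw [hx] at h2
        left
        exact (Option.some.inj h2).symm
      · have := get_inj hnd h2 hi
        right
        have h4 : j = (if i = 0 then L.length - 1 else i - 1) := by
          unfold nx at this
          split_ifs at this ⊢ <;> omega
        rw [h4, hy] at h1
        exact (Option.some.inj h1).symm
    · rintro (rfl | rfl)
      · exact ⟨i, hil, Or.inl ⟨hi, hx⟩⟩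
      · refine ⟨_, hp, Or.inr ⟨hy, ?_⟩⟩
        have h4 : nx L.length (if i = 0 then L.length - 1 else i - 1) = i := by
          unfold nx
          split_ifs <;> omega
        rw [h4, hi]

/-- adjacency in the arcs of a list -/
private def wadj {V : Type} (L : List V) (P : V → Prop) (u v : V) : Prop :=
  ∃ j, Odd (cnt L P (j + 1)) ∧ ((L[j]? = some u ∧ L[j + 1]? = some v) ∨
    (L[j]? = some v ∧ L[j + 1]? = some u))

private lemma wadj_symm {V : Type} {L : List V} {P : V → Prop} {u v : V} (h : wadj L P u v) :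
    wadj L P v u := by
  obtain ⟨j, h1, h2⟩ := h
  exact ⟨j, h1, h2.symm⟩

private lemma cadj_symm {V : Type} {L : List V} {u v : V} (h : cadj L u v) :
    cadj L v u := by
  obtain ⟨j, h1, h2⟩ := h
  exact ⟨j, h1, h2.symm⟩

private lemma wadj_mem {V : Type} {L : List V} {P : V → Prop} {u v : V} (h : wadj L P u v) :
    u ∈ L ∧ v ∈ L := by
  obtain ⟨j, h1, ⟨h2, h3⟩ | ⟨h2, h3⟩⟩ := h
  · exact ⟨get_mem h2, get_mem h3⟩
  · exact ⟨get_mem h3, get_mem h2⟩

private lemma cadj_mem {V : Type} {L : List V} {u v : V} (h : cadj L u v) :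
    u ∈ L ∧ v ∈ L := by
  obtain ⟨j, h1, ⟨h2, h3⟩ | ⟨h2, h3⟩⟩ := h
  · exact ⟨get_mem h2, get_mem h3⟩
  · exact ⟨get_mem h3, get_mem h2⟩

private lemma wadj_ne {V : Type} {L : List V} (hnd : L.Nodup) {P : V → Prop} {u v : V}
    (h : wadj L P u v) : u ≠ v := by
  obtain ⟨j, h1, h2⟩ := h
  rintro rfl
  have := get_inj hnd (h2.elim (fun h => h.1) (fun h => h.1)) (h2.elim (fun h => h.2) (fun h => h.2))
  omega

private lemma cadj_ne {V : Type} {L : List V} (hnd : L.Nodup) (h3 : 3 ≤ L.length) {u v : V}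
    (h : cadj L u v) : u ≠ v := by
  obtain ⟨j, h1, h2⟩ := h
  rintro rfl
  have := get_inj hnd (h2.elim (fun h => h.1) (fun h => h.1)) (h2.elim (fun h => h.2) (fun h => h.2))
  unfold nx at this
  split_ifs at this <;> omega

/-- neighbours along the arcs of the vertex with index `j` -/
private lemma wadj_iff {V : Type} {L : List V} (hnd : L.Nodup) {P : V → Prop} {j : ℕ} {u : V}
    (hu : L[j]? = some u) (v : V) :
    wadj L P u v ↔ (Odd (cnt L P (j + 1)) ∧ L[j + 1]? = some v) ∨
      (Odd (cnt L P j) ∧ ∃ i, j = i + 1 ∧ L[i]? = some v) := by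
  constructor
  · rintro ⟨i, h1, ⟨h2, h3⟩ | ⟨h2, h3⟩⟩
    · have := get_inj hnd h2 hu
      subst this
      exact Or.inl ⟨h1, h3⟩
    · have := get_inj hnd h3 hu
      subst this
      exact Or.inr ⟨h1, i, rfl, h2⟩
  · rintro (⟨h1, h2⟩ | ⟨h1, i, rfl, h2⟩)
    · exact ⟨j, h1, Or.inl ⟨hu, h2⟩⟩
    · exact ⟨i, h1, Or.inr ⟨h2, hu⟩⟩

private lemma base_graph {V B : Type} (Γ : SimpleGraph V) (τ : V → B)
    (gate : V → Prop) (opp : V → V)
    (hopp : ∀ v, gate v → gate (opp v) ∧ opp (opp v) = v ∧ τ (opp v) ≠ τ v ∧ Γ.Adj v (opp v))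
    (E : SimpleGraph V) (hEfin : {v : V | ∃ w, E.Adj v w}.Finite)
    (hEgate : ∀ u v, E.Adj u v → τ u ≠ τ v → gate u ∧ v = opp u)
    (U : Set B) (hUfin : U.Finite)
    (hdeg : ∀ v, τ v ∉ U → (E.neighborSet v).Nonempty → (E.neighborSet v).ncard = 2)
    (A : V → Prop)
    (hA : ∀ v, A v → gate v ∧ τ v ∈ U ∧ τ (opp v) ∈ U ∧ A (opp v))
    (hpar : ∀ b ∈ U, Even ({v : V | gate v ∧ τ v = b ∧
        ((E.Adj v (opp v) ∧ τ (opp v) ∉ U) ∨ A v)}.ncard))
    (W C : B → List V) (m : B → ℕ → ℕ)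
    (hrails : ∀ b ∈ U, Rails Γ τ gate b (W b) (C b) (m b)) :
    ∃ (Act : V → Prop) (G0 : SimpleGraph V),
      (∀ v, Act v ↔ gate v ∧ ((E.Adj v (opp v) ∧ τ (opp v) ∉ U) ∨ A v)) ∧
      (∀ b ∈ U, ∀ j, Odd (cnt (W b) Act j) → j < (W b).length) ∧
      G0.IsCycles ∧ {v : V | ∃ w, G0.Adj v w}.Finite ∧
      (∀ u, τ u ∉ U → ∀ v, G0.Adj u v ↔ E.Adj u v) ∧
      (∀ b ∈ U, ∀ j u, (W b)[j]? = some u → ∀ v, G0.Adj u v ↔ (Act u ∧ v = opp u) ∨
        ((Odd (cnt (W b) Act (j + 1)) ∧ (W b)[j + 1]? = some v) ∨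
          (Odd (cnt (W b) Act j) ∧ ∃ i, j = i + 1 ∧ (W b)[i]? = some v))) ∧
      (∀ b ∈ U, ∀ u ∈ C b, ∀ v, G0.Adj u v ↔ cadj (C b) u v) ∧
      (∀ u, τ u ∈ U → (∃ v, G0.Adj u v) → u ∈ W (τ u) ∨ u ∈ C (τ u)) := by
  classical
  -- active sites
  let Act : V → Prop := fun v => gate v ∧ ((E.Adj v (opp v) ∧ τ (opp v) ∉ U) ∨ A v)
  have hodd_lt : ∀ b ∈ U, ∀ j, Odd (cnt (W b) Act j) → j < (W b).length := by
    intro b hb j hj
    by_contra hlt
    have h1 := cnt_last (W b) Act j (by omega) (hrails b hb).W_nodup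
      {v : V | gate v ∧ τ v = b ∧ ((E.Adj v (opp v) ∧ τ (opp v) ∉ U) ∨ A v)} (by
        intro v
        constructor
        · rintro ⟨h1, h2, h3⟩
          exact ⟨(hrails b hb).gates v h1 h2, h1, h3⟩
        · rintro ⟨h1, h2, h3⟩
          exact ⟨h2, (hrails b hb).W_tile v h1, h3⟩)
    rw [h1] at hj
    exact (Nat.not_odd_iff_even.2 (hpar b hb)) hj
  let ext : V → V → Prop := fun u v =>
    (E.Adj u v ∧ (τ u ∉ U ∨ τ v ∉ U)) ∨ (A u ∧ v = opp u) ∨ (A v ∧ u = opp v)
  have hext_symm : ∀ u v, ext u v → ext v u := by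
    rintro u v (⟨h1, h2⟩ | h | h)
    · exact Or.inl ⟨h1.symm, h2.symm⟩
    · exact Or.inr (Or.inr h)
    · exact Or.inr (Or.inl h)
  have hext_in : ∀ u v, τ u ∈ U → (ext u v ↔ Act u ∧ v = opp u) := by
    intro u v hu
    constructor
    · rintro (⟨h1, h2⟩ | ⟨h1, h2⟩ | ⟨h1, h2⟩)
      · have hv : τ v ∉ U := h2.resolve_left (fun h => h hu)
        have hne : τ u ≠ τ v := fun h => hv (h ▸ hu)
        obtain ⟨h3, h4⟩ := hEgate u v h1 hne
        refine ⟨⟨h3, Or.inl ⟨?_, ?_⟩⟩, h4⟩
        · rw [← h4]; exact h1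
        · rw [← h4]; exact hv
      · exact ⟨⟨(hA u h1).1, Or.inr h1⟩, h2⟩
      · have h3 := hA v h1
        have h4 : v = opp u := by rw [h2, (hopp v h3.1).2.1]
        have h5 : A u := by rw [h2]; exact h3.2.2.2
        exact ⟨⟨(hA u h5).1, Or.inr h5⟩, h4⟩
    · rintro ⟨⟨h1, h2⟩, rfl⟩
      rcases h2 with ⟨h2, h3⟩ | h2
      · exact Or.inl ⟨h2, Or.inr h3⟩
      · exact Or.inr (Or.inl ⟨h2, rfl⟩)
  have hext_out : ∀ u v, τ u ∉ U → (ext u v ↔ E.Adj u v) := by
    intro u v hu
    constructor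
    · rintro (⟨h1, h2⟩ | ⟨h1, h2⟩ | ⟨h1, h2⟩)
      · exact h1
      · exact absurd (hA u h1).2.1 hu
      · rw [h2] at hu
        exact absurd (hA v h1).2.2.1 hu
    · intro h
      exact Or.inl ⟨h, Or.inl hu⟩
  have hext_ne : ∀ u v, ext u v → u ≠ v := by
    rintro u v (⟨h1, h2⟩ | ⟨h1, h2⟩ | ⟨h1, h2⟩)
    · exact h1.ne
    · rintro rfl
      have h3 := (hopp u (hA u h1).1).2.2.1
      rw [← h2] at h3
      exact h3 rfl
    · rintro rfl
      have h3 := (hopp u (hA u h1).1).2.2.1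
      rw [← h2] at h3
      exact h3 rfl
  let G0 : SimpleGraph V :=
    { Adj := fun u v => ext u v ∨ (∃ b ∈ U, wadj (W b) Act u v) ∨ (∃ b ∈ U, cadj (C b) u v)
      symm := ⟨by
        rintro u v (h | ⟨b, hb, h⟩ | ⟨b, hb, h⟩)
        · exact Or.inl (hext_symm _ _ h)
        · exact Or.inr (Or.inl ⟨b, hb, wadj_symm h⟩)
        · exact Or.inr (Or.inr ⟨b, hb, cadj_symm h⟩)⟩
      loopless := ⟨by
        rintro u (h | ⟨b, hb, h⟩ | ⟨b, hb, h⟩)
        · exact hext_ne _ _ h rfl
        · exact wadj_ne (hrails b hb).W_nodup h rfl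
        · exact cadj_ne (hrails b hb).C_nodup (hrails b hb).C_len h rfl⟩ }
  have hG0 : ∀ u v, G0.Adj u v ↔ ext u v ∨ (∃ b ∈ U, wadj (W b) Act u v) ∨
      (∃ b ∈ U, cadj (C b) u v) := fun _ _ => Iff.rfl
  have hWt : ∀ b ∈ U, ∀ u ∈ W b, τ u = b := fun b hb => (hrails b hb).W_tile
  have hCt : ∀ b ∈ U, ∀ u ∈ C b, τ u = b := fun b hb => (hrails b hb).C_tile
  have hwt : ∀ u v, (∃ b ∈ U, wadj (W b) Act u v) → τ u ∈ U ∧ τ v ∈ U := by
    rintro u v ⟨b, hb, h⟩
    obtain ⟨h1, h2⟩ := wadj_mem h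
    rw [hWt b hb u h1, hWt b hb v h2]
    exact ⟨hb, hb⟩
  have hct : ∀ u v, (∃ b ∈ U, cadj (C b) u v) → τ u ∈ U ∧ τ v ∈ U := by
    rintro u v ⟨b, hb, h⟩
    obtain ⟨h1, h2⟩ := cadj_mem h
    rw [hCt b hb u h1, hCt b hb v h2]
    exact ⟨hb, hb⟩
  have hN_out : ∀ u, τ u ∉ U → ∀ v, G0.Adj u v ↔ E.Adj u v := by
    intro u hu v
    rw [hG0, ← hext_out u v hu]
    constructor
    · rintro (h | h | h)
      · exact h
      · exact absurd (hwt u v h).1 hu
      · exact absurd (hct u v h).1 hu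
    · exact Or.inl
  have hN_W : ∀ b ∈ U, ∀ j u, (W b)[j]? = some u → ∀ v, G0.Adj u v ↔ (Act u ∧ v = opp u) ∨
      ((Odd (cnt (W b) Act (j + 1)) ∧ (W b)[j + 1]? = some v) ∨
        (Odd (cnt (W b) Act j) ∧ ∃ i, j = i + 1 ∧ (W b)[i]? = some v)) := by
    intro b hb j u hu v
    have hub : τ u = b := hWt b hb u (get_mem hu)
    rw [hG0, hext_in u v (hub ▸ hb), ← wadj_iff (hrails b hb).W_nodup hu]
    constructor
    · rintro (h | ⟨b', hb', h⟩ | ⟨b', hb', h⟩)
      · exact Or.inl h
      · have h1 := hWt b' hb' u (wadj_mem h).1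
        rw [hub] at h1
        subst h1
        exact Or.inr h
      · have h1 := hCt b' hb' u (cadj_mem h).1
        rw [hub] at h1
        subst h1
        exact absurd (cadj_mem h).1 ((hrails b hb).disj u (get_mem hu))
    · rintro (h | h)
      · exact Or.inl h
      · exact Or.inr (Or.inl ⟨b, hb, h⟩)
  have hN_C : ∀ b ∈ U, ∀ u ∈ C b, ∀ v, G0.Adj u v ↔ cadj (C b) u v := by
    intro b hb u hu v
    have hub : τ u = b := hCt b hb u hu
    rw [hG0, hext_in u v (hub ▸ hb)]
    constructor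
    · rintro (h | ⟨b', hb', h⟩ | ⟨b', hb', h⟩)
      · exact absurd hu ((hrails b hb).disj u ((hrails b hb).gates u h.1.1 hub))
      · have h1 := hWt b' hb' u (wadj_mem h).1
        rw [hub] at h1
        subst h1
        exact absurd hu ((hrails b hb).disj u (wadj_mem h).1)
      · have h1 := hCt b' hb' u (cadj_mem h).1
        rw [hub] at h1
        subst h1
        exact h
    · intro h
      exact Or.inr (Or.inr ⟨b, hb, h⟩)
  have hN_supp : ∀ u, τ u ∈ U → (∃ v, G0.Adj u v) → u ∈ W (τ u) ∨ u ∈ C (τ u) := by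
    rintro u hu ⟨v, h⟩
    rw [hG0, hext_in u v hu] at h
    rcases h with h | ⟨b', hb', h⟩ | ⟨b', hb', h⟩
    · exact Or.inl ((hrails (τ u) hu).gates u h.1.1 rfl)
    · left
      rw [hWt b' hb' u (wadj_mem h).1]
      exact (wadj_mem h).1
    · right
      rw [hCt b' hb' u (cadj_mem h).1]
      exact (cadj_mem h).1
  -- two neighbours
  have htwo : ∀ u, (∃ v, G0.Adj u v) → (G0.neighborSet u).ncard = 2 := by
    intro u hne
    by_cases hu : τ u ∈ U
    · suffices h : ∃ x y, x ≠ y ∧ ∀ v, G0.Adj u v ↔ v = x ∨ v = y by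
        obtain ⟨x, y, hxy, h⟩ := h
        rw [Set.ncard_eq_two]
        refine ⟨x, y, hxy, ?_⟩
        ext v
        rw [SimpleGraph.mem_neighborSet, h]
        simp
      rcases hN_supp u hu hne with h | h
      · obtain ⟨j, hj⟩ := List.mem_iff_getElem?.1 h
        have hN := hN_W (τ u) hu j u hj
        have hsucc := odd_cnt_succ (W (τ u)) Act j u hj
        have hnd := (hrails (τ u) hu).W_nodup
        have hτ : Act u → ∀ v ∈ W (τ u), opp u ≠ v := by
          rintro h1 v hv rfl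
          exact (hopp u h1.1).2.2.1 (hWt _ hu _ hv)
        by_cases ha : Act u
        · by_cases hp : Odd (cnt (W (τ u)) Act j)
          · have hq : ¬ Odd (cnt (W (τ u)) Act (j + 1)) := fun h =>
              (hsucc.1 h).elim (fun h => h.2 ha) (fun h => h.1 hp)
            have hj0 : j ≠ 0 := by
              rintro rfl
              rw [cnt_zero] at hp
              simp at hp
            obtain ⟨i, rfl⟩ := Nat.exists_eq_succ_of_ne_zero hj0
            obtain ⟨y, hy⟩ := exists_get (show i < (W (τ u)).length by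
              have := get_lt hj
              omega)
            refine ⟨opp u, y, hτ ha y (get_mem hy), fun v => ?_⟩
            rw [hN]
            constructor
            · rintro (h | h | ⟨_, i', hi', h⟩)
              · exact Or.inl h.2
              · exact absurd h.1 hq
              · have : i' = i := by omega
                subst this
                rw [hy] at h
                exact Or.inr (Option.some.inj h).symm
            · rintro (rfl | rfl)
              · exact Or.inl ⟨ha, rfl⟩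
              · exact Or.inr (Or.inr ⟨hp, i, rfl, hy⟩)
          · have hq : Odd (cnt (W (τ u)) Act (j + 1)) := hsucc.2 (Or.inr ⟨hp, ha⟩)
            obtain ⟨y, hy⟩ := exists_get (hodd_lt _ hu _ hq)
            refine ⟨opp u, y, hτ ha y (get_mem hy), fun v => ?_⟩
            rw [hN]
            constructor
            · rintro (h | ⟨_, h⟩ | h)
              · exact Or.inl h.2
              · rw [hy] at h
                exact Or.inr (Option.some.inj h).symm
              · exact absurd h.1 hp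
            · rintro (rfl | rfl)
              · exact Or.inl ⟨ha, rfl⟩
              · exact Or.inr (Or.inl ⟨hq, hy⟩)
        · by_cases hp : Odd (cnt (W (τ u)) Act j)
          · have hq : Odd (cnt (W (τ u)) Act (j + 1)) := hsucc.2 (Or.inl ⟨hp, ha⟩)
            have hj0 : j ≠ 0 := by
              rintro rfl
              rw [cnt_zero] at hp
              simp at hp
            obtain ⟨i, rfl⟩ := Nat.exists_eq_succ_of_ne_zero hj0
            obtain ⟨x, hx⟩ := exists_get (show i < (W (τ u)).length by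
              have := get_lt hj
              omega)
            obtain ⟨y, hy⟩ := exists_get (hodd_lt _ hu _ hq)
            refine ⟨x, y, ?_, fun v => ?_⟩
            · rintro rfl
              have := get_inj hnd hx hy
              omega
            rw [hN]
            constructor
            · rintro (h | ⟨_, h⟩ | ⟨_, i', hi', h⟩)
              · exact absurd h.1 ha
              · rw [hy] at h
                exact Or.inr (Option.some.inj h).symm
              · have : i' = i := by omega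
                subst this
                rw [hx] at h
                exact Or.inl (Option.some.inj h).symm
            · rintro (rfl | rfl)
              · exact Or.inr (Or.inr ⟨hp, i, rfl, hx⟩)
              · exact Or.inr (Or.inl ⟨hq, hy⟩)
          · exfalso
            have hq : ¬ Odd (cnt (W (τ u)) Act (j + 1)) := fun h =>
              (hsucc.1 h).elim (fun h => hp h.1) (fun h => ha h.2)
            obtain ⟨v, hv⟩ := hne
            rw [hN] at hv
            rcases hv with hv | hv | hv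
            · exact ha hv.1
            · exact hq hv.1
            · exact hp hv.1
      · obtain ⟨x, y, hxy, h1⟩ := cadj_pair (C (τ u)) (hrails _ hu).C_nodup (hrails _ hu).C_len u h
        exact ⟨x, y, hxy, fun v => by rw [hN_C (τ u) hu u h, h1]⟩
    · have h1 : G0.neighborSet u = E.neighborSet u := by
        ext v
        exact hN_out u hu v
      rw [h1]
      apply hdeg u hu
      rw [← h1]
      exact hne
  have hcyc : G0.IsCycles := fun u hu => htwo u hu
  have hfin : {v : V | ∃ w, G0.Adj v w}.Finite := by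
    apply Set.Finite.subset (hEfin.union (hUfin.biUnion (fun b _ =>
      ((W b).finite_toSet.union (C b).finite_toSet))))
    rintro u ⟨w, hw⟩
    by_cases hu : τ u ∈ U
    · right
      rw [Set.mem_iUnion₂]
      exact ⟨τ u, hu, hN_supp u hu ⟨w, hw⟩⟩
    · left
      exact ⟨w, (hN_out u hu w).1 hw⟩
  exact ⟨Act, G0, fun _ => Iff.rfl, hodd_lt, hcyc, hfin, hN_out, hN_W, hN_C, hN_supp⟩

end helpers49

/-- Abstract surgery. `E` is a graph whose restriction to the tiles outside `U` consists of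
strands; the tiles of `U` are cleared and their active gates are reconnected inside the tile,
in such a way that everything becomes one single cycle. -/
theorem abstract_surgery {V B : Type} (Γ : SimpleGraph V) (τ : V → B)
    (gate : V → Prop) (opp : V → V)
    (hopp : ∀ v, gate v → gate (opp v) ∧ opp (opp v) = v ∧ τ (opp v) ≠ τ v ∧ Γ.Adj v (opp v))
    (E : SimpleGraph V) (hEΓ : E ≤ Γ) (hEfin : {v : V | ∃ w, E.Adj v w}.Finite)
    (hEgate : ∀ u v, E.Adj u v → τ u ≠ τ v → gate u ∧ v = opp u)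
    (U : Set B) (hUfin : U.Finite) (hUne : U.Nonempty)
    (hdeg : ∀ v, τ v ∉ U → (E.neighborSet v).Nonempty → (E.neighborSet v).ncard = 2)
    (A : V → Prop)
    (hA : ∀ v, A v → gate v ∧ τ v ∈ U ∧ τ (opp v) ∈ U ∧ A (opp v))
    (hpar : ∀ b ∈ U, Even ({v : V | gate v ∧ τ v = b ∧
        ((E.Adj v (opp v) ∧ τ (opp v) ∉ U) ∨ A v)}.ncard))
    (hconn : ∀ (α : Type) (f : V → α) (g : B → α),
      (∀ u v, E.Adj u v → τ u ∉ U → τ v ∉ U → f u = f v) →
      (∀ u v, E.Adj u v → τ u ∉ U → τ v ∈ U → f u = g (τ v)) →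
      (∀ u, A u → g (τ u) = g (τ (opp u))) →
      (∀ b ∈ U, ∀ b' ∈ U, g b = g b') ∧
        (∀ v, τ v ∉ U → (∃ w, E.Adj v w) → ∀ b ∈ U, f v = g b))
    (W C : B → List V) (m : B → ℕ → ℕ)
    (hrails : ∀ b ∈ U, Rails Γ τ gate b (W b) (C b) (m b)) :
    ∃ G : SimpleGraph V, G ≤ Γ ∧ G.IsCycles ∧
      {v : V | ∃ w, G.Adj v w}.Finite ∧
      (∃ u v, G.Adj u v) ∧
      (∀ u v, (∃ w, G.Adj u w) → (∃ w, G.Adj v w) → G.Reachable u v) ∧
      (∀ u v, (τ u ∉ U ∨ τ v ∉ U) → (G.Adj u v ↔ E.Adj u v)) ∧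
      (∀ v, (∃ w, G.Adj v w) → τ v ∈ U → v ∈ W (τ v) ∨ v ∈ C (τ v)) ∧
      (∀ b ∈ U, ∃ v w, τ v = b ∧ G.Adj v w) := by
  classical
  obtain ⟨b0, hb0⟩ := id hUne
  obtain ⟨Act, G0, hAct, hodd_lt, hcyc, hfin, hN_out, hN_W, hN_C, hN_supp⟩ :=
    base_graph Γ τ gate opp hopp E hEfin hEgate U hUfin hdeg A hA hpar W C m hrails
  have hWt : ∀ b ∈ U, ∀ u ∈ W b, τ u = b := fun b hb => (hrails b hb).W_tile
  have hCt : ∀ b ∈ U, ∀ u ∈ C b, τ u = b := fun b hb => (hrails b hb).C_tile
  have hgate : ∀ v, Act v → gate v := fun v h => ((hAct v).1 h).1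
  have hwpos : ∀ b ∈ U, ∀ {j : ℕ}, ¬ Odd (cnt (W b) Act 0) := by
    intro b _ j h
    rw [cnt_zero] at h
    simp at h
  -- subgraph of `Γ`
  have hWadj : ∀ b ∈ U, ∀ j u v, (W b)[j]? = some u → (W b)[j + 1]? = some v → Γ.Adj u v := by
    intro b hb j u v hu hv
    have h1 := (hrails b hb).W_adj j (get_lt hv)
    obtain ⟨_, h2⟩ := List.getElem?_eq_some_iff.1 hu
    obtain ⟨_, h3⟩ := List.getElem?_eq_some_iff.1 hv
    rw [h2, h3] at h1
    exact h1
  have hCadj : ∀ b ∈ U, ∀ j u v, (C b)[j]? = some u → (C b)[j + 1]? = some v → Γ.Adj u v := by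
    intro b hb j u v hu hv
    have h1 := (hrails b hb).C_adj j (get_lt hv)
    obtain ⟨_, h2⟩ := List.getElem?_eq_some_iff.1 hu
    obtain ⟨_, h3⟩ := List.getElem?_eq_some_iff.1 hv
    rw [h2, h3] at h1
    exact h1
  have hCnx : ∀ b ∈ U, ∀ j u v, (C b)[j]? = some u → (C b)[nx (C b).length j]? = some v →
      Γ.Adj u v := by
    intro b hb j u v hu hv
    unfold nx at hv
    split_ifs at hv with h
    · exact hCadj b hb j u v hu hv
    · refine (hrails b hb).C_close v ?_ u ?_
      · rw [List.head?_eq_getElem?]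
        exact hv
      · rw [List.getLast?_eq_getElem?]
        have h1 := get_lt hu
        have h2 : (C b).length - 1 = j := by omega
        rw [h2]
        exact hu
  have hG0Γ : G0 ≤ Γ := by
    intro u v h
    by_cases hu : τ u ∈ U
    · rcases hN_supp u hu ⟨v, h⟩ with h1 | h1
      · obtain ⟨j, hj⟩ := List.mem_iff_getElem?.1 h1
        rw [hN_W (τ u) hu j u hj] at h
        rcases h with h | h | ⟨_, i, rfl, h⟩
        · rw [h.2]
          exact (hopp u (hgate u h.1)).2.2.2
        · exact hWadj _ hu _ _ _ hj h.2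
        · exact (hWadj _ hu _ _ _ h hj).symm
      · rw [hN_C (τ u) hu u h1] at h
        obtain ⟨j, _, ⟨h2, h3⟩ | ⟨h2, h3⟩⟩ := h
        · exact hCnx _ hu _ _ _ h2 h3
        · exact (hCnx _ hu _ _ _ h2 h3).symm
    · exact hEΓ ((hN_out u hu v).1 h)
  -- squares
  have hC0 : ∃ z, (C b0)[0]? = some z := exists_get (by
    have := (hrails b0 hb0).C_len
    omega)
  obtain ⟨v0, hv0⟩ := hC0
  let I : Finset (Σ _ : B, ℕ) := hUfin.toFinset.sigma (fun b =>
    (Finset.range (W b).length).filter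
      (fun j => ∃ x, (W b)[j]? = some x ∧ Act x ∧ Odd (cnt (W b) Act (j + 1))))
  let sqf : (Σ _ : B, ℕ) → V × V × V × V := fun p =>
    ((W p.1)[p.2]?.getD v0, (W p.1)[p.2 + 1]?.getD v0, (C p.1)[m p.1 p.2]?.getD v0,
      (C p.1)[m p.1 p.2 + 1]?.getD v0)
  have hImem : ∀ b j, (⟨b, j⟩ : Σ _ : B, ℕ) ∈ I ↔ b ∈ U ∧
      ∃ x, (W b)[j]? = some x ∧ Act x ∧ Odd (cnt (W b) Act (j + 1)) := by
    intro b j
    simp only [I, Finset.mem_sigma, Set.Finite.mem_toFinset, Finset.mem_filter, Finset.mem_range]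
    constructor
    · rintro ⟨h1, h2, h3⟩
      exact ⟨h1, h3⟩
    · rintro ⟨h1, x, h3, h4⟩
      exact ⟨h1, get_lt h3, x, h3, h4⟩
  have hIdata : ∀ b j, (⟨b, j⟩ : Σ _ : B, ℕ) ∈ I → b ∈ U ∧ ∃ x y z w, (W b)[j]? = some x ∧
      (W b)[j + 1]? = some y ∧ (C b)[m b j]? = some z ∧ (C b)[m b j + 1]? = some w ∧
      Act x ∧ Odd (cnt (W b) Act (j + 1)) ∧ Γ.Adj x z ∧ Γ.Adj y w ∧
      sqf ⟨b, j⟩ = (x, y, z, w) := by
    intro b j h
    rw [hImem] at h
    obtain ⟨hb, x, hx, hax, ho⟩ := h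
    have hlt := hodd_lt b hb _ ho
    obtain ⟨y, hy⟩ := exists_get hlt
    have hx' := hx
    rw [List.getElem?_eq_getElem (by omega)] at hx'
    have hy' := hy
    rw [List.getElem?_eq_getElem hlt] at hy'
    obtain ⟨h', h1, h2⟩ := (hrails b hb).sq j hlt (by
      rw [Option.some.inj hx']
      exact hgate x hax)
    rw [Option.some.inj hx'] at h1
    rw [Option.some.inj hy'] at h2
    have hz : (C b)[m b j]? = some (C b)[m b j] := List.getElem?_eq_getElem (by omega)
    have hw : (C b)[m b j + 1]? = some (C b)[m b j + 1] := List.getElem?_eq_getElem h'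
    refine ⟨hb, x, y, _, _, hx, hy, hz, hw, hax, ho, h1, h2, ?_⟩
    simp only [sqf, hx, hy, hz, hw, Option.getD_some]
  have hcadj_next : ∀ b ∈ U, ∀ (k : ℕ) (z w : V), (C b)[k]? = some z → (C b)[k + 1]? = some w →
      cadj (C b) z w := by
    intro b hb k z w hz hw
    refine ⟨k, get_lt hz, Or.inl ⟨hz, ?_⟩⟩
    have h1 := get_lt hw
    have h2 : nx (C b).length k = k + 1 := by unfold nx; rw [if_pos h1]
    rw [h2]
    exact hw
  let S : List (V × V × V × V) := I.toList.map sqf
  have hSmem : ∀ q, q ∈ S ↔ ∃ b j, (⟨b, j⟩ : Σ _ : B, ℕ) ∈ I ∧ sqf ⟨b, j⟩ = q := by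
    intro q
    simp only [S, List.mem_map, Finset.mem_toList]
    constructor
    · rintro ⟨⟨b, j⟩, h1, h2⟩
      exact ⟨b, j, h1, h2⟩
    · rintro ⟨b, j, h1, h2⟩
      exact ⟨⟨b, j⟩, h1, h2⟩
  have hS : ∀ q ∈ S, G0.Adj q.1 q.2.1 ∧ G0.Adj q.2.2.1 q.2.2.2 := by
    intro q hq
    rw [hSmem] at hq
    obtain ⟨b, j, hI, rfl⟩ := hq
    obtain ⟨hb, x, y, z, w, hx, hy, hz, hw, hax, ho, h1, h2, hq⟩ := hIdata b j hI
    rw [hq]
    refine ⟨?_, ?_⟩
    · exact (hN_W b hb j x hx y).2 (Or.inr (Or.inl ⟨ho, hy⟩))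
    · exact (hN_C b hb z (get_mem hz) w).2 (hcadj_next b hb _ _ _ hz hw)
  have hnd : ∀ q ∈ S, [q.1, q.2.1, q.2.2.1, q.2.2.2].Nodup := by
    intro q hq
    rw [hSmem] at hq
    obtain ⟨b, j, hI, rfl⟩ := hq
    obtain ⟨hb, x, y, z, w, hx, hy, hz, hw, hax, ho, h1, h2, hq⟩ := hIdata b j hI
    rw [hq]
    have hdj := (hrails b hb).disj
    have hWn := (hrails b hb).W_nodup
    have hCn := (hrails b hb).C_nodup
    have n1 : x ≠ y := by
      rintro rfl
      have := get_inj hWn hx hy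
      omega
    have n2 : z ≠ w := by
      rintro rfl
      have := get_inj hCn hz hw
      omega
    have n3 : x ≠ z := by
      rintro rfl
      exact hdj x (get_mem hx) (get_mem hz)
    have n4 : x ≠ w := by
      rintro rfl
      exact hdj x (get_mem hx) (get_mem hw)
    have n5 : y ≠ z := by
      rintro rfl
      exact hdj y (get_mem hy) (get_mem hz)
    have n6 : y ≠ w := by
      rintro rfl
      exact hdj y (get_mem hy) (get_mem hw)
    simp [n1, n2, n3, n4, n5, n6]
  have hchar : ∀ b j, (⟨b, j⟩ : Σ _ : B, ℕ) ∈ I → ∀ v,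
      v ∈ [(sqf ⟨b, j⟩).1, (sqf ⟨b, j⟩).2.1, (sqf ⟨b, j⟩).2.2.1, (sqf ⟨b, j⟩).2.2.2] →
      (∃ i, (i = j ∨ i = j + 1) ∧ (W b)[i]? = some v) ∨
        (∃ i, (i = m b j ∨ i = m b j + 1) ∧ (C b)[i]? = some v) := by
    intro b j hI v hv
    obtain ⟨hb, x, y, z, w, hx, hy, hz, hw, hax, ho, h1, h2, hq⟩ := hIdata b j hI
    rw [hq] at hv
    simp only [List.mem_cons, List.not_mem_nil, or_false] at hv
    rcases hv with rfl | rfl | rfl | rfl
    · exact Or.inl ⟨j, Or.inl rfl, hx⟩
    · exact Or.inl ⟨j + 1, Or.inr rfl, hy⟩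
    · exact Or.inr ⟨m b j, Or.inl rfl, hz⟩
    · exact Or.inr ⟨m b j + 1, Or.inr rfl, hw⟩
  have hsep : ∀ b j j', (⟨b, j⟩ : Σ _ : B, ℕ) ∈ I → (⟨b, j'⟩ : Σ _ : B, ℕ) ∈ I → j < j' →
      j + 2 ≤ j' ∧ m b j + 2 ≤ m b j' := by
    intro b j j' hI hI' hjj
    obtain ⟨hb, x, y, z, w, hx, hy, hz, hw, hax, ho, h1, h2, hq⟩ := hIdata b j hI
    obtain ⟨_, x', y', z', w', hx', hy', hz', hw', hax', ho', h1', h2', hq'⟩ := hIdata b j' hI'
    have h3 : ¬ Odd (cnt (W b) Act j') := by
      intro h4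
      rcases (odd_cnt_succ (W b) Act j' x' hx').1 ho' with h5 | h5
      · exact h5.2 hax'
      · exact h5.1 h4
    have h4 : j + 2 ≤ j' := by
      by_contra h5
      have h6 : j' = j + 1 := by omega
      rw [h6] at h3
      exact h3 ho
    refine ⟨h4, (hrails b hb).sq_sep j j' h4 (get_lt hy') ?_ ?_⟩
    · rw [List.getElem?_eq_getElem (get_lt hx)] at hx
      rw [Option.some.inj hx]
      exact hgate x hax
    · rw [List.getElem?_eq_getElem (get_lt hx')] at hx'
      rw [Option.some.inj hx']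
      exact hgate x' hax'
  have hdisj : S.Pairwise (fun q q' =>
      List.Disjoint [q.1, q.2.1, q.2.2.1, q.2.2.2] [q'.1, q'.2.1, q'.2.2.1, q'.2.2.2]) := by
    rw [List.pairwise_map]
    have h1 : I.toList.Pairwise (fun p p' => p ≠ p') := I.nodup_toList
    refine h1.imp_of_mem ?_
    rintro ⟨b, j⟩ ⟨b', j'⟩ hp hp' hne v hv hv'
    rw [Finset.mem_toList] at hp hp'
    have hb := ((hImem b j).1 hp).1
    have hb' := ((hImem b' j').1 hp').1
    have htv : τ v = b := by
      rcases hchar b j hp v hv with ⟨i, _, h⟩ | ⟨i, _, h⟩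
      · exact hWt b hb v (get_mem h)
      · exact hCt b hb v (get_mem h)
    have htv' : τ v = b' := by
      rcases hchar b' j' hp' v hv' with ⟨i, _, h⟩ | ⟨i, _, h⟩
      · exact hWt b' hb' v (get_mem h)
      · exact hCt b' hb' v (get_mem h)
    have hbb : b = b' := htv.symm.trans htv'
    subst hbb
    have hjj : j ≠ j' := by
      rintro rfl
      exact hne rfl
    rcases hchar b j hp v hv with ⟨i, hi, h⟩ | ⟨i, hi, h⟩ <;>
      rcases hchar b j' hp' v hv' with ⟨i', hi', h'⟩ | ⟨i', hi', h'⟩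
    · have h5 := get_inj (hrails b hb).W_nodup h h'
      rcases lt_or_gt_of_ne hjj with h6 | h6
      · have := (hsep b j j' hp hp' h6).1
        omega
      · have := (hsep b j' j hp' hp h6).1
        omega
    · exact (hrails b hb).disj v (get_mem h) (get_mem h')
    · exact (hrails b hb).disj v (get_mem h') (get_mem h)
    · have h5 := get_inj (hrails b hb).C_nodup h h'
      rcases lt_or_gt_of_ne hjj with h6 | h6
      · have := (hsep b j j' hp hp' h6).2
        omega
      · have := (hsep b j' j hp' hp h6).2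
        omega
  obtain ⟨G, hGc, hGs, hGr, hGq, hG1, hG2⟩ := merge_squares G0 hfin hcyc S hS hnd hdisj
  have hsqU : ∀ q ∈ S, τ q.1 ∈ U ∧ τ q.2.1 ∈ U ∧ τ q.2.2.1 ∈ U ∧ τ q.2.2.2 ∈ U := by
    intro q hq
    rw [hSmem] at hq
    obtain ⟨b, j, hI, rfl⟩ := hq
    obtain ⟨hb, x, y, z, w, hx, hy, hz, hw, hax, ho, h1, h2, hq⟩ := hIdata b j hI
    rw [hq]
    simp only
    rw [hWt b hb x (get_mem hx), hWt b hb y (get_mem hy), hCt b hb z (get_mem hz),
      hCt b hb w (get_mem hw)]
    exact ⟨hb, hb, hb, hb⟩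
  have hGΓ : G ≤ Γ := by
    intro u v h
    rcases hG1 u v h with h1 | ⟨q, hq, h1⟩
    · exact hG0Γ h1
    · rw [hSmem] at hq
      obtain ⟨b, j, hI, rfl⟩ := hq
      obtain ⟨hb, x, y, z, w, hx, hy, hz, hw, hax, ho, h3, h4, hq⟩ := hIdata b j hI
      rw [hq] at h1
      simp only [Sym2.eq_iff] at h1
      rcases h1 with (⟨rfl, rfl⟩ | ⟨rfl, rfl⟩) | (⟨rfl, rfl⟩ | ⟨rfl, rfl⟩)
      · exact h3
      · exact h3.symm
      · exact h4
      · exact h4.symm
  have hsupC : ∀ b ∈ U, ∀ u ∈ C b, ∃ v, G0.Adj u v := by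
    intro b hb u hu
    obtain ⟨x, y, _, h⟩ := cadj_pair (C b) (hrails b hb).C_nodup (hrails b hb).C_len u hu
    exact ⟨x, (hN_C b hb u hu x).2 ((h x).2 (Or.inl rfl))⟩
  have hreachC0 : ∀ b ∈ U, ∀ (k : ℕ) (z w : V), (C b)[0]? = some z → (C b)[k]? = some w →
      G0.Reachable z w := by
    intro b hb k
    induction k with
    | zero =>
      intro z w hz hw
      rw [hz] at hw
      rw [Option.some.inj hw]
    | succ k ih =>
      intro z w hz hw
      obtain ⟨y, hy⟩ := exists_get (show k < (C b).length by have := get_lt hw; omega)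
      refine (ih z y hz hy).trans (SimpleGraph.Adj.reachable ?_)
      exact (hN_C b hb y (get_mem hy) w).2 (hcadj_next b hb k y w hy hw)
  have hreachC : ∀ b ∈ U, ∀ z ∈ C b, ∀ w ∈ C b, G0.Reachable z w := by
    intro b hb z hz w hw
    obtain ⟨x, hx⟩ := exists_get (show 0 < (C b).length by
      have := (hrails b hb).C_len
      omega)
    obtain ⟨k, hk⟩ := List.mem_iff_getElem?.1 hz
    obtain ⟨l, hl⟩ := List.mem_iff_getElem?.1 hw
    exact (hreachC0 b hb k x z hx hk).symm.trans (hreachC0 b hb l x w hx hl)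
  have harc : ∀ b ∈ U, ∀ j u, (W b)[j]? = some u → Odd (cnt (W b) Act (j + 1)) →
      ∃ i x, (W b)[i]? = some x ∧ Act x ∧ Odd (cnt (W b) Act (i + 1)) ∧ G0.Reachable u x := by
    intro b hb j
    induction j with
    | zero =>
      intro u hu ho
      rcases (odd_cnt_succ (W b) Act 0 u hu).1 ho with h5 | h5
      · exact absurd h5.1 (hwpos b hb (j := 0))
      · exact ⟨0, u, hu, h5.2, ho, SimpleGraph.Reachable.refl _⟩
    | succ j ih =>
      intro u hu ho
      by_cases ha : Act u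
      · exact ⟨j + 1, u, hu, ha, ho, SimpleGraph.Reachable.refl _⟩
      · rcases (odd_cnt_succ (W b) Act (j + 1) u hu).1 ho with h5 | h5
        · obtain ⟨y, hy⟩ := exists_get (show j < (W b).length by have := get_lt hu; omega)
          obtain ⟨i, x, h1, h2, h3, h4⟩ := ih y hy h5.1
          refine ⟨i, x, h1, h2, h3, SimpleGraph.Reachable.trans (SimpleGraph.Adj.reachable ?_) h4⟩
          exact (hN_W b hb (j + 1) u hu y).2 (Or.inr (Or.inr ⟨h5.1, j, rfl, hy⟩))
        · exact absurd h5.2 ha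
  have hreach : ∀ u, τ u ∈ U → (∃ v, G0.Adj u v) → ∀ z ∈ C (τ u), G.Reachable u z := by
    intro u hu hne z hz
    rcases hN_supp u hu hne with h | h
    · obtain ⟨j, hj⟩ := List.mem_iff_getElem?.1 h
      suffices h1 : ∃ i x, (W (τ u))[i]? = some x ∧ Act x ∧ Odd (cnt (W (τ u)) Act (i + 1)) ∧
          G0.Reachable u x by
        obtain ⟨i, x, h1, h2, h3, h4⟩ := h1
        have hI : (⟨τ u, i⟩ : Σ _ : B, ℕ) ∈ I := (hImem _ _).2 ⟨hu, x, h1, h2, h3⟩
        obtain ⟨_, x', y', z', w', hx', hy', hz', hw', hax', ho', h1', h2', hq'⟩ :=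
          hIdata (τ u) i hI
        have h5 := hGq (sqf ⟨τ u, i⟩) ((hSmem _).2 ⟨_, _, hI, rfl⟩)
        rw [hq'] at h5
        have h6 : x' = x := by
          rw [h1] at hx'
          exact (Option.some.inj hx').symm
        subst h6
        exact ((hGr _ _ h4).trans h5).trans (hGr _ _ (hreachC (τ u) hu z' (get_mem hz') z hz))
      by_cases hp : Odd (cnt (W (τ u)) Act (j + 1))
      · exact harc _ hu j u hj hp
      · have hq : Odd (cnt (W (τ u)) Act j) := by
          obtain ⟨v, hv⟩ := hne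
          rcases (hN_W (τ u) hu j u hj v).1 hv with h1 | h1 | h1
          · by_contra h2
            exact hp ((odd_cnt_succ (W (τ u)) Act j u hj).2 (Or.inr ⟨h2, h1.1⟩))
          · exact absurd h1.1 hp
          · exact h1.1
        have hj0 : j ≠ 0 := by
          rintro rfl
          exact hwpos _ hu (j := 0) hq
        obtain ⟨i, rfl⟩ := Nat.exists_eq_succ_of_ne_zero hj0
        obtain ⟨y, hy⟩ := exists_get (show i < (W (τ u)).length by
          have := get_lt hj
          omega)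
        obtain ⟨i', x, h1, h2, h3, h4⟩ := harc _ hu i y hy hq
        refine ⟨i', x, h1, h2, h3, SimpleGraph.Reachable.trans (SimpleGraph.Adj.reachable ?_) h4⟩
        exact (hN_W _ hu (i + 1) u hj y).2 (Or.inr (Or.inr ⟨hq, i, rfl, hy⟩))
    · exact hGr _ _ (hreachC (τ u) hu u h z hz)
  have hactadj : ∀ v, τ v ∈ U → Act v → G0.Adj v (opp v) := by
    intro v hv ha
    obtain ⟨j, hj⟩ := List.mem_iff_getElem?.1 ((hrails (τ v) hv).gates v (hgate v ha) rfl)
    exact (hN_W (τ v) hv j v hj (opp v)).2 (Or.inl ⟨ha, rfl⟩)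
  -- representative of the cycle of a tile
  have hcz : ∀ b : B, ∃ z, b ∈ U → z ∈ C b := by
    intro b
    by_cases hb : b ∈ U
    · obtain ⟨x, hx⟩ := exists_get (show 0 < (C b).length by
        have := (hrails b hb).C_len
        omega)
      exact ⟨x, fun _ => get_mem hx⟩
    · exact ⟨v0, fun h => absurd h hb⟩
  choose cz hczm using hcz
  obtain ⟨hc1, hc2⟩ := hconn G.ConnectedComponent (fun v => G.connectedComponentMk v)
    (fun b => G.connectedComponentMk (cz b))
    (by
      intro u v h hu hv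
      rw [SimpleGraph.ConnectedComponent.eq]
      exact hGr _ _ (SimpleGraph.Adj.reachable ((hN_out u hu v).2 h)))
    (by
      intro u v h hu hv
      rw [SimpleGraph.ConnectedComponent.eq]
      have h1 : G0.Adj u v := (hN_out u hu v).2 h
      exact (hGr _ _ h1.reachable).trans (hreach v hv ⟨u, h1.symm⟩ _ (hczm _ hv)))
    (by
      intro u hu
      rw [SimpleGraph.ConnectedComponent.eq]
      obtain ⟨h1, h2, h3, h4⟩ := hA u hu
      have h5 : Act u := (hAct u).2 ⟨h1, Or.inr hu⟩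
      have h6 := hactadj u h2 h5
      exact ((hreach u h2 ⟨_, h6⟩ _ (hczm _ h2)).symm.trans (hGr _ _ h6.reachable)).trans
        (hreach (opp u) h3 ⟨_, h6.symm⟩ _ (hczm _ h3)))
  have hall : ∀ u, (∃ w, G.Adj u w) → G.Reachable u (cz b0) := by
    intro u hu
    have hu0 := (hGs u).1 hu
    by_cases hτ : τ u ∈ U
    · have h1 := hreach u hτ hu0 _ (hczm _ hτ)
      have h2 := hc1 (τ u) hτ b0 hb0
      rw [SimpleGraph.ConnectedComponent.eq] at h2
      exact h1.trans h2
    · obtain ⟨w, hw⟩ := hu0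
      have h2 := hc2 u hτ ⟨w, (hN_out u hτ w).1 hw⟩ b0 hb0
      rw [SimpleGraph.ConnectedComponent.eq] at h2
      exact h2
  refine ⟨G, hGΓ, hGc, ?_, ?_, ?_, ?_, ?_, ?_⟩
  · have h1 : {v : V | ∃ w, G.Adj v w} = {v : V | ∃ w, G0.Adj v w} := by
      ext v
      exact hGs v
    rw [h1]
    exact hfin
  · obtain ⟨w, hw⟩ := (hGs (cz b0)).2 (hsupC b0 hb0 _ (hczm b0 hb0))
    exact ⟨_, w, hw⟩
  · intro u v hu hv
    exact (hall u hu).trans (hall v hv).symm
  · intro u v huv
    have hout : ∀ u v, G0.Adj u v → τ u ∉ U ∨ τ v ∉ U → E.Adj u v := by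
      intro u v h h1
      rcases h1 with h1 | h1
      · exact (hN_out u h1 v).1 h
      · exact ((hN_out v h1 u).1 h.symm).symm
    constructor
    · intro h
      rcases hG1 u v h with h1 | ⟨q, hq, h1⟩
      · exact hout u v h1 huv
      · exfalso
        obtain ⟨q1, q2, q3, q4⟩ := hsqU q hq
        simp only [Sym2.eq_iff] at h1
        rcases h1 with (⟨rfl, rfl⟩ | ⟨rfl, rfl⟩) | (⟨rfl, rfl⟩ | ⟨rfl, rfl⟩)
        · exact huv.elim (fun h => h q1) (fun h => h q3)
        · exact huv.elim (fun h => h q3) (fun h => h q1)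
        · exact huv.elim (fun h => h q2) (fun h => h q4)
        · exact huv.elim (fun h => h q4) (fun h => h q2)
    · intro h
      have h0 : G0.Adj u v := by
        rcases huv with h1 | h1
        · exact (hN_out u h1 v).2 h
        · exact ((hN_out v h1 u).2 h.symm).symm
      rcases hG2 u v h0 with h1 | ⟨q, hq, h1⟩
      · exact h1
      · exfalso
        obtain ⟨q1, q2, q3, q4⟩ := hsqU q hq
        simp only [Sym2.eq_iff] at h1
        rcases h1 with (⟨rfl, rfl⟩ | ⟨rfl, rfl⟩) | (⟨rfl, rfl⟩ | ⟨rfl, rfl⟩)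
        · exact huv.elim (fun h => h q1) (fun h => h q2)
        · exact huv.elim (fun h => h q2) (fun h => h q1)
        · exact huv.elim (fun h => h q3) (fun h => h q4)
        · exact huv.elim (fun h => h q4) (fun h => h q3)
  · intro v hv hτ
    exact hN_supp v hτ ((hGs v).1 hv)
  · intro b hb
    obtain ⟨w, hw⟩ := (hGs (cz b)).2 (hsupC b hb _ (hczm b hb))
    exact ⟨cz b, w, hCt b hb _ (hczm b hb), hw⟩

end Pool.Agent.Helper772.A2
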