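import Mathlib
import Pool.Agent.Helper772.Defs
set_option autoImplicit false
namespace Pool.Agent.Helper772.CA


/-- the extreme coordinate is `a`, written with residues -/
def AGExt {d : ℕ} (L : ℤ) (v : Fin d → ℤ) (a : Fin d) : Prop :=
  v a % (L + 4) = 0 ∨ v a % (L + 4) = L + 3

/-- the residue profile `ρ` on the non-extreme coordinates -/
def AGStd {d : ℕ} (L : ℤ) (ρ : Fin d → Fin d → ℤ) (v : Fin d → ℤ) : Prop :=
  ∃ a, AGExt L v a ∧ ∀ i, i ≠ a → v i % (L + 4) = ρ a i

theorem ag_divmod {M x q r : ℤ} (hM : 0 < M) (h : x = q * M + r) (h0 : 0 ≤ r) (h1 : r < M) :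
    x / M = q ∧ x % M = r := by
  rw [Int.ediv_emod_unique hM]
  refine ⟨?_, h0, h1⟩
  rw [h]; ring

theorem ag_eq_of_divmod {M x y : ℤ} (h : x / M = y / M) (h' : x % M = y % M) : x = y := by
  rw [← Int.mul_ediv_add_emod x M, ← Int.mul_ediv_add_emod y M, h, h']

/-- facts on `opp` at a coordinate with residue zero -/
theorem ag_zero {L x : ℤ} (hL : 2 ≤ L) (h : x % (L + 4) = 0) :
    (x - 1) / (L + 4) = x / (L + 4) - 1 ∧ (x - 1) % (L + 4) = L + 3 := by
  have h1 := Int.mul_ediv_add_emod x (L + 4)
  apply ag_divmod (by omega) _ (by omega) (by omega)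
  rw [h] at h1
  linarith

theorem ag_top {L x : ℤ} (hL : 2 ≤ L) (h : x % (L + 4) = L + 3) :
    (x + 1) / (L + 4) = x / (L + 4) + 1 ∧ (x + 1) % (L + 4) = 0 := by
  have h1 := Int.mul_ediv_add_emod x (L + 4)
  apply ag_divmod (by omega) _ (by omega) (by omega)
  rw [h] at h1
  linarith

section

variable {d : ℕ} {L : ℤ} (hL : 2 ≤ L) {ρ : Fin d → Fin d → ℤ}
  (hρ : ∀ a i, 2 ≤ ρ a i ∧ ρ a i < L + 2)

include hL hρ

theorem ag_opp_off {v : Fin d → ℤ} {a : Fin d}
    (h : ∀ i, i ≠ a → v i % (L + 4) = ρ a i) (i : Fin d) (hi : i ≠ a) : opp L v i = v i := by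
  have h1 := h i hi
  have h2 := hρ a i
  unfold opp
  rw [if_neg (by omega), if_neg (by omega)]

theorem ag_opp_std {v : Fin d → ℤ} (h : AGStd L ρ v) : AGStd L ρ (opp L v) ∧ opp L (opp L v) = v := by
  obtain ⟨a, ha, h⟩ := h
  have hoff := ag_opp_off hL hρ h
  have hstd : ∀ i, i ≠ a → opp L v i % (L + 4) = ρ a i := by
    intro i hi
    rw [hoff i hi, h i hi]
  have hoff2 := ag_opp_off hL hρ hstd
  rcases ha with ha | ha
  · have e1 : opp L v a = v a - 1 := by unfold opp; rw [if_pos ha]
    have h3 := ag_zero hL ha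
    refine ⟨⟨a, Or.inr ?_, hstd⟩, ?_⟩
    · rw [e1]; exact h3.2
    · funext i
      by_cases hi : i = a
      · subst hi
        have e2 : opp L (opp L v) i = opp L v i + 1 := by
          show (if opp L v i % (L + 4) = 0 then opp L v i - 1 else
            if opp L v i % (L + 4) = L + 3 then opp L v i + 1 else opp L v i) = opp L v i + 1
          rw [e1, if_neg (by omega), if_pos h3.2]
        rw [e2, e1]; ring
      · rw [hoff2 i hi, hoff i hi]
  · have e1 : opp L v a = v a + 1 := by
      unfold opp; rw [if_neg (by omega), if_pos ha]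
    have h3 := ag_top hL ha
    refine ⟨⟨a, Or.inl ?_, hstd⟩, ?_⟩
    · rw [e1]; exact h3.2
    · funext i
      by_cases hi : i = a
      · subst hi
        have e2 : opp L (opp L v) i = opp L v i - 1 := by
          show (if opp L v i % (L + 4) = 0 then opp L v i - 1 else
            if opp L v i % (L + 4) = L + 3 then opp L v i + 1 else opp L v i) = opp L v i - 1
          rw [e1, if_pos h3.2]
        rw [e2, e1]; ring
      · rw [hoff2 i hi, hoff i hi]

theorem ag_std_gate {v : Fin d → ℤ} (h : AGStd L ρ v) : IsGate L v := by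
  obtain ⟨a, ha, h⟩ := h
  refine ⟨a, ha, ?_⟩
  intro i hi
  rw [h i hi]
  exact hρ a i

/-- between two adjacent tiles there is exactly one standard gate with profile `ρ` -/
theorem ag_unique {b b' : Fin d → ℤ} (hb : (Lat d).Adj b b') :
    ∃ (a : Fin d) (v : Fin d → ℤ), AGExt L v a ∧ (∀ i, i ≠ a → v i % (L + 4) = ρ a i) ∧
      b a ≠ b' a ∧
      tile L v = b ∧ tile L (opp L v) = b' ∧
      ∀ v', AGStd L ρ v' → tile L v' = b → tile L (opp L v') = b' → v' = v := by
  have hb1 : ∑ i, |b i - b' i| = 1 := hb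
  have hM : 0 < L + 4 := by omega
  -- find the coordinate
  obtain ⟨a, ha⟩ : ∃ a, b a ≠ b' a := by
    by_contra hcon
    push Not at hcon
    have : ∑ i, |b i - b' i| = 0 := by
      apply Finset.sum_eq_zero
      intro i _
      rw [hcon i]; simp
    omega
  have hsplit : |b a - b' a| + ∑ i ∈ Finset.univ.erase a, |b i - b' i| = 1 := by
    rw [← hb1, Finset.add_sum_erase Finset.univ (fun i => |b i - b' i|) (Finset.mem_univ a)]
  have hnn : 0 ≤ ∑ i ∈ Finset.univ.erase a, |b i - b' i| :=
    Finset.sum_nonneg (fun i _ => abs_nonneg _)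
  have hpos : 1 ≤ |b a - b' a| := by
    have : 0 < |b a - b' a| := abs_pos.mpr (by omega)
    omega
  have habs : |b a - b' a| = 1 := by omega
  have hz : ∑ i ∈ Finset.univ.erase a, |b i - b' i| = 0 := by omega
  have hoffb : ∀ i, i ≠ a → b' i = b i := by
    intro i hi
    have := (Finset.sum_eq_zero_iff_of_nonneg (fun i _ => abs_nonneg (b i - b' i))).mp hz i
      (Finset.mem_erase.mpr ⟨hi, Finset.mem_univ i⟩)
    have := abs_eq_zero.mp this
    omega
  have hsign : b' a = b a + 1 ∨ b' a = b a - 1 := by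
    rcases (abs_eq (by norm_num : (0:ℤ) ≤ 1)).mp habs with h | h
    · right; omega
    · left; omega
  -- description of an arbitrary standard gate between the tiles
  have key : ∀ v', AGStd L ρ v' → tile L v' = b → tile L (opp L v') = b' →
      (∀ i, i ≠ a → v' i % (L + 4) = ρ a i) ∧
        v' a % (L + 4) = if b' a = b a + 1 then L + 3 else 0 := by
    rintro v' ⟨a', ha', h'⟩ ht ht'
    have hoff := ag_opp_off hL hρ h'
    have haa : a = a' := by
      by_contra hne
      have h1 : tile L (opp L v') a = b' a := by rw [ht']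
      have h2 : tile L v' a = b a := by rw [ht]
      unfold tile at h1 h2
      rw [hoff a hne] at h1
      omega
    subst haa
    refine ⟨h', ?_⟩
    have h1 : tile L (opp L v') a = b' a := by rw [ht']
    have h2 : tile L v' a = b a := by rw [ht]
    unfold tile at h1 h2
    rcases ha' with h0 | h0
    · have e1 : opp L v' a = v' a - 1 := by unfold opp; rw [if_pos h0]
      have h3 := ag_zero hL h0
      rw [e1, h3.1, h2] at h1
      rw [if_neg (by omega), h0]
    · have e1 : opp L v' a = v' a + 1 := by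
        unfold opp; rw [if_neg (by omega), if_pos h0]
      have h3 := ag_top hL h0
      rw [e1, h3.1, h2] at h1
      rw [if_pos (by omega), h0]
  -- the witness
  let r : Fin d → ℤ := fun i => if i = a then (if b' a = b a + 1 then L + 3 else 0) else ρ a i
  have hr : ∀ i, 0 ≤ r i ∧ r i < L + 4 := by
    intro i
    show 0 ≤ (if i = a then (if b' a = b a + 1 then L + 3 else 0) else ρ a i) ∧
      (if i = a then (if b' a = b a + 1 then L + 3 else 0) else ρ a i) < L + 4
    have h2 := hρ a i
    split_ifs <;> omega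
  let v : Fin d → ℤ := fun i => b i * (L + 4) + r i
  have hv : ∀ i, v i / (L + 4) = b i ∧ v i % (L + 4) = r i := by
    intro i
    exact ag_divmod hM rfl (hr i).1 (hr i).2
  have hra : r a = if b' a = b a + 1 then L + 3 else 0 := by
    show (if a = a then (if b' a = b a + 1 then L + 3 else 0) else ρ a a) = _
    rw [if_pos rfl]
  have hri : ∀ i, i ≠ a → r i = ρ a i := by
    intro i hi
    show (if i = a then (if b' a = b a + 1 then L + 3 else 0) else ρ a i) = _
    rw [if_neg hi]
  have hvi : ∀ i, i ≠ a → v i % (L + 4) = ρ a i := by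
    intro i hi
    rw [(hv i).2, hri i hi]
  have hext : AGExt L v a := by
    unfold AGExt
    rw [(hv a).2, hra]
    split_ifs
    · right; rfl
    · left; rfl
  refine ⟨a, v, hext, hvi, ha, ?_, ?_, ?_⟩
  · funext i
    exact (hv i).1
  · have hoff := ag_opp_off hL hρ hvi
    funext i
    by_cases hi : i = a
    · subst hi
      unfold tile
      have h2 := (hv i).1
      rcases hsign with hs | hs
      · have h0 : v i % (L + 4) = L + 3 := by rw [(hv i).2, hra, if_pos hs]
        have e1 : opp L v i = v i + 1 := by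
          unfold opp; rw [if_neg (by omega), if_pos h0]
        have h3 := ag_top hL h0
        rw [e1, h3.1, h2]; omega
      · have h0 : v i % (L + 4) = 0 := by rw [(hv i).2, hra, if_neg (by omega)]
        have e1 : opp L v i = v i - 1 := by unfold opp; rw [if_pos h0]
        have h3 := ag_zero hL h0
        rw [e1, h3.1, h2]; omega
    · unfold tile
      rw [hoff i hi, (hv i).1, hoffb i hi]
  · intro v' hv' ht ht'
    obtain ⟨k1, k2⟩ := key v' hv' ht ht'
    funext i
    apply ag_eq_of_divmod (M := L + 4)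
    · rw [(hv i).1, ← ht]; rfl
    · by_cases hi : i = a
      · subst hi
        rw [k2, (hv i).2, hra]
      · rw [k1 i hi, hvi i hi]

end

/-- Artificial gates between tiles of `U`: for adjacent tiles `b, b'` in `U` we use `0`, `1` or `2`
gates, namely `0` if `N = 0`, `1` if `N` is odd and `2` if `N` is even and positive. -/
theorem artificial_gates {d : ℕ} (hd : 2 ≤ d) {L : ℤ} (hL : 2 ≤ L)
    (N : Sym2 (Fin d → ℤ) → ℕ) (U : Set (Fin d → ℤ)) :
    ∃ A : (Fin d → ℤ) → Prop,
      (∀ v, A v → IsGate L v ∧ tile L v ∈ U ∧ tile L (opp L v) ∈ U ∧ A (opp L v)) ∧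
      (∀ b ∈ U, ∀ b' ∈ U, (Lat d).Adj b b' →
        Even ({v | A v ∧ tile L v = b ∧ tile L (opp L v) = b'}.ncard + N s(b, b')) ∧
        (1 ≤ N s(b, b') → ∃ v, A v ∧ tile L v = b ∧ tile L (opp L v) = b')) := by
  let z : Fin d := ⟨0, by omega⟩
  let o : Fin d := ⟨1, by omega⟩
  have hzo : o ≠ z := by
    intro h
    have := congrArg Fin.val h
    simp [z, o] at this
  let alt : Fin d → Fin d := fun a => if a = z then o else z
  have halt : ∀ a, alt a ≠ a := by
    intro a
    show (if a = z then o else z) ≠ a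
    split_ifs with h
    · rw [h]; exact hzo
    · exact fun h' => h h'.symm
  let ρ1 : Fin d → Fin d → ℤ := fun _ _ => 2
  let ρ2 : Fin d → Fin d → ℤ := fun a i => if i = alt a then 3 else 2
  have hρ1 : ∀ a i, 2 ≤ ρ1 a i ∧ ρ1 a i < L + 2 := by
    intro a i
    show (2:ℤ) ≤ 2 ∧ (2:ℤ) < L + 2
    omega
  have hρ2 : ∀ a i, 2 ≤ ρ2 a i ∧ ρ2 a i < L + 2 := by
    intro a i
    show (2:ℤ) ≤ (if i = alt a then 3 else 2) ∧ (if i = alt a then (3:ℤ) else 2) < L + 2
    split_ifs <;> omega
  refine ⟨fun v => (AGStd L ρ1 v ∨ (Even (N s(tile L v, tile L (opp L v))) ∧ AGStd L ρ2 v)) ∧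
    1 ≤ N s(tile L v, tile L (opp L v)) ∧ tile L v ∈ U ∧ tile L (opp L v) ∈ U, ?_, ?_⟩
  · rintro v ⟨h, hN, hU, hU'⟩
    have hinv : opp L (opp L v) = v := by
      rcases h with h | ⟨_, h⟩
      · exact (ag_opp_std hL hρ1 h).2
      · exact (ag_opp_std hL hρ2 h).2
    refine ⟨?_, hU, hU', ?_, ?_, hU', ?_⟩
    · rcases h with h | ⟨_, h⟩
      · exact ag_std_gate hL hρ1 h
      · exact ag_std_gate hL hρ2 h
    · rw [hinv, Sym2.eq_swap]
      rcases h with h | ⟨he, h⟩
      · exact Or.inl (ag_opp_std hL hρ1 h).1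
      · exact Or.inr ⟨he, (ag_opp_std hL hρ2 h).1⟩
    · rw [hinv, Sym2.eq_swap]; exact hN
    · rw [hinv]; exact hU
  · intro b hbU b' hbU' hb
    obtain ⟨a1, v1, hx1, hs1, hab1, ht1, ht1', hu1⟩ := ag_unique hL hρ1 hb
    obtain ⟨a2, v2, hx2, hs2, hab2, ht2, ht2', hu2⟩ := ag_unique hL hρ2 hb
    have hstd1 : AGStd L ρ1 v1 := ⟨a1, hx1, hs1⟩
    have hstd2 : AGStd L ρ2 v2 := ⟨a2, hx2, hs2⟩
    have haa : a1 = a2 := by
      by_contra hne
      -- the tiles differ only at the extreme coordinate
      have hoff := ag_opp_off hL hρ1 hs1 a2 (fun h => hne h.symm)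
      have e1 : tile L (opp L v1) a2 = b' a2 := by rw [ht1']
      have e2 : tile L v1 a2 = b a2 := by rw [ht1]
      unfold tile at e1 e2
      rw [hoff] at e1
      omega
    subst haa
    have hne : v1 ≠ v2 := by
      intro h
      have e1 := hs1 (alt a1) (halt a1)
      have e2 := hs2 (alt a1) (halt a1)
      rw [h, e2] at e1
      have : (if alt a1 = alt a1 then (3:ℤ) else 2) = 2 := e1
      rw [if_pos rfl] at this
      omega
    refine ⟨?_, ?_⟩
    · rcases Nat.eq_zero_or_pos (N s(b, b')) with h0 | hpos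
      · have hset : {v | ((AGStd L ρ1 v ∨ (Even (N s(tile L v, tile L (opp L v))) ∧ AGStd L ρ2 v)) ∧
            1 ≤ N s(tile L v, tile L (opp L v)) ∧ tile L v ∈ U ∧ tile L (opp L v) ∈ U) ∧
              tile L v = b ∧ tile L (opp L v) = b'} = ∅ := by
          ext v
          constructor
          · rintro ⟨⟨_, hN, _⟩, e, e'⟩
            rw [e, e'] at hN
            omega
          · intro h; exact h.elim
        show Even (Set.ncard {v | ((AGStd L ρ1 v ∨ (Even (N s(tile L v, tile L (opp L v))) ∧
          AGStd L ρ2 v)) ∧ 1 ≤ N s(tile L v, tile L (opp L v)) ∧ tile L v ∈ U ∧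
          tile L (opp L v) ∈ U) ∧ tile L v = b ∧ tile L (opp L v) = b'} + N s(b, b'))
        rw [hset, Set.ncard_empty, h0]
        exact ⟨0, rfl⟩
      · rcases Nat.even_or_odd (N s(b, b')) with he | ho
        · have hset : {v | ((AGStd L ρ1 v ∨ (Even (N s(tile L v, tile L (opp L v))) ∧
              AGStd L ρ2 v)) ∧
              1 ≤ N s(tile L v, tile L (opp L v)) ∧ tile L v ∈ U ∧ tile L (opp L v) ∈ U) ∧
                tile L v = b ∧ tile L (opp L v) = b'} = {v1, v2} := by
            ext v
            constructor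
            · rintro ⟨⟨h, _⟩, e, e'⟩
              rcases h with h | ⟨_, h⟩
              · left; exact hu1 v h e e'
              · right; exact hu2 v h e e'
            · rintro (h | h)
              · rw [h]
                refine ⟨⟨Or.inl hstd1, ?_, ?_, ?_⟩, ht1, ht1'⟩
                · rw [ht1, ht1']; exact hpos
                · rw [ht1]; exact hbU
                · rw [ht1']; exact hbU'
              · have h2 : v = v2 := h
                rw [h2]
                refine ⟨⟨Or.inr ⟨?_, hstd2⟩, ?_, ?_, ?_⟩, ht2, ht2'⟩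
                · rw [ht2, ht2']; exact he
                · rw [ht2, ht2']; exact hpos
                · rw [ht2]; exact hbU
                · rw [ht2']; exact hbU'
          show Even (Set.ncard {v | ((AGStd L ρ1 v ∨ (Even (N s(tile L v, tile L (opp L v))) ∧
            AGStd L ρ2 v)) ∧ 1 ≤ N s(tile L v, tile L (opp L v)) ∧ tile L v ∈ U ∧
            tile L (opp L v) ∈ U) ∧ tile L v = b ∧ tile L (opp L v) = b'} + N s(b, b'))
          rw [hset, Set.ncard_pair hne]
          exact Even.add ⟨1, rfl⟩ he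
        · have hset : {v | ((AGStd L ρ1 v ∨ (Even (N s(tile L v, tile L (opp L v))) ∧
              AGStd L ρ2 v)) ∧
              1 ≤ N s(tile L v, tile L (opp L v)) ∧ tile L v ∈ U ∧ tile L (opp L v) ∈ U) ∧
                tile L v = b ∧ tile L (opp L v) = b'} = {v1} := by
            ext v
            constructor
            · rintro ⟨⟨h, _⟩, e, e'⟩
              rcases h with h | ⟨he, h⟩
              · exact hu1 v h e e'
              · exfalso
                rw [e, e'] at he
                exact (Nat.not_even_iff_odd.mpr ho) he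
            · intro h
              have h2 : v = v1 := h
              rw [h2]
              refine ⟨⟨Or.inl hstd1, ?_, ?_, ?_⟩, ht1, ht1'⟩
              · rw [ht1, ht1']; exact hpos
              · rw [ht1]; exact hbU
              · rw [ht1']; exact hbU'
          show Even (Set.ncard {v | ((AGStd L ρ1 v ∨ (Even (N s(tile L v, tile L (opp L v))) ∧
            AGStd L ρ2 v)) ∧ 1 ≤ N s(tile L v, tile L (opp L v)) ∧ tile L v ∈ U ∧
            tile L (opp L v) ∈ U) ∧ tile L v = b ∧ tile L (opp L v) = b'} + N s(b, b'))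
          rw [hset, Set.ncard_singleton, add_comm]
          exact ho.add_one
    · intro hpos
      refine ⟨v1, ⟨Or.inl hstd1, ?_, ?_, ?_⟩, ht1, ht1'⟩
      · rw [ht1, ht1']; exact hpos
      · rw [ht1]; exact hbU
      · rw [ht1']; exact hbU'

end Pool.Agent.Helper772.CA
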