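import Mathlib
import Pool.Agent.Helper772.Defs
set_option autoImplicit false
namespace Pool.Agent.Helper772.Sa


/-! helper lemmas -/

theorem div_mod_of {P y q r : ℤ} (h : y = P * q + r) (h0 : 0 ≤ r) (h1 : r < P) :
    y / P = q ∧ y % P = r := by
  have hP : 0 < P := by omega
  have := (Int.ediv_emod_unique (a := y) (b := P) (r := r) (q := q) hP).2 ⟨by rw [h]; ring, h0, h1⟩
  exact this

theorem lat_iff {d : ℕ} (x y : Fin d → ℤ) :
    (Lat d).Adj x y ↔ ∃ a, (∀ i, i ≠ a → y i = x i) ∧ (y a = x a + 1 ∨ y a = x a - 1) := by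
  constructor
  · intro h
    change ∑ i, |x i - y i| = 1 at h
    have hex : ∃ a, x a - y a ≠ 0 := by
      by_contra hn
      push Not at hn
      rw [Finset.sum_eq_zero (fun i _ => by rw [hn i, abs_zero])] at h
      exact absurd h (by norm_num)
    obtain ⟨a, ha⟩ := hex
    rw [← Finset.add_sum_erase _ _ (Finset.mem_univ a)] at h
    have h1 : 1 ≤ |x a - y a| := Int.one_le_abs ha
    have h2 : 0 ≤ ∑ i ∈ Finset.univ.erase a, |x i - y i| := Finset.sum_nonneg (fun _ _ => abs_nonneg _)
    have h3 : ∑ i ∈ Finset.univ.erase a, |x i - y i| = 0 := by omega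
    have h4 : |x a - y a| = 1 := by omega
    refine ⟨a, ?_, ?_⟩
    · intro i hi
      have := (Finset.sum_eq_zero_iff_of_nonneg (fun i _ => abs_nonneg _)).1 h3 i
        (Finset.mem_erase.2 ⟨hi, Finset.mem_univ i⟩)
      have := abs_eq_zero.1 this
      omega
    · rcases (abs_eq (by norm_num)).1 h4 with h5 | h5 <;> omega
  · rintro ⟨a, h1, h2⟩
    change ∑ i, |x i - y i| = 1
    rw [Finset.sum_eq_single a]
    · rcases h2 with h2 | h2
      · rw [h2]; simp
      · rw [h2]; simp
    · intro i _ hi
      rw [h1 i hi]; simp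
    · intro h; exact absurd (Finset.mem_univ a) h

theorem st_div_mod {L : ℤ} (hL : 0 < L) (x : ℤ) :
    ((x / L) * (L + 4) + x % L + 2) / (L + 4) = x / L ∧
      ((x / L) * (L + 4) + x % L + 2) % (L + 4) = x % L + 2 := by
  have h0 := Int.emod_nonneg x hL.ne'
  have h1 := Int.emod_lt_of_pos x hL
  exact div_mod_of (by ring) (by omega) (by omega)

theorem ct_central {L : ℤ} (hL : 0 < L) (y : ℤ) (h1 : 2 ≤ y % (L + 4)) (h2 : y % (L + 4) < L + 2) :
    (y / (L + 4)) * L + max (-1) (min (L - 1) (y % (L + 4) - 2)) = (y / (L + 4)) * L + (y % (L + 4) - 2) := by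
  rw [min_eq_right (by omega), max_eq_right (by omega)]

theorem ct_div_mod {L : ℤ} (hL : 0 < L) (y : ℤ) (h1 : 2 ≤ y % (L + 4)) (h2 : y % (L + 4) < L + 2) :
    ((y / (L + 4)) * L + max (-1) (min (L - 1) (y % (L + 4) - 2))) / L = y / (L + 4) ∧
      ((y / (L + 4)) * L + max (-1) (min (L - 1) (y % (L + 4) - 2))) % L = y % (L + 4) - 2 := by
  rw [ct_central hL y h1 h2]
  exact div_mod_of (by ring) (by omega) (by omega)

/-- contraction one step to the left of a central coordinate -/
theorem ct_pred {L : ℤ} (hL : 0 < L) (y : ℤ) (h1 : 2 ≤ y % (L + 4)) (h2 : y % (L + 4) < L + 2) :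
    ((y - 1) / (L + 4)) * L + max (-1) (min (L - 1) ((y - 1) % (L + 4) - 2))
      = (y / (L + 4)) * L + max (-1) (min (L - 1) (y % (L + 4) - 2)) - 1 := by
  have h3 := Int.mul_ediv_add_emod y (L + 4)
  obtain ⟨h4, h5⟩ := div_mod_of (P := L + 4) (y := y - 1) (q := y / (L + 4)) (r := y % (L + 4) - 1)
    (by linarith) (by omega) (by omega)
  rw [h4, h5, ct_central hL y h1 h2, min_eq_right (by omega), max_eq_right (by omega)]
  ring

/-- contraction one step to the left of a margin coordinate -/
theorem ct_margin {L : ℤ} (hL : 0 < L) (y : ℤ) (h : ¬ (2 ≤ y % (L + 4) ∧ y % (L + 4) < L + 2)) :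
    ((y - 1) / (L + 4)) * L + max (-1) (min (L - 1) ((y - 1) % (L + 4) - 2))
      = (y / (L + 4)) * L + max (-1) (min (L - 1) (y % (L + 4) - 2)) := by
  have h3 := Int.mul_ediv_add_emod y (L + 4)
  have h0 := Int.emod_nonneg y (show L + 4 ≠ 0 by omega)
  have h1 := Int.emod_lt_of_pos y (show 0 < L + 4 by omega)
  by_cases hz : y % (L + 4) = 0
  · obtain ⟨h4, h5⟩ := div_mod_of (P := L + 4) (y := y - 1) (q := y / (L + 4) - 1) (r := L + 3)
      (by rw [hz] at h3; linarith) (by omega) (by omega)
    rw [h4, h5, hz, min_eq_left (by omega), max_eq_right (by omega), min_eq_right (by omega),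
      max_eq_left (by omega)]
    ring
  · obtain ⟨h4, h5⟩ := div_mod_of (P := L + 4) (y := y - 1) (q := y / (L + 4)) (r := y % (L + 4) - 1)
      (by linarith) (by omega) (by omega)
    rw [h4, h5]
    by_cases h6 : y % (L + 4) = 1
    · rw [h6, min_eq_right (by omega), max_eq_left (by omega), min_eq_right (by omega),
        max_eq_left (by omega)]
    · rw [min_eq_left (by omega), min_eq_left (by omega)]

theorem succ_mod {P : ℤ} (hP : 0 < P) (y : ℤ) (h : (y + 1) / P ≠ y / P) :
    y % P = P - 1 ∧ (y + 1) % P = 0 ∧ (y + 1) / P = y / P + 1 := by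
  have h3 := Int.mul_ediv_add_emod y P
  have h0 := Int.emod_nonneg y hP.ne'
  have h1 := Int.emod_lt_of_pos y hP
  by_cases hz : y % P = P - 1
  · obtain ⟨h4, h5⟩ := div_mod_of (P := P) (y := y + 1) (q := y / P + 1) (r := 0)
      (by rw [hz] at h3; linarith) (by omega) (by omega)
    exact ⟨hz, h5, h4⟩
  · obtain ⟨h4, h5⟩ := div_mod_of (P := P) (y := y + 1) (q := y / P) (r := y % P + 1)
      (by linarith) (by omega) (by omega)
    exact absurd h4 h

theorem Str_central {d : ℕ} {L : ℤ} (hL : 0 < L) (F : SimpleGraph (Fin d → ℤ)) (y y' : Fin d → ℤ)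
    (hc : ∀ i, 2 ≤ y i % (L + 4) ∧ y i % (L + 4) < L + 2) :
    (Str L F).Adj y y' ↔ (Lat d).Adj y y' ∧ F.Adj (contract L y) (contract L y + (y' - y)) := by
  have key1 : ∀ a : Fin d, (∀ i, i ≠ a → y' i = y i) → y' a = y a + 1 →
      contract L y + (y' - y) = Function.update (contract L y) a (contract L y a + 1) := by
    intro a h1 h2
    funext i
    by_cases hi : i = a
    · subst hi
      simp only [Pi.add_apply, Pi.sub_apply, Function.update_self, h2]
      ring
    · simp only [Pi.add_apply, Pi.sub_apply, Function.update_of_ne hi, h1 i hi]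
      ring
  have key2 : ∀ a : Fin d, (∀ i, i ≠ a → y' i = y i) → y' a = y a - 1 →
      contract L y' = contract L y + (y' - y) ∧
      Function.update (contract L y') a (contract L y' a + 1) = contract L y := by
    intro a h1 h2
    have h3 : contract L y' a = contract L y a - 1 := by
      unfold contract
      rw [h2]
      exact ct_pred hL (y a) (hc a).1 (hc a).2
    have h4 : ∀ i, i ≠ a → contract L y' i = contract L y i := by
      intro i hi
      unfold contract
      rw [h1 i hi]
    constructor
    · funext i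
      by_cases hi : i = a
      · subst hi
        simp only [Pi.add_apply, Pi.sub_apply, h2, h3]
        ring
      · simp only [Pi.add_apply, Pi.sub_apply, h1 i hi, h4 i hi]
        ring
    · funext i
      by_cases hi : i = a
      · subst hi
        simp only [Function.update_self, h3]
        ring
      · simp only [Function.update_of_ne hi, h4 i hi]
  constructor
  · rintro ⟨a, h | h⟩
    · obtain ⟨h1, h2, h3⟩ := h
      have h1' : ∀ i, i ≠ a → y' i = y i := fun i hi => (h1 i hi).1
      refine ⟨(lat_iff _ _).2 ⟨a, h1', Or.inl h2⟩, ?_⟩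
      rw [key1 a h1' h2]
      exact h3
    · obtain ⟨h1, h2, h3⟩ := h
      have h1' : ∀ i, i ≠ a → y' i = y i := fun i hi => (h1 i hi).1.symm
      have h2' : y' a = y a - 1 := by omega
      obtain ⟨k1, k2⟩ := key2 a h1' h2'
      refine ⟨(lat_iff _ _).2 ⟨a, h1', Or.inr h2'⟩, ?_⟩
      rw [k2] at h3
      rw [← k1]
      exact h3.symm
  · rintro ⟨h, hF⟩
    obtain ⟨a, h1, h2 | h2⟩ := (lat_iff _ _).1 h
    · refine ⟨a, Or.inl ⟨fun i hi => ⟨h1 i hi, hc i⟩, h2, ?_⟩⟩
      rw [← key1 a h1 h2]
      exact hF
    · obtain ⟨k1, k2⟩ := key2 a h1 h2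
      refine ⟨a, Or.inr ⟨fun i hi => ⟨(h1 i hi).symm, ?_⟩, by omega, ?_⟩⟩
      · rw [h1 i hi]; exact hc i
      · rw [k2, k1]
        exact hF.symm

/-! Targets (all assume `0 < L`). -/

theorem stretch_injective {d : ℕ} {L : ℤ} (hL : 0 < L) :
    Function.Injective (stretch (d := d) L) := by
  intro x x' h
  funext i
  have h1 := congrFun h i
  unfold stretch at h1
  obtain ⟨a1, a2⟩ := st_div_mod hL (x i)
  obtain ⟨b1, b2⟩ := st_div_mod hL (x' i)
  have c1 : x i / L = x' i / L := by rw [← a1, ← b1, h1]
  have c2 : x i % L + 2 = x' i % L + 2 := by rw [← a2, ← b2, h1]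
  have e1 := Int.mul_ediv_add_emod (x i) L
  have e2 := Int.mul_ediv_add_emod (x' i) L
  rw [← e1, ← e2, c1]
  omega

theorem contract_stretch {d : ℕ} {L : ℤ} (hL : 0 < L) (x : Fin d → ℤ) :
    contract L (stretch L x) = x := by
  funext i
  have h0 := Int.emod_nonneg (x i) hL.ne'
  have h1 := Int.emod_lt_of_pos (x i) hL
  unfold contract stretch
  obtain ⟨a1, a2⟩ := st_div_mod hL (x i)
  rw [a1, a2, min_eq_right (by omega), max_eq_right (by omega)]
  have e1 := Int.mul_ediv_add_emod (x i) L
  linarith

theorem tile_stretch {d : ℕ} {L : ℤ} (hL : 0 < L) (x : Fin d → ℤ) :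
    tile L (stretch L x) = cellc L x := by
  funext i
  unfold tile stretch cellc
  exact (st_div_mod hL (x i)).1

/-- adjacency inside a cell is preserved -/
theorem lat_stretch {d : ℕ} {L : ℤ} (hL : 0 < L) (x x' : Fin d → ℤ)
    (h : (Lat d).Adj x x') (hc : cellc L x = cellc L x') :
    stretch L x' = stretch L x + (x' - x) ∧ (Lat d).Adj (stretch L x) (stretch L x') := by
  have h1 : stretch L x' = stretch L x + (x' - x) := by
    funext i
    have hi := congrFun hc i
    unfold cellc at hi
    simp only [stretch, Pi.add_apply, Pi.sub_apply]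
    have e1 := Int.mul_ediv_add_emod (x i) L
    have e2 := Int.mul_ediv_add_emod (x' i) L
    rw [← hi] at e2 ⊢
    linarith
  refine ⟨h1, ?_⟩
  rw [h1]
  change ∑ i, |stretch L x i - (stretch L x + (x' - x)) i| = 1
  have h2 : ∑ i, |x i - x' i| = 1 := h
  rw [← h2]
  refine Finset.sum_congr rfl (fun i _ => ?_)
  simp only [Pi.add_apply, Pi.sub_apply]
  congr 1
  ring

theorem opp_zero {d : ℕ} {L : ℤ} (u : Fin d → ℤ) (i : Fin d) (h : u i % (L + 4) = 0) :
    opp L u i = u i - 1 := by
  unfold opp; rw [if_pos h]

theorem opp_top {d : ℕ} {L : ℤ} (u : Fin d → ℤ) (i : Fin d) (h0 : ¬ u i % (L + 4) = 0)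
    (h : u i % (L + 4) = L + 3) : opp L u i = u i + 1 := by
  unfold opp; rw [if_neg h0, if_pos h]

theorem opp_mid {d : ℕ} {L : ℤ} (u : Fin d → ℤ) (i : Fin d) (h0 : ¬ u i % (L + 4) = 0)
    (h : ¬ u i % (L + 4) = L + 3) : opp L u i = u i := by
  unfold opp; rw [if_neg h0, if_neg h]

/-- basic properties of gate sites -/
theorem opp_gate {d : ℕ} {L : ℤ} (hL : 0 < L) (u : Fin d → ℤ) (hu : IsGate L u) :
    IsGate L (opp L u) ∧ opp L (opp L u) = u ∧ tile L (opp L u) ≠ tile L u ∧
      (Lat d).Adj u (opp L u) ∧ (Lat d).Adj (tile L u) (tile L (opp L u)) := by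
  obtain ⟨a, ha, hi⟩ := hu
  have hP : (0:ℤ) < L + 4 := by omega
  have hoff : ∀ i, i ≠ a → opp L u i = u i := by
    intro i hia
    have := hi i hia
    unfold opp
    rw [if_neg (by omega), if_neg (by omega)]
  have e3 := Int.mul_ediv_add_emod (u a) (L + 4)
  rcases ha with ha | ha
  · have hoa : opp L u a = u a - 1 := by
      unfold opp
      rw [if_pos ha]
    obtain ⟨h4, h5⟩ := div_mod_of (P := L + 4) (y := u a - 1) (q := u a / (L + 4) - 1) (r := L + 3)
      (by rw [ha] at e3; linarith) (by omega) (by omega)
    refine ⟨⟨a, Or.inr (by rw [hoa]; exact h5), fun i hia => by rw [hoff i hia]; exact hi i hia⟩,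
      ?_, ?_, ?_, ?_⟩
    · funext i
      by_cases hia : i = a
      · subst hia
        have : opp L (opp L u) i = opp L u i + 1 := by
          have hne : ¬ (opp L u i % (L + 4) = 0) := by rw [hoa, h5]; omega
          have heq : opp L u i % (L + 4) = L + 3 := by rw [hoa]; exact h5
          exact opp_top _ _ hne heq
        rw [this, hoa]; ring
      · have : opp L (opp L u) i = opp L u i := by
          have h7 := hi i hia
          have h8 := hoff i hia
          exact opp_mid _ _ (by rw [h8]; omega) (by rw [h8]; omega)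
        rw [this, hoff i hia]
    · intro h
      have := congrFun h a
      unfold tile at this
      rw [hoa, h4] at this
      omega
    · exact (lat_iff _ _).2 ⟨a, hoff, Or.inr hoa⟩
    · refine (lat_iff _ _).2 ⟨a, ?_, Or.inr ?_⟩
      · intro i hia
        unfold tile
        rw [hoff i hia]
      · unfold tile
        rw [hoa, h4]
  · have hoa : opp L u a = u a + 1 := by
      unfold opp
      rw [if_neg (by omega), if_pos ha]
    obtain ⟨h4, h5⟩ := div_mod_of (P := L + 4) (y := u a + 1) (q := u a / (L + 4) + 1) (r := 0)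
      (by rw [ha] at e3; linarith) (by omega) (by omega)
    refine ⟨⟨a, Or.inl (by rw [hoa]; exact h5), fun i hia => by rw [hoff i hia]; exact hi i hia⟩,
      ?_, ?_, ?_, ?_⟩
    · funext i
      by_cases hia : i = a
      · subst hia
        have : opp L (opp L u) i = opp L u i - 1 := by
          have heq : opp L u i % (L + 4) = 0 := by rw [hoa]; exact h5
          exact opp_zero _ _ heq
        rw [this, hoa]; ring
      · have : opp L (opp L u) i = opp L u i := by
          have h7 := hi i hia
          have h8 := hoff i hia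
          exact opp_mid _ _ (by rw [h8]; omega) (by rw [h8]; omega)
        rw [this, hoff i hia]
    · intro h
      have := congrFun h a
      unfold tile at this
      rw [hoa, h4] at this
      omega
    · exact (lat_iff _ _).2 ⟨a, hoff, Or.inl hoa⟩
    · refine (lat_iff _ _).2 ⟨a, ?_, Or.inl ?_⟩
      · intro i hia
        unfold tile
        rw [hoff i hia]
      · unfold tile
        rw [hoa, h4]

theorem Str_le_Lat {d : ℕ} {L : ℤ} (hL : 0 < L) (F : SimpleGraph (Fin d → ℤ)) :
    Str L F ≤ Lat d := by
  rintro y y' ⟨a, h | h⟩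
  · exact (lat_iff _ _).2 ⟨a, fun i hi => (h.1 i hi).1, Or.inl h.2.1⟩
  · exact ((lat_iff _ _).2 ⟨a, fun i hi => (h.1 i hi).1, Or.inl h.2.1⟩ : (Lat d).Adj y' y).symm

theorem Str_gate {d : ℕ} {L : ℤ} (hL : 0 < L) (F : SimpleGraph (Fin d → ℤ)) (u v : Fin d → ℤ)
    (h : (Str L F).Adj u v) (ht : tile L u ≠ tile L v) : IsGate L u ∧ v = opp L u := by
  have hP : (0:ℤ) < L + 4 := by omega
  obtain ⟨a, h | h⟩ := h
  · obtain ⟨h1, h2, _⟩ := h
    have hne : (u a + 1) / (L + 4) ≠ u a / (L + 4) := by
      intro he
      apply ht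
      funext i
      unfold tile
      by_cases hi : i = a
      · subst hi
        rw [h2, he]
      ·
        rw [(h1 i hi).1]
    obtain ⟨k1, k2, k3⟩ := succ_mod hP (u a) hne
    have k1' : u a % (L + 4) = L + 3 := by omega
    refine ⟨⟨a, Or.inr k1', fun i hi => (h1 i hi).2⟩, ?_⟩
    funext i
    unfold opp
    by_cases hi : i = a
    · subst hi
      rw [if_neg (by omega), if_pos k1', h2]
    · have := (h1 i hi).2
      rw [if_neg (by omega), if_neg (by omega), (h1 i hi).1]
  · obtain ⟨h1, h2, _⟩ := h
    have hne : (v a + 1) / (L + 4) ≠ v a / (L + 4) := by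
      intro he
      apply ht
      funext i
      unfold tile
      by_cases hi : i = a
      · subst hi
        rw [h2, he]
      ·
        rw [(h1 i hi).1]
    obtain ⟨k1, k2, k3⟩ := succ_mod hP (v a) hne
    rw [← h2] at k2
    refine ⟨⟨a, Or.inl k2, fun i hi => ?_⟩, ?_⟩
    · rw [(h1 i hi).1]; exact (h1 i hi).2
    funext i
    unfold opp
    by_cases hi : i = a
    · subst hi
      rw [if_pos k2, h2]; ring
    · have h7 := (h1 i hi).2
      have h8 := (h1 i hi).1
      rw [if_neg (by rw [h8]; omega), if_neg (by rw [h8]; omega), h8]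

/-- if all vertices of `F` in the cell `b` have degree `0` or `2`, then so do all vertices of the
stretched graph in the tile `b` -/
theorem Str_degree {d : ℕ} {L : ℤ} (hL : 0 < L) (F : SimpleGraph (Fin d → ℤ)) (hF : F ≤ Lat d)
    (b : Fin d → ℤ)
    (hdeg : ∀ x, cellc L x = b → (F.neighborSet x).Nonempty → (F.neighborSet x).ncard = 2)
    (y : Fin d → ℤ) (hy : tile L y = b) (hne : ((Str L F).neighborSet y).Nonempty) :
    ((Str L F).neighborSet y).ncard = 2 := by
  by_cases hc : ∀ i, 2 ≤ y i % (L + 4) ∧ y i % (L + 4) < L + 2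
  · -- central vertex
    have hcell : cellc L (contract L y) = b := by
      rw [← hy]
      funext i
      unfold cellc contract tile
      exact (ct_div_mod hL (y i) (hc i).1 (hc i).2).1
    have himg : (Str L F).neighborSet y
        = (fun x' : Fin d → ℤ => y + (x' - contract L y)) '' (F.neighborSet (contract L y)) := by
      ext y'
      simp only [SimpleGraph.mem_neighborSet, Set.mem_image]
      rw [Str_central hL F y y' hc]
      constructor
      · rintro ⟨_, h2⟩
        refine ⟨_, h2, ?_⟩
        abel
      · rintro ⟨x', hx', rfl⟩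
        constructor
        · have h3 : (Lat d).Adj (contract L y) x' := hF hx'
          change ∑ i, |y i - (y + (x' - contract L y)) i| = 1
          have h2 : ∑ i, |contract L y i - x' i| = 1 := h3
          rw [← h2]
          refine Finset.sum_congr rfl (fun i _ => ?_)
          simp only [Pi.add_apply, Pi.sub_apply]
          congr 1
          ring
        · have : contract L y + (y + (x' - contract L y) - y) = x' := by abel
          rw [this]
          exact hx'
    rw [himg] at hne ⊢
    rw [Set.ncard_image_of_injective]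
    · exact hdeg _ hcell hne.of_image
    · intro x1 x2 h
      simp only at h
      simpa using h
  · push Not at hc
    obtain ⟨a, ha⟩ := hc
    have ha' : ¬ (2 ≤ y a % (L + 4) ∧ y a % (L + 4) < L + 2) := by
      rintro ⟨h1, h2⟩
      exact absurd h2 (not_lt.2 (ha h1))
    have hcm : ∀ z : Fin d → ℤ, (∀ i, i ≠ a → z i = y i) → z a = y a - 1 → contract L z = contract L y := by
      intro z h1 h2
      funext i
      unfold contract
      by_cases hi : i = a
      · subst hi
        rw [h2]
        exact ct_margin hL (y i) ha'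
      · rw [h1 i hi]
    -- all steps are in direction `a`
    obtain ⟨y₀, hy₀⟩ := hne
    have hedge : (∀ i, i ≠ a → 2 ≤ y i % (L + 4) ∧ y i % (L + 4) < L + 2) ∧
        F.Adj (contract L y) (Function.update (contract L y) a (contract L y a + 1)) := by
      obtain ⟨a', h | h⟩ := hy₀
      · obtain ⟨h1, h2, h3⟩ := h
        have haa : a' = a := by
          by_contra hne
          exact ha' (h1 a (fun h => hne h.symm)).2
        subst haa
        exact ⟨fun i hi => (h1 i hi).2, h3⟩
      · obtain ⟨h1, h2, h3⟩ := h
        have haa : a' = a := by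
          by_contra hne
          have := (h1 a (fun h => hne h.symm))
          rw [← this.1] at this
          exact ha' this.2
        subst haa
        have hz := hcm y₀ (fun i hi => (h1 i hi).1.symm) (by omega)
        rw [hz] at h3
        refine ⟨fun i hi => ?_, h3⟩
        have := (h1 i hi)
        rw [← this.1] at this
        exact this.2
    have hset : (Str L F).neighborSet y
        = {Function.update y a (y a + 1), Function.update y a (y a - 1)} := by
      ext y'
      simp only [SimpleGraph.mem_neighborSet, Set.mem_insert_iff, Set.mem_singleton_iff]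
      constructor
      · rintro ⟨a', h | h⟩
        · obtain ⟨h1, h2, h3⟩ := h
          have haa : a' = a := by
            by_contra hne
            exact ha' (h1 a (fun h => hne h.symm)).2
          subst haa
          left
          funext i
          by_cases hi : i = a'
          · subst hi; rw [Function.update_self, h2]
          · rw [Function.update_of_ne hi, (h1 i hi).1]
        · obtain ⟨h1, h2, h3⟩ := h
          have haa : a' = a := by
            by_contra hne
            have := (h1 a (fun h => hne h.symm))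
            rw [← this.1] at this
            exact ha' this.2
          subst haa
          right
          funext i
          by_cases hi : i = a'
          · subst hi; rw [Function.update_self]; omega
          · rw [Function.update_of_ne hi, (h1 i hi).1]
      · rintro (rfl | rfl)
        · refine ⟨a, Or.inl ⟨fun i hi => ⟨by rw [Function.update_of_ne hi], hedge.1 i hi⟩,
            by rw [Function.update_self], hedge.2⟩⟩
        · have hz := hcm (Function.update y a (y a - 1)) (fun i hi => by rw [Function.update_of_ne hi])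
            (by rw [Function.update_self])
          refine ⟨a, Or.inr ⟨fun i hi => ⟨by rw [Function.update_of_ne hi], ?_⟩,
            by rw [Function.update_self]; ring, ?_⟩⟩
          · rw [Function.update_of_ne hi]; exact hedge.1 i hi
          · rw [hz]; exact hedge.2
    rw [hset]
    apply Set.ncard_pair
    intro h
    have := congrFun h a
    rw [Function.update_self, Function.update_self] at this
    omega

/-- `F` can be recovered from the stretched graph -/
theorem Str_recover {d : ℕ} {L : ℤ} (hL : 0 < L) (F : SimpleGraph (Fin d → ℤ)) (x x' : Fin d → ℤ)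
    (h : (Lat d).Adj x x') :
    F.Adj x x' ↔ (Str L F).Adj (stretch L x) (stretch L x + (x' - x)) := by
  have hc : ∀ i, 2 ≤ stretch L x i % (L + 4) ∧ stretch L x i % (L + 4) < L + 2 := by
    intro i
    have h0 := Int.emod_nonneg (x i) hL.ne'
    have h1 := Int.emod_lt_of_pos (x i) hL
    unfold stretch
    rw [(st_div_mod hL (x i)).2]
    omega
  rw [Str_central hL F _ _ hc, contract_stretch hL]
  have h1 : x + (stretch L x + (x' - x) - stretch L x) = x' := by abel
  rw [h1]
  constructor
  · intro hF
    refine ⟨?_, hF⟩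
    change ∑ i, |stretch L x i - (stretch L x + (x' - x)) i| = 1
    have h2 : ∑ i, |x i - x' i| = 1 := h
    rw [← h2]
    refine Finset.sum_congr rfl (fun i _ => ?_)
    simp only [Pi.add_apply, Pi.sub_apply]
    congr 1
    ring
  · exact fun h => h.2

end Pool.Agent.Helper772.Sa
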