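import Mathlib
import Pool.Agent.Helper772.Defs
set_option autoImplicit false
namespace Pool.Agent.Helper772.Sb


/-! helper lemmas -/

theorem dm_unique {P q t z : ℤ} (hz : z = q * P + t) (h0 : 0 ≤ t) (h1 : t < P) :
    z / P = q ∧ z % P = t := by
  have hP : 0 < P := lt_of_le_of_lt h0 h1
  exact (Int.ediv_emod_unique hP).2 ⟨by rw [hz]; ring, h0, h1⟩

theorem stretch_dm {d : ℕ} {L : ℤ} (hL : 0 < L) (x : Fin d → ℤ) (i : Fin d) :
    stretch L x i / (L + 4) = x i / L ∧ stretch L x i % (L + 4) = x i % L + 2 := by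
  have h1 := Int.emod_nonneg (x i) hL.ne'
  have h2 := Int.emod_lt_of_pos (x i) hL
  exact dm_unique (by simp only [stretch]; ring) (by omega) (by omega)

theorem contract_stretch {d : ℕ} {L : ℤ} (hL : 0 < L) (x : Fin d → ℤ) :
    contract L (stretch L x) = x := by
  funext i
  have h1 := Int.emod_nonneg (x i) hL.ne'
  have h2 := Int.emod_lt_of_pos (x i) hL
  have h3 := stretch_dm hL x i
  simp only [contract, h3.1, h3.2]
  have h4 : max (-1) (min (L - 1) (x i % L + 2 - 2)) = x i % L := by
    rw [min_eq_right (by omega), max_eq_right (by omega)]; ring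
  rw [h4]
  have := Int.mul_ediv_add_emod (x i) L
  linarith

theorem stretch_inj {d : ℕ} {L : ℤ} (hL : 0 < L) (x x' : Fin d → ℤ)
    (h : stretch L x = stretch L x') : x = x' := by
  rw [← contract_stretch hL x, h, contract_stretch hL x']

/-- central coordinate -/
theorem contract_central {d : ℕ} {L : ℤ} (hL : 0 < L) (y : Fin d → ℤ) (i : Fin d)
    (h1 : 2 ≤ y i % (L + 4)) (h2 : y i % (L + 4) < L + 2) :
    contract L y i / L = y i / (L + 4) ∧ contract L y i % L = y i % (L + 4) - 2 := by
  refine dm_unique ?_ (by omega) (by omega)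
  simp only [contract]
  rw [min_eq_right (by omega), max_eq_right (by omega)]

theorem stretch_of_central {d : ℕ} {L : ℤ} (hL : 0 < L) (y : Fin d → ℤ) (i : Fin d)
    (h1 : 2 ≤ y i % (L + 4)) (h2 : y i % (L + 4) < L + 2) :
    stretch L (contract L y) i = y i := by
  have h3 := contract_central hL y i h1 h2
  simp only [stretch, h3.1, h3.2]
  have := Int.mul_ediv_add_emod (y i) (L + 4)
  linarith

/-- the path of the crossing edge `x, x + e_a` -/
def pth {d : ℕ} (L : ℤ) (x : Fin d → ℤ) (a : Fin d) (k : ℤ) : Fin d → ℤ :=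
  Function.update (stretch L x) a (stretch L x a + k)

theorem pth_ne {d : ℕ} (L : ℤ) (x : Fin d → ℤ) (a : Fin d) (k : ℤ) (i : Fin d) (h : i ≠ a) :
    pth L x a k i = stretch L x i := by
  simp [pth, h]

theorem pth_self {d : ℕ} (L : ℤ) (x : Fin d → ℤ) (a : Fin d) (k : ℤ) :
    pth L x a k a = stretch L x a + k := by
  simp [pth]

theorem pth_zero {d : ℕ} (L : ℤ) (x : Fin d → ℤ) (a : Fin d) : pth L x a 0 = stretch L x := by
  simp [pth]

theorem lat_adj {d : ℕ} {x x' : Fin d → ℤ} (h : (Lat d).Adj x x') :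
    ∃ a, x' = Function.update x a (x a + 1) ∨ x = Function.update x' a (x' a + 1) := by
  have h' : ∑ i, |x i - x' i| = 1 := h
  have hex : ∃ a, x a ≠ x' a := by
    by_contra hcon
    push Not at hcon
    have : ∑ i, |x i - x' i| = 0 := by
      apply Finset.sum_eq_zero
      intro i _
      rw [hcon i]; simp
    omega
  obtain ⟨a, ha⟩ := hex
  have h1 : |x a - x' a| + ∑ i ∈ Finset.univ.erase a, |x i - x' i| = 1 := by
    rw [Finset.add_sum_erase _ (fun i => |x i - x' i|) (Finset.mem_univ a)]; exact h'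
  have h2 : 1 ≤ |x a - x' a| := by
    have : 0 < |x a - x' a| := abs_pos.2 (sub_ne_zero.2 ha)
    omega
  have h3 : 0 ≤ ∑ i ∈ Finset.univ.erase a, |x i - x' i| := Finset.sum_nonneg fun i _ => abs_nonneg _
  have h4 : ∑ i ∈ Finset.univ.erase a, |x i - x' i| = 0 := by omega
  have h5 : ∀ i, i ≠ a → x i = x' i := by
    intro i hi
    have := (Finset.sum_eq_zero_iff_of_nonneg (fun i _ => abs_nonneg (x i - x' i))).1 h4 i
      (Finset.mem_erase.2 ⟨hi, Finset.mem_univ i⟩)
    exact sub_eq_zero.1 (abs_eq_zero.1 this)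
  have h6 : |x a - x' a| = 1 := by omega
  refine ⟨a, ?_⟩
  rcases (abs_eq (by norm_num : (0:ℤ) ≤ 1)).1 h6 with h7 | h7
  · right
    funext i
    by_cases hi : i = a
    · subst hi; simp; omega
    · simp [hi, h5 i hi]
  · left
    funext i
    by_cases hi : i = a
    · subst hi; simp; omega
    · simp [hi, h5 i hi]

/-- the increment changes the cell iff the residue is maximal -/
theorem succ_dm_lt {L : ℤ} (hL : 0 < L) (t : ℤ) (h : t % L < L - 1) :
    (t + 1) / L = t / L ∧ (t + 1) % L = t % L + 1 := by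
  have h1 := Int.emod_nonneg t hL.ne'
  refine dm_unique ?_ (by omega) (by omega)
  have := Int.mul_ediv_add_emod t L
  linarith

theorem succ_dm_eq {L : ℤ} (hL : 0 < L) (t : ℤ) (h : t % L = L - 1) :
    (t + 1) / L = t / L + 1 ∧ (t + 1) % L = 0 := by
  refine dm_unique ?_ (by omega) (by omega)
  have := Int.mul_ediv_add_emod t L
  linarith

theorem pth_five {d : ℕ} {L : ℤ} (hL : 0 < L) (x : Fin d → ℤ) (a : Fin d) (h : x a % L = L - 1) :
    pth L x a 5 = stretch L (Function.update x a (x a + 1)) := by
  funext i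
  by_cases hi : i = a
  · subst hi
    rw [pth_self]
    have := succ_dm_eq hL (x i) h
    simp only [stretch, Function.update_self, this.1, this.2, h]
    ring
  · rw [pth_ne _ _ _ _ _ hi]
    simp [stretch, hi]

theorem pth_dm {d : ℕ} {L : ℤ} (hL : 0 < L) (x : Fin d → ℤ) (a : Fin d) (h : x a % L = L - 1) (k : ℤ)
    (hk0 : 0 ≤ k) (hk5 : k ≤ 5) :
    (k ≤ 2 → pth L x a k a / (L + 4) = x a / L ∧ pth L x a k a % (L + 4) = L + 1 + k) ∧
    (3 ≤ k → pth L x a k a / (L + 4) = x a / L + 1 ∧ pth L x a k a % (L + 4) = k - 3) := by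
  constructor
  · intro hk
    refine dm_unique ?_ (by omega) (by omega)
    rw [pth_self]
    simp only [stretch, h]
    ring
  · intro hk
    refine dm_unique ?_ (by omega) (by omega)
    rw [pth_self]
    simp only [stretch, h]
    ring

theorem pth_contract {d : ℕ} {L : ℤ} (hL : 0 < L) (x : Fin d → ℤ) (a : Fin d)
    (h : x a % L = L - 1) (k : ℤ) (hk0 : 0 ≤ k) (hk4 : k ≤ 4) :
    contract L (pth L x a k) = x := by
  have hx := Int.mul_ediv_add_emod (x a) L
  have hdm := pth_dm hL x a h k hk0 (by omega)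
  funext i
  by_cases hi : i = a
  · subst hi
    by_cases hk : k ≤ 2
    · have h2 := hdm.1 hk
      simp only [contract, h2.1, h2.2]
      rw [min_eq_left (by omega), max_eq_right (by omega)]
      rw [h] at hx
      linarith
    · have h2 := hdm.2 (by omega)
      simp only [contract, h2.1, h2.2]
      rw [min_eq_right (by omega), max_eq_left (by omega)]
      rw [h] at hx
      linarith
  · have h3 : contract L (pth L x a k) i = contract L (stretch L x) i := by
      simp only [contract, pth_ne _ _ _ _ _ hi]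
    rw [h3, contract_stretch hL]

theorem stretch_central {d : ℕ} {L : ℤ} (hL : 0 < L) (x : Fin d → ℤ) (i : Fin d) :
    2 ≤ stretch L x i % (L + 4) ∧ stretch L x i % (L + 4) < L + 2 := by
  have h1 := Int.emod_nonneg (x i) hL.ne'
  have h2 := Int.emod_lt_of_pos (x i) hL
  rw [(stretch_dm hL x i).2]
  omega

theorem pth_step {d : ℕ} {L : ℤ} (hL : 0 < L) (F : SimpleGraph (Fin d → ℤ)) (x : Fin d → ℤ)
    (a : Fin d) (h : x a % L = L - 1) (hF : F.Adj x (Function.update x a (x a + 1)))
    (k : ℤ) (hk0 : 0 ≤ k) (hk4 : k ≤ 4) :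
    StrStep L F a (pth L x a k) (pth L x a (k + 1)) := by
  refine ⟨?_, ?_, ?_⟩
  · intro i hi
    rw [pth_ne _ _ _ _ _ hi, pth_ne _ _ _ _ _ hi]
    exact ⟨rfl, stretch_central hL x i⟩
  · rw [pth_self, pth_self]; ring
  · rw [pth_contract hL x a h k hk0 hk4]; exact hF

theorem pth_adj {d : ℕ} {L : ℤ} (hL : 0 < L) (F : SimpleGraph (Fin d → ℤ)) (x : Fin d → ℤ)
    (a : Fin d) (h : x a % L = L - 1) (hF : F.Adj x (Function.update x a (x a + 1)))
    (k k' : ℤ) (hk0 : 0 ≤ k) (hk4 : k ≤ 4) (hk' : k' = k + 1) :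
    (Str L F).Adj (pth L x a k) (pth L x a k') := by
  subst hk'
  exact ⟨a, Or.inl (pth_step hL F x a h hF k hk0 hk4)⟩

theorem pth_tile_lo {d : ℕ} {L : ℤ} (hL : 0 < L) (x : Fin d → ℤ) (a : Fin d)
    (h : x a % L = L - 1) (k : ℤ) (hk0 : 0 ≤ k) (hk2 : k ≤ 2) :
    tile L (pth L x a k) = cellc L x := by
  funext i
  by_cases hi : i = a
  · subst hi
    exact ((pth_dm hL x i h k hk0 (by omega)).1 hk2).1
  · simp only [tile, cellc, pth_ne _ _ _ _ _ hi]
    exact (stretch_dm hL x i).1

theorem pth_tile_hi {d : ℕ} {L : ℤ} (hL : 0 < L) (x : Fin d → ℤ) (a : Fin d)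
    (h : x a % L = L - 1) (k : ℤ) (hk3 : 3 ≤ k) (hk5 : k ≤ 5) :
    tile L (pth L x a k) = cellc L (Function.update x a (x a + 1)) := by
  funext i
  by_cases hi : i = a
  · subst hi
    simp only [tile, cellc, Function.update_self, (succ_dm_eq hL (x i) h).1]
    exact ((pth_dm hL x i h k (by omega) hk5).2 hk3).1
  · simp only [tile, cellc, pth_ne _ _ _ _ _ hi, Function.update_of_ne hi]
    exact (stretch_dm hL x i).1

theorem pth_gate2 {d : ℕ} {L : ℤ} (hL : 0 < L) (x : Fin d → ℤ) (a : Fin d)
    (h : x a % L = L - 1) : IsGate L (pth L x a 2) := by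
  refine ⟨a, Or.inr ?_, ?_⟩
  · rw [((pth_dm hL x a h 2 (by omega) (by omega)).1 le_rfl).2]; ring
  · intro i hi
    rw [pth_ne _ _ _ _ _ hi]
    exact stretch_central hL x i

theorem pth_gate3 {d : ℕ} {L : ℤ} (hL : 0 < L) (x : Fin d → ℤ) (a : Fin d)
    (h : x a % L = L - 1) : IsGate L (pth L x a 3) := by
  refine ⟨a, Or.inl ?_, ?_⟩
  · rw [((pth_dm hL x a h 3 (by omega) (by omega)).2 le_rfl).2]; ring
  · intro i hi
    rw [pth_ne _ _ _ _ _ hi]
    exact stretch_central hL x i

theorem pth_opp2 {d : ℕ} {L : ℤ} (hL : 0 < L) (x : Fin d → ℤ) (a : Fin d)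
    (h : x a % L = L - 1) : opp L (pth L x a 2) = pth L x a 3 := by
  funext i
  by_cases hi : i = a
  · subst hi
    have h1 := ((pth_dm hL x i h 2 (by omega) (by omega)).1 le_rfl).2
    simp only [opp, h1]
    rw [if_neg (by omega), if_pos (by ring), pth_self, pth_self]
    ring
  · have h1 := stretch_central hL x i
    simp only [opp, pth_ne _ _ _ _ _ hi]
    rw [if_neg (by omega), if_neg (by omega)]

theorem pth_opp3 {d : ℕ} {L : ℤ} (hL : 0 < L) (x : Fin d → ℤ) (a : Fin d)
    (h : x a % L = L - 1) : opp L (pth L x a 3) = pth L x a 2 := by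
  funext i
  by_cases hi : i = a
  · subst hi
    have h1 := ((pth_dm hL x i h 3 (by omega) (by omega)).2 le_rfl).2
    simp only [opp, h1]
    rw [if_pos (by ring), pth_self, pth_self]
    ring
  · have h1 := stretch_central hL x i
    simp only [opp, pth_ne _ _ _ _ _ hi]
    rw [if_neg (by omega), if_neg (by omega)]

/-- normal form of a step -/
theorem step_nf {d : ℕ} {L : ℤ} (hL : 0 < L) (F : SimpleGraph (Fin d → ℤ)) (a : Fin d)
    (y y' : Fin d → ℤ) (h : StrStep L F a y y') :
    ∃ x, F.Adj x (Function.update x a (x a + 1)) ∧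
      ((x a % L < L - 1 ∧ y = stretch L x ∧ y' = stretch L (Function.update x a (x a + 1)) ∧
          cellc L x = cellc L (Function.update x a (x a + 1))) ∨
        (x a % L = L - 1 ∧ ∃ k : ℤ, 0 ≤ k ∧ k ≤ 4 ∧ y = pth L x a k ∧ y' = pth L x a (k + 1))) := by
  obtain ⟨h1, h2, h3⟩ := h
  refine ⟨contract L y, h3, ?_⟩
  have hne : ∀ i, i ≠ a → stretch L (contract L y) i = y i := by
    intro i hi
    exact stretch_of_central hL y i (h1 i hi).2.1 (h1 i hi).2.2
  have hr0 := Int.emod_nonneg (y a) (by omega : L + 4 ≠ 0)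
  have hr1 := Int.emod_lt_of_pos (y a) (by omega : 0 < L + 4)
  have hy := Int.mul_ediv_add_emod (y a) (L + 4)
  -- reduction to the coordinate a
  have key : ∀ k : ℤ, y a = stretch L (contract L y) a + k →
      y = pth L (contract L y) a k ∧ y' = pth L (contract L y) a (k + 1) := by
    intro k hk
    constructor
    · funext i
      by_cases hi : i = a
      · subst hi; rw [pth_self]; exact hk
      · rw [pth_ne _ _ _ _ _ hi, hne i hi]
    · funext i
      by_cases hi : i = a
      · subst hi; rw [pth_self, h2, hk]; ring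
      · rw [pth_ne _ _ _ _ _ hi, hne i hi, (h1 i hi).1]
  have hc : ∀ q t : ℤ, contract L y a = q * L + t → 0 ≤ t → t < L →
      contract L y a % L = t ∧ stretch L (contract L y) a = q * (L + 4) + t + 2 := by
    intro q t hq h0 h1
    have := dm_unique hq h0 h1
    refine ⟨this.2, ?_⟩
    simp only [stretch, this.1, this.2]
  by_cases hA : y a % (L + 4) < L + 1
  · by_cases hB : 2 ≤ y a % (L + 4)
    · left
      have hcc := contract_central hL y a hB (by omega)
      have hlt : contract L y a % L < L - 1 := by omega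
      have hs := stretch_of_central hL y a hB (by omega)
      have hk := key 0 (by rw [hs]; ring)
      refine ⟨hlt, by rw [← pth_zero L (contract L y) a]; exact hk.1, ?_, ?_⟩
      · rw [hk.2]
        funext i
        by_cases hi : i = a
        · subst hi
          rw [pth_self]
          have := succ_dm_lt hL (contract L y i) hlt
          simp only [stretch, Function.update_self, this.1, this.2]
          ring
        · rw [pth_ne _ _ _ _ _ hi]
          simp only [stretch, Function.update_of_ne hi]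
      · funext i
        by_cases hi : i = a
        · subst hi
          simp only [cellc, Function.update_self, (succ_dm_lt hL (contract L y i) hlt).1]
        · simp only [cellc, Function.update_of_ne hi]
    · right
      have hca : contract L y a = (y a / (L + 4) - 1) * L + (L - 1) := by
        simp only [contract]
        rw [min_eq_right (by omega), max_eq_left (by omega)]
        ring
      have hcs := hc _ _ hca (by omega) (by omega)
      refine ⟨hcs.1, y a % (L + 4) + 3, by omega, by omega, ?_⟩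
      apply key
      rw [hcs.2]
      linarith
  · right
    have hca : contract L y a = (y a / (L + 4)) * L + (L - 1) := by
      simp only [contract]
      rw [min_eq_left (by omega), max_eq_right (by omega)]
    have hcs := hc _ _ hca (by omega) (by omega)
    refine ⟨hcs.1, y a % (L + 4) - (L + 1), by omega, by omega, ?_⟩
    apply key
    rw [hcs.2]
    linarith

theorem cross_res {d : ℕ} {L : ℤ} (hL : 0 < L) (x : Fin d → ℤ) (a : Fin d)
    (hc : cellc L x ≠ cellc L (Function.update x a (x a + 1))) : x a % L = L - 1 := by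
  by_contra hcon
  apply hc
  have h2 := Int.emod_lt_of_pos (x a) hL
  have := succ_dm_lt hL (x a) (by omega)
  funext i
  by_cases hi : i = a
  · subst hi
    simp only [cellc, Function.update_self, this.1]
  · simp only [cellc, Function.update_of_ne hi]

theorem cell_ne {d : ℕ} {L : ℤ} (hL : 0 < L) (x : Fin d → ℤ) (a : Fin d)
    (h : x a % L = L - 1) : cellc L x ≠ cellc L (Function.update x a (x a + 1)) := by
  intro hcon
  have := congrFun hcon a
  simp only [cellc, Function.update_self, (succ_dm_eq hL (x a) h).1] at this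
  omega

/-- the gate site of a crossing pair -/
def gsite {d : ℕ} (L : ℤ) (m : ℤ) (x x' : Fin d → ℤ) : Fin d → ℤ :=
  fun i => stretch L x i + m * (x' i - x i)

theorem gsite_up {d : ℕ} (L : ℤ) (m : ℤ) (x : Fin d → ℤ) (a : Fin d) :
    gsite L m x (Function.update x a (x a + 1)) = pth L x a m := by
  funext i
  by_cases hi : i = a
  · subst hi
    rw [pth_self]
    simp only [gsite, Function.update_self]
    ring
  · rw [pth_ne _ _ _ _ _ hi]
    simp only [gsite, Function.update_of_ne hi]
    ring

theorem gsite_down {d : ℕ} {L : ℤ} (hL : 0 < L) (m : ℤ) (x : Fin d → ℤ) (a : Fin d)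
    (h : x a % L = L - 1) :
    gsite L m (Function.update x a (x a + 1)) x = pth L x a (5 - m) := by
  have h5 := pth_five hL x a h
  funext i
  by_cases hi : i = a
  · subst hi
    rw [pth_self]
    simp only [gsite, Function.update_self, ← h5, pth_self]
    ring
  · rw [pth_ne _ _ _ _ _ hi]
    simp only [gsite, Function.update_of_ne hi, ← h5, pth_ne _ _ _ _ _ hi]
    ring

/-! Targets (all assume `0 < L`). -/

/-- An edge of `F` between two different cells produces a gate edge; the two ends of the edge are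
joined to the gate sites by edges of the stretched graph inside the two tiles (stated with an
arbitrary colouring `f` that is constant along edges inside the tile). -/
theorem Str_cross {d : ℕ} {L : ℤ} (hL : 0 < L) (F : SimpleGraph (Fin d → ℤ)) (hF : F ≤ Lat d)
    (x x' : Fin d → ℤ) (h : F.Adj x x') (hc : cellc L x ≠ cellc L x') :
    ∃ u, IsGate L u ∧ tile L u = cellc L x ∧ tile L (opp L u) = cellc L x' ∧
      (Str L F).Adj u (opp L u) ∧
      (∀ (α : Type) (f : (Fin d → ℤ) → α),
        (∀ p q, (Str L F).Adj p q → tile L p = cellc L x → tile L q = cellc L x → f p = f q) →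
          f (stretch L x) = f u) ∧
      (∀ (α : Type) (f : (Fin d → ℤ) → α),
        (∀ p q, (Str L F).Adj p q → tile L p = cellc L x' → tile L q = cellc L x' → f p = f q) →
          f (stretch L x') = f (opp L u)) := by
  obtain ⟨a, h1 | h1⟩ := lat_adj (hF h)
  · subst h1
    have hr := cross_res hL x a hc
    refine ⟨pth L x a 2, pth_gate2 hL x a hr, pth_tile_lo hL x a hr 2 (by omega) (by omega), ?_, ?_, ?_, ?_⟩
    · rw [pth_opp2 hL x a hr]
      exact pth_tile_hi hL x a hr 3 (by omega) (by omega)
    · rw [pth_opp2 hL x a hr]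
      exact pth_adj hL F x a hr h 2 3 (by omega) (by omega) (by norm_num)
    · intro α f hf
      rw [← pth_zero L x a]
      rw [hf _ _ (pth_adj hL F x a hr h 0 1 (by omega) (by omega) (by norm_num))
        (pth_tile_lo hL x a hr 0 (by omega) (by omega)) (pth_tile_lo hL x a hr 1 (by omega) (by omega))]
      exact hf _ _ (pth_adj hL F x a hr h 1 2 (by omega) (by omega) (by norm_num))
        (pth_tile_lo hL x a hr 1 (by omega) (by omega)) (pth_tile_lo hL x a hr 2 (by omega) (by omega))
    · intro α f hf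
      rw [pth_opp2 hL x a hr, ← pth_five hL x a hr]
      rw [← hf _ _ (pth_adj hL F x a hr h 4 5 (by omega) (by omega) (by norm_num))
        (pth_tile_hi hL x a hr 4 (by omega) (by omega)) (pth_tile_hi hL x a hr 5 (by omega) (by omega))]
      exact (hf _ _ (pth_adj hL F x a hr h 3 4 (by omega) (by omega) (by norm_num))
        (pth_tile_hi hL x a hr 3 (by omega) (by omega)) (pth_tile_hi hL x a hr 4 (by omega) (by omega))).symm
  · subst h1
    have hr := cross_res hL x' a (Ne.symm hc)
    have h' := h.symm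
    refine ⟨pth L x' a 3, pth_gate3 hL x' a hr, pth_tile_hi hL x' a hr 3 (by omega) (by omega), ?_, ?_, ?_, ?_⟩
    · rw [pth_opp3 hL x' a hr]
      exact pth_tile_lo hL x' a hr 2 (by omega) (by omega)
    · rw [pth_opp3 hL x' a hr]
      exact (pth_adj hL F x' a hr h' 2 3 (by omega) (by omega) (by norm_num)).symm
    · intro α f hf
      rw [← pth_five hL x' a hr]
      rw [← hf _ _ (pth_adj hL F x' a hr h' 4 5 (by omega) (by omega) (by norm_num))
        (pth_tile_hi hL x' a hr 4 (by omega) (by omega)) (pth_tile_hi hL x' a hr 5 (by omega) (by omega))]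
      exact (hf _ _ (pth_adj hL F x' a hr h' 3 4 (by omega) (by omega) (by norm_num))
        (pth_tile_hi hL x' a hr 3 (by omega) (by omega)) (pth_tile_hi hL x' a hr 4 (by omega) (by omega))).symm
    · intro α f hf
      rw [pth_opp3 hL x' a hr, ← pth_zero L x' a]
      rw [hf _ _ (pth_adj hL F x' a hr h' 0 1 (by omega) (by omega) (by norm_num))
        (pth_tile_lo hL x' a hr 0 (by omega) (by omega)) (pth_tile_lo hL x' a hr 1 (by omega) (by omega))]
      exact hf _ _ (pth_adj hL F x' a hr h' 1 2 (by omega) (by omega) (by norm_num))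
        (pth_tile_lo hL x' a hr 1 (by omega) (by omega)) (pth_tile_lo hL x' a hr 2 (by omega) (by omega))

/-- an edge of `F` inside a cell -/
theorem Str_inner {d : ℕ} {L : ℤ} (hL : 0 < L) (F : SimpleGraph (Fin d → ℤ)) (hF : F ≤ Lat d)
    (x x' : Fin d → ℤ) (h : F.Adj x x') (hc : cellc L x = cellc L x') :
    (Str L F).Adj (stretch L x) (stretch L x') := by
  have main : ∀ (x : Fin d → ℤ) (a : Fin d), F.Adj x (Function.update x a (x a + 1)) →
      cellc L x = cellc L (Function.update x a (x a + 1)) →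
      StrStep L F a (stretch L x) (stretch L (Function.update x a (x a + 1))) := by
    intro x a h hc
    have hlt : x a % L < L - 1 := by
      by_contra hcon
      have h2 := Int.emod_lt_of_pos (x a) hL
      exact cell_ne hL x a (by omega) hc
    refine ⟨?_, ?_, ?_⟩
    · intro i hi
      refine ⟨?_, stretch_central hL x i⟩
      simp only [stretch, Function.update_of_ne hi]
    · have := succ_dm_lt hL (x a) hlt
      simp only [stretch, Function.update_self, this.1, this.2]
      ring
    · rw [contract_stretch hL]; exact h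
  obtain ⟨a, h1 | h1⟩ := lat_adj (hF h)
  · subst h1
    exact ⟨a, Or.inl (main x a h hc)⟩
  · subst h1
    exact ⟨a, Or.inr (main x' a h.symm hc.symm)⟩

/-- every non-isolated vertex of the stretched graph is joined inside its tile to the image of a
non-isolated vertex of `F` -/
theorem Str_support {d : ℕ} {L : ℤ} (hL : 0 < L) (F : SimpleGraph (Fin d → ℤ)) (hF : F ≤ Lat d)
    (y : Fin d → ℤ) (hy : ∃ z, (Str L F).Adj y z) :
    ∃ x, cellc L x = tile L y ∧ (∃ x', F.Adj x x') ∧
      (∀ (α : Type) (f : (Fin d → ℤ) → α),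
        (∀ p q, (Str L F).Adj p q → tile L p = tile L y → tile L q = tile L y → f p = f q) →
          f (stretch L x) = f y) := by
  have central : ∀ x x', F.Adj x x' → y = stretch L x → ∃ x, cellc L x = tile L y ∧ (∃ x', F.Adj x x') ∧
      (∀ (α : Type) (f : (Fin d → ℤ) → α),
        (∀ p q, (Str L F).Adj p q → tile L p = tile L y → tile L q = tile L y → f p = f q) →
          f (stretch L x) = f y) := by
    intro x x' hx hy
    refine ⟨x, ?_, ⟨x', hx⟩, ?_⟩
    · rw [hy]
      funext i
      exact ((stretch_dm hL x i).1).symm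
    · intro α f _
      rw [hy]
  have path : ∀ (x : Fin d → ℤ) (a : Fin d) (k : ℤ), F.Adj x (Function.update x a (x a + 1)) →
      x a % L = L - 1 → 0 ≤ k → k ≤ 5 → y = pth L x a k →
      ∃ x, cellc L x = tile L y ∧ (∃ x', F.Adj x x') ∧
      (∀ (α : Type) (f : (Fin d → ℤ) → α),
        (∀ p q, (Str L F).Adj p q → tile L p = tile L y → tile L q = tile L y → f p = f q) →
          f (stretch L x) = f y) := by
    intro x a k hx hr hk0 hk5 hyk
    by_cases hk : k ≤ 2
    · have ht : tile L y = cellc L x := by rw [hyk]; exact pth_tile_lo hL x a hr k hk0 hk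
      refine ⟨x, ht.symm, ⟨_, hx⟩, ?_⟩
      intro α f hf
      rw [ht] at hf
      have e01 := hf _ _ (pth_adj hL F x a hr hx 0 1 (by omega) (by omega) (by norm_num))
        (pth_tile_lo hL x a hr 0 (by omega) (by omega)) (pth_tile_lo hL x a hr 1 (by omega) (by omega))
      have e12 := hf _ _ (pth_adj hL F x a hr hx 1 2 (by omega) (by omega) (by norm_num))
        (pth_tile_lo hL x a hr 1 (by omega) (by omega)) (pth_tile_lo hL x a hr 2 (by omega) (by omega))
      rw [← pth_zero L x a, hyk]
      have : k = 0 ∨ k = 1 ∨ k = 2 := by omega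
      rcases this with rfl | rfl | rfl
      · rfl
      · exact e01
      · exact e01.trans e12
    · have ht : tile L y = cellc L (Function.update x a (x a + 1)) := by
        rw [hyk]; exact pth_tile_hi hL x a hr k (by omega) hk5
      refine ⟨Function.update x a (x a + 1), ht.symm, ⟨_, hx.symm⟩, ?_⟩
      intro α f hf
      rw [ht] at hf
      have e34 := hf _ _ (pth_adj hL F x a hr hx 3 4 (by omega) (by omega) (by norm_num))
        (pth_tile_hi hL x a hr 3 (by omega) (by omega)) (pth_tile_hi hL x a hr 4 (by omega) (by omega))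
      have e45 := hf _ _ (pth_adj hL F x a hr hx 4 5 (by omega) (by omega) (by norm_num))
        (pth_tile_hi hL x a hr 4 (by omega) (by omega)) (pth_tile_hi hL x a hr 5 (by omega) (by omega))
      rw [← pth_five hL x a hr, hyk]
      have : k = 3 ∨ k = 4 ∨ k = 5 := by omega
      rcases this with rfl | rfl | rfl
      · exact (e34.trans e45).symm
      · exact e45.symm
      · rfl
  obtain ⟨z, a, hz | hz⟩ := hy
  · obtain ⟨x, hx, ⟨_, h1, _, _⟩ | ⟨hr, k, hk0, hk4, h1, h2⟩⟩ := step_nf hL F a y z hz
    · exact central x _ hx h1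
    · exact path x a k hx hr hk0 (by omega) h1
  · obtain ⟨x, hx, ⟨_, _, h1, _⟩ | ⟨hr, k, hk0, hk4, h1, h2⟩⟩ := step_nf hL F a z y hz
    · exact central _ x hx.symm h1
    · exact path x a (k + 1) hx hr (by omega) (by omega) h2

/-- the gate edges from tile `b` to tile `b'` are in bijection with the edges of `F` from cell `b`
to cell `b'` -/
theorem Str_gate_count {d : ℕ} {L : ℤ} (hL : 0 < L) (F : SimpleGraph (Fin d → ℤ)) (hF : F ≤ Lat d)
    (b b' : Fin d → ℤ) (hb : b ≠ b') :
    {u : Fin d → ℤ | IsGate L u ∧ tile L u = b ∧ tile L (opp L u) = b' ∧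
        (Str L F).Adj u (opp L u)}.ncard =
      {p : (Fin d → ℤ) × (Fin d → ℤ) | F.Adj p.1 p.2 ∧ cellc L p.1 = b ∧ cellc L p.2 = b'}.ncard := by
  have hdiff : ∀ x x', F.Adj x x' → cellc L x ≠ cellc L x' →
      ∀ i, x' i - x i = cellc L x' i - cellc L x i := by
    intro x x' h hc
    have main : ∀ (x : Fin d → ℤ) (a : Fin d), cellc L x ≠ cellc L (Function.update x a (x a + 1)) →
        ∀ i, (Function.update x a (x a + 1)) i - x i
          = cellc L (Function.update x a (x a + 1)) i - cellc L x i := by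
      intro x a hc i
      have hr := cross_res hL x a hc
      by_cases hi : i = a
      · subst hi
        simp only [cellc, Function.update_self, (succ_dm_eq hL (x i) hr).1]
        ring
      · simp only [cellc, Function.update_of_ne hi]
        ring
    obtain ⟨a, h1 | h1⟩ := lat_adj (hF h)
    · subst h1
      exact main x a hc
    · subst h1
      intro i
      have := main x' a (Ne.symm hc) i
      linarith
  symm
  refine Set.ncard_congr (fun p _ => gsite L 2 p.1 p.2) ?_ ?_ ?_
  · rintro ⟨x, x'⟩ ⟨h, h1, h2⟩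
    simp only at h h1 h2 ⊢
    have hc : cellc L x ≠ cellc L x' := by rw [h1, h2]; exact hb
    obtain ⟨a, h3 | h3⟩ := lat_adj (hF h)
    · subst h3
      have hr := cross_res hL x a hc
      rw [gsite_up]
      refine ⟨pth_gate2 hL x a hr, ?_, ?_, ?_⟩
      · rw [pth_tile_lo hL x a hr 2 (by omega) (by omega), h1]
      · rw [pth_opp2 hL x a hr, pth_tile_hi hL x a hr 3 (by omega) (by omega), h2]
      · rw [pth_opp2 hL x a hr]
        exact pth_adj hL F x a hr h 2 3 (by omega) (by omega) (by norm_num)
    · subst h3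
      have hr := cross_res hL x' a (Ne.symm hc)
      rw [gsite_down hL 2 x' a hr]
      norm_num
      refine ⟨pth_gate3 hL x' a hr, ?_, ?_, ?_⟩
      · rw [pth_tile_hi hL x' a hr 3 (by omega) (by omega), h1]
      · rw [pth_opp3 hL x' a hr, pth_tile_lo hL x' a hr 2 (by omega) (by omega), h2]
      · rw [pth_opp3 hL x' a hr]
        exact (pth_adj hL F x' a hr h.symm 2 3 (by omega) (by omega) (by norm_num)).symm
  · rintro ⟨x, x'⟩ ⟨z, z'⟩ ⟨h, h1, h2⟩ ⟨g, g1, g2⟩ heq
    simp only at h h1 h2 g g1 g2 heq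
    have hcx : cellc L x ≠ cellc L x' := by rw [h1, h2]; exact hb
    have hcz : cellc L z ≠ cellc L z' := by rw [g1, g2]; exact hb
    have dx := hdiff x x' h hcx
    have dz := hdiff z z' g hcz
    rw [h1, h2] at dx
    rw [g1, g2] at dz
    have hs : stretch L x = stretch L z := by
      funext i
      have := congrFun heq i
      simp only [gsite] at this
      rw [dx i, dz i] at this
      linarith
    have hxz : x = z := stretch_inj hL x z hs
    subst hxz
    have : x' = z' := by
      funext i
      have e1 := dx i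
      have e2 := dz i
      linarith
    rw [this]
  · rintro u ⟨hg, ht, hto, a, hadj⟩
    have hne : tile L u ≠ tile L (opp L u) := by rw [ht, hto]; exact hb
    have cell_st : ∀ x : Fin d → ℤ, tile L (stretch L x) = cellc L x := by
      intro x
      funext i
      exact (stretch_dm hL x i).1
    rcases hadj with hs | hs
    · obtain ⟨x, hx, ⟨_, h1, h2, h3⟩ | ⟨hr, k, hk0, hk4, h1, h2⟩⟩ := step_nf hL F a _ _ hs
      · exfalso
        apply hne
        rw [h1, h2] at *
        rw [cell_st, h2, cell_st, h3]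
      · have hk : k = 2 := by
          by_contra hk2
          apply hne
          rw [h2]
          by_cases hlt : k < 2
          · rw [h1, pth_tile_lo hL x a hr k hk0 (by omega), pth_tile_lo hL x a hr (k + 1) (by omega) (by omega)]
          · rw [h1, pth_tile_hi hL x a hr k (by omega) (by omega), pth_tile_hi hL x a hr (k + 1) (by omega) (by omega)]
        subst hk
        refine ⟨(x, Function.update x a (x a + 1)), ⟨hx, ?_, ?_⟩, ?_⟩
        · rw [← ht, h1, pth_tile_lo hL x a hr 2 (by omega) (by omega)]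
        · rw [← hto, h2, pth_tile_hi hL x a hr (2 + 1) (by omega) (by omega)]
        · simp only
          rw [gsite_up, ← h1]
    · obtain ⟨x, hx, ⟨_, h1, h2, h3⟩ | ⟨hr, k, hk0, hk4, h1, h2⟩⟩ := step_nf hL F a _ _ hs
      · exfalso
        apply hne
        rw [h1, cell_st]
        conv_lhs => rw [h2]
        rw [cell_st, h3]
      · have hk : k = 2 := by
          by_contra hk2
          apply hne
          rw [h1]
          conv_lhs => rw [h2]
          by_cases hlt : k < 2
          · rw [pth_tile_lo hL x a hr k hk0 (by omega), pth_tile_lo hL x a hr (k + 1) (by omega) (by omega)]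
          · rw [pth_tile_hi hL x a hr k (by omega) (by omega), pth_tile_hi hL x a hr (k + 1) (by omega) (by omega)]
        subst hk
        refine ⟨(Function.update x a (x a + 1), x), ⟨hx.symm, ?_, ?_⟩, ?_⟩
        · rw [← ht, h2, pth_tile_hi hL x a hr (2 + 1) (by omega) (by omega)]
        · rw [← hto, h1, pth_tile_lo hL x a hr 2 (by omega) (by omega)]
        · simp only
          rw [gsite_down hL 2 x a hr]
          norm_num at h2 ⊢
          exact h2.symm

/-- size of the stretched graph -/
theorem Str_card {d : ℕ} {L : ℤ} (hL : 0 < L) (F : SimpleGraph (Fin d → ℤ)) (hF : F ≤ Lat d)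
    (hfin : {x : Fin d → ℤ | ∃ x', F.Adj x x'}.Finite) :
    {y : Fin d → ℤ | ∃ z, (Str L F).Adj y z}.Finite ∧
    {y : Fin d → ℤ | ∃ z, (Str L F).Adj y z}.ncard ≤
      {x : Fin d → ℤ | ∃ x', F.Adj x x'}.ncard +
      2 * {p : (Fin d → ℤ) × (Fin d → ℤ) | F.Adj p.1 p.2 ∧ cellc L p.1 ≠ cellc L p.2}.ncard := by
  set S : Set (Fin d → ℤ) := {x | ∃ x', F.Adj x x'} with hS
  set E : Set ((Fin d → ℤ) × (Fin d → ℤ)) := {p | F.Adj p.1 p.2 ∧ cellc L p.1 ≠ cellc L p.2} with hE
  have hEfin : E.Finite := by
    refine (hfin.prod hfin).subset ?_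
    rintro ⟨x, x'⟩ ⟨h, _⟩
    exact ⟨⟨x', h⟩, ⟨x, h.symm⟩⟩
  have hsub : {y : Fin d → ℤ | ∃ z, (Str L F).Adj y z} ⊆
      (stretch L '' S) ∪ ((fun p : (Fin d → ℤ) × (Fin d → ℤ) => gsite L 1 p.1 p.2) '' E ∪
        (fun p : (Fin d → ℤ) × (Fin d → ℤ) => gsite L 2 p.1 p.2) '' E) := by
    intro y hy
    have path : ∀ (x : Fin d → ℤ) (a : Fin d) (k : ℤ), F.Adj x (Function.update x a (x a + 1)) →
        x a % L = L - 1 → 0 ≤ k → k ≤ 5 → y = pth L x a k →
        y ∈ (stretch L '' S) ∪ ((fun p : (Fin d → ℤ) × (Fin d → ℤ) => gsite L 1 p.1 p.2) '' E ∪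
        (fun p : (Fin d → ℤ) × (Fin d → ℤ) => gsite L 2 p.1 p.2) '' E) := by
      intro x a k hx hr hk0 hk5 hyk
      have hc := cell_ne hL x a hr
      have : k = 0 ∨ k = 1 ∨ k = 2 ∨ k = 3 ∨ k = 4 ∨ k = 5 := by omega
      rcases this with rfl | rfl | rfl | rfl | rfl | rfl
      · left; exact ⟨x, ⟨_, hx⟩, by rw [hyk, pth_zero]⟩
      · right; left
        refine ⟨(x, Function.update x a (x a + 1)), ⟨hx, hc⟩, ?_⟩
        simp only
        rw [gsite_up, hyk]
      · right; right
        refine ⟨(x, Function.update x a (x a + 1)), ⟨hx, hc⟩, ?_⟩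
        simp only
        rw [gsite_up, hyk]
      · right; right
        refine ⟨(Function.update x a (x a + 1), x), ⟨hx.symm, Ne.symm hc⟩, ?_⟩
        simp only
        rw [gsite_down hL 2 x a hr, hyk]
        norm_num
      · right; left
        refine ⟨(Function.update x a (x a + 1), x), ⟨hx.symm, Ne.symm hc⟩, ?_⟩
        simp only
        rw [gsite_down hL 1 x a hr, hyk]
        norm_num
      · left; exact ⟨_, ⟨_, hx.symm⟩, by rw [hyk, pth_five hL x a hr]⟩
    obtain ⟨z, a, hz | hz⟩ := hy
    · obtain ⟨x, hx, ⟨_, h1, _, _⟩ | ⟨hr, k, hk0, hk4, h1, h2⟩⟩ := step_nf hL F a y z hz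
      · left; exact ⟨x, ⟨_, hx⟩, h1.symm⟩
      · exact path x a k hx hr hk0 (by omega) h1
    · obtain ⟨x, hx, ⟨_, _, h1, _⟩ | ⟨hr, k, hk0, hk4, h1, h2⟩⟩ := step_nf hL F a z y hz
      · left; exact ⟨_, ⟨_, hx.symm⟩, h1.symm⟩
      · exact path x a (k + 1) hx hr (by omega) (by omega) h2
  have hfinU : ((stretch L '' S) ∪ ((fun p : (Fin d → ℤ) × (Fin d → ℤ) => gsite L 1 p.1 p.2) '' E ∪
        (fun p : (Fin d → ℤ) × (Fin d → ℤ) => gsite L 2 p.1 p.2) '' E)).Finite :=
    (hfin.image _).union ((hEfin.image _).union (hEfin.image _))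
  refine ⟨hfinU.subset hsub, ?_⟩
  refine (Set.ncard_le_ncard hsub hfinU).trans ?_
  refine (Set.ncard_union_le _ _).trans ?_
  have h1 : (stretch L '' S).ncard ≤ S.ncard := Set.ncard_image_le hfin
  have h2 := Set.ncard_union_le ((fun p : (Fin d → ℤ) × (Fin d → ℤ) => gsite L 1 p.1 p.2) '' E)
    ((fun p : (Fin d → ℤ) × (Fin d → ℤ) => gsite L 2 p.1 p.2) '' E)
  have h3 : ((fun p : (Fin d → ℤ) × (Fin d → ℤ) => gsite L 1 p.1 p.2) '' E).ncard ≤ E.ncard :=
    Set.ncard_image_le hEfin
  have h4 : ((fun p : (Fin d → ℤ) × (Fin d → ℤ) => gsite L 2 p.1 p.2) '' E).ncard ≤ E.ncard :=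
    Set.ncard_image_le hEfin
  omega

end Pool.Agent.Helper772.Sb
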