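import Mathlib
import Pool.Agent.Helper772.Defs
import Pool.Agent.Helper772.Sa
import Pool.Agent.Helper772.Sb
set_option autoImplicit false
namespace Pool.Agent.Helper772.CB

open Pool.Agent.Helper772.Sa (opp_gate)
open Pool.Agent.Helper772.Sb (Str_gate_count)

/-! Given results (proved in other jobs, use as black boxes). -/

theorem fin_sub_add {r : ℕ} [NeZero r] (i : Fin r) : i - 1 + 1 = i := sub_add_cancel i 1

theorem cell_start_mem {d r : ℕ} [NeZero r] {L : ℤ} {n k : Fin r → ℕ}
    {w : ∀ i, Fin (n i + 1) → Fin d → ℤ} {t : ∀ i, Fin (k i + 1) → Fin d → ℤ}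
    {U : Set (Fin d → ℤ)} (h : ChainData L w t U) (i : Fin r) : cellc L (w i 0) ∈ U := by
  have h1 := h.tend (i - 1)
  rw [fin_sub_add] at h1
  rw [← h1]
  exact h.tU _ _

theorem cell_end_mem {d r : ℕ} [NeZero r] {L : ℤ} {n k : Fin r → ℕ}
    {w : ∀ i, Fin (n i + 1) → Fin d → ℤ} {t : ∀ i, Fin (k i + 1) → Fin d → ℤ}
    {U : Set (Fin d → ℤ)} (h : ChainData L w t U) (i : Fin r) :
    cellc L (w i (Fin.last (n i))) ∈ U := by
  rw [← h.tstart i]
  exact h.tU _ _

theorem ediv_abs_le {L : ℤ} (hL : 1 ≤ L) (x y : ℤ) : |x / L - y / L| ≤ |x - y| := by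
  have key : ∀ a b : ℤ, b ≤ a → a / L - b / L ≤ a - b := by
    intro a b hab
    have h1 : a ≤ b + (a - b) * L := by nlinarith
    have h2 : a / L ≤ (b + (a - b) * L) / L := Int.ediv_le_ediv (by omega) h1
    rw [Int.add_mul_ediv_right _ _ (by omega : L ≠ 0)] at h2
    omega
  rcases le_total x y with h | h
  · have h1 := key y x h
    have h2 : x / L ≤ y / L := Int.ediv_le_ediv (by omega) h
    rw [abs_of_nonpos (by omega), abs_of_nonpos (by omega)]
    omega
  · have h1 := key x y h
    have h2 : y / L ≤ x / L := Int.ediv_le_ediv (by omega) h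
    rw [abs_of_nonneg (by omega), abs_of_nonneg (by omega)]
    omega

theorem cellc_adj {d : ℕ} {L : ℤ} (hL : 1 ≤ L) (x y : Fin d → ℤ) (h : (Lat d).Adj x y) :
    cellc L x = cellc L y ∨ (Lat d).Adj (cellc L x) (cellc L y) := by
  have h1 : ∑ i, |x i - y i| = 1 := h
  have h2 : ∑ i, |cellc L x i - cellc L y i| ≤ ∑ i, |x i - y i| :=
    Finset.sum_le_sum (fun i _ => ediv_abs_le hL _ _)
  rw [h1] at h2
  have h3 : 0 ≤ ∑ i, |cellc L x i - cellc L y i| := Finset.sum_nonneg (fun _ _ => abs_nonneg _)
  by_cases h4 : ∑ i, |cellc L x i - cellc L y i| = 0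
  · left
    rw [Finset.sum_eq_zero_iff_of_nonneg (fun _ _ => abs_nonneg _)] at h4
    funext i
    have := h4 i (Finset.mem_univ _)
    rw [abs_eq_zero] at this
    omega
  · right
    change ∑ i, |cellc L x i - cellc L y i| = 1
    omega

open Classical in
theorem crossCount_eq {d k : ℕ} (t : Fin (k + 1) → Fin d → ℤ) (e : Sym2 (Fin d → ℤ)) :
    crossCount t e =
      ∑ j : Fin k, if (t j.castSucc ≠ t j.succ ∧ s(t j.castSucc, t j.succ) = e) then 1 else 0 := by
  unfold crossCount
  rw [← Finset.card_filter, ← Set.ncard_coe_finset]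
  congr 1
  ext j
  simp

theorem zmod_two_double (a : ZMod 2) : a + a = 0 := by
  revert a; decide

theorem fin_telescope {k : ℕ} (f : Fin (k + 1) → ZMod 2) :
    ∑ j : Fin k, (f j.castSucc + f j.succ) = f 0 + f (Fin.last k) := by
  rw [Finset.sum_add_distrib]
  have h1 := Fin.sum_univ_castSucc f
  have h2 := Fin.sum_univ_succ f
  have h3 : ∑ j : Fin k, f j.castSucc = (∑ j, f j) - f (Fin.last k) := by rw [h1]; ring
  have h4 : ∑ j : Fin k, f j.succ = (∑ j, f j) - f 0 := by rw [h2]; ring
  rw [h3, h4]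
  have h5 := zmod_two_double (∑ j, f j)
  have h6 := zmod_two_double (f 0)
  have h7 := zmod_two_double (f (Fin.last k))
  linear_combination h5 - h6 - h7

open Classical in
theorem cross_sum {d k : ℕ} (q : Fin (k + 1) → Fin d → ℤ)
    (hq : ∀ j : Fin k, q j.castSucc = q j.succ ∨ (Lat d).Adj (q j.castSucc) (q j.succ))
    (b : Fin d → ℤ) (N : Finset (Fin d → ℤ)) (hN : ∀ b', b' ∈ N ↔ (Lat d).Adj b b') :
    ∑ b' ∈ N, (crossCount q s(b, b') : ZMod 2) =
      (if q 0 = b then 1 else 0) + (if q (Fin.last k) = b then 1 else 0) := by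
  simp only [crossCount_eq]
  push_cast
  rw [Finset.sum_comm]
  rw [← fin_telescope (fun j => if q j = b then (1 : ZMod 2) else 0)]
  apply Finset.sum_congr rfl
  intro j _
  rcases hq j with h1 | h1
  · rw [h1]
    rw [zmod_two_double]
    apply Finset.sum_eq_zero
    intro b' _
    rw [if_neg]
    rintro ⟨h2, -⟩
    exact h2 rfl
  · have hne : q j.castSucc ≠ q j.succ := h1.ne
    by_cases h2 : q j.castSucc = b
    · have h3 : q j.succ ≠ b := by rw [← h2]; exact hne.symm
      rw [if_pos h2, if_neg h3, add_zero]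
      rw [Finset.sum_eq_single (q j.succ)]
      · rw [if_pos]
        exact ⟨hne, by rw [h2]⟩
      · intro b' _ hb'
        rw [if_neg]
        rintro ⟨-, h4⟩
        rw [h2, Sym2.eq_iff] at h4
        rcases h4 with ⟨-, h5⟩ | ⟨h5, h6⟩
        · exact hb' h5.symm
        · exact h3 h6
      · intro h4
        exfalso
        apply h4
        rw [hN, ← h2]
        exact h1
    · by_cases h3 : q j.succ = b
      · rw [if_neg h2, if_pos h3, zero_add]
        rw [Finset.sum_eq_single (q j.castSucc)]
        · rw [if_pos]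
          exact ⟨hne, by rw [h3]; exact Sym2.eq_swap⟩
        · intro b' _ hb'
          rw [if_neg]
          rintro ⟨-, h4⟩
          rw [h3, Sym2.eq_iff] at h4
          rcases h4 with ⟨h5, -⟩ | ⟨h5, h6⟩
          · exact h2 h5
          · exact hb' h5.symm
        · intro h4
          exfalso
          apply h4
          rw [hN, ← h3]
          exact h1.symm
      · rw [if_neg h2, if_neg h3, add_zero]
        apply Finset.sum_eq_zero
        intro b' _
        rw [if_neg]
        rintro ⟨-, h4⟩
        rw [Sym2.eq_iff] at h4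
        rcases h4 with ⟨h5, -⟩ | ⟨-, h6⟩
        · exact h2 h5
        · exact h3 h6

theorem lat_nbr_finite {d : ℕ} (b : Fin d → ℤ) : {b' | (Lat d).Adj b b'}.Finite := by
  apply Set.Finite.subset (Set.finite_Icc (fun i => b i - 1) (fun i => b i + 1))
  intro b' hb'
  have h1 : ∑ i, |b i - b' i| = 1 := hb'
  have h2 : ∀ i, |b i - b' i| ≤ 1 := by
    intro i
    rw [← h1]
    exact Finset.single_le_sum (f := fun i => |b i - b' i|) (fun _ _ => abs_nonneg _)
      (Finset.mem_univ i)
  constructor
  · intro i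
    have := abs_le.mp (h2 i)
    simp only
    omega
  · intro i
    have := abs_le.mp (h2 i)
    simp only
    omega

theorem tile_finite {d : ℕ} {L : ℤ} (hL : 0 < L) (b : Fin d → ℤ) :
    {v : Fin d → ℤ | tile L v = b}.Finite := by
  apply Set.Finite.subset (Set.finite_Icc (fun i => b i * (L + 4)) (fun i => (b i + 1) * (L + 4)))
  intro v hv
  have hv' : tile L v = b := hv
  have h1 : ∀ i, v i / (L + 4) = b i := fun i => congrFun hv' i
  have h2 : ∀ i, (L + 4) * (v i / (L + 4)) + v i % (L + 4) = v i :=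
    fun i => Int.mul_ediv_add_emod _ _
  have h3 : ∀ i, 0 ≤ v i % (L + 4) := fun i => Int.emod_nonneg _ (by omega)
  have h4 : ∀ i, v i % (L + 4) < L + 4 := fun i => Int.emod_lt_of_pos _ (by omega)
  constructor
  · intro i
    have a1 := h1 i; have a2 := h2 i; have a3 := h3 i; have a4 := h4 i
    rw [a1] at a2
    simp only
    nlinarith
  · intro i
    have a1 := h1 i; have a2 := h2 i; have a3 := h3 i; have a4 := h4 i
    rw [a1] at a2
    simp only
    nlinarith

open Classical in
theorem pathG_pairs_count {d r : ℕ} [NeZero r] {L : ℤ} {n k : Fin r → ℕ}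
    (w : ∀ i, Fin (n i + 1) → Fin d → ℤ) (t : ∀ i, Fin (k i + 1) → Fin d → ℤ)
    (U : Set (Fin d → ℤ)) (h : ChainData L w t U) (b b' : Fin d → ℤ) (hb : b ∈ U) (hb' : b' ∉ U) :
    {p : (Fin d → ℤ) × (Fin d → ℤ) | (pathG w).Adj p.1 p.2 ∧ cellc L p.1 = b ∧
      cellc L p.2 = b'}.ncard = ∑ i, crossCount (fun j => cellc L (w i j)) s(b, b') := by
  have hbb : b ≠ b' := fun hc => hb' (hc ▸ hb)
  set T : Finset ((i : Fin r) × Fin (n i)) := Finset.univ.filter (fun q =>
    cellc L (w q.1 q.2.castSucc) ≠ cellc L (w q.1 q.2.succ) ∧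
      s(cellc L (w q.1 q.2.castSucc), cellc L (w q.1 q.2.succ)) = s(b, b')) with hT
  have hTcard : T.card = ∑ i, crossCount (fun j => cellc L (w i j)) s(b, b') := by
    rw [hT, Finset.card_filter, Fintype.sum_sigma]
    apply Finset.sum_congr rfl
    intro i _
    rw [crossCount_eq]
  rw [← hTcard]
  set φ : ((i : Fin r) × Fin (n i)) → (Fin d → ℤ) × (Fin d → ℤ) := fun q =>
    if cellc L (w q.1 q.2.castSucc) = b then (w q.1 q.2.castSucc, w q.1 q.2.succ)
    else (w q.1 q.2.succ, w q.1 q.2.castSucc) with hφ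
  have hTmem : ∀ q ∈ T, (cellc L (w q.1 q.2.castSucc) = b ∧ cellc L (w q.1 q.2.succ) = b') ∨
      (cellc L (w q.1 q.2.castSucc) = b' ∧ cellc L (w q.1 q.2.succ) = b) := by
    intro q hq
    rw [hT, Finset.mem_filter] at hq
    exact Sym2.eq_iff.mp hq.2.2
  have himg : {p : (Fin d → ℤ) × (Fin d → ℤ) | (pathG w).Adj p.1 p.2 ∧ cellc L p.1 = b ∧
      cellc L p.2 = b'} = φ '' (T : Set ((i : Fin r) × Fin (n i))) := by
    ext p
    constructor
    · rintro ⟨⟨hne, i, j, hj⟩, h1, h2⟩
      rcases Sym2.eq_iff.mp hj with ⟨h3, h4⟩ | ⟨h3, h4⟩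
      · refine ⟨⟨i, j⟩, ?_, ?_⟩
        · rw [Finset.mem_coe, hT, Finset.mem_filter]
          refine ⟨Finset.mem_univ _, ?_, ?_⟩
          · rw [← h3, ← h4, h1, h2]; exact hbb
          · rw [← h3, ← h4, h1, h2]
        · simp only [hφ]
          rw [if_pos (by rw [← h3, h1]), ← h3, ← h4]
      · refine ⟨⟨i, j⟩, ?_, ?_⟩
        · rw [Finset.mem_coe, hT, Finset.mem_filter]
          refine ⟨Finset.mem_univ _, ?_, ?_⟩
          · rw [← h3, ← h4, h1, h2]; exact hbb.symm
          · rw [← h3, ← h4, h1, h2]; exact Sym2.eq_swap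
        · simp only [hφ]
          rw [if_neg (by rw [← h4, h2]; exact hbb.symm), ← h3, ← h4]
    · rintro ⟨q, hq, rfl⟩
      have hq' : q ∈ T := hq
      have hstep := (h.wstep q.1 q.2).ne
      rcases hTmem q hq' with ⟨h1, h2⟩ | ⟨h1, h2⟩
      · simp only [hφ]
        rw [if_pos h1]
        exact ⟨⟨hstep, q.1, q.2, rfl⟩, h1, h2⟩
      · simp only [hφ]
        rw [if_neg (by rw [h1]; exact hbb.symm)]
        exact ⟨⟨hstep.symm, q.1, q.2, Sym2.eq_swap⟩, h2, h1⟩
  suffices hinj : Set.InjOn φ (T : Set ((i : Fin r) × Fin (n i))) by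
    rw [himg, hinj.ncard_image, Set.ncard_coe_finset]
  intro q hq q' hq' hqq
  have hq1 : q ∈ T := hq
  have hq2 : q' ∈ T := hq'
  obtain ⟨i, j⟩ := q
  obtain ⟨i', j'⟩ := q'
  have m1 := hTmem _ hq1
  have m2 := hTmem _ hq2
  simp only at m1 m2
  -- same walk
  have hii : i = i' := by
    by_contra hne
    rcases m1 with ⟨h1, h2⟩ | ⟨h1, h2⟩
    · rcases m2 with ⟨h3, h4⟩ | ⟨h3, h4⟩
      · simp only [hφ] at hqq
        rw [if_pos h1, if_pos h3] at hqq
        have h5 : w i j.succ = w i' j'.succ := congrArg Prod.snd hqq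
        have := h.coll i i' j.succ j'.succ hne (by rw [h5])
        rw [h2] at this
        exact hb' this
      · simp only [hφ] at hqq
        rw [if_pos h1, if_neg (by rw [h3]; exact hbb.symm)] at hqq
        have h5 : w i j.succ = w i' j'.castSucc := congrArg Prod.snd hqq
        have := h.coll i i' j.succ j'.castSucc hne (by rw [h5])
        rw [h2] at this
        exact hb' this
    · rcases m2 with ⟨h3, h4⟩ | ⟨h3, h4⟩
      · simp only [hφ] at hqq
        rw [if_neg (by rw [h1]; exact hbb.symm), if_pos h3] at hqq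
        have h5 : w i j.castSucc = w i' j'.succ := congrArg Prod.snd hqq
        have := h.coll i i' j.castSucc j'.succ hne (by rw [h5])
        rw [h1] at this
        exact hb' this
      · simp only [hφ] at hqq
        rw [if_neg (by rw [h1]; exact hbb.symm), if_neg (by rw [h3]; exact hbb.symm)] at hqq
        have h5 : w i j.castSucc = w i' j'.castSucc := congrArg Prod.snd hqq
        have := h.coll i i' j.castSucc j'.castSucc hne (by rw [h5])
        rw [h1] at this
        exact hb' this
  subst hii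
  have hjj : j = j' := by
    rcases m1 with ⟨h1, h2⟩ | ⟨h1, h2⟩
    · rcases m2 with ⟨h3, h4⟩ | ⟨h3, h4⟩
      · simp only [hφ] at hqq
        rw [if_pos h1, if_pos h3] at hqq
        have h5 : w i j.castSucc = w i j'.castSucc := congrArg Prod.fst hqq
        exact Fin.castSucc_injective _ (h.winj i h5)
      · simp only [hφ] at hqq
        rw [if_pos h1, if_neg (by rw [h3]; exact hbb.symm)] at hqq
        have h5 := congrArg Fin.val (h.winj i (congrArg Prod.snd hqq))
        have h6 := congrArg Fin.val (h.winj i (congrArg Prod.fst hqq))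
        simp only [Fin.val_succ, Fin.val_castSucc] at h5 h6
        omega
    · rcases m2 with ⟨h3, h4⟩ | ⟨h3, h4⟩
      · simp only [hφ] at hqq
        rw [if_neg (by rw [h1]; exact hbb.symm), if_pos h3] at hqq
        have h5 := congrArg Fin.val (h.winj i (congrArg Prod.snd hqq))
        have h6 := congrArg Fin.val (h.winj i (congrArg Prod.fst hqq))
        simp only [Fin.val_succ, Fin.val_castSucc] at h5 h6
        omega
      · simp only [hφ] at hqq
        rw [if_neg (by rw [h1]; exact hbb.symm), if_neg (by rw [h3]; exact hbb.symm)] at hqq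
        have h5 : w i j.castSucc = w i j'.castSucc := congrArg Prod.snd hqq
        exact Fin.castSucc_injective _ (h.winj i h5)
  rw [hjj]

/-! Targets. -/

/-- all degrees of the union of the walks are `0` or `2` outside the cells of `U` -/
theorem pathG_degree {d r : ℕ} [NeZero r] {L : ℤ} (hL : 2 ≤ L) {n k : Fin r → ℕ}
    (w : ∀ i, Fin (n i + 1) → Fin d → ℤ) (t : ∀ i, Fin (k i + 1) → Fin d → ℤ)
    (U : Set (Fin d → ℤ)) (h : ChainData L w t U) (x : Fin d → ℤ) (hx : cellc L x ∉ U)
    (hne : ((pathG w).neighborSet x).Nonempty) : ((pathG w).neighborSet x).ncard = 2 := by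
  have hvis : ∀ x' i (j : Fin (n i)), s(x, x') = s(w i j.castSucc, w i j.succ) →
      (x = w i j.castSucc ∧ x' = w i j.succ) ∨ (x = w i j.succ ∧ x' = w i j.castSucc) := by
    intro x' i j hj
    rcases Sym2.eq_iff.mp hj with h1 | h1
    · exact Or.inl h1
    · exact Or.inr h1
  obtain ⟨y, hy⟩ := hne
  have hy' : (pathG w).Adj x y := hy
  obtain ⟨-, i, j, hj⟩ := hy'
  have hxi : ∃ a : Fin (n i + 1), x = w i a := by
    rcases hvis y i j hj with h1 | h1
    · exact ⟨_, h1.1⟩
    · exact ⟨_, h1.1⟩
  obtain ⟨a, ha⟩ := hxi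
  have ha0 : (a : ℕ) ≠ 0 := by
    intro hc
    have : a = 0 := Fin.ext (by simpa using hc)
    rw [this] at ha
    exact hx (ha ▸ cell_start_mem h i)
  have han : (a : ℕ) ≠ n i := by
    intro hc
    have : a = Fin.last (n i) := Fin.ext (by simpa using hc)
    rw [this] at ha
    exact hx (ha ▸ cell_end_mem h i)
  have halt : (a : ℕ) < n i + 1 := a.2
  set p : Fin (n i) := ⟨(a : ℕ) - 1, by omega⟩ with hp
  set q : Fin (n i) := ⟨(a : ℕ), by omega⟩ with hq
  have hps : p.succ = a := Fin.ext (by simp [hp]; omega)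
  have hqc : q.castSucc = a := Fin.ext (by simp [hq])
  have hset : (pathG w).neighborSet x = {w i p.castSucc, w i q.succ} := by
    ext z
    simp only [SimpleGraph.mem_neighborSet, Set.mem_insert_iff, Set.mem_singleton_iff]
    constructor
    · rintro ⟨hne, i', j', hj'⟩
      have hii : i' = i := by
        by_contra hcon
        rcases hvis z i' j' hj' with h1 | h1
        · have := h.coll i i' a j'.castSucc (Ne.symm hcon) (by rw [← ha, ← h1.1])
          rw [← ha] at this
          exact hx this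
        · have := h.coll i i' a j'.succ (Ne.symm hcon) (by rw [← ha, ← h1.1])
          rw [← ha] at this
          exact hx this
      subst hii
      rcases hvis z i' j' hj' with ⟨h1, h2⟩ | ⟨h1, h2⟩
      · right
        have h3 : a = j'.castSucc := h.winj i' (ha.symm.trans h1)
        have h4 : q = j' := by
          apply Fin.ext
          have := congrArg Fin.val h3
          simp only [Fin.val_castSucc] at this
          simp only [hq]
          omega
        rw [h2, h4]
      · left
        have h3 : a = j'.succ := h.winj i' (ha.symm.trans h1)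
        have h4 : p = j' := by
          apply Fin.ext
          have := congrArg Fin.val h3
          simp only [Fin.val_succ] at this
          simp only [hp]
          omega
        rw [h2, h4]
    · rintro (h1 | h1)
      · refine ⟨?_, i, p, ?_⟩
        · rw [h1, ha]
          intro hc
          have h3 := congrArg Fin.val (h.winj i hc)
          simp only [hp, Fin.val_castSucc] at h3
          omega
        · rw [h1, hps, ← ha]
          exact Sym2.eq_swap
      · refine ⟨?_, i, q, ?_⟩
        · rw [h1, ha]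
          intro hc
          have h3 := congrArg Fin.val (h.winj i hc)
          simp only [hq, Fin.val_succ] at h3
          omega
        · rw [h1, hqc, ← ha]
  rw [hset]
  apply Set.ncard_pair
  intro hc
  have h3 := congrArg Fin.val (h.winj i hc)
  simp only [hp, hq, Fin.val_succ, Fin.val_castSucc] at h3
  omega

/-- Parity: every tile of `U` has an even number of active gates. -/
theorem active_parity {d r : ℕ} [NeZero r] {L : ℤ} (hL : 2 ≤ L) {n k : Fin r → ℕ}
    (w : ∀ i, Fin (n i + 1) → Fin d → ℤ) (t : ∀ i, Fin (k i + 1) → Fin d → ℤ)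
    (U : Set (Fin d → ℤ)) (h : ChainData L w t U) (A : (Fin d → ℤ) → Prop)
    (hA : ∀ v, A v → IsGate L v ∧ tile L v ∈ U ∧ tile L (opp L v) ∈ U ∧ A (opp L v))
    (hA2 : ∀ b ∈ U, ∀ b' ∈ U, (Lat d).Adj b b' →
        Even ({v | A v ∧ tile L v = b ∧ tile L (opp L v) = b'}.ncard + Ntot L w t s(b, b')))
    (b : Fin d → ℤ) (hb : b ∈ U) :
    Even ({v : Fin d → ℤ | IsGate L v ∧ tile L v = b ∧
        (((Str L (pathG w)).Adj v (opp L v) ∧ tile L (opp L v) ∉ U) ∨ A v)}.ncard) := by
  classical
  set S : Set (Fin d → ℤ) := {v : Fin d → ℤ | IsGate L v ∧ tile L v = b ∧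
        (((Str L (pathG w)).Adj v (opp L v) ∧ tile L (opp L v) ∉ U) ∨ A v)} with hS
  have hL0 : 0 < L := by omega
  have hfin : S.Finite := (tile_finite hL0 b).subset (fun v hv => hv.2.1)
  set N : Finset (Fin d → ℤ) := (lat_nbr_finite b).toFinset with hN
  have hNmem : ∀ b', b' ∈ N ↔ (Lat d).Adj b b' := by
    intro b'
    rw [hN, Set.Finite.mem_toFinset]
    rfl
  have hpathLat : pathG w ≤ Lat d := by
    intro x x' hxx
    obtain ⟨-, i, j, hj⟩ := hxx
    rcases Sym2.eq_iff.mp hj with h1 | h1
    · rw [h1.1, h1.2]; exact h.wstep i j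
    · rw [h1.1, h1.2]; exact (h.wstep i j).symm
  have hcard : S.ncard = ∑ b' ∈ N, (hfin.toFinset.filter (fun v => tile L (opp L v) = b')).card := by
    rw [Set.ncard_eq_toFinset_card S hfin]
    apply Finset.card_eq_sum_card_fiberwise
    intro v hv
    have hv' : v ∈ S := by simpa using hv
    have h1 := (opp_gate hL0 v hv'.1).2.2.2.2
    rw [hv'.2.1] at h1
    rw [Finset.mem_coe, hNmem]
    exact h1
  have hfib : ∀ b' ∈ N, ((hfin.toFinset.filter (fun v => tile L (opp L v) = b')).card : ZMod 2) =
      (Ntot L w t s(b, b') : ZMod 2) := by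
    intro b' hb'
    have hadj := (hNmem b').mp hb'
    by_cases hbU : b' ∈ U
    · have h1 : ((hfin.toFinset.filter (fun v => tile L (opp L v) = b')).card) =
          {v | A v ∧ tile L v = b ∧ tile L (opp L v) = b'}.ncard := by
        rw [← Set.ncard_coe_finset]
        congr 1
        ext v
        simp only [Finset.coe_filter, Set.Finite.mem_toFinset, Set.mem_ofPred_eq, hS]
        constructor
        · rintro ⟨⟨h1, h2, h3⟩, h4⟩
          rcases h3 with h5 | h5
          · exact absurd (h4 ▸ hbU) h5.2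
          · exact ⟨h5, h2, h4⟩
        · rintro ⟨h1, h2, h3⟩
          exact ⟨⟨(hA v h1).1, h2, Or.inr h1⟩, h3⟩
      rw [h1]
      have h2 := hA2 b hb b' hbU hadj
      have h3 : ((({v | A v ∧ tile L v = b ∧ tile L (opp L v) = b'}.ncard +
        Ntot L w t s(b, b') : ℕ)) : ZMod 2) = 0 := by
        rw [ZMod.natCast_eq_zero_iff_even]; exact h2
      push_cast at h3
      have h4 := zmod_two_double (Ntot L w t s(b, b') : ZMod 2)
      linear_combination h3 - h4
    · have hbb : b ≠ b' := fun hc => hbU (hc ▸ hb)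
      have h1 : ((hfin.toFinset.filter (fun v => tile L (opp L v) = b')).card) =
          {u : Fin d → ℤ | IsGate L u ∧ tile L u = b ∧ tile L (opp L u) = b' ∧
            (Str L (pathG w)).Adj u (opp L u)}.ncard := by
        rw [← Set.ncard_coe_finset]
        congr 1
        ext v
        simp only [Finset.coe_filter, Set.Finite.mem_toFinset, Set.mem_ofPred_eq, hS]
        constructor
        · rintro ⟨⟨h1, h2, h3⟩, h4⟩
          rcases h3 with h5 | h5
          · exact ⟨h1, h2, h4, h5.1⟩
          · exact absurd (h4 ▸ (hA v h5).2.2.1) hbU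
        · rintro ⟨h1, h2, h3, h4⟩
          exact ⟨⟨h1, h2, Or.inl ⟨h4, h3 ▸ hbU⟩⟩, h3⟩
      rw [h1, Str_gate_count hL0 (pathG w) hpathLat b b' hbb,
        pathG_pairs_count w t U h b b' hb hbU]
      have h2 : ∑ i, crossCount (t i) s(b, b') = 0 := by
        apply Finset.sum_eq_zero
        intro i _
        rw [crossCount_eq]
        apply Finset.sum_eq_zero
        intro j _
        rw [if_neg]
        rintro ⟨-, h3⟩
        rcases Sym2.eq_iff.mp h3 with ⟨-, h4⟩ | ⟨h4, -⟩
        · exact hbU (h4 ▸ h.tU i j.succ)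
        · exact hbU (h4 ▸ h.tU i j.castSucc)
      unfold Ntot
      rw [h2, add_zero]
  rw [← ZMod.natCast_eq_zero_iff_even, hcard]
  push_cast
  rw [Finset.sum_congr rfl hfib]
  unfold Ntot
  push_cast
  rw [Finset.sum_add_distrib]
  rw [Finset.sum_comm (s := N), Finset.sum_comm (s := N)]
  have e1 : ∀ i : Fin r, ∑ b' ∈ N, (crossCount (fun j => cellc L (w i j)) s(b, b') : ZMod 2) =
      (if cellc L (w i 0) = b then 1 else 0) +
        (if cellc L (w i (Fin.last (n i))) = b then 1 else 0) := by
    intro i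
    exact cross_sum (fun j => cellc L (w i j))
      (fun j => cellc_adj (by omega) _ _ (h.wstep i j)) b N hNmem
  have e2 : ∀ i : Fin r, ∑ b' ∈ N, (crossCount (t i) s(b, b') : ZMod 2) =
      (if cellc L (w i (Fin.last (n i))) = b then 1 else 0) +
        (if cellc L (w (i + 1) 0) = b then 1 else 0) := by
    intro i
    rw [cross_sum (t i) (fun j => Or.inr (h.tstep i j)) b N hNmem, h.tstart i, h.tend i]
  rw [Finset.sum_congr rfl (fun i _ => e1 i), Finset.sum_congr rfl (fun i _ => e2 i)]
  rw [Finset.sum_add_distrib, Finset.sum_add_distrib]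
  have e3 : ∑ i : Fin r, (if cellc L (w (i + 1) 0) = b then (1 : ZMod 2) else 0) =
      ∑ i : Fin r, (if cellc L (w i 0) = b then (1 : ZMod 2) else 0) :=
    Equiv.sum_comp (Equiv.addRight (1 : Fin r))
      (fun i => if cellc L (w i 0) = b then (1 : ZMod 2) else 0)
  rw [e3]
  have h5 := zmod_two_double (∑ i : Fin r, (if cellc L (w i 0) = b then (1 : ZMod 2) else 0))
  have h6 := zmod_two_double
    (∑ i : Fin r, (if cellc L (w i (Fin.last (n i))) = b then (1 : ZMod 2) else 0))
  linear_combination h5 + h6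

end Pool.Agent.Helper772.CB
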