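import Mathlib
import Pool.Agent.Helper772.Defs
import Pool.Agent.Helper772.Sa
import Pool.Agent.Helper772.Sb
set_option autoImplicit false
namespace Pool.Agent.Helper772.CC

open Pool.Agent.Helper772.Sa (opp_gate tile_stretch)
open Pool.Agent.Helper772.Sb (Str_cross Str_inner Str_support)

/-! Given results (proved in other jobs, use as black boxes). -/

/-! Target. -/

open Classical in
/-- value of the colouring at a position of a walk -/
noncomputable def CCval {d : ℕ} (L : ℤ) (U : Set (Fin d → ℤ)) {α : Type}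
    (f : (Fin d → ℤ) → α) (g : (Fin d → ℤ) → α) (x : Fin d → ℤ) : α :=
  if cellc L x ∈ U then g (cellc L x) else f (stretch L x)

theorem CCval_mem {d : ℕ} (L : ℤ) (U : Set (Fin d → ℤ)) {α : Type}
    (f : (Fin d → ℤ) → α) (g : (Fin d → ℤ) → α) (x : Fin d → ℤ) (hx : cellc L x ∈ U) :
    CCval L U f g x = g (cellc L x) := by
  unfold CCval
  rw [if_pos hx]

theorem CCval_not_mem {d : ℕ} (L : ℤ) (U : Set (Fin d → ℤ)) {α : Type}
    (f : (Fin d → ℤ) → α) (g : (Fin d → ℤ) → α) (x : Fin d → ℤ) (hx : cellc L x ∉ U) :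
    CCval L U f g x = f (stretch L x) := by
  unfold CCval
  rw [if_neg hx]

theorem CC_pathG_le {d r : ℕ} {n : Fin r → ℕ} (w : ∀ i, Fin (n i + 1) → Fin d → ℤ)
    (wstep : ∀ i (j : Fin (n i)), (Lat d).Adj (w i j.castSucc) (w i j.succ)) :
    pathG w ≤ Lat d := by
  intro x x' h
  obtain ⟨_, i, j, hj⟩ := h
  have hs := wstep i j
  rcases Sym2.eq_iff.1 hj with ⟨h1, h2⟩ | ⟨h1, h2⟩
  · rw [h1, h2]; exact hs
  · rw [h1, h2]; exact hs.symm

theorem CC_crossCount_pos {d k : ℕ} (t : Fin (k + 1) → Fin d → ℤ) (j : Fin k)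
    (hne : t j.castSucc ≠ t j.succ) : 1 ≤ crossCount t s(t j.castSucc, t j.succ) := by
  unfold crossCount
  have : 0 < {j' : Fin k | t j'.castSucc ≠ t j'.succ ∧
      s(t j'.castSucc, t j'.succ) = s(t j.castSucc, t j.succ)}.ncard := by
    rw [Set.ncard_pos (Set.toFinite _)]
    exact ⟨j, hne, rfl⟩
  exact this

theorem CC_Ntot_w {d r : ℕ} (L : ℤ) {n k : Fin r → ℕ}
    (w : ∀ i, Fin (n i + 1) → Fin d → ℤ) (t : ∀ i, Fin (k i + 1) → Fin d → ℤ)
    (i : Fin r) (j : Fin (n i)) (hne : cellc L (w i j.castSucc) ≠ cellc L (w i j.succ)) :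
    1 ≤ Ntot L w t s(cellc L (w i j.castSucc), cellc L (w i j.succ)) := by
  unfold Ntot
  have h1 : 1 ≤ crossCount (fun j => cellc L (w i j))
      s(cellc L (w i j.castSucc), cellc L (w i j.succ)) :=
    CC_crossCount_pos (fun j => cellc L (w i j)) j hne
  have h2 : crossCount (fun j => cellc L (w i j))
      s(cellc L (w i j.castSucc), cellc L (w i j.succ)) ≤
      ∑ i', crossCount (fun j => cellc L (w i' j))
        s(cellc L (w i j.castSucc), cellc L (w i j.succ)) :=
    Finset.single_le_sum (f := fun i' => crossCount (fun j => cellc L (w i' j))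
        s(cellc L (w i j.castSucc), cellc L (w i j.succ))) (fun _ _ => Nat.zero_le _)
        (Finset.mem_univ i)
  omega

theorem CC_Ntot_t {d r : ℕ} (L : ℤ) {n k : Fin r → ℕ}
    (w : ∀ i, Fin (n i + 1) → Fin d → ℤ) (t : ∀ i, Fin (k i + 1) → Fin d → ℤ)
    (i : Fin r) (j : Fin (k i)) (hne : t i j.castSucc ≠ t i j.succ) :
    1 ≤ Ntot L w t s(t i j.castSucc, t i j.succ) := by
  unfold Ntot
  have h1 : 1 ≤ crossCount (t i) s(t i j.castSucc, t i j.succ) :=
    CC_crossCount_pos (t i) j hne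
  have h2 : crossCount (t i) s(t i j.castSucc, t i j.succ) ≤
      ∑ i', crossCount (t i') s(t i j.castSucc, t i j.succ) :=
    Finset.single_le_sum (f := fun i' => crossCount (t i') s(t i j.castSucc, t i j.succ))
        (fun _ _ => Nat.zero_le _) (Finset.mem_univ i)
  omega

theorem CC_const {m : ℕ} {α : Type} (F : Fin (m + 1) → α)
    (h : ∀ j : Fin m, F j.castSucc = F j.succ) (j : Fin (m + 1)) : F j = F 0 := by
  induction j using Fin.induction with
  | zero => rfl
  | succ i ih => rw [← h i]; exact ih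

theorem CC_cyc {r : ℕ} [NeZero r] {α : Type} (F : Fin r → α)
    (h : ∀ i : Fin r, F i = F (i + 1)) (i : Fin r) : F i = F 0 := by
  obtain ⟨m, rfl⟩ := Nat.exists_eq_succ_of_ne_zero (NeZero.ne r)
  exact CC_const F (fun j => by
    have := h j.castSucc
    rwa [Fin.coeSucc_eq_succ] at this) i

/-- Connectivity of the chain of walks and connectors, in colouring form.  Here
`U = ⋃ᵢ {connector tiles} ∪ {cells of U visited by walks}`: hypothesis `hU`. -/
theorem chain_connected {d r : ℕ} [NeZero r] {L : ℤ} (hL : 2 ≤ L) {n k : Fin r → ℕ}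
    (w : ∀ i, Fin (n i + 1) → Fin d → ℤ) (t : ∀ i, Fin (k i + 1) → Fin d → ℤ)
    (U : Set (Fin d → ℤ)) (h : ChainData L w t U)
    (hU : ∀ b ∈ U, (∃ i j, b = t i j) ∨ (∃ i j, b = cellc L (w i j)))
    (A : (Fin d → ℤ) → Prop)
    (hA : ∀ v, A v → IsGate L v ∧ tile L v ∈ U ∧ tile L (opp L v) ∈ U ∧ A (opp L v))
    (hA3 : ∀ b ∈ U, ∀ b' ∈ U, (Lat d).Adj b b' →
        1 ≤ Ntot L w t s(b, b') → ∃ v, A v ∧ tile L v = b ∧ tile L (opp L v) = b')
    (α : Type) (f : (Fin d → ℤ) → α) (g : (Fin d → ℤ) → α)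
    (h1 : ∀ u v, (Str L (pathG w)).Adj u v → tile L u ∉ U → tile L v ∉ U → f u = f v)
    (h2 : ∀ u v, (Str L (pathG w)).Adj u v → tile L u ∉ U → tile L v ∈ U → f u = g (tile L v))
    (h3 : ∀ u, A u → g (tile L u) = g (tile L (opp L u))) :
    (∀ b ∈ U, ∀ b' ∈ U, g b = g b') ∧
      (∀ v, tile L v ∉ U → (∃ w', (Str L (pathG w)).Adj v w') → ∀ b ∈ U, f v = g b) := by
  have hL0 : 0 < L := by omega
  have hF : pathG w ≤ Lat d := CC_pathG_le w h.wstep
  -- gates between tiles of `U`
  have hgU : ∀ b ∈ U, ∀ b' ∈ U, (Lat d).Adj b b' → 1 ≤ Ntot L w t s(b, b') → g b = g b' := by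
    intro b hb b' hb' hadj hN
    obtain ⟨v, hv, hvb, hvb'⟩ := hA3 b hb b' hb' hadj hN
    have := h3 v hv
    rwa [hvb, hvb'] at this
  -- constancy along the walks
  have hstep : ∀ i (j : Fin (n i)),
      CCval L U f g (w i j.castSucc) = CCval L U f g (w i j.succ) := by
    intro i j
    have hadj : (pathG w).Adj (w i j.castSucc) (w i j.succ) :=
      ⟨(h.wstep i j).ne, i, j, rfl⟩
    by_cases hc : cellc L (w i j.castSucc) = cellc L (w i j.succ)
    · by_cases hU' : cellc L (w i j.castSucc) ∈ U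
      · rw [CCval_mem L U f g _ hU', CCval_mem L U f g _ (hc ▸ hU'), hc]
      · have hU'' : cellc L (w i j.succ) ∉ U := hc ▸ hU'
        rw [CCval_not_mem L U f g _ hU', CCval_not_mem L U f g _ hU'']
        refine h1 _ _ (Str_inner hL0 _ hF _ _ hadj hc) ?_ ?_
        · rw [tile_stretch hL0]; exact hU'
        · rw [tile_stretch hL0]; exact hU''
    · obtain ⟨u, hgate, hu, hou, hadj', hf1, hf2⟩ :=
        Str_cross hL0 (pathG w) hF _ _ hadj hc
      obtain ⟨_, _, _, _, hlat⟩ := opp_gate hL0 u hgate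
      by_cases hU1 : cellc L (w i j.castSucc) ∈ U
      · by_cases hU2 : cellc L (w i j.succ) ∈ U
        · rw [CCval_mem L U f g _ hU1, CCval_mem L U f g _ hU2]
          refine hgU _ hU1 _ hU2 ?_ (CC_Ntot_w L w t i j hc)
          rw [← hu, ← hou]
          exact hlat
        · rw [CCval_mem L U f g _ hU1, CCval_not_mem L U f g _ hU2]
          have e1 : f (stretch L (w i j.succ)) = f (opp L u) := by
            refine hf2 α f ?_
            intro p q hpq hp hq
            exact h1 p q hpq (hp ▸ hU2) (hq ▸ hU2)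
          have e2 : f (opp L u) = g (tile L u) :=
            h2 (opp L u) u hadj'.symm (hou ▸ hU2) (hu ▸ hU1)
          rw [e1, e2, hu]
      · have e1 : f (stretch L (w i j.castSucc)) = f u := by
          refine hf1 α f ?_
          intro p q hpq hp hq
          exact h1 p q hpq (hp ▸ hU1) (hq ▸ hU1)
        by_cases hU2 : cellc L (w i j.succ) ∈ U
        · rw [CCval_not_mem L U f g _ hU1, CCval_mem L U f g _ hU2]
          have e2 : f u = g (tile L (opp L u)) :=
            h2 u (opp L u) hadj' (hu ▸ hU1) (hou ▸ hU2)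
          rw [e1, e2, hou]
        · rw [CCval_not_mem L U f g _ hU1, CCval_not_mem L U f g _ hU2]
          have e3 : f (stretch L (w i j.succ)) = f (opp L u) := by
            refine hf2 α f ?_
            intro p q hpq hp hq
            exact h1 p q hpq (hp ▸ hU2) (hq ▸ hU2)
          have e2 : f u = f (opp L u) :=
            h1 u (opp L u) hadj' (hu ▸ hU1) (hou ▸ hU2)
          rw [e1, e2, e3]
  have hwalk : ∀ i (j : Fin (n i + 1)), CCval L U f g (w i j) = CCval L U f g (w i 0) :=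
    fun i j => CC_const (fun j => CCval L U f g (w i j)) (hstep i) j
  -- constancy along the connectors
  have hconn : ∀ i (j : Fin (k i + 1)), g (t i j) = g (t i 0) := by
    intro i j
    refine CC_const (fun j => g (t i j)) ?_ j
    intro j'
    exact hgU _ (h.tU i _) _ (h.tU i _) (h.tstep i j') (CC_Ntot_t L w t i j' (h.tstep i j').ne)
  have hend : ∀ i, CCval L U f g (w i (Fin.last (n i))) = g (t i 0) := by
    intro i
    have hm : cellc L (w i (Fin.last (n i))) ∈ U := by
      rw [← h.tstart i]; exact h.tU i 0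
    rw [CCval_mem L U f g _ hm, h.tstart i]
  have hbeg : ∀ i, CCval L U f g (w (i + 1) 0) = g (t i 0) := by
    intro i
    have hm : cellc L (w (i + 1) 0) ∈ U := by
      rw [← h.tend i]; exact h.tU i _
    rw [CCval_mem L U f g _ hm, ← h.tend i]
    exact hconn i _
  have hcyc : ∀ i, CCval L U f g (w i 0) = CCval L U f g (w 0 0) := by
    intro i
    refine CC_cyc (fun i => CCval L U f g (w i 0)) ?_ i
    intro i'
    show CCval L U f g (w i' 0) = CCval L U f g (w (i' + 1) 0)
    rw [hbeg i', ← hend i']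
    exact (hwalk i' _).symm
  have hgall : ∀ b ∈ U, g b = CCval L U f g (w 0 0) := by
    intro b hb
    rcases hU b hb with ⟨i, j, rfl⟩ | ⟨i, j, rfl⟩
    · rw [hconn i j, ← hend i, hwalk i, hcyc i]
    · rw [← CCval_mem L U f g _ hb, hwalk i j, hcyc i]
  refine ⟨?_, ?_⟩
  · intro b hb b' hb'
    rw [hgall b hb, hgall b' hb']
  · intro v hv hex b hb
    obtain ⟨x, hx, ⟨x', hadj⟩, hfx⟩ := Str_support hL0 (pathG w) hF v hex
    have e1 : f (stretch L x) = f v := by
      refine hfx α f ?_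
      intro p q hpq hp hq
      exact h1 p q hpq (hp ▸ hv) (hq ▸ hv)
    have hxU : cellc L x ∉ U := by rw [hx]; exact hv
    rw [← e1, ← CCval_not_mem L U f g x hxU, hgall b hb]
    obtain ⟨_, i, j, hj⟩ := hadj
    rcases Sym2.eq_iff.1 hj with ⟨h1', _⟩ | ⟨h1', _⟩
    · rw [h1', hwalk i _, hcyc i]
    · rw [h1', hwalk i _, hcyc i]

end Pool.Agent.Helper772.CC
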