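import Mathlib
import Pool.Agent.Helper772.Defs
set_option autoImplicit false
namespace Pool.Agent.Helper772.H1


lemma lat_adj_update {d : ℕ} (c : Fin d → ℤ) (s : Fin d) (v w : ℤ) (h : |v - w| = 1) :
    (Lat d).Adj (Function.update c s v) (Function.update c s w) := by
  change ∑ i, |Function.update c s v i - Function.update c s w i| = 1
  rw [Finset.sum_eq_single s]
  · simpa using h
  · intro b _ hb
    simp [Function.update_of_ne hb]
  · simp

/-- concatenation of layers -/
lemma snake_step (d : ℕ) (s : Fin d) (c e : Fin d → ℤ) (σ : ℤ) (hσ : |σ| = 1)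
    (Q : (Fin d → ℤ) → Prop)
    (L : ℤ → List (Fin d → ℤ))
    (hnd : ∀ v, (L v).Nodup) (hch : ∀ v, (L v).IsChain (Lat d).Adj)
    (hhead : ∀ v, (L v).head? = some (Function.update c s v))
    (hlast : ∀ v, (L v).getLast? = some (Function.update e s v))
    (hmem : ∀ v y, y ∈ L v ↔ y s = v ∧ Q y) (v₀ : ℤ) (K : ℕ) :
    ∃ l : List (Fin d → ℤ), l.Nodup ∧ l.IsChain (Lat d).Adj ∧
      l.head? = some (Function.update c s v₀) ∧
      l.getLast? = some (Function.update c s (v₀ + (2 * K + 1) * σ)) ∧
      (∀ y, y ∈ l ↔ (∃ j : ℕ, j < 2 * (K + 1) ∧ y s = v₀ + j * σ) ∧ Q y) := by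
  -- one block
  have hσ0 : σ ≠ 0 := by
    rintro rfl
    simp at hσ
  have hblock : ∀ v : ℤ, ∃ l : List (Fin d → ℤ), l.Nodup ∧ l.IsChain (Lat d).Adj ∧
      l.head? = some (Function.update c s v) ∧
      l.getLast? = some (Function.update c s (v + σ)) ∧
      (∀ y, y ∈ l ↔ (y s = v ∨ y s = v + σ) ∧ Q y) := by
    intro v
    have hne : L v ≠ [] := by
      intro h
      have := hhead v
      rw [h] at this
      simp at this
    have hne' : L (v + σ) ≠ [] := by
      intro h
      have := hhead (v + σ)
      rw [h] at this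
      simp at this
    refine ⟨L v ++ (L (v + σ)).reverse, ?_, ?_, ?_, ?_, ?_⟩
    · rw [List.nodup_append']
      refine ⟨hnd v, List.nodup_reverse.2 (hnd _), ?_⟩
      intro y h1 h2
      rw [List.mem_reverse] at h2
      rw [hmem] at h1 h2
      have := h1.1.symm.trans h2.1
      omega
    · rw [List.isChain_append]
      refine ⟨hch v, ?_, ?_⟩
      · rw [List.isChain_reverse]
        exact (hch _).imp fun a b h => h.symm
      · intro x hx y hy
        rw [List.head?_reverse] at hy
        rw [hlast] at hx hy
        simp only [Option.mem_def, Option.some.injEq] at hx hy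
        rw [← hx, ← hy]
        apply lat_adj_update
        rw [show v - (v + σ) = -σ by ring, abs_neg, hσ]
    · rw [List.head?_append_of_ne_nil _ hne, hhead]
    · rw [List.getLast?_append_of_ne_nil _ (by simpa using hne'), List.getLast?_reverse, hhead]
    · intro y
      rw [List.mem_append, List.mem_reverse, hmem, hmem]
      tauto
  induction K with
  | zero =>
    obtain ⟨l, h1, h2, h3, h4, h5⟩ := hblock v₀
    refine ⟨l, h1, h2, h3, by simpa using h4, ?_⟩
    intro y
    rw [h5]
    apply and_congr_left
    intro _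
    constructor
    · rintro (h | h)
      · exact ⟨0, by norm_num, by simpa using h⟩
      · exact ⟨1, by norm_num, by simpa using h⟩
    · rintro ⟨j, hj, h⟩
      have : j = 0 ∨ j = 1 := by omega
      rcases this with rfl | rfl
      · left; simpa using h
      · right; simpa using h
  | succ K ih =>
    obtain ⟨l, h1, h2, h3, h4, h5⟩ := ih
    obtain ⟨l', h1', h2', h3', h4', h5'⟩ := hblock (v₀ + (2 * (K + 1 : ℕ)) * σ)
    have hne : l ≠ [] := by
      intro h
      rw [h] at h3
      simp at h3
    have hne' : l' ≠ [] := by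
      intro h
      rw [h] at h3'
      simp at h3'
    refine ⟨l ++ l', ?_, ?_, ?_, ?_, ?_⟩
    · rw [List.nodup_append']
      refine ⟨h1, h1', ?_⟩
      intro y hy hy'
      rw [h5] at hy
      rw [h5'] at hy'
      obtain ⟨⟨j, hj, hjy⟩, -⟩ := hy
      rcases hy'.1 with h | h
      · have h6 : ((j : ℤ) - 2 * ((K + 1 : ℕ) : ℤ)) * σ = 0 := by linarith
        rcases mul_eq_zero.1 h6 with h7 | h7
        · push_cast at h7
          omega
        · exact hσ0 h7
      · have h6 : ((j : ℤ) - 2 * ((K + 1 : ℕ) : ℤ) - 1) * σ = 0 := by linarith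
        rcases mul_eq_zero.1 h6 with h7 | h7
        · push_cast at h7
          omega
        · exact hσ0 h7
    · rw [List.isChain_append]
      refine ⟨h2, h2', ?_⟩
      intro x hx y hy
      rw [h4] at hx
      rw [h3'] at hy
      simp only [Option.mem_def, Option.some.injEq] at hx hy
      rw [← hx, ← hy]
      apply lat_adj_update
      have : v₀ + (2 * (K : ℤ) + 1) * σ - (v₀ + 2 * ((K + 1 : ℕ) : ℤ) * σ) = -σ := by
        push_cast; ring
      rw [this, abs_neg, hσ]
    · rw [List.head?_append_of_ne_nil _ hne, h3]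
    · rw [List.getLast?_append_of_ne_nil _ hne', h4']
      congr 2
      push_cast; ring
    · intro y
      rw [List.mem_append, h5, h5']
      rw [← or_and_right]
      apply and_congr_left
      intro _
      constructor
      · rintro (⟨j, hj, h⟩ | h | h)
        · exact ⟨j, by omega, h⟩
        · exact ⟨2 * (K + 1), by omega, by rw [h]; push_cast; ring⟩
        · exact ⟨2 * (K + 1) + 1, by omega, by rw [h]; push_cast; ring⟩
      · rintro ⟨j, hj, h⟩
        by_cases h8 : j < 2 * (K + 1)
        · exact Or.inl ⟨j, h8, h⟩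
        · right
          have : j = 2 * (K + 1) ∨ j = 2 * (K + 1) + 1 := by omega
          rcases this with rfl | rfl
          · left; rw [h]; push_cast; ring
          · right; rw [h]; push_cast; ring

lemma snake_finish (d : ℕ) (lo hi : ℤ) (hlt : lo < hi) (hev : Even (hi - lo + 1))
    (s : Fin d) (c e : Fin d → ℤ) (hc : c s = lo ∨ c s = hi)
    (Q : (Fin d → ℤ) → Prop)
    (L : ℤ → List (Fin d → ℤ))
    (hnd : ∀ v, (L v).Nodup) (hch : ∀ v, (L v).IsChain (Lat d).Adj)
    (hhead : ∀ v, (L v).head? = some (Function.update c s v))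
    (hlast : ∀ v, (L v).getLast? = some (Function.update e s v))
    (hmem : ∀ v y, y ∈ L v ↔ y s = v ∧ Q y) :
    ∃ l : List (Fin d → ℤ), l.Nodup ∧ l.IsChain (Lat d).Adj ∧
      l.head? = some c ∧
      l.getLast? = some (Function.update c s (lo + hi - c s)) ∧
      (∀ y, y ∈ l ↔ (lo ≤ y s ∧ y s ≤ hi) ∧ Q y) := by
  obtain ⟨N, hN⟩ := hev
  obtain ⟨K, hK⟩ : ∃ K : ℕ, (K : ℤ) + 1 = N := ⟨(N - 1).toNat, by omega⟩
  rcases hc with hc | hc
  · obtain ⟨l, h1, h2, h3, h4, h5⟩ := snake_step d s c e 1 (by simp) Q L hnd hch hhead hlast hmem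
      (c s) K
    refine ⟨l, h1, h2, by simpa using h3, ?_, ?_⟩
    · rw [h4]
      congr 2
      rw [hc]
      linarith
    · intro y
      rw [h5]
      apply and_congr_left
      intro _
      constructor
      · rintro ⟨j, hj, h⟩
        constructor <;> omega
      · rintro ⟨h6, h7⟩
        exact ⟨(y s - lo).toNat, by omega, by omega⟩
  · obtain ⟨l, h1, h2, h3, h4, h5⟩ := snake_step d s c e (-1) (by simp) Q L hnd hch hhead hlast hmem
      (c s) K
    refine ⟨l, h1, h2, by simpa using h3, ?_, ?_⟩
    · rw [h4]
      congr 2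
      rw [hc]
      linarith
    · intro y
      rw [h5]
      apply and_congr_left
      intro _
      constructor
      · rintro ⟨j, hj, h⟩
        constructor <;> omega
      · rintro ⟨h6, h7⟩
        exact ⟨(hi - y s).toNat, by omega, by omega⟩

/-- Boustrophedon (snake) path in a box: a Hamiltonian path from a corner `c` of the box with free
coordinates `s :: J` to the corner obtained from `c` by flipping the coordinate `s`. -/
theorem snake (d : ℕ) (lo hi : ℤ) (hlt : lo < hi) (hev : Even (hi - lo + 1))
    (s : Fin d) (J : List (Fin d)) (hJ : (s :: J).Nodup)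
    (c : Fin d → ℤ) (hc : ∀ i ∈ s :: J, c i = lo ∨ c i = hi) :
    ∃ l : List (Fin d → ℤ), l.Nodup ∧
      (∀ (j : ℕ) (h : j + 1 < l.length), (Lat d).Adj l[j] l[j + 1]) ∧
      l.head? = some c ∧
      l.getLast? = some (Function.update c s (lo + hi - c s)) ∧
      (∀ y, y ∈ l ↔ (∀ i, i ∉ s :: J → y i = c i) ∧ (∀ i ∈ s :: J, lo ≤ y i ∧ y i ≤ hi)) := by
  have main : ∀ (J : List (Fin d)) (s : Fin d) (hJ : (s :: J).Nodup)
    (c : Fin d → ℤ) (hc : ∀ i ∈ s :: J, c i = lo ∨ c i = hi),
    ∃ l : List (Fin d → ℤ), l.Nodup ∧ l.IsChain (Lat d).Adj ∧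
      l.head? = some c ∧
      l.getLast? = some (Function.update c s (lo + hi - c s)) ∧
      (∀ y, y ∈ l ↔ (∀ i, i ∉ s :: J → y i = c i) ∧
        (∀ i ∈ s :: J, lo ≤ y i ∧ y i ≤ hi)) := by
    intro J
    induction J with
    | nil =>
      intro s _ c hc
      obtain ⟨l, h1, h2, h3, h4, h5⟩ := snake_finish d lo hi hlt hev s c c (hc s (by simp))
        (fun y => ∀ i, i ≠ s → y i = c i) (fun v => [Function.update c s v])
        (by simp) (by simp) (by simp) (by simp) (by
          intro v y
          rw [List.mem_singleton]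
          constructor
          · rintro rfl
            exact ⟨by simp, fun i hi => by simp [Function.update_of_ne hi]⟩
          · rintro ⟨h1, h2⟩
            funext i
            by_cases h : i = s
            · subst h; simpa using h1
            · rw [Function.update_of_ne h]; exact h2 i h)
      refine ⟨l, h1, h2, h3, h4, ?_⟩
      intro y
      rw [h5]
      simp only [List.mem_singleton, forall_eq]
      tauto
    | cons t J ih =>
      intro s hJ c hc
      have hst : s ≠ t := by
        rintro rfl
        simp at hJ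
      have hJt : (t :: J).Nodup := (List.nodup_cons.1 hJ).2
      have hsJ : s ∉ t :: J := (List.nodup_cons.1 hJ).1
      have hlayer : ∀ v : ℤ, ∃ l : List (Fin d → ℤ), l.Nodup ∧ l.IsChain (Lat d).Adj ∧
          l.head? = some (Function.update c s v) ∧
          l.getLast? = some (Function.update (Function.update c t (lo + hi - c t)) s v) ∧
          (∀ y, y ∈ l ↔ y s = v ∧ ((∀ i, i ∉ s :: t :: J → y i = c i) ∧
            (∀ i ∈ t :: J, lo ≤ y i ∧ y i ≤ hi))) := by
        intro v
        obtain ⟨l, h1, h2, h3, h4, h5⟩ := ih t hJt (Function.update c s v) (by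
          intro i hi
          have hne : i ≠ s := by rintro rfl; exact hsJ hi
          rw [Function.update_of_ne hne]
          exact hc i (List.mem_cons_of_mem _ hi))
        refine ⟨l, h1, h2, h3, ?_, ?_⟩
        · rw [h4, Function.update_of_ne hst.symm, Function.update_comm hst]
        · intro y
          rw [h5]
          constructor
          · rintro ⟨h6, h7⟩
            refine ⟨by simpa using h6 s hsJ, ?_, h7⟩
            intro i hi
            have hne : i ≠ s := by rintro rfl; simp at hi
            have := h6 i (fun h => hi (List.mem_cons_of_mem _ h))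
            rwa [Function.update_of_ne hne] at this
          · rintro ⟨h6, h7, h8⟩
            refine ⟨?_, h8⟩
            intro i hi
            by_cases hne : i = s
            · subst hne; simpa using h6
            · rw [Function.update_of_ne hne]
              apply h7
              intro h
              rcases List.mem_cons.1 h with h | h
              · exact hne h
              · exact hi h
      choose L hL1 hL2 hL3 hL4 hL5 using hlayer
      obtain ⟨l, h1, h2, h3, h4, h5⟩ := snake_finish d lo hi hlt hev s c
        (Function.update c t (lo + hi - c t)) (hc s (by simp))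
        (fun y => (∀ i, i ∉ s :: t :: J → y i = c i) ∧ (∀ i ∈ t :: J, lo ≤ y i ∧ y i ≤ hi))
        L hL1 hL2 hL3 hL4 hL5
      refine ⟨l, h1, h2, h3, h4, ?_⟩
      intro y
      rw [h5]
      constructor
      · rintro ⟨h6, h7, h8⟩
        refine ⟨h7, ?_⟩
        intro i hi
        rcases List.mem_cons.1 hi with rfl | hi
        · exact h6
        · exact h8 i hi
      · rintro ⟨h7, h8⟩
        exact ⟨h8 s (by simp), h7, fun i hi => h8 i (List.mem_cons_of_mem _ hi)⟩
  obtain ⟨l, h1, h2, h3, h4, h5⟩ := main J s hJ c hc
  exact ⟨l, h1, fun j h => (List.isChain_iff_getElem.1 h2) j h, h3, h4, h5⟩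

end Pool.Agent.Helper772.H1
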