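import Mathlib
import Pool.Agent.Helper772.Defs
import Pool.Agent.Helper772.H1
set_option autoImplicit false
namespace Pool.Agent.Helper772.H2

open Pool.Agent.Helper772.H1 (snake)

/-! ### the signed rotation -/

section RailsAux

open Fin.CommRing

/-- signed cyclic rotation of the cube `[0, L+4)^d`, of order `2d` -/
def Phi {n : ℕ} (L : ℤ) (y : Fin (n + 2) → ℤ) : Fin (n + 2) → ℤ :=
  fun i => if i = 1 then L + 3 - y 0 else y (i - 1)

/-- position in `1..d` -/
def vv {n : ℕ} (i : Fin (n + 2)) : ℕ := if i = 0 then n + 2 else i.val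

theorem vv_pos {n : ℕ} (i : Fin (n + 2)) : 1 ≤ vv i := by
  unfold vv
  split_ifs with h
  · omega
  · have : i.val ≠ 0 := fun h' => h (Fin.ext h')
    omega

theorem vv_le {n : ℕ} (i : Fin (n + 2)) : vv i ≤ n + 2 := by
  unfold vv
  split_ifs with h
  · exact le_rfl
  · exact i.isLt.le

theorem vv_zero {n : ℕ} : vv (0 : Fin (n + 2)) = n + 2 := by simp [vv]

theorem vv_one {n : ℕ} : vv (1 : Fin (n + 2)) = 1 := by simp [vv]

theorem vv_sub {n : ℕ} (i : Fin (n + 2)) (hi : i ≠ 1) : vv i = vv (i - 1) + 1 := by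
  by_cases h0 : i = 0
  · subst h0
    have h1 : (0 - 1 : Fin (n + 2)) ≠ 0 := by
      rw [zero_sub, Ne, neg_eq_zero]
      exact one_ne_zero
    have h2 : (0 - 1 : Fin (n + 2)).val = n + 1 := by
      rw [zero_sub, Fin.val_neg]
      simp
    simp only [vv, if_true, h1, if_false, h2]
  · have h1 : i - 1 ≠ 0 := fun h => hi (sub_eq_zero.1 h)
    have h3 : (1 : Fin (n + 2)) ≤ i := by
      rw [Fin.le_def, Fin.val_one]
      have : i.val ≠ 0 := fun h' => h0 (Fin.ext h')
      omega
    have h2 : (i - 1).val = i.val - 1 := by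
      rw [Fin.sub_val_of_le h3, Fin.val_one]
    have h4 : i.val ≠ 0 := fun h' => h0 (Fin.ext h')
    simp only [vv, h0, h1, if_false, h2]
    omega

theorem Phi_iter {n : ℕ} (L : ℤ) (y : Fin (n + 2) → ℤ) (k : ℕ) (hk : k ≤ n + 2)
    (i : Fin (n + 2)) :
    (Phi L)^[k] y i = if vv i ≤ k then L + 3 - y (i - (k : Fin (n + 2)))
      else y (i - (k : Fin (n + 2))) := by
  induction k generalizing i with
  | zero =>
    have := vv_pos i
    rw [if_neg (by omega)]
    simp
  | succ k ih =>
    rw [Function.iterate_succ', Function.comp_apply]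
    by_cases h1 : i = 1
    · subst h1
      have h2 := vv_one (n := n)
      rw [if_pos (by omega), Phi, if_pos rfl, ih (by omega), vv_zero, if_neg (by omega)]
      congr 2
      push_cast
      ring
    · have h2 := vv_sub i h1
      rw [Phi, if_neg h1, ih (by omega)]
      have h3 : i - 1 - (k : Fin (n + 2)) = i - ((k + 1 : ℕ) : Fin (n + 2)) := by
        push_cast
        ring
      rw [h3]
      by_cases h4 : vv i ≤ k + 1
      · rw [if_pos h4, if_pos (by omega)]
      · rw [if_neg h4, if_neg (by omega)]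

theorem Phi_iter_d {n : ℕ} (L : ℤ) (y : Fin (n + 2) → ℤ) :
    (Phi L)^[n + 2] y = fun i => L + 3 - y i := by
  funext i
  rw [Phi_iter L y (n + 2) le_rfl i, if_pos (vv_le i)]
  simp

theorem Phi_iter_2d {n : ℕ} (L : ℤ) (y : Fin (n + 2) → ℤ) :
    (Phi L)^[2 * (n + 2)] y = y := by
  rw [two_mul, Function.iterate_add_apply, Phi_iter_d, Phi_iter_d]
  funext i
  ring

theorem Phi_inj {n : ℕ} (L : ℤ) : Function.Injective (Phi (n := n) L) := by
  intro x y h
  funext i
  have h1 := congrFun h (i + 1)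
  simp only [Phi, add_sub_cancel_right] at h1
  by_cases h2 : i + 1 = 1
  · have h3 : i = 0 := by simpa using h2
    rw [if_pos h2, if_pos h2] at h1
    rw [h3]; linarith
  · rw [if_neg h2, if_neg h2] at h1
    exact h1

theorem Phi_adj {n : ℕ} (L : ℤ) {x y : Fin (n + 2) → ℤ} (h : (Lat (n + 2)).Adj x y) :
    (Lat (n + 2)).Adj (Phi L x) (Phi L y) := by
  change ∑ i, |Phi L x i - Phi L y i| = 1
  have h0 : ∑ i, |x i - y i| = 1 := h
  rw [← h0, ← Equiv.sum_comp (Equiv.subRight (1 : Fin (n + 2))) (fun i => |x i - y i|)]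
  apply Finset.sum_congr rfl
  intro i _
  simp only [Phi, Equiv.subRight_apply]
  by_cases h2 : i = 1
  · subst h2
    simp only [if_true, sub_self]
    rw [show L + 3 - x 0 - (L + 3 - y 0) = -(x 0 - y 0) by ring, abs_neg]
  · simp only [h2, if_false]

theorem iter_adj {n : ℕ} (L : ℤ) (t : ℕ) {x y : Fin (n + 2) → ℤ}
    (h : (Lat (n + 2)).Adj x y) :
    (Lat (n + 2)).Adj ((Phi L)^[t] x) ((Phi L)^[t] y) := by
  induction t with
  | zero => simpa using h
  | succ t ih =>
    rw [Function.iterate_succ', Function.comp_apply, Function.comp_apply]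
    exact Phi_adj L ih

/-- in the tile at the origin -/
def In0 {n : ℕ} (L : ℤ) (y : Fin (n + 2) → ℤ) : Prop := ∀ i, 0 ≤ y i ∧ y i ≤ L + 3

theorem Phi_in {n : ℕ} {L : ℤ} {y : Fin (n + 2) → ℤ} (h : In0 L y) : In0 L (Phi L y) := by
  intro i
  simp only [Phi]
  split_ifs
  · have := h 0
    constructor <;> linarith [this.1, this.2]
  · exact h _

theorem iter_in {n : ℕ} {L : ℤ} {y : Fin (n + 2) → ℤ} (h : In0 L y) (t : ℕ) :
    In0 L ((Phi L)^[t] y) := by
  induction t with
  | zero => simpa using h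
  | succ t ih =>
    rw [Function.iterate_succ', Function.comp_apply]
    exact Phi_in ih

/-- gate sites without the modulus -/
def G {n : ℕ} (L : ℤ) (y : Fin (n + 2) → ℤ) : Prop :=
  ∃ a, (y a = 0 ∨ y a = L + 3) ∧ ∀ i, i ≠ a → 2 ≤ y i ∧ y i < L + 2

theorem G_of_Phi {n : ℕ} {L : ℤ} {y : Fin (n + 2) → ℤ} (h : G L (Phi L y)) : G L y := by
  obtain ⟨a, ha, hi⟩ := h
  refine ⟨a - 1, ?_, ?_⟩
  · simp only [Phi] at ha
    by_cases h2 : a = 1
    · subst h2
      simp only [if_true] at ha
      rw [sub_self]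
      rcases ha with ha | ha
      · right; linarith
      · left; linarith
    · simpa only [h2, if_false] using ha
  · intro i hia
    have h3 : i + 1 ≠ a := by
      intro h; apply hia; rw [← h]; ring
    have h4 := hi (i + 1) h3
    simp only [Phi, add_sub_cancel_right] at h4
    by_cases h2 : i + 1 = 1
    · have h5 : i = 0 := by simpa using h2
      rw [if_pos h2] at h4
      rw [h5]
      constructor <;> linarith [h4.1, h4.2]
    · rw [if_neg h2] at h4
      exact h4

theorem G_of_iter {n : ℕ} {L : ℤ} {y : Fin (n + 2) → ℤ} (t : ℕ) (h : G L ((Phi L)^[t] y)) :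
    G L y := by
  induction t with
  | zero => simpa using h
  | succ t ih =>
    rw [Function.iterate_succ', Function.comp_apply] at h
    exact ih (G_of_Phi h)

/-- the big base block -/
def Bst {n : ℕ} (L : ℤ) (y : Fin (n + 2) → ℤ) : Prop :=
  (0 ≤ y 0 ∧ y 0 ≤ 1) ∧ ∀ i, i ≠ 0 → 2 ≤ y i ∧ y i ≤ L + 3

theorem Bst_iter {n : ℕ} {L : ℤ} (hL : 2 ≤ L) {y : Fin (n + 2) → ℤ} (h : Bst L y) (k : ℕ)
    (hk0 : 0 < k) (hk : k ≤ n + 2) : ¬ Bst L ((Phi L)^[k] y) := by
  intro h'
  have h1 := h'.1.2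
  rw [Phi_iter L y k hk 0, vv_zero] at h1
  by_cases hkd : n + 2 ≤ k
  · have : k = n + 2 := le_antisymm hk hkd
    subst this
    rw [if_pos hkd] at h1
    simp only [Fin.natCast_self, sub_zero] at h1
    linarith [h.1.2]
  · rw [if_neg hkd] at h1
    have h2 : (0 - (k : Fin (n + 2))) ≠ 0 := by
      rw [zero_sub, Ne, neg_eq_zero]
      intro h3
      have h4 := congrArg Fin.val h3
      rw [Fin.val_natCast, Nat.mod_eq_of_lt (by omega)] at h4
      simp at h4
      omega
    linarith [(h.2 _ h2).1]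

theorem Bst_disj {n : ℕ} {L : ℤ} (hL : 2 ≤ L) {x y : Fin (n + 2) → ℤ} (hx : Bst L x)
    (hy : Bst L y) {s t : ℕ} (hs : s < 2 * (n + 2)) (ht : t < 2 * (n + 2))
    (h : (Phi L)^[s] x = (Phi L)^[t] y) : s = t ∧ x = y := by
  -- key: if s < t then contradiction
  have key : ∀ (x y : Fin (n + 2) → ℤ), Bst L x → Bst L y → ∀ s t : ℕ, s < t →
      t < 2 * (n + 2) → (Phi L)^[s] x = (Phi L)^[t] y → False := by
    intro x y hx hy s t hst ht h
    obtain ⟨k, rfl⟩ := Nat.exists_eq_add_of_lt hst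
    rw [show s + k + 1 = s + (k + 1) by ring, Function.iterate_add_apply] at h
    have h1 : x = (Phi L)^[k + 1] y := (Phi_inj L).iterate s h
    by_cases hk : k + 1 ≤ n + 2
    · exact Bst_iter hL hy (k + 1) (by omega) hk (h1 ▸ hx)
    · have h2 : (Phi L)^[2 * (n + 2) - (k + 1)] x = y := by
        rw [h1, ← Function.iterate_add_apply, Nat.sub_add_cancel (by omega), Phi_iter_2d]
      exact Bst_iter hL hx (2 * (n + 2) - (k + 1)) (by omega) (by omega) (h2 ▸ hy)
  rcases lt_trichotomy s t with h1 | h1 | h1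
  · exact (key x y hx hy s t h1 ht h).elim
  · subst h1
    exact ⟨rfl, (Phi_inj L).iterate s h⟩
  · exact (key y x hy hx t s h1 hs h.symm).elim

theorem lat_adj_of {d : ℕ} {x y : Fin d → ℤ} (s : Fin d) (h : ∀ i, i ≠ s → x i = y i)
    (hs : |x s - y s| = 1) : (Lat d).Adj x y := by
  change ∑ i, |x i - y i| = 1
  rw [Finset.sum_eq_single s]
  · exact hs
  · intro i _ hi
    rw [h i hi]; simp
  · intro h; exact absurd (Finset.mem_univ s) h

theorem lat_adj_update {d : ℕ} {x y : Fin d → ℤ} (s : Fin d) (a : ℤ) (hs : x s = y s)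
    (h : (Lat d).Adj x y) : (Lat d).Adj (Function.update x s a) (Function.update y s a) := by
  change ∑ i, |Function.update x s a i - Function.update y s a i| = 1
  have h0 : ∑ i, |x i - y i| = 1 := h
  rw [← h0]
  apply Finset.sum_congr rfl
  intro i _
  by_cases hi : i = s
  · subst hi
    simp [hs]
  · rw [Function.update_of_ne hi, Function.update_of_ne hi]

/-- existence of the base block -/
theorem base_block (n : ℕ) (L : ℤ) (hL : 2 ≤ L) (hLe : Even L) :
    ∃ (q : ℕ) (B : ℕ → (Fin (n + 2) → ℤ)), 0 < q ∧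
      (∀ r, r < q + 3 → Bst L (B r)) ∧
      (∀ r, r < q + 2 → B r 0 = 0) ∧ B (q + 2) 0 = 1 ∧
      (∀ r, r < q + 1 → B r 1 ≤ L + 2) ∧ B (q + 2) 1 = L + 3 ∧
      (∀ r r', r < q + 3 → r' < q + 3 → B r = B r' → r = r') ∧
      (∀ r, r + 1 < q + 3 → (Lat (n + 2)).Adj (B r) (B (r + 1))) ∧
      (Lat (n + 2)).Adj (B (q + 2)) (Phi L (B 0)) ∧
      (Lat (n + 2)).Adj (Function.update (B q) 0 1) (Phi L (Function.update (B 0) 0 1)) ∧
      (∀ y : Fin (n + 2) → ℤ, y 0 = 0 → (∀ i, i ≠ 0 → 2 ≤ y i ∧ y i < L + 2) →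
        ∃ r, r < q ∧ B r = y) ∧
      (∀ r, q ≤ r → r < q + 3 → ¬ G L (B r)) := by
  classical
  have h10 : (1 : Fin (n + 2)) ≠ 0 := one_ne_zero
  set J : List (Fin (n + 2)) := (List.finRange (n + 2)).filter (fun i => i ≠ 0 ∧ i ≠ 1) with hJdef
  have hmem : ∀ i : Fin (n + 2), i ∈ (1 :: J) ↔ i ≠ 0 := by
    intro i
    simp only [hJdef, List.mem_cons, List.mem_filter, List.mem_finRange, true_and,
      decide_eq_true_eq]
    constructor
    · rintro (rfl | ⟨h, -⟩)
      · exact h10
      · exact h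
    · intro h
      by_cases h1 : i = 1
      · exact Or.inl h1
      · exact Or.inr ⟨h, h1⟩
  have hJ : ((1 : Fin (n + 2)) :: J).Nodup := by
    rw [List.nodup_cons]
    refine ⟨?_, (List.nodup_finRange _).filter _⟩
    simp [hJdef]
  set e : Fin (n + 2) → ℤ := fun i => if i = 0 then 0 else 2 with he
  have he0 : e 0 = 0 := by simp [he]
  have hei : ∀ i, i ≠ 0 → e i = 2 := by
    intro i hi; simp [he, hi]
  obtain ⟨l, hnd, hadj, hhead, hlast, hl⟩ := snake (n + 2) 2 (L + 1) (by linarith)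
    (by rw [show L + 1 - 2 + 1 = L by ring]; exact hLe) 1 J hJ e
    (by intro i hi; left; exact hei i ((hmem i).1 hi))
  have hl' : ∀ y, y ∈ l ↔ y 0 = 0 ∧ ∀ i, i ≠ 0 → 2 ≤ y i ∧ y i ≤ L + 1 := by
    intro y
    rw [hl y]
    constructor
    · rintro ⟨h1, h2⟩
      refine ⟨?_, fun i hi => h2 i ((hmem i).2 hi)⟩
      rw [h1 0 (by rw [hmem]; simp), he0]
    · rintro ⟨h1, h2⟩
      refine ⟨?_, fun i hi => h2 i ((hmem i).1 hi)⟩
      intro i hi
      have : i = 0 := by
        by_contra h; exact hi ((hmem i).2 h)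
      rw [this, h1, he0]
  have hlne : l ≠ [] := by
    rintro rfl; simp at hhead
  have hqpos : 0 < l.length := List.length_pos_iff.2 hlne
  have hl0 : l[0]'hqpos = e := by
    rw [List.head?_eq_getElem?, List.getElem?_eq_getElem hqpos] at hhead
    exact Option.some.inj hhead
  have hllast : l[l.length - 1]'(by omega) = Function.update e 1 (L + 1) := by
    rw [List.getLast?_eq_getElem?, List.getElem?_eq_getElem (by omega)] at hlast
    rw [Option.some.inj hlast, hei 1 h10]
    congr 1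
    ring
  set q := l.length with hq
  set p1 : Fin (n + 2) → ℤ := Function.update e 1 (L + 2) with hp1
  set p2 : Fin (n + 2) → ℤ := Function.update e 1 (L + 3) with hp2
  set p3 : Fin (n + 2) → ℤ := Function.update (Function.update e 1 (L + 3)) 0 1 with hp3
  have p10 : p1 0 = 0 := by rw [hp1, Function.update_of_ne h10.symm, he0]
  have p11 : p1 1 = L + 2 := by rw [hp1, Function.update_self]
  have p1i : ∀ i, i ≠ 0 → i ≠ 1 → p1 i = 2 := by
    intro i hi hi1; rw [hp1, Function.update_of_ne hi1, hei i hi]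
  have p20 : p2 0 = 0 := by rw [hp2, Function.update_of_ne h10.symm, he0]
  have p21 : p2 1 = L + 3 := by rw [hp2, Function.update_self]
  have p2i : ∀ i, i ≠ 0 → i ≠ 1 → p2 i = 2 := by
    intro i hi hi1; rw [hp2, Function.update_of_ne hi1, hei i hi]
  have p30 : p3 0 = 1 := by rw [hp3, Function.update_self]
  have p31 : p3 1 = L + 3 := by
    rw [hp3, Function.update_of_ne h10, Function.update_self]
  have p3i : ∀ i, i ≠ 0 → i ≠ 1 → p3 i = 2 := by
    intro i hi hi1
    rw [hp3, Function.update_of_ne hi, Function.update_of_ne hi1, hei i hi]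
  let B : ℕ → (Fin (n + 2) → ℤ) := fun r =>
    if h : r < q then l[r] else if r = q then p1 else if r = q + 1 then p2 else p3
  have B1 : ∀ (r : ℕ) (h : r < q), B r = l[r] := by
    intro r h; simp only [B, h, dif_pos]
  have B2 : B q = p1 := by simp [B]
  have B3 : B (q + 1) = p2 := by simp [B]
  have B4 : B (q + 2) = p3 := by simp [B]
  have Bin : ∀ (r : ℕ) (h : r < q), B r 0 = 0 ∧ ∀ i, i ≠ 0 → 2 ≤ B r i ∧ B r i ≤ L + 1 := by
    intro r h
    rw [B1 r h]
    exact (hl' _).1 (List.getElem_mem h)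
  have cases3 : ∀ r, r < q + 3 → r < q ∨ r = q ∨ r = q + 1 ∨ r = q + 2 := by
    intro r hr; omega
  have i01 : ∀ i : Fin (n + 2), i ≠ 0 → i = 1 ∨ (i ≠ 0 ∧ i ≠ 1) := by
    intro i hi
    by_cases h : i = 1
    · exact Or.inl h
    · exact Or.inr ⟨hi, h⟩
  refine ⟨q, B, hqpos, ?_, ?_, ?_, ?_, ?_, ?_, ?_, ?_, ?_, ?_, ?_⟩
  · -- Bst
    intro r hr
    rcases cases3 r hr with h | h | h | h
    · obtain ⟨h1, h2⟩ := Bin r h
      refine ⟨by rw [h1]; norm_num, fun i hi => ⟨(h2 i hi).1, by linarith [(h2 i hi).2]⟩⟩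
    · rw [h, B2]
      refine ⟨by rw [p10]; norm_num, fun i hi => ?_⟩
      rcases i01 i hi with rfl | ⟨ha, hb⟩
      · rw [p11]; constructor <;> linarith
      · rw [p1i i ha hb]; constructor <;> linarith
    · rw [h, B3]
      refine ⟨by rw [p20]; norm_num, fun i hi => ?_⟩
      rcases i01 i hi with rfl | ⟨ha, hb⟩
      · rw [p21]; constructor <;> linarith
      · rw [p2i i ha hb]; constructor <;> linarith
    · rw [h, B4]
      refine ⟨by rw [p30]; norm_num, fun i hi => ?_⟩
      rcases i01 i hi with rfl | ⟨ha, hb⟩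
      · rw [p31]; constructor <;> linarith
      · rw [p3i i ha hb]; constructor <;> linarith
  · intro r hr
    rcases cases3 r (by omega) with h | h | h | h
    · exact (Bin r h).1
    · rw [h, B2, p10]
    · rw [h, B3, p20]
    · omega
  · rw [B4, p30]
  · intro r hr
    rcases cases3 r (by omega) with h | h | h | h
    · linarith [((Bin r h).2 1 h10).2]
    · rw [h, B2, p11]
    · omega
    · omega
  · rw [B4, p31]
  · -- injectivity
    intro r r' hr hr' heq
    have e0 := congrFun heq 0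
    have e1 := congrFun heq 1
    rcases cases3 r hr with h | h | h | h <;> rcases cases3 r' hr' with h' | h' | h' | h'
    · rw [B1 r h, B1 r' h'] at heq
      exact (hnd.getElem_inj_iff).1 heq
    · have := ((Bin r h).2 1 h10).2
      rw [h', B2, p11] at e1; linarith
    · have := ((Bin r h).2 1 h10).2
      rw [h', B3, p21] at e1; linarith
    · have := ((Bin r h).2 1 h10).2
      rw [h', B4, p31] at e1; linarith
    · have := ((Bin r' h').2 1 h10).2
      rw [h, B2, p11] at e1; linarith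
    · omega
    · rw [h, h', B2, B3, p11, p21] at e1; linarith
    · rw [h, h', B2, B4, p11, p31] at e1; linarith
    · have := ((Bin r' h').2 1 h10).2
      rw [h, B3, p21] at e1; linarith
    · rw [h, h', B2, B3, p11, p21] at e1; linarith
    · omega
    · rw [h, h', B3, B4, p20, p30] at e0; linarith
    · have := ((Bin r' h').2 1 h10).2
      rw [h, B4, p31] at e1; linarith
    · rw [h, h', B2, B4, p11, p31] at e1; linarith
    · rw [h, h', B3, B4, p20, p30] at e0; linarith
    · omega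
  · -- adjacency
    intro r hr
    rcases cases3 r (by omega) with h | h | h | h
    · by_cases h2 : r + 1 < q
      · rw [B1 r h, B1 (r + 1) h2]
        exact hadj r h2
      · have h3 : r = q - 1 := by omega
        have h4 : r + 1 = q := by omega
        rw [h4, B2, B1 r h]
        have h5 : l[r] = Function.update e 1 (L + 1) := by
          rw [← hllast]; congr 1
        rw [h5]
        apply lat_adj_of 1
        · intro i hi
          rw [hp1, Function.update_of_ne hi, Function.update_of_ne hi]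
        · rw [p11, Function.update_self]
          norm_num
    · rw [h, B2, B3]
      apply lat_adj_of 1
      · intro i hi
        rw [hp1, hp2, Function.update_of_ne hi, Function.update_of_ne hi]
      · rw [p11, p21]; norm_num
    · rw [h, B3, B4]
      apply lat_adj_of 0
      · intro i hi
        rw [hp2, hp3, Function.update_of_ne hi]
      · rw [p20, p30]; norm_num
    · omega
  · -- closing of the outer block
    rw [B4, B1 0 hqpos, hl0]
    apply lat_adj_of 0
    · intro i hi
      rcases i01 i hi with rfl | ⟨ha, hb⟩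
      · rw [p31, Phi, if_pos rfl, he0]; ring
      · rw [p3i i ha hb, Phi, if_neg hb, hei]
        exact sub_ne_zero.2 hb
    · rw [p30, Phi, if_neg h10.symm, hei]
      · norm_num
      · rw [zero_sub, Ne, neg_eq_zero]; exact h10
  · -- closing of the inner block
    rw [B2, B1 0 hqpos, hl0]
    apply lat_adj_of 0
    · intro i hi
      rw [Function.update_of_ne hi]
      rcases i01 i hi with rfl | ⟨ha, hb⟩
      · rw [p11, Phi, if_pos rfl, Function.update_self]; ring
      · rw [p1i i ha hb, Phi, if_neg hb, Function.update_of_ne (sub_ne_zero.2 hb), hei]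
        exact sub_ne_zero.2 hb
    · have h5 : (0 - 1 : Fin (n + 2)) ≠ 0 := by
        rw [zero_sub, Ne, neg_eq_zero]; exact h10
      rw [Function.update_self, Phi, if_neg h10.symm, Function.update_of_ne h5, hei _ h5]
      norm_num
  · -- gates
    intro y hy0 hyi
    have h1 : y ∈ l := (hl' y).2 ⟨hy0, fun i hi => ⟨(hyi i hi).1, by linarith [(hyi i hi).2]⟩⟩
    obtain ⟨r, hr, hrr⟩ := List.mem_iff_getElem.1 h1
    exact ⟨r, hr, by rw [B1 r hr, hrr]⟩
  · -- turn sites are not gates
    intro r hqr hr hG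
    obtain ⟨a, ha, hai⟩ := hG
    have ha0 : a = 0 := by
      by_contra h0
      have h2 := hai 0 (Ne.symm h0)
      rcases cases3 r hr with h | h | h | h
      · omega
      · rw [h, B2, p10] at h2; linarith [h2.1]
      · rw [h, B3, p20] at h2; linarith [h2.1]
      · rw [h, B4, p30] at h2; linarith [h2.1]
    have h2 := hai 1 (by rw [ha0]; exact h10)
    rcases cases3 r hr with h | h | h | h
    · omega
    · rw [h, B2, p11] at h2; linarith [h2.2]
    · rw [h, B3, p21] at h2; linarith [h2.2]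
    · rw [h, B4, p31] at h2; linarith [h2.2]

/-- index function of a rail with block `B` of length `N` -/
def rail {n : ℕ} (L : ℤ) (N : ℕ) (B : ℕ → (Fin (n + 2) → ℤ)) (j : ℕ) : Fin (n + 2) → ℤ :=
  (Phi L)^[j / N] (B (j % N))

theorem rail_block {n : ℕ} (L : ℤ) (N : ℕ) (B : ℕ → (Fin (n + 2) → ℤ)) (t r : ℕ)
    (hr : r < N) : rail L N B (t * N + r) = (Phi L)^[t] (B r) := by
  unfold rail
  have h1 : (t * N + r) / N = t := by
    rw [mul_comm, Nat.mul_add_div (by omega), Nat.div_eq_of_lt hr, add_zero]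
  have h2 : (t * N + r) % N = r := by
    rw [mul_comm, Nat.mul_add_mod, Nat.mod_eq_of_lt hr]
  rw [h1, h2]

theorem exists_block {N : ℕ} (hN : 0 < N) (j : ℕ) : ∃ t r, r < N ∧ j = t * N + r := by
  refine ⟨j / N, j % N, Nat.mod_lt j hN, ?_⟩
  rw [mul_comm]
  exact (Nat.div_add_mod j N).symm

theorem block_lt {N t r d2 : ℕ} (h : t * N + r < d2 * N) : t < d2 := by
  by_contra h1
  have : d2 * N ≤ t * N := Nat.mul_le_mul_right N (by omega)
  omega

theorem rail_adj {n : ℕ} (L : ℤ) (N : ℕ) (hN : 0 < N) (B : ℕ → (Fin (n + 2) → ℤ))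
    (hB : ∀ r, r + 1 < N → (Lat (n + 2)).Adj (B r) (B (r + 1)))
    (hlast : (Lat (n + 2)).Adj (B (N - 1)) (Phi L (B 0))) (j : ℕ) :
    (Lat (n + 2)).Adj (rail L N B j) (rail L N B (j + 1)) := by
  obtain ⟨t, r, hr, rfl⟩ := exists_block hN j
  by_cases h : r + 1 < N
  · rw [rail_block L N B t r hr, add_assoc, rail_block L N B t (r + 1) h]
    exact iter_adj L _ (hB _ h)
  · have h5 : r = N - 1 := by omega
    have h6 : t * N + r + 1 = (t + 1) * N + 0 := by
      rw [add_mul, one_mul]; omega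
    rw [h6, rail_block L N B t r hr, rail_block L N B (t + 1) 0 hN, h5,
      Function.iterate_succ_apply]
    exact iter_adj L _ hlast

theorem rail_inj {n : ℕ} {L : ℤ} (hL : 2 ≤ L) {N N' : ℕ} (hN : 0 < N) (hN' : 0 < N')
    {B B' : ℕ → (Fin (n + 2) → ℤ)} (hB : ∀ r, r < N → Bst L (B r))
    (hB' : ∀ r, r < N' → Bst L (B' r)) {j j' : ℕ} (hj : j < 2 * (n + 2) * N)
    (hj' : j' < 2 * (n + 2) * N') (h : rail L N B j = rail L N' B' j') :
    j / N = j' / N' ∧ B (j % N) = B' (j' % N') := by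
  refine Bst_disj hL (hB _ (Nat.mod_lt _ hN)) (hB' _ (Nat.mod_lt _ hN')) ?_ ?_ h
  · exact (Nat.div_lt_iff_lt_mul hN).2 hj
  · exact (Nat.div_lt_iff_lt_mul hN').2 hj'

/-- translation by the corner of tile `b` -/
def Tr {n : ℕ} (L : ℤ) (b : Fin (n + 2) → ℤ) (z : Fin (n + 2) → ℤ) : Fin (n + 2) → ℤ :=
  fun i => z i + (L + 4) * b i

theorem Tr_inj {n : ℕ} (L : ℤ) (b : Fin (n + 2) → ℤ) : Function.Injective (Tr L b) := by
  intro x y h
  funext i
  have := congrFun h i
  simp only [Tr] at this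
  linarith

theorem Tr_adj {n : ℕ} (L : ℤ) (b : Fin (n + 2) → ℤ) {x y : Fin (n + 2) → ℤ}
    (h : (Lat (n + 2)).Adj x y) : (Lat (n + 2)).Adj (Tr L b x) (Tr L b y) := by
  change ∑ i, |Tr L b x i - Tr L b y i| = 1
  have h0 : ∑ i, |x i - y i| = 1 := h
  rw [← h0]
  apply Finset.sum_congr rfl
  intro i _
  simp only [Tr]
  congr 1
  ring

theorem Tr_tile {n : ℕ} {L : ℤ} (hL : 2 ≤ L) (b : Fin (n + 2) → ℤ) {x : Fin (n + 2) → ℤ}
    (h : In0 L x) : tile L (Tr L b x) = b := by
  funext i
  simp only [tile, Tr]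
  rw [Int.add_mul_ediv_left _ _ (by linarith), Int.ediv_eq_zero_of_lt (h i).1
    (by linarith [(h i).2]), zero_add]

theorem Tr_mod {n : ℕ} {L : ℤ} (b : Fin (n + 2) → ℤ) {x : Fin (n + 2) → ℤ}
    (h : In0 L x) (i : Fin (n + 2)) : Tr L b x i % (L + 4) = x i := by
  simp only [Tr]
  rw [Int.add_mul_emod_self_left]
  exact Int.emod_eq_of_lt (h i).1 (by linarith [(h i).2])

theorem Tr_gate {n : ℕ} {L : ℤ} (b : Fin (n + 2) → ℤ) {x : Fin (n + 2) → ℤ}
    (h : In0 L x) : IsGate L (Tr L b x) ↔ G L x := by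
  unfold IsGate G
  simp only [Tr_mod b h]

theorem Tr_surj {n : ℕ} {L : ℤ} (hL : 2 ≤ L) (b : Fin (n + 2) → ℤ) {v : Fin (n + 2) → ℤ}
    (h : tile L v = b) : ∃ x, In0 L x ∧ Tr L b x = v := by
  refine ⟨fun i => v i % (L + 4), ?_, ?_⟩
  · intro i
    have h1 := Int.emod_nonneg (v i) (show L + 4 ≠ 0 by linarith)
    have h2 := Int.emod_lt_of_pos (v i) (show 0 < L + 4 by linarith)
    exact ⟨h1, by linarith⟩
  · funext i
    have h1 := congrFun h i
    simp only [tile] at h1
    simp only [Tr]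
    rw [← h1]
    exact Int.emod_add_mul_ediv (v i) (L + 4)

/-- every gate of the tile at the origin is reached -/
theorem gate_reach {n : ℕ} {L : ℤ} {v : Fin (n + 2) → ℤ} (hG : G L v) :
    ∃ (t : ℕ) (y : Fin (n + 2) → ℤ), t < 2 * (n + 2) ∧ v = (Phi L)^[t] y ∧ y 0 = 0 ∧
      ∀ i, i ≠ 0 → 2 ≤ y i ∧ y i < L + 2 := by
  obtain ⟨a, ha, hai⟩ := hG
  -- first rotate the special coordinate to position 0
  obtain ⟨k, hk, hka⟩ : ∃ k : ℕ, k < n + 2 ∧ (0 : Fin (n + 2)) - (k : Fin (n + 2)) = a := by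
    refine ⟨(-a).val, (-a).isLt, ?_⟩
    rw [Fin.cast_val_eq_self, zero_sub, neg_neg]
  have hz0 : (Phi L)^[k] v 0 = v a := by
    rw [Phi_iter L v k hk.le 0, vv_zero, if_neg (by omega), hka]
  have hzi : ∀ i, i ≠ 0 → 2 ≤ (Phi L)^[k] v i ∧ (Phi L)^[k] v i < L + 2 := by
    intro i hi
    have h1 : i - (k : Fin (n + 2)) ≠ a := by
      intro h
      apply hi
      rw [← hka] at h
      exact sub_left_injective h
    have h2 := hai _ h1
    rw [Phi_iter L v k hk.le i]
    split_ifs
    · constructor <;> linarith [h2.1, h2.2]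
    · exact h2
  rcases ha with ha | ha
  · -- minus side
    by_cases hk0 : k = 0
    · subst hk0
      refine ⟨0, v, by omega, rfl, ?_, ?_⟩
      · have := hz0
        simp only [Function.iterate_zero, id_eq] at this
        rw [this, ha]
      · simpa using hzi
    · refine ⟨2 * (n + 2) - k, (Phi L)^[k] v, by omega, ?_, by rw [hz0, ha], hzi⟩
      rw [← Function.iterate_add_apply, Nat.sub_add_cancel (by omega), Phi_iter_2d]
  · -- plus side
    refine ⟨n + 2 - k, (Phi L)^[n + 2] ((Phi L)^[k] v), by omega, ?_, ?_, ?_⟩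
    · rw [← Function.iterate_add_apply, ← Function.iterate_add_apply,
        show n + 2 - k + (n + 2) + k = 2 * (n + 2) by omega, Phi_iter_2d]
    · rw [Phi_iter_d]
      change L + 3 - (Phi L)^[k] v 0 = 0
      rw [hz0, ha]; ring
    · intro i hi
      rw [Phi_iter_d]
      have := hzi i hi
      constructor <;> linarith [this.1, this.2]

theorem Bst_in {n : ℕ} {L : ℤ} (hL : 2 ≤ L) {y : Fin (n + 2) → ℤ} (h : Bst L y) : In0 L y := by
  intro i
  by_cases hi : i = 0
  · subst hi
    constructor <;> linarith [h.1.1, h.1.2]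
  · constructor <;> linarith [(h.2 i hi).1, (h.2 i hi).2]

theorem rails_aux (n : ℕ) (L : ℤ) (hL : 2 ≤ L) (hLe : Even L) (b : Fin (n + 2) → ℤ) :
    ∃ (W C : List (Fin (n + 2) → ℤ)) (m : ℕ → ℕ),
      Rails (Lat (n + 2)) (tile L) (IsGate L) b W C m := by
  obtain ⟨q, B, hq, hBst, hB0, hB0', hB1, hB1', hBinj, hBadj, hBlast, hBlastin, hgate, hngate⟩ :=
    base_block n L hL hLe
  set B' : ℕ → (Fin (n + 2) → ℤ) := fun r => Function.update (B r) 0 1 with hB'
  have h10 : (1 : Fin (n + 2)) ≠ 0 := one_ne_zero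
  have hB'1 : ∀ r, B' r 0 = 1 := fun r => Function.update_self _ _ _
  have hB'2 : ∀ r i, i ≠ 0 → B' r i = B r i := fun r i hi => Function.update_of_ne hi _ _
  have hBst' : ∀ r, r < q + 1 → Bst L (B' r) := by
    intro r hr
    refine ⟨by simp [hB'], fun i hi => ?_⟩
    rw [hB'2 r i hi]
    exact (hBst r (by omega)).2 i hi
  have hB'adj : ∀ r, r + 1 < q + 1 → (Lat (n + 2)).Adj (B' r) (B' (r + 1)) := by
    intro r hr
    exact lat_adj_update 0 1 (by rw [hB0 r (by omega), hB0 (r + 1) (by omega)])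
      (hBadj r (by omega))
  have hB'inj : ∀ r r', r < q + 1 → r' < q + 1 → B' r = B' r' → r = r' := by
    intro r r' hr hr' h
    apply hBinj r r' (by omega) (by omega)
    funext i
    by_cases hi : i = 0
    · rw [hi, hB0 r (by omega), hB0 r' (by omega)]
    · have := congrFun h i
      simpa only [hB', Function.update_of_ne hi] using this
  have hcross : ∀ r r', r < q + 3 → r' < q + 1 → B r ≠ B' r' := by
    intro r r' hr hr' h
    have h0 := congrFun h 0
    have h1 := congrFun h 1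
    simp only [hB', Function.update_self, Function.update_of_ne h10] at h0 h1
    by_cases h2 : r < q + 2
    · rw [hB0 r h2] at h0; norm_num at h0
    · have h3 : r = q + 2 := by omega
      rw [h3, hB1'] at h1
      linarith [hB1 r' hr']
  have hBB' : ∀ r, r < q + 1 → (Lat (n + 2)).Adj (B r) (B' r) := by
    intro r hr
    apply lat_adj_of 0
    · intro i hi
      rw [hB'2 r i hi]
    · rw [hB'1 r, hB0 r (by omega)]
      norm_num
  have hN : 0 < q + 3 := by omega
  have hM : 0 < q + 1 := by omega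
  have hwadj := rail_adj L (q + 3) hN B hBadj hBlast
  have hcadj := rail_adj L (q + 1) hM B' hB'adj hBlastin
  have hwin : ∀ j, In0 L (rail L (q + 3) B j) := fun j =>
    iter_in (Bst_in hL (hBst _ (Nat.mod_lt _ hN))) _
  have hcin : ∀ j, In0 L (rail L (q + 1) B' j) := fun j =>
    iter_in (Bst_in hL (hBst' _ (Nat.mod_lt _ hM))) _
  set W : List (Fin (n + 2) → ℤ) := (List.range (2 * (n + 2) * (q + 3))).map
    (fun j => Tr L b (rail L (q + 3) B j)) with hW
  set C : List (Fin (n + 2) → ℤ) := (List.range (2 * (n + 2) * (q + 1))).map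
    (fun j => Tr L b (rail L (q + 1) B' j)) with hC
  have hWl : W.length = 2 * (n + 2) * (q + 3) := by simp [hW]
  have hCl : C.length = 2 * (n + 2) * (q + 1) := by simp [hC]
  have hWj : ∀ (j : ℕ) (h : j < W.length), W[j] = Tr L b (rail L (q + 3) B j) := by
    intro j h; simp [hW]
  have hCj : ∀ (j : ℕ) (h : j < C.length), C[j] = Tr L b (rail L (q + 1) B' j) := by
    intro j h; simp [hC]
  have hgateW : ∀ (t r : ℕ), r < q + 3 → IsGate L (Tr L b (rail L (q + 3) B (t * (q + 3) + r))) →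
      r < q := by
    intro t r hr hg
    rw [Tr_gate b (hwin _), rail_block L (q + 3) B t r hr] at hg
    by_contra h
    exact hngate r (by omega) hr (G_of_iter t hg)
  refine ⟨W, C, fun j => (j / (q + 3)) * (q + 1) + j % (q + 3), ?_⟩
  have hmdef : ∀ t r, r < q + 3 →
      ((t * (q + 3) + r) / (q + 3)) * (q + 1) + (t * (q + 3) + r) % (q + 3) = t * (q + 1) + r := by
    intro t r hr
    rw [mul_comm t (q + 3), Nat.mul_add_div (by omega), Nat.div_eq_of_lt hr, add_zero,
      Nat.mul_add_mod, Nat.mod_eq_of_lt hr]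
  constructor
  · -- W_nodup
    rw [hW]
    refine List.Nodup.map_on ?_ List.nodup_range
    intro j hj j' hj' h
    rw [List.mem_range] at hj hj'
    obtain ⟨h1, h2⟩ := rail_inj hL hN hN hBst hBst hj hj' (Tr_inj L b h)
    have h3 := hBinj _ _ (Nat.mod_lt _ hN) (Nat.mod_lt _ hN) h2
    rw [← Nat.div_add_mod j (q + 3), ← Nat.div_add_mod j' (q + 3), h1, h3]
  · -- W_adj
    intro j h
    rw [hWj j (by omega), hWj (j + 1) h]
    exact Tr_adj L b (hwadj j)
  · -- W_tile
    intro v hv
    rw [hW, List.mem_map] at hv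
    obtain ⟨j, -, rfl⟩ := hv
    exact Tr_tile hL b (hwin j)
  · -- C_nodup
    rw [hC]
    refine List.Nodup.map_on ?_ List.nodup_range
    intro j hj j' hj' h
    rw [List.mem_range] at hj hj'
    obtain ⟨h1, h2⟩ := rail_inj hL hM hM hBst' hBst' hj hj' (Tr_inj L b h)
    have h3 := hB'inj _ _ (Nat.mod_lt _ hM) (Nat.mod_lt _ hM) h2
    rw [← Nat.div_add_mod j (q + 1), ← Nat.div_add_mod j' (q + 1), h1, h3]
  · -- C_len
    rw [hCl]
    nlinarith
  · -- C_adj
    intro j h
    rw [hCj j (by omega), hCj (j + 1) h]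
    exact Tr_adj L b (hcadj j)
  · -- C_close
    intro x hx y hy
    have hCpos : 0 < C.length := by rw [hCl]; positivity
    rw [List.head?_eq_getElem?, List.getElem?_eq_getElem hCpos, Option.mem_some_iff] at hx
    rw [List.getLast?_eq_getElem?, List.getElem?_eq_getElem (by omega),
      Option.mem_some_iff] at hy
    rw [hCj 0 hCpos] at hx
    rw [hCj _ (by omega)] at hy
    subst hx
    subst hy
    have h1 := hcadj (C.length - 1)
    rw [Nat.sub_add_cancel hCpos] at h1
    have h2 : rail L (q + 1) B' C.length = rail L (q + 1) B' 0 := by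
      have h3 : C.length = 2 * (n + 2) * (q + 1) + 0 := by rw [hCl, add_zero]
      have h4 : (0 : ℕ) = 0 * (q + 1) + 0 := by simp
      rw [h3, rail_block L (q + 1) B' _ 0 hM, Phi_iter_2d]
      conv_rhs => rw [h4, rail_block L (q + 1) B' 0 0 hM]
      rfl
    rw [h2] at h1
    exact Tr_adj L b h1
  · -- C_tile
    intro v hv
    rw [hC, List.mem_map] at hv
    obtain ⟨j, -, rfl⟩ := hv
    exact Tr_tile hL b (hcin j)
  · -- disj
    intro v hv hv'
    rw [hW, List.mem_map] at hv
    rw [hC, List.mem_map] at hv'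
    obtain ⟨j, hj, rfl⟩ := hv
    obtain ⟨j', hj', h⟩ := hv'
    rw [List.mem_range] at hj hj'
    obtain ⟨h1, h2⟩ := rail_inj hL hM hN hBst' hBst hj' hj (Tr_inj L b h)
    exact hcross _ _ (Nat.mod_lt _ hN) (Nat.mod_lt _ hM) h2.symm
  · -- gates
    intro v hv hvt
    obtain ⟨x, hx, rfl⟩ := Tr_surj hL b hvt
    rw [Tr_gate b hx] at hv
    obtain ⟨t, y, ht, rfl, hy0, hyi⟩ := gate_reach hv
    obtain ⟨r, hr, rfl⟩ := hgate y hy0 hyi
    rw [hW, List.mem_map]
    refine ⟨t * (q + 3) + r, ?_, ?_⟩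
    · rw [List.mem_range]
      have : (t + 1) * (q + 3) ≤ 2 * (n + 2) * (q + 3) := Nat.mul_le_mul_right _ ht
      have h5 : (t + 1) * (q + 3) = t * (q + 3) + (q + 3) := by ring
      omega
    · rw [rail_block L (q + 3) B t r (by omega)]
  · -- sq
    intro j h hg
    obtain ⟨t, r, hr, rfl⟩ := exists_block hN j
    rw [hWj _ (by omega)] at hg
    have hrq := hgateW t r hr hg
    simp only [hmdef t r hr]
    have ht : t < 2 * (n + 2) := by
      apply block_lt (N := q + 3) (r := r)
      rw [← hWl]; omega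
    have h6 : t * (q + 1) + r + 1 < C.length := by
      rw [hCl]
      have : (t + 1) * (q + 1) ≤ 2 * (n + 2) * (q + 1) := Nat.mul_le_mul_right _ ht
      have h5 : (t + 1) * (q + 1) = t * (q + 1) + (q + 1) := by ring
      omega
    refine ⟨h6, ?_, ?_⟩
    · rw [hWj _ (by omega), hCj _ (by omega), rail_block L (q + 3) B t r hr,
        rail_block L (q + 1) B' t r (by omega)]
      exact Tr_adj L b (iter_adj L t (hBB' r (by omega)))
    · rw [hWj _ h, hCj _ h6, add_assoc, add_assoc, rail_block L (q + 3) B t (r + 1) (by omega),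
        rail_block L (q + 1) B' t (r + 1) (by omega)]
      exact Tr_adj L b (iter_adj L t (hBB' (r + 1) (by omega)))
  · -- sq_sep
    intro j j' h h' hg hg'
    obtain ⟨t, r, hr, rfl⟩ := exists_block hN j
    obtain ⟨t', r', hr', rfl⟩ := exists_block hN j'
    rw [hWj _ (by omega)] at hg hg'
    have hrq := hgateW t r hr hg
    have hrq' := hgateW t' r' hr' hg'
    simp only [hmdef t r hr, hmdef t' r' hr']
    rcases lt_trichotomy t t' with h1 | h1 | h1
    · have h2 : (t + 1) * (q + 1) ≤ t' * (q + 1) := Nat.mul_le_mul_right _ h1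
      have h5 : (t + 1) * (q + 1) = t * (q + 1) + (q + 1) := by ring
      omega
    · subst h1; omega
    · have h2 : (t' + 1) * (q + 3) ≤ t * (q + 3) := Nat.mul_le_mul_right _ h1
      have h5 : (t' + 1) * (q + 3) = t' * (q + 3) + (q + 3) := by ring
      omega

end RailsAux

/-- Rails exist in every tile. -/
theorem rails_exist (d : ℕ) (hd : 2 ≤ d) (L : ℤ) (hL : 2 ≤ L) (hLe : Even L)
    (b : Fin d → ℤ) :
    ∃ (W C : List (Fin d → ℤ)) (m : ℕ → ℕ), Rails (Lat d) (tile L) (IsGate L) b W C m := by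
  obtain ⟨n, rfl⟩ := Nat.exists_eq_add_of_le' hd
  exact rails_aux n L hL hLe b

end Pool.Agent.Helper772.H2
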