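import Mathlib
import Pool.Agent.Helper772.Defs
set_option autoImplicit false
namespace Pool.Agent.Helper772

/-- nearest neighbour graph of the half space `x₂ ≥ h` in `ℤ^3` -/
def LatH (h : ℤ) : SimpleGraph (Fin 3 → ℤ) where
  Adj x y := ∑ i, |x i - y i| = 1 ∧ h ≤ x 2 ∧ h ≤ y 2
  symm := ⟨by
    rintro x y ⟨h1, h2, h3⟩
    exact ⟨by simpa only [abs_sub_comm] using h1, h3, h2⟩⟩
  loopless := ⟨by
    rintro x ⟨h1, _⟩
    simp at h1⟩

/-- number of points of `S` on the wall `x₂ = c` -/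
def wallc (c : ℤ) (S : Finset (Fin 3 → ℤ)) : ℕ := (S.filter (fun x => x 2 = c)).card

open Classical in
/-- weighted walks in the half space `x₂ ≥ 0` from `p` to `q` with `n` steps (`ω` is the walk
translated to the origin); `ζ` is the wall energy, `g` the contact energy -/
noncomputable def Zpp (ζ g : ℝ) (n : ℕ) (p q : Fin 3 → ℤ) : ℝ :=
  ∑ ω ∈ (sawSet 3 n).filter (fun ω => ω (Fin.last n) = q - p ∧ ∀ j, 0 ≤ (ω j + p) 2),
    Real.exp (ζ * wallc 0 (Finset.univ.image (fun j => ω j + p)) +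
      g * ((adjPairs (Finset.univ.image ω) : ℝ) / 2 - n))

open Classical in
/-- weighted walks in the half space starting at the origin -/
noncomputable def ZH (ζ g : ℝ) (n : ℕ) : ℝ :=
  ∑ ω ∈ (sawSet 3 n).filter (fun ω => ∀ j, 0 ≤ ω j 2),
    Real.exp (ζ * wallc 0 (Finset.univ.image ω) +
      g * ((adjPairs (Finset.univ.image ω) : ℝ) / 2 - n))

open Classical in
/-- weighted polygons in the half space rooted at a vertex on the wall -/
noncomputable def PH (ζ g : ℝ) (M : ℕ) : ℝ :=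
  ∑ ω ∈ (polySet 3 M).filter (fun ω => ∀ j, 0 ≤ ω j 2),
    Real.exp (ζ * wallc 0 (Finset.univ.image ω) +
      g * ((adjPairs (Finset.univ.image ω) : ℝ) / 2 - M))

end Pool.Agent.Helper772
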