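import Mathlib
import Pool.Agent.Helper772.Defs
import Pool.Agent.Helper772.HDefs
set_option autoImplicit false
namespace Pool.Agent.Helper772.HB


open Filter Topology

section RB

/-- column of a snake with columns of height `H` -/
def sc (H k : ℕ) : ℤ := ((k / H : ℕ) : ℤ)

/-- position in the column -/
def sa (H k : ℕ) : ℤ :=
  if (k / H) % 2 = 0 then ((k % H : ℕ) : ℤ) else (H : ℤ) - 1 - ((k % H : ℕ) : ℤ)

theorem sn_step (H k : ℕ) (hH : 0 < H) :
    (sc H (k + 1) = sc H k ∧ (sa H (k + 1) = sa H k + 1 ∨ sa H (k + 1) = sa H k - 1)) ∨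
      (sc H (k + 1) = sc H k + 1 ∧ sa H (k + 1) = sa H k) := by
  have h1 := Nat.div_add_mod k H
  have h2 := Nat.mod_lt k hH
  by_cases h : k % H + 1 < H
  · left
    have h3 : (k + 1) / H = k / H := by
      have : k + 1 = (k % H + 1) + H * (k / H) := by omega
      rw [this, Nat.add_mul_div_left _ _ hH, Nat.div_eq_of_lt h]; omega
    have h4 : (k + 1) % H = k % H + 1 := by
      have : k + 1 = (k % H + 1) + H * (k / H) := by omega
      rw [this, Nat.add_mul_mod_self_left, Nat.mod_eq_of_lt h]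
    unfold sc sa
    rw [h3, h4]
    refine ⟨rfl, ?_⟩
    split_ifs
    · left; push_cast; ring
    · right; push_cast; ring
  · right
    have h3 : (k + 1) / H = k / H + 1 := by
      have : k + 1 = 0 + H * (k / H + 1) := by rw [Nat.mul_add]; omega
      rw [this, Nat.add_mul_div_left _ _ hH, Nat.zero_div, Nat.zero_add]
    have h4 : (k + 1) % H = 0 := by
      have : k + 1 = 0 + H * (k / H + 1) := by rw [Nat.mul_add]; omega
      rw [this, Nat.add_mul_mod_self_left]; rfl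
    unfold sc sa
    rw [h3, h4]
    refine ⟨by push_cast; ring, ?_⟩
    split_ifs <;> omega

theorem sn_zero (H : ℕ) : sc H 0 = 0 ∧ sa H 0 = 0 := by simp [sc, sa]

theorem sn_range (L H k : ℕ) (h : k < L * H) :
    0 ≤ sc H k ∧ sc H k ≤ (L : ℤ) - 1 ∧ 0 ≤ sa H k ∧ sa H k ≤ (H : ℤ) - 1 := by
  have hH : 0 < H := Nat.pos_of_ne_zero (by rintro rfl; simp at h)
  have h1 : k / H < L := Nat.div_lt_of_lt_mul (by rwa [Nat.mul_comm])
  have h2 := Nat.mod_lt k hH
  unfold sc sa
  generalize k / H = q at *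
  generalize k % H = r at *
  split_ifs <;> omega

theorem sn_last (L H k : ℕ) (hH : 0 < H) (hL : Even L) (h : k + 1 = L * H) :
    sc H k = (L : ℤ) - 1 ∧ sa H k = 0 := by
  obtain ⟨l, rfl⟩ : ∃ l, L = l + 1 := ⟨L - 1, by
    have : L ≠ 0 := by rintro rfl; omega
    omega⟩
  obtain ⟨h', rfl⟩ : ∃ h', H = h' + 1 := ⟨H - 1, by omega⟩
  have hk : k = h' + (h' + 1) * l := by
    have : (l + 1) * (h' + 1) = h' + (h' + 1) * l + 1 := by ring
    omega
  have h3 : k / (h' + 1) = l := by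
    rw [hk, Nat.add_mul_div_left _ _ (by omega), Nat.div_eq_of_lt (by omega)]; omega
  have h4 : k % (h' + 1) = h' := by
    rw [hk, Nat.add_mul_mod_self_left, Nat.mod_eq_of_lt (by omega)]
  have h5 : l % 2 ≠ 0 := by
    rw [Nat.even_iff] at hL; omega
  unfold sc sa
  rw [h3, h4, if_neg h5]
  push_cast
  constructor <;> ring

theorem sn_inj (H k k' : ℕ) (h1 : sc H k = sc H k') (h2 : sa H k = sa H k') : k = k' := by
  unfold sc at h1
  unfold sa at h2
  have h3 : k / H = k' / H := by exact_mod_cast h1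
  rw [h3] at h2
  have h4 : k % H = k' % H := by
    split_ifs at h2 <;> omega
  rw [← Nat.div_add_mod k H, ← Nat.div_add_mod k' H, h3, h4]

theorem sn_surj (L H : ℕ) (c a : ℤ) (hc : 0 ≤ c) (hc' : c ≤ (L : ℤ) - 1) (ha : 0 ≤ a)
    (ha' : a ≤ (H : ℤ) - 1) : ∃ k < L * H, sc H k = c ∧ sa H k = a := by
  obtain ⟨c, rfl⟩ := Int.eq_ofNat_of_zero_le hc
  obtain ⟨a, rfl⟩ := Int.eq_ofNat_of_zero_le ha
  have hH : 0 < H := by omega
  have key : ∀ s, s < H → c * H + s < L * H ∧ (c * H + s) / H = c ∧ (c * H + s) % H = s := by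
    intro s hs
    refine ⟨?_, ?_, ?_⟩
    · have : (c + 1) * H ≤ L * H := Nat.mul_le_mul_right _ (by omega)
      rw [Nat.add_mul] at this; omega
    · rw [Nat.add_comm, Nat.add_mul_div_right _ _ hH, Nat.div_eq_of_lt hs]; omega
    · rw [Nat.add_comm, Nat.add_mul_mod_self_right, Nat.mod_eq_of_lt hs]
  by_cases h : c % 2 = 0
  · obtain ⟨h1, h2, h3⟩ := key a (by omega)
    refine ⟨c * H + a, h1, ?_, ?_⟩
    · unfold sc; rw [h2]
    · unfold sa; rw [h2, h3, if_pos h]
  · obtain ⟨h1, h2, h3⟩ := key (H - 1 - a) (by omega)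
    refine ⟨c * H + (H - 1 - a), h1, ?_, ?_⟩
    · unfold sc; rw [h2]
    · unfold sa; rw [h2, h3, if_neg h]; omega

/-- absolute position of a relative site -/
def mk (b : Fin 3 → ℤ) (L c : ℤ) (x y z : ℤ) : Fin 3 → ℤ :=
  ![b 0 * (L + 4) + x, b 1 * (L + 4) + y, c + 2 + z]

theorem mk_inj {b : Fin 3 → ℤ} {L c x y z x' y' z' : ℤ} (h : mk b L c x y z = mk b L c x' y' z') :
    x = x' ∧ y = y' ∧ z = z' := by
  unfold mk at h
  have h0 := congrFun h 0
  have h1 := congrFun h 1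
  have h2 := congrFun h 2
  simp at h0 h1 h2
  exact ⟨h0, h1, h2⟩

/-- relative adjacency -/
def Ad (x y z x' y' z' : ℤ) : Prop :=
  (x = x' ∧ y = y' ∧ (z = z' + 1 ∨ z' = z + 1)) ∨ (x = x' ∧ z = z' ∧ (y = y' + 1 ∨ y' = y + 1)) ∨
    (y = y' ∧ z = z' ∧ (x = x' + 1 ∨ x' = x + 1))

theorem mk_adj {b : Fin 3 → ℤ} {L c x y z x' y' z' : ℤ} (hz : 0 ≤ z) (hz' : 0 ≤ z')
    (h : Ad x y z x' y' z') : (LatH (c + 2)).Adj (mk b L c x y z) (mk b L c x' y' z') := by
  refine ⟨?_, ?_, ?_⟩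
  · have e : ∑ i, |mk b L c x y z i - mk b L c x' y' z' i| = |x - x'| + |y - y'| + |z - z'| := by
      unfold mk
      simp [Fin.sum_univ_three]
    rw [e]
    unfold Ad at h
    rcases h with ⟨rfl, rfl, h | h⟩ | ⟨rfl, rfl, h | h⟩ | ⟨rfl, rfl, h | h⟩ <;> rw [h] <;> simp
  · unfold mk; simp; omega
  · unfold mk; simp; omega

theorem mk_tile {b : Fin 3 → ℤ} {L c x y z : ℤ} (hL : 0 ≤ L) (hc : 0 ≤ c) (hb : b 2 = 0)
    (hx : 0 ≤ x) (hx' : x ≤ L + 3) (hy : 0 ≤ y) (hy' : y ≤ L + 3) (hz : 0 ≤ z)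
    (hz' : c + 2 + z ≤ L + 3) : tile L (mk b L c x y z) = b := by
  have key : ∀ u v : ℤ, 0 ≤ v → v ≤ L + 3 → (u * (L + 4) + v) / (L + 4) = u := by
    intro u v hv hv'
    rw [Int.add_comm, Int.add_mul_ediv_right _ _ (by omega), Int.ediv_eq_zero_of_lt hv (by omega)]
    ring
  funext i
  unfold tile mk
  fin_cases i
  · exact key _ _ hx hx'
  · exact key _ _ hy hy'
  · have := key 0 (c + 2 + z) (by omega) (by omega)
    simp at this ⊢
    rw [this, hb]

/-- gates in relative coordinates -/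
def Gt (L c x y z : ℤ) : Prop :=
  ((x = 0 ∨ x = L + 3) ∧ 2 ≤ y ∧ y < L + 2 ∧ c + 2 + z < L + 2) ∨
  ((y = 0 ∨ y = L + 3) ∧ 2 ≤ x ∧ x < L + 2 ∧ c + 2 + z < L + 2) ∨
  (c + 2 + z = L + 3 ∧ 2 ≤ x ∧ x < L + 2 ∧ 2 ≤ y ∧ y < L + 2)

theorem mk_gate {b : Fin 3 → ℤ} {L c x y z : ℤ} (hL : 0 ≤ L) (hc : 0 ≤ c)
    (hx : 0 ≤ x) (hx' : x ≤ L + 3) (hy : 0 ≤ y) (hy' : y ≤ L + 3) (hz : 0 ≤ z)
    (hz' : c + 2 + z ≤ L + 3) (h : IsGate L (mk b L c x y z)) : Gt L c x y z := by
  have key : ∀ u v : ℤ, 0 ≤ v → v ≤ L + 3 → (u * (L + 4) + v) % (L + 4) = v := by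
    intro u v hv hv'
    rw [Int.add_comm, Int.add_mul_emod_self_right, Int.emod_eq_of_lt hv (by omega)]
  have e0 : mk b L c x y z 0 % (L + 4) = x := key _ _ hx hx'
  have e1 : mk b L c x y z 1 % (L + 4) = y := key _ _ hy hy'
  have e2 : mk b L c x y z 2 % (L + 4) = c + 2 + z := by
    have := key 0 (c + 2 + z) (by omega) (by omega)
    rw [zero_mul, zero_add] at this
    exact this
  obtain ⟨a, ha, hi⟩ := h
  have h0 := hi 0
  have h1 := hi 1
  have h2 := hi 2
  rw [e0] at h0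
  rw [e1] at h1
  rw [e2] at h2
  unfold Gt
  fin_cases a
  · simp only [Fin.zero_eta] at ha
    rw [e0] at ha
    have h1' := h1 (by decide)
    have h2' := h2 (by decide)
    omega
  · simp only [Fin.mk_one] at ha
    rw [e1] at ha
    have h0' := h0 (by decide)
    have h2' := h2 (by decide)
    omega
  · simp only [Fin.reduceFinMk] at ha
    rw [e2] at ha
    have h0' := h0 (by decide)
    have h1' := h1 (by decide)
    omega

theorem exists_mk {b v : Fin 3 → ℤ} {L c : ℤ} (hL : 0 ≤ L) (hb : b 2 = 0)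
    (ht : tile L v = b) (hv : c + 2 ≤ v 2) :
    ∃ x y z : ℤ, v = mk b L c x y z ∧ 0 ≤ x ∧ x ≤ L + 3 ∧ 0 ≤ y ∧ y ≤ L + 3 ∧ 0 ≤ z ∧
      c + 2 + z ≤ L + 3 := by
  have h0 : v 0 / (L + 4) = b 0 := congrFun ht 0
  have h1 : v 1 / (L + 4) = b 1 := congrFun ht 1
  have h2 : v 2 / (L + 4) = b 2 := congrFun ht 2
  have e0 := Int.mul_ediv_add_emod (v 0) (L + 4)
  have e1 := Int.mul_ediv_add_emod (v 1) (L + 4)
  have e2 := Int.mul_ediv_add_emod (v 2) (L + 4)
  have f0 := Int.emod_nonneg (v 0) (by omega : L + 4 ≠ 0)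
  have f1 := Int.emod_nonneg (v 1) (by omega : L + 4 ≠ 0)
  have g0 := Int.emod_lt_of_pos (v 0) (by omega : 0 < L + 4)
  have g1 := Int.emod_lt_of_pos (v 1) (by omega : 0 < L + 4)
  have g2 := Int.emod_lt_of_pos (v 2) (by omega : 0 < L + 4)
  rw [h2, hb, mul_zero] at e2
  refine ⟨v 0 % (L + 4), v 1 % (L + 4), v 2 - (c + 2), ?_, f0, by omega, f1, by omega, by omega,
    by omega⟩
  funext i
  unfold mk
  fin_cases i
  · simp; rw [← h0]; linarith
  · simp; rw [← h1]; linarith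
  · simp

/-- coordinate -/
def wx (l t N M j : ℕ) : ℤ :=
  if j < 1 * N then (0) else
  if j < 1 * N + 1 then (0) else
  if j < 1 * N + 2 then (0) else
  if j < 1 * N + 3 then (1) else
  if j < 2 * N + 3 then (2 + sc (t + 1) (j - (1 * N + 3))) else
  if j < 2 * N + 4 then ((l : ℤ) + 2) else
  if j < 2 * N + 5 then ((l : ℤ) + 3) else
  if j < 2 * N + 6 then ((l : ℤ) + 3) else
  if j < 3 * N + 6 then ((l : ℤ) + 3) else
  if j < 3 * N + 7 then ((l : ℤ) + 3) else
  if j < 3 * N + 8 then ((l : ℤ) + 3) else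
  if j < 3 * N + 9 then ((l : ℤ) + 2) else
  if j < 4 * N + 9 then ((l : ℤ) + 1 - sc (t + 1) (j - (3 * N + 9))) else
  if j < 4 * N + 10 then (2) else
  if j < 4 * N + 11 then (2) else
  if j < 4 * N + 12 then (2) else
  if j < 4 * N + M + 12 then (2 + sc l (j - (4 * N + 12))) else
  ((l : ℤ) + 1)

/-- coordinate -/
def wy (l t N M j : ℕ) : ℤ :=
  if j < 1 * N then (2 + sc (t + 1) (j - (0))) else
  if j < 1 * N + 1 then ((l : ℤ) + 2) else
  if j < 1 * N + 2 then ((l : ℤ) + 3) else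
  if j < 1 * N + 3 then ((l : ℤ) + 3) else
  if j < 2 * N + 3 then ((l : ℤ) + 3) else
  if j < 2 * N + 4 then ((l : ℤ) + 3) else
  if j < 2 * N + 5 then ((l : ℤ) + 3) else
  if j < 2 * N + 6 then ((l : ℤ) + 2) else
  if j < 3 * N + 6 then ((l : ℤ) + 1 - sc (t + 1) (j - (2 * N + 6))) else
  if j < 3 * N + 7 then (1) else
  if j < 3 * N + 8 then (0) else
  if j < 3 * N + 9 then (0) else
  if j < 4 * N + 9 then (0) else
  if j < 4 * N + 10 then (0) else
  if j < 4 * N + 11 then (0) else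
  if j < 4 * N + 12 then (1) else
  if j < 4 * N + M + 12 then (2 + sa l (j - (4 * N + 12))) else
  (1)

/-- coordinate -/
def wz (l t N M j : ℕ) : ℤ :=
  if j < 1 * N then ((t : ℤ) - sa (t + 1) (j - (0))) else
  if j < 1 * N + 1 then ((t : ℤ)) else
  if j < 1 * N + 2 then ((t : ℤ)) else
  if j < 1 * N + 3 then ((t : ℤ)) else
  if j < 2 * N + 3 then ((t : ℤ) - sa (t + 1) (j - (1 * N + 3))) else
  if j < 2 * N + 4 then ((t : ℤ)) else
  if j < 2 * N + 5 then ((t : ℤ)) else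
  if j < 2 * N + 6 then ((t : ℤ)) else
  if j < 3 * N + 6 then ((t : ℤ) - sa (t + 1) (j - (2 * N + 6))) else
  if j < 3 * N + 7 then ((t : ℤ)) else
  if j < 3 * N + 8 then ((t : ℤ)) else
  if j < 3 * N + 9 then ((t : ℤ)) else
  if j < 4 * N + 9 then ((t : ℤ) - sa (t + 1) (j - (3 * N + 9))) else
  if j < 4 * N + 10 then ((t : ℤ) + 1) else
  if j < 4 * N + 11 then ((t : ℤ) + 2) else
  if j < 4 * N + 12 then ((t : ℤ) + 2) else
  if j < 4 * N + M + 12 then ((t : ℤ) + 2) else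
  ((t : ℤ) + 2)

theorem w_cases (l t N M j : ℕ) (hj : j < 4 * N + M + 13) :
    (∃ i, i < N ∧ j = 0 + i ∧ wx l t N M j = (0) ∧ wy l t N M j = (2 + sc (t + 1) i) ∧
      wz l t N M j = ((t : ℤ) - sa (t + 1) i)) ∨
    (∃ i, i < 1 ∧ j = 1 * N + i ∧ wx l t N M j = (0) ∧ wy l t N M j = ((l : ℤ) + 2) ∧
      wz l t N M j = ((t : ℤ))) ∨
    (∃ i, i < 1 ∧ j = 1 * N + 1 + i ∧ wx l t N M j = (0) ∧ wy l t N M j = ((l : ℤ) + 3) ∧
      wz l t N M j = ((t : ℤ))) ∨
    (∃ i, i < 1 ∧ j = 1 * N + 2 + i ∧ wx l t N M j = (1) ∧ wy l t N M j = ((l : ℤ) + 3) ∧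
      wz l t N M j = ((t : ℤ))) ∨
    (∃ i, i < N ∧ j = 1 * N + 3 + i ∧ wx l t N M j = (2 + sc (t + 1) i) ∧ wy l t N M j = ((l : ℤ) + 3) ∧
      wz l t N M j = ((t : ℤ) - sa (t + 1) i)) ∨
    (∃ i, i < 1 ∧ j = 2 * N + 3 + i ∧ wx l t N M j = ((l : ℤ) + 2) ∧ wy l t N M j = ((l : ℤ) + 3) ∧
      wz l t N M j = ((t : ℤ))) ∨
    (∃ i, i < 1 ∧ j = 2 * N + 4 + i ∧ wx l t N M j = ((l : ℤ) + 3) ∧ wy l t N M j = ((l : ℤ) + 3) ∧
      wz l t N M j = ((t : ℤ))) ∨
    (∃ i, i < 1 ∧ j = 2 * N + 5 + i ∧ wx l t N M j = ((l : ℤ) + 3) ∧ wy l t N M j = ((l : ℤ) + 2) ∧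
      wz l t N M j = ((t : ℤ))) ∨
    (∃ i, i < N ∧ j = 2 * N + 6 + i ∧ wx l t N M j = ((l : ℤ) + 3) ∧ wy l t N M j = ((l : ℤ) + 1 - sc (t + 1) i) ∧
      wz l t N M j = ((t : ℤ) - sa (t + 1) i)) ∨
    (∃ i, i < 1 ∧ j = 3 * N + 6 + i ∧ wx l t N M j = ((l : ℤ) + 3) ∧ wy l t N M j = (1) ∧
      wz l t N M j = ((t : ℤ))) ∨
    (∃ i, i < 1 ∧ j = 3 * N + 7 + i ∧ wx l t N M j = ((l : ℤ) + 3) ∧ wy l t N M j = (0) ∧
      wz l t N M j = ((t : ℤ))) ∨
    (∃ i, i < 1 ∧ j = 3 * N + 8 + i ∧ wx l t N M j = ((l : ℤ) + 2) ∧ wy l t N M j = (0) ∧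
      wz l t N M j = ((t : ℤ))) ∨
    (∃ i, i < N ∧ j = 3 * N + 9 + i ∧ wx l t N M j = ((l : ℤ) + 1 - sc (t + 1) i) ∧ wy l t N M j = (0) ∧
      wz l t N M j = ((t : ℤ) - sa (t + 1) i)) ∨
    (∃ i, i < 1 ∧ j = 4 * N + 9 + i ∧ wx l t N M j = (2) ∧ wy l t N M j = (0) ∧
      wz l t N M j = ((t : ℤ) + 1)) ∨
    (∃ i, i < 1 ∧ j = 4 * N + 10 + i ∧ wx l t N M j = (2) ∧ wy l t N M j = (0) ∧
      wz l t N M j = ((t : ℤ) + 2)) ∨
    (∃ i, i < 1 ∧ j = 4 * N + 11 + i ∧ wx l t N M j = (2) ∧ wy l t N M j = (1) ∧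
      wz l t N M j = ((t : ℤ) + 2)) ∨
    (∃ i, i < M ∧ j = 4 * N + 12 + i ∧ wx l t N M j = (2 + sc l i) ∧ wy l t N M j = (2 + sa l i) ∧
      wz l t N M j = ((t : ℤ) + 2)) ∨
    (∃ i, i < 1 ∧ j = 4 * N + M + 12 + i ∧ wx l t N M j = ((l : ℤ) + 1) ∧ wy l t N M j = (1) ∧
      wz l t N M j = ((t : ℤ) + 2)) := by
  by_cases h0 : j < 1 * N
  · refine Or.inl <| ⟨j - (0), by omega, by omega, ?_, ?_, ?_⟩
    · unfold wx; rw [ if_pos h0]
    · unfold wy; rw [ if_pos h0]
    · unfold wz; rw [ if_pos h0]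
  by_cases h1 : j < 1 * N + 1
  · refine Or.inr <| Or.inl <| ⟨j - (1 * N), by omega, by omega, ?_, ?_, ?_⟩
    · unfold wx; rw [if_neg h0, if_pos h1]
    · unfold wy; rw [if_neg h0, if_pos h1]
    · unfold wz; rw [if_neg h0, if_pos h1]
  by_cases h2 : j < 1 * N + 2
  · refine Or.inr <| Or.inr <| Or.inl <| ⟨j - (1 * N + 1), by omega, by omega, ?_, ?_, ?_⟩
    · unfold wx; rw [if_neg h0, if_neg h1, if_pos h2]
    · unfold wy; rw [if_neg h0, if_neg h1, if_pos h2]
    · unfold wz; rw [if_neg h0, if_neg h1, if_pos h2]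
  by_cases h3 : j < 1 * N + 3
  · refine Or.inr <| Or.inr <| Or.inr <| Or.inl <| ⟨j - (1 * N + 2), by omega, by omega, ?_, ?_, ?_⟩
    · unfold wx; rw [if_neg h0, if_neg h1, if_neg h2, if_pos h3]
    · unfold wy; rw [if_neg h0, if_neg h1, if_neg h2, if_pos h3]
    · unfold wz; rw [if_neg h0, if_neg h1, if_neg h2, if_pos h3]
  by_cases h4 : j < 2 * N + 3
  · refine Or.inr <| Or.inr <| Or.inr <| Or.inr <| Or.inl <| ⟨j - (1 * N + 3), by omega, by omega, ?_, ?_, ?_⟩
    · unfold wx; rw [if_neg h0, if_neg h1, if_neg h2, if_neg h3, if_pos h4]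
    · unfold wy; rw [if_neg h0, if_neg h1, if_neg h2, if_neg h3, if_pos h4]
    · unfold wz; rw [if_neg h0, if_neg h1, if_neg h2, if_neg h3, if_pos h4]
  by_cases h5 : j < 2 * N + 4
  · refine Or.inr <| Or.inr <| Or.inr <| Or.inr <| Or.inr <| Or.inl <| ⟨j - (2 * N + 3), by omega, by omega, ?_, ?_, ?_⟩
    · unfold wx; rw [if_neg h0, if_neg h1, if_neg h2, if_neg h3, if_neg h4, if_pos h5]
    · unfold wy; rw [if_neg h0, if_neg h1, if_neg h2, if_neg h3, if_neg h4, if_pos h5]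
    · unfold wz; rw [if_neg h0, if_neg h1, if_neg h2, if_neg h3, if_neg h4, if_pos h5]
  by_cases h6 : j < 2 * N + 5
  · refine Or.inr <| Or.inr <| Or.inr <| Or.inr <| Or.inr <| Or.inr <| Or.inl <| ⟨j - (2 * N + 4), by omega, by omega, ?_, ?_, ?_⟩
    · unfold wx; rw [if_neg h0, if_neg h1, if_neg h2, if_neg h3, if_neg h4, if_neg h5, if_pos h6]
    · unfold wy; rw [if_neg h0, if_neg h1, if_neg h2, if_neg h3, if_neg h4, if_neg h5, if_pos h6]
    · unfold wz; rw [if_neg h0, if_neg h1, if_neg h2, if_neg h3, if_neg h4, if_neg h5, if_pos h6]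
  by_cases h7 : j < 2 * N + 6
  · refine Or.inr <| Or.inr <| Or.inr <| Or.inr <| Or.inr <| Or.inr <| Or.inr <| Or.inl <| ⟨j - (2 * N + 5), by omega, by omega, ?_, ?_, ?_⟩
    · unfold wx; rw [if_neg h0, if_neg h1, if_neg h2, if_neg h3, if_neg h4, if_neg h5, if_neg h6, if_pos h7]
    · unfold wy; rw [if_neg h0, if_neg h1, if_neg h2, if_neg h3, if_neg h4, if_neg h5, if_neg h6, if_pos h7]
    · unfold wz; rw [if_neg h0, if_neg h1, if_neg h2, if_neg h3, if_neg h4, if_neg h5, if_neg h6, if_pos h7]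
  by_cases h8 : j < 3 * N + 6
  · refine Or.inr <| Or.inr <| Or.inr <| Or.inr <| Or.inr <| Or.inr <| Or.inr <| Or.inr <| Or.inl <| ⟨j - (2 * N + 6), by omega, by omega, ?_, ?_, ?_⟩
    · unfold wx; rw [if_neg h0, if_neg h1, if_neg h2, if_neg h3, if_neg h4, if_neg h5, if_neg h6, if_neg h7, if_pos h8]
    · unfold wy; rw [if_neg h0, if_neg h1, if_neg h2, if_neg h3, if_neg h4, if_neg h5, if_neg h6, if_neg h7, if_pos h8]
    · unfold wz; rw [if_neg h0, if_neg h1, if_neg h2, if_neg h3, if_neg h4, if_neg h5, if_neg h6, if_neg h7, if_pos h8]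
  by_cases h9 : j < 3 * N + 7
  · refine Or.inr <| Or.inr <| Or.inr <| Or.inr <| Or.inr <| Or.inr <| Or.inr <| Or.inr <| Or.inr <| Or.inl <| ⟨j - (3 * N + 6), by omega, by omega, ?_, ?_, ?_⟩
    · unfold wx; rw [if_neg h0, if_neg h1, if_neg h2, if_neg h3, if_neg h4, if_neg h5, if_neg h6, if_neg h7, if_neg h8, if_pos h9]
    · unfold wy; rw [if_neg h0, if_neg h1, if_neg h2, if_neg h3, if_neg h4, if_neg h5, if_neg h6, if_neg h7, if_neg h8, if_pos h9]
    · unfold wz; rw [if_neg h0, if_neg h1, if_neg h2, if_neg h3, if_neg h4, if_neg h5, if_neg h6, if_neg h7, if_neg h8, if_pos h9]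
  by_cases h10 : j < 3 * N + 8
  · refine Or.inr <| Or.inr <| Or.inr <| Or.inr <| Or.inr <| Or.inr <| Or.inr <| Or.inr <| Or.inr <| Or.inr <| Or.inl <| ⟨j - (3 * N + 7), by omega, by omega, ?_, ?_, ?_⟩
    · unfold wx; rw [if_neg h0, if_neg h1, if_neg h2, if_neg h3, if_neg h4, if_neg h5, if_neg h6, if_neg h7, if_neg h8, if_neg h9, if_pos h10]
    · unfold wy; rw [if_neg h0, if_neg h1, if_neg h2, if_neg h3, if_neg h4, if_neg h5, if_neg h6, if_neg h7, if_neg h8, if_neg h9, if_pos h10]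
    · unfold wz; rw [if_neg h0, if_neg h1, if_neg h2, if_neg h3, if_neg h4, if_neg h5, if_neg h6, if_neg h7, if_neg h8, if_neg h9, if_pos h10]
  by_cases h11 : j < 3 * N + 9
  · refine Or.inr <| Or.inr <| Or.inr <| Or.inr <| Or.inr <| Or.inr <| Or.inr <| Or.inr <| Or.inr <| Or.inr <| Or.inr <| Or.inl <| ⟨j - (3 * N + 8), by omega, by omega, ?_, ?_, ?_⟩
    · unfold wx; rw [if_neg h0, if_neg h1, if_neg h2, if_neg h3, if_neg h4, if_neg h5, if_neg h6, if_neg h7, if_neg h8, if_neg h9, if_neg h10, if_pos h11]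
    · unfold wy; rw [if_neg h0, if_neg h1, if_neg h2, if_neg h3, if_neg h4, if_neg h5, if_neg h6, if_neg h7, if_neg h8, if_neg h9, if_neg h10, if_pos h11]
    · unfold wz; rw [if_neg h0, if_neg h1, if_neg h2, if_neg h3, if_neg h4, if_neg h5, if_neg h6, if_neg h7, if_neg h8, if_neg h9, if_neg h10, if_pos h11]
  by_cases h12 : j < 4 * N + 9
  · refine Or.inr <| Or.inr <| Or.inr <| Or.inr <| Or.inr <| Or.inr <| Or.inr <| Or.inr <| Or.inr <| Or.inr <| Or.inr <| Or.inr <| Or.inl <| ⟨j - (3 * N + 9), by omega, by omega, ?_, ?_, ?_⟩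
    · unfold wx; rw [if_neg h0, if_neg h1, if_neg h2, if_neg h3, if_neg h4, if_neg h5, if_neg h6, if_neg h7, if_neg h8, if_neg h9, if_neg h10, if_neg h11, if_pos h12]
    · unfold wy; rw [if_neg h0, if_neg h1, if_neg h2, if_neg h3, if_neg h4, if_neg h5, if_neg h6, if_neg h7, if_neg h8, if_neg h9, if_neg h10, if_neg h11, if_pos h12]
    · unfold wz; rw [if_neg h0, if_neg h1, if_neg h2, if_neg h3, if_neg h4, if_neg h5, if_neg h6, if_neg h7, if_neg h8, if_neg h9, if_neg h10, if_neg h11, if_pos h12]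
  by_cases h13 : j < 4 * N + 10
  · refine Or.inr <| Or.inr <| Or.inr <| Or.inr <| Or.inr <| Or.inr <| Or.inr <| Or.inr <| Or.inr <| Or.inr <| Or.inr <| Or.inr <| Or.inr <| Or.inl <| ⟨j - (4 * N + 9), by omega, by omega, ?_, ?_, ?_⟩
    · unfold wx; rw [if_neg h0, if_neg h1, if_neg h2, if_neg h3, if_neg h4, if_neg h5, if_neg h6, if_neg h7, if_neg h8, if_neg h9, if_neg h10, if_neg h11, if_neg h12, if_pos h13]
    · unfold wy; rw [if_neg h0, if_neg h1, if_neg h2, if_neg h3, if_neg h4, if_neg h5, if_neg h6, if_neg h7, if_neg h8, if_neg h9, if_neg h10, if_neg h11, if_neg h12, if_pos h13]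
    · unfold wz; rw [if_neg h0, if_neg h1, if_neg h2, if_neg h3, if_neg h4, if_neg h5, if_neg h6, if_neg h7, if_neg h8, if_neg h9, if_neg h10, if_neg h11, if_neg h12, if_pos h13]
  by_cases h14 : j < 4 * N + 11
  · refine Or.inr <| Or.inr <| Or.inr <| Or.inr <| Or.inr <| Or.inr <| Or.inr <| Or.inr <| Or.inr <| Or.inr <| Or.inr <| Or.inr <| Or.inr <| Or.inr <| Or.inl <| ⟨j - (4 * N + 10), by omega, by omega, ?_, ?_, ?_⟩
    · unfold wx; rw [if_neg h0, if_neg h1, if_neg h2, if_neg h3, if_neg h4, if_neg h5, if_neg h6, if_neg h7, if_neg h8, if_neg h9, if_neg h10, if_neg h11, if_neg h12, if_neg h13, if_pos h14]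
    · unfold wy; rw [if_neg h0, if_neg h1, if_neg h2, if_neg h3, if_neg h4, if_neg h5, if_neg h6, if_neg h7, if_neg h8, if_neg h9, if_neg h10, if_neg h11, if_neg h12, if_neg h13, if_pos h14]
    · unfold wz; rw [if_neg h0, if_neg h1, if_neg h2, if_neg h3, if_neg h4, if_neg h5, if_neg h6, if_neg h7, if_neg h8, if_neg h9, if_neg h10, if_neg h11, if_neg h12, if_neg h13, if_pos h14]
  by_cases h15 : j < 4 * N + 12
  · refine Or.inr <| Or.inr <| Or.inr <| Or.inr <| Or.inr <| Or.inr <| Or.inr <| Or.inr <| Or.inr <| Or.inr <| Or.inr <| Or.inr <| Or.inr <| Or.inr <| Or.inr <| Or.inl <| ⟨j - (4 * N + 11), by omega, by omega, ?_, ?_, ?_⟩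
    · unfold wx; rw [if_neg h0, if_neg h1, if_neg h2, if_neg h3, if_neg h4, if_neg h5, if_neg h6, if_neg h7, if_neg h8, if_neg h9, if_neg h10, if_neg h11, if_neg h12, if_neg h13, if_neg h14, if_pos h15]
    · unfold wy; rw [if_neg h0, if_neg h1, if_neg h2, if_neg h3, if_neg h4, if_neg h5, if_neg h6, if_neg h7, if_neg h8, if_neg h9, if_neg h10, if_neg h11, if_neg h12, if_neg h13, if_neg h14, if_pos h15]
    · unfold wz; rw [if_neg h0, if_neg h1, if_neg h2, if_neg h3, if_neg h4, if_neg h5, if_neg h6, if_neg h7, if_neg h8, if_neg h9, if_neg h10, if_neg h11, if_neg h12, if_neg h13, if_neg h14, if_pos h15]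
  by_cases h16 : j < 4 * N + M + 12
  · refine Or.inr <| Or.inr <| Or.inr <| Or.inr <| Or.inr <| Or.inr <| Or.inr <| Or.inr <| Or.inr <| Or.inr <| Or.inr <| Or.inr <| Or.inr <| Or.inr <| Or.inr <| Or.inr <| Or.inl <| ⟨j - (4 * N + 12), by omega, by omega, ?_, ?_, ?_⟩
    · unfold wx; rw [if_neg h0, if_neg h1, if_neg h2, if_neg h3, if_neg h4, if_neg h5, if_neg h6, if_neg h7, if_neg h8, if_neg h9, if_neg h10, if_neg h11, if_neg h12, if_neg h13, if_neg h14, if_neg h15, if_pos h16]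
    · unfold wy; rw [if_neg h0, if_neg h1, if_neg h2, if_neg h3, if_neg h4, if_neg h5, if_neg h6, if_neg h7, if_neg h8, if_neg h9, if_neg h10, if_neg h11, if_neg h12, if_neg h13, if_neg h14, if_neg h15, if_pos h16]
    · unfold wz; rw [if_neg h0, if_neg h1, if_neg h2, if_neg h3, if_neg h4, if_neg h5, if_neg h6, if_neg h7, if_neg h8, if_neg h9, if_neg h10, if_neg h11, if_neg h12, if_neg h13, if_neg h14, if_neg h15, if_pos h16]
  refine Or.inr <| Or.inr <| Or.inr <| Or.inr <| Or.inr <| Or.inr <| Or.inr <| Or.inr <| Or.inr <| Or.inr <| Or.inr <| Or.inr <| Or.inr <| Or.inr <| Or.inr <| Or.inr <| Or.inr <| ⟨j - (4 * N + M + 12), by omega, by omega, ?_, ?_, ?_⟩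
  · unfold wx; rw [if_neg h0, if_neg h1, if_neg h2, if_neg h3, if_neg h4, if_neg h5, if_neg h6, if_neg h7, if_neg h8, if_neg h9, if_neg h10, if_neg h11, if_neg h12, if_neg h13, if_neg h14, if_neg h15, if_neg h16]
  · unfold wy; rw [if_neg h0, if_neg h1, if_neg h2, if_neg h3, if_neg h4, if_neg h5, if_neg h6, if_neg h7, if_neg h8, if_neg h9, if_neg h10, if_neg h11, if_neg h12, if_neg h13, if_neg h14, if_neg h15, if_neg h16]
  · unfold wz; rw [if_neg h0, if_neg h1, if_neg h2, if_neg h3, if_neg h4, if_neg h5, if_neg h6, if_neg h7, if_neg h8, if_neg h9, if_neg h10, if_neg h11, if_neg h12, if_neg h13, if_neg h14, if_neg h15, if_neg h16]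

theorem w_s0 (l t N M i : ℕ) (hi : i < N) :
    wx l t N M (0 + i) = (0) ∧ wy l t N M (0 + i) = (2 + sc (t + 1) i) ∧
      wz l t N M (0 + i) = ((t : ℤ) - sa (t + 1) i) := by
  have e : 0 + i - (0) = i := by omega
  refine ⟨?_, ?_, ?_⟩
  · unfold wx; rw [if_pos (by omega)] <;> simp only [e]
  · unfold wy; rw [if_pos (by omega)] <;> simp only [e]
  · unfold wz; rw [if_pos (by omega)] <;> simp only [e]

theorem w_k00 (l t N M i : ℕ) (hi : i < 1) :
    wx l t N M (1 * N + i) = (0) ∧ wy l t N M (1 * N + i) = ((l : ℤ) + 2) ∧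
      wz l t N M (1 * N + i) = ((t : ℤ)) := by
  have e : 1 * N + i - (1 * N) = i := by omega
  refine ⟨?_, ?_, ?_⟩
  · unfold wx; rw [if_neg (by omega), if_pos (by omega)] <;> simp only [e]
  · unfold wy; rw [if_neg (by omega), if_pos (by omega)] <;> simp only [e]
  · unfold wz; rw [if_neg (by omega), if_pos (by omega)] <;> simp only [e]

theorem w_k01 (l t N M i : ℕ) (hi : i < 1) :
    wx l t N M (1 * N + 1 + i) = (0) ∧ wy l t N M (1 * N + 1 + i) = ((l : ℤ) + 3) ∧
      wz l t N M (1 * N + 1 + i) = ((t : ℤ)) := by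
  have e : 1 * N + 1 + i - (1 * N + 1) = i := by omega
  refine ⟨?_, ?_, ?_⟩
  · unfold wx; rw [if_neg (by omega), if_neg (by omega), if_pos (by omega)] <;> simp only [e]
  · unfold wy; rw [if_neg (by omega), if_neg (by omega), if_pos (by omega)] <;> simp only [e]
  · unfold wz; rw [if_neg (by omega), if_neg (by omega), if_pos (by omega)] <;> simp only [e]

theorem w_k02 (l t N M i : ℕ) (hi : i < 1) :
    wx l t N M (1 * N + 2 + i) = (1) ∧ wy l t N M (1 * N + 2 + i) = ((l : ℤ) + 3) ∧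
      wz l t N M (1 * N + 2 + i) = ((t : ℤ)) := by
  have e : 1 * N + 2 + i - (1 * N + 2) = i := by omega
  refine ⟨?_, ?_, ?_⟩
  · unfold wx; rw [if_neg (by omega), if_neg (by omega), if_neg (by omega), if_pos (by omega)] <;> simp only [e]
  · unfold wy; rw [if_neg (by omega), if_neg (by omega), if_neg (by omega), if_pos (by omega)] <;> simp only [e]
  · unfold wz; rw [if_neg (by omega), if_neg (by omega), if_neg (by omega), if_pos (by omega)] <;> simp only [e]

theorem w_s1 (l t N M i : ℕ) (hi : i < N) :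
    wx l t N M (1 * N + 3 + i) = (2 + sc (t + 1) i) ∧ wy l t N M (1 * N + 3 + i) = ((l : ℤ) + 3) ∧
      wz l t N M (1 * N + 3 + i) = ((t : ℤ) - sa (t + 1) i) := by
  have e : 1 * N + 3 + i - (1 * N + 3) = i := by omega
  refine ⟨?_, ?_, ?_⟩
  · unfold wx; rw [if_neg (by omega), if_neg (by omega), if_neg (by omega), if_neg (by omega), if_pos (by omega)] <;> simp only [e]
  · unfold wy; rw [if_neg (by omega), if_neg (by omega), if_neg (by omega), if_neg (by omega), if_pos (by omega)] <;> simp only [e]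
  · unfold wz; rw [if_neg (by omega), if_neg (by omega), if_neg (by omega), if_neg (by omega), if_pos (by omega)] <;> simp only [e]

theorem w_k10 (l t N M i : ℕ) (hi : i < 1) :
    wx l t N M (2 * N + 3 + i) = ((l : ℤ) + 2) ∧ wy l t N M (2 * N + 3 + i) = ((l : ℤ) + 3) ∧
      wz l t N M (2 * N + 3 + i) = ((t : ℤ)) := by
  have e : 2 * N + 3 + i - (2 * N + 3) = i := by omega
  refine ⟨?_, ?_, ?_⟩
  · unfold wx; rw [if_neg (by omega), if_neg (by omega), if_neg (by omega), if_neg (by omega), if_neg (by omega), if_pos (by omega)] <;> simp only [e]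
  · unfold wy; rw [if_neg (by omega), if_neg (by omega), if_neg (by omega), if_neg (by omega), if_neg (by omega), if_pos (by omega)] <;> simp only [e]
  · unfold wz; rw [if_neg (by omega), if_neg (by omega), if_neg (by omega), if_neg (by omega), if_neg (by omega), if_pos (by omega)] <;> simp only [e]

theorem w_k11 (l t N M i : ℕ) (hi : i < 1) :
    wx l t N M (2 * N + 4 + i) = ((l : ℤ) + 3) ∧ wy l t N M (2 * N + 4 + i) = ((l : ℤ) + 3) ∧
      wz l t N M (2 * N + 4 + i) = ((t : ℤ)) := by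
  have e : 2 * N + 4 + i - (2 * N + 4) = i := by omega
  refine ⟨?_, ?_, ?_⟩
  · unfold wx; rw [if_neg (by omega), if_neg (by omega), if_neg (by omega), if_neg (by omega), if_neg (by omega), if_neg (by omega), if_pos (by omega)] <;> simp only [e]
  · unfold wy; rw [if_neg (by omega), if_neg (by omega), if_neg (by omega), if_neg (by omega), if_neg (by omega), if_neg (by omega), if_pos (by omega)] <;> simp only [e]
  · unfold wz; rw [if_neg (by omega), if_neg (by omega), if_neg (by omega), if_neg (by omega), if_neg (by omega), if_neg (by omega), if_pos (by omega)] <;> simp only [e]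

theorem w_k12 (l t N M i : ℕ) (hi : i < 1) :
    wx l t N M (2 * N + 5 + i) = ((l : ℤ) + 3) ∧ wy l t N M (2 * N + 5 + i) = ((l : ℤ) + 2) ∧
      wz l t N M (2 * N + 5 + i) = ((t : ℤ)) := by
  have e : 2 * N + 5 + i - (2 * N + 5) = i := by omega
  refine ⟨?_, ?_, ?_⟩
  · unfold wx; rw [if_neg (by omega), if_neg (by omega), if_neg (by omega), if_neg (by omega), if_neg (by omega), if_neg (by omega), if_neg (by omega), if_pos (by omega)] <;> simp only [e]
  · unfold wy; rw [if_neg (by omega), if_neg (by omega), if_neg (by omega), if_neg (by omega), if_neg (by omega), if_neg (by omega), if_neg (by omega), if_pos (by omega)] <;> simp only [e]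
  · unfold wz; rw [if_neg (by omega), if_neg (by omega), if_neg (by omega), if_neg (by omega), if_neg (by omega), if_neg (by omega), if_neg (by omega), if_pos (by omega)] <;> simp only [e]

theorem w_s2 (l t N M i : ℕ) (hi : i < N) :
    wx l t N M (2 * N + 6 + i) = ((l : ℤ) + 3) ∧ wy l t N M (2 * N + 6 + i) = ((l : ℤ) + 1 - sc (t + 1) i) ∧
      wz l t N M (2 * N + 6 + i) = ((t : ℤ) - sa (t + 1) i) := by
  have e : 2 * N + 6 + i - (2 * N + 6) = i := by omega
  refine ⟨?_, ?_, ?_⟩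
  · unfold wx; rw [if_neg (by omega), if_neg (by omega), if_neg (by omega), if_neg (by omega), if_neg (by omega), if_neg (by omega), if_neg (by omega), if_neg (by omega), if_pos (by omega)] <;> simp only [e]
  · unfold wy; rw [if_neg (by omega), if_neg (by omega), if_neg (by omega), if_neg (by omega), if_neg (by omega), if_neg (by omega), if_neg (by omega), if_neg (by omega), if_pos (by omega)] <;> simp only [e]
  · unfold wz; rw [if_neg (by omega), if_neg (by omega), if_neg (by omega), if_neg (by omega), if_neg (by omega), if_neg (by omega), if_neg (by omega), if_neg (by omega), if_pos (by omega)] <;> simp only [e]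

theorem w_k20 (l t N M i : ℕ) (hi : i < 1) :
    wx l t N M (3 * N + 6 + i) = ((l : ℤ) + 3) ∧ wy l t N M (3 * N + 6 + i) = (1) ∧
      wz l t N M (3 * N + 6 + i) = ((t : ℤ)) := by
  have e : 3 * N + 6 + i - (3 * N + 6) = i := by omega
  refine ⟨?_, ?_, ?_⟩
  · unfold wx; rw [if_neg (by omega), if_neg (by omega), if_neg (by omega), if_neg (by omega), if_neg (by omega), if_neg (by omega), if_neg (by omega), if_neg (by omega), if_neg (by omega), if_pos (by omega)] <;> simp only [e]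
  · unfold wy; rw [if_neg (by omega), if_neg (by omega), if_neg (by omega), if_neg (by omega), if_neg (by omega), if_neg (by omega), if_neg (by omega), if_neg (by omega), if_neg (by omega), if_pos (by omega)] <;> simp only [e]
  · unfold wz; rw [if_neg (by omega), if_neg (by omega), if_neg (by omega), if_neg (by omega), if_neg (by omega), if_neg (by omega), if_neg (by omega), if_neg (by omega), if_neg (by omega), if_pos (by omega)] <;> simp only [e]

theorem w_k21 (l t N M i : ℕ) (hi : i < 1) :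
    wx l t N M (3 * N + 7 + i) = ((l : ℤ) + 3) ∧ wy l t N M (3 * N + 7 + i) = (0) ∧
      wz l t N M (3 * N + 7 + i) = ((t : ℤ)) := by
  have e : 3 * N + 7 + i - (3 * N + 7) = i := by omega
  refine ⟨?_, ?_, ?_⟩
  · unfold wx; rw [if_neg (by omega), if_neg (by omega), if_neg (by omega), if_neg (by omega), if_neg (by omega), if_neg (by omega), if_neg (by omega), if_neg (by omega), if_neg (by omega), if_neg (by omega), if_pos (by omega)] <;> simp only [e]
  · unfold wy; rw [if_neg (by omega), if_neg (by omega), if_neg (by omega), if_neg (by omega), if_neg (by omega), if_neg (by omega), if_neg (by omega), if_neg (by omega), if_neg (by omega), if_neg (by omega), if_pos (by omega)] <;> simp only [e]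
  · unfold wz; rw [if_neg (by omega), if_neg (by omega), if_neg (by omega), if_neg (by omega), if_neg (by omega), if_neg (by omega), if_neg (by omega), if_neg (by omega), if_neg (by omega), if_neg (by omega), if_pos (by omega)] <;> simp only [e]

theorem w_k22 (l t N M i : ℕ) (hi : i < 1) :
    wx l t N M (3 * N + 8 + i) = ((l : ℤ) + 2) ∧ wy l t N M (3 * N + 8 + i) = (0) ∧
      wz l t N M (3 * N + 8 + i) = ((t : ℤ)) := by
  have e : 3 * N + 8 + i - (3 * N + 8) = i := by omega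
  refine ⟨?_, ?_, ?_⟩
  · unfold wx; rw [if_neg (by omega), if_neg (by omega), if_neg (by omega), if_neg (by omega), if_neg (by omega), if_neg (by omega), if_neg (by omega), if_neg (by omega), if_neg (by omega), if_neg (by omega), if_neg (by omega), if_pos (by omega)] <;> simp only [e]
  · unfold wy; rw [if_neg (by omega), if_neg (by omega), if_neg (by omega), if_neg (by omega), if_neg (by omega), if_neg (by omega), if_neg (by omega), if_neg (by omega), if_neg (by omega), if_neg (by omega), if_neg (by omega), if_pos (by omega)] <;> simp only [e]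
  · unfold wz; rw [if_neg (by omega), if_neg (by omega), if_neg (by omega), if_neg (by omega), if_neg (by omega), if_neg (by omega), if_neg (by omega), if_neg (by omega), if_neg (by omega), if_neg (by omega), if_neg (by omega), if_pos (by omega)] <;> simp only [e]

theorem w_s3 (l t N M i : ℕ) (hi : i < N) :
    wx l t N M (3 * N + 9 + i) = ((l : ℤ) + 1 - sc (t + 1) i) ∧ wy l t N M (3 * N + 9 + i) = (0) ∧
      wz l t N M (3 * N + 9 + i) = ((t : ℤ) - sa (t + 1) i) := by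
  have e : 3 * N + 9 + i - (3 * N + 9) = i := by omega
  refine ⟨?_, ?_, ?_⟩
  · unfold wx; rw [if_neg (by omega), if_neg (by omega), if_neg (by omega), if_neg (by omega), if_neg (by omega), if_neg (by omega), if_neg (by omega), if_neg (by omega), if_neg (by omega), if_neg (by omega), if_neg (by omega), if_neg (by omega), if_pos (by omega)] <;> simp only [e]
  · unfold wy; rw [if_neg (by omega), if_neg (by omega), if_neg (by omega), if_neg (by omega), if_neg (by omega), if_neg (by omega), if_neg (by omega), if_neg (by omega), if_neg (by omega), if_neg (by omega), if_neg (by omega), if_neg (by omega), if_pos (by omega)] <;> simp only [e]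
  · unfold wz; rw [if_neg (by omega), if_neg (by omega), if_neg (by omega), if_neg (by omega), if_neg (by omega), if_neg (by omega), if_neg (by omega), if_neg (by omega), if_neg (by omega), if_neg (by omega), if_neg (by omega), if_neg (by omega), if_pos (by omega)] <;> simp only [e]

theorem w_k30 (l t N M i : ℕ) (hi : i < 1) :
    wx l t N M (4 * N + 9 + i) = (2) ∧ wy l t N M (4 * N + 9 + i) = (0) ∧
      wz l t N M (4 * N + 9 + i) = ((t : ℤ) + 1) := by
  have e : 4 * N + 9 + i - (4 * N + 9) = i := by omega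
  refine ⟨?_, ?_, ?_⟩
  · unfold wx; rw [if_neg (by omega), if_neg (by omega), if_neg (by omega), if_neg (by omega), if_neg (by omega), if_neg (by omega), if_neg (by omega), if_neg (by omega), if_neg (by omega), if_neg (by omega), if_neg (by omega), if_neg (by omega), if_neg (by omega), if_pos (by omega)] <;> simp only [e]
  · unfold wy; rw [if_neg (by omega), if_neg (by omega), if_neg (by omega), if_neg (by omega), if_neg (by omega), if_neg (by omega), if_neg (by omega), if_neg (by omega), if_neg (by omega), if_neg (by omega), if_neg (by omega), if_neg (by omega), if_neg (by omega), if_pos (by omega)] <;> simp only [e]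
  · unfold wz; rw [if_neg (by omega), if_neg (by omega), if_neg (by omega), if_neg (by omega), if_neg (by omega), if_neg (by omega), if_neg (by omega), if_neg (by omega), if_neg (by omega), if_neg (by omega), if_neg (by omega), if_neg (by omega), if_neg (by omega), if_pos (by omega)] <;> simp only [e]

theorem w_k31 (l t N M i : ℕ) (hi : i < 1) :
    wx l t N M (4 * N + 10 + i) = (2) ∧ wy l t N M (4 * N + 10 + i) = (0) ∧
      wz l t N M (4 * N + 10 + i) = ((t : ℤ) + 2) := by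
  have e : 4 * N + 10 + i - (4 * N + 10) = i := by omega
  refine ⟨?_, ?_, ?_⟩
  · unfold wx; rw [if_neg (by omega), if_neg (by omega), if_neg (by omega), if_neg (by omega), if_neg (by omega), if_neg (by omega), if_neg (by omega), if_neg (by omega), if_neg (by omega), if_neg (by omega), if_neg (by omega), if_neg (by omega), if_neg (by omega), if_neg (by omega), if_pos (by omega)] <;> simp only [e]
  · unfold wy; rw [if_neg (by omega), if_neg (by omega), if_neg (by omega), if_neg (by omega), if_neg (by omega), if_neg (by omega), if_neg (by omega), if_neg (by omega), if_neg (by omega), if_neg (by omega), if_neg (by omega), if_neg (by omega), if_neg (by omega), if_neg (by omega), if_pos (by omega)] <;> simp only [e]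
  · unfold wz; rw [if_neg (by omega), if_neg (by omega), if_neg (by omega), if_neg (by omega), if_neg (by omega), if_neg (by omega), if_neg (by omega), if_neg (by omega), if_neg (by omega), if_neg (by omega), if_neg (by omega), if_neg (by omega), if_neg (by omega), if_neg (by omega), if_pos (by omega)] <;> simp only [e]

theorem w_k32 (l t N M i : ℕ) (hi : i < 1) :
    wx l t N M (4 * N + 11 + i) = (2) ∧ wy l t N M (4 * N + 11 + i) = (1) ∧
      wz l t N M (4 * N + 11 + i) = ((t : ℤ) + 2) := by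
  have e : 4 * N + 11 + i - (4 * N + 11) = i := by omega
  refine ⟨?_, ?_, ?_⟩
  · unfold wx; rw [if_neg (by omega), if_neg (by omega), if_neg (by omega), if_neg (by omega), if_neg (by omega), if_neg (by omega), if_neg (by omega), if_neg (by omega), if_neg (by omega), if_neg (by omega), if_neg (by omega), if_neg (by omega), if_neg (by omega), if_neg (by omega), if_neg (by omega), if_pos (by omega)] <;> simp only [e]
  · unfold wy; rw [if_neg (by omega), if_neg (by omega), if_neg (by omega), if_neg (by omega), if_neg (by omega), if_neg (by omega), if_neg (by omega), if_neg (by omega), if_neg (by omega), if_neg (by omega), if_neg (by omega), if_neg (by omega), if_neg (by omega), if_neg (by omega), if_neg (by omega), if_pos (by omega)] <;> simp only [e]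
  · unfold wz; rw [if_neg (by omega), if_neg (by omega), if_neg (by omega), if_neg (by omega), if_neg (by omega), if_neg (by omega), if_neg (by omega), if_neg (by omega), if_neg (by omega), if_neg (by omega), if_neg (by omega), if_neg (by omega), if_neg (by omega), if_neg (by omega), if_neg (by omega), if_pos (by omega)] <;> simp only [e]

theorem w_s4 (l t N M i : ℕ) (hi : i < M) :
    wx l t N M (4 * N + 12 + i) = (2 + sc l i) ∧ wy l t N M (4 * N + 12 + i) = (2 + sa l i) ∧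
      wz l t N M (4 * N + 12 + i) = ((t : ℤ) + 2) := by
  have e : 4 * N + 12 + i - (4 * N + 12) = i := by omega
  refine ⟨?_, ?_, ?_⟩
  · unfold wx; rw [if_neg (by omega), if_neg (by omega), if_neg (by omega), if_neg (by omega), if_neg (by omega), if_neg (by omega), if_neg (by omega), if_neg (by omega), if_neg (by omega), if_neg (by omega), if_neg (by omega), if_neg (by omega), if_neg (by omega), if_neg (by omega), if_neg (by omega), if_neg (by omega), if_pos (by omega)] <;> simp only [e]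
  · unfold wy; rw [if_neg (by omega), if_neg (by omega), if_neg (by omega), if_neg (by omega), if_neg (by omega), if_neg (by omega), if_neg (by omega), if_neg (by omega), if_neg (by omega), if_neg (by omega), if_neg (by omega), if_neg (by omega), if_neg (by omega), if_neg (by omega), if_neg (by omega), if_neg (by omega), if_pos (by omega)] <;> simp only [e]
  · unfold wz; rw [if_neg (by omega), if_neg (by omega), if_neg (by omega), if_neg (by omega), if_neg (by omega), if_neg (by omega), if_neg (by omega), if_neg (by omega), if_neg (by omega), if_neg (by omega), if_neg (by omega), if_neg (by omega), if_neg (by omega), if_neg (by omega), if_neg (by omega), if_neg (by omega), if_pos (by omega)] <;> simp only [e]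

theorem w_k4 (l t N M i : ℕ) (hi : i < 1) :
    wx l t N M (4 * N + M + 12 + i) = ((l : ℤ) + 1) ∧ wy l t N M (4 * N + M + 12 + i) = (1) ∧
      wz l t N M (4 * N + M + 12 + i) = ((t : ℤ) + 2) := by
  have e : 4 * N + M + 12 + i - (4 * N + M + 12) = i := by omega
  refine ⟨?_, ?_, ?_⟩
  · unfold wx; rw [if_neg (by omega), if_neg (by omega), if_neg (by omega), if_neg (by omega), if_neg (by omega), if_neg (by omega), if_neg (by omega), if_neg (by omega), if_neg (by omega), if_neg (by omega), if_neg (by omega), if_neg (by omega), if_neg (by omega), if_neg (by omega), if_neg (by omega), if_neg (by omega), if_neg (by omega)] <;> simp only [e]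
  · unfold wy; rw [if_neg (by omega), if_neg (by omega), if_neg (by omega), if_neg (by omega), if_neg (by omega), if_neg (by omega), if_neg (by omega), if_neg (by omega), if_neg (by omega), if_neg (by omega), if_neg (by omega), if_neg (by omega), if_neg (by omega), if_neg (by omega), if_neg (by omega), if_neg (by omega), if_neg (by omega)] <;> simp only [e]
  · unfold wz; rw [if_neg (by omega), if_neg (by omega), if_neg (by omega), if_neg (by omega), if_neg (by omega), if_neg (by omega), if_neg (by omega), if_neg (by omega), if_neg (by omega), if_neg (by omega), if_neg (by omega), if_neg (by omega), if_neg (by omega), if_neg (by omega), if_neg (by omega), if_neg (by omega), if_neg (by omega)] <;> simp only [e]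

/-- coordinate -/
def cx (l t N M j : ℕ) : ℤ :=
  if j < 1 * N then (1) else
  if j < 1 * N + 1 then (1) else
  if j < 2 * N + 1 then (2 + sc (t + 1) (j - (1 * N + 1))) else
  if j < 2 * N + 2 then ((l : ℤ) + 2) else
  if j < 3 * N + 2 then ((l : ℤ) + 2) else
  if j < 3 * N + 3 then ((l : ℤ) + 2) else
  if j < 4 * N + 3 then ((l : ℤ) + 1 - sc (t + 1) (j - (3 * N + 3))) else
  if j < 4 * N + 4 then (2) else
  if j < 4 * N + M + 4 then (2 + sc l (j - (4 * N + 4))) else
  if j < 4 * N + M + 5 then ((l : ℤ) + 1) else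
  if j < 4 * N + M + 1 * l + 7 then ((l : ℤ) + 2) else
  if j < 4 * N + M + 2 * l + 8 then ((l : ℤ) + 1 - ((j - (4 * N + M + 1 * l + 7) : ℕ) : ℤ)) else
  (1)

/-- coordinate -/
def cy (l t N M j : ℕ) : ℤ :=
  if j < 1 * N then (2 + sc (t + 1) (j - (0))) else
  if j < 1 * N + 1 then ((l : ℤ) + 2) else
  if j < 2 * N + 1 then ((l : ℤ) + 2) else
  if j < 2 * N + 2 then ((l : ℤ) + 2) else
  if j < 3 * N + 2 then ((l : ℤ) + 1 - sc (t + 1) (j - (2 * N + 2))) else
  if j < 3 * N + 3 then (1) else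
  if j < 4 * N + 3 then (1) else
  if j < 4 * N + 4 then (1) else
  if j < 4 * N + M + 4 then (2 + sa l (j - (4 * N + 4))) else
  if j < 4 * N + M + 5 then (1) else
  if j < 4 * N + M + 1 * l + 7 then (1 + ((j - (4 * N + M + 5) : ℕ) : ℤ)) else
  if j < 4 * N + M + 2 * l + 8 then ((l : ℤ) + 2) else
  ((l : ℤ) + 1 - ((j - (4 * N + M + 2 * l + 8) : ℕ) : ℤ))

/-- coordinate -/
def cz (l t N M j : ℕ) : ℤ :=
  if j < 1 * N then ((t : ℤ) - sa (t + 1) (j - (0))) else
  if j < 1 * N + 1 then ((t : ℤ)) else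
  if j < 2 * N + 1 then ((t : ℤ) - sa (t + 1) (j - (1 * N + 1))) else
  if j < 2 * N + 2 then ((t : ℤ)) else
  if j < 3 * N + 2 then ((t : ℤ) - sa (t + 1) (j - (2 * N + 2))) else
  if j < 3 * N + 3 then ((t : ℤ)) else
  if j < 4 * N + 3 then ((t : ℤ) - sa (t + 1) (j - (3 * N + 3))) else
  if j < 4 * N + 4 then ((t : ℤ) + 1) else
  if j < 4 * N + M + 4 then ((t : ℤ) + 1) else
  if j < 4 * N + M + 5 then ((t : ℤ) + 1) else
  if j < 4 * N + M + 1 * l + 7 then ((t : ℤ) + 1) else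
  if j < 4 * N + M + 2 * l + 8 then ((t : ℤ) + 1) else
  ((t : ℤ) + 1)

theorem c_cases (l t N M j : ℕ) (hj : j < 4 * N + M + 3 * l + 8) :
    (∃ i, i < N ∧ j = 0 + i ∧ cx l t N M j = (1) ∧ cy l t N M j = (2 + sc (t + 1) i) ∧
      cz l t N M j = ((t : ℤ) - sa (t + 1) i)) ∨
    (∃ i, i < 1 ∧ j = 1 * N + i ∧ cx l t N M j = (1) ∧ cy l t N M j = ((l : ℤ) + 2) ∧
      cz l t N M j = ((t : ℤ))) ∨
    (∃ i, i < N ∧ j = 1 * N + 1 + i ∧ cx l t N M j = (2 + sc (t + 1) i) ∧ cy l t N M j = ((l : ℤ) + 2) ∧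
      cz l t N M j = ((t : ℤ) - sa (t + 1) i)) ∨
    (∃ i, i < 1 ∧ j = 2 * N + 1 + i ∧ cx l t N M j = ((l : ℤ) + 2) ∧ cy l t N M j = ((l : ℤ) + 2) ∧
      cz l t N M j = ((t : ℤ))) ∨
    (∃ i, i < N ∧ j = 2 * N + 2 + i ∧ cx l t N M j = ((l : ℤ) + 2) ∧ cy l t N M j = ((l : ℤ) + 1 - sc (t + 1) i) ∧
      cz l t N M j = ((t : ℤ) - sa (t + 1) i)) ∨
    (∃ i, i < 1 ∧ j = 3 * N + 2 + i ∧ cx l t N M j = ((l : ℤ) + 2) ∧ cy l t N M j = (1) ∧
      cz l t N M j = ((t : ℤ))) ∨
    (∃ i, i < N ∧ j = 3 * N + 3 + i ∧ cx l t N M j = ((l : ℤ) + 1 - sc (t + 1) i) ∧ cy l t N M j = (1) ∧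
      cz l t N M j = ((t : ℤ) - sa (t + 1) i)) ∨
    (∃ i, i < 1 ∧ j = 4 * N + 3 + i ∧ cx l t N M j = (2) ∧ cy l t N M j = (1) ∧
      cz l t N M j = ((t : ℤ) + 1)) ∨
    (∃ i, i < M ∧ j = 4 * N + 4 + i ∧ cx l t N M j = (2 + sc l i) ∧ cy l t N M j = (2 + sa l i) ∧
      cz l t N M j = ((t : ℤ) + 1)) ∨
    (∃ i, i < 1 ∧ j = 4 * N + M + 4 + i ∧ cx l t N M j = ((l : ℤ) + 1) ∧ cy l t N M j = (1) ∧
      cz l t N M j = ((t : ℤ) + 1)) ∨
    (∃ i, i < l + 2 ∧ j = 4 * N + M + 5 + i ∧ cx l t N M j = ((l : ℤ) + 2) ∧ cy l t N M j = (1 + (i : ℤ)) ∧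
      cz l t N M j = ((t : ℤ) + 1)) ∨
    (∃ i, i < l + 1 ∧ j = 4 * N + M + 1 * l + 7 + i ∧ cx l t N M j = ((l : ℤ) + 1 - (i : ℤ)) ∧ cy l t N M j = ((l : ℤ) + 2) ∧
      cz l t N M j = ((t : ℤ) + 1)) ∨
    (∃ i, i < l ∧ j = 4 * N + M + 2 * l + 8 + i ∧ cx l t N M j = (1) ∧ cy l t N M j = ((l : ℤ) + 1 - (i : ℤ)) ∧
      cz l t N M j = ((t : ℤ) + 1)) := by
  by_cases h0 : j < 1 * N
  · refine Or.inl <| ⟨j - (0), by omega, by omega, ?_, ?_, ?_⟩
    · unfold cx; rw [ if_pos h0]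
    · unfold cy; rw [ if_pos h0]
    · unfold cz; rw [ if_pos h0]
  by_cases h1 : j < 1 * N + 1
  · refine Or.inr <| Or.inl <| ⟨j - (1 * N), by omega, by omega, ?_, ?_, ?_⟩
    · unfold cx; rw [if_neg h0, if_pos h1]
    · unfold cy; rw [if_neg h0, if_pos h1]
    · unfold cz; rw [if_neg h0, if_pos h1]
  by_cases h2 : j < 2 * N + 1
  · refine Or.inr <| Or.inr <| Or.inl <| ⟨j - (1 * N + 1), by omega, by omega, ?_, ?_, ?_⟩
    · unfold cx; rw [if_neg h0, if_neg h1, if_pos h2]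
    · unfold cy; rw [if_neg h0, if_neg h1, if_pos h2]
    · unfold cz; rw [if_neg h0, if_neg h1, if_pos h2]
  by_cases h3 : j < 2 * N + 2
  · refine Or.inr <| Or.inr <| Or.inr <| Or.inl <| ⟨j - (2 * N + 1), by omega, by omega, ?_, ?_, ?_⟩
    · unfold cx; rw [if_neg h0, if_neg h1, if_neg h2, if_pos h3]
    · unfold cy; rw [if_neg h0, if_neg h1, if_neg h2, if_pos h3]
    · unfold cz; rw [if_neg h0, if_neg h1, if_neg h2, if_pos h3]
  by_cases h4 : j < 3 * N + 2
  · refine Or.inr <| Or.inr <| Or.inr <| Or.inr <| Or.inl <| ⟨j - (2 * N + 2), by omega, by omega, ?_, ?_, ?_⟩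
    · unfold cx; rw [if_neg h0, if_neg h1, if_neg h2, if_neg h3, if_pos h4]
    · unfold cy; rw [if_neg h0, if_neg h1, if_neg h2, if_neg h3, if_pos h4]
    · unfold cz; rw [if_neg h0, if_neg h1, if_neg h2, if_neg h3, if_pos h4]
  by_cases h5 : j < 3 * N + 3
  · refine Or.inr <| Or.inr <| Or.inr <| Or.inr <| Or.inr <| Or.inl <| ⟨j - (3 * N + 2), by omega, by omega, ?_, ?_, ?_⟩
    · unfold cx; rw [if_neg h0, if_neg h1, if_neg h2, if_neg h3, if_neg h4, if_pos h5]
    · unfold cy; rw [if_neg h0, if_neg h1, if_neg h2, if_neg h3, if_neg h4, if_pos h5]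
    · unfold cz; rw [if_neg h0, if_neg h1, if_neg h2, if_neg h3, if_neg h4, if_pos h5]
  by_cases h6 : j < 4 * N + 3
  · refine Or.inr <| Or.inr <| Or.inr <| Or.inr <| Or.inr <| Or.inr <| Or.inl <| ⟨j - (3 * N + 3), by omega, by omega, ?_, ?_, ?_⟩
    · unfold cx; rw [if_neg h0, if_neg h1, if_neg h2, if_neg h3, if_neg h4, if_neg h5, if_pos h6]
    · unfold cy; rw [if_neg h0, if_neg h1, if_neg h2, if_neg h3, if_neg h4, if_neg h5, if_pos h6]
    · unfold cz; rw [if_neg h0, if_neg h1, if_neg h2, if_neg h3, if_neg h4, if_neg h5, if_pos h6]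
  by_cases h7 : j < 4 * N + 4
  · refine Or.inr <| Or.inr <| Or.inr <| Or.inr <| Or.inr <| Or.inr <| Or.inr <| Or.inl <| ⟨j - (4 * N + 3), by omega, by omega, ?_, ?_, ?_⟩
    · unfold cx; rw [if_neg h0, if_neg h1, if_neg h2, if_neg h3, if_neg h4, if_neg h5, if_neg h6, if_pos h7]
    · unfold cy; rw [if_neg h0, if_neg h1, if_neg h2, if_neg h3, if_neg h4, if_neg h5, if_neg h6, if_pos h7]
    · unfold cz; rw [if_neg h0, if_neg h1, if_neg h2, if_neg h3, if_neg h4, if_neg h5, if_neg h6, if_pos h7]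
  by_cases h8 : j < 4 * N + M + 4
  · refine Or.inr <| Or.inr <| Or.inr <| Or.inr <| Or.inr <| Or.inr <| Or.inr <| Or.inr <| Or.inl <| ⟨j - (4 * N + 4), by omega, by omega, ?_, ?_, ?_⟩
    · unfold cx; rw [if_neg h0, if_neg h1, if_neg h2, if_neg h3, if_neg h4, if_neg h5, if_neg h6, if_neg h7, if_pos h8]
    · unfold cy; rw [if_neg h0, if_neg h1, if_neg h2, if_neg h3, if_neg h4, if_neg h5, if_neg h6, if_neg h7, if_pos h8]
    · unfold cz; rw [if_neg h0, if_neg h1, if_neg h2, if_neg h3, if_neg h4, if_neg h5, if_neg h6, if_neg h7, if_pos h8]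
  by_cases h9 : j < 4 * N + M + 5
  · refine Or.inr <| Or.inr <| Or.inr <| Or.inr <| Or.inr <| Or.inr <| Or.inr <| Or.inr <| Or.inr <| Or.inl <| ⟨j - (4 * N + M + 4), by omega, by omega, ?_, ?_, ?_⟩
    · unfold cx; rw [if_neg h0, if_neg h1, if_neg h2, if_neg h3, if_neg h4, if_neg h5, if_neg h6, if_neg h7, if_neg h8, if_pos h9]
    · unfold cy; rw [if_neg h0, if_neg h1, if_neg h2, if_neg h3, if_neg h4, if_neg h5, if_neg h6, if_neg h7, if_neg h8, if_pos h9]
    · unfold cz; rw [if_neg h0, if_neg h1, if_neg h2, if_neg h3, if_neg h4, if_neg h5, if_neg h6, if_neg h7, if_neg h8, if_pos h9]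
  by_cases h10 : j < 4 * N + M + 1 * l + 7
  · refine Or.inr <| Or.inr <| Or.inr <| Or.inr <| Or.inr <| Or.inr <| Or.inr <| Or.inr <| Or.inr <| Or.inr <| Or.inl <| ⟨j - (4 * N + M + 5), by omega, by omega, ?_, ?_, ?_⟩
    · unfold cx; rw [if_neg h0, if_neg h1, if_neg h2, if_neg h3, if_neg h4, if_neg h5, if_neg h6, if_neg h7, if_neg h8, if_neg h9, if_pos h10]
    · unfold cy; rw [if_neg h0, if_neg h1, if_neg h2, if_neg h3, if_neg h4, if_neg h5, if_neg h6, if_neg h7, if_neg h8, if_neg h9, if_pos h10]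
    · unfold cz; rw [if_neg h0, if_neg h1, if_neg h2, if_neg h3, if_neg h4, if_neg h5, if_neg h6, if_neg h7, if_neg h8, if_neg h9, if_pos h10]
  by_cases h11 : j < 4 * N + M + 2 * l + 8
  · refine Or.inr <| Or.inr <| Or.inr <| Or.inr <| Or.inr <| Or.inr <| Or.inr <| Or.inr <| Or.inr <| Or.inr <| Or.inr <| Or.inl <| ⟨j - (4 * N + M + 1 * l + 7), by omega, by omega, ?_, ?_, ?_⟩
    · unfold cx; rw [if_neg h0, if_neg h1, if_neg h2, if_neg h3, if_neg h4, if_neg h5, if_neg h6, if_neg h7, if_neg h8, if_neg h9, if_neg h10, if_pos h11]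
    · unfold cy; rw [if_neg h0, if_neg h1, if_neg h2, if_neg h3, if_neg h4, if_neg h5, if_neg h6, if_neg h7, if_neg h8, if_neg h9, if_neg h10, if_pos h11]
    · unfold cz; rw [if_neg h0, if_neg h1, if_neg h2, if_neg h3, if_neg h4, if_neg h5, if_neg h6, if_neg h7, if_neg h8, if_neg h9, if_neg h10, if_pos h11]
  refine Or.inr <| Or.inr <| Or.inr <| Or.inr <| Or.inr <| Or.inr <| Or.inr <| Or.inr <| Or.inr <| Or.inr <| Or.inr <| Or.inr <| ⟨j - (4 * N + M + 2 * l + 8), by omega, by omega, ?_, ?_, ?_⟩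
  · unfold cx; rw [if_neg h0, if_neg h1, if_neg h2, if_neg h3, if_neg h4, if_neg h5, if_neg h6, if_neg h7, if_neg h8, if_neg h9, if_neg h10, if_neg h11]
  · unfold cy; rw [if_neg h0, if_neg h1, if_neg h2, if_neg h3, if_neg h4, if_neg h5, if_neg h6, if_neg h7, if_neg h8, if_neg h9, if_neg h10, if_neg h11]
  · unfold cz; rw [if_neg h0, if_neg h1, if_neg h2, if_neg h3, if_neg h4, if_neg h5, if_neg h6, if_neg h7, if_neg h8, if_neg h9, if_neg h10, if_neg h11]

theorem c_s0 (l t N M i : ℕ) (hi : i < N) :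
    cx l t N M (0 + i) = (1) ∧ cy l t N M (0 + i) = (2 + sc (t + 1) i) ∧
      cz l t N M (0 + i) = ((t : ℤ) - sa (t + 1) i) := by
  have e : 0 + i - (0) = i := by omega
  refine ⟨?_, ?_, ?_⟩
  · unfold cx; rw [if_pos (by omega)] <;> simp only [e]
  · unfold cy; rw [if_pos (by omega)] <;> simp only [e]
  · unfold cz; rw [if_pos (by omega)] <;> simp only [e]

theorem c_k0 (l t N M i : ℕ) (hi : i < 1) :
    cx l t N M (1 * N + i) = (1) ∧ cy l t N M (1 * N + i) = ((l : ℤ) + 2) ∧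
      cz l t N M (1 * N + i) = ((t : ℤ)) := by
  have e : 1 * N + i - (1 * N) = i := by omega
  refine ⟨?_, ?_, ?_⟩
  · unfold cx; rw [if_neg (by omega), if_pos (by omega)] <;> simp only [e]
  · unfold cy; rw [if_neg (by omega), if_pos (by omega)] <;> simp only [e]
  · unfold cz; rw [if_neg (by omega), if_pos (by omega)] <;> simp only [e]

theorem c_s1 (l t N M i : ℕ) (hi : i < N) :
    cx l t N M (1 * N + 1 + i) = (2 + sc (t + 1) i) ∧ cy l t N M (1 * N + 1 + i) = ((l : ℤ) + 2) ∧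
      cz l t N M (1 * N + 1 + i) = ((t : ℤ) - sa (t + 1) i) := by
  have e : 1 * N + 1 + i - (1 * N + 1) = i := by omega
  refine ⟨?_, ?_, ?_⟩
  · unfold cx; rw [if_neg (by omega), if_neg (by omega), if_pos (by omega)] <;> simp only [e]
  · unfold cy; rw [if_neg (by omega), if_neg (by omega), if_pos (by omega)] <;> simp only [e]
  · unfold cz; rw [if_neg (by omega), if_neg (by omega), if_pos (by omega)] <;> simp only [e]

theorem c_k1 (l t N M i : ℕ) (hi : i < 1) :
    cx l t N M (2 * N + 1 + i) = ((l : ℤ) + 2) ∧ cy l t N M (2 * N + 1 + i) = ((l : ℤ) + 2) ∧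
      cz l t N M (2 * N + 1 + i) = ((t : ℤ)) := by
  have e : 2 * N + 1 + i - (2 * N + 1) = i := by omega
  refine ⟨?_, ?_, ?_⟩
  · unfold cx; rw [if_neg (by omega), if_neg (by omega), if_neg (by omega), if_pos (by omega)] <;> simp only [e]
  · unfold cy; rw [if_neg (by omega), if_neg (by omega), if_neg (by omega), if_pos (by omega)] <;> simp only [e]
  · unfold cz; rw [if_neg (by omega), if_neg (by omega), if_neg (by omega), if_pos (by omega)] <;> simp only [e]

theorem c_s2 (l t N M i : ℕ) (hi : i < N) :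
    cx l t N M (2 * N + 2 + i) = ((l : ℤ) + 2) ∧ cy l t N M (2 * N + 2 + i) = ((l : ℤ) + 1 - sc (t + 1) i) ∧
      cz l t N M (2 * N + 2 + i) = ((t : ℤ) - sa (t + 1) i) := by
  have e : 2 * N + 2 + i - (2 * N + 2) = i := by omega
  refine ⟨?_, ?_, ?_⟩
  · unfold cx; rw [if_neg (by omega), if_neg (by omega), if_neg (by omega), if_neg (by omega), if_pos (by omega)] <;> simp only [e]
  · unfold cy; rw [if_neg (by omega), if_neg (by omega), if_neg (by omega), if_neg (by omega), if_pos (by omega)] <;> simp only [e]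
  · unfold cz; rw [if_neg (by omega), if_neg (by omega), if_neg (by omega), if_neg (by omega), if_pos (by omega)] <;> simp only [e]

theorem c_k2 (l t N M i : ℕ) (hi : i < 1) :
    cx l t N M (3 * N + 2 + i) = ((l : ℤ) + 2) ∧ cy l t N M (3 * N + 2 + i) = (1) ∧
      cz l t N M (3 * N + 2 + i) = ((t : ℤ)) := by
  have e : 3 * N + 2 + i - (3 * N + 2) = i := by omega
  refine ⟨?_, ?_, ?_⟩
  · unfold cx; rw [if_neg (by omega), if_neg (by omega), if_neg (by omega), if_neg (by omega), if_neg (by omega), if_pos (by omega)] <;> simp only [e]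
  · unfold cy; rw [if_neg (by omega), if_neg (by omega), if_neg (by omega), if_neg (by omega), if_neg (by omega), if_pos (by omega)] <;> simp only [e]
  · unfold cz; rw [if_neg (by omega), if_neg (by omega), if_neg (by omega), if_neg (by omega), if_neg (by omega), if_pos (by omega)] <;> simp only [e]

theorem c_s3 (l t N M i : ℕ) (hi : i < N) :
    cx l t N M (3 * N + 3 + i) = ((l : ℤ) + 1 - sc (t + 1) i) ∧ cy l t N M (3 * N + 3 + i) = (1) ∧
      cz l t N M (3 * N + 3 + i) = ((t : ℤ) - sa (t + 1) i) := by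
  have e : 3 * N + 3 + i - (3 * N + 3) = i := by omega
  refine ⟨?_, ?_, ?_⟩
  · unfold cx; rw [if_neg (by omega), if_neg (by omega), if_neg (by omega), if_neg (by omega), if_neg (by omega), if_neg (by omega), if_pos (by omega)] <;> simp only [e]
  · unfold cy; rw [if_neg (by omega), if_neg (by omega), if_neg (by omega), if_neg (by omega), if_neg (by omega), if_neg (by omega), if_pos (by omega)] <;> simp only [e]
  · unfold cz; rw [if_neg (by omega), if_neg (by omega), if_neg (by omega), if_neg (by omega), if_neg (by omega), if_neg (by omega), if_pos (by omega)] <;> simp only [e]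

theorem c_k3 (l t N M i : ℕ) (hi : i < 1) :
    cx l t N M (4 * N + 3 + i) = (2) ∧ cy l t N M (4 * N + 3 + i) = (1) ∧
      cz l t N M (4 * N + 3 + i) = ((t : ℤ) + 1) := by
  have e : 4 * N + 3 + i - (4 * N + 3) = i := by omega
  refine ⟨?_, ?_, ?_⟩
  · unfold cx; rw [if_neg (by omega), if_neg (by omega), if_neg (by omega), if_neg (by omega), if_neg (by omega), if_neg (by omega), if_neg (by omega), if_pos (by omega)] <;> simp only [e]
  · unfold cy; rw [if_neg (by omega), if_neg (by omega), if_neg (by omega), if_neg (by omega), if_neg (by omega), if_neg (by omega), if_neg (by omega), if_pos (by omega)] <;> simp only [e]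
  · unfold cz; rw [if_neg (by omega), if_neg (by omega), if_neg (by omega), if_neg (by omega), if_neg (by omega), if_neg (by omega), if_neg (by omega), if_pos (by omega)] <;> simp only [e]

theorem c_s4 (l t N M i : ℕ) (hi : i < M) :
    cx l t N M (4 * N + 4 + i) = (2 + sc l i) ∧ cy l t N M (4 * N + 4 + i) = (2 + sa l i) ∧
      cz l t N M (4 * N + 4 + i) = ((t : ℤ) + 1) := by
  have e : 4 * N + 4 + i - (4 * N + 4) = i := by omega
  refine ⟨?_, ?_, ?_⟩
  · unfold cx; rw [if_neg (by omega), if_neg (by omega), if_neg (by omega), if_neg (by omega), if_neg (by omega), if_neg (by omega), if_neg (by omega), if_neg (by omega), if_pos (by omega)] <;> simp only [e]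
  · unfold cy; rw [if_neg (by omega), if_neg (by omega), if_neg (by omega), if_neg (by omega), if_neg (by omega), if_neg (by omega), if_neg (by omega), if_neg (by omega), if_pos (by omega)] <;> simp only [e]
  · unfold cz; rw [if_neg (by omega), if_neg (by omega), if_neg (by omega), if_neg (by omega), if_neg (by omega), if_neg (by omega), if_neg (by omega), if_neg (by omega), if_pos (by omega)] <;> simp only [e]

theorem c_k4 (l t N M i : ℕ) (hi : i < 1) :
    cx l t N M (4 * N + M + 4 + i) = ((l : ℤ) + 1) ∧ cy l t N M (4 * N + M + 4 + i) = (1) ∧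
      cz l t N M (4 * N + M + 4 + i) = ((t : ℤ) + 1) := by
  have e : 4 * N + M + 4 + i - (4 * N + M + 4) = i := by omega
  refine ⟨?_, ?_, ?_⟩
  · unfold cx; rw [if_neg (by omega), if_neg (by omega), if_neg (by omega), if_neg (by omega), if_neg (by omega), if_neg (by omega), if_neg (by omega), if_neg (by omega), if_neg (by omega), if_pos (by omega)] <;> simp only [e]
  · unfold cy; rw [if_neg (by omega), if_neg (by omega), if_neg (by omega), if_neg (by omega), if_neg (by omega), if_neg (by omega), if_neg (by omega), if_neg (by omega), if_neg (by omega), if_pos (by omega)] <;> simp only [e]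
  · unfold cz; rw [if_neg (by omega), if_neg (by omega), if_neg (by omega), if_neg (by omega), if_neg (by omega), if_neg (by omega), if_neg (by omega), if_neg (by omega), if_neg (by omega), if_pos (by omega)] <;> simp only [e]

theorem c_e0 (l t N M i : ℕ) (hi : i < l + 2) :
    cx l t N M (4 * N + M + 5 + i) = ((l : ℤ) + 2) ∧ cy l t N M (4 * N + M + 5 + i) = (1 + (i : ℤ)) ∧
      cz l t N M (4 * N + M + 5 + i) = ((t : ℤ) + 1) := by
  have e : 4 * N + M + 5 + i - (4 * N + M + 5) = i := by omega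
  refine ⟨?_, ?_, ?_⟩
  · unfold cx; rw [if_neg (by omega), if_neg (by omega), if_neg (by omega), if_neg (by omega), if_neg (by omega), if_neg (by omega), if_neg (by omega), if_neg (by omega), if_neg (by omega), if_neg (by omega), if_pos (by omega)] <;> simp only [e]
  · unfold cy; rw [if_neg (by omega), if_neg (by omega), if_neg (by omega), if_neg (by omega), if_neg (by omega), if_neg (by omega), if_neg (by omega), if_neg (by omega), if_neg (by omega), if_neg (by omega), if_pos (by omega)] <;> simp only [e]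
  · unfold cz; rw [if_neg (by omega), if_neg (by omega), if_neg (by omega), if_neg (by omega), if_neg (by omega), if_neg (by omega), if_neg (by omega), if_neg (by omega), if_neg (by omega), if_neg (by omega), if_pos (by omega)] <;> simp only [e]

theorem c_e1 (l t N M i : ℕ) (hi : i < l + 1) :
    cx l t N M (4 * N + M + 1 * l + 7 + i) = ((l : ℤ) + 1 - (i : ℤ)) ∧ cy l t N M (4 * N + M + 1 * l + 7 + i) = ((l : ℤ) + 2) ∧
      cz l t N M (4 * N + M + 1 * l + 7 + i) = ((t : ℤ) + 1) := by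
  have e : 4 * N + M + 1 * l + 7 + i - (4 * N + M + 1 * l + 7) = i := by omega
  refine ⟨?_, ?_, ?_⟩
  · unfold cx; rw [if_neg (by omega), if_neg (by omega), if_neg (by omega), if_neg (by omega), if_neg (by omega), if_neg (by omega), if_neg (by omega), if_neg (by omega), if_neg (by omega), if_neg (by omega), if_neg (by omega), if_pos (by omega)] <;> simp only [e]
  · unfold cy; rw [if_neg (by omega), if_neg (by omega), if_neg (by omega), if_neg (by omega), if_neg (by omega), if_neg (by omega), if_neg (by omega), if_neg (by omega), if_neg (by omega), if_neg (by omega), if_neg (by omega), if_pos (by omega)] <;> simp only [e]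
  · unfold cz; rw [if_neg (by omega), if_neg (by omega), if_neg (by omega), if_neg (by omega), if_neg (by omega), if_neg (by omega), if_neg (by omega), if_neg (by omega), if_neg (by omega), if_neg (by omega), if_neg (by omega), if_pos (by omega)] <;> simp only [e]

theorem c_e2 (l t N M i : ℕ) (hi : i < l) :
    cx l t N M (4 * N + M + 2 * l + 8 + i) = (1) ∧ cy l t N M (4 * N + M + 2 * l + 8 + i) = ((l : ℤ) + 1 - (i : ℤ)) ∧
      cz l t N M (4 * N + M + 2 * l + 8 + i) = ((t : ℤ) + 1) := by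
  have e : 4 * N + M + 2 * l + 8 + i - (4 * N + M + 2 * l + 8) = i := by omega
  refine ⟨?_, ?_, ?_⟩
  · unfold cx; rw [if_neg (by omega), if_neg (by omega), if_neg (by omega), if_neg (by omega), if_neg (by omega), if_neg (by omega), if_neg (by omega), if_neg (by omega), if_neg (by omega), if_neg (by omega), if_neg (by omega), if_neg (by omega)] <;> simp only [e]
  · unfold cy; rw [if_neg (by omega), if_neg (by omega), if_neg (by omega), if_neg (by omega), if_neg (by omega), if_neg (by omega), if_neg (by omega), if_neg (by omega), if_neg (by omega), if_neg (by omega), if_neg (by omega), if_neg (by omega)] <;> simp only [e]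
  · unfold cz; rw [if_neg (by omega), if_neg (by omega), if_neg (by omega), if_neg (by omega), if_neg (by omega), if_neg (by omega), if_neg (by omega), if_neg (by omega), if_neg (by omega), if_neg (by omega), if_neg (by omega), if_neg (by omega)] <;> simp only [e]

theorem w_adj (l t N M : ℕ) (hl : 2 ≤ l) (hle : Even l) (hN : N = l * (t + 1)) (hM : M = l * l)
    (j : ℕ) (hj : j + 1 < 4 * N + M + 13) :
    Ad (wx l t N M j) (wy l t N M j) (wz l t N M j) (wx l t N M (j + 1)) (wy l t N M (j + 1))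
      (wz l t N M (j + 1)) := by
  have hNpos : 0 < N := by rw [hN]; positivity
  have hMpos : 0 < M := by rw [hM]; positivity
  obtain ⟨z1, z2⟩ := sn_zero (t + 1)
  obtain ⟨z3, z4⟩ := sn_zero l
  rcases w_cases l t N M j (by omega) with ⟨i, hi, hji, e1, e2, e3⟩ |
    ⟨i, hi, hji, e1, e2, e3⟩ |
    ⟨i, hi, hji, e1, e2, e3⟩ |
    ⟨i, hi, hji, e1, e2, e3⟩ |
    ⟨i, hi, hji, e1, e2, e3⟩ |
    ⟨i, hi, hji, e1, e2, e3⟩ |
    ⟨i, hi, hji, e1, e2, e3⟩ |
    ⟨i, hi, hji, e1, e2, e3⟩ |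
    ⟨i, hi, hji, e1, e2, e3⟩ |
    ⟨i, hi, hji, e1, e2, e3⟩ |
    ⟨i, hi, hji, e1, e2, e3⟩ |
    ⟨i, hi, hji, e1, e2, e3⟩ |
    ⟨i, hi, hji, e1, e2, e3⟩ |
    ⟨i, hi, hji, e1, e2, e3⟩ |
    ⟨i, hi, hji, e1, e2, e3⟩ |
    ⟨i, hi, hji, e1, e2, e3⟩ |
    ⟨i, hi, hji, e1, e2, e3⟩ |
    ⟨i, hi, hji, e1, e2, e3⟩
  · subst hji
    by_cases h : i + 1 < N
    · obtain ⟨f1, f2, f3⟩ := w_s0 l t N M (i + 1) h
      have e : 0 + i + 1 = 0 + (i + 1) := by omega
      rw [e, e1, e2, e3, f1, f2, f3]; unfold Ad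
      have := sn_step (t + 1) i (by omega)
      omega
    · obtain ⟨f1, f2, f3⟩ := w_k00 l t N M 0 (by omega)
      have e : 0 + i + 1 = 1 * N + 0 := by omega
      rw [e, e1, e2, e3, f1, f2, f3]; unfold Ad
      obtain ⟨g1, g2⟩ := sn_last l (t + 1) i (by omega) hle (by omega)
      omega
  · subst hji
    obtain ⟨f1, f2, f3⟩ := w_k01 l t N M 0 (by omega)
    have e : 1 * N + i + 1 = 1 * N + 1 + 0 := by omega
    rw [e, e1, e2, e3, f1, f2, f3]; unfold Ad
    omega
  · subst hji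
    obtain ⟨f1, f2, f3⟩ := w_k02 l t N M 0 (by omega)
    have e : 1 * N + 1 + i + 1 = 1 * N + 2 + 0 := by omega
    rw [e, e1, e2, e3, f1, f2, f3]; unfold Ad
    omega
  · subst hji
    obtain ⟨f1, f2, f3⟩ := w_s1 l t N M 0 (by omega)
    have e : 1 * N + 2 + i + 1 = 1 * N + 3 + 0 := by omega
    rw [e, e1, e2, e3, f1, f2, f3]; unfold Ad
    omega
  · subst hji
    by_cases h : i + 1 < N
    · obtain ⟨f1, f2, f3⟩ := w_s1 l t N M (i + 1) h
      have e : 1 * N + 3 + i + 1 = 1 * N + 3 + (i + 1) := by omega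
      rw [e, e1, e2, e3, f1, f2, f3]; unfold Ad
      have := sn_step (t + 1) i (by omega)
      omega
    · obtain ⟨f1, f2, f3⟩ := w_k10 l t N M 0 (by omega)
      have e : 1 * N + 3 + i + 1 = 2 * N + 3 + 0 := by omega
      rw [e, e1, e2, e3, f1, f2, f3]; unfold Ad
      obtain ⟨g1, g2⟩ := sn_last l (t + 1) i (by omega) hle (by omega)
      omega
  · subst hji
    obtain ⟨f1, f2, f3⟩ := w_k11 l t N M 0 (by omega)
    have e : 2 * N + 3 + i + 1 = 2 * N + 4 + 0 := by omega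
    rw [e, e1, e2, e3, f1, f2, f3]; unfold Ad
    omega
  · subst hji
    obtain ⟨f1, f2, f3⟩ := w_k12 l t N M 0 (by omega)
    have e : 2 * N + 4 + i + 1 = 2 * N + 5 + 0 := by omega
    rw [e, e1, e2, e3, f1, f2, f3]; unfold Ad
    omega
  · subst hji
    obtain ⟨f1, f2, f3⟩ := w_s2 l t N M 0 (by omega)
    have e : 2 * N + 5 + i + 1 = 2 * N + 6 + 0 := by omega
    rw [e, e1, e2, e3, f1, f2, f3]; unfold Ad
    omega
  · subst hji
    by_cases h : i + 1 < N
    · obtain ⟨f1, f2, f3⟩ := w_s2 l t N M (i + 1) h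
      have e : 2 * N + 6 + i + 1 = 2 * N + 6 + (i + 1) := by omega
      rw [e, e1, e2, e3, f1, f2, f3]; unfold Ad
      have := sn_step (t + 1) i (by omega)
      omega
    · obtain ⟨f1, f2, f3⟩ := w_k20 l t N M 0 (by omega)
      have e : 2 * N + 6 + i + 1 = 3 * N + 6 + 0 := by omega
      rw [e, e1, e2, e3, f1, f2, f3]; unfold Ad
      obtain ⟨g1, g2⟩ := sn_last l (t + 1) i (by omega) hle (by omega)
      omega
  · subst hji
    obtain ⟨f1, f2, f3⟩ := w_k21 l t N M 0 (by omega)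
    have e : 3 * N + 6 + i + 1 = 3 * N + 7 + 0 := by omega
    rw [e, e1, e2, e3, f1, f2, f3]; unfold Ad
    omega
  · subst hji
    obtain ⟨f1, f2, f3⟩ := w_k22 l t N M 0 (by omega)
    have e : 3 * N + 7 + i + 1 = 3 * N + 8 + 0 := by omega
    rw [e, e1, e2, e3, f1, f2, f3]; unfold Ad
    omega
  · subst hji
    obtain ⟨f1, f2, f3⟩ := w_s3 l t N M 0 (by omega)
    have e : 3 * N + 8 + i + 1 = 3 * N + 9 + 0 := by omega
    rw [e, e1, e2, e3, f1, f2, f3]; unfold Ad
    omega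
  · subst hji
    by_cases h : i + 1 < N
    · obtain ⟨f1, f2, f3⟩ := w_s3 l t N M (i + 1) h
      have e : 3 * N + 9 + i + 1 = 3 * N + 9 + (i + 1) := by omega
      rw [e, e1, e2, e3, f1, f2, f3]; unfold Ad
      have := sn_step (t + 1) i (by omega)
      omega
    · obtain ⟨f1, f2, f3⟩ := w_k30 l t N M 0 (by omega)
      have e : 3 * N + 9 + i + 1 = 4 * N + 9 + 0 := by omega
      rw [e, e1, e2, e3, f1, f2, f3]; unfold Ad
      obtain ⟨g1, g2⟩ := sn_last l (t + 1) i (by omega) hle (by omega)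
      omega
  · subst hji
    obtain ⟨f1, f2, f3⟩ := w_k31 l t N M 0 (by omega)
    have e : 4 * N + 9 + i + 1 = 4 * N + 10 + 0 := by omega
    rw [e, e1, e2, e3, f1, f2, f3]; unfold Ad
    omega
  · subst hji
    obtain ⟨f1, f2, f3⟩ := w_k32 l t N M 0 (by omega)
    have e : 4 * N + 10 + i + 1 = 4 * N + 11 + 0 := by omega
    rw [e, e1, e2, e3, f1, f2, f3]; unfold Ad
    omega
  · subst hji
    obtain ⟨f1, f2, f3⟩ := w_s4 l t N M 0 (by omega)
    have e : 4 * N + 11 + i + 1 = 4 * N + 12 + 0 := by omega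
    rw [e, e1, e2, e3, f1, f2, f3]; unfold Ad
    omega
  · subst hji
    by_cases h : i + 1 < M
    · obtain ⟨f1, f2, f3⟩ := w_s4 l t N M (i + 1) h
      have e : 4 * N + 12 + i + 1 = 4 * N + 12 + (i + 1) := by omega
      rw [e, e1, e2, e3, f1, f2, f3]; unfold Ad
      have := sn_step l i (by omega)
      omega
    · obtain ⟨f1, f2, f3⟩ := w_k4 l t N M 0 (by omega)
      have e : 4 * N + 12 + i + 1 = 4 * N + M + 12 + 0 := by omega
      rw [e, e1, e2, e3, f1, f2, f3]; unfold Ad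
      obtain ⟨g1, g2⟩ := sn_last l l i (by omega) hle (by omega)
      omega
  · subst hji
    exfalso; omega

theorem w_inj (l t N M : ℕ) (hl : 2 ≤ l) (hN : N = l * (t + 1)) (hM : M = l * l)
    (j j' : ℕ) (hj : j < 4 * N + M + 13) (hj' : j' < 4 * N + M + 13)
    (h1 : wx l t N M j = wx l t N M j') (h2 : wy l t N M j = wy l t N M j')
    (h3 : wz l t N M j = wz l t N M j') : j = j' := by
  have A : ∀ i, 0 ≤ sc (t + 1) i ∧ 0 ≤ sa (t + 1) i ∧ sa (t + 1) i ≤ (t : ℤ) ∧
      (i < N → sc (t + 1) i ≤ (l : ℤ) - 1) := by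
    intro i
    have h4 := sn_range (i + 1) (t + 1) i (by nlinarith)
    refine ⟨h4.1, h4.2.2.1, by push_cast at h4; linarith [h4.2.2.2], fun h => ?_⟩
    exact (sn_range l (t + 1) i (by omega)).2.1
  have B : ∀ i, 0 ≤ sc l i ∧ 0 ≤ sa l i ∧ sa l i ≤ (l : ℤ) - 1 ∧
      (i < M → sc l i ≤ (l : ℤ) - 1) := by
    intro i
    have h4 := sn_range (i + 1) l i (by nlinarith)
    refine ⟨h4.1, h4.2.2.1, h4.2.2.2, fun h => ?_⟩
    exact (sn_range l l i (by omega)).2.1
  rcases w_cases l t N M j hj with ⟨i, hi, hji, e1, e2, e3⟩ |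
    ⟨i, hi, hji, e1, e2, e3⟩ |
    ⟨i, hi, hji, e1, e2, e3⟩ |
    ⟨i, hi, hji, e1, e2, e3⟩ |
    ⟨i, hi, hji, e1, e2, e3⟩ |
    ⟨i, hi, hji, e1, e2, e3⟩ |
    ⟨i, hi, hji, e1, e2, e3⟩ |
    ⟨i, hi, hji, e1, e2, e3⟩ |
    ⟨i, hi, hji, e1, e2, e3⟩ |
    ⟨i, hi, hji, e1, e2, e3⟩ |
    ⟨i, hi, hji, e1, e2, e3⟩ |
    ⟨i, hi, hji, e1, e2, e3⟩ |
    ⟨i, hi, hji, e1, e2, e3⟩ |
    ⟨i, hi, hji, e1, e2, e3⟩ |
    ⟨i, hi, hji, e1, e2, e3⟩ |
    ⟨i, hi, hji, e1, e2, e3⟩ |
    ⟨i, hi, hji, e1, e2, e3⟩ |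
    ⟨i, hi, hji, e1, e2, e3⟩ <;>
  rcases w_cases l t N M j' hj' with ⟨i', hi', hji', e1', e2', e3'⟩ |
    ⟨i', hi', hji', e1', e2', e3'⟩ |
    ⟨i', hi', hji', e1', e2', e3'⟩ |
    ⟨i', hi', hji', e1', e2', e3'⟩ |
    ⟨i', hi', hji', e1', e2', e3'⟩ |
    ⟨i', hi', hji', e1', e2', e3'⟩ |
    ⟨i', hi', hji', e1', e2', e3'⟩ |
    ⟨i', hi', hji', e1', e2', e3'⟩ |
    ⟨i', hi', hji', e1', e2', e3'⟩ |
    ⟨i', hi', hji', e1', e2', e3'⟩ |
    ⟨i', hi', hji', e1', e2', e3'⟩ |
    ⟨i', hi', hji', e1', e2', e3'⟩ |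
    ⟨i', hi', hji', e1', e2', e3'⟩ |
    ⟨i', hi', hji', e1', e2', e3'⟩ |
    ⟨i', hi', hji', e1', e2', e3'⟩ |
    ⟨i', hi', hji', e1', e2', e3'⟩ |
    ⟨i', hi', hji', e1', e2', e3'⟩ |
    ⟨i', hi', hji', e1', e2', e3'⟩ <;>
  · rw [e1, e1'] at h1
    rw [e2, e2'] at h2
    rw [e3, e3'] at h3
    have a1 := A i
    have a2 := A i'
    have b1 := B i
    have b2 := B i'
    have c1 := sn_inj (t + 1) i i'
    have c2 := sn_inj l i i'
    omega

theorem c_adj (l t N M : ℕ) (hl : 2 ≤ l) (hle : Even l) (hN : N = l * (t + 1)) (hM : M = l * l)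
    (j : ℕ) (hj : j + 1 < 4 * N + M + 3 * l + 8) :
    Ad (cx l t N M j) (cy l t N M j) (cz l t N M j) (cx l t N M (j + 1)) (cy l t N M (j + 1))
      (cz l t N M (j + 1)) := by
  have hNpos : 0 < N := by rw [hN]; positivity
  have hMpos : 0 < M := by rw [hM]; positivity
  obtain ⟨z1, z2⟩ := sn_zero (t + 1)
  obtain ⟨z3, z4⟩ := sn_zero l
  rcases c_cases l t N M j (by omega) with ⟨i, hi, hji, e1, e2, e3⟩ |
    ⟨i, hi, hji, e1, e2, e3⟩ |
    ⟨i, hi, hji, e1, e2, e3⟩ |
    ⟨i, hi, hji, e1, e2, e3⟩ |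
    ⟨i, hi, hji, e1, e2, e3⟩ |
    ⟨i, hi, hji, e1, e2, e3⟩ |
    ⟨i, hi, hji, e1, e2, e3⟩ |
    ⟨i, hi, hji, e1, e2, e3⟩ |
    ⟨i, hi, hji, e1, e2, e3⟩ |
    ⟨i, hi, hji, e1, e2, e3⟩ |
    ⟨i, hi, hji, e1, e2, e3⟩ |
    ⟨i, hi, hji, e1, e2, e3⟩ |
    ⟨i, hi, hji, e1, e2, e3⟩
  · subst hji
    by_cases h : i + 1 < N
    · obtain ⟨f1, f2, f3⟩ := c_s0 l t N M (i + 1) h
      have e : 0 + i + 1 = 0 + (i + 1) := by omega
      rw [e, e1, e2, e3, f1, f2, f3]; unfold Ad
      have := sn_step (t + 1) i (by omega)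
      omega
    · obtain ⟨f1, f2, f3⟩ := c_k0 l t N M 0 (by omega)
      have e : 0 + i + 1 = 1 * N + 0 := by omega
      rw [e, e1, e2, e3, f1, f2, f3]; unfold Ad
      obtain ⟨g1, g2⟩ := sn_last l (t + 1) i (by omega) hle (by omega)
      omega
  · subst hji
    obtain ⟨f1, f2, f3⟩ := c_s1 l t N M 0 (by omega)
    have e : 1 * N + i + 1 = 1 * N + 1 + 0 := by omega
    rw [e, e1, e2, e3, f1, f2, f3]; unfold Ad
    omega
  · subst hji
    by_cases h : i + 1 < N
    · obtain ⟨f1, f2, f3⟩ := c_s1 l t N M (i + 1) h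
      have e : 1 * N + 1 + i + 1 = 1 * N + 1 + (i + 1) := by omega
      rw [e, e1, e2, e3, f1, f2, f3]; unfold Ad
      have := sn_step (t + 1) i (by omega)
      omega
    · obtain ⟨f1, f2, f3⟩ := c_k1 l t N M 0 (by omega)
      have e : 1 * N + 1 + i + 1 = 2 * N + 1 + 0 := by omega
      rw [e, e1, e2, e3, f1, f2, f3]; unfold Ad
      obtain ⟨g1, g2⟩ := sn_last l (t + 1) i (by omega) hle (by omega)
      omega
  · subst hji
    obtain ⟨f1, f2, f3⟩ := c_s2 l t N M 0 (by omega)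
    have e : 2 * N + 1 + i + 1 = 2 * N + 2 + 0 := by omega
    rw [e, e1, e2, e3, f1, f2, f3]; unfold Ad
    omega
  · subst hji
    by_cases h : i + 1 < N
    · obtain ⟨f1, f2, f3⟩ := c_s2 l t N M (i + 1) h
      have e : 2 * N + 2 + i + 1 = 2 * N + 2 + (i + 1) := by omega
      rw [e, e1, e2, e3, f1, f2, f3]; unfold Ad
      have := sn_step (t + 1) i (by omega)
      omega
    · obtain ⟨f1, f2, f3⟩ := c_k2 l t N M 0 (by omega)
      have e : 2 * N + 2 + i + 1 = 3 * N + 2 + 0 := by omega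
      rw [e, e1, e2, e3, f1, f2, f3]; unfold Ad
      obtain ⟨g1, g2⟩ := sn_last l (t + 1) i (by omega) hle (by omega)
      omega
  · subst hji
    obtain ⟨f1, f2, f3⟩ := c_s3 l t N M 0 (by omega)
    have e : 3 * N + 2 + i + 1 = 3 * N + 3 + 0 := by omega
    rw [e, e1, e2, e3, f1, f2, f3]; unfold Ad
    omega
  · subst hji
    by_cases h : i + 1 < N
    · obtain ⟨f1, f2, f3⟩ := c_s3 l t N M (i + 1) h
      have e : 3 * N + 3 + i + 1 = 3 * N + 3 + (i + 1) := by omega
      rw [e, e1, e2, e3, f1, f2, f3]; unfold Ad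
      have := sn_step (t + 1) i (by omega)
      omega
    · obtain ⟨f1, f2, f3⟩ := c_k3 l t N M 0 (by omega)
      have e : 3 * N + 3 + i + 1 = 4 * N + 3 + 0 := by omega
      rw [e, e1, e2, e3, f1, f2, f3]; unfold Ad
      obtain ⟨g1, g2⟩ := sn_last l (t + 1) i (by omega) hle (by omega)
      omega
  · subst hji
    obtain ⟨f1, f2, f3⟩ := c_s4 l t N M 0 (by omega)
    have e : 4 * N + 3 + i + 1 = 4 * N + 4 + 0 := by omega
    rw [e, e1, e2, e3, f1, f2, f3]; unfold Ad
    omega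
  · subst hji
    by_cases h : i + 1 < M
    · obtain ⟨f1, f2, f3⟩ := c_s4 l t N M (i + 1) h
      have e : 4 * N + 4 + i + 1 = 4 * N + 4 + (i + 1) := by omega
      rw [e, e1, e2, e3, f1, f2, f3]; unfold Ad
      have := sn_step l i (by omega)
      omega
    · obtain ⟨f1, f2, f3⟩ := c_k4 l t N M 0 (by omega)
      have e : 4 * N + 4 + i + 1 = 4 * N + M + 4 + 0 := by omega
      rw [e, e1, e2, e3, f1, f2, f3]; unfold Ad
      obtain ⟨g1, g2⟩ := sn_last l l i (by omega) hle (by omega)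
      omega
  · subst hji
    obtain ⟨f1, f2, f3⟩ := c_e0 l t N M 0 (by omega)
    have e : 4 * N + M + 4 + i + 1 = 4 * N + M + 5 + 0 := by omega
    rw [e, e1, e2, e3, f1, f2, f3]; unfold Ad
    omega
  · subst hji
    by_cases h : i + 1 < l + 2
    · obtain ⟨f1, f2, f3⟩ := c_e0 l t N M (i + 1) h
      have e : 4 * N + M + 5 + i + 1 = 4 * N + M + 5 + (i + 1) := by omega
      rw [e, e1, e2, e3, f1, f2, f3]; unfold Ad
      omega
    · obtain ⟨f1, f2, f3⟩ := c_e1 l t N M 0 (by omega)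
      have e : 4 * N + M + 5 + i + 1 = 4 * N + M + 1 * l + 7 + 0 := by omega
      rw [e, e1, e2, e3, f1, f2, f3]; unfold Ad
      omega
  · subst hji
    by_cases h : i + 1 < l + 1
    · obtain ⟨f1, f2, f3⟩ := c_e1 l t N M (i + 1) h
      have e : 4 * N + M + 1 * l + 7 + i + 1 = 4 * N + M + 1 * l + 7 + (i + 1) := by omega
      rw [e, e1, e2, e3, f1, f2, f3]; unfold Ad
      omega
    · obtain ⟨f1, f2, f3⟩ := c_e2 l t N M 0 (by omega)
      have e : 4 * N + M + 1 * l + 7 + i + 1 = 4 * N + M + 2 * l + 8 + 0 := by omega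
      rw [e, e1, e2, e3, f1, f2, f3]; unfold Ad
      omega
  · subst hji
    by_cases h : i + 1 < l
    · obtain ⟨f1, f2, f3⟩ := c_e2 l t N M (i + 1) h
      have e : 4 * N + M + 2 * l + 8 + i + 1 = 4 * N + M + 2 * l + 8 + (i + 1) := by omega
      rw [e, e1, e2, e3, f1, f2, f3]; unfold Ad
      omega
    · exfalso; omega

theorem c_inj (l t N M : ℕ) (hl : 2 ≤ l) (hN : N = l * (t + 1)) (hM : M = l * l)
    (j j' : ℕ) (hj : j < 4 * N + M + 3 * l + 8) (hj' : j' < 4 * N + M + 3 * l + 8)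
    (h1 : cx l t N M j = cx l t N M j') (h2 : cy l t N M j = cy l t N M j')
    (h3 : cz l t N M j = cz l t N M j') : j = j' := by
  have A : ∀ i, 0 ≤ sc (t + 1) i ∧ 0 ≤ sa (t + 1) i ∧ sa (t + 1) i ≤ (t : ℤ) ∧
      (i < N → sc (t + 1) i ≤ (l : ℤ) - 1) := by
    intro i
    have h4 := sn_range (i + 1) (t + 1) i (by nlinarith)
    refine ⟨h4.1, h4.2.2.1, by push_cast at h4; linarith [h4.2.2.2], fun h => ?_⟩
    exact (sn_range l (t + 1) i (by omega)).2.1
  have B : ∀ i, 0 ≤ sc l i ∧ 0 ≤ sa l i ∧ sa l i ≤ (l : ℤ) - 1 ∧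
      (i < M → sc l i ≤ (l : ℤ) - 1) := by
    intro i
    have h4 := sn_range (i + 1) l i (by nlinarith)
    refine ⟨h4.1, h4.2.2.1, h4.2.2.2, fun h => ?_⟩
    exact (sn_range l l i (by omega)).2.1
  rcases c_cases l t N M j hj with ⟨i, hi, hji, e1, e2, e3⟩ |
    ⟨i, hi, hji, e1, e2, e3⟩ |
    ⟨i, hi, hji, e1, e2, e3⟩ |
    ⟨i, hi, hji, e1, e2, e3⟩ |
    ⟨i, hi, hji, e1, e2, e3⟩ |
    ⟨i, hi, hji, e1, e2, e3⟩ |
    ⟨i, hi, hji, e1, e2, e3⟩ |
    ⟨i, hi, hji, e1, e2, e3⟩ |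
    ⟨i, hi, hji, e1, e2, e3⟩ |
    ⟨i, hi, hji, e1, e2, e3⟩ |
    ⟨i, hi, hji, e1, e2, e3⟩ |
    ⟨i, hi, hji, e1, e2, e3⟩ |
    ⟨i, hi, hji, e1, e2, e3⟩ <;>
  rcases c_cases l t N M j' hj' with ⟨i', hi', hji', e1', e2', e3'⟩ |
    ⟨i', hi', hji', e1', e2', e3'⟩ |
    ⟨i', hi', hji', e1', e2', e3'⟩ |
    ⟨i', hi', hji', e1', e2', e3'⟩ |
    ⟨i', hi', hji', e1', e2', e3'⟩ |
    ⟨i', hi', hji', e1', e2', e3'⟩ |
    ⟨i', hi', hji', e1', e2', e3'⟩ |
    ⟨i', hi', hji', e1', e2', e3'⟩ |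
    ⟨i', hi', hji', e1', e2', e3'⟩ |
    ⟨i', hi', hji', e1', e2', e3'⟩ |
    ⟨i', hi', hji', e1', e2', e3'⟩ |
    ⟨i', hi', hji', e1', e2', e3'⟩ |
    ⟨i', hi', hji', e1', e2', e3'⟩ <;>
  · rw [e1, e1'] at h1
    rw [e2, e2'] at h2
    rw [e3, e3'] at h3
    have a1 := A i
    have a2 := A i'
    have b1 := B i
    have b2 := B i'
    have c1 := sn_inj (t + 1) i i'
    have c2 := sn_inj l i i'
    omega

theorem w_range (l t N M : ℕ) (hl : 2 ≤ l) (hN : N = l * (t + 1)) (hM : M = l * l)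
    (j : ℕ) (hj : j < 4 * N + M + 13) :
    0 ≤ wx l t N M j ∧ wx l t N M j ≤ (l : ℤ) + 3 ∧ 0 ≤ wy l t N M j ∧ wy l t N M j ≤ (l : ℤ) + 3 ∧
    0 ≤ wz l t N M j ∧ wz l t N M j ≤ (t : ℤ) + 2 ∧
    (wx l t N M j = 0 ∨ wx l t N M j = (l : ℤ) + 3 ∨ wy l t N M j = 0 ∨ wy l t N M j = (l : ℤ) + 3 ∨
      wz l t N M j = (t : ℤ) + 2) := by
  rcases w_cases l t N M j hj with ⟨i, hi, hji, e1, e2, e3⟩ |
    ⟨i, hi, hji, e1, e2, e3⟩ |
    ⟨i, hi, hji, e1, e2, e3⟩ |
    ⟨i, hi, hji, e1, e2, e3⟩ |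
    ⟨i, hi, hji, e1, e2, e3⟩ |
    ⟨i, hi, hji, e1, e2, e3⟩ |
    ⟨i, hi, hji, e1, e2, e3⟩ |
    ⟨i, hi, hji, e1, e2, e3⟩ |
    ⟨i, hi, hji, e1, e2, e3⟩ |
    ⟨i, hi, hji, e1, e2, e3⟩ |
    ⟨i, hi, hji, e1, e2, e3⟩ |
    ⟨i, hi, hji, e1, e2, e3⟩ |
    ⟨i, hi, hji, e1, e2, e3⟩ |
    ⟨i, hi, hji, e1, e2, e3⟩ |
    ⟨i, hi, hji, e1, e2, e3⟩ |
    ⟨i, hi, hji, e1, e2, e3⟩ |
    ⟨i, hi, hji, e1, e2, e3⟩ |
    ⟨i, hi, hji, e1, e2, e3⟩ <;> rw [e1, e2, e3]
  · have := sn_range l (t + 1) i (by omega)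
    push_cast at this
    omega
  · omega
  · omega
  · omega
  · have := sn_range l (t + 1) i (by omega)
    push_cast at this
    omega
  · omega
  · omega
  · omega
  · have := sn_range l (t + 1) i (by omega)
    push_cast at this
    omega
  · omega
  · omega
  · omega
  · have := sn_range l (t + 1) i (by omega)
    push_cast at this
    omega
  · omega
  · omega
  · omega
  · have := sn_range l l i (by omega)
    omega
  · omega

theorem c_range (l t N M : ℕ) (hl : 2 ≤ l) (hN : N = l * (t + 1)) (hM : M = l * l)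
    (j : ℕ) (hj : j < 4 * N + M + 3 * l + 8) :
    1 ≤ cx l t N M j ∧ cx l t N M j ≤ (l : ℤ) + 2 ∧ 1 ≤ cy l t N M j ∧ cy l t N M j ≤ (l : ℤ) + 2 ∧
    0 ≤ cz l t N M j ∧ cz l t N M j ≤ (t : ℤ) + 1 := by
  rcases c_cases l t N M j hj with ⟨i, hi, hji, e1, e2, e3⟩ |
    ⟨i, hi, hji, e1, e2, e3⟩ |
    ⟨i, hi, hji, e1, e2, e3⟩ |
    ⟨i, hi, hji, e1, e2, e3⟩ |
    ⟨i, hi, hji, e1, e2, e3⟩ |
    ⟨i, hi, hji, e1, e2, e3⟩ |
    ⟨i, hi, hji, e1, e2, e3⟩ |
    ⟨i, hi, hji, e1, e2, e3⟩ |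
    ⟨i, hi, hji, e1, e2, e3⟩ |
    ⟨i, hi, hji, e1, e2, e3⟩ |
    ⟨i, hi, hji, e1, e2, e3⟩ |
    ⟨i, hi, hji, e1, e2, e3⟩ |
    ⟨i, hi, hji, e1, e2, e3⟩ <;> rw [e1, e2, e3]
  · have := sn_range l (t + 1) i (by omega)
    push_cast at this
    omega
  · omega
  · have := sn_range l (t + 1) i (by omega)
    push_cast at this
    omega
  · omega
  · have := sn_range l (t + 1) i (by omega)
    push_cast at this
    omega
  · omega
  · have := sn_range l (t + 1) i (by omega)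
    push_cast at this
    omega
  · omega
  · have := sn_range l l i (by omega)
    omega
  · omega
  · omega
  · omega
  · omega

theorem gate_block (l t N M : ℕ) (c : ℤ) (hc : c = (l : ℤ) - 1 - t) (j : ℕ) (hj : j < 4 * N + M + 13)
    (hg : Gt l c (wx l t N M j) (wy l t N M j) (wz l t N M j)) :
    (∃ i < N, j = 0 + i) ∨ (∃ i < N, j = 1 * N + 3 + i) ∨ (∃ i < N, j = 2 * N + 6 + i) ∨ (∃ i < N, j = 3 * N + 9 + i) ∨
      (∃ i < M, j = 4 * N + 12 + i) := by
  unfold Gt at hg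
  rcases w_cases l t N M j hj with ⟨i, hi, hji, e1, e2, e3⟩ |
    ⟨i, hi, hji, e1, e2, e3⟩ |
    ⟨i, hi, hji, e1, e2, e3⟩ |
    ⟨i, hi, hji, e1, e2, e3⟩ |
    ⟨i, hi, hji, e1, e2, e3⟩ |
    ⟨i, hi, hji, e1, e2, e3⟩ |
    ⟨i, hi, hji, e1, e2, e3⟩ |
    ⟨i, hi, hji, e1, e2, e3⟩ |
    ⟨i, hi, hji, e1, e2, e3⟩ |
    ⟨i, hi, hji, e1, e2, e3⟩ |
    ⟨i, hi, hji, e1, e2, e3⟩ |
    ⟨i, hi, hji, e1, e2, e3⟩ |
    ⟨i, hi, hji, e1, e2, e3⟩ |
    ⟨i, hi, hji, e1, e2, e3⟩ |
    ⟨i, hi, hji, e1, e2, e3⟩ |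
    ⟨i, hi, hji, e1, e2, e3⟩ |
    ⟨i, hi, hji, e1, e2, e3⟩ |
    ⟨i, hi, hji, e1, e2, e3⟩
  · exact Or.inl ⟨i, hi, hji⟩
  · exfalso; rw [e1, e2, e3] at hg; omega
  · exfalso; rw [e1, e2, e3] at hg; omega
  · exfalso; rw [e1, e2, e3] at hg; omega
  · exact Or.inr <| Or.inl ⟨i, hi, hji⟩
  · exfalso; rw [e1, e2, e3] at hg; omega
  · exfalso; rw [e1, e2, e3] at hg; omega
  · exfalso; rw [e1, e2, e3] at hg; omega
  · exact Or.inr <| Or.inr <| Or.inl ⟨i, hi, hji⟩
  · exfalso; rw [e1, e2, e3] at hg; omega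
  · exfalso; rw [e1, e2, e3] at hg; omega
  · exfalso; rw [e1, e2, e3] at hg; omega
  · exact Or.inr <| Or.inr <| Or.inr <| Or.inl ⟨i, hi, hji⟩
  · exfalso; rw [e1, e2, e3] at hg; omega
  · exfalso; rw [e1, e2, e3] at hg; omega
  · exfalso; rw [e1, e2, e3] at hg; omega
  · exact Or.inr <| Or.inr <| Or.inr <| Or.inr <| ⟨i, hi, hji⟩
  · exfalso; rw [e1, e2, e3] at hg; omega

/-- matching of indices -/
def mm (N j : ℕ) : ℕ :=
  if j < N + 3 then j else if j < 2 * N + 6 then j - 2 else if j < 3 * N + 9 then j - 4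
  else if j < 4 * N + 12 then j - 6 else j - 8

theorem sq_pos (l t N M : ℕ) (hl : 2 ≤ l) (hle : Even l) (hN : N = l * (t + 1)) (hM : M = l * l) (j : ℕ)
    (hb : (∃ i < N, j = 0 + i) ∨ (∃ i < N, j = 1 * N + 3 + i) ∨ (∃ i < N, j = 2 * N + 6 + i) ∨ (∃ i < N, j = 3 * N + 9 + i) ∨
      (∃ i < M, j = 4 * N + 12 + i)) :
    mm N j + 1 < 4 * N + M + 3 * l + 8 ∧
    Ad (wx l t N M j) (wy l t N M j) (wz l t N M j) (cx l t N M (mm N j)) (cy l t N M (mm N j))
      (cz l t N M (mm N j)) ∧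
    Ad (wx l t N M (j + 1)) (wy l t N M (j + 1)) (wz l t N M (j + 1)) (cx l t N M (mm N j + 1))
      (cy l t N M (mm N j + 1)) (cz l t N M (mm N j + 1)) := by
  have hNpos : 0 < N := by rw [hN]; positivity
  have hMpos : 0 < M := by rw [hM]; positivity
  rcases hb with ⟨i, hi, rfl⟩ | ⟨i, hi, rfl⟩ | ⟨i, hi, rfl⟩ | ⟨i, hi, rfl⟩ | ⟨i, hi, rfl⟩
  · have hm : mm N (0 + i) = 0 + i := by
      unfold mm; split_ifs <;> omega
    obtain ⟨e1, e2, e3⟩ := w_s0 l t N M i hi
    obtain ⟨d1, d2, d3⟩ := c_s0 l t N M i hi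
    rw [hm]
    refine ⟨by omega, by rw [e1, e2, e3, d1, d2, d3]; unfold Ad; omega, ?_⟩
    by_cases h : i + 1 < N
    · obtain ⟨f1, f2, f3⟩ := w_s0 l t N M (i + 1) h
      obtain ⟨g1, g2, g3⟩ := c_s0 l t N M (i + 1) h
      have e : 0 + i + 1 = 0 + (i + 1) := by omega
      have e' : 0 + i + 1 = 0 + (i + 1) := by omega
      rw [e, f1, f2, f3, g1, g2, g3]; unfold Ad; omega
    · obtain ⟨f1, f2, f3⟩ := w_k00 l t N M 0 (by omega)
      obtain ⟨g1, g2, g3⟩ := c_k0 l t N M 0 (by omega)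
      have e : 0 + i + 1 = 1 * N + 0 := by omega
      rw [e, f1, f2, f3, g1, g2, g3]; unfold Ad; omega
  · have hm : mm N (1 * N + 3 + i) = 1 * N + 1 + i := by
      unfold mm; split_ifs <;> omega
    obtain ⟨e1, e2, e3⟩ := w_s1 l t N M i hi
    obtain ⟨d1, d2, d3⟩ := c_s1 l t N M i hi
    rw [hm]
    refine ⟨by omega, by rw [e1, e2, e3, d1, d2, d3]; unfold Ad; omega, ?_⟩
    by_cases h : i + 1 < N
    · obtain ⟨f1, f2, f3⟩ := w_s1 l t N M (i + 1) h
      obtain ⟨g1, g2, g3⟩ := c_s1 l t N M (i + 1) h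
      have e : 1 * N + 3 + i + 1 = 1 * N + 3 + (i + 1) := by omega
      have e' : 1 * N + 1 + i + 1 = 1 * N + 1 + (i + 1) := by omega
      rw [e, e', f1, f2, f3, g1, g2, g3]; unfold Ad; omega
    · obtain ⟨f1, f2, f3⟩ := w_k10 l t N M 0 (by omega)
      obtain ⟨g1, g2, g3⟩ := c_k1 l t N M 0 (by omega)
      have e : 1 * N + 3 + i + 1 = 2 * N + 3 + 0 := by omega
      have e' : 1 * N + 1 + i + 1 = 2 * N + 1 + 0 := by omega
      rw [e, e', f1, f2, f3, g1, g2, g3]; unfold Ad; omega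
  · have hm : mm N (2 * N + 6 + i) = 2 * N + 2 + i := by
      unfold mm; split_ifs <;> omega
    obtain ⟨e1, e2, e3⟩ := w_s2 l t N M i hi
    obtain ⟨d1, d2, d3⟩ := c_s2 l t N M i hi
    rw [hm]
    refine ⟨by omega, by rw [e1, e2, e3, d1, d2, d3]; unfold Ad; omega, ?_⟩
    by_cases h : i + 1 < N
    · obtain ⟨f1, f2, f3⟩ := w_s2 l t N M (i + 1) h
      obtain ⟨g1, g2, g3⟩ := c_s2 l t N M (i + 1) h
      have e : 2 * N + 6 + i + 1 = 2 * N + 6 + (i + 1) := by omega
      have e' : 2 * N + 2 + i + 1 = 2 * N + 2 + (i + 1) := by omega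
      rw [e, e', f1, f2, f3, g1, g2, g3]; unfold Ad; omega
    · obtain ⟨f1, f2, f3⟩ := w_k20 l t N M 0 (by omega)
      obtain ⟨g1, g2, g3⟩ := c_k2 l t N M 0 (by omega)
      have e : 2 * N + 6 + i + 1 = 3 * N + 6 + 0 := by omega
      have e' : 2 * N + 2 + i + 1 = 3 * N + 2 + 0 := by omega
      rw [e, e', f1, f2, f3, g1, g2, g3]; unfold Ad; omega
  · have hm : mm N (3 * N + 9 + i) = 3 * N + 3 + i := by
      unfold mm; split_ifs <;> omega
    obtain ⟨e1, e2, e3⟩ := w_s3 l t N M i hi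
    obtain ⟨d1, d2, d3⟩ := c_s3 l t N M i hi
    rw [hm]
    refine ⟨by omega, by rw [e1, e2, e3, d1, d2, d3]; unfold Ad; omega, ?_⟩
    by_cases h : i + 1 < N
    · obtain ⟨f1, f2, f3⟩ := w_s3 l t N M (i + 1) h
      obtain ⟨g1, g2, g3⟩ := c_s3 l t N M (i + 1) h
      have e : 3 * N + 9 + i + 1 = 3 * N + 9 + (i + 1) := by omega
      have e' : 3 * N + 3 + i + 1 = 3 * N + 3 + (i + 1) := by omega
      rw [e, e', f1, f2, f3, g1, g2, g3]; unfold Ad; omega
    · obtain ⟨f1, f2, f3⟩ := w_k30 l t N M 0 (by omega)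
      obtain ⟨g1, g2, g3⟩ := c_k3 l t N M 0 (by omega)
      have e : 3 * N + 9 + i + 1 = 4 * N + 9 + 0 := by omega
      have e' : 3 * N + 3 + i + 1 = 4 * N + 3 + 0 := by omega
      rw [e, e', f1, f2, f3, g1, g2, g3]; unfold Ad; omega
  · have hm : mm N (4 * N + 12 + i) = 4 * N + 4 + i := by
      unfold mm; split_ifs <;> omega
    obtain ⟨e1, e2, e3⟩ := w_s4 l t N M i hi
    obtain ⟨d1, d2, d3⟩ := c_s4 l t N M i hi
    rw [hm]
    refine ⟨by omega, by rw [e1, e2, e3, d1, d2, d3]; unfold Ad; omega, ?_⟩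
    by_cases h : i + 1 < M
    · obtain ⟨f1, f2, f3⟩ := w_s4 l t N M (i + 1) h
      obtain ⟨g1, g2, g3⟩ := c_s4 l t N M (i + 1) h
      have e : 4 * N + 12 + i + 1 = 4 * N + 12 + (i + 1) := by omega
      have e' : 4 * N + 4 + i + 1 = 4 * N + 4 + (i + 1) := by omega
      rw [e, e', f1, f2, f3, g1, g2, g3]; unfold Ad; omega
    · obtain ⟨f1, f2, f3⟩ := w_k4 l t N M 0 (by omega)
      obtain ⟨g1, g2, g3⟩ := c_k4 l t N M 0 (by omega)
      have e : 4 * N + 12 + i + 1 = 4 * N + M + 12 + 0 := by omega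
      have e' : 4 * N + 4 + i + 1 = 4 * N + M + 4 + 0 := by omega
      rw [e, e', f1, f2, f3, g1, g2, g3]; unfold Ad; omega

theorem mm_sep (N M j j' : ℕ) (hjj : j + 2 ≤ j')
    (hb : (∃ i < N, j = 0 + i) ∨ (∃ i < N, j = 1 * N + 3 + i) ∨ (∃ i < N, j = 2 * N + 6 + i) ∨ (∃ i < N, j = 3 * N + 9 + i) ∨
      (∃ i < M, j = 4 * N + 12 + i))
    (hb' : (∃ i < N, j' = 0 + i) ∨ (∃ i < N, j' = 1 * N + 3 + i) ∨ (∃ i < N, j' = 2 * N + 6 + i) ∨ (∃ i < N, j' = 3 * N + 9 + i) ∨
      (∃ i < M, j' = 4 * N + 12 + i)) : mm N j + 2 ≤ mm N j' := by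
  unfold mm
  rcases hb with ⟨i, hi, e⟩ | ⟨i, hi, e⟩ | ⟨i, hi, e⟩ | ⟨i, hi, e⟩ | ⟨i, hi, e⟩ <;>
  rcases hb' with ⟨i', hi', e'⟩ | ⟨i', hi', e'⟩ | ⟨i', hi', e'⟩ | ⟨i', hi', e'⟩ | ⟨i', hi', e'⟩ <;>
  split_ifs <;> omega

end RB

/-! Targets. -/

/-- Rails in a tile at the wall: the tile is cut off at height `c + 2`. -/
theorem rails_bottom (L c : ℤ) (hL : 2 ≤ L) (hLe : Even L) (hc : 0 ≤ c) (hc' : c < L)
    (b : Fin 3 → ℤ) (hb : b 2 = 0) :
    ∃ (W C : List (Fin 3 → ℤ)) (m : ℕ → ℕ),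
      Rails (LatH (c + 2)) (tile L) (fun v => IsGate L v ∧ c + 2 ≤ v 2) b W C m ∧
      ∃ v ∈ C, v 2 = c + 2 := by
  obtain ⟨l, rfl⟩ := Int.eq_ofNat_of_zero_le (by omega : 0 ≤ L)
  obtain ⟨t, ht⟩ := Int.eq_ofNat_of_zero_le (by omega : 0 ≤ (l : ℤ) - 1 - c)
  have hcl : c = (l : ℤ) - 1 - t := by omega
  have hl : 2 ≤ l := by exact_mod_cast hL
  have hle : Even l := by exact_mod_cast hLe
  obtain ⟨N, hN⟩ : ∃ N, N = l * (t + 1) := ⟨_, rfl⟩
  obtain ⟨M, hM⟩ : ∃ M, M = l * l := ⟨_, rfl⟩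
  have hNpos : 0 < N := by rw [hN]; positivity
  have hMpos : 0 < M := by rw [hM]; positivity
  have hWr := w_range l t N M hl hN hM
  have hCr := c_range l t N M hl hN hM
  have hgate : ∀ j, j < 4 * N + M + 13 →
      (IsGate (l : ℤ) (mk b l c (wx l t N M j) (wy l t N M j) (wz l t N M j)) ∧
        c + 2 ≤ mk b l c (wx l t N M j) (wy l t N M j) (wz l t N M j) 2) →
      (∃ i < N, j = 0 + i) ∨ (∃ i < N, j = 1 * N + 3 + i) ∨ (∃ i < N, j = 2 * N + 6 + i) ∨ (∃ i < N, j = 3 * N + 9 + i) ∨ (∃ i < M, j = 4 * N + 12 + i) := by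
    intro j hj hg
    have r := hWr j hj
    have g := mk_gate (b := b) (c := c) (by omega : (0 : ℤ) ≤ (l : ℤ)) hc r.1 r.2.1 r.2.2.1
      r.2.2.2.1 r.2.2.2.2.1 (by omega) hg.1
    exact gate_block l t N M c hcl j hj g
  refine ⟨(List.range (4 * N + M + 13)).map
      (fun j => mk b l c (wx l t N M j) (wy l t N M j) (wz l t N M j)),
    (List.range (4 * N + M + 3 * l + 8)).map
      (fun j => mk b l c (cx l t N M j) (cy l t N M j) (cz l t N M j)), mm N, ?_, ?_⟩
  · constructor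
    · apply List.Nodup.map_on _ List.nodup_range
      intro x hx y hy h
      rw [List.mem_range] at hx hy
      obtain ⟨h1, h2, h3⟩ := mk_inj h
      exact w_inj l t N M hl hN hM x y hx hy h1 h2 h3
    · intro j h
      rw [List.length_map, List.length_range] at h
      simp only [List.getElem_map, List.getElem_range]
      exact mk_adj (hWr j (by omega)).2.2.2.2.1 (hWr (j + 1) h).2.2.2.2.1
        (w_adj l t N M hl hle hN hM j h)
    · intro v hv
      rw [List.mem_map] at hv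
      obtain ⟨j, hj, rfl⟩ := hv
      rw [List.mem_range] at hj
      have r := hWr j hj
      exact mk_tile (by omega) hc hb r.1 r.2.1 r.2.2.1 r.2.2.2.1 r.2.2.2.2.1 (by omega)
    · apply List.Nodup.map_on _ List.nodup_range
      intro x hx y hy h
      rw [List.mem_range] at hx hy
      obtain ⟨h1, h2, h3⟩ := mk_inj h
      exact c_inj l t N M hl hN hM x y hx hy h1 h2 h3
    · rw [List.length_map, List.length_range]; omega
    · intro j h
      rw [List.length_map, List.length_range] at h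
      simp only [List.getElem_map, List.getElem_range]
      exact mk_adj (hCr j (by omega)).2.2.2.2.1 (hCr (j + 1) h).2.2.2.2.1
        (c_adj l t N M hl hle hN hM j h)
    · intro x hx y hy
      have hpos : 4 * N + M + 3 * l + 8 ≠ 0 := by omega
      rw [List.head?_map, List.head?_range, if_neg hpos, Option.map_some, Option.mem_some_iff] at hx
      rw [List.getLast?_map, List.getLast?_range, if_neg hpos, Option.map_some,
        Option.mem_some_iff] at hy
      rw [← hx, ← hy]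
      refine mk_adj (hCr _ (by omega)).2.2.2.2.1 (hCr 0 (by omega)).2.2.2.2.1 ?_
      obtain ⟨e1, e2, e3⟩ := c_e2 l t N M (l - 1) (by omega)
      have e : 4 * N + M + 3 * l + 8 - 1 = 4 * N + M + 2 * l + 8 + (l - 1) := by omega
      obtain ⟨d1, d2, d3⟩ := c_s0 l t N M 0 (by omega)
      have e0 : (0 : ℕ) = 0 + 0 := rfl
      rw [e, e1, e2, e3]
      rw [Nat.zero_add] at d1 d2 d3
      rw [d1, d2, d3, (sn_zero (t + 1)).1, (sn_zero (t + 1)).2]
      unfold Ad
      omega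
    · intro v hv
      rw [List.mem_map] at hv
      obtain ⟨j, hj, rfl⟩ := hv
      rw [List.mem_range] at hj
      have r := hCr j hj
      exact mk_tile (by omega) hc hb (by omega) (by omega) (by omega) (by omega) r.2.2.2.2.1
        (by omega)
    · intro v hv hv'
      rw [List.mem_map] at hv hv'
      obtain ⟨j, hj, rfl⟩ := hv
      obtain ⟨j', hj', h⟩ := hv'
      rw [List.mem_range] at hj hj'
      obtain ⟨h1, h2, h3⟩ := mk_inj h
      have r := hWr j hj
      have r' := hCr j' hj'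
      omega
    · intro v hg hv
      obtain ⟨x, y, z, rfl, r1, r2, r3, r4, r5, r6⟩ := exists_mk (by omega) hb hv hg.2
      have g := mk_gate (by omega) hc r1 r2 r3 r4 r5 r6 hg.1
      rw [List.mem_map]
      unfold Gt at g
      have fin : ∀ j, j < 4 * N + M + 13 → wx l t N M j = x → wy l t N M j = y →
          wz l t N M j = z → ∃ a ∈ List.range (4 * N + M + 13),
            mk b l c (wx l t N M a) (wy l t N M a) (wz l t N M a) = mk b l c x y z := by
        intro j hj h1 h2 h3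
        exact ⟨j, List.mem_range.mpr hj, by rw [h1, h2, h3]⟩
      rcases g with ⟨hx | hx, g1, g2, g3⟩ | ⟨hy | hy, g1, g2, g3⟩ | ⟨hz, g1, g2, g3, g4⟩
      · obtain ⟨k, hk, k1, k2⟩ := sn_surj l (t + 1) (y - 2) (t - z) (by omega) (by omega)
          (by omega) (by push_cast; omega)
        obtain ⟨e1, e2, e3⟩ := w_s0 l t N M k (by omega)
        exact fin (0 + k) (by omega) (by rw [e1]; omega) (by rw [e2]; omega) (by rw [e3]; omega)
      · obtain ⟨k, hk, k1, k2⟩ := sn_surj l (t + 1) (l + 1 - y) (t - z) (by omega) (by omega)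
          (by omega) (by push_cast; omega)
        obtain ⟨e1, e2, e3⟩ := w_s2 l t N M k (by omega)
        exact fin (2 * N + 6 + k) (by omega) (by rw [e1]; omega) (by rw [e2]; omega) (by rw [e3]; omega)
      · obtain ⟨k, hk, k1, k2⟩ := sn_surj l (t + 1) (l + 1 - x) (t - z) (by omega) (by omega)
          (by omega) (by push_cast; omega)
        obtain ⟨e1, e2, e3⟩ := w_s3 l t N M k (by omega)
        exact fin (3 * N + 9 + k) (by omega) (by rw [e1]; omega) (by rw [e2]; omega) (by rw [e3]; omega)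
      · obtain ⟨k, hk, k1, k2⟩ := sn_surj l (t + 1) (x - 2) (t - z) (by omega) (by omega)
          (by omega) (by push_cast; omega)
        obtain ⟨e1, e2, e3⟩ := w_s1 l t N M k (by omega)
        exact fin (1 * N + 3 + k) (by omega) (by rw [e1]; omega) (by rw [e2]; omega) (by rw [e3]; omega)
      · obtain ⟨k, hk, k1, k2⟩ := sn_surj l l (x - 2) (y - 2) (by omega) (by omega)
          (by omega) (by omega)
        obtain ⟨e1, e2, e3⟩ := w_s4 l t N M k (by omega)
        exact fin (4 * N + 12 + k) (by omega) (by rw [e1]; omega) (by rw [e2]; omega) (by rw [e3]; omega)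
    · intro j h hg
      rw [List.length_map, List.length_range] at h
      simp only [List.getElem_map, List.getElem_range] at hg
      obtain ⟨s1, s2, s3⟩ := sq_pos l t N M hl hle hN hM j (hgate j (by omega) hg)
      refine ⟨by rw [List.length_map, List.length_range]; exact s1, ?_, ?_⟩
      · simp only [List.getElem_map, List.getElem_range]
        exact mk_adj (hWr j (by omega)).2.2.2.2.1 (hCr _ (by omega)).2.2.2.2.1 s2
      · simp only [List.getElem_map, List.getElem_range]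
        exact mk_adj (hWr (j + 1) h).2.2.2.2.1 (hCr _ s1).2.2.2.2.1 s3
    · intro j j' hjj h' hg hg'
      rw [List.length_map, List.length_range] at h'
      simp only [List.getElem_map, List.getElem_range] at hg hg'
      exact mm_sep N M j j' hjj (hgate j (by omega) hg) (hgate j' (by omega) hg')
  · obtain ⟨k, hk, k1, k2⟩ := sn_surj l (t + 1) 0 t (by omega) (by omega)
      (by omega) (by push_cast; omega)
    obtain ⟨e1, e2, e3⟩ := c_s0 l t N M k (by omega)
    refine ⟨mk b l c (cx l t N M (0 + k)) (cy l t N M (0 + k)) (cz l t N M (0 + k)),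
      List.mem_map.mpr ⟨0 + k, List.mem_range.mpr (by omega), rfl⟩, ?_⟩
    have : mk b l c (cx l t N M (0 + k)) (cy l t N M (0 + k)) (cz l t N M (0 + k)) 2
        = c + 2 + cz l t N M (0 + k) := rfl
    rw [this, e3, k2]
    ring

end Pool.Agent.Helper772.HB
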