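import Mathlib
set_option autoImplicit false
namespace Pool.Agent.Helper772

/-- Two lattice points of `ℤ³` at distance one. -/
def Nbr (x y : Fin 3 → ℤ) : Prop := ∑ k, |x k - y k| = 1

/-- The half space `H = {x : x₁ ≥ 0}`; the coordinate `x₁` is `x 0`. -/
def HalfSpace : Set (Fin 3 → ℤ) := {x | 0 ≤ x 0}

/-- The wall `Σ = {x : x₁ = 0}`. -/
def Wall : Set (Fin 3 → ℤ) := {x | x 0 = 0}

/-- Number of vertices on the wall, for a walk or polygon with vertex set `V`. -/
noncomputable def visits (V : Set (Fin 3 → ℤ)) : ℕ := (V ∩ Wall).ncard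

/-- Number of contacts of a walk or polygon with vertex set `V` and edge set `E`: unordered pairs of
vertices at distance one that are not joined by an edge. -/
noncomputable def contacts (V : Set (Fin 3 → ℤ)) (E : Set (Sym2 (Fin 3 → ℤ))) : ℕ :=
  {e : Sym2 (Fin 3 → ℤ) | e ∉ E ∧ ∃ x ∈ V, ∃ y ∈ V, Nbr x y ∧ e = s(x, y)}.ncard

/-- The edges traversed by the sequence of vertices `w`. -/
def edges {n : ℕ} (w : Fin (n + 1) → Fin 3 → ℤ) : Set (Sym2 (Fin 3 → ℤ)) :=
  {e | ∃ i : Fin n, e = s(w i.castSucc, w i.succ)}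

/-- The vertices of a set of edges. -/
def verts (E : Set (Sym2 (Fin 3 → ℤ))) : Set (Fin 3 → ℤ) := {x | ∃ e ∈ E, x ∈ e}

/-- The `n`-step self-avoiding walks in the half space that start at the origin. -/
def Walks (n : ℕ) : Set (Fin (n + 1) → Fin 3 → ℤ) :=
  {w | w 0 = 0 ∧ Function.Injective w ∧ (∀ i, w i ∈ HalfSpace) ∧
    ∀ i : Fin n, Nbr (w i.castSucc) (w i.succ)}

/-- The partition function `Z_n(ζ, γ)` of walks. -/
noncomputable def Z (n : ℕ) (ζ γ : ℝ) : ℝ :=
  ∑' w : Walks n, Real.exp (ζ * visits (Set.range w.1) + γ * contacts (Set.range w.1) (edges w.1))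

/-- `E` is the edge set of a self-avoiding polygon with `n ≥ 3` edges in the half space: it is
traversed once by a closed sequence of neighbouring points without repetition. -/
def IsPolygon (n : ℕ) (E : Set (Sym2 (Fin 3 → ℤ))) : Prop :=
  3 ≤ n ∧ ∃ w : Fin (n + 1) → Fin 3 → ℤ, w (Fin.last n) = w 0 ∧
    Function.Injective (fun i : Fin n => w i.castSucc) ∧ (∀ i, w i ∈ HalfSpace) ∧
    (∀ i : Fin n, Nbr (w i.castSucc) (w i.succ)) ∧ E = edges w

/-- The self-avoiding polygons with `n` edges in the half space that have a vertex on the wall. -/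
def Polygons (n : ℕ) : Type :=
  {E : Set (Sym2 (Fin 3 → ℤ)) // IsPolygon n E ∧ (verts E ∩ Wall).Nonempty}

/-- The translation of a set of edges by `a`. -/
def shift (a : Fin 3 → ℤ) (E : Set (Sym2 (Fin 3 → ℤ))) : Set (Sym2 (Fin 3 → ℤ)) :=
  Sym2.map (fun x => x + a) '' E

/-- Two polygons are identified when they differ by a translation parallel to the wall. -/
def parallelSetoid (n : ℕ) : Setoid (Polygons n) where
  r P P' := ∃ a : Fin 3 → ℤ, a 0 = 0 ∧ P'.1 = shift a P.1
  iseqv := by
    have hs : ∀ (a b : Fin 3 → ℤ) (E : Set (Sym2 (Fin 3 → ℤ))),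
        shift b (shift a E) = shift (a + b) E := by
      intro a b E
      unfold shift
      rw [Set.image_image]
      apply Set.image_congr
      intro e _
      rw [Sym2.map_map]
      congr 1
      funext x
      simp only [Function.comp_apply]
      rw [add_assoc]
    have h0 : ∀ E : Set (Sym2 (Fin 3 → ℤ)), shift 0 E = E := by
      intro E
      unfold shift
      have : (Sym2.map fun x : Fin 3 → ℤ => x + 0) = id := by
        have h1 : (fun x : Fin 3 → ℤ => x + 0) = id := by funext x; simp
        rw [h1, Sym2.map_id]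
      rw [this, Set.image_id]
    refine ⟨fun P => ⟨0, rfl, (h0 P.1).symm⟩, ?_, ?_⟩
    · rintro P P' ⟨a, ha, h⟩
      exact ⟨-a, by simp [ha], by rw [h, hs]; simp [h0]⟩
    · rintro P P' P'' ⟨a, ha, h⟩ ⟨b, hb, h'⟩
      exact ⟨a + b, by simp [ha, hb], by rw [h', h, hs]⟩

/-- The partition function `Q_n(ζ, γ)` of polygons modulo translations parallel to the wall (the
weight of a class is the weight of any polygon in it). -/
noncomputable def Q (n : ℕ) (ζ γ : ℝ) : ℝ :=
  ∑' p : Quotient (parallelSetoid n),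
    Real.exp (ζ * visits (verts p.out.1) + γ * contacts (verts p.out.1) p.out.1)

end Pool.Agent.Helper772
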