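import Mathlib
import Pool.Agent.Helper772.Defs
set_option autoImplicit false
namespace Pool.Agent.Helper772.W


lemma steps_bound {d n : ℕ} {w : Fin (n + 1) → Fin d → ℤ} (h0 : w 0 = 0)
    (h : ∀ i : Fin n, ∑ k, |w i.castSucc k - w i.succ k| = 1) (k : Fin d) :
    ∀ (i : ℕ) (hi : i < n + 1), |w ⟨i, hi⟩ k| ≤ i := by
  intro i
  induction i with
  | zero =>
    intro hi
    have : w ⟨0, hi⟩ = 0 := h0
    rw [this]
    simp
  | succ i ih =>
    intro hi
    have h1 := ih (by omega)
    have h2 := h ⟨i, by omega⟩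
    have h3 : |w ⟨i, by omega⟩ k - w ⟨i + 1, hi⟩ k| ≤ 1 := by
      rw [← h2]
      exact Finset.single_le_sum (f := fun k => |w ⟨i, by omega⟩ k - w ⟨i + 1, hi⟩ k|)
        (fun _ _ => abs_nonneg _) (Finset.mem_univ k)
    push_cast
    rw [abs_le] at *
    constructor <;> linarith [h1.1, h1.2, h3.1, h3.2]

lemma box_of_steps {d n : ℕ} {w : Fin (n + 1) → Fin d → ℤ} (h0 : w 0 = 0)
    (h : ∀ i : Fin n, ∑ k, |w i.castSucc k - w i.succ k| = 1) (i : Fin (n + 1)) (k : Fin d) :
    -(n : ℤ) ≤ w i k ∧ w i k ≤ n := by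
  have h1 := steps_bound h0 h k i.val i.isLt
  have h2 : (i.val : ℤ) ≤ n := by exact_mod_cast Nat.lt_succ_iff.1 i.isLt
  rw [abs_le] at h1
  have e : w ⟨i.val, i.isLt⟩ k = w i k := rfl
  rw [e] at h1
  constructor <;> linarith [h1.1, h1.2]

/-- membership in `sawSet` (the box constraint is automatic) -/
theorem mem_sawSet (d n : ℕ) (w : Fin (n + 1) → Fin d → ℤ) :
    w ∈ sawSet d n ↔ w 0 = 0 ∧ Function.Injective w ∧
      ∀ i : Fin n, ∑ k, |w i.castSucc k - w i.succ k| = 1 := by
  classical
  unfold sawSet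
  rw [Finset.mem_filter]
  refine ⟨fun h => h.2, fun h => ⟨?_, h⟩⟩
  rw [Fintype.mem_piFinset]
  intro i
  rw [Fintype.mem_piFinset]
  intro k
  rw [Finset.mem_Icc]
  exact box_of_steps h.1 h.2.2 i k

/-- membership in `polySet` (the box constraint is automatic) -/
theorem mem_polySet (d M : ℕ) (w : Fin (M + 1) → Fin d → ℤ) :
    w ∈ polySet d M ↔ w 0 = 0 ∧ w (Fin.last M) = 0 ∧
      Function.Injective (fun i : Fin M => w i.castSucc) ∧
      ∀ i : Fin M, ∑ k, |w i.castSucc k - w i.succ k| = 1 := by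
  classical
  unfold polySet
  rw [Finset.mem_filter]
  refine ⟨fun h => h.2, fun h => ⟨?_, h⟩⟩
  rw [Fintype.mem_piFinset]
  intro i
  rw [Fintype.mem_piFinset]
  intro k
  rw [Finset.mem_Icc]
  exact box_of_steps h.1 h.2.2.2 i k

/-- neighbours differ by one unit in one coordinate -/
lemma nbr_form {d : ℕ} {x y : Fin d → ℤ} (h : ∑ i, |x i - y i| = 1) :
    ∃ (k : Fin d) (b : Bool), y = Function.update x k (x k + if b then 1 else -1) := by
  have hex : ∃ k, |x k - y k| ≠ 0 := by
    by_contra hcon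
    push Not at hcon
    rw [Finset.sum_eq_zero fun i _ => hcon i] at h
    norm_num at h
  obtain ⟨k, hk⟩ := hex
  have hk1 : 1 ≤ |x k - y k| := by
    have := abs_nonneg (x k - y k)
    omega
  have hsplit := Finset.add_sum_erase Finset.univ (fun i => |x i - y i|) (Finset.mem_univ k)
  rw [h] at hsplit
  have hnn : 0 ≤ ∑ i ∈ Finset.univ.erase k, |x i - y i| :=
    Finset.sum_nonneg fun _ _ => abs_nonneg _
  have hk2 : |x k - y k| = 1 := by omega
  have hz : ∑ i ∈ Finset.univ.erase k, |x i - y i| = 0 := by omega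
  rw [Finset.sum_eq_zero_iff_of_nonneg fun _ _ => abs_nonneg _] at hz
  have hother : ∀ i, i ≠ k → y i = x i := by
    intro i hi
    have := hz i (Finset.mem_erase.2 ⟨hi, Finset.mem_univ i⟩)
    rw [abs_eq_zero] at this
    omega
  rcases (abs_eq (by norm_num : (0 : ℤ) ≤ 1)).1 hk2 with h1 | h1
  · refine ⟨k, false, ?_⟩
    funext i
    by_cases hi : i = k
    · subst hi
      rw [Function.update_self]
      simp only [Bool.false_eq_true, if_false]
      omega
    · rw [Function.update_of_ne hi]
      exact hother i hi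
  · refine ⟨k, true, ?_⟩
    funext i
    by_cases hi : i = k
    · subst hi
      rw [Function.update_self]
      simp only [if_true]
      omega
    · rw [Function.update_of_ne hi]
      exact hother i hi

/-- ordered adjacent pairs with the first point in `T` -/
lemma card_first_le {d : ℕ} (T U : Finset (Fin d → ℤ)) :
    ((T ×ˢ U).filter (fun p => ∑ i, |p.1 i - p.2 i| = 1)).card ≤ 2 * d * T.card := by
  classical
  have hsub : ((T ×ˢ U).filter (fun p => ∑ i, |p.1 i - p.2 i| = 1)) ⊆
      (T ×ˢ (Finset.univ : Finset (Fin d × Bool))).image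
        (fun q => (q.1, Function.update q.1 q.2.1 (q.1 q.2.1 + if q.2.2 then 1 else -1))) := by
    intro p hp
    rw [Finset.mem_filter, Finset.mem_product] at hp
    obtain ⟨k, b, hkb⟩ := nbr_form hp.2
    rw [Finset.mem_image]
    refine ⟨(p.1, (k, b)), ?_, ?_⟩
    · rw [Finset.mem_product]
      exact ⟨hp.1.1, Finset.mem_univ _⟩
    · exact Prod.ext rfl hkb.symm
  refine le_trans (Finset.card_le_card hsub) (le_trans Finset.card_image_le ?_)
  rw [Finset.card_product, Finset.card_univ, Fintype.card_prod, Fintype.card_fin,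
    Fintype.card_bool]
  exact le_of_eq (by ring)

/-- ordered adjacent pairs with the second point in `T` -/
lemma card_second_le {d : ℕ} (T U : Finset (Fin d → ℤ)) :
    ((U ×ˢ T).filter (fun p => ∑ i, |p.1 i - p.2 i| = 1)).card ≤ 2 * d * T.card := by
  classical
  refine le_trans (le_of_eq ?_) (card_first_le T U)
  apply Finset.card_bij (fun p _ => (p.2, p.1))
  · intro p hp
    rw [Finset.mem_filter, Finset.mem_product] at hp ⊢
    refine ⟨⟨hp.1.2, hp.1.1⟩, ?_⟩
    rw [← hp.2]
    exact Finset.sum_congr rfl fun i _ => abs_sub_comm _ _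
  · intro p _ q _ h
    exact Prod.ext (congrArg Prod.snd h) (congrArg Prod.fst h)
  · intro p hp
    rw [Finset.mem_filter, Finset.mem_product] at hp
    refine ⟨(p.2, p.1), ?_, rfl⟩
    rw [Finset.mem_filter, Finset.mem_product]
    refine ⟨⟨hp.1.2, hp.1.1⟩, ?_⟩
    rw [← hp.2]
    exact Finset.sum_congr rfl fun i _ => abs_sub_comm _ _

/-- crude bound: a finite set has at most `2 d |S|` ordered adjacent pairs -/
theorem adjPairs_le (d : ℕ) (S : Finset (Fin d → ℤ)) : adjPairs S ≤ 2 * d * S.card :=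
  card_first_le S S

/-- adding a set `T` adds at most `4 d |T|` ordered adjacent pairs -/
theorem adjPairs_union_le (d : ℕ) (S T : Finset (Fin d → ℤ)) :
    adjPairs (S ∪ T) ≤ adjPairs S + 4 * d * T.card := by
  have hsub : ((S ∪ T) ×ˢ (S ∪ T)).filter (fun p => ∑ i, |p.1 i - p.2 i| = 1) ⊆
      ((S ×ˢ S).filter (fun p => ∑ i, |p.1 i - p.2 i| = 1)) ∪
      (((T ×ˢ (S ∪ T)).filter (fun p => ∑ i, |p.1 i - p.2 i| = 1)) ∪
        (((S ∪ T) ×ˢ T).filter (fun p => ∑ i, |p.1 i - p.2 i| = 1))) := by
    intro p hp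
    simp only [Finset.mem_union, Finset.mem_filter, Finset.mem_product] at hp ⊢
    tauto
  have h1 := Finset.card_le_card hsub
  have h2 := Finset.card_union_le ((S ×ˢ S).filter (fun p => ∑ i, |p.1 i - p.2 i| = 1))
      (((T ×ˢ (S ∪ T)).filter (fun p => ∑ i, |p.1 i - p.2 i| = 1)) ∪
        (((S ∪ T) ×ˢ T).filter (fun p => ∑ i, |p.1 i - p.2 i| = 1)))
  have h3 := Finset.card_union_le ((T ×ˢ (S ∪ T)).filter (fun p => ∑ i, |p.1 i - p.2 i| = 1))
        (((S ∪ T) ×ˢ T).filter (fun p => ∑ i, |p.1 i - p.2 i| = 1))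
  have h4 := card_first_le T (S ∪ T)
  have h5 := card_second_le T (S ∪ T)
  unfold adjPairs
  have e : 4 * d * T.card = 2 * d * T.card + 2 * d * T.card := by ring
  omega

/-- adjacent ordered pairs of the image of an injective map -/
lemma adjPairs_image {d n : ℕ} {w : Fin n → Fin d → ℤ} (hw : Function.Injective w) :
    adjPairs (Finset.univ.image w) =
      ((Finset.univ : Finset (Fin n × Fin n)).filter
        (fun p => ∑ j, |w p.1 j - w p.2 j| = 1)).card := by
  symm
  unfold adjPairs
  apply Finset.card_bij (fun p _ => (w p.1, w p.2))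
  · intro p hp
    rw [Finset.mem_filter] at hp
    rw [Finset.mem_filter, Finset.mem_product]
    exact ⟨⟨Finset.mem_image_of_mem _ (Finset.mem_univ _),
      Finset.mem_image_of_mem _ (Finset.mem_univ _)⟩, hp.2⟩
  · intro p _ q _ h
    exact Prod.ext (hw (congrArg Prod.fst h)) (hw (congrArg Prod.snd h))
  · intro p hp
    rw [Finset.mem_filter, Finset.mem_product, Finset.mem_image, Finset.mem_image] at hp
    obtain ⟨⟨⟨a, _, ha⟩, ⟨b, _, hb⟩⟩, h⟩ := hp
    refine ⟨(a, b), ?_, Prod.ext ha hb⟩
    rw [Finset.mem_filter]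
    refine ⟨Finset.mem_univ _, ?_⟩
    rw [← ha, ← hb] at h
    exact h

/-- ordered pairs are counted twice by the pairs with first index smaller -/
lemma card_pairs_double {n : ℕ} (r : Fin n → Fin n → Prop) [DecidableRel r]
    (hs : ∀ i j, r i j → r j i) (hi : ∀ i, ¬ r i i) :
    ((Finset.univ : Finset (Fin n × Fin n)).filter (fun p => r p.1 p.2)).card =
      2 * ((Finset.univ : Finset (Fin n × Fin n)).filter
        (fun p => p.1.val < p.2.val ∧ r p.1 p.2)).card := by
  have h1 : ((Finset.univ : Finset (Fin n × Fin n)).filter (fun p => r p.1 p.2)) =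
      ((Finset.univ : Finset (Fin n × Fin n)).filter (fun p => p.1.val < p.2.val ∧ r p.1 p.2)) ∪
      ((Finset.univ : Finset (Fin n × Fin n)).filter (fun p => p.2.val < p.1.val ∧ r p.1 p.2)) := by
    ext p
    simp only [Finset.mem_union, Finset.mem_filter, Finset.mem_univ, true_and]
    constructor
    · intro h
      rcases lt_trichotomy p.1.val p.2.val with h' | h' | h'
      · exact Or.inl ⟨h', h⟩
      · exfalso
        have : p.1 = p.2 := Fin.ext h'
        rw [this] at h
        exact hi _ h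
      · exact Or.inr ⟨h', h⟩
    · rintro (h | h)
      · exact h.2
      · exact h.2
  have h2 : Disjoint
      ((Finset.univ : Finset (Fin n × Fin n)).filter (fun p => p.1.val < p.2.val ∧ r p.1 p.2))
      ((Finset.univ : Finset (Fin n × Fin n)).filter
        (fun p => p.2.val < p.1.val ∧ r p.1 p.2)) := by
    rw [Finset.disjoint_left]
    intro p hp hp'
    rw [Finset.mem_filter] at hp hp'
    omega
  have h3 : ((Finset.univ : Finset (Fin n × Fin n)).filter
        (fun p => p.2.val < p.1.val ∧ r p.1 p.2)).card =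
      ((Finset.univ : Finset (Fin n × Fin n)).filter
        (fun p => p.1.val < p.2.val ∧ r p.1 p.2)).card := by
    apply Finset.card_bij (fun p _ => (p.2, p.1))
    · intro p hp
      rw [Finset.mem_filter] at hp ⊢
      exact ⟨Finset.mem_univ _, hp.2.1, hs _ _ hp.2.2⟩
    · intro p _ q _ h
      exact Prod.ext (congrArg Prod.snd h) (congrArg Prod.fst h)
    · intro p hp
      rw [Finset.mem_filter] at hp
      refine ⟨(p.2, p.1), ?_, rfl⟩
      rw [Finset.mem_filter]
      exact ⟨Finset.mem_univ _, hp.2.1, hs _ _ hp.2.2⟩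
  rw [h1, Finset.card_union_of_disjoint h2, h3]
  ring

lemma adj_irrefl {d : ℕ} (x : Fin d → ℤ) : ¬ ∑ j, |x j - x j| = 1 := by simp

lemma adj_comm {d : ℕ} {x y : Fin d → ℤ} (h : ∑ j, |x j - y j| = 1) : ∑ j, |y j - x j| = 1 := by
  rw [← h]
  exact Finset.sum_congr rfl fun i _ => abs_sub_comm _ _

/-- number of consecutive pairs -/
lemma card_consec (n : ℕ) :
    ((Finset.univ : Finset (Fin (n + 1) × Fin (n + 1))).filter
      (fun p => p.1.val + 1 = p.2.val)).card = n := by
  have h : ((Finset.univ : Finset (Fin (n + 1) × Fin (n + 1))).filter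
      (fun p => p.1.val + 1 = p.2.val)) =
      (Finset.univ : Finset (Fin n)).image (fun i => (i.castSucc, i.succ)) := by
    ext p
    simp only [Finset.mem_filter, Finset.mem_univ, true_and, Finset.mem_image]
    constructor
    · intro h
      have h2 := p.2.isLt
      refine ⟨⟨p.1.val, by omega⟩, ?_⟩
      apply Prod.ext
      · exact Fin.ext rfl
      · apply Fin.ext
        simp only [Fin.val_succ]
        exact h
    · rintro ⟨i, rfl⟩
      simp
  rw [h, Finset.card_image_of_injective, Finset.card_univ, Fintype.card_fin]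
  intro i j hij
  have := congrArg Prod.fst hij
  exact Fin.castSucc_injective n this

/-- contacts of a self-avoiding walk -/
theorem adjPairs_saw (d n : ℕ) (w : Fin (n + 1) → Fin d → ℤ) (hw : w ∈ sawSet d n) :
    adjPairs (Finset.univ.image w) =
      2 * ((Finset.univ : Finset (Fin (n + 1) × Fin (n + 1))).filter
            (fun p => p.1.val + 2 ≤ p.2.val ∧ ∑ j, |w p.1 j - w p.2 j| = 1)).card + 2 * n := by
  rw [mem_sawSet] at hw
  obtain ⟨_, hinj, hstep⟩ := hw
  rw [adjPairs_image hinj, card_pairs_double (fun i j => ∑ k, |w i k - w j k| = 1)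
    (fun i j h => adj_comm h) (fun i => adj_irrefl (w i))]
  have h1 : ((Finset.univ : Finset (Fin (n + 1) × Fin (n + 1))).filter
        (fun p => p.1.val < p.2.val ∧ ∑ k, |w p.1 k - w p.2 k| = 1)) =
      ((Finset.univ : Finset (Fin (n + 1) × Fin (n + 1))).filter
            (fun p => p.1.val + 2 ≤ p.2.val ∧ ∑ j, |w p.1 j - w p.2 j| = 1)) ∪
      ((Finset.univ : Finset (Fin (n + 1) × Fin (n + 1))).filter
        (fun p => p.1.val + 1 = p.2.val)) := by
    ext p
    simp only [Finset.mem_union, Finset.mem_filter, Finset.mem_univ, true_and]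
    constructor
    · rintro ⟨h, h'⟩
      rcases Nat.lt_or_ge (p.1.val + 1) p.2.val with h2 | h2
      · exact Or.inl ⟨by omega, h'⟩
      · exact Or.inr (by omega)
    · rintro (⟨h, h'⟩ | h)
      · exact ⟨by omega, h'⟩
      · refine ⟨by omega, ?_⟩
        have h2 := p.2.isLt
        have h3 := hstep ⟨p.1.val, by omega⟩
        have e1 : (⟨p.1.val, by omega⟩ : Fin n).castSucc = p.1 := Fin.ext rfl
        have e2 : (⟨p.1.val, by omega⟩ : Fin n).succ = p.2 := Fin.ext (by simp only [Fin.val_succ]; exact h)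
        rw [e1, e2] at h3
        exact h3
  have h2 : Disjoint ((Finset.univ : Finset (Fin (n + 1) × Fin (n + 1))).filter
            (fun p => p.1.val + 2 ≤ p.2.val ∧ ∑ j, |w p.1 j - w p.2 j| = 1))
      ((Finset.univ : Finset (Fin (n + 1) × Fin (n + 1))).filter
        (fun p => p.1.val + 1 = p.2.val)) := by
    rw [Finset.disjoint_left]
    intro p hp hp'
    rw [Finset.mem_filter] at hp hp'
    omega
  rw [h1, Finset.card_union_of_disjoint h2, card_consec]
  ring

/-- contacts of a closed self-avoiding walk -/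
theorem adjPairs_poly (d m : ℕ) (hm : 2 ≤ m) (w : Fin (2 * m + 1) → Fin d → ℤ)
    (hw : w ∈ polySet d (2 * m)) :
    adjPairs (Finset.univ.image w) =
      2 * ((Finset.univ : Finset (Fin (2 * m) × Fin (2 * m))).filter
            (fun p => p.1.val + 2 ≤ p.2.val ∧ ¬ (p.1.val = 0 ∧ p.2.val + 1 = 2 * m) ∧
              ∑ j, |w p.1.castSucc j - w p.2.castSucc j| = 1)).card + 2 * (2 * m) := by
  rw [mem_polySet] at hw
  obtain ⟨hw0, hwl, hinj, hstep⟩ := hw
  have himg : Finset.univ.image w = Finset.univ.image (fun i : Fin (2 * m) => w i.castSucc) := by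
    ext x
    simp only [Finset.mem_image, Finset.mem_univ, true_and]
    constructor
    · rintro ⟨i, rfl⟩
      by_cases hi : i = Fin.last (2 * m)
      · refine ⟨⟨0, by omega⟩, ?_⟩
        have : (⟨0, by omega⟩ : Fin (2 * m)).castSucc = 0 := Fin.ext rfl
        rw [this, hw0, hi, hwl]
      · exact ⟨i.castPred hi, by rw [Fin.castSucc_castPred]⟩
    · rintro ⟨i, rfl⟩
      exact ⟨i.castSucc, rfl⟩
  rw [himg, adjPairs_image hinj,
    card_pairs_double (fun i j : Fin (2 * m) => ∑ k, |w i.castSucc k - w j.castSucc k| = 1)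
    (fun i j h => adj_comm h) (fun i => adj_irrefl (w i.castSucc))]
  obtain ⟨q, hq⟩ : ∃ q, 2 * m = q + 1 := ⟨2 * m - 1, by omega⟩
  have hcons : ((Finset.univ : Finset (Fin (2 * m) × Fin (2 * m))).filter
        (fun p => p.1.val + 1 = p.2.val)).card = 2 * m - 1 := by
    rw [hq]
    rw [card_consec q]
    omega
  have h1 : ((Finset.univ : Finset (Fin (2 * m) × Fin (2 * m))).filter
        (fun p => p.1.val < p.2.val ∧ ∑ k, |w p.1.castSucc k - w p.2.castSucc k| = 1)) =
      (((Finset.univ : Finset (Fin (2 * m) × Fin (2 * m))).filter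
            (fun p => p.1.val + 2 ≤ p.2.val ∧ ¬ (p.1.val = 0 ∧ p.2.val + 1 = 2 * m) ∧
              ∑ j, |w p.1.castSucc j - w p.2.castSucc j| = 1)) ∪
      ((Finset.univ : Finset (Fin (2 * m) × Fin (2 * m))).filter
        (fun p => p.1.val + 1 = p.2.val))) ∪ {(⟨0, by omega⟩, ⟨2 * m - 1, by omega⟩)} := by
    ext p
    simp only [Finset.mem_union, Finset.mem_filter, Finset.mem_univ, true_and,
      Finset.mem_singleton]
    constructor
    · rintro ⟨h, h'⟩
      by_cases h0 : p.1.val = 0 ∧ p.2.val + 1 = 2 * m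
      · right
        apply Prod.ext
        · exact Fin.ext h0.1
        · apply Fin.ext
          simp only
          omega
      · left
        rcases Nat.lt_or_ge (p.1.val + 1) p.2.val with h2 | h2
        · exact Or.inl ⟨by omega, h0, h'⟩
        · exact Or.inr (by omega)
    · rintro ((⟨h, _, h'⟩ | h) | h)
      · exact ⟨by omega, h'⟩
      · refine ⟨by omega, ?_⟩
        have h2 := p.2.isLt
        have h3 := hstep p.1
        have e2 : p.1.succ = p.2.castSucc := Fin.ext (by
          simp only [Fin.val_succ, Fin.val_castSucc]; exact h)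
        rw [e2] at h3
        exact h3
      · rw [h]
        simp only
        refine ⟨by omega, ?_⟩
        have h3 := hstep ⟨2 * m - 1, by omega⟩
        have e2 : (⟨2 * m - 1, by omega⟩ : Fin (2 * m)).succ = Fin.last (2 * m) :=
          Fin.ext (by simp only [Fin.val_succ, Fin.val_last]; omega)
        have e3 : (⟨0, by omega⟩ : Fin (2 * m)).castSucc = 0 := Fin.ext rfl
        rw [e2, hwl] at h3
        rw [e3, hw0]
        exact adj_comm h3
  have h2 : Disjoint ((Finset.univ : Finset (Fin (2 * m) × Fin (2 * m))).filter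
            (fun p => p.1.val + 2 ≤ p.2.val ∧ ¬ (p.1.val = 0 ∧ p.2.val + 1 = 2 * m) ∧
              ∑ j, |w p.1.castSucc j - w p.2.castSucc j| = 1))
      ((Finset.univ : Finset (Fin (2 * m) × Fin (2 * m))).filter
        (fun p => p.1.val + 1 = p.2.val)) := by
    rw [Finset.disjoint_left]
    intro p hp hp'
    rw [Finset.mem_filter] at hp hp'
    omega
  have h3 : Disjoint (((Finset.univ : Finset (Fin (2 * m) × Fin (2 * m))).filter
            (fun p => p.1.val + 2 ≤ p.2.val ∧ ¬ (p.1.val = 0 ∧ p.2.val + 1 = 2 * m) ∧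
              ∑ j, |w p.1.castSucc j - w p.2.castSucc j| = 1)) ∪
      ((Finset.univ : Finset (Fin (2 * m) × Fin (2 * m))).filter
        (fun p => p.1.val + 1 = p.2.val)))
      ({(⟨0, by omega⟩, ⟨2 * m - 1, by omega⟩)} : Finset (Fin (2 * m) × Fin (2 * m))) := by
    rw [Finset.disjoint_singleton_right, Finset.mem_union, Finset.mem_filter, Finset.mem_filter]
    rintro (⟨_, _, h, _⟩ | ⟨_, h⟩)
    · apply h
      simp only [true_and]
      omega
    · simp only at h
      omega
  rw [h1, Finset.card_union_of_disjoint h3, Finset.card_union_of_disjoint h2, hcons,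
    Finset.card_singleton]
  omega

/-- closed walks have an even number of steps -/
theorem polySet_even (d M : ℕ) (w : Fin (M + 1) → Fin d → ℤ) (hw : w ∈ polySet d M) : Even M := by
  rw [mem_polySet] at hw
  obtain ⟨hw0, hwl, _, hstep⟩ := hw
  have key : ∀ (i : ℕ) (hi : i < M + 1), (∑ k, w ⟨i, hi⟩ k - i) % 2 = 0 := by
    intro i
    induction i with
    | zero =>
      intro hi
      have : w ⟨0, hi⟩ = 0 := hw0
      rw [this]
      simp
    | succ i ih =>
      intro hi
      have h1 := ih (by omega)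
      have h2 := hstep ⟨i, by omega⟩
      have h3 : (∑ k, (|w ⟨i, by omega⟩ k - w ⟨i + 1, hi⟩ k| -
          (w ⟨i, by omega⟩ k - w ⟨i + 1, hi⟩ k))) % 2 = 0 := by
        rw [Finset.sum_int_mod]
        rw [Finset.sum_eq_zero]
        · rfl
        · intro k _
          rcases abs_choice (w ⟨i, by omega⟩ k - w ⟨i + 1, hi⟩ k) with h | h <;> rw [h] <;> omega
      rw [Finset.sum_sub_distrib, Finset.sum_sub_distrib] at h3
      have h4 : ∑ k, |w ⟨i, by omega⟩ k - w ⟨i + 1, hi⟩ k| = 1 := h2
      rw [h4] at h3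
      push_cast
      omega
  have h := key M (by omega)
  have e : (⟨M, by omega⟩ : Fin (M + 1)) = Fin.last M := Fin.ext rfl
  rw [e, hwl] at h
  simp only [Pi.zero_apply, Finset.sum_const_zero] at h
  rw [Nat.even_iff]
  omega

/-- the straight walk has weight one -/
theorem one_le_Zw (d : ℕ) (hd : 1 ≤ d) (β : ℝ) (n : ℕ) : 1 ≤ Zw d β n := by
  obtain ⟨e, rfl⟩ : ∃ e, d = e + 1 := ⟨d - 1, by omega⟩
  let w : Fin (n + 1) → Fin (e + 1) → ℤ := fun i => Pi.single 0 (i.val : ℤ)
  have hdist : ∀ i j : Fin (n + 1), ∑ k, |w i k - w j k| = |(i.val : ℤ) - j.val| := by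
    intro i j
    rw [Finset.sum_eq_single (0 : Fin (e + 1))]
    · simp [w]
    · intro k _ hk
      simp [w, Pi.single_eq_of_ne hk]
    · intro h
      exact absurd (Finset.mem_univ _) h
  have hw : w ∈ sawSet (e + 1) n := by
    rw [mem_sawSet]
    refine ⟨?_, ?_, ?_⟩
    · funext k
      simp [w]
    · intro i j h
      have h0 := congrFun h 0
      simp only [w, Pi.single_eq_same] at h0
      exact Fin.ext (by exact_mod_cast h0)
    · intro i
      rw [hdist]
      simp
  have hadj := adjPairs_saw (e + 1) n w hw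
  have hempty : ((Finset.univ : Finset (Fin (n + 1) × Fin (n + 1))).filter
            (fun p => p.1.val + 2 ≤ p.2.val ∧ ∑ j, |w p.1 j - w p.2 j| = 1)) = ∅ := by
    rw [Finset.filter_eq_empty_iff]
    rintro p _ ⟨h1, h2⟩
    rw [hdist] at h2
    rcases (abs_eq (by norm_num : (0 : ℤ) ≤ 1)).1 h2 with h3 | h3 <;> omega
  rw [hempty, Finset.card_empty, mul_zero, zero_add] at hadj
  unfold Zw
  have hone : Real.exp (β * ((adjPairs (Finset.univ.image w) : ℝ) / 2 - n)) = 1 := by
    rw [hadj]
    push_cast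
    have : (2 * (n : ℝ) / 2 - n) = 0 := by ring
    rw [this, mul_zero, Real.exp_zero]
  rw [← hone]
  exact Finset.single_le_sum
    (f := fun w => Real.exp (β * ((adjPairs (Finset.univ.image w) : ℝ) / 2 - n)))
    (fun _ _ => (Real.exp_pos _).le) hw

end Pool.Agent.Helper772.W
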