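import Mathlib
import Pool.Agent.Helper772.Defs
import Pool.Agent.Helper772.HDefs
import Pool.Agent.Helper772.HStat
import Pool.Agent.Helper772.W
set_option autoImplicit false
namespace Pool.Agent.Helper772.HF1

open Pool.Agent.Helper772.W (mem_sawSet)

open Filter Topology

/-! Given results (proved elsewhere, use as black boxes). -/

/-! Definitions of the problem. -/

/-! Helpers. -/

/-- swap of the coordinates 0 and 2 -/
def tauc (x : Fin 3 → ℤ) : Fin 3 → ℤ := fun k => x (Equiv.swap (0 : Fin 3) 2 k)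

theorem tauc_tauc (x : Fin 3 → ℤ) : tauc (tauc x) = x := by
  funext k
  simp [tauc]

theorem tauc_inj : Function.Injective tauc := by
  intro x y h
  rw [← tauc_tauc x, h, tauc_tauc]

theorem tauc_sum (x y : Fin 3 → ℤ) : ∑ i, |tauc x i - tauc y i| = ∑ i, |x i - y i| :=
  Equiv.sum_comp (Equiv.swap (0 : Fin 3) 2) (fun i => |x i - y i|)

theorem tauc_two (x : Fin 3 → ℤ) : tauc x 2 = x 0 := by simp [tauc]

theorem tauc_zero (x : Fin 3 → ℤ) : tauc x 0 = x 2 := by simp [tauc]

theorem adjPairs_tauc (S : Finset (Fin 3 → ℤ)) : adjPairs (S.image tauc) = adjPairs S := by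
  unfold adjPairs
  symm
  apply Finset.card_bij (fun p _ => (tauc p.1, tauc p.2))
  · intro p hp
    rw [Finset.mem_filter, Finset.mem_product] at hp ⊢
    exact ⟨⟨Finset.mem_image_of_mem _ hp.1.1, Finset.mem_image_of_mem _ hp.1.2⟩, by
      rw [tauc_sum]; exact hp.2⟩
  · intro p _ q _ h
    have h1 := Prod.mk.inj h
    exact Prod.ext (tauc_inj h1.1) (tauc_inj h1.2)
  · intro p hp
    rw [Finset.mem_filter, Finset.mem_product, Finset.mem_image, Finset.mem_image] at hp
    obtain ⟨⟨⟨a, ha, hap⟩, ⟨b, hb, hbp⟩⟩, hs⟩ := hp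
    refine ⟨(a, b), ?_, ?_⟩
    · rw [Finset.mem_filter, Finset.mem_product]
      refine ⟨⟨ha, hb⟩, ?_⟩
      rw [← tauc_sum, hap, hbp]; exact hs
    · exact Prod.ext hap hbp

theorem wallc_tauc (S : Finset (Fin 3 → ℤ)) :
    wallc 0 (S.image tauc) = (S.filter (fun x => x 0 = 0)).card := by
  unfold wallc
  symm
  apply Finset.card_bij (fun p _ => tauc p)
  · intro p hp
    rw [Finset.mem_filter] at hp ⊢
    exact ⟨Finset.mem_image_of_mem _ hp.1, by rw [tauc_two]; exact hp.2⟩
  · intro p _ q _ h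
    exact tauc_inj h
  · intro p hp
    rw [Finset.mem_filter, Finset.mem_image] at hp
    obtain ⟨⟨a, ha, hap⟩, h0⟩ := hp
    refine ⟨a, ?_, hap⟩
    rw [Finset.mem_filter]
    refine ⟨ha, ?_⟩
    show a 0 = 0
    rw [← tauc_two a, hap]; exact h0

theorem nbr_symm {x y : Fin 3 → ℤ} (h : Nbr x y) : Nbr y x := by
  unfold Nbr at h ⊢
  rw [← h]
  apply Finset.sum_congr rfl
  intro i _
  exact abs_sub_comm _ _

theorem nbr_ne {x y : Fin 3 → ℤ} (h : Nbr x y) : x ≠ y := by
  rintro rfl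
  unfold Nbr at h
  simp at h

open Classical in
/-- unordered adjacent pairs of a finite set -/
noncomputable def unord (S : Finset (Fin 3 → ℤ)) : Finset (Sym2 (Fin 3 → ℤ)) :=
  ((S ×ˢ S).filter (fun p => ∑ i, |p.1 i - p.2 i| = 1)).image (fun p => s(p.1, p.2))

theorem adjPairs_unord (S : Finset (Fin 3 → ℤ)) : adjPairs S = 2 * (unord S).card := by
  classical
  unfold adjPairs
  rw [Finset.card_eq_sum_card_image (fun p : (Fin 3 → ℤ) × (Fin 3 → ℤ) => s(p.1, p.2))]
  have h1 : ∀ b ∈ unord S, (((S ×ˢ S).filter (fun p => ∑ i, |p.1 i - p.2 i| = 1)).filter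
      (fun p : (Fin 3 → ℤ) × (Fin 3 → ℤ) => s(p.1, p.2) = b)).card = 2 := by
    intro b hb
    unfold unord at hb
    rw [Finset.mem_image] at hb
    obtain ⟨p, hp, rfl⟩ := hb
    have hpn : Nbr p.1 p.2 := (Finset.mem_filter.1 hp).2
    have hne := nbr_ne hpn
    rw [Finset.mem_filter, Finset.mem_product] at hp
    have h2 : ((S ×ˢ S).filter (fun p => ∑ i, |p.1 i - p.2 i| = 1)).filter
      (fun q : (Fin 3 → ℤ) × (Fin 3 → ℤ) => s(q.1, q.2) = s(p.1, p.2)) = {p, p.swap} := by
      ext q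
      rw [Finset.mem_filter, Finset.mem_filter, Finset.mem_product, Finset.mem_insert,
        Finset.mem_singleton]
      constructor
      · rintro ⟨_, h⟩
        rw [Sym2.eq_iff] at h
        rcases h with ⟨h1, h2⟩ | ⟨h1, h2⟩
        · exact Or.inl (Prod.ext h1 h2)
        · exact Or.inr (Prod.ext h1 h2)
      · rintro (h | h)
        · subst h
          exact ⟨hp, rfl⟩
        · subst h
          refine ⟨⟨⟨hp.1.2, hp.1.1⟩, nbr_symm hpn⟩, ?_⟩
          exact Sym2.eq_swap
    rw [h2, Finset.card_pair]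
    intro h
    apply hne
    have := congrArg Prod.fst h
    exact this
  have h3 : ((S ×ˢ S).filter (fun p => ∑ i, |p.1 i - p.2 i| = 1)).image
      (fun p : (Fin 3 → ℤ) × (Fin 3 → ℤ) => s(p.1, p.2)) = unord S := by
    unfold unord
    ext b
    simp only [Finset.mem_image]
  rw [h3, Finset.sum_congr rfl h1, Finset.sum_const, smul_eq_mul, mul_comm]

theorem mem_unord (S : Finset (Fin 3 → ℤ)) (e : Sym2 (Fin 3 → ℤ)) :
    e ∈ unord S ↔ ∃ x ∈ S, ∃ y ∈ S, Nbr x y ∧ e = s(x, y) := by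
  classical
  unfold unord
  rw [Finset.mem_image]
  constructor
  · rintro ⟨p, hp, rfl⟩
    rw [Finset.mem_filter, Finset.mem_product] at hp
    exact ⟨p.1, hp.1.1, p.2, hp.1.2, hp.2, rfl⟩
  · rintro ⟨x, hx, y, hy, hxy, rfl⟩
    refine ⟨(x, y), ?_, rfl⟩
    rw [Finset.mem_filter, Finset.mem_product]
    exact ⟨⟨hx, hy⟩, hxy⟩

theorem edges_ncard {n : ℕ} (w : Fin (n + 1) → Fin 3 → ℤ) (hw : Function.Injective w) :
    (edges w).ncard = n := by
  have h1 : edges w = Set.range (fun i : Fin n => s(w i.castSucc, w i.succ)) := by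
    ext e
    unfold edges
    constructor
    · rintro ⟨i, hi⟩; exact ⟨i, hi.symm⟩
    · rintro ⟨i, hi⟩; exact ⟨i, hi.symm⟩
  have h2 : Function.Injective (fun i : Fin n => s(w i.castSucc, w i.succ)) := by
    intro i j hij
    have hij' : s(w i.castSucc, w i.succ) = s(w j.castSucc, w j.succ) := hij
    rw [Sym2.eq_iff] at hij'
    rcases hij' with ⟨ha, _⟩ | ⟨ha, hb⟩
    · exact Fin.castSucc_injective n (hw ha)
    · exfalso
      have e1 := congrArg Fin.val (hw ha)
      have e2 := congrArg Fin.val (hw hb)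
      simp only [Fin.val_castSucc, Fin.val_succ] at e1 e2
      omega
  rw [h1, ← Set.image_univ, Set.ncard_image_of_injective _ h2, Set.ncard_univ,
    Nat.card_eq_fintype_card, Fintype.card_fin]

theorem contacts_eq {n : ℕ} (w : Fin (n + 1) → Fin 3 → ℤ) (hw : Function.Injective w)
    (hn : ∀ i : Fin n, Nbr (w i.castSucc) (w i.succ)) :
    contacts (Set.range w) (edges w) + n = (unord (Finset.univ.image w)).card := by
  have h1 : {e : Sym2 (Fin 3 → ℤ) | e ∉ edges w ∧ ∃ x ∈ Set.range w, ∃ y ∈ Set.range w,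
      Nbr x y ∧ e = s(x, y)} = (↑(unord (Finset.univ.image w)) : Set _) \ edges w := by
    ext e
    constructor
    · rintro ⟨h, x, ⟨i, rfl⟩, y, ⟨j, rfl⟩, hxy, rfl⟩
      refine ⟨?_, h⟩
      rw [Finset.mem_coe, mem_unord]
      exact ⟨w i, Finset.mem_image_of_mem _ (Finset.mem_univ _), w j,
        Finset.mem_image_of_mem _ (Finset.mem_univ _), hxy, rfl⟩
    · rintro ⟨h, h'⟩
      rw [Finset.mem_coe, mem_unord] at h
      obtain ⟨x, hx, y, hy, hxy, he⟩ := h
      rw [Finset.mem_image] at hx hy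
      obtain ⟨i, _, hi⟩ := hx
      obtain ⟨j, _, hj⟩ := hy
      exact ⟨h', x, ⟨i, hi⟩, y, ⟨j, hj⟩, hxy, he⟩
  have h2 : edges w ⊆ (↑(unord (Finset.univ.image w)) : Set _) := by
    rintro e ⟨i, rfl⟩
    rw [Finset.mem_coe, mem_unord]
    exact ⟨w i.castSucc, Finset.mem_image_of_mem _ (Finset.mem_univ _), w i.succ,
        Finset.mem_image_of_mem _ (Finset.mem_univ _), hn i, rfl⟩
  unfold contacts
  rw [h1]
  have h3 := Set.ncard_sdiff_add_ncard_of_subset h2 (Finset.finite_toSet _)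
  rw [edges_ncard w hw, Set.ncard_coe_finset] at h3
  exact h3

/-- the summand of `ZH` -/
noncomputable def wtH (ζ g : ℝ) (n : ℕ) (ω : Fin (n + 1) → Fin 3 → ℤ) : ℝ :=
  Real.exp (ζ * wallc 0 (Finset.univ.image ω) +
      g * ((adjPairs (Finset.univ.image ω) : ℝ) / 2 - n))

theorem wt_eq (n : ℕ) (ζ γ : ℝ) (w : Walks n) :
    Real.exp (ζ * visits (Set.range w.1) + γ * contacts (Set.range w.1) (edges w.1)) =
      wtH ζ γ n (fun i => tauc (w.1 i)) := by
  obtain ⟨w, h0, hinj, hH, hn⟩ := w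
  have himg : Finset.univ.image (fun i => tauc (w i)) = (Finset.univ.image w).image tauc := by
    rw [Finset.image_image]; rfl
  unfold wtH
  rw [himg, wallc_tauc, adjPairs_tauc, adjPairs_unord, ← contacts_eq w hinj hn]
  have hv : visits (Set.range w) = ((Finset.univ.image w).filter (fun x => x 0 = 0)).card := by
    unfold visits
    rw [← Set.ncard_coe_finset]
    congr 1
    ext x
    rw [Finset.mem_coe, Finset.mem_filter, Finset.mem_image]
    constructor
    · rintro ⟨⟨i, rfl⟩, hx⟩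
      exact ⟨⟨i, Finset.mem_univ _, rfl⟩, hx⟩
    · rintro ⟨⟨i, _, rfl⟩, hx⟩
      exact ⟨⟨i, rfl⟩, hx⟩
  rw [hv]
  congr 1
  push_cast
  ring

/-! Targets. -/

/-- walks: the partition function of the problem is `ZH` -/
theorem Z_eq (n : ℕ) (ζ γ : ℝ) : Z n ζ γ = ZH ζ γ n := by
  classical
  have hmem : ∀ w : Fin (n + 1) → Fin 3 → ℤ, w ∈ Walks n ↔
      (fun i => tauc (w i)) ∈ (sawSet 3 n).filter (fun ω => ∀ j, 0 ≤ ω j 2) := by
    intro w
    rw [Finset.mem_filter, mem_sawSet]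
    constructor
    · rintro ⟨h0, hinj, hH, hn⟩
      refine ⟨⟨?_, ?_, ?_⟩, ?_⟩
      · show tauc (w 0) = 0
        rw [h0]; rfl
      · intro i j hij
        exact hinj (tauc_inj hij)
      · intro i
        rw [tauc_sum]; exact hn i
      · intro j
        show 0 ≤ tauc (w j) 2
        rw [tauc_two]; exact hH j
    · rintro ⟨⟨h0, hinj, hn⟩, hH⟩
      refine ⟨?_, ?_, ?_, ?_⟩
      · have h1 : tauc (w 0) = 0 := h0
        rw [← tauc_tauc (w 0), h1]; rfl
      · intro i j hij
        apply hinj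
        show tauc (w i) = tauc (w j)
        rw [hij]
      · intro j
        have h1 : 0 ≤ tauc (w j) 2 := hH j
        rw [tauc_two] at h1
        exact h1
      · intro i
        have h1 := hn i
        rw [tauc_sum] at h1
        exact h1
  let e : Walks n ≃ {ω // ω ∈ (sawSet 3 n).filter (fun ω => ∀ j, 0 ≤ ω j 2)} :=
    { toFun := fun w => ⟨fun i => tauc (w.1 i), (hmem w.1).1 w.2⟩
      invFun := fun ω => ⟨fun i => tauc (ω.1 i), (hmem _).2 (by
        have h1 : (fun i => tauc (tauc (ω.1 i))) = ω.1 := by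
          funext i; exact tauc_tauc _
        rw [h1]; exact ω.2)⟩
      left_inv := fun w => Subtype.ext (by funext i; exact tauc_tauc _)
      right_inv := fun w => Subtype.ext (by funext i; exact tauc_tauc _) }
  have h1 : Z n ζ γ = ∑' w : Walks n, wtH ζ γ n (e w).1 := by
    unfold Z
    exact tsum_congr (fun w => wt_eq n ζ γ w)
  rw [h1, Equiv.tsum_eq e (fun ω => wtH ζ γ n ω.1)]
  have h2 := Finset.tsum_subtype ((sawSet 3 n).filter (fun ω => ∀ j, 0 ≤ ω j 2)) (wtH ζ γ n)
  rw [h2]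
  unfold ZH wtH
  refine Finset.sum_congr ?_ (fun _ _ => rfl)
  ext ω
  simp only [Finset.mem_filter]

end Pool.Agent.Helper772.HF1
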