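import Mathlib
import Pool.Agent.Helper772.Defs
import Pool.Agent.Helper772.HDefs
import Pool.Agent.Helper772.HStat
import Pool.Agent.Helper772.W
set_option autoImplicit false
namespace Pool.Agent.Helper772.HF2

open Pool.Agent.Helper772.W (mem_polySet)

open Filter Topology

/-! Given results (proved elsewhere, use as black boxes). -/

/-! Definitions of the problem. -/

/-! helper lemmas -/

/-- swapping the coordinates 0 and 2 -/
def sw (x : Fin 3 → ℤ) : Fin 3 → ℤ := ![x 2, x 1, x 0]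

theorem sw_sw (x : Fin 3 → ℤ) : sw (sw x) = x := by
  funext k
  fin_cases k <;> rfl

theorem sw_inj : Function.Injective sw := by
  intro x y h
  rw [← sw_sw x, h, sw_sw]

theorem sw_zero : sw 0 = 0 := by
  funext k
  fin_cases k <;> rfl

theorem nbr_sw (x y : Fin 3 → ℤ) : Nbr (sw x) (sw y) ↔ ∑ k, |x k - y k| = 1 := by
  unfold Nbr sw
  simp only [Fin.sum_univ_three]
  constructor
  · intro h
    simp at h ⊢
    linarith
  · intro h
    simp at h ⊢
    linarith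

theorem nbr_sw' (x y : Fin 3 → ℤ) : Nbr x y ↔ ∑ k, |sw x k - sw y k| = 1 := by
  rw [← nbr_sw, sw_sw, sw_sw]

theorem nbr_symm {x y : Fin 3 → ℤ} (h : Nbr x y) : Nbr y x := by
  unfold Nbr at *
  rw [← h]
  apply Finset.sum_congr rfl
  intro k _
  exact abs_sub_comm _ _

theorem nbr_ne {x y : Fin 3 → ℤ} (h : Nbr x y) : x ≠ y := by
  rintro rfl
  unfold Nbr at h
  simp at h

theorem nbr_add {x y : Fin 3 → ℤ} (a : Fin 3 → ℤ) : Nbr (x + a) (y + a) ↔ Nbr x y := by
  unfold Nbr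
  simp

/-- periodic closed walks -/
structure Cy (M : ℕ) (u : ℕ → Fin 3 → ℤ) : Prop where
  per : ∀ n, u (n + M) = u n
  inj : ∀ n m, n < M → m < M → u n = u m → n = m
  nbr : ∀ n, Nbr (u n) (u (n + 1))

theorem Cy.mod {M : ℕ} {u : ℕ → Fin 3 → ℤ} (h : Cy M u) (n : ℕ) : u (n % M) = u n := by
  conv_rhs => rw [← Nat.mod_add_div n M]
  generalize n / M = k
  generalize n % M = r
  induction k with
  | zero => simp
  | succ k ih =>
    rw [Nat.mul_succ, ← add_assoc, h.per]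
    exact ih

theorem Cy.eq_iff {M : ℕ} (hM : 0 < M) {u : ℕ → Fin 3 → ℤ} (h : Cy M u) (n m : ℕ) :
    u n = u m ↔ n % M = m % M := by
  constructor
  · intro e
    rw [← h.mod n, ← h.mod m] at e
    exact h.inj _ _ (Nat.mod_lt _ hM) (Nat.mod_lt _ hM) e
  · intro e
    rw [← h.mod n, ← h.mod m, e]

/-- the periodic extension of a closed sequence -/
def pe (M : ℕ) (hM : 0 < M) (w : Fin (M + 1) → Fin 3 → ℤ) (n : ℕ) : Fin 3 → ℤ :=
  w ⟨n % M, (Nat.mod_lt _ hM).trans (Nat.lt_succ_self M)⟩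

theorem pe_eq {M : ℕ} (hM : 0 < M) {w : Fin (M + 1) → Fin 3 → ℤ} (hc : w (Fin.last M) = w 0)
    (i : Fin (M + 1)) : w i = pe M hM w i := by
  unfold pe
  rcases Nat.lt_or_ge i.1 M with h | h
  · congr 1
    ext
    simp [Nat.mod_eq_of_lt h]
  · have hi : i = Fin.last M := by
      ext
      simp
      omega
    rw [hi, hc]
    congr 1
    ext
    simp

theorem pe_cy {M : ℕ} (hM : 0 < M) {w : Fin (M + 1) → Fin 3 → ℤ} (hc : w (Fin.last M) = w 0)
    (hi : Function.Injective (fun i : Fin M => w i.castSucc))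
    (hn : ∀ i : Fin M, Nbr (w i.castSucc) (w i.succ)) : Cy M (pe M hM w) where
  per n := by
    unfold pe
    congr 1
    ext
    simp
  inj n m hn' hm' e := by
    have h1 : (fun i : Fin M => w i.castSucc) ⟨n, hn'⟩ = (fun i : Fin M => w i.castSucc) ⟨m, hm'⟩ := by
      have e1 := pe_eq hM hc (Fin.castSucc ⟨n, hn'⟩)
      have e2 := pe_eq hM hc (Fin.castSucc ⟨m, hm'⟩)
      simp only at e1 e2 ⊢
      rw [e1, e2]
      exact e
    have := hi h1
    simpa using this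
  nbr n := by
    have hp : ∀ n, pe M hM w (n + M) = pe M hM w n := by
      intro n
      unfold pe
      congr 1
      ext
      simp
    have e1 : pe M hM w n = w (Fin.castSucc ⟨n % M, Nat.mod_lt _ hM⟩) := rfl
    have e2 : pe M hM w (n + 1) = w (Fin.succ ⟨n % M, Nat.mod_lt _ hM⟩) := by
      rw [pe_eq hM hc (Fin.succ _)]
      unfold pe
      congr 1
      ext
      simp
    rw [e1, e2]
    exact hn _

/-- the edges of a periodic sequence -/
def Ed (u : ℕ → Fin 3 → ℤ) : Set (Sym2 (Fin 3 → ℤ)) := {e | ∃ n, e = s(u n, u (n + 1))}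

theorem edges_eq {M : ℕ} (hM : 0 < M) {w : Fin (M + 1) → Fin 3 → ℤ} {u : ℕ → Fin 3 → ℤ}
    (hu : Cy M u) (hw : ∀ i : Fin (M + 1), w i = u i) : edges w = Ed u := by
  ext e
  constructor
  · rintro ⟨i, rfl⟩
    refine ⟨i, ?_⟩
    rw [hw, hw]
    simp
  · rintro ⟨n, rfl⟩
    refine ⟨⟨n % M, Nat.mod_lt _ hM⟩, ?_⟩
    rw [hw, hw]
    have h1 : u n = u (n % M) := (hu.mod n).symm
    have h2 : u (n + 1) = u (n % M + 1) := by
      rw [hu.eq_iff hM]
      simp
    rw [h1, h2]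
    simp

theorem verts_Ed (u : ℕ → Fin 3 → ℤ) {M : ℕ} (_hM : 0 < M) (_hu : Cy M u) :
    verts (Ed u) = Set.range u := by
  ext x
  constructor
  · rintro ⟨e, ⟨n, rfl⟩, hx⟩
    rw [Sym2.mem_iff] at hx
    rcases hx with rfl | rfl
    · exact ⟨n, rfl⟩
    · exact ⟨n + 1, rfl⟩
  · rintro ⟨n, rfl⟩
    exact ⟨_, ⟨n, rfl⟩, by simp⟩

theorem range_eq {M : ℕ} (hM : 0 < M) {w : Fin (M + 1) → Fin 3 → ℤ} {u : ℕ → Fin 3 → ℤ}
    (hu : Cy M u) (hw : ∀ i : Fin (M + 1), w i = u i) : Set.range w = Set.range u := by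
  ext x
  constructor
  · rintro ⟨i, rfl⟩
    exact ⟨i, (hw i).symm⟩
  · rintro ⟨n, rfl⟩
    refine ⟨⟨n % M, (Nat.mod_lt _ hM).trans (Nat.lt_succ_self M)⟩, ?_⟩
    rw [hw]
    exact hu.mod n

/-- rotation and translation of a periodic sequence -/
theorem Cy.rot {M : ℕ} (hM : 0 < M) {u : ℕ → Fin 3 → ℤ} (h : Cy M u) (j : ℕ) (a : Fin 3 → ℤ) :
    Cy M (fun n => u (n + j) + a) where
  per n := by
    show u (n + M + j) + a = u (n + j) + a
    rw [add_right_comm, h.per]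
  inj n m hn hm e := by
    simp only [add_left_inj] at e
    rw [h.eq_iff hM] at e
    have := Nat.ModEq.add_right_cancel' j (show n + j ≡ m + j [MOD M] from e)
    unfold Nat.ModEq at this
    rwa [Nat.mod_eq_of_lt hn, Nat.mod_eq_of_lt hm] at this
  nbr n := by
    show Nbr (u (n + j) + a) (u (n + 1 + j) + a)
    rw [nbr_add]
    have := h.nbr (n + j)
    rwa [add_right_comm] at this

theorem Ed_rot {M : ℕ} (hM : 0 < M) {u : ℕ → Fin 3 → ℤ} (h : Cy M u) (j : ℕ) (a : Fin 3 → ℤ) :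
    Ed (fun n => u (n + j) + a) = shift a (Ed u) := by
  ext e
  constructor
  · rintro ⟨n, rfl⟩
    refine ⟨s(u (n + j), u (n + j + 1)), ⟨n + j, rfl⟩, ?_⟩
    simp only [Sym2.map_mk]
    rw [add_right_comm n j 1]
  · rintro ⟨_, ⟨n, rfl⟩, rfl⟩
    refine ⟨n + j * M - j, ?_⟩
    have hj : j ≤ j * M := Nat.le_mul_of_pos_right j hM
    have e1 : n + j * M - j + j = n + j * M := by omega
    have e2 : n + j * M - j + 1 + j = n + 1 + j * M := by omega
    simp only [Sym2.map_mk, e1, e2]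
    have e3 : u (n + j * M) = u n := by
      rw [h.eq_iff hM]
      simp
    have e4 : u (n + 1 + j * M) = u (n + 1) := by
      rw [h.eq_iff hM]
      simp
    rw [e3, e4]

/-- a periodic closed walk is determined by its edges and its first two vertices -/
theorem Cy.ext {M : ℕ} (hM : 3 ≤ M) {u v : ℕ → Fin 3 → ℤ} (hu : Cy M u) (hv : Cy M v)
    (he : Ed u = Ed v) (h0 : u 0 = v 0) (h1 : u 1 = v 1) : u = v := by
  have key : ∀ n, u n = v n ∧ u (n + 1) = v (n + 1) := by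
    intro n
    induction n with
    | zero => exact ⟨h0, h1⟩
    | succ n ih =>
      refine ⟨ih.2, ?_⟩
      have hm : s(v (n + 1), v (n + 1 + 1)) ∈ Ed u := by
        rw [he]
        exact ⟨n + 1, rfl⟩
      obtain ⟨l, hl⟩ := hm
      rw [Sym2.eq_iff] at hl
      rcases hl with ⟨e1, e2⟩ | ⟨e1, e2⟩
      · rw [← ih.2, hu.eq_iff (by omega)] at e1
        rw [e2, hu.eq_iff (by omega)]
        rw [Nat.add_mod, e1, ← Nat.add_mod]
      · exfalso
        rw [← ih.2, hu.eq_iff (by omega)] at e1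
        have e3 : n ≡ l [MOD M] := Nat.ModEq.add_right_cancel' 1 e1
        have e4 : u l = u n := by
          rw [hu.eq_iff (by omega)]
          exact e3.symm
        rw [e4, ih.1, hv.eq_iff (by omega)] at e2
        have e5 : n + 2 ≡ n + 0 [MOD M] := e2
        have e6 := Nat.ModEq.add_left_cancel' n e5
        unfold Nat.ModEq at e6
        rw [Nat.mod_eq_of_lt (by omega), Nat.zero_mod] at e6
        omega
  funext n
  exact (key n).1

/-! weights -/

/-- the weight of a set of edges -/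
noncomputable def Wt (ζ γ : ℝ) (E : Set (Sym2 (Fin 3 → ℤ))) : ℝ :=
  Real.exp (ζ * visits (verts E) + γ * contacts (verts E) E)

theorem Wt_pos (ζ γ : ℝ) (E : Set (Sym2 (Fin 3 → ℤ))) : 0 < Wt ζ γ E := Real.exp_pos _

theorem map_add_inj (a : Fin 3 → ℤ) :
    Function.Injective (Sym2.map (fun x : Fin 3 → ℤ => x + a)) :=
  Sym2.map.injective (add_left_injective a)

theorem verts_shift (a : Fin 3 → ℤ) (E : Set (Sym2 (Fin 3 → ℤ))) :
    verts (shift a E) = (fun x => x + a) '' verts E := by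
  ext x
  constructor
  · rintro ⟨_, ⟨e, he, rfl⟩, hx⟩
    rw [Sym2.mem_map] at hx
    obtain ⟨y, hy, rfl⟩ := hx
    exact ⟨y, ⟨e, he, hy⟩, rfl⟩
  · rintro ⟨y, ⟨e, he, hy⟩, rfl⟩
    exact ⟨_, ⟨e, he, rfl⟩, Sym2.mem_map.2 ⟨y, hy, rfl⟩⟩

theorem visits_shift (a : Fin 3 → ℤ) (ha : a 0 = 0) (E : Set (Sym2 (Fin 3 → ℤ))) :
    visits (verts (shift a E)) = visits (verts E) := by
  unfold visits
  rw [verts_shift]
  have : (fun x => x + a) '' verts E ∩ Wall = (fun x => x + a) '' (verts E ∩ Wall) := by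
    ext x
    constructor
    · rintro ⟨⟨y, hy, rfl⟩, hw⟩
      refine ⟨y, ⟨hy, ?_⟩, rfl⟩
      have hw' : (y + a) 0 = 0 := hw
      rw [Pi.add_apply, ha, add_zero] at hw'
      exact hw'
    · rintro ⟨y, ⟨hy, hw⟩, rfl⟩
      refine ⟨⟨y, hy, rfl⟩, ?_⟩
      have hw' : y 0 = 0 := hw
      show (y + a) 0 = 0
      rw [Pi.add_apply, ha, add_zero]
      exact hw'
  rw [this]
  exact Set.ncard_image_of_injective _ (add_left_injective a)

theorem contacts_shift (a : Fin 3 → ℤ) (E : Set (Sym2 (Fin 3 → ℤ))) :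
    contacts (verts (shift a E)) (shift a E) = contacts (verts E) E := by
  unfold contacts
  rw [verts_shift]
  have : {e : Sym2 (Fin 3 → ℤ) | e ∉ shift a E ∧ ∃ x ∈ (fun x => x + a) '' verts E,
      ∃ y ∈ (fun x => x + a) '' verts E, Nbr x y ∧ e = s(x, y)} =
      Sym2.map (fun x => x + a) '' {e : Sym2 (Fin 3 → ℤ) | e ∉ E ∧ ∃ x ∈ verts E, ∃ y ∈ verts E,
        Nbr x y ∧ e = s(x, y)} := by
    ext e
    constructor
    · rintro ⟨he, _, ⟨x, hx, rfl⟩, _, ⟨y, hy, rfl⟩, hxy, rfl⟩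
      refine ⟨s(x, y), ⟨?_, x, hx, y, hy, (nbr_add a).1 hxy, rfl⟩, ?_⟩
      · intro hxy'
        exact he ⟨_, hxy', by simp⟩
      · simp
    · rintro ⟨_, ⟨he, x, hx, y, hy, hxy, rfl⟩, rfl⟩
      refine ⟨?_, _, ⟨x, hx, rfl⟩, _, ⟨y, hy, rfl⟩, (nbr_add a).2 hxy, by simp⟩
      rintro ⟨e', he', h⟩
      exact he (map_add_inj a h ▸ he')
  rw [this]
  exact Set.ncard_image_of_injective _ (map_add_inj a)

theorem Wt_shift (ζ γ : ℝ) (a : Fin 3 → ℤ) (ha : a 0 = 0) (E : Set (Sym2 (Fin 3 → ℤ))) :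
    Wt ζ γ (shift a E) = Wt ζ γ E := by
  unfold Wt
  rw [visits_shift a ha, contacts_shift]

theorem Wt_out (ζ γ : ℝ) (M : ℕ) (P : Polygons M) :
    Wt ζ γ (Quotient.out (Quotient.mk (parallelSetoid M) P)).1 = Wt ζ γ P.1 := by
  have h : (parallelSetoid M).r (Quotient.out (Quotient.mk (parallelSetoid M) P)) P :=
    Quotient.exact (Quotient.out_eq _)
  obtain ⟨a, ha, h⟩ := h
  rw [h, Wt_shift ζ γ a ha]

/-- the adjacent pairs of a set -/
def AP (V : Set (Fin 3 → ℤ)) : Set (Sym2 (Fin 3 → ℤ)) :=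
  {e | ∃ x ∈ V, ∃ y ∈ V, Nbr x y ∧ e = s(x, y)}

theorem adjPairs_eq (T : Finset (Fin 3 → ℤ)) : adjPairs T = 2 * (AP (sw '' (T : Set (Fin 3 → ℤ)))).ncard := by
  classical
  set B := (T ×ˢ T).filter (fun p => ∑ i, |p.1 i - p.2 i| = 1) with hB
  have h1 : AP (sw '' (T : Set (Fin 3 → ℤ))) =
      ((B.image (fun p => s(sw p.1, sw p.2)) : Finset (Sym2 (Fin 3 → ℤ))) : Set (Sym2 (Fin 3 → ℤ))) := by
    ext e
    simp only [Finset.coe_image, Set.mem_image, Finset.mem_coe]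
    constructor
    · rintro ⟨_, ⟨x, hx, rfl⟩, _, ⟨y, hy, rfl⟩, hxy, rfl⟩
      refine ⟨(x, y), ?_, rfl⟩
      rw [hB, Finset.mem_filter, Finset.mem_product]
      exact ⟨⟨hx, hy⟩, (nbr_sw x y).1 hxy⟩
    · rintro ⟨⟨x, y⟩, hp, rfl⟩
      rw [hB, Finset.mem_filter, Finset.mem_product] at hp
      exact ⟨_, ⟨x, hp.1.1, rfl⟩, _, ⟨y, hp.1.2, rfl⟩, (nbr_sw x y).2 hp.2, rfl⟩
  rw [h1, Set.ncard_coe_finset]
  unfold adjPairs
  rw [← hB]
  rw [Finset.card_eq_sum_card_image (fun p => s(sw p.1, sw p.2)) B]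
  rw [mul_comm, ← smul_eq_mul, ← Finset.sum_const]
  apply Finset.sum_congr rfl
  intro e he
  rw [Finset.mem_image] at he
  obtain ⟨⟨x, y⟩, hp, rfl⟩ := he
  have hp' := hp
  rw [hB, Finset.mem_filter, Finset.mem_product] at hp
  have hne : x ≠ y := by
    rintro rfl
    simpa using hp.2
  have hsym : (y, x) ∈ B := by
    rw [hB, Finset.mem_filter, Finset.mem_product]
    refine ⟨⟨hp.1.2, hp.1.1⟩, ?_⟩
    rw [← hp.2]
    apply Finset.sum_congr rfl
    intro k _
    exact abs_sub_comm _ _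
  have h2 : B.filter (fun q => s(sw q.1, sw q.2) = s(sw (x, y).1, sw (x, y).2)) = {(x, y), (y, x)} := by
    ext ⟨x', y'⟩
    rw [Finset.mem_filter, Finset.mem_insert, Finset.mem_singleton]
    simp only [Sym2.eq_iff, Prod.mk.injEq, sw_inj.eq_iff]
    constructor
    · rintro ⟨_, h⟩
      exact h
    · rintro (⟨rfl, rfl⟩ | ⟨rfl, rfl⟩)
      · exact ⟨hp', Or.inl ⟨rfl, rfl⟩⟩
      · exact ⟨hsym, Or.inr ⟨rfl, rfl⟩⟩
  rw [h2, Finset.card_pair]
  intro h
  rw [Prod.mk.injEq] at h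
  exact hne h.1

theorem ncard_edges {M : ℕ} (hM : 3 ≤ M) {u : ℕ → Fin 3 → ℤ} (hu : Cy M u) :
    (Ed u).Finite ∧ (Ed u).ncard = M := by
  have h1 : Ed u = ((fun i : Fin M => s(u i, u (i + 1))) '' Set.univ) := by
    ext e
    constructor
    · rintro ⟨n, rfl⟩
      refine ⟨⟨n % M, Nat.mod_lt _ (by omega)⟩, trivial, ?_⟩
      show s(u (n % M), u (n % M + 1)) = s(u n, u (n + 1))
      have h1 : u n = u (n % M) := (hu.mod n).symm
      have h2 : u (n + 1) = u (n % M + 1) := by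
        rw [hu.eq_iff (by omega)]
        simp
      rw [h1, h2]
    · rintro ⟨i, _, rfl⟩
      exact ⟨i, rfl⟩
  have h2 : Function.Injective (fun i : Fin M => s(u i, u (i + 1))) := by
    intro i j h
    simp only [Sym2.eq_iff] at h
    rcases h with ⟨h, _⟩ | ⟨h, h'⟩
    · exact Fin.ext (hu.inj _ _ i.2 j.2 h)
    · exfalso
      rw [hu.eq_iff (by omega)] at h h'
      have e1 : (i : ℕ) + 1 + 1 ≡ i + 0 [MOD M] := by
        calc (i : ℕ) + 1 + 1 ≡ j + 1 [MOD M] := Nat.ModEq.add_right 1 h'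
          _ ≡ i [MOD M] := h.symm
      rw [add_assoc] at e1
      have e2 := Nat.ModEq.add_left_cancel' _ e1
      unfold Nat.ModEq at e2
      rw [Nat.mod_eq_of_lt (by omega), Nat.zero_mod] at e2
      omega
  rw [h1]
  refine ⟨Set.toFinite _, ?_⟩
  rw [Set.ncard_image_of_injective _ h2, Set.ncard_univ]
  simp

theorem Ed_sub_AP (u : ℕ → Fin 3 → ℤ) {M : ℕ} (hu : Cy M u) : Ed u ⊆ AP (Set.range u) := by
  rintro e ⟨n, rfl⟩
  exact ⟨_, ⟨n, rfl⟩, _, ⟨n + 1, rfl⟩, hu.nbr n, rfl⟩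

theorem finite_range {M : ℕ} (hM : 0 < M) {u : ℕ → Fin 3 → ℤ} (hu : Cy M u) :
    (Set.range u).Finite := by
  have : Set.range u = (fun i : Fin M => u i) '' Set.univ := by
    ext x
    constructor
    · rintro ⟨n, rfl⟩
      exact ⟨⟨n % M, Nat.mod_lt _ hM⟩, trivial, hu.mod n⟩
    · rintro ⟨i, _, rfl⟩
      exact ⟨i, rfl⟩
  rw [this]
  exact Set.toFinite _

theorem contacts_eq {M : ℕ} (hM : 3 ≤ M) {u : ℕ → Fin 3 → ℤ} (hu : Cy M u) :
    (contacts (verts (Ed u)) (Ed u) : ℝ) = ((AP (Set.range u)).ncard : ℝ) - M := by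
  rw [verts_Ed u (by omega) hu]
  have h1 : contacts (Set.range u) (Ed u) = (AP (Set.range u) \ Ed u).ncard := by
    unfold contacts
    congr 1
    ext e
    constructor
    · rintro ⟨h1, h2⟩
      exact ⟨h2, h1⟩
    · rintro ⟨h1, h2⟩
      exact ⟨h2, h1⟩
  have hfin : (AP (Set.range u)).Finite := by
    have h2 := (finite_range (by omega) hu)
    apply ((h2.prod h2).image (fun p => s(p.1, p.2))).subset
    rintro e ⟨x, hx, y, hy, _, rfl⟩
    exact ⟨(x, y), ⟨hx, hy⟩, rfl⟩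
  have h2 := Set.ncard_sdiff (Ed_sub_AP u hu) (ncard_edges hM hu).1
  have h3 : (Ed u).ncard ≤ (AP (Set.range u)).ncard := Set.ncard_le_ncard (Ed_sub_AP u hu) hfin
  rw [(ncard_edges hM hu).2] at h2 h3
  rw [h1, h2, Nat.cast_sub h3]

/-- the index set of `PH` -/
noncomputable def Idx (M : ℕ) : Finset (Fin (M + 1) → Fin 3 → ℤ) := by
  classical
  exact (polySet 3 M).filter (fun ω => ∀ j, 0 ≤ ω j 2)

theorem mem_Idx (M : ℕ) (w : Fin (M + 1) → Fin 3 → ℤ) :
    w ∈ Idx M ↔ (w 0 = 0 ∧ w (Fin.last M) = 0 ∧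
      Function.Injective (fun i : Fin M => w i.castSucc) ∧
      ∀ i : Fin M, ∑ k, |w i.castSucc k - w i.succ k| = 1) ∧ ∀ j, 0 ≤ w j 2 := by
  unfold Idx
  rw [Finset.mem_filter, mem_polySet]

theorem PH_eq (ζ g : ℝ) (M : ℕ) : PH ζ g M = ∑ ω ∈ Idx M,
    Real.exp (ζ * wallc 0 (Finset.univ.image ω) +
      g * ((adjPairs (Finset.univ.image ω) : ℝ) / 2 - M)) := rfl

/-- the swapped walk -/
def sww {M : ℕ} (w : Fin (M + 1) → Fin 3 → ℤ) : Fin (M + 1) → Fin 3 → ℤ := fun i => sw (w i)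

theorem sww_Idx {M : ℕ} {w : Fin (M + 1) → Fin 3 → ℤ} (h : w ∈ Idx M) :
    sww w 0 = 0 ∧ sww w (Fin.last M) = sww w 0 ∧
      Function.Injective (fun i : Fin M => sww w i.castSucc) ∧
      (∀ i : Fin M, Nbr (sww w i.castSucc) (sww w i.succ)) ∧ ∀ j, 0 ≤ sww w j 0 := by
  rw [mem_Idx] at h
  obtain ⟨⟨h0, hl, hi, hn⟩, hp⟩ := h
  refine ⟨?_, ?_, ?_, ?_, ?_⟩
  · unfold sww
    rw [h0, sw_zero]
  · unfold sww
    rw [h0, hl]
  · intro i j hij
    exact hi (sw_inj hij)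
  · intro i
    exact (nbr_sw _ _).2 (hn i)
  · intro j
    exact hp j

theorem Idx_of {M : ℕ} {w : Fin (M + 1) → Fin 3 → ℤ} (h0 : w 0 = 0) (hl : w (Fin.last M) = 0)
    (hi : Function.Injective (fun i : Fin M => w i.castSucc))
    (hn : ∀ i : Fin M, Nbr (w i.castSucc) (w i.succ)) (hp : ∀ j, 0 ≤ w j 0) : sww w ∈ Idx M := by
  rw [mem_Idx]
  refine ⟨⟨?_, ?_, ?_, ?_⟩, ?_⟩
  · unfold sww
    rw [h0, sw_zero]
  · unfold sww
    rw [hl, sw_zero]
  · intro i j hij
    exact hi (sw_inj hij)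
  · intro i
    exact (nbr_sw' _ _).1 (hn i)
  · intro j
    exact hp j

theorem sww_sww {M : ℕ} (w : Fin (M + 1) → Fin 3 → ℤ) : sww (sww w) = w := by
  funext i
  exact sw_sw _

theorem weight_eq (ζ γ : ℝ) {M : ℕ} (hM : 3 ≤ M) {w : Fin (M + 1) → Fin 3 → ℤ} (h : w ∈ Idx M) :
    Real.exp (ζ * wallc 0 (Finset.univ.image w) +
      γ * ((adjPairs (Finset.univ.image w) : ℝ) / 2 - M)) = Wt ζ γ (edges (sww w)) := by
  obtain ⟨h0, hl, hi, hn, hp⟩ := sww_Idx h
  have hM0 : 0 < M := by omega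
  have hcy := pe_cy hM0 hl hi hn
  have hw := pe_eq hM0 hl
  have he := edges_eq hM0 hcy hw
  have hr := range_eq hM0 hcy hw
  unfold Wt
  rw [he, contacts_eq hM hcy, verts_Ed _ hM0 hcy, ← hr]
  have h1 : sw '' ((Finset.univ.image w : Finset (Fin 3 → ℤ)) : Set (Fin 3 → ℤ)) =
      Set.range (sww w) := by
    ext x
    constructor
    · rintro ⟨y, hy, rfl⟩
      rw [Finset.mem_coe, Finset.mem_image] at hy
      obtain ⟨i, _, rfl⟩ := hy
      exact ⟨i, rfl⟩
    · rintro ⟨i, rfl⟩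
      exact ⟨w i, by simp, rfl⟩
  have h2 : (wallc 0 (Finset.univ.image w) : ℝ) = visits (Set.range (sww w)) := by
    unfold visits wallc
    rw [← h1, ← Set.ncard_coe_finset]
    have : sw '' ((Finset.univ.image w : Finset (Fin 3 → ℤ)) : Set (Fin 3 → ℤ)) ∩ Wall =
        sw '' (((Finset.univ.image w).filter (fun x => x 2 = 0) : Finset (Fin 3 → ℤ)) :
          Set (Fin 3 → ℤ)) := by
      ext x
      constructor
      · rintro ⟨⟨y, hy, rfl⟩, hx⟩
        refine ⟨y, ?_, rfl⟩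
        rw [Finset.mem_coe, Finset.mem_filter]
        exact ⟨hy, hx⟩
      · rintro ⟨y, hy, rfl⟩
        rw [Finset.mem_coe, Finset.mem_filter] at hy
        exact ⟨⟨y, hy.1, rfl⟩, hy.2⟩
    rw [this, Set.ncard_image_of_injective _ sw_inj]
  rw [h2, adjPairs_eq, h1]
  congr 3
  push_cast
  ring

/-- the polygon of a rooted walk -/
def toPoly {M : ℕ} (hM : 3 ≤ M) (w : {w // w ∈ Idx M}) : Polygons M :=
  ⟨edges (sww w.1), by
    obtain ⟨h0, hl, hi, hn, hp⟩ := sww_Idx w.2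
    have hM0 : 0 < M := by omega
    have hcy := pe_cy hM0 hl hi hn
    have hw := pe_eq hM0 hl
    have he := edges_eq hM0 hcy hw
    refine ⟨⟨hM, sww w.1, hl, hi, hp, hn, rfl⟩, ?_⟩
    rw [he, verts_Ed _ hM0 hcy, ← range_eq hM0 hcy hw]
    exact ⟨0, ⟨0, h0⟩, rfl⟩⟩

/-- the class of a rooted walk -/
def Phi {M : ℕ} (hM : 3 ≤ M) (w : {w // w ∈ Idx M}) : Quotient (parallelSetoid M) :=
  Quotient.mk _ (toPoly hM w)

theorem Phi_surj {M : ℕ} (hM : 3 ≤ M) : Function.Surjective (Phi hM) := by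
  intro p
  obtain ⟨P, rfl⟩ := Quotient.exists_rep p
  obtain ⟨⟨_, w, hl, hi, hp, hn, hE⟩, x, hx, hxw⟩ := P.2
  have hM0 : 0 < M := by omega
  have hcy := pe_cy hM0 hl hi hn
  have hw := pe_eq hM0 hl
  have he := edges_eq hM0 hcy hw
  rw [hE, he, verts_Ed _ hM0 hcy] at hx
  obtain ⟨j, hj⟩ := hx
  have hcy' := hcy.rot hM0 j (-x)
  set v : ℕ → Fin 3 → ℤ := fun n => pe M hM0 w (n + j) + -x with hv
  have hx0 : x 0 = 0 := hxw
  have hv0 : v 0 = 0 := by
    rw [hv]
    simp only [zero_add, hj, add_neg_cancel]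
  have hvM : v M = 0 := by
    have := hcy'.per 0
    rw [zero_add] at this
    rw [this, hv0]
  have hmem : sww (fun i : Fin (M + 1) => v i) ∈ Idx M := by
    apply Idx_of
    · exact hv0
    · exact hvM
    · intro a b hab
      exact Fin.ext (hcy'.inj _ _ a.2 b.2 hab)
    · intro i
      exact hcy'.nbr i
    · intro i
      show 0 ≤ (pe M hM0 w (i + j) + -x) 0
      rw [Pi.add_apply, Pi.neg_apply, hx0, neg_zero, add_zero]
      exact hp _
  refine ⟨⟨_, hmem⟩, ?_⟩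
  unfold Phi
  apply Quotient.sound
  show (parallelSetoid M).r _ _
  refine ⟨x, hx0, ?_⟩
  show P.1 = shift x (edges (sww (sww (fun i : Fin (M + 1) => v i))))
  rw [sww_sww, edges_eq hM0 hcy' (fun i => rfl), hE, he]
  have h3 := Ed_rot hM0 hcy' 0 x
  rw [← h3]
  have h4 : (fun n => v (n + 0) + x) = fun n => pe M hM0 w (n + j) + 0 := by
    funext n
    rw [hv]
    simp
  rw [h4, Ed_rot hM0 hcy j 0]
  unfold shift
  have : (Sym2.map fun x : Fin 3 → ℤ => x + 0) = id := by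
    have h1 : (fun x : Fin 3 → ℤ => x + 0) = id := by funext x; simp
    rw [h1, Sym2.map_id]
  rw [this, Set.image_id]

/-- the six unit vectors -/
def D6 : Finset (Fin 3 → ℤ) :=
  {![1, 0, 0], ![-1, 0, 0], ![0, 1, 0], ![0, -1, 0], ![0, 0, 1], ![0, 0, -1]}

theorem D6_card : D6.card ≤ 6 := Finset.card_le_six

theorem nbr_zero {x : Fin 3 → ℤ} (h : Nbr 0 x) : x ∈ D6 := by
  have e : x = ![x 0, x 1, x 2] := by
    funext k
    fin_cases k <;> rfl
  unfold Nbr at h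
  simp only [Fin.sum_univ_three, Pi.zero_apply, zero_sub, abs_neg] at h
  have a0 := abs_nonneg (x 0)
  have a1 := abs_nonneg (x 1)
  have a2 := abs_nonneg (x 2)
  rw [e]
  unfold D6
  simp only [Finset.mem_insert, Finset.mem_singleton]
  rcases abs_cases (x 0) with ⟨h0, h0'⟩ | ⟨h0, h0'⟩ <;>
    rcases abs_cases (x 1) with ⟨h1, h1'⟩ | ⟨h1, h1'⟩ <;>
    rcases abs_cases (x 2) with ⟨h2, h2'⟩ | ⟨h2, h2'⟩ <;>
    (have c0 : x 0 = 0 ∨ x 0 = 1 ∨ x 0 = -1 := by omega
     have c1 : x 1 = 0 ∨ x 1 = 1 ∨ x 1 = -1 := by omega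
     have c2 : x 2 = 0 ∨ x 2 = 1 ∨ x 2 = -1 := by omega
     rcases c0 with c0 | c0 | c0 <;> rcases c1 with c1 | c1 | c1 <;>
       rcases c2 with c2 | c2 | c2 <;> first | omega | simp [c0, c1, c2])

theorem fibre_card {M : ℕ} (hM : 3 ≤ M)
    [DecidableEq (Quotient (parallelSetoid M))] (p : Quotient (parallelSetoid M)) :
    (Finset.univ.filter (fun w : {w // w ∈ Idx M} => Phi hM w = p)).card ≤ 6 * M := by
  classical
  have hM0 : 0 < M := by omega
  rcases Finset.eq_empty_or_nonempty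
    (Finset.univ.filter (fun w : {w // w ∈ Idx M} => Phi hM w = p)) with he | ⟨w0, hw0⟩
  · rw [he]
    simp
  rw [Finset.mem_filter] at hw0
  obtain ⟨h0, hl, hi, hn, hp⟩ := sww_Idx w0.2
  have hcy := pe_cy hM0 hl hi hn
  set u0 := pe M hM0 (sww w0.1) with hu0
  have hfib : ∀ w : {w // w ∈ Idx M}, Phi hM w = p → ∃ j, j < M ∧
      edges (sww w.1) = shift (-(u0 j)) (edges (sww w0.1)) := by
    intro w hw
    have h1 : (parallelSetoid M).r (toPoly hM w0) (toPoly hM w) := by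
      apply Quotient.exact
      show Phi hM w0 = Phi hM w
      rw [hw, hw0.2]
    obtain ⟨a, ha, hE⟩ := h1
    have hE' : edges (sww w.1) = shift a (edges (sww w0.1)) := hE
    obtain ⟨g0, gl, gi, gn, gp⟩ := sww_Idx w.2
    have gcy := pe_cy hM0 gl gi gn
    have h2 : (0 : Fin 3 → ℤ) ∈ verts (edges (sww w.1)) := by
      rw [edges_eq hM0 gcy (pe_eq hM0 gl), verts_Ed _ hM0 gcy, ← range_eq hM0 gcy (pe_eq hM0 gl)]
      exact ⟨0, g0⟩
    rw [hE', verts_shift, edges_eq hM0 hcy (pe_eq hM0 hl), verts_Ed _ hM0 hcy] at h2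
    obtain ⟨_, ⟨j, rfl⟩, hj⟩ := h2
    refine ⟨j % M, Nat.mod_lt _ hM0, ?_⟩
    rw [hE', hcy.mod]
    congr 1
    exact eq_neg_of_add_eq_zero_right hj
  have hone : 1 < M + 1 := by omega
  let f : {w // w ∈ Idx M} → ℕ × (Fin 3 → ℤ) := fun w =>
    (if h : ∃ j, j < M ∧ edges (sww w.1) = shift (-(u0 j)) (edges (sww w0.1)) then h.choose else 0,
      sww w.1 ⟨1, hone⟩)
  have hle : (Finset.univ.filter (fun w : {w // w ∈ Idx M} => Phi hM w = p)).card ≤
      (Finset.range M ×ˢ D6).card := by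
    apply Finset.card_le_card_of_injOn f
    · intro w hw
      rw [Finset.mem_coe, Finset.mem_filter] at hw
      rw [Finset.mem_coe, Finset.mem_product]
      have h := hfib w hw.2
      refine ⟨?_, ?_⟩
      · show (if h : ∃ j, j < M ∧ edges (sww w.1) = shift (-(u0 j)) (edges (sww w0.1)) then
          h.choose else 0) ∈ _
        rw [dif_pos h, Finset.mem_range]
        exact h.choose_spec.1
      · show sww w.1 ⟨1, hone⟩ ∈ D6
        obtain ⟨g0, gl, gi, gn, gp⟩ := sww_Idx w.2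
        apply nbr_zero
        have := gn ⟨0, hM0⟩
        have e0 : (Fin.castSucc (⟨0, hM0⟩ : Fin M)) = 0 := rfl
        rw [e0, g0] at this
        exact this
    · intro w hw w' hw' hf
      rw [Finset.mem_coe, Finset.mem_filter] at hw hw'
      have h := hfib w hw.2
      have h' := hfib w' hw'.2
      have hf1 : (f w).1 = (f w').1 := by rw [hf]
      have hf2 : (f w).2 = (f w').2 := by rw [hf]
      have e1 : (f w).1 = h.choose := dif_pos h
      have e2 : (f w').1 = h'.choose := dif_pos h'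
      have s1 := h.choose_spec.2
      have s2 := h'.choose_spec.2
      rw [← e1] at s1
      rw [← e2, ← hf1] at s2
      have hE : edges (sww w.1) = edges (sww w'.1) := by rw [s1, s2]
      obtain ⟨g0, gl, gi, gn, gp⟩ := sww_Idx w.2
      obtain ⟨k0, kl, ki, kn, kp⟩ := sww_Idx w'.2
      have gcy := pe_cy hM0 gl gi gn
      have kcy := pe_cy hM0 kl ki kn
      rw [edges_eq hM0 gcy (pe_eq hM0 gl), edges_eq hM0 kcy (pe_eq hM0 kl)] at hE
      have hz : pe M hM0 (sww w.1) 0 = pe M hM0 (sww w'.1) 0 := by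
        have e3 := pe_eq hM0 gl 0
        have e4 := pe_eq hM0 kl 0
        have e5 : ((0 : Fin (M + 1)) : ℕ) = 0 := rfl
        rw [e5] at e3 e4
        rw [← e3, ← e4, g0, k0]
      have ho : pe M hM0 (sww w.1) 1 = pe M hM0 (sww w'.1) 1 := by
        have e3 := pe_eq hM0 gl ⟨1, hone⟩
        have e4 := pe_eq hM0 kl ⟨1, hone⟩
        have e5 : sww w.1 ⟨1, hone⟩ = sww w'.1 ⟨1, hone⟩ := hf2
        simp only at e3 e4
        rw [← e3, ← e4, e5]
      have hu := Cy.ext hM gcy kcy hE hz ho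
      have hww : sww w.1 = sww w'.1 := by
        funext i
        rw [pe_eq hM0 gl i, pe_eq hM0 kl i, hu]
      apply Subtype.ext
      rw [← sww_sww w.1, hww, sww_sww]
  refine hle.trans ?_
  rw [Finset.card_product, Finset.card_range, mul_comm]
  exact Nat.mul_le_mul_right _ D6_card

theorem PH_eq' (ζ g : ℝ) {M : ℕ} (hM : 3 ≤ M) :
    PH ζ g M = ∑ w : {w // w ∈ Idx M}, Wt ζ g (Phi hM w).out.1 := by
  rw [PH_eq]
  rw [← Finset.sum_coe_sort]
  apply Fintype.sum_equiv (Equiv.refl _)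
  intro w
  rw [weight_eq ζ g hM w.2]
  exact (Wt_out ζ g M (toPoly hM w)).symm

theorem polygons_empty {M : ℕ} (hM : ¬ 3 ≤ M) : IsEmpty (Quotient (parallelSetoid M)) := by
  constructor
  intro p
  obtain ⟨P, _⟩ := Quotient.exists_rep p
  exact hM P.2.1.1

/-! Targets. -/

/-- unrooted polygons are at most rooted polygons -/
theorem Q_le (M : ℕ) (ζ γ : ℝ) : Q M ζ γ ≤ PH ζ γ M := by
  classical
  by_cases hM : 3 ≤ M
  · have : Finite (Quotient (parallelSetoid M)) := Finite.of_surjective _ (Phi_surj hM)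
    have : Fintype (Quotient (parallelSetoid M)) := Fintype.ofFinite _
    have h1 : Q M ζ γ = ∑ p : Quotient (parallelSetoid M), Wt ζ γ p.out.1 := by
      unfold Q
      rw [tsum_fintype]
      rfl
    rw [h1, PH_eq' ζ γ hM]
    obtain ⟨g, hg⟩ := (Phi_surj hM).hasRightInverse
    have h2 : ∑ p : Quotient (parallelSetoid M), Wt ζ γ p.out.1 =
        ∑ w ∈ Finset.univ.image g, Wt ζ γ (Phi hM w).out.1 := by
      rw [Finset.sum_image]
      · apply Finset.sum_congr rfl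
        intro p _
        rw [hg p]
      · intro a _ b _ hab
        exact hg.injective hab
    rw [h2]
    apply Finset.sum_le_sum_of_subset_of_nonneg (Finset.subset_univ _)
    intro w _ _
    exact (Wt_pos _ _ _).le
  · have := polygons_empty hM
    have h1 : Q M ζ γ = 0 := by
      unfold Q
      exact tsum_empty
    rw [h1]
    unfold PH
    exact Finset.sum_nonneg (fun _ _ => (Real.exp_pos _).le)

/-- each class of polygons has at most `6 M` rooted versions -/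
theorem PH_le (M : ℕ) (hM : 3 ≤ M) (ζ γ : ℝ) : PH ζ γ M ≤ 6 * (M : ℝ) * Q M ζ γ := by
  classical
  have : Finite (Quotient (parallelSetoid M)) := Finite.of_surjective _ (Phi_surj hM)
  have : Fintype (Quotient (parallelSetoid M)) := Fintype.ofFinite _
  have h1 : Q M ζ γ = ∑ p : Quotient (parallelSetoid M), Wt ζ γ p.out.1 := by
    unfold Q
    rw [tsum_fintype]
    rfl
  rw [h1, PH_eq' ζ γ hM, Finset.mul_sum, ← Finset.sum_fiberwise Finset.univ (Phi hM)]
  apply Finset.sum_le_sum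
  intro p _
  have h2 : ∑ w ∈ Finset.univ.filter (fun w : {w // w ∈ Idx M} => Phi hM w = p),
      Wt ζ γ (Phi hM w).out.1 =
      ((Finset.univ.filter (fun w : {w // w ∈ Idx M} => Phi hM w = p)).card : ℝ) *
        Wt ζ γ p.out.1 := by
    rw [← nsmul_eq_mul, ← Finset.sum_const]
    apply Finset.sum_congr rfl
    intro w hw
    rw [Finset.mem_filter] at hw
    rw [hw.2]
  rw [h2]
  apply mul_le_mul_of_nonneg_right _ (Wt_pos _ _ _).le
  have h3 := fibre_card hM p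
  calc ((Finset.univ.filter (fun w : {w // w ∈ Idx M} => Phi hM w = p)).card : ℝ) ≤
      ((6 * M : ℕ) : ℝ) := by exact_mod_cast h3
    _ = 6 * (M : ℝ) := by push_cast; ring

end Pool.Agent.Helper772.HF2
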