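import Mathlib
import Pool.Agent.Helper772.Defs
import Pool.Agent.Helper772.Sa
import Pool.Agent.Helper772.Sb
set_option autoImplicit false
namespace Pool.Agent.Helper772.NC1

open Pool.Agent.Helper772.Sa (Str_recover tile_stretch)
open Pool.Agent.Helper772.Sb (Str_card Str_support)

/-! Given results (proved in other jobs, use as black boxes). -/

/-! Target. -/

lemma image_card_le_changes {α : Type} [DecidableEq α] : ∀ (m : ℕ) (c : Fin (m + 1) → α),
    (Finset.univ.image c).card ≤
      ((Finset.univ : Finset (Fin m)).filter (fun j => c j.castSucc ≠ c j.succ)).card + 1 := by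
  intro m
  induction m with
  | zero =>
    intro c
    calc (Finset.univ.image c).card ≤ (Finset.univ : Finset (Fin (0 + 1))).card :=
          Finset.card_image_le
      _ = 1 := by simp
      _ ≤ _ := by omega
  | succ m ih =>
    intro c
    let c' : Fin (m + 1) → α := fun j => c j.castSucc
    have h1 := ih c'
    have h2 : (Finset.univ.image c) ⊆ insert (c (Fin.last (m + 1))) (Finset.univ.image c') := by
      intro x hx
      rw [Finset.mem_image] at hx
      obtain ⟨j, -, rfl⟩ := hx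
      rw [Finset.mem_insert]
      refine Fin.lastCases ?_ (fun i => ?_) j
      · exact Or.inl rfl
      · right
        exact Finset.mem_image.2 ⟨i, Finset.mem_univ _, rfl⟩
    have h3 : ((Finset.univ : Finset (Fin m)).filter (fun j => c' j.castSucc ≠ c' j.succ)).map
        Fin.castSuccEmb ⊆
        (Finset.univ : Finset (Fin (m + 1))).filter (fun j => c j.castSucc ≠ c j.succ) := by
      intro x hx
      rw [Finset.mem_map] at hx
      obtain ⟨j, hj, rfl⟩ := hx
      rw [Finset.mem_filter] at hj ⊢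
      refine ⟨Finset.mem_univ _, ?_⟩
      exact hj.2
    have h3c := Finset.card_le_card h3
    rw [Finset.card_map] at h3c
    by_cases hlast : c (Fin.last m).castSucc = c (Fin.last (m + 1))
    · have h4 : (Finset.univ.image c) ⊆ Finset.univ.image c' := by
        refine h2.trans ?_
        intro x hx
        rw [Finset.mem_insert] at hx
        rcases hx with rfl | hx
        · exact Finset.mem_image.2 ⟨Fin.last m, Finset.mem_univ _, hlast⟩
        · exact hx
      have := Finset.card_le_card h4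
      omega
    · have h5 : ((Finset.univ : Finset (Fin m)).filter (fun j => c' j.castSucc ≠ c' j.succ)).map
        Fin.castSuccEmb ⊆
        ((Finset.univ : Finset (Fin (m + 1))).filter
          (fun j => c j.castSucc ≠ c j.succ)).erase (Fin.last m) := by
        intro x hx
        rw [Finset.mem_erase]
        refine ⟨?_, h3 hx⟩
        rw [Finset.mem_map] at hx
        obtain ⟨j, hj, rfl⟩ := hx
        exact (Fin.castSucc_lt_last j).ne
      have hmem : Fin.last m ∈ (Finset.univ : Finset (Fin (m + 1))).filter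
          (fun j => c j.castSucc ≠ c j.succ) := by
        rw [Finset.mem_filter]
        refine ⟨Finset.mem_univ _, ?_⟩
        rw [Fin.succ_last]
        exact hlast
      have h5c := Finset.card_le_card h5
      rw [Finset.card_map, Finset.card_erase_of_mem hmem] at h5c
      have hpos := Finset.card_pos.2 ⟨_, hmem⟩
      have h6 := Finset.card_le_card h2
      have h7 := Finset.card_insert_le (c (Fin.last (m + 1))) (Finset.univ.image c')
      omega

/-- the sites of the tile `b` -/
noncomputable def tileBox {d : ℕ} (L : ℕ) (b : Fin d → ℤ) : Finset (Fin d → ℤ) :=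
  Fintype.piFinset (fun i => Finset.Ico (b i * ((L : ℤ) + 4)) (b i * ((L : ℤ) + 4) + ((L : ℤ) + 4)))

lemma mem_tileBox {d : ℕ} (L : ℕ) (y : Fin d → ℤ) : y ∈ tileBox L (tile (L : ℤ) y) := by
  unfold tileBox tile
  rw [Fintype.mem_piFinset]
  intro i
  have hL : (0 : ℤ) < (L : ℤ) + 4 := by positivity
  have h1 := Int.emod_nonneg (y i) (ne_of_gt hL)
  have h2 := Int.emod_lt_of_pos (y i) hL
  have h3 := Int.mul_ediv_add_emod (y i) ((L : ℤ) + 4)
  rw [Finset.mem_Ico]
  constructor
  · nlinarith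
  · nlinarith

lemma card_tileBox {d : ℕ} (L : ℕ) (b : Fin d → ℤ) : (tileBox L b).card = (L + 4) ^ d := by
  unfold tileBox
  rw [Fintype.card_piFinset]
  simp only [Int.card_Ico]
  have : ∀ i : Fin d, (b i * ((L : ℤ) + 4) + ((L : ℤ) + 4) - b i * ((L : ℤ) + 4)).toNat = L + 4 := by
    intro i
    have : b i * ((L : ℤ) + 4) + ((L : ℤ) + 4) - b i * ((L : ℤ) + 4) = ((L + 4 : ℕ) : ℤ) := by
      push_cast; ring
    rw [this, Int.toNat_natCast]
  simp only [this, Finset.prod_const, Finset.card_univ, Fintype.card_fin]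

lemma pathG_le_Lat {d r : ℕ} {n : Fin r → ℕ} (w : ∀ i, Fin (n i + 1) → Fin d → ℤ)
    (hw : ∀ i (j : Fin (n i)), (Lat d).Adj (w i j.castSucc) (w i j.succ)) :
    pathG w ≤ Lat d := by
  intro x y hxy
  obtain ⟨hne, i, j, hj⟩ := hxy
  rw [Sym2.eq_iff] at hj
  rcases hj with ⟨rfl, rfl⟩ | ⟨rfl, rfl⟩
  · exact hw i j
  · exact (hw i j).symm

lemma pathG_support {d r : ℕ} {n : Fin r → ℕ} (w : ∀ i, Fin (n i + 1) → Fin d → ℤ)
    {x x' : Fin d → ℤ} (h : (pathG w).Adj x x') : ∃ i j, x = w i j := by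
  obtain ⟨hne, i, j, hj⟩ := h
  rw [Sym2.eq_iff] at hj
  rcases hj with ⟨rfl, rfl⟩ | ⟨rfl, rfl⟩
  · exact ⟨i, _, rfl⟩
  · exact ⟨i, _, rfl⟩

lemma pathG_nbr {d r : ℕ} {n : Fin r → ℕ} (w : ∀ i, Fin (n i + 1) → Fin d → ℤ)
    (hw : ∀ i (j : Fin (n i)), (Lat d).Adj (w i j.castSucc) (w i j.succ))
    (i : Fin r) (hn : 1 ≤ n i) (j : Fin (n i + 1)) :
    ∃ x', (pathG w).Adj (w i j) x' := by
  by_cases hj : j.val < n i
  · let j' : Fin (n i) := ⟨j.val, hj⟩
    have h1 : j'.castSucc = j := Fin.ext rfl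
    refine ⟨w i j'.succ, ?_, i, j', ?_⟩
    · rw [← h1]; exact (hw i j').ne
    · rw [h1]
  · have hjn : j.val = n i := by have := j.isLt; omega
    let j' : Fin (n i) := ⟨n i - 1, by omega⟩
    have h1 : j'.succ = j := Fin.ext (by simp only [Fin.val_succ, j']; omega)
    refine ⟨w i j'.castSucc, ?_, i, j', ?_⟩
    · rw [← h1]; exact (hw i j').ne.symm
    · rw [h1, Sym2.eq_swap]

/-- size bounds for the polygon `γ` produced by the surgery, part 1 -/
theorem chain_bounds1 {d r : ℕ} [NeZero r] {L : ℕ} (hL : 2 ≤ L) {n k : Fin r → ℕ}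
    (w : ∀ i, Fin (n i + 1) → Fin d → ℤ) (t : ∀ i, Fin (k i + 1) → Fin d → ℤ)
    (U : Finset (Fin d → ℤ)) (h : ChainData (L : ℤ) w t (U : Set (Fin d → ℤ)))
    (hn : ∀ i, 1 ≤ n i)
    (M : ℕ) (hM : 3 ≤ M) (γ : Fin (M + 1) → Fin d → ℤ) (hclose : γ (Fin.last M) = γ 0)
    (hγinj : Function.Injective (fun i : Fin M => γ i.castSucc))
    (hγ : ∀ u v, (tile (L : ℤ) u ∉ U ∨ tile (L : ℤ) v ∉ U) →
      ((∃ i : Fin M, s(u, v) = s(γ i.castSucc, γ i.succ)) ↔ (Str (L : ℤ) (pathG w)).Adj u v)) :
    M ≤ ∑ i, (n i + 1) + 4 * ∑ i, crossNum (L : ℤ) (w i) + U.card * (L + 4) ^ d ∧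
    ((Finset.univ.image γ).image (tile (L : ℤ))).card ≤
      U.card + ∑ i, (crossNum (L : ℤ) (w i) + 1) ∧
    (∀ i j, cellc (L : ℤ) (w i j) ∉ U → ∃ m, tile (L : ℤ) (γ m) = cellc (L : ℤ) (w i j)) := by
  classical
  have hL0 : (0 : ℤ) < (L : ℤ) := by exact_mod_cast (by omega : 0 < L)
  have hF : pathG w ≤ Lat d := pathG_le_Lat w h.wstep
  -- the vertices of the walks
  let A : Finset (Fin d → ℤ) := Finset.univ.biUnion (fun i : Fin r => Finset.univ.image (w i))
  have hA : {x : Fin d → ℤ | ∃ x', (pathG w).Adj x x'} ⊆ (A : Set (Fin d → ℤ)) := by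
    rintro x ⟨x', hx⟩
    obtain ⟨i, j, rfl⟩ := pathG_support w hx
    simp only [A, Finset.coe_biUnion, Set.mem_iUnion, Finset.mem_coe, Finset.mem_image,
      Finset.mem_univ, true_and, exists_prop]
    exact ⟨i, j, rfl⟩
  have hAcard : A.card ≤ ∑ i, (n i + 1) := by
    calc A.card ≤ ∑ i, (Finset.univ.image (w i)).card := Finset.card_biUnion_le
      _ ≤ ∑ i, (n i + 1) := by
        apply Finset.sum_le_sum
        intro i _
        calc (Finset.univ.image (w i)).card ≤ (Finset.univ : Finset (Fin (n i + 1))).card :=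
              Finset.card_image_le
          _ = n i + 1 := by simp
  have hfin : {x : Fin d → ℤ | ∃ x', (pathG w).Adj x x'}.Finite := A.finite_toSet.subset hA
  have hsupp : {x : Fin d → ℤ | ∃ x', (pathG w).Adj x x'}.ncard ≤ ∑ i, (n i + 1) := by
    calc _ ≤ (A : Set (Fin d → ℤ)).ncard := Set.ncard_le_ncard hA A.finite_toSet
      _ = A.card := Set.ncard_coe_finset A
      _ ≤ _ := hAcard
  -- ordered pairs across cells
  let B : Finset ((Fin d → ℤ) × (Fin d → ℤ)) := Finset.univ.biUnion (fun i : Fin r =>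
    ((Finset.univ : Finset (Fin (n i))).filter
      (fun j => cellc (L : ℤ) (w i j.castSucc) ≠ cellc (L : ℤ) (w i j.succ))).image
        (fun j => (w i j.castSucc, w i j.succ)) ∪
    ((Finset.univ : Finset (Fin (n i))).filter
      (fun j => cellc (L : ℤ) (w i j.castSucc) ≠ cellc (L : ℤ) (w i j.succ))).image
        (fun j => (w i j.succ, w i j.castSucc)))
  have hB : {p : (Fin d → ℤ) × (Fin d → ℤ) | (pathG w).Adj p.1 p.2 ∧
      cellc (L : ℤ) p.1 ≠ cellc (L : ℤ) p.2} ⊆ (B : Set ((Fin d → ℤ) × (Fin d → ℤ))) := by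
    rintro ⟨x, y⟩ ⟨hxy, hc⟩
    simp only at hxy hc
    obtain ⟨hne, i, j, hj⟩ := hxy
    rw [Finset.mem_coe, Finset.mem_biUnion]
    refine ⟨i, Finset.mem_univ _, ?_⟩
    rw [Finset.mem_union, Finset.mem_image, Finset.mem_image]
    rw [Sym2.eq_iff] at hj
    rcases hj with ⟨rfl, rfl⟩ | ⟨rfl, rfl⟩
    · exact Or.inl ⟨j, Finset.mem_filter.2 ⟨Finset.mem_univ _, hc⟩, rfl⟩
    · exact Or.inr ⟨j, Finset.mem_filter.2 ⟨Finset.mem_univ _, hc.symm⟩, rfl⟩
  have hBcard : B.card ≤ 2 * ∑ i, crossNum (L : ℤ) (w i) := by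
    calc B.card ≤ ∑ i, (((Finset.univ : Finset (Fin (n i))).filter
      (fun j => cellc (L : ℤ) (w i j.castSucc) ≠ cellc (L : ℤ) (w i j.succ))).image
        (fun j => (w i j.castSucc, w i j.succ)) ∪
    ((Finset.univ : Finset (Fin (n i))).filter
      (fun j => cellc (L : ℤ) (w i j.castSucc) ≠ cellc (L : ℤ) (w i j.succ))).image
        (fun j => (w i j.succ, w i j.castSucc))).card := Finset.card_biUnion_le
      _ ≤ ∑ i, 2 * crossNum (L : ℤ) (w i) := by
        apply Finset.sum_le_sum
        intro i _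
        refine (Finset.card_union_le _ _).trans ?_
        have h1 := Finset.card_image_le (s := (Finset.univ : Finset (Fin (n i))).filter
          (fun j => cellc (L : ℤ) (w i j.castSucc) ≠ cellc (L : ℤ) (w i j.succ)))
          (f := fun j => (w i j.castSucc, w i j.succ))
        have h2 := Finset.card_image_le (s := (Finset.univ : Finset (Fin (n i))).filter
          (fun j => cellc (L : ℤ) (w i j.castSucc) ≠ cellc (L : ℤ) (w i j.succ)))
          (f := fun j => (w i j.succ, w i j.castSucc))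
        have h3 : ((Finset.univ : Finset (Fin (n i))).filter
          (fun j => cellc (L : ℤ) (w i j.castSucc) ≠ cellc (L : ℤ) (w i j.succ))).card =
            crossNum (L : ℤ) (w i) := by
          unfold crossNum
          congr 1
        omega
      _ = 2 * ∑ i, crossNum (L : ℤ) (w i) := by rw [Finset.mul_sum]
  have hpairs : {p : (Fin d → ℤ) × (Fin d → ℤ) | (pathG w).Adj p.1 p.2 ∧
      cellc (L : ℤ) p.1 ≠ cellc (L : ℤ) p.2}.ncard ≤ 2 * ∑ i, crossNum (L : ℤ) (w i) := by
    calc _ ≤ (B : Set ((Fin d → ℤ) × (Fin d → ℤ))).ncard :=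
          Set.ncard_le_ncard hB B.finite_toSet
      _ = B.card := Set.ncard_coe_finset B
      _ ≤ _ := hBcard
  obtain ⟨hSfin, hScard⟩ := Str_card hL0 (pathG w) hF hfin
  -- edges of `γ` at a vertex outside the tiles of `U`
  have hedge : ∀ i : Fin M, tile (L : ℤ) (γ i.castSucc) ∉ U →
      (Str (L : ℤ) (pathG w)).Adj (γ i.castSucc) (γ i.succ) := by
    intro i hi
    exact (hγ _ _ (Or.inl hi)).1 ⟨i, rfl⟩
  refine ⟨?_, ?_, ?_⟩
  · -- first claim
    let C : Finset (Fin d → ℤ) := U.biUnion (tileBox L)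
    have hC : C.card ≤ U.card * (L + 4) ^ d := by
      calc C.card ≤ ∑ b ∈ U, (tileBox L b).card := Finset.card_biUnion_le
        _ = U.card * (L + 4) ^ d := by
          simp only [card_tileBox, Finset.sum_const, smul_eq_mul]
    let D : Finset (Fin d → ℤ) := hSfin.toFinset
    have hD : D.card = {y : Fin d → ℤ | ∃ z, (Str (L : ℤ) (pathG w)).Adj y z}.ncard := by
      rw [Set.ncard_eq_toFinset_card _ hSfin]
    have himg : (Finset.univ.image (fun i : Fin M => γ i.castSucc)) ⊆ C ∪ D := by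
      intro y hy
      rw [Finset.mem_image] at hy
      obtain ⟨i, -, rfl⟩ := hy
      rw [Finset.mem_union]
      by_cases hi : tile (L : ℤ) (γ i.castSucc) ∈ U
      · left
        exact Finset.mem_biUnion.2 ⟨_, hi, mem_tileBox L _⟩
      · right
        rw [Set.Finite.mem_toFinset]
        exact ⟨_, hedge i hi⟩
    have h1 := Finset.card_le_card himg
    rw [Finset.card_image_of_injective _ hγinj, Finset.card_univ, Fintype.card_fin] at h1
    have h2 := Finset.card_union_le C D
    omega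
  · -- second claim
    have hsub : ((Finset.univ.image γ).image (tile (L : ℤ))) ⊆
        U ∪ Finset.univ.biUnion (fun i : Fin r =>
          Finset.univ.image (fun j => cellc (L : ℤ) (w i j))) := by
      intro b hb
      rw [Finset.mem_image] at hb
      obtain ⟨y, hy, rfl⟩ := hb
      rw [Finset.mem_image] at hy
      obtain ⟨m, -, rfl⟩ := hy
      -- `γ m` is some `γ i.castSucc`
      obtain ⟨i, hi⟩ : ∃ i : Fin M, γ m = γ i.castSucc := by
        refine Fin.lastCases ?_ (fun i => ⟨i, rfl⟩) m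
        refine ⟨⟨0, by omega⟩, ?_⟩
        rw [hclose]
        congr 1
      rw [hi, Finset.mem_union]
      by_cases hU : tile (L : ℤ) (γ i.castSucc) ∈ U
      · exact Or.inl hU
      · right
        obtain ⟨x, hx, ⟨x', hx'⟩, -⟩ := Str_support hL0 (pathG w) hF _ ⟨_, hedge i hU⟩
        obtain ⟨i', j', rfl⟩ := pathG_support w hx'
        rw [Finset.mem_biUnion]
        exact ⟨i', Finset.mem_univ _, Finset.mem_image.2 ⟨j', Finset.mem_univ _, hx⟩⟩
    refine (Finset.card_le_card hsub).trans ((Finset.card_union_le _ _).trans ?_)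
    apply Nat.add_le_add_left
    refine Finset.card_biUnion_le.trans ?_
    apply Finset.sum_le_sum
    intro i _
    refine (image_card_le_changes (n i) (fun j => cellc (L : ℤ) (w i j))).trans ?_
    apply Nat.add_le_add_right
    unfold crossNum
    apply le_of_eq
    congr 1
  · -- third claim
    intro i j hij
    obtain ⟨x', hx'⟩ := pathG_nbr w h.wstep i (hn i) j
    have h1 := (Str_recover hL0 (pathG w) (w i j) x' (hF hx')).1 hx'
    have h2 : tile (L : ℤ) (stretch (L : ℤ) (w i j)) ∉ U := by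
      rw [tile_stretch hL0]; exact hij
    obtain ⟨m, hm⟩ := (hγ _ _ (Or.inl h2)).2 h1
    rw [Sym2.eq_iff] at hm
    rcases hm with ⟨hm, -⟩ | ⟨hm, -⟩
    · exact ⟨m.castSucc, by rw [← hm, tile_stretch hL0]⟩
    · exact ⟨m.succ, by rw [← hm, tile_stretch hL0]⟩

end Pool.Agent.Helper772.NC1
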