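import Mathlib
import Pool.Agent.Helper772.Defs
import Pool.Agent.Helper772.HDefs
import Pool.Agent.Helper772.NC1
import Pool.Agent.Helper772.Sa
import Pool.Agent.Helper772.W
set_option autoImplicit false
namespace Pool.Agent.Helper772.HN3

open Pool.Agent.Helper772.NC1 (chain_bounds1)
open Pool.Agent.Helper772.Sa (Str_recover lat_stretch stretch_injective tile_stretch)
open Pool.Agent.Helper772.W (adjPairs_le)

open Filter Topology

/-! Given results (proved elsewhere, use as black boxes). -/

/-! helper lemmas -/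

theorem j212_cell_card {L : ℕ} (hL : 2 ≤ L) (U A : Finset (Fin 3 → ℤ))
    (hA : ∀ x ∈ A, cellc (L : ℤ) x ∈ U) : A.card ≤ U.card * L ^ 3 := by
  classical
  have hL0 : (0 : ℤ) < L := by exact_mod_cast (by omega : 0 < L)
  have hfib : ∀ u ∈ U, (A.filter (fun x => cellc (L : ℤ) x = u)).card ≤ L ^ 3 := by
    intro u _
    have hsub : A.filter (fun x => cellc (L : ℤ) x = u) ⊆
        Fintype.piFinset (fun i => Finset.Ico (u i * L) (u i * L + L)) := by
      intro x hx
      rw [Finset.mem_filter] at hx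
      rw [Fintype.mem_piFinset]
      intro i
      rw [Finset.mem_Ico]
      have h1 : x i / (L : ℤ) = u i := congrFun hx.2 i
      have h2 := Int.mul_ediv_add_emod (x i) L
      have h3 := Int.emod_nonneg (x i) hL0.ne'
      have h4 := Int.emod_lt_of_pos (x i) hL0
      rw [h1] at h2
      rw [mul_comm (u i) (L : ℤ)]
      constructor <;> linarith
    refine (Finset.card_le_card hsub).trans ?_
    rw [Fintype.card_piFinset]
    simp
  have h := Finset.card_le_mul_card_image_of_maps_to (f := cellc (L : ℤ)) hA (L ^ 3) hfib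
  rwa [mul_comm] at h

theorem j212_height {L : ℕ} (hL : 2 ≤ L) {c : ℤ} (hc : 0 ≤ c) (hc' : c < L) (x : Fin 3 → ℤ) :
    stretch (L : ℤ) x 2 = c + 2 ↔ x 2 = c := by
  have hL0 : (0 : ℤ) < L := by exact_mod_cast (by omega : 0 < L)
  have h2 := Int.mul_ediv_add_emod (x 2) L
  have h3 := Int.emod_nonneg (x 2) hL0.ne'
  have h4 := Int.emod_lt_of_pos (x 2) hL0
  unfold stretch
  generalize hq : x 2 / (L : ℤ) = q at *
  generalize hs : x 2 % (L : ℤ) = s at *
  constructor
  · intro h
    have hq0 : q = 0 := by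
      rcases lt_trichotomy q 0 with h5 | h5 | h5
      · exfalso
        have : q * ((L : ℤ) + 4) ≤ (-1) * ((L : ℤ) + 4) :=
          mul_le_mul_of_nonneg_right (by omega) (by omega)
        linarith
      · exact h5
      · exfalso
        have : 1 * ((L : ℤ) + 4) ≤ q * ((L : ℤ) + 4) :=
          mul_le_mul_of_nonneg_right (by omega) (by omega)
        linarith
    subst hq0
    linarith
  · intro h
    have hq0 : q = 0 := by
      rw [← hq, h]
      exact Int.ediv_eq_zero_of_lt hc hc'
    subst hq0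
    linarith

/-- neighbours of a point of `ℤ^3` -/
theorem j212_nbr (x : Fin 3 → ℤ) (S : Finset (Fin 3 → ℤ))
    (hS : ∀ y ∈ S, ∑ i, |x i - y i| = 1) : S.card ≤ 6 := by
  classical
  have hsub : S ⊆ ({![x 0 + 1, x 1, x 2], ![x 0 - 1, x 1, x 2], ![x 0, x 1 + 1, x 2],
      ![x 0, x 1 - 1, x 2], ![x 0, x 1, x 2 + 1], ![x 0, x 1, x 2 - 1]} :
        Finset (Fin 3 → ℤ)) := by
    intro y hy
    have h := hS y hy
    rw [Fin.sum_univ_three] at h
    have hy3 : y = ![y 0, y 1, y 2] := by
      funext i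
      fin_cases i <;> rfl
    simp only [Finset.mem_insert, Finset.mem_singleton]
    have key : (y 0 = x 0 + 1 ∧ y 1 = x 1 ∧ y 2 = x 2) ∨ (y 0 = x 0 - 1 ∧ y 1 = x 1 ∧ y 2 = x 2) ∨
        (y 0 = x 0 ∧ y 1 = x 1 + 1 ∧ y 2 = x 2) ∨ (y 0 = x 0 ∧ y 1 = x 1 - 1 ∧ y 2 = x 2) ∨
        (y 0 = x 0 ∧ y 1 = x 1 ∧ y 2 = x 2 + 1) ∨ (y 0 = x 0 ∧ y 1 = x 1 ∧ y 2 = x 2 - 1) := by
      rcases abs_cases (x 0 - y 0) with h0 | h0 <;> rcases abs_cases (x 1 - y 1) with h1 | h1 <;>
        rcases abs_cases (x 2 - y 2) with h2 | h2 <;> omega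
    rw [hy3]
    rcases key with ⟨a, b, c⟩ | ⟨a, b, c⟩ | ⟨a, b, c⟩ | ⟨a, b, c⟩ | ⟨a, b, c⟩ | ⟨a, b, c⟩ <;>
      rw [a, b, c] <;> simp
  exact (Finset.card_le_card hsub).trans Finset.card_le_six

/-- stretched points in different cells are not adjacent -/
theorem j212_sameCell {L : ℕ} (hL : 2 ≤ L) (x x' : Fin 3 → ℤ)
    (h : ∑ i, |stretch (L : ℤ) x i - stretch (L : ℤ) x' i| = 1) :
    cellc (L : ℤ) x = cellc (L : ℤ) x' ∧ ∑ i, |x i - x' i| = 1 := by
  have hL0 : (0 : ℤ) < L := by exact_mod_cast (by omega : 0 < L)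
  have hle : ∀ i, |stretch (L : ℤ) x i - stretch (L : ℤ) x' i| ≤ 1 := by
    intro i
    rw [← h]
    exact Finset.single_le_sum (f := fun i => |stretch (L : ℤ) x i - stretch (L : ℤ) x' i|)
      (fun j _ => abs_nonneg _) (Finset.mem_univ i)
  have hcell : ∀ i, x i / (L : ℤ) = x' i / (L : ℤ) := by
    intro i
    have h5 := hle i
    rw [abs_le] at h5
    unfold stretch at h5
    have h1 := Int.emod_nonneg (x i) hL0.ne'
    have h2 := Int.emod_lt_of_pos (x i) hL0
    have h3 := Int.emod_nonneg (x' i) hL0.ne'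
    have h4 := Int.emod_lt_of_pos (x' i) hL0
    generalize x i / (L : ℤ) = q at *
    generalize x i % (L : ℤ) = s at *
    generalize x' i / (L : ℤ) = q' at *
    generalize x' i % (L : ℤ) = s' at *
    rcases lt_trichotomy q q' with h6 | h6 | h6
    · exfalso
      have : 1 * ((L : ℤ) + 4) ≤ (q' - q) * ((L : ℤ) + 4) :=
        mul_le_mul_of_nonneg_right (by omega) (by omega)
      nlinarith [h5.1, h5.2]
    · exact h6
    · exfalso
      have : 1 * ((L : ℤ) + 4) ≤ (q - q') * ((L : ℤ) + 4) :=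
        mul_le_mul_of_nonneg_right (by omega) (by omega)
      nlinarith [h5.1, h5.2]
  refine ⟨funext hcell, ?_⟩
  rw [← h]
  refine Finset.sum_congr rfl fun i _ => ?_
  congr 1
  have h1 := Int.mul_ediv_add_emod (x i) L
  have h2 := Int.mul_ediv_add_emod (x' i) L
  unfold stretch
  rw [← hcell i] at h2 ⊢
  linarith

/-! Targets. -/

/-- two-sided comparison of wall visits and contacts -/
theorem chain_bounds3 {r : ℕ} [NeZero r] {L : ℕ} (hL : 2 ≤ L) {c : ℤ} (hc : 0 ≤ c) (hc' : c < L)
    {n k : Fin r → ℕ}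
    (w : ∀ i, Fin (n i + 1) → Fin 3 → ℤ) (t : ∀ i, Fin (k i + 1) → Fin 3 → ℤ)
    (U : Finset (Fin 3 → ℤ)) (h : ChainData (L : ℤ) w t (U : Set (Fin 3 → ℤ)))
    (hn : ∀ i, 1 ≤ n i)
    (M : ℕ) (hM : 3 ≤ M) (γ : Fin (M + 1) → Fin 3 → ℤ) (hclose : γ (Fin.last M) = γ 0)
    (hγinj : Function.Injective (fun i : Fin M => γ i.castSucc))
    (hγ : ∀ u v, (tile (L : ℤ) u ∉ U ∨ tile (L : ℤ) v ∉ U) →
      ((∃ i : Fin M, s(u, v) = s(γ i.castSucc, γ i.succ)) ↔ (Str (L : ℤ) (pathG w)).Adj u v))
    (D : ℕ) (hD : D = 4 * ∑ i, crossNum (L : ℤ) (w i) + U.card * (L + 4) ^ 3 +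
      r * (U.card * L ^ 3)) :
    wallc (c + 2) (Finset.univ.image γ) ≤ ∑ i, wallc c (Finset.univ.image (w i)) + D ∧
    ∑ i, wallc c (Finset.univ.image (w i)) ≤ wallc (c + 2) (Finset.univ.image γ) + D ∧
    adjPairs (Finset.univ.image γ) ≤ ∑ i, adjPairs (Finset.univ.image (w i)) + 12 * D := by
  classical
  have hL0 : (0 : ℤ) < L := by exact_mod_cast (by omega : 0 < L)
  set S : Finset (Fin 3 → ℤ) := Finset.univ.image γ with hSdef
  -- all positions
  let A : Finset (Σ i : Fin r, Fin (n i + 1)) := Finset.univ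
  let P : Finset (Σ i : Fin r, Fin (n i + 1)) :=
    Finset.univ.filter (fun p => cellc (L : ℤ) (w p.1 p.2) ∉ U)
  let Q : Finset (Σ i : Fin r, Fin (n i + 1)) :=
    Finset.univ.filter (fun p => cellc (L : ℤ) (w p.1 p.2) ∈ U)
  let φ : (Σ i : Fin r, Fin (n i + 1)) → (Fin 3 → ℤ) := fun p => stretch (L : ℤ) (w p.1 p.2)
  let G : Finset (Fin 3 → ℤ) := P.image φ
  have hAcard : A.card = ∑ i, (n i + 1) := by
    rw [Finset.card_univ, Fintype.card_sigma]
    exact Finset.sum_congr rfl fun i _ => Fintype.card_fin _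
  have hPQ : Q.card + P.card = ∑ i, (n i + 1) := by
    rw [← hAcard]
    exact Finset.card_filter_add_card_filter_not (s := A)
      (fun p : (Σ i : Fin r, Fin (n i + 1)) => cellc (L : ℤ) (w p.1 p.2) ∈ U)
  have hQ : Q.card ≤ r * (U.card * L ^ 3) := by
    have h1 : ∀ i ∈ (Finset.univ : Finset (Fin r)), (Q.filter (fun p => p.1 = i)).card ≤
        U.card * L ^ 3 := by
      intro i _
      have h2 : (Q.filter (fun p => p.1 = i)).card =
          ((Q.filter (fun p => p.1 = i)).image (fun p => w p.1 p.2)).card := by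
        symm
        apply Finset.card_image_of_injOn
        rintro ⟨a, b⟩ ha ⟨a', b'⟩ ha' hab
        simp only [Finset.coe_filter, Set.mem_ofPred_eq] at ha ha'
        obtain ⟨_, ha⟩ := ha
        obtain ⟨_, ha'⟩ := ha'
        subst ha
        subst ha'
        have hbb : b = b' := h.winj _ hab
        rw [hbb]
      rw [h2]
      apply j212_cell_card hL
      intro x hx
      rw [Finset.mem_image] at hx
      obtain ⟨p, hp, rfl⟩ := hx
      rw [Finset.mem_filter] at hp
      exact (Finset.mem_filter.1 hp.1).2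
    have h3 := Finset.card_le_mul_card_image_of_maps_to (s := Q) (t := Finset.univ)
      (f := fun p : (Σ i : Fin r, Fin (n i + 1)) => p.1) (fun p _ => Finset.mem_univ _)
      (U.card * L ^ 3) h1
    rw [Finset.card_univ, Fintype.card_fin] at h3
    rwa [mul_comm] at h3
  have hφinj : Set.InjOn φ (P : Set (Σ i : Fin r, Fin (n i + 1))) := by
    rintro ⟨a, b⟩ ha ⟨a', b'⟩ ha' hab
    have hab' : w a b = w a' b' := stretch_injective hL0 hab
    have ha2 : cellc (L : ℤ) (w a b) ∉ U := (Finset.mem_filter.1 (Finset.mem_coe.1 ha)).2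
    by_cases hne : a = a'
    · subst hne
      have := h.winj _ hab'
      rw [this]
    · exfalso
      exact ha2 (Finset.mem_coe.1 (h.coll a a' b b' hne (by rw [hab'])))
  have hGcard : G.card = P.card := Finset.card_image_of_injOn hφinj
  have hGS : G ⊆ S := by
    intro y hy
    obtain ⟨⟨i, j⟩, hp, rfl⟩ := Finset.mem_image.1 hy
    have hU : cellc (L : ℤ) (w i j) ∉ U := (Finset.mem_filter.1 hp).2
    -- a neighbour along the walk
    have hnb : ∃ x', (Lat 3).Adj (w i j) x' ∧ (pathG w).Adj (w i j) x' := by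
      have hni := hn i
      by_cases hj : (j : ℕ) < n i
      · let j0 : Fin (n i) := ⟨j, hj⟩
        have e1 : j0.castSucc = j := Fin.ext rfl
        have hadj := h.wstep i j0
        rw [e1] at hadj
        exact ⟨w i j0.succ, hadj, hadj.ne, i, j0, by rw [e1]⟩
      · have hj' : (j : ℕ) = n i := by have := j.2; omega
        let j0 : Fin (n i) := ⟨n i - 1, by omega⟩
        have e1 : j0.succ = j := Fin.ext (by simp [j0, hj']; omega)
        have hadj := h.wstep i j0
        rw [e1] at hadj
        exact ⟨w i j0.castSucc, hadj.symm, hadj.symm.ne, i, j0, by rw [e1, Sym2.eq_swap]⟩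
    obtain ⟨x', hx1, hx2⟩ := hnb
    have h1 := (Str_recover hL0 (pathG w) (w i j) x' hx1).1 hx2
    have h2 : tile (L : ℤ) (stretch (L : ℤ) (w i j)) ∉ U := by
      rw [tile_stretch hL0]; exact hU
    obtain ⟨m, hm⟩ := (hγ _ _ (Or.inl h2)).2 h1
    rw [Sym2.eq_iff] at hm
    rcases hm with hm | hm
    · exact Finset.mem_image.2 ⟨m.castSucc, Finset.mem_univ _, hm.1.symm⟩
    · exact Finset.mem_image.2 ⟨m.succ, Finset.mem_univ _, hm.1.symm⟩
  have hScard : S.card ≤ M := by
    have h1 : S ⊆ Finset.univ.image (fun i : Fin M => γ i.castSucc) := by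
      intro y hy
      obtain ⟨m, _, rfl⟩ := Finset.mem_image.1 hy
      rw [Finset.mem_image]
      rcases Fin.eq_castSucc_or_eq_last m with ⟨m', rfl⟩ | rfl
      · exact ⟨m', Finset.mem_univ _, rfl⟩
      · refine ⟨⟨0, by omega⟩, Finset.mem_univ _, ?_⟩
        rw [hclose]
        rfl
    refine (Finset.card_le_card h1).trans ?_
    refine Finset.card_image_le.trans ?_
    rw [Finset.card_univ, Fintype.card_fin]
  have hM1 := (chain_bounds1 hL w t U h hn M hM γ hclose hγinj hγ).1
  have hbad : (S \ G).card ≤ D := by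
    rw [Finset.card_sdiff_of_subset hGS, hGcard]
    omega
  have hQD : Q.card ≤ D := by
    have := Nat.zero_le (4 * ∑ i, crossNum (L : ℤ) (w i))
    omega
  have hwallw : ∀ i, wallc c (Finset.univ.image (w i)) =
      ((Finset.univ : Finset (Fin (n i + 1))).filter (fun j => w i j 2 = c)).card := by
    intro i
    unfold wallc
    rw [Finset.filter_image]
    exact Finset.card_image_of_injective _ (h.winj i)
  have hsumw : ∑ i, wallc c (Finset.univ.image (w i)) =
      (A.filter (fun p => w p.1 p.2 2 = c)).card := by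
    have h1 : A.filter (fun p => w p.1 p.2 2 = c) = Finset.univ.sigma (fun i =>
        (Finset.univ : Finset (Fin (n i + 1))).filter (fun j => w i j 2 = c)) := by
      ext ⟨i, j⟩
      simp [A]
    rw [h1, Finset.card_sigma]
    exact Finset.sum_congr rfl fun i _ => hwallw i
  have hwG : wallc (c + 2) G = (P.filter (fun p => w p.1 p.2 2 = c)).card := by
    unfold wallc
    have h1 : G.filter (fun x => x 2 = c + 2) =
        (P.filter (fun p => w p.1 p.2 2 = c)).image φ := by
      ext y
      simp only [Finset.mem_filter, Finset.mem_image, G]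
      constructor
      · rintro ⟨⟨p, hp, rfl⟩, hy⟩
        exact ⟨p, ⟨hp, (j212_height hL hc hc' _).1 hy⟩, rfl⟩
      · rintro ⟨p, ⟨hp, hy⟩, rfl⟩
        exact ⟨⟨p, hp, rfl⟩, (j212_height hL hc hc' _).2 hy⟩
    rw [h1]
    exact Finset.card_image_of_injOn (hφinj.mono (by
      intro p hp
      exact Finset.mem_coe.2 (Finset.mem_filter.1 (Finset.mem_coe.1 hp)).1))
  refine ⟨?_, ?_, ?_⟩
  · have h1 : wallc (c + 2) S ≤ wallc (c + 2) G + (S \ G).card := by
      unfold wallc
      have h2 : S.filter (fun x => x 2 = c + 2) ⊆ G.filter (fun x => x 2 = c + 2) ∪ (S \ G) := by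
        intro x hx
        rw [Finset.mem_filter] at hx
        rw [Finset.mem_union, Finset.mem_filter, Finset.mem_sdiff]
        by_cases hG : x ∈ G
        · exact Or.inl ⟨hG, hx.2⟩
        · exact Or.inr ⟨hx.1, hG⟩
      exact (Finset.card_le_card h2).trans (Finset.card_union_le _ _)
    have h3 : (P.filter (fun p => w p.1 p.2 2 = c)).card ≤
        (A.filter (fun p => w p.1 p.2 2 = c)).card :=
      Finset.card_le_card (Finset.filter_subset_filter _ (Finset.subset_univ _))
    omega
  · have h1 : (A.filter (fun p => w p.1 p.2 2 = c)).card ≤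
        (P.filter (fun p => w p.1 p.2 2 = c)).card + Q.card := by
      have h2 : A.filter (fun p => w p.1 p.2 2 = c) ⊆
          P.filter (fun p => w p.1 p.2 2 = c) ∪ Q := by
        intro p hp
        rw [Finset.mem_filter] at hp
        rw [Finset.mem_union, Finset.mem_filter, Finset.mem_filter, Finset.mem_filter]
        by_cases hG : cellc (L : ℤ) (w p.1 p.2) ∈ U
        · exact Or.inr ⟨Finset.mem_univ _, hG⟩
        · exact Or.inl ⟨⟨Finset.mem_univ _, hG⟩, hp.2⟩
      exact (Finset.card_le_card h2).trans (Finset.card_union_le _ _)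
    have h3 : wallc (c + 2) G ≤ wallc (c + 2) S :=
      Finset.card_le_card (Finset.filter_subset_filter _ hGS)
    omega
  · -- contacts
    let R : (Fin 3 → ℤ) × (Fin 3 → ℤ) → Prop := fun p => ∑ i, |p.1 i - p.2 i| = 1
    let B : Finset (Fin 3 → ℤ) := S \ G
    let T1 : Finset ((Fin 3 → ℤ) × (Fin 3 → ℤ)) :=
      (B ×ˢ S).filter (fun p => ∑ i, |p.1 i - p.2 i| = 1)
    let T2 : Finset ((Fin 3 → ℤ) × (Fin 3 → ℤ)) :=
      (S ×ˢ B).filter (fun p => ∑ i, |p.1 i - p.2 i| = 1)
    have hT1 : T1.card ≤ 6 * B.card := by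
      apply Finset.card_le_mul_card_image_of_maps_to (f := fun p => p.1)
      · intro p hp
        exact (Finset.mem_product.1 (Finset.mem_filter.1 hp).1).1
      · intro x _
        have h1 : (T1.filter (fun p => p.1 = x)).card =
            ((T1.filter (fun p => p.1 = x)).image (fun p => p.2)).card := by
          symm
          apply Finset.card_image_of_injOn
          intro p hp q hq hpq
          have hp' := (Finset.mem_filter.1 (Finset.mem_coe.1 hp)).2
          have hq' := (Finset.mem_filter.1 (Finset.mem_coe.1 hq)).2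
          exact Prod.ext (hp'.trans hq'.symm) hpq
        rw [h1]
        apply j212_nbr x
        intro y hy
        obtain ⟨p, hp, rfl⟩ := Finset.mem_image.1 hy
        rw [Finset.mem_filter] at hp
        have h2 := (Finset.mem_filter.1 hp.1).2
        rw [hp.2] at h2
        exact h2
    have hT2 : T2.card ≤ 6 * B.card := by
      apply Finset.card_le_mul_card_image_of_maps_to (f := fun p => p.2)
      · intro p hp
        exact (Finset.mem_product.1 (Finset.mem_filter.1 hp).1).2
      · intro x _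
        have h1 : (T2.filter (fun p => p.2 = x)).card =
            ((T2.filter (fun p => p.2 = x)).image (fun p => p.1)).card := by
          symm
          apply Finset.card_image_of_injOn
          intro p hp q hq hpq
          have hp' := (Finset.mem_filter.1 (Finset.mem_coe.1 hp)).2
          have hq' := (Finset.mem_filter.1 (Finset.mem_coe.1 hq)).2
          exact Prod.ext hpq (hp'.trans hq'.symm)
        rw [h1]
        apply j212_nbr x
        intro y hy
        obtain ⟨p, hp, rfl⟩ := Finset.mem_image.1 hy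
        rw [Finset.mem_filter] at hp
        have h2 := (Finset.mem_filter.1 hp.1).2
        rw [hp.2] at h2
        simp only [abs_sub_comm (x _)]
        exact h2
    let T0 : Finset ((Fin 3 → ℤ) × (Fin 3 → ℤ)) :=
      (G ×ˢ G).filter (fun p => ∑ i, |p.1 i - p.2 i| = 1)
    have hT0 : T0.card ≤ ∑ i, adjPairs (Finset.univ.image (w i)) := by
      have h1 : T0 ⊆ (Finset.univ : Finset (Fin r)).biUnion (fun i =>
          ((((Finset.univ.image (w i)) ×ˢ (Finset.univ.image (w i))).filter
            (fun p => ∑ i, |p.1 i - p.2 i| = 1)).image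
              (fun p => (stretch (L : ℤ) p.1, stretch (L : ℤ) p.2)))) := by
        rintro ⟨y, y'⟩ hp
        rw [Finset.mem_filter, Finset.mem_product] at hp
        obtain ⟨⟨hy, hy'⟩, hadj⟩ := hp
        obtain ⟨⟨i, j⟩, hp1, hp2⟩ := Finset.mem_image.1 hy
        obtain ⟨⟨i', j'⟩, hp1', hp2'⟩ := Finset.mem_image.1 hy'
        dsimp only [φ] at hp2 hp2'
        dsimp only at hadj
        subst hp2
        subst hp2'
        obtain ⟨hc1, hc2⟩ := j212_sameCell hL _ _ hadj
        have hU : cellc (L : ℤ) (w i j) ∉ U := (Finset.mem_filter.1 hp1).2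
        have hii : i = i' := by
          by_contra hne
          exact hU (Finset.mem_coe.1 (h.coll i i' j j' hne hc1))
        subst hii
        rw [Finset.mem_biUnion]
        refine ⟨i, Finset.mem_univ _, Finset.mem_image.2 ⟨(w i j, w i j'), ?_, rfl⟩⟩
        rw [Finset.mem_filter, Finset.mem_product]
        exact ⟨⟨Finset.mem_image.2 ⟨j, Finset.mem_univ _, rfl⟩,
          Finset.mem_image.2 ⟨j', Finset.mem_univ _, rfl⟩⟩, hc2⟩
      refine (Finset.card_le_card h1).trans (Finset.card_biUnion_le.trans ?_)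
      exact Finset.sum_le_sum fun i _ => Finset.card_image_le
    have hsub : (S ×ˢ S).filter (fun p => ∑ i, |p.1 i - p.2 i| = 1) ⊆ (T0 ∪ T1) ∪ T2 := by
      rintro ⟨y, y'⟩ hp
      rw [Finset.mem_filter, Finset.mem_product] at hp
      obtain ⟨⟨hy, hy'⟩, hadj⟩ := hp
      dsimp only at hy hy'
      simp only [Finset.mem_union, T0, T1, T2, B, Finset.mem_filter, Finset.mem_product,
        Finset.mem_sdiff]
      by_cases h1 : y ∈ G
      · by_cases h2 : y' ∈ G
        · exact Or.inl (Or.inl ⟨⟨h1, h2⟩, hadj⟩)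
        · exact Or.inr ⟨⟨hy, hy', h2⟩, hadj⟩
      · exact Or.inl (Or.inr ⟨⟨⟨hy, h1⟩, hy'⟩, hadj⟩)
    have hfin : adjPairs S ≤ T0.card + T1.card + T2.card := by
      unfold adjPairs
      refine (Finset.card_le_card hsub).trans ((Finset.card_union_le _ _).trans ?_)
      exact Nat.add_le_add_right (Finset.card_union_le _ _) _
    have hB : B.card ≤ D := hbad
    omega

end Pool.Agent.Helper772.HN3
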