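import Mathlib
import Pool.Agent.Helper772.Defs
set_option autoImplicit false
namespace Pool.Agent.Helper772.NA


/-- subsets of a set with at most `K` elements can be encoded by subsets of `Fin K` -/
theorem exists_enc (α : Type) [DecidableEq α] (K : ℕ) :
    ∃ enc : Finset α → Finset α → Finset (Fin K),
      ∀ T A B : Finset α, T.card ≤ K → A ⊆ T → B ⊆ T → enc T A = enc T B → A = B := by
  classical
  have h1 : ∀ T : Finset α, ∃ e : Finset α → Finset (Fin K), T.card ≤ K →
      ∀ A B : Finset α, A ⊆ T → B ⊆ T → e A = e B → A = B := by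
    intro T
    by_cases hT : T.card ≤ K
    · let e : Finset α → Finset (Fin K) := fun A =>
        Finset.univ.filter (fun i : Fin K => ∃ x : T, (x : α) ∈ A ∧ Fin.castLE hT (T.equivFin x) = i)
      refine ⟨e, fun _ A B hA hB hAB => ?_⟩
      have key : ∀ C D : Finset α, C ⊆ T → e C = e D → C ⊆ D := by
        intro C D hC hCD x hx
        have hmem : Fin.castLE hT (T.equivFin ⟨x, hC hx⟩) ∈ e C := by
          simp only [e, Finset.mem_filter, Finset.mem_univ, true_and]
          exact ⟨⟨x, hC hx⟩, hx, rfl⟩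
        rw [hCD] at hmem
        simp only [e, Finset.mem_filter, Finset.mem_univ, true_and] at hmem
        obtain ⟨y, hy, hyx⟩ := hmem
        have h2 := (Fin.castLE_injective hT) hyx
        have h3 := T.equivFin.injective h2
        rw [h3] at hy
        exact hy
      exact Finset.Subset.antisymm (key A B hA hAB) (key B A hB hAB.symm)
    · exact ⟨fun _ => ∅, fun h => absurd h hT⟩
  choose e he using h1
  exact ⟨e, fun T A B hT hA hB h => he T hT A B hA hB h⟩

/-- abstract counting: every `x ∈ X` is sent to an element `y ∈ Y` with comparable weight, and `x`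
is determined by `y` together with an element of a finite type `β`. -/
theorem sum_le_of_code {α β γ : Type} [Fintype β] (X : Finset α) (Y : Finset γ) (f : α → ℝ)
    (g : γ → ℝ) (c : ℝ) (hg : ∀ y ∈ Y, 0 ≤ g y) (hc : 0 ≤ c)
    (Rel : α → γ → β → Prop)
    (hex : ∀ x ∈ X, ∃ y ∈ Y, ∃ b, Rel x y b ∧ f x ≤ c * g y)
    (hinj : ∀ x ∈ X, ∀ x' ∈ X, ∀ y b, Rel x y b → Rel x' y b → x = x') :
    ∑ x ∈ X, f x ≤ c * (Fintype.card β) * ∑ y ∈ Y, g y := by
  classical
  have h1 : ∀ x : X, ∃ p : γ × β, p.1 ∈ Y ∧ Rel x p.1 p.2 ∧ f x ≤ c * g p.1 := by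
    intro x
    obtain ⟨y, hy, b, hb, hf⟩ := hex x.1 x.2
    exact ⟨(y, b), hy, hb, hf⟩
  choose F hF1 hF2 hF3 using h1
  have hFinj : Function.Injective F := by
    intro x x' h
    apply Subtype.ext
    apply hinj x.1 x.2 x'.1 x'.2 (F x).1 (F x).2 (hF2 x)
    rw [h]
    exact hF2 x'
  have h2 : ∑ x ∈ X, f x = ∑ x : X, f x := (Finset.sum_coe_sort X f).symm
  rw [h2]
  have h3 : ∑ x : X, f x ≤ ∑ x : X, c * g (F x).1 := Finset.sum_le_sum fun x _ => hF3 x
  have h4 : ∑ x : X, c * g (F x).1 = ∑ p ∈ Finset.univ.image F, c * g p.1 := by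
    rw [Finset.sum_image]
    intro a _ b _ h
    exact hFinj h
  have h5 : ∑ p ∈ Finset.univ.image F, c * g p.1 ≤ ∑ p ∈ Y ×ˢ (Finset.univ : Finset β), c * g p.1 := by
    apply Finset.sum_le_sum_of_subset_of_nonneg
    · intro p hp
      rw [Finset.mem_image] at hp
      obtain ⟨x, _, rfl⟩ := hp
      exact Finset.mem_product.2 ⟨hF1 x, Finset.mem_univ _⟩
    · intro p hp _
      exact mul_nonneg hc (hg _ (Finset.mem_product.1 hp).1)
  have h6 : ∑ p ∈ Y ×ˢ (Finset.univ : Finset β), c * g p.1 = c * (Fintype.card β) * ∑ y ∈ Y, g y := by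
    rw [Finset.sum_product]
    simp only [Finset.sum_const, Finset.card_univ, nsmul_eq_mul]
    rw [Finset.mul_sum]
    apply Finset.sum_congr rfl
    intro y _
    ring
  calc ∑ x : X, f x ≤ _ := h3
    _ = _ := h4
    _ ≤ _ := h5
    _ = _ := h6

/-- a lattice path between two points, of length the `ℓ¹` distance -/
theorem exists_connector (d : ℕ) (A B : Fin d → ℤ) :
    ∃ (k : ℕ) (t : Fin (k + 1) → Fin d → ℤ), (k : ℤ) = ∑ i, |A i - B i| ∧
      t 0 = A ∧ t (Fin.last k) = B ∧
      (∀ j : Fin k, ∑ i, |t j.castSucc i - t j.succ i| = 1) ∧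
      (∀ j i, min (A i) (B i) ≤ t j i ∧ t j i ≤ max (A i) (B i)) := by
  suffices H : ∀ (k : ℕ) (A : Fin d → ℤ), (k : ℤ) = ∑ i, |A i - B i| →
      ∃ (t : Fin (k + 1) → Fin d → ℤ),
      t 0 = A ∧ t (Fin.last k) = B ∧
      (∀ j : Fin k, ∑ i, |t j.castSucc i - t j.succ i| = 1) ∧
      (∀ j i, min (A i) (B i) ≤ t j i ∧ t j i ≤ max (A i) (B i)) by
    have hn : 0 ≤ ∑ i, |A i - B i| := Finset.sum_nonneg fun i _ => abs_nonneg _
    obtain ⟨k, hk⟩ := Int.eq_ofNat_of_zero_le hn
    obtain ⟨t, ht⟩ := H k A hk.symm
    exact ⟨k, t, hk.symm, ht⟩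
  intro k
  induction k with
  | zero =>
    intro A hA
    have h0 : ∀ i ∈ Finset.univ, |A i - B i| = 0 := by
      rw [← Finset.sum_eq_zero_iff_of_nonneg (fun i _ => abs_nonneg _)]
      exact_mod_cast hA.symm
    have hAB : A = B := by
      funext i
      have := h0 i (Finset.mem_univ i)
      rw [abs_eq_zero] at this
      omega
    refine ⟨fun _ => A, rfl, hAB, fun j => j.elim0, fun j i => ⟨min_le_left _ _, le_max_left _ _⟩⟩
  | succ k ih =>
    intro A hA
    have hne : ∃ i, A i ≠ B i := by
      by_contra hcon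
      push Not at hcon
      have : ∑ i, |A i - B i| = 0 := by
        apply Finset.sum_eq_zero
        intro i _
        rw [hcon i]
        simp
      rw [this] at hA
      push_cast at hA
      omega
    obtain ⟨i0, hi0⟩ := hne
    let a : ℤ := if A i0 < B i0 then A i0 + 1 else A i0 - 1
    have ha : |a - B i0| = |A i0 - B i0| - 1 := by
      simp only [a]
      split_ifs with h
      · rw [abs_of_nonpos (by omega), abs_of_nonpos (by omega)]; omega
      · rw [abs_of_nonneg (by omega), abs_of_nonneg (by omega)]; omega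
    have ha1 : |A i0 - a| = 1 := by
      simp only [a]
      split_ifs with h
      · rw [abs_of_nonpos (by omega)]; omega
      · rw [abs_of_nonneg (by omega)]; omega
    have ha2 : min (A i0) (B i0) ≤ a ∧ a ≤ max (A i0) (B i0) := by
      simp only [a]
      split_ifs with h <;> omega
    let A' : Fin d → ℤ := Function.update A i0 a
    have hA' : (k : ℤ) = ∑ i, |A' i - B i| := by
      have h1 : ∑ i, |A' i - B i| = ∑ i, |A i - B i| - 1 := by
        rw [← Finset.add_sum_erase _ _ (Finset.mem_univ i0),
          ← Finset.add_sum_erase (a := i0) (f := fun i => |A i - B i|) _ (Finset.mem_univ i0)]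
        have h2 : ∑ x ∈ Finset.univ.erase i0, |A' x - B x| = ∑ x ∈ Finset.univ.erase i0, |A x - B x| := by
          apply Finset.sum_congr rfl
          intro x hx
          simp only [A', Function.update_of_ne (Finset.ne_of_mem_erase hx)]
        rw [h2]
        simp only [A', Function.update_self]
        rw [ha]
        ring
      rw [h1, ← hA]
      push_cast
      ring
    obtain ⟨t, ht0, ht1, ht2, ht3⟩ := ih A' hA'
    refine ⟨Fin.cons A t, rfl, ?_, ?_, ?_⟩
    · rw [← Fin.succ_last, Fin.cons_succ]
      exact ht1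
    · intro j
      refine Fin.cases ?_ (fun j => ?_) j
      · rw [Fin.castSucc_zero, Fin.cons_zero, Fin.cons_succ, ht0]
        rw [← Finset.add_sum_erase _ _ (Finset.mem_univ i0)]
        have h2 : ∑ x ∈ Finset.univ.erase i0, |A x - A' x| = 0 := by
          apply Finset.sum_eq_zero
          intro x hx
          simp only [A', Function.update_of_ne (Finset.ne_of_mem_erase hx)]
          simp
        rw [h2]
        simp only [A', Function.update_self]
        omega
      · rw [← Fin.succ_castSucc, Fin.cons_succ, Fin.cons_succ]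
        exact ht2 j
    · intro j i
      refine Fin.cases ?_ (fun j => ?_) j
      · rw [Fin.cons_zero]
        exact ⟨min_le_left _ _, le_max_left _ _⟩
      · rw [Fin.cons_succ]
        have h3 := ht3 j i
        by_cases hi : i = i0
        · subst hi
          simp only [A', Function.update_self] at h3
          omega
        · simp only [A', Function.update_of_ne hi] at h3
          exact h3

end Pool.Agent.Helper772.NA
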