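import Mathlib
import Pool.Agent.Helper772.Defs
set_option autoImplicit false
namespace Pool.Agent.Helper772.T1


theorem gen_count {κ α : Type*} [Fintype κ] [DecidableEq κ] [Fintype α] [DecidableEq α]
    (F : Finset (κ → α)) (k0 : κ)
    (h : ∀ f ∈ F, ∀ g ∈ F, (∀ k, k ≠ k0 → f k = g k) → f = g) :
    Fintype.card α * F.card ≤ Fintype.card (κ → α) := by
  have h1 : Fintype.card α * F.card = ((Finset.univ : Finset α) ×ˢ F).card := by
    rw [Finset.card_product, Finset.card_univ]
  rw [h1, ← Finset.card_univ (α := κ → α)]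
  apply Finset.card_le_card_of_injOn (fun p => Function.update p.2 k0 p.1)
  · intro p _; simp
  · intro p hp q hq hpq
    simp only [Finset.coe_product, Set.mem_prod, Finset.mem_coe] at hp hq
    have hpq' : Function.update p.2 k0 p.1 = Function.update q.2 k0 q.1 := hpq
    have e1 : p.1 = q.1 := by
      have := congrFun hpq' k0
      simpa using this
    have e2 : p.2 = q.2 := by
      apply h _ hp.2 _ hq.2
      intro k hk
      have := congrFun hpq' k
      simpa [Function.update_of_ne hk] using this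
    exact Prod.ext e1 e2

theorem adj_unique (d : ℕ) (x y : Fin d → ℤ) (h : ∑ k, |x k - y k| = 1) :
    ∃ k0, |x k0 - y k0| = 1 ∧ ∀ k, k ≠ k0 → x k = y k := by
  have hne : ∃ k0, x k0 ≠ y k0 := by
    by_contra hcon
    push Not at hcon
    have : ∑ k, |x k - y k| = 0 := by
      apply Finset.sum_eq_zero
      intro k _
      rw [hcon k]; simp
    omega
  obtain ⟨k0, hk0⟩ := hne
  have hpos : 1 ≤ |x k0 - y k0| := Int.one_le_abs (sub_ne_zero.mpr hk0)
  have hsplit : |x k0 - y k0| + ∑ k ∈ Finset.univ.erase k0, |x k - y k| = 1 := by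
    rw [Finset.add_sum_erase _ (fun k => |x k - y k|) (Finset.mem_univ k0)]; exact h
  have hnn : 0 ≤ ∑ k ∈ Finset.univ.erase k0, |x k - y k| :=
    Finset.sum_nonneg (fun k _ => abs_nonneg _)
  refine ⟨k0, by omega, ?_⟩
  intro k hk
  have hz : ∑ k ∈ Finset.univ.erase k0, |x k - y k| = 0 := by omega
  rw [Finset.sum_eq_zero_iff_of_nonneg (fun k _ => abs_nonneg _)] at hz
  have := hz k (Finset.mem_erase.mpr ⟨hk, Finset.mem_univ k⟩)
  have := abs_eq_zero.mp this
  omega

theorem floor_step (L : ℤ) (hL : 1 ≤ L) (u : ℤ) (h : u / L ≠ (u + 1) / L) : L ∣ (u + 1) := by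
  by_contra hd
  apply h
  have hm : 0 < (u + 1) % L := by
    have h1 := Int.emod_nonneg (u + 1) (by omega : L ≠ 0)
    have h2 : (u + 1) % L ≠ 0 := fun e => hd (Int.dvd_of_emod_eq_zero e)
    omega
  have hlt := Int.emod_lt_of_pos (u + 1) (by omega : 0 < L)
  have hdm := Int.emod_add_mul_ediv (u + 1) L
  -- u = L * ((u+1)/L) + ((u+1)%L - 1)
  have : u / L = (u + 1) / L := by
    rw [Int.ediv_eq_iff_of_pos (by omega)]
    constructor <;> nlinarith
  exact this

theorem cut_count (d L : ℕ) (hL : 1 ≤ L) (x y : Fin d → ℤ) (h : ∑ k, |x k - y k| = 1) :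
    L * (Finset.univ.filter (fun c : Fin d → Fin L =>
        (fun k => (x k + ((c k : ℕ) : ℤ)) / (L : ℤ)) ≠ (fun k => (y k + ((c k : ℕ) : ℤ)) / (L : ℤ)))).card
      ≤ Fintype.card (Fin d → Fin L) := by
  obtain ⟨k0, hk0, hk⟩ := adj_unique d x y h
  have key := gen_count (Finset.univ.filter (fun c : Fin d → Fin L =>
        (fun k => (x k + ((c k : ℕ) : ℤ)) / (L : ℤ)) ≠ (fun k => (y k + ((c k : ℕ) : ℤ)) / (L : ℤ)))) k0 ?_
  · simpa [Fintype.card_fin] using key
  · intro f hf g hg hfg
    simp only [Finset.mem_filter, Finset.mem_univ, true_and] at hf hg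
    have aux : ∀ c : Fin d → Fin L,
        (fun k => (x k + ((c k : ℕ) : ℤ)) / (L : ℤ)) ≠ (fun k => (y k + ((c k : ℕ) : ℤ)) / (L : ℤ)) →
        (x k0 + ((c k0 : ℕ) : ℤ)) / (L : ℤ) ≠ (y k0 + ((c k0 : ℕ) : ℤ)) / (L : ℤ) := by
      intro c hc e
      apply hc
      funext k
      by_cases hkk : k = k0
      · subst hkk; exact e
      · show (x k + _) / _ = (y k + _) / _
        rw [hk k hkk]
    have hf' := aux f hf
    have hg' := aux g hg
    have hLz : (1 : ℤ) ≤ L := by exact_mod_cast hL
    have main : f k0 = g k0 := by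
      have hcase : y k0 = x k0 + 1 ∨ x k0 = y k0 + 1 := by
        rcases abs_eq (by norm_num : (0 : ℤ) ≤ 1) |>.mp hk0 with h1 | h1 <;> omega
      have fl := (f k0).isLt
      have gl := (g k0).isLt
      have dv : ∃ z : ℤ, (L : ℤ) ∣ (z + ((f k0 : ℕ) : ℤ)) ∧ (L : ℤ) ∣ (z + ((g k0 : ℕ) : ℤ)) := by
        rcases hcase with hc | hc
        · refine ⟨x k0 + 1, ?_, ?_⟩
          · have := floor_step L hLz (x k0 + ((f k0 : ℕ) : ℤ)) (by
              rw [hc] at hf'
              intro e; apply hf'; rw [e]; congr 1; ring)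
            have e : x k0 + 1 + ((f k0 : ℕ) : ℤ) = x k0 + ((f k0 : ℕ) : ℤ) + 1 := by ring
            rw [e]; exact this
          · have := floor_step L hLz (x k0 + ((g k0 : ℕ) : ℤ)) (by
              rw [hc] at hg'
              intro e; apply hg'; rw [e]; congr 1; ring)
            have e : x k0 + 1 + ((g k0 : ℕ) : ℤ) = x k0 + ((g k0 : ℕ) : ℤ) + 1 := by ring
            rw [e]; exact this
        · refine ⟨y k0 + 1, ?_, ?_⟩
          · have := floor_step L hLz (y k0 + ((f k0 : ℕ) : ℤ)) (by
              rw [hc] at hf'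
              intro e; apply hf'; rw [e]; congr 1; ring)
            have e : y k0 + 1 + ((f k0 : ℕ) : ℤ) = y k0 + ((f k0 : ℕ) : ℤ) + 1 := by ring
            rw [e]; exact this
          · have := floor_step L hLz (y k0 + ((g k0 : ℕ) : ℤ)) (by
              rw [hc] at hg'
              intro e; apply hg'; rw [e]; congr 1; ring)
            have e : y k0 + 1 + ((g k0 : ℕ) : ℤ) = y k0 + ((g k0 : ℕ) : ℤ) + 1 := by ring
            rw [e]; exact this
      obtain ⟨z, hz1, hz2⟩ := dv
      have hsub : (L : ℤ) ∣ (((f k0 : ℕ) : ℤ) - ((g k0 : ℕ) : ℤ)) := by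
        have := dvd_sub hz1 hz2
        have e : z + ((f k0 : ℕ) : ℤ) - (z + ((g k0 : ℕ) : ℤ)) = ((f k0 : ℕ) : ℤ) - ((g k0 : ℕ) : ℤ) := by ring
        rwa [e] at this
      have hz : ((f k0 : ℕ) : ℤ) - ((g k0 : ℕ) : ℤ) = 0 := by
        apply Int.eq_zero_of_abs_lt_dvd hsub
        rw [abs_lt]
        constructor <;> omega
      apply Fin.ext
      omega
    funext k
    by_cases hkk : k = k0
    · subst hkk; exact main
    · exact hfg k hkk

/-- Averaging over the offset `c ∈ [0, L)^d` of a cubic grid of side `L`: some offset cuts at most a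
fraction `1 / L` of the given nearest-neighbour pairs.  `w` is a nearest-neighbour walk and `S` a
finite set of points; `L` times (number of steps of `w` plus number of ordered adjacent pairs of `S`
that the shifted grid cuts) is at most (number of steps) plus (number of ordered adjacent pairs). -/
theorem exists_offset (d : ℕ) (L : ℕ) (hL : 1 ≤ L) (n : ℕ) (w : Fin (n + 1) → Fin d → ℤ)
    (hw : ∀ i : Fin n, ∑ k, |w i.castSucc k - w i.succ k| = 1) (S : Finset (Fin d → ℤ)) :
    ∃ c : Fin d → ℤ, (∀ k, 0 ≤ c k ∧ c k < L) ∧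
      L * (((Finset.univ : Finset (Fin n)).filter
              (fun i => (fun k => (w i.castSucc k + c k) / (L : ℤ)) ≠
                (fun k => (w i.succ k + c k) / (L : ℤ)))).card +
            ((S ×ˢ S).filter (fun p => ∑ k, |p.1 k - p.2 k| = 1 ∧
              (fun k => (p.1 k + c k) / (L : ℤ)) ≠ (fun k => (p.2 k + c k) / (L : ℤ)))).card)
        ≤ n + ((S ×ˢ S).filter (fun p => ∑ k, |p.1 k - p.2 k| = 1)).card := by
  have : Nonempty (Fin d → Fin L) := ⟨fun _ => ⟨0, by omega⟩⟩
  have hex : ∃ c : Fin d → Fin L, c ∈ (Finset.univ : Finset (Fin d → Fin L)) ∧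
      L * (((Finset.univ : Finset (Fin n)).filter
              (fun i => (fun k => (w i.castSucc k + ((c k : ℕ) : ℤ)) / (L : ℤ)) ≠
                (fun k => (w i.succ k + ((c k : ℕ) : ℤ)) / (L : ℤ)))).card +
            ((S ×ˢ S).filter (fun p => ∑ k, |p.1 k - p.2 k| = 1 ∧
              (fun k => (p.1 k + ((c k : ℕ) : ℤ)) / (L : ℤ)) ≠ (fun k => (p.2 k + ((c k : ℕ) : ℤ)) / (L : ℤ)))).card)
        ≤ n + ((S ×ˢ S).filter (fun p => ∑ k, |p.1 k - p.2 k| = 1)).card := by
    apply Finset.exists_le_of_sum_le Finset.univ_nonempty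
    rw [← Finset.mul_sum, Finset.sum_add_distrib]
    simp only [Finset.sum_const, smul_eq_mul]
    have hA : ∑ c : Fin d → Fin L, ((Finset.univ : Finset (Fin n)).filter
              (fun i => (fun k => (w i.castSucc k + ((c k : ℕ) : ℤ)) / (L : ℤ)) ≠
                (fun k => (w i.succ k + ((c k : ℕ) : ℤ)) / (L : ℤ)))).card
        = ∑ i : Fin n, (Finset.univ.filter (fun c : Fin d → Fin L =>
            (fun k => (w i.castSucc k + ((c k : ℕ) : ℤ)) / (L : ℤ)) ≠
                (fun k => (w i.succ k + ((c k : ℕ) : ℤ)) / (L : ℤ)))).card := by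
      simp only [Finset.card_filter]
      exact Finset.sum_comm
    have hB : ∑ c : Fin d → Fin L, ((S ×ˢ S).filter (fun p => ∑ k, |p.1 k - p.2 k| = 1 ∧
              (fun k => (p.1 k + ((c k : ℕ) : ℤ)) / (L : ℤ)) ≠ (fun k => (p.2 k + ((c k : ℕ) : ℤ)) / (L : ℤ)))).card
        = ∑ p ∈ (S ×ˢ S).filter (fun p => ∑ k, |p.1 k - p.2 k| = 1),
            (Finset.univ.filter (fun c : Fin d → Fin L =>
            (fun k => (p.1 k + ((c k : ℕ) : ℤ)) / (L : ℤ)) ≠
                (fun k => (p.2 k + ((c k : ℕ) : ℤ)) / (L : ℤ)))).card := by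
      have : ∀ c : Fin d → Fin L, ((S ×ˢ S).filter (fun p => ∑ k, |p.1 k - p.2 k| = 1 ∧
              (fun k => (p.1 k + ((c k : ℕ) : ℤ)) / (L : ℤ)) ≠ (fun k => (p.2 k + ((c k : ℕ) : ℤ)) / (L : ℤ)))) =
              (((S ×ˢ S).filter (fun p => ∑ k, |p.1 k - p.2 k| = 1)).filter (fun p => 
              (fun k => (p.1 k + ((c k : ℕ) : ℤ)) / (L : ℤ)) ≠ (fun k => (p.2 k + ((c k : ℕ) : ℤ)) / (L : ℤ)))) := by
        intro c
        rw [Finset.filter_filter]
      rw [Finset.sum_congr rfl (fun c _ => by rw [this c])]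
      rw [Finset.sum_congr rfl (fun c _ => Finset.card_filter _ _)]
      rw [Finset.sum_comm]
      apply Finset.sum_congr rfl
      intro p _
      rw [Finset.card_filter]
    rw [hA, hB, mul_add, Finset.mul_sum, Finset.mul_sum, mul_add]
    apply Nat.add_le_add
    · calc _ ≤ ∑ i : Fin n, Fintype.card (Fin d → Fin L) :=
            Finset.sum_le_sum (fun i _ => cut_count d L hL _ _ (hw i))
        _ = _ := by simp [mul_comm]
    · calc _ ≤ ∑ p ∈ (S ×ˢ S).filter (fun p => ∑ k, |p.1 k - p.2 k| = 1), Fintype.card (Fin d → Fin L) :=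
            Finset.sum_le_sum (fun p hp => cut_count d L hL _ _ (Finset.mem_filter.mp hp).2)
        _ = _ := by rw [Finset.sum_const, smul_eq_mul, mul_comm, Finset.card_univ]
  obtain ⟨c, -, hc⟩ := hex
  refine ⟨fun k => ((c k : ℕ) : ℤ), fun k => ⟨by positivity, ?_⟩, hc⟩
  have := (c k).isLt
  show ((c k : ℕ) : ℤ) < (L : ℤ)
  exact_mod_cast this

theorem coll_count (d : ℕ) (r R : ℕ) (i j : Fin r) (hij : i < j)
    (tr : Fin R × Fin R → Fin d → ℤ) (htr : Function.Injective tr) (x y : Fin d → ℤ) :
    R ^ 2 * (Finset.univ.filter (fun s : Fin r → Fin R × Fin R => x + tr (s i) = y + tr (s j))).card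
      ≤ Fintype.card (Fin r → Fin R × Fin R) := by
  have key := gen_count (Finset.univ.filter
    (fun s : Fin r → Fin R × Fin R => x + tr (s i) = y + tr (s j))) j ?_
  · have e : Fintype.card (Fin R × Fin R) = R ^ 2 := by
      rw [Fintype.card_prod, Fintype.card_fin, sq]
    rw [e] at key
    exact key
  · intro f hf g hg hfg
    simp only [Finset.mem_filter, Finset.mem_univ, true_and] at hf hg
    have hi : f i = g i := hfg i (ne_of_lt hij)
    have hj : f j = g j := by
      apply htr
      rw [hi] at hf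
      have := hf.symm.trans hg
      exact add_left_cancel this
    funext k
    by_cases hk : k = j
    · subst hk; exact hj
    · exact hfg k hk

/-- Averaging over translations in the first two coordinates: `r` finite subsets of `ℤ^d` can be
translated by vectors of `[0, R)^2 × {0}` so that the total number of collisions is small. -/
theorem exists_translations (d : ℕ) (hd : 2 ≤ d) (r : ℕ) (R : ℕ) (hR : 1 ≤ R)
    (T : Fin r → Finset (Fin d → ℤ)) :
    ∃ t : Fin r → Fin d → ℤ,
      (∀ i k, 0 ≤ t i k ∧ t i k < R ∧ (2 ≤ k.val → t i k = 0)) ∧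
      R ^ 2 * (∑ i : Fin r, ∑ j : Fin r, if i < j then
          (((T i).image (fun x => x + t i)) ∩ ((T j).image (fun x => x + t j))).card else 0)
        ≤ ∑ i : Fin r, ∑ j : Fin r, if i < j then (T i).card * (T j).card else 0 := by
  classical
  let tr : Fin R × Fin R → Fin d → ℤ := fun a k =>
    if k.val = 0 then ((a.1 : ℕ) : ℤ) else if k.val = 1 then ((a.2 : ℕ) : ℤ) else 0
  have htr : Function.Injective tr := by
    intro a b hab
    have h0 := congrFun hab ⟨0, by omega⟩
    have h1 := congrFun hab ⟨1, by omega⟩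
    simp only [tr] at h0 h1
    simp at h0 h1
    exact Prod.ext (Fin.ext h0) (Fin.ext h1)
  have : Nonempty (Fin r → Fin R × Fin R) := ⟨fun _ => (⟨0, by omega⟩, ⟨0, by omega⟩)⟩
  have hex : ∃ s : Fin r → Fin R × Fin R, s ∈ (Finset.univ : Finset (Fin r → Fin R × Fin R)) ∧
      R ^ 2 * (∑ i : Fin r, ∑ j : Fin r, if i < j then
          (((T i).image (fun x => x + tr (s i))) ∩ ((T j).image (fun x => x + tr (s j)))).card else 0)
        ≤ ∑ i : Fin r, ∑ j : Fin r, if i < j then (T i).card * (T j).card else 0 := by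
    apply Finset.exists_le_of_sum_le Finset.univ_nonempty
    rw [← Finset.mul_sum]
    rw [Finset.sum_comm]
    have : ∀ i : Fin r, (∑ s : Fin r → Fin R × Fin R, ∑ j : Fin r, if i < j then
          (((T i).image (fun x => x + tr (s i))) ∩ ((T j).image (fun x => x + tr (s j)))).card else 0)
          = ∑ j : Fin r, ∑ s : Fin r → Fin R × Fin R, if i < j then
          (((T i).image (fun x => x + tr (s i))) ∩ ((T j).image (fun x => x + tr (s j)))).card else 0 :=
      fun i => Finset.sum_comm
    rw [Finset.sum_congr rfl (fun i _ => this i), Finset.sum_const, smul_eq_mul, Finset.mul_sum,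
      Finset.mul_sum]
    apply Finset.sum_le_sum
    intro i _
    rw [Finset.mul_sum, Finset.mul_sum]
    apply Finset.sum_le_sum
    intro j _
    by_cases hij : i < j
    · simp only [hij, if_true]
      have hb : ∀ s : Fin r → Fin R × Fin R,
          (((T i).image (fun x => x + tr (s i))) ∩ ((T j).image (fun x => x + tr (s j)))).card
          ≤ ((T i ×ˢ T j).filter (fun p => p.1 + tr (s i) = p.2 + tr (s j))).card := by
        intro s
        apply Finset.card_le_card_of_injOn (fun z => (z - tr (s i), z - tr (s j)))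
        · intro z hz
          simp only [Finset.coe_inter, Finset.coe_image, Set.mem_inter_iff, Set.mem_image,
            Finset.mem_coe] at hz
          obtain ⟨⟨a, ha, rfl⟩, ⟨b, hb, hb'⟩⟩ := hz
          simp only [Finset.coe_filter, Finset.mem_product, Set.mem_ofPred_eq]
          refine ⟨⟨by simpa using ha, ?_⟩, by simp⟩
          rw [← hb']; simpa using hb
        · intro z _ z' _ hzz
          have := (Prod.ext_iff.mp hzz).1
          simpa using this
      calc R ^ 2 * ∑ s : Fin r → Fin R × Fin R,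
              (((T i).image (fun x => x + tr (s i))) ∩ ((T j).image (fun x => x + tr (s j)))).card
          ≤ R ^ 2 * ∑ s : Fin r → Fin R × Fin R,
              ((T i ×ˢ T j).filter (fun p => p.1 + tr (s i) = p.2 + tr (s j))).card :=
            Nat.mul_le_mul_left _ (Finset.sum_le_sum (fun s _ => hb s))
        _ = R ^ 2 * ∑ p ∈ T i ×ˢ T j, (Finset.univ.filter
              (fun s : Fin r → Fin R × Fin R => p.1 + tr (s i) = p.2 + tr (s j))).card := by
            simp only [Finset.card_filter]
            rw [Finset.sum_comm]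
        _ = ∑ p ∈ T i ×ˢ T j, R ^ 2 * (Finset.univ.filter
              (fun s : Fin r → Fin R × Fin R => p.1 + tr (s i) = p.2 + tr (s j))).card := by
            rw [Finset.mul_sum]
        _ ≤ ∑ p ∈ T i ×ˢ T j, Fintype.card (Fin r → Fin R × Fin R) :=
            Finset.sum_le_sum (fun p _ => coll_count d r R i j hij tr htr p.1 p.2)
        _ = _ := by rw [Finset.sum_const, smul_eq_mul, Finset.card_product, Finset.card_univ, mul_comm]
    · simp [hij]
  obtain ⟨s, -, hs⟩ := hex
  refine ⟨fun i => tr (s i), ?_, hs⟩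
  intro i k
  simp only [tr]
  have h1 := (s i).1.isLt
  have h2 := (s i).2.isLt
  refine ⟨?_, ?_, ?_⟩
  · split_ifs <;> omega
  · split_ifs <;> omega
  · intro hk
    have a0 : ¬ (k.val = 0) := by omega
    have a1 : ¬ (k.val = 1) := by omega
    simp [a0, a1]

end Pool.Agent.Helper772.T1
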