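import Mathlib
import Pool.Agent.Helper772.Defs
import Pool.Agent.Helper772.HDefs
import Pool.Agent.Helper772.NA
import Pool.Agent.Helper772.T1
set_option autoImplicit false
namespace Pool.Agent.Helper772.HND

open Pool.Agent.Helper772.NA (exists_connector)
open Pool.Agent.Helper772.T1 (cut_count exists_translations)

open Filter Topology

/-! Given results (proved elsewhere, use as black boxes). -/

/-! Targets. -/

lemma cellc_shift (L : ℕ) (hL : 1 ≤ L) (x cc τ : Fin 3 → ℤ) :
    cellc (L : ℤ) (x + (fun a => cc a + (L : ℤ) * τ a)) =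
      cellc (L : ℤ) (x + cc) + τ := by
  funext a
  simp only [cellc, Pi.add_apply]
  have hL' : (L : ℤ) ≠ 0 := by positivity
  rw [← add_assoc, Int.add_mul_ediv_left _ _ hL']

/-- cut indicator number for walk `i` -/
lemma exists_offset (r : ℕ) (n : Fin r → ℕ)
    (Ω : ∀ i, Fin (n i + 1) → Fin 3 → ℤ)
    (hstep : ∀ i (j : Fin (n i)), ∑ a, |Ω i j.castSucc a - Ω i j.succ a| = 1)
    (L : ℕ) (hL : 1 ≤ L) :
    ∃ cc : Fin 3 → Fin L,
      L * ∑ i, (((Finset.univ : Finset (Fin (n i))).filter
        (fun j => (fun k => (Ω i j.castSucc k + ((cc k : ℕ) : ℤ)) / (L : ℤ)) ≠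
          (fun k => (Ω i j.succ k + ((cc k : ℕ) : ℤ)) / (L : ℤ)))).card +
        (((Finset.univ.image (Ω i)) ×ˢ (Finset.univ.image (Ω i))).filter
          (fun p => ∑ a, |p.1 a - p.2 a| = 1 ∧
            (fun k => (p.1 k + ((cc k : ℕ) : ℤ)) / (L : ℤ)) ≠
          (fun k => (p.2 k + ((cc k : ℕ) : ℤ)) / (L : ℤ)))).card) ≤
        ∑ i, (n i + adjPairs (Finset.univ.image (Ω i))) := by
  classical
  have : NeZero L := ⟨by omega⟩
  by_contra hcon
  push Not at hcon
  set F : (Fin 3 → Fin L) → ℕ := fun cc => ∑ i, (((Finset.univ : Finset (Fin (n i))).filter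
        (fun j => (fun k => (Ω i j.castSucc k + ((cc k : ℕ) : ℤ)) / (L : ℤ)) ≠
          (fun k => (Ω i j.succ k + ((cc k : ℕ) : ℤ)) / (L : ℤ)))).card +
        (((Finset.univ.image (Ω i)) ×ˢ (Finset.univ.image (Ω i))).filter
          (fun p => ∑ a, |p.1 a - p.2 a| = 1 ∧
            (fun k => (p.1 k + ((cc k : ℕ) : ℤ)) / (L : ℤ)) ≠
          (fun k => (p.2 k + ((cc k : ℕ) : ℤ)) / (L : ℤ)))).card) with hF
  set Tt : ℕ := ∑ i, (n i + adjPairs (Finset.univ.image (Ω i))) with hTt
  set C : ℕ := Fintype.card (Fin 3 → Fin L) with hC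
  have h1 : ∑ cc, L * F cc > C * Tt := by
    have : ∑ cc : Fin 3 → Fin L, L * F cc > ∑ cc : Fin 3 → Fin L, Tt := by
      apply Finset.sum_lt_sum_of_nonempty
      · exact ⟨fun _ => 0, Finset.mem_univ _⟩
      · intro cc _
        exact hcon cc
    rwa [Finset.sum_const, Finset.card_univ, smul_eq_mul] at this
  have h2 : ∑ cc, L * F cc ≤ C * Tt := by
    have e1 : ∑ cc, L * F cc = ∑ i, ((∑ j : Fin (n i), L * (Finset.univ.filter
          (fun cc : Fin 3 → Fin L => (fun k => (Ω i j.castSucc k + ((cc k : ℕ) : ℤ)) / (L : ℤ)) ≠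
          (fun k => (Ω i j.succ k + ((cc k : ℕ) : ℤ)) / (L : ℤ)))).card) +
          ∑ p ∈ ((Finset.univ.image (Ω i)) ×ˢ (Finset.univ.image (Ω i))).filter
            (fun p => ∑ a, |p.1 a - p.2 a| = 1),
            L * (Finset.univ.filter
          (fun cc : Fin 3 → Fin L => (fun k => (p.1 k + ((cc k : ℕ) : ℤ)) / (L : ℤ)) ≠
          (fun k => (p.2 k + ((cc k : ℕ) : ℤ)) / (L : ℤ)))).card) := by
      rw [← Finset.mul_sum]
      simp only [hF]
      rw [Finset.sum_comm, Finset.mul_sum]
      apply Finset.sum_congr rfl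
      intro i _
      rw [Finset.sum_add_distrib, mul_add, ← Finset.mul_sum, ← Finset.mul_sum]
      congr 1
      · congr 1
        simp only [Finset.card_filter]
        rw [Finset.sum_comm]
      · congr 1
        simp only [← Finset.filter_filter]
        simp only [Finset.card_filter]
        rw [Finset.sum_comm]
    rw [e1, hTt, Finset.mul_sum]
    apply Finset.sum_le_sum
    intro i _
    rw [mul_add]
    apply add_le_add
    · calc _ ≤ ∑ j : Fin (n i), C := by
            apply Finset.sum_le_sum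
            intro j _
            exact cut_count 3 L hL _ _ (hstep i j)
        _ = C * n i := by
            rw [Finset.sum_const, Finset.card_univ, Fintype.card_fin, smul_eq_mul, mul_comm]
    · calc _ ≤ ∑ p ∈ ((Finset.univ.image (Ω i)) ×ˢ (Finset.univ.image (Ω i))).filter
            (fun p => ∑ a, |p.1 a - p.2 a| = 1), C := by
            apply Finset.sum_le_sum
            intro p hp
            exact cut_count 3 L hL _ _ (Finset.mem_filter.mp hp).2
        _ = C * adjPairs (Finset.univ.image (Ω i)) := by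
            rw [Finset.sum_const, smul_eq_mul, mul_comm]
            rfl
  omega

/-- Choice of a common vertical offset `c`, of the lateral positions of `r` walks forming a closed
chain in the half space, of the connectors and of the set `U`, with few collisions. -/
theorem exists_chain_H (r : ℕ) [NeZero r] (n : Fin r → ℕ)
    (Ω : ∀ i, Fin (n i + 1) → Fin 3 → ℤ)
    (hinj : ∀ i, Function.Injective (Ω i))
    (hstep : ∀ i (j : Fin (n i)), ∑ a, |Ω i j.castSucc a - Ω i j.succ a| = 1)
    (hpos : ∀ i j, 0 ≤ Ω i j 2)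
    (hclose : ∀ i, Ω i (Fin.last (n i)) = Ω (i + 1) 0)
    (h0 : Ω 0 0 = 0)
    (L : ℕ) (hL : 2 ≤ L) (R : ℕ) (hR : 1 ≤ R) :
    ∃ (c : ℤ) (v : Fin r → Fin 3 → ℤ) (k : Fin r → ℕ) (t : ∀ i, Fin (k i + 1) → Fin 3 → ℤ)
      (U : Finset (Fin 3 → ℤ)) (i₀ : Fin r) (j₀ : Fin (k i₀ + 1)),
      0 ≤ c ∧ c < L ∧ (∀ i, v i 2 = c) ∧
      ChainData (L : ℤ) (fun i j => Ω i j + v i) t (U : Set (Fin 3 → ℤ)) ∧
      (∀ b ∈ U, (∃ i j, b = t i j) ∨ (∃ i j, b = cellc (L : ℤ) (Ω i j + v i))) ∧
      (∀ i j, 0 ≤ t i j 2) ∧ t i₀ j₀ = cellc (L : ℤ) (v 0) ∧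
      R ^ 2 * U.card ≤ R ^ 2 * (r * (2 * R + 4)) + (∑ i, (n i + 1)) ^ 2 ∧
      L * ∑ i, (crossNum (L : ℤ) (fun j => Ω i j + v i) + adjCross (L : ℤ) (fun j => Ω i j + v i)) ≤
        ∑ i, (n i + adjPairs (Finset.univ.image (Ω i))) ∧
      (∀ i a, |v i a| ≤ (L : ℤ) + L * R) := by
  classical
  have hL1 : 1 ≤ L := by omega
  obtain ⟨cf, hcf⟩ := exists_offset r n Ω hstep L hL1
  set cc : Fin 3 → ℤ := fun a => ((cf a : ℕ) : ℤ) with hcc
  have hcc0 : ∀ a, 0 ≤ cc a := fun a => Int.natCast_nonneg _
  have hccL : ∀ a, cc a < L := fun a => by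
    have := (cf a).isLt
    simp only [hcc]
    exact_mod_cast this
  set T : Fin r → Finset (Fin 3 → ℤ) := fun i =>
    Finset.univ.image (fun j => cellc (L : ℤ) (Ω i j + cc)) with hT
  have hTcard : ∀ i, (T i).card ≤ n i + 1 := fun i => by
    calc (T i).card ≤ (Finset.univ : Finset (Fin (n i + 1))).card := Finset.card_image_le
      _ = n i + 1 := by simp
  obtain ⟨τ, hτ, hcol⟩ := exists_translations 3 (by norm_num) r R hR T
  set v : Fin r → Fin 3 → ℤ := fun i a => cc a + (L : ℤ) * τ i a with hv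
  have hcell : ∀ i (x : Fin 3 → ℤ), cellc (L : ℤ) (x + v i) = cellc (L : ℤ) (x + cc) + τ i :=
    fun i x => cellc_shift L hL1 x cc (τ i)
  have hτ2 : ∀ i, τ i 2 = 0 := fun i => (hτ i 2).2.2 (by decide)
  have hconn : ∀ i : Fin r, ∃ (k : ℕ) (t : Fin (k + 1) → Fin 3 → ℤ),
      (k : ℤ) ≤ 2 * R ∧
      t 0 = cellc (L : ℤ) (Ω i (Fin.last (n i)) + v i) ∧
      t (Fin.last k) = cellc (L : ℤ) (Ω (i + 1) 0 + v (i + 1)) ∧
      (∀ j : Fin k, ∑ a, |t j.castSucc a - t j.succ a| = 1) ∧
      (∀ j, 0 ≤ t j 2) := by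
    intro i
    obtain ⟨k, t, hk, ht0, ht1, hts, htb⟩ := exists_connector 3
      (cellc (L : ℤ) (Ω i (Fin.last (n i)) + v i)) (cellc (L : ℤ) (Ω (i + 1) 0 + v (i + 1)))
    refine ⟨k, t, ?_, ht0, ht1, hts, ?_⟩
    · rw [hk, hcell, hcell, hclose i, Fin.sum_univ_three]
      simp only [Pi.add_apply, add_sub_add_left_eq_sub]
      have a0 := hτ i 0
      have a1 := hτ i 1
      have b0 := hτ (i + 1) 0
      have b1 := hτ (i + 1) 1
      have h0 : |τ i 0 - τ (i + 1) 0| ≤ R := by
        rw [abs_le]; constructor <;> linarith [a0.1, a0.2.1, b0.1, b0.2.1]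
      have h1 : |τ i 1 - τ (i + 1) 1| ≤ R := by
        rw [abs_le]; constructor <;> linarith [a1.1, a1.2.1, b1.1, b1.2.1]
      have h2 : |τ i 2 - τ (i + 1) 2| = 0 := by rw [hτ2, hτ2]; simp
      rw [h2]
      linarith
    · intro j
      have hb := (htb j 2).1
      have hA : (0 : ℤ) ≤ cellc (L : ℤ) (Ω i (Fin.last (n i)) + v i) 2 := by
        rw [hcell]
        simp only [Pi.add_apply, hτ2, add_zero, cellc]
        apply Int.ediv_nonneg
        · exact add_nonneg (hpos _ _) (hcc0 2)
        · positivity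
      have hB : (0 : ℤ) ≤ cellc (L : ℤ) (Ω (i + 1) 0 + v (i + 1)) 2 := by
        rw [hcell]
        simp only [Pi.add_apply, hτ2, add_zero, cellc]
        apply Int.ediv_nonneg
        · exact add_nonneg (hpos _ _) (hcc0 2)
        · positivity
      exact le_trans (le_min hA hB) hb
  choose k t hk ht0 ht1 hts ht2 using hconn
  set V : Fin r → Finset (Fin 3 → ℤ) := fun i => (T i).image (fun x => x + τ i) with hV
  have hVmem : ∀ i (j : Fin (n i + 1)), cellc (L : ℤ) (Ω i j + v i) ∈ V i := by
    intro i j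
    rw [hcell]
    simp only [hV, hT]
    exact Finset.mem_image.mpr ⟨_, Finset.mem_image.mpr ⟨j, Finset.mem_univ _, rfl⟩, rfl⟩
  have hVmem' : ∀ i, ∀ b ∈ V i, ∃ j, b = cellc (L : ℤ) (Ω i j + v i) := by
    intro i b hb
    simp only [hV, hT, Finset.mem_image, Finset.mem_univ, true_and] at hb
    obtain ⟨_, ⟨j, rfl⟩, rfl⟩ := hb
    exact ⟨j, (hcell i _).symm⟩
  set U1 : Finset (Fin 3 → ℤ) := Finset.univ.biUnion (fun i => Finset.univ.image (t i)) with hU1
  set U2 : Finset (Fin 3 → ℤ) := Finset.univ.biUnion (fun i => Finset.univ.biUnion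
    (fun j => if i < j then V i ∩ V j else ∅)) with hU2
  have hi0 : (-1 : Fin r) + 1 = 0 := neg_add_cancel 1
  refine ⟨cc 2, v, k, t, U1 ∪ U2, -1, Fin.last _, hcc0 2, hccL 2, ?_, ?_, ?_, ht2, ?_, ?_, ?_, ?_⟩
  · intro i
    simp only [hv, hτ2, mul_zero, add_zero]
  · refine ⟨?_, ?_, ?_, ht0, ht1, Finset.finite_toSet _, ?_, ?_⟩
    · intro i x y hxy
      exact hinj i (add_right_cancel hxy)
    · intro i j
      show ∑ a, |(Ω i j.castSucc + v i) a - (Ω i j.succ + v i) a| = 1
      simp only [Pi.add_apply, add_sub_add_right_eq_sub]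
      exact hstep i j
    · intro i j
      exact hts i j
    · intro i j
      rw [Finset.mem_coe]
      apply Finset.mem_union_left
      exact Finset.mem_biUnion.mpr ⟨i, Finset.mem_univ _,
        Finset.mem_image.mpr ⟨j, Finset.mem_univ _, rfl⟩⟩
    · intro i i' j j' hii hcc'
      rw [Finset.mem_coe]
      apply Finset.mem_union_right
      have m1 := hVmem i j
      have m2 : cellc (L : ℤ) (Ω i j + v i) ∈ V i' := by
        have := hVmem i' j'
        have hcc'' : cellc (L : ℤ) (Ω i j + v i) = cellc (L : ℤ) (Ω i' j' + v i') := hcc'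
        rw [hcc'']
        exact this
      rcases lt_or_gt_of_ne hii with h | h
      · refine Finset.mem_biUnion.mpr ⟨i, Finset.mem_univ _, Finset.mem_biUnion.mpr
          ⟨i', Finset.mem_univ _, ?_⟩⟩
        rw [if_pos h]
        exact Finset.mem_inter.mpr ⟨m1, m2⟩
      · refine Finset.mem_biUnion.mpr ⟨i', Finset.mem_univ _, Finset.mem_biUnion.mpr
          ⟨i, Finset.mem_univ _, ?_⟩⟩
        rw [if_pos h]
        exact Finset.mem_inter.mpr ⟨m2, m1⟩
  · intro b hb
    rcases Finset.mem_union.mp hb with h | h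
    · left
      obtain ⟨i, _, hi⟩ := Finset.mem_biUnion.mp h
      obtain ⟨j, _, hj⟩ := Finset.mem_image.mp hi
      exact ⟨i, j, hj.symm⟩
    · right
      obtain ⟨i, _, hi⟩ := Finset.mem_biUnion.mp h
      obtain ⟨j, _, hj⟩ := Finset.mem_biUnion.mp hi
      split_ifs at hj with hij
      · obtain ⟨m, hm⟩ := hVmem' i b (Finset.mem_inter.mp hj).1
        exact ⟨i, m, hm⟩
      · simp at hj
  · rw [ht1, hi0, h0, zero_add]
  · have c1 : U1.card ≤ r * (2 * R + 4) := by
      calc U1.card ≤ ∑ i : Fin r, (Finset.univ.image (t i)).card := Finset.card_biUnion_le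
        _ ≤ ∑ i : Fin r, (2 * R + 4) := by
            apply Finset.sum_le_sum
            intro i _
            calc (Finset.univ.image (t i)).card ≤ (Finset.univ : Finset (Fin (k i + 1))).card :=
                  Finset.card_image_le
              _ = k i + 1 := by simp
              _ ≤ 2 * R + 4 := by
                have := hk i
                have h' : k i ≤ 2 * R := by exact_mod_cast this
                omega
        _ = r * (2 * R + 4) := by simp
    have c2 : U2.card ≤ ∑ i : Fin r, ∑ j : Fin r, if i < j then (V i ∩ V j).card else 0 := by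
      calc U2.card ≤ ∑ i : Fin r, (Finset.univ.biUnion
              (fun j => if i < j then V i ∩ V j else ∅)).card := Finset.card_biUnion_le
        _ ≤ ∑ i : Fin r, ∑ j : Fin r, (if i < j then V i ∩ V j else ∅).card := by
            apply Finset.sum_le_sum
            intro i _
            exact Finset.card_biUnion_le
        _ = ∑ i : Fin r, ∑ j : Fin r, if i < j then (V i ∩ V j).card else 0 := by
            apply Finset.sum_congr rfl
            intro i _
            apply Finset.sum_congr rfl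
            intro j _
            split_ifs <;> simp
    have c3 : ∑ i : Fin r, ∑ j : Fin r, (if i < j then (T i).card * (T j).card else 0) ≤
        (∑ i, (n i + 1)) ^ 2 := by
      rw [sq, Finset.sum_mul_sum]
      apply Finset.sum_le_sum
      intro i _
      apply Finset.sum_le_sum
      intro j _
      split_ifs
      · exact Nat.mul_le_mul (hTcard i) (hTcard j)
      · exact Nat.zero_le _
    calc R ^ 2 * (U1 ∪ U2).card ≤ R ^ 2 * (U1.card + U2.card) :=
          Nat.mul_le_mul_left _ (Finset.card_union_le _ _)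
      _ = R ^ 2 * U1.card + R ^ 2 * U2.card := by ring
      _ ≤ R ^ 2 * (r * (2 * R + 4)) + (∑ i, (n i + 1)) ^ 2 := by
          apply add_le_add
          · exact Nat.mul_le_mul_left _ c1
          · exact le_trans (Nat.mul_le_mul_left _ c2) (le_trans hcol c3)
  · refine le_trans (Nat.mul_le_mul_left _ ?_) hcf
    apply Finset.sum_le_sum
    intro i _
    apply add_le_add
    · unfold crossNum
      apply Finset.card_le_card
      intro j hj
      rw [Finset.mem_filter] at hj ⊢
      refine ⟨hj.1, fun hEq => hj.2 ?_⟩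
      rw [hcell, hcell]
      have : cellc (L : ℤ) (Ω i j.castSucc + cc) = cellc (L : ℤ) (Ω i j.succ + cc) := hEq
      rw [this]
    · unfold adjCross
      refine Finset.card_le_card_of_injOn (fun p => (p.1 - v i, p.2 - v i)) ?_ ?_
      · intro p hp
        rw [Finset.mem_coe, Finset.mem_filter, Finset.mem_product] at hp
        rw [Finset.mem_coe, Finset.mem_filter, Finset.mem_product]
        obtain ⟨⟨h1, h2⟩, h3, h4⟩ := hp
        obtain ⟨j1, _, hj1⟩ := Finset.mem_image.mp h1
        obtain ⟨j2, _, hj2⟩ := Finset.mem_image.mp h2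
        refine ⟨⟨?_, ?_⟩, ?_, ?_⟩
        · refine Finset.mem_image.mpr ⟨j1, Finset.mem_univ _, ?_⟩
          show _ = p.1 - v i
          rw [← hj1]; simp
        · refine Finset.mem_image.mpr ⟨j2, Finset.mem_univ _, ?_⟩
          show _ = p.2 - v i
          rw [← hj2]; simp
        · simp only [Pi.sub_apply, sub_sub_sub_cancel_right]
          exact h3
        · intro hEq
          apply h4
          have e1 : cellc (L : ℤ) p.1 = cellc (L : ℤ) (p.1 - v i + cc) + τ i := by
            rw [← hcell]; simp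
          have e2 : cellc (L : ℤ) p.2 = cellc (L : ℤ) (p.2 - v i + cc) + τ i := by
            rw [← hcell]; simp
          have e3 : cellc (L : ℤ) (p.1 - v i + cc) = cellc (L : ℤ) (p.2 - v i + cc) := hEq
          rw [e1, e2, e3]
      · intro p _ q _ hpq
        have h1 := congrArg Prod.fst hpq
        have h2 := congrArg Prod.snd hpq
        simp only [sub_left_inj] at h1 h2
        exact Prod.ext h1 h2
  · intro i a
    have h1 := hτ i a
    have h2 := hcc0 a
    have h3 := hccL a
    have hL0 : (0 : ℤ) ≤ L := by positivity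
    have h4 : 0 ≤ (L : ℤ) * τ i a := mul_nonneg hL0 h1.1
    have h5 : (L : ℤ) * τ i a ≤ L * R := mul_le_mul_of_nonneg_left h1.2.1.le hL0
    simp only [hv]
    rw [abs_of_nonneg (by linarith)]
    linarith

end Pool.Agent.Helper772.HND
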