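import Mathlib
import Pool.Agent.Helper772.Defs
import Pool.Agent.Helper772.Sa
set_option autoImplicit false
namespace Pool.Agent.Helper772.NB

open Pool.Agent.Helper772.Sa (Str_recover tile_stretch)

/-! Given results (proved in other jobs, use as black boxes). -/

/-- one direction of the comparison of edges -/
theorem decode_edge {d r : ℕ} {L : ℤ} (hL : 2 ≤ L) {n : Fin r → ℕ}
    (w w' : ∀ i, Fin (n i + 1) → Fin d → ℤ)
    (hstep : ∀ i (j : Fin (n i)), (Lat d).Adj (w i j.castSucc) (w i j.succ))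
    (U : Set (Fin d → ℤ))
    (hcoll' : ∀ i i' j j', i ≠ i' → cellc L (w' i j) = cellc L (w' i' j') → cellc L (w' i j) ∈ U)
    (R : (Fin d → ℤ) → (Fin d → ℤ) → Prop)
    (hR : ∀ u v, (tile L u ∉ U ∨ tile L v ∉ U) → (R u v ↔ (Str L (pathG w)).Adj u v))
    (hR' : ∀ u v, (tile L u ∉ U ∨ tile L v ∉ U) → (R u v ↔ (Str L (pathG w')).Adj u v))
    (hcells : ∀ i, ∀ b, b ∉ U → ((∃ j, cellc L (w i j) = b) → (∃ j, cellc L (w' i j) = b)))
    (hin : ∀ i, ∀ x x', cellc L x ∈ U → cellc L x' ∈ U →
      ((∃ j : Fin (n i), s(x, x') = s(w i j.castSucc, w i j.succ)) →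
        (∃ j : Fin (n i), s(x, x') = s(w' i j.castSucc, w' i j.succ))))
    (i : Fin r) (x x' : Fin d → ℤ)
    (h : ∃ j : Fin (n i), s(x, x') = s(w i j.castSucc, w i j.succ)) :
    ∃ j : Fin (n i), s(x, x') = s(w' i j.castSucc, w' i j.succ) := by
  -- the case where the cell of the first point is outside `U`
  have main : ∀ x x' : Fin d → ℤ, (∃ j : Fin (n i), s(x, x') = s(w i j.castSucc, w i j.succ)) →
      cellc L x ∉ U → ∃ j : Fin (n i), s(x, x') = s(w' i j.castSucc, w' i j.succ) := by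
    intro x x' h hx
    have hlat : (Lat d).Adj x x' := by
      obtain ⟨j, hj⟩ := h
      rcases Sym2.eq_iff.1 hj with ⟨h1, h2⟩ | ⟨h1, h2⟩
      · rw [h1, h2]; exact hstep i j
      · rw [h1, h2]; exact (hstep i j).symm
    have hpos : 0 < L := by omega
    have hadj : (pathG w).Adj x x' := by
      obtain ⟨j, hj⟩ := h
      exact ⟨hlat.ne, i, j, hj⟩
    have ht : tile L (stretch L x) ∉ U := by rw [tile_stretch hpos]; exact hx
    have h1 := (Str_recover hpos (pathG w) x x' hlat).1 hadj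
    have h2 := (hR _ _ (Or.inl ht)).2 h1
    have h3 := (hR' _ _ (Or.inl ht)).1 h2
    have h4 := (Str_recover hpos (pathG w') x x' hlat).2 h3
    obtain ⟨hne, i', j', hj'⟩ := h4
    -- x is a vertex of w i
    have hv : ∃ j, cellc L (w i j) = cellc L x := by
      obtain ⟨j, hj⟩ := h
      rcases Sym2.eq_iff.1 hj with ⟨h1, h2⟩ | ⟨h1, h2⟩
      · exact ⟨_, congrArg _ h1.symm⟩
      · exact ⟨_, congrArg _ h1.symm⟩
    obtain ⟨k, hk⟩ := hcells i _ hx hv
    have hv' : ∃ j, cellc L (w' i' j) = cellc L x := by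
      rcases Sym2.eq_iff.1 hj' with ⟨h1, h2⟩ | ⟨h1, h2⟩
      · exact ⟨_, congrArg _ h1.symm⟩
      · exact ⟨_, congrArg _ h1.symm⟩
    obtain ⟨k', hk'⟩ := hv'
    have hii : i = i' := by
      by_contra hne'
      have := hcoll' i i' k k' hne' (hk.trans hk'.symm)
      rw [hk] at this
      exact hx this
    subst hii
    exact ⟨j', hj'⟩
  by_cases h1 : cellc L x ∈ U
  · by_cases h2 : cellc L x' ∈ U
    · exact hin i x x' h1 h2 h
    · obtain ⟨j, hj⟩ := main x' x (by
        obtain ⟨j, hj⟩ := h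
        exact ⟨j, by rw [Sym2.eq_swap]; exact hj⟩) h2
      exact ⟨j, by rw [Sym2.eq_swap]; exact hj⟩
  · exact main x x' h h1

/-! Target. -/

/-- `R` records the edges of the final polygon. Two families of walks with the same starts that lead
to the same polygon, the same `U`, the same visited cells outside `U` and the same edges inside the
cells of `U`, coincide. -/
theorem decode {d r : ℕ} {L : ℤ} (hL : 2 ≤ L) {n : Fin r → ℕ}
    (w w' : ∀ i, Fin (n i + 1) → Fin d → ℤ)
    (hinj : ∀ i, Function.Injective (w i)) (hinj' : ∀ i, Function.Injective (w' i))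
    (hstep : ∀ i (j : Fin (n i)), (Lat d).Adj (w i j.castSucc) (w i j.succ))
    (hstep' : ∀ i (j : Fin (n i)), (Lat d).Adj (w' i j.castSucc) (w' i j.succ))
    (U : Set (Fin d → ℤ))
    (hcoll : ∀ i i' j j', i ≠ i' → cellc L (w i j) = cellc L (w i' j') → cellc L (w i j) ∈ U)
    (hcoll' : ∀ i i' j j', i ≠ i' → cellc L (w' i j) = cellc L (w' i' j') → cellc L (w' i j) ∈ U)
    (hstart : ∀ i, w i 0 = w' i 0)
    (R : (Fin d → ℤ) → (Fin d → ℤ) → Prop)
    (hR : ∀ u v, (tile L u ∉ U ∨ tile L v ∉ U) → (R u v ↔ (Str L (pathG w)).Adj u v))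
    (hR' : ∀ u v, (tile L u ∉ U ∨ tile L v ∉ U) → (R u v ↔ (Str L (pathG w')).Adj u v))
    (hcells : ∀ i, ∀ b, b ∉ U → ((∃ j, cellc L (w i j) = b) ↔ (∃ j, cellc L (w' i j) = b)))
    (hin : ∀ i, ∀ x x', cellc L x ∈ U → cellc L x' ∈ U →
      ((∃ j : Fin (n i), s(x, x') = s(w i j.castSucc, w i j.succ)) ↔
        (∃ j : Fin (n i), s(x, x') = s(w' i j.castSucc, w' i j.succ)))) :
    w = w' := by
  funext i
  have hedge : ∀ j : Fin (n i), ∃ j' : Fin (n i),
      s(w i j.castSucc, w i j.succ) = s(w' i j'.castSucc, w' i j'.succ) := fun j =>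
    decode_edge hL w w' hstep U hcoll' R hR hR' (fun i b hb => (hcells i b hb).1)
      (fun i x x' h1 h2 => (hin i x x' h1 h2).1) i _ _ ⟨j, rfl⟩
  have key : ∀ m : ℕ, ∀ j : Fin (n i + 1), (j : ℕ) ≤ m → w i j = w' i j := by
    intro m
    induction m with
    | zero =>
      intro j hj
      have : j = 0 := Fin.ext (by simpa using hj)
      rw [this]; exact hstart i
    | succ m ih =>
      intro j hj
      rcases Nat.lt_or_ge (j : ℕ) (m + 1) with hlt | hge
      · exact ih j (by omega)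
      · have hjm : (j : ℕ) = m + 1 := by omega
        have hmn : m < n i := by have := j.2; omega
        obtain ⟨j', hj'⟩ := hedge ⟨m, hmn⟩
        have hjs : j = (⟨m, hmn⟩ : Fin (n i)).succ := Fin.ext (by simp [hjm])
        have h0 : w i (⟨m, hmn⟩ : Fin (n i)).castSucc = w' i (⟨m, hmn⟩ : Fin (n i)).castSucc :=
          ih _ (by simp)
        rcases Sym2.eq_iff.1 hj' with ⟨h1, h2⟩ | ⟨h1, h2⟩
        · have h3 : (⟨m, hmn⟩ : Fin (n i)).castSucc = j'.castSucc := hinj' i (h0.symm.trans h1)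
          have h4 : (⟨m, hmn⟩ : Fin (n i)) = j' := Fin.castSucc_injective _ h3
          rw [hjs, h2, ← h4]
        · exfalso
          have h3 : (⟨m, hmn⟩ : Fin (n i)).castSucc = j'.succ := hinj' i (h0.symm.trans h1)
          have h4 : m = (j' : ℕ) + 1 := by
            have := congrArg Fin.val h3
            simpa using this
          have h5 : w i j'.castSucc = w' i j'.castSucc := ih _ (by
            simp only [Fin.val_castSucc]; omega)
          have h6 : (⟨m, hmn⟩ : Fin (n i)).succ = j'.castSucc := hinj i (h2.trans h5.symm)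
          have h7 := congrArg Fin.val h6
          simp only [Fin.val_succ, Fin.val_castSucc] at h7
          omega
  funext j
  rw [key (j : ℕ) j le_rfl]

end Pool.Agent.Helper772.NB
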