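import Mathlib
import Pool.Agent.Helper772.Defs
import Pool.Agent.Helper772.Sa
import Pool.Agent.Helper772.W
set_option autoImplicit false
namespace Pool.Agent.Helper772.NC2

open Pool.Agent.Helper772.Sa (Str_recover lat_stretch stretch_injective tile_stretch)
open Pool.Agent.Helper772.W (adjPairs_le)

/-! Given results (proved in other jobs, use as black boxes). -/

/-! Target. -/

theorem card_le_of_cell {d L : ℕ} (hL : 0 < L) (U S : Finset (Fin d → ℤ))
    (hS : ∀ x ∈ S, cellc (L : ℤ) x ∈ U) : S.card ≤ U.card * L ^ d := by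
  have hL' : (0 : ℤ) < L := by exact_mod_cast hL
  have hsub : S ⊆ U.biUnion (fun b => Fintype.piFinset
      (fun i => Finset.Ico (b i * (L : ℤ)) (b i * (L : ℤ) + L))) := by
    intro x hx
    rw [Finset.mem_biUnion]
    refine ⟨cellc (L : ℤ) x, hS x hx, ?_⟩
    rw [Fintype.mem_piFinset]
    intro i
    rw [Finset.mem_Ico]
    have h1 := Int.emod_add_mul_ediv (x i) (L : ℤ)
    have h2 := Int.emod_nonneg (x i) (ne_of_gt hL')
    have h3 := Int.emod_lt_of_pos (x i) hL'
    simp only [cellc]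
    constructor <;> nlinarith
  calc S.card ≤ _ := Finset.card_le_card hsub
    _ ≤ ∑ b ∈ U, (Fintype.piFinset
      (fun i : Fin d => Finset.Ico (b i * (L : ℤ)) (b i * (L : ℤ) + L))).card := Finset.card_biUnion_le
    _ = U.card * L ^ d := by
      simp [Fintype.card_piFinset]

theorem stretch_mem {d r : ℕ} [NeZero r] {L : ℕ} (hL : 2 ≤ L) {n k : Fin r → ℕ}
    (w : ∀ i, Fin (n i + 1) → Fin d → ℤ) (t : ∀ i, Fin (k i + 1) → Fin d → ℤ)
    (U : Finset (Fin d → ℤ)) (h : ChainData (L : ℤ) w t (U : Set (Fin d → ℤ)))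
    (hn : ∀ i, 1 ≤ n i)
    (M : ℕ) (γ : Fin (M + 1) → Fin d → ℤ)
    (hγ : ∀ u v, (tile (L : ℤ) u ∉ U ∨ tile (L : ℤ) v ∉ U) →
      ((∃ i : Fin M, s(u, v) = s(γ i.castSucc, γ i.succ)) ↔ (Str (L : ℤ) (pathG w)).Adj u v))
    (i : Fin r) (x : Fin d → ℤ) (hx : x ∈ Finset.univ.image (w i)) (hU : cellc (L : ℤ) x ∉ U) :
    stretch (L : ℤ) x ∈ Finset.univ.image γ := by
  have hL' : (0 : ℤ) < L := by exact_mod_cast (by omega : 0 < L)
  obtain ⟨j, -, rfl⟩ := Finset.mem_image.1 hx
  have key : ∀ x x' : Fin d → ℤ, (Lat d).Adj x x' → (pathG w).Adj x x' → cellc (L : ℤ) x ∉ U →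
      stretch (L : ℤ) x ∈ Finset.univ.image γ := by
    intro x x' h1 h2 h3
    have h4 := (Str_recover hL' (pathG w) x x' h1).1 h2
    have h5 := (hγ (stretch (L : ℤ) x) (stretch (L : ℤ) x + (x' - x))
      (Or.inl (by rw [tile_stretch hL']; exact h3))).2 h4
    obtain ⟨m, hm⟩ := h5
    have h6 : stretch (L : ℤ) x ∈ s(γ m.castSucc, γ m.succ) := by
      rw [← hm]; exact Sym2.mem_mk_left _ _
    rcases Sym2.mem_iff.1 h6 with h7 | h7
    · rw [h7]; exact Finset.mem_image_of_mem _ (Finset.mem_univ _)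
    · rw [h7]; exact Finset.mem_image_of_mem _ (Finset.mem_univ _)
  have hpos := hn i
  rcases Fin.eq_castSucc_or_eq_last j with ⟨m, hm⟩ | hlast
  · refine key _ (w i m.succ) ?_ ?_ hU
    · rw [hm]; exact h.wstep i m
    · rw [hm]
      exact ⟨(h.wstep i m).ne, i, m, rfl⟩
  · obtain ⟨N, hN⟩ : ∃ N, n i = N + 1 := ⟨n i - 1, by omega⟩
    have hlt : N < n i := by omega
    have hm : j = (⟨N, hlt⟩ : Fin (n i)).succ := by
      rw [hlast]
      apply Fin.ext
      simp [hN]
    refine key _ (w i (⟨N, hlt⟩ : Fin (n i)).castSucc) ?_ ?_ hU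
    · rw [hm]; exact (h.wstep i _).symm
    · rw [hm]
      exact ⟨(h.wstep i _).ne.symm, i, ⟨N, hlt⟩, by rw [Sym2.eq_swap]⟩

theorem w_disj {d r : ℕ} [NeZero r] {L : ℕ} {n k : Fin r → ℕ}
    (w : ∀ i, Fin (n i + 1) → Fin d → ℤ) (t : ∀ i, Fin (k i + 1) → Fin d → ℤ)
    (U : Finset (Fin d → ℤ)) (h : ChainData (L : ℤ) w t (U : Set (Fin d → ℤ)))
    (i i' : Fin r) (x : Fin d → ℤ) (hx : x ∈ Finset.univ.image (w i))
    (hx' : x ∈ Finset.univ.image (w i')) (hU : cellc (L : ℤ) x ∉ U) : i = i' := by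
  by_contra hne
  obtain ⟨j, -, hj⟩ := Finset.mem_image.1 hx
  obtain ⟨j', -, hj'⟩ := Finset.mem_image.1 hx'
  have := h.coll i i' j j' hne (by rw [hj, hj'])
  rw [hj] at this
  exact hU (by exact_mod_cast this)

/-- size bounds for the polygon `γ` produced by the surgery, part 2 -/
theorem chain_bounds2 {d r : ℕ} [NeZero r] {L : ℕ} (hL : 2 ≤ L) {n k : Fin r → ℕ}
    (w : ∀ i, Fin (n i + 1) → Fin d → ℤ) (t : ∀ i, Fin (k i + 1) → Fin d → ℤ)
    (U : Finset (Fin d → ℤ)) (h : ChainData (L : ℤ) w t (U : Set (Fin d → ℤ)))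
    (hn : ∀ i, 1 ≤ n i)
    (M : ℕ) (hM : 3 ≤ M) (γ : Fin (M + 1) → Fin d → ℤ) (hclose : γ (Fin.last M) = γ 0)
    (hγinj : Function.Injective (fun i : Fin M => γ i.castSucc))
    (hγ : ∀ u v, (tile (L : ℤ) u ∉ U ∨ tile (L : ℤ) v ∉ U) →
      ((∃ i : Fin M, s(u, v) = s(γ i.castSucc, γ i.succ)) ↔ (Str (L : ℤ) (pathG w)).Adj u v)) :
    ∑ i, (n i + 1) ≤ M + r * (U.card * L ^ d) ∧
    ∑ i, adjPairs (Finset.univ.image (w i)) ≤ adjPairs (Finset.univ.image γ) +
      ∑ i, adjCross (L : ℤ) (w i) + 4 * d * (r * (U.card * L ^ d)) := by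
  have hL0 : 0 < L := by omega
  have hL' : (0 : ℤ) < L := by exact_mod_cast hL0
  have hA : ∀ i, ((Finset.univ.image (w i)).filter (fun x => cellc (L : ℤ) x ∈ U)).card ≤
      U.card * L ^ d := fun i => card_le_of_cell hL0 U _ (fun x hx => (Finset.mem_filter.1 hx).2)
  constructor
  · have hcard : ∀ i, n i + 1 = ((Finset.univ.image (w i)).filter (fun x => cellc (L : ℤ) x ∈ U)).card +
        ((Finset.univ.image (w i)).filter (fun x => ¬ cellc (L : ℤ) x ∈ U)).card := by
      intro i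
      rw [Finset.card_filter_add_card_filter_not, Finset.card_image_of_injective _ (h.winj i)]
      simp
    have hB : ∑ i, ((Finset.univ.image (w i)).filter (fun x => ¬ cellc (L : ℤ) x ∈ U)).card ≤ M := by
      rw [← Finset.card_biUnion]
      · rw [← Finset.card_image_of_injective _ (stretch_injective hL')]
        have hsub : ((Finset.univ.biUnion fun i => (Finset.univ.image (w i)).filter
            (fun x => ¬ cellc (L : ℤ) x ∈ U))).image (stretch (L : ℤ)) ⊆
            Finset.univ.image (fun i : Fin M => γ i.castSucc) := by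
          intro y hy
          obtain ⟨x, hx, rfl⟩ := Finset.mem_image.1 hy
          obtain ⟨i, -, hx⟩ := Finset.mem_biUnion.1 hx
          obtain ⟨hx1, hx2⟩ := Finset.mem_filter.1 hx
          have := stretch_mem hL w t U h hn M γ hγ i x hx1 hx2
          obtain ⟨j, -, hj⟩ := Finset.mem_image.1 this
          rw [← hj]
          rcases Fin.eq_castSucc_or_eq_last j with ⟨m, hm⟩ | hlast
          · rw [hm]; exact Finset.mem_image_of_mem (fun i : Fin M => γ i.castSucc) (Finset.mem_univ m)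
          · rw [hlast, hclose]
            exact Finset.mem_image.2 ⟨⟨0, by omega⟩, Finset.mem_univ _, by
              congr 1⟩
        refine (Finset.card_le_card hsub).trans (Finset.card_image_le.trans ?_)
        simp
      · intro i _ i' _ hne
        rw [Function.onFun, Finset.disjoint_left]
        intro x hx hx'
        obtain ⟨hx1, hx2⟩ := Finset.mem_filter.1 hx
        obtain ⟨hx1', -⟩ := Finset.mem_filter.1 hx'
        exact hne (w_disj w t U h i i' x hx1 hx1' hx2)
    calc ∑ i, (n i + 1) = ∑ i, (((Finset.univ.image (w i)).filter (fun x => cellc (L : ℤ) x ∈ U)).card +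
        ((Finset.univ.image (w i)).filter (fun x => ¬ cellc (L : ℤ) x ∈ U)).card) :=
          Finset.sum_congr rfl (fun i _ => hcard i)
      _ = ∑ i, ((Finset.univ.image (w i)).filter (fun x => cellc (L : ℤ) x ∈ U)).card +
        ∑ i, ((Finset.univ.image (w i)).filter (fun x => ¬ cellc (L : ℤ) x ∈ U)).card :=
          Finset.sum_add_distrib
      _ ≤ ∑ _i : Fin r, U.card * L ^ d + M := add_le_add (Finset.sum_le_sum (fun i _ => hA i)) hB
      _ = M + r * (U.card * L ^ d) := by simp [add_comm]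
  · have hsplit : ∀ i, adjPairs (Finset.univ.image (w i)) ≤ adjCross (L : ℤ) (w i) +
        adjPairs ((Finset.univ.image (w i)).filter (fun x => cellc (L : ℤ) x ∈ U)) +
        ((((Finset.univ.image (w i)).filter (fun x => ¬ cellc (L : ℤ) x ∈ U)) ×ˢ
          ((Finset.univ.image (w i)).filter (fun x => ¬ cellc (L : ℤ) x ∈ U))).filter
          (fun p => ∑ i, |p.1 i - p.2 i| = 1 ∧ cellc (L : ℤ) p.1 = cellc (L : ℤ) p.2)).card := by
      intro i
      unfold adjPairs adjCross
      refine le_trans (Finset.card_le_card ?_) ((Finset.card_union_le _ _).trans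
        (Nat.add_le_add_right (Finset.card_union_le _ _) _))
      intro p hp
      obtain ⟨hp1, hp2⟩ := Finset.mem_filter.1 hp
      obtain ⟨hp3, hp4⟩ := Finset.mem_product.1 hp1
      rw [Finset.mem_union, Finset.mem_union]
      by_cases hc : cellc (L : ℤ) p.1 = cellc (L : ℤ) p.2
      · by_cases hU : cellc (L : ℤ) p.1 ∈ U
        · left; right
          rw [Finset.mem_filter, Finset.mem_product, Finset.mem_filter, Finset.mem_filter]
          exact ⟨⟨⟨hp3, hU⟩, ⟨hp4, hc ▸ hU⟩⟩, hp2⟩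
        · right
          rw [Finset.mem_filter, Finset.mem_product, Finset.mem_filter, Finset.mem_filter]
          exact ⟨⟨⟨hp3, hU⟩, ⟨hp4, hc ▸ hU⟩⟩, hp2, hc⟩
      · left; left
        rw [Finset.mem_filter]
        exact ⟨hp1, hp2, hc⟩
    have hA2 : ∀ i, adjPairs ((Finset.univ.image (w i)).filter (fun x => cellc (L : ℤ) x ∈ U)) ≤
        2 * d * (U.card * L ^ d) := fun i => (adjPairs_le d _).trans (Nat.mul_le_mul_left _ (hA i))
    have hB2 : ∑ i, ((((Finset.univ.image (w i)).filter (fun x => ¬ cellc (L : ℤ) x ∈ U)) ×ˢ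
          ((Finset.univ.image (w i)).filter (fun x => ¬ cellc (L : ℤ) x ∈ U))).filter
          (fun p => ∑ i, |p.1 i - p.2 i| = 1 ∧ cellc (L : ℤ) p.1 = cellc (L : ℤ) p.2)).card ≤
          adjPairs (Finset.univ.image γ) := by
      rw [← Finset.card_biUnion]
      · have hinj : Function.Injective (Prod.map (stretch (d := d) (L : ℤ)) (stretch (d := d) (L : ℤ))) :=
          (stretch_injective hL').prodMap (stretch_injective hL')
        rw [← Finset.card_image_of_injective _ hinj]
        apply Finset.card_le_card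
        intro y hy
        obtain ⟨p, hp, rfl⟩ := Finset.mem_image.1 hy
        obtain ⟨i, -, hp⟩ := Finset.mem_biUnion.1 hp
        obtain ⟨hp1, hp2, hp3⟩ := Finset.mem_filter.1 hp
        obtain ⟨hp4, hp5⟩ := Finset.mem_product.1 hp1
        obtain ⟨hp6, hp7⟩ := Finset.mem_filter.1 hp4
        obtain ⟨hp8, hp9⟩ := Finset.mem_filter.1 hp5
        rw [Finset.mem_filter, Finset.mem_product]
        refine ⟨⟨stretch_mem hL w t U h hn M γ hγ i _ hp6 hp7,
          stretch_mem hL w t U h hn M γ hγ i _ hp8 hp9⟩, ?_⟩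
        exact (lat_stretch hL' p.1 p.2 hp2 hp3).2
      · intro i _ i' _ hne
        rw [Function.onFun, Finset.disjoint_left]
        intro p hp hp'
        obtain ⟨hp1, -⟩ := Finset.mem_filter.1 hp
        obtain ⟨hp4, -⟩ := Finset.mem_product.1 hp1
        obtain ⟨hp6, hp7⟩ := Finset.mem_filter.1 hp4
        obtain ⟨hp1', -⟩ := Finset.mem_filter.1 hp'
        obtain ⟨hp4', -⟩ := Finset.mem_product.1 hp1'
        obtain ⟨hp6', -⟩ := Finset.mem_filter.1 hp4'
        exact hne (w_disj w t U h i i' p.1 hp6 hp6' hp7)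
    have hA3 : ∑ i, adjPairs ((Finset.univ.image (w i)).filter (fun x => cellc (L : ℤ) x ∈ U)) ≤
        r * (2 * d * (U.card * L ^ d)) := by
      refine (Finset.sum_le_sum (fun i _ => hA2 i)).trans ?_
      simp
    have hfin := Finset.sum_le_sum (fun i (_ : i ∈ (Finset.univ : Finset (Fin r))) => hsplit i)
    rw [Finset.sum_add_distrib, Finset.sum_add_distrib] at hfin
    have e : r * (2 * d * (U.card * L ^ d)) ≤ 4 * d * (r * (U.card * L ^ d)) := by
      have : 4 * d * (r * (U.card * L ^ d)) = 2 * (r * (2 * d * (U.card * L ^ d))) := by ring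
      omega
    omega

end Pool.Agent.Helper772.NC2
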