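import Mathlib
import Pool.Agent.Helper772.Defs
set_option autoImplicit false
namespace Pool.Agent.Helper772.P


/-- Reachability transfers to the induced graph on the non-isolated vertices. -/
theorem cwoc_induce_reachable {V : Type} (G : SimpleGraph V) {u v : V} (p : G.Walk u v) :
    ∀ (hu : u ∈ {v : V | ∃ w, G.Adj v w}) (hv : v ∈ {v : V | ∃ w, G.Adj v w}),
      (G.induce {v : V | ∃ w, G.Adj v w}).Reachable ⟨u, hu⟩ ⟨v, hv⟩ := by
  induction p with
  | nil => intro hu hv; exact SimpleGraph.Reachable.refl _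
  | @cons a b c hab q ih =>
    intro hu hv
    have hb : b ∈ {v : V | ∃ w, G.Adj v w} := ⟨a, hab.symm⟩
    have h1 : (G.induce {v : V | ∃ w, G.Adj v w}).Adj ⟨a, hu⟩ ⟨b, hb⟩ := by
      simpa [SimpleGraph.comap_adj] using hab
    exact h1.reachable.trans (ih hb hv)

/-- The induced graph on the non-isolated vertices is still a graph of cycles. -/
theorem cwoc_induce_isCycles {V : Type} (G : SimpleGraph V) (hcyc : G.IsCycles) :
    (G.induce {v : V | ∃ w, G.Adj v w}).IsCycles := by
  intro v hv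
  obtain ⟨w, hw⟩ := hv
  have hw' : G.Adj v.1 w.1 := hw
  have h2 := hcyc (v := v.1) ⟨w.1, hw'⟩
  rw [← h2]
  have : G.neighborSet v.1 = Subtype.val '' ((G.induce {v : V | ∃ w, G.Adj v w}).neighborSet v) := by
    ext x
    simp only [SimpleGraph.mem_neighborSet, Set.mem_image]
    constructor
    · intro hx
      exact ⟨⟨x, ⟨v.1, hx.symm⟩⟩, hx, rfl⟩
    · rintro ⟨y, hy, rfl⟩
      exact hy
  rw [this, Set.ncard_image_of_injective _ Subtype.val_injective]

/-- A finite connected graph all of whose non-isolated vertices have degree two is a cycle: it can be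
enumerated by a closed self-avoiding walk starting at any prescribed vertex. -/
theorem closed_walk_of_cycles {V : Type} (G : SimpleGraph V) (hcyc : G.IsCycles)
    (hfin : {v : V | ∃ w, G.Adj v w}.Finite)
    (hconn : ∀ u v, (∃ w, G.Adj u w) → (∃ w, G.Adj v w) → G.Reachable u v)
    (v₀ : V) (hv₀ : ∃ w, G.Adj v₀ w) :
    ∃ (M : ℕ) (w : Fin (M + 1) → V), 3 ≤ M ∧ M = {v : V | ∃ w, G.Adj v w}.ncard ∧
      w 0 = v₀ ∧ w (Fin.last M) = v₀ ∧
      Function.Injective (fun i : Fin M => w i.castSucc) ∧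
      (∀ i : Fin M, G.Adj (w i.castSucc) (w i.succ)) ∧
      (∀ u v, G.Adj u v → ∃ i : Fin M, s(u, v) = s(w i.castSucc, w i.succ)) ∧
      (∀ v, (∃ u, G.Adj v u) ↔ ∃ i : Fin M, w i.castSucc = v) := by
  classical
  have hF : Finite {v : V | ∃ w, G.Adj v w} := hfin
  have hcycH := cwoc_induce_isCycles G hcyc
  obtain ⟨w₀, hw₀⟩ := hv₀
  set H := G.induce {v : V | ∃ w, G.Adj v w} with hH
  let a : {v : V | ∃ w, G.Adj v w} := ⟨v₀, ⟨w₀, hw₀⟩⟩
  let b : {v : V | ∃ w, G.Adj v w} := ⟨w₀, ⟨v₀, hw₀.symm⟩⟩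
  have hab : H.Adj a b := hw₀
  obtain ⟨p, hp, hverts⟩ := hcycH.exists_cycle_toSubgraph_verts_eq_connectedComponentSupp
    (v := a) (c := H.connectedComponentMk a) (by simp) ⟨b, hab⟩
  have hall : ∀ x : {v : V | ∃ w, G.Adj v w}, x ∈ p.toSubgraph.verts := by
    intro x
    rw [hverts]
    rw [SimpleGraph.ConnectedComponent.mem_supp_iff, SimpleGraph.ConnectedComponent.eq]
    obtain ⟨q⟩ := hconn x.1 a.1 x.2 a.2
    exact cwoc_induce_reachable G q x.2 a.2
  have hlen : 3 ≤ p.length := hp.three_le_length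
  have hinj : Function.Injective (fun i : Fin p.length => p.getVert i.val) := by
    intro i j hij
    have := hp.getVert_injOn' (by simp; omega : i.val ∈ {i | i ≤ p.length - 1})
      (by simp; omega : j.val ∈ {i | i ≤ p.length - 1}) hij
    exact Fin.ext this
  have hsurj : ∀ x : {v : V | ∃ w, G.Adj v w}, ∃ i : Fin p.length, p.getVert i.val = x := by
    intro x
    have hx := hall x
    rw [SimpleGraph.Walk.mem_verts_toSubgraph, SimpleGraph.Walk.mem_support_iff_exists_getVert] at hx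
    obtain ⟨n, hn, hnl⟩ := hx
    rcases Nat.lt_or_ge n p.length with h | h
    · exact ⟨⟨n, h⟩, hn⟩
    · have : n = p.length := le_antisymm hnl h
      subst this
      refine ⟨⟨0, by omega⟩, ?_⟩
      rw [← hn]
      simp
  refine ⟨p.length, fun i => (p.getVert i.val).1, hlen, ?_, ?_, ?_, ?_, ?_, ?_, ?_⟩
  · have e : Function.Bijective (fun i : Fin p.length => p.getVert i.val) := ⟨hinj, hsurj⟩
    have := Nat.card_eq_of_bijective _ e
    rw [Nat.card_fin] at this
    rw [this]
    exact Nat.card_coe_set_eq _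
  · simp [a]
  · simp [a]
  · intro i j hij
    apply hinj
    exact Subtype.ext hij
  · intro i
    exact p.adj_getVert_succ i.2
  · intro u v huv
    have hu : u ∈ {v : V | ∃ w, G.Adj v w} := ⟨v, huv⟩
    have hv : v ∈ {v : V | ∃ w, G.Adj v w} := ⟨u, huv.symm⟩
    have hadjH : H.Adj ⟨u, hu⟩ ⟨v, hv⟩ := huv
    have hLF : H.LocallyFinite := fun x => Fintype.ofFinite _
    have hsub := (hp.adj_toSubgraph_iff_of_isCycles hcycH (hall ⟨u, hu⟩) ⟨v, hv⟩).mpr hadjH
    rw [SimpleGraph.Walk.toSubgraph_adj_iff] at hsub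
    obtain ⟨i, hi, hil⟩ := hsub
    refine ⟨⟨i, hil⟩, ?_⟩
    have := congrArg (Sym2.map Subtype.val) hi
    simp only [Sym2.map_mk] at this
    exact this.symm
  · intro v
    constructor
    · intro hv
      obtain ⟨i, hi⟩ := hsurj ⟨v, hv⟩
      exact ⟨i, by simpa using congrArg Subtype.val hi⟩
    · rintro ⟨i, rfl⟩
      exact (p.getVert i.val).2

end Pool.Agent.Helper772.P
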