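import Mathlib
import Pool.Agent.Helper772.Defs
import Pool.Agent.Helper772.A2
import Pool.Agent.Helper772.H2
import Pool.Agent.Helper772.P
import Pool.Agent.Helper772.Sa
import Pool.Agent.Helper772.Sb
import Pool.Agent.Helper772.CA
import Pool.Agent.Helper772.CB
import Pool.Agent.Helper772.CC
set_option autoImplicit false
namespace Pool.Agent.Helper772.SW

open Pool.Agent.Helper772.A2 (abstract_surgery)
open Pool.Agent.Helper772.H2 (rails_exist)
open Pool.Agent.Helper772.P (closed_walk_of_cycles)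
open Pool.Agent.Helper772.Sa (opp_gate Str_le_Lat Str_gate Str_degree)
open Pool.Agent.Helper772.Sb (Str_card)
open Pool.Agent.Helper772.CA (artificial_gates)
open Pool.Agent.Helper772.CB (pathG_degree active_parity)
open Pool.Agent.Helper772.CC (chain_connected)

theorem pathG_le {d r : ℕ} {n : Fin r → ℕ} (w : ∀ i, Fin (n i + 1) → Fin d → ℤ)
    (hstep : ∀ i (j : Fin (n i)), (Lat d).Adj (w i j.castSucc) (w i j.succ)) :
    pathG w ≤ Lat d := by
  intro x x' hxx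
  obtain ⟨_, i, j, hj⟩ := hxx
  rcases Sym2.eq_iff.1 hj with ⟨h1, h2⟩ | ⟨h1, h2⟩
  · rw [h1, h2]; exact hstep i j
  · rw [h1, h2]; exact (hstep i j).symm

theorem pathG_finite {d r : ℕ} {n : Fin r → ℕ} (w : ∀ i, Fin (n i + 1) → Fin d → ℤ) :
    {x : Fin d → ℤ | ∃ x', (pathG w).Adj x x'}.Finite := by
  apply Set.Finite.subset (s := ⋃ i : Fin r, Set.range (w i))
  · exact Set.finite_iUnion (fun i => Set.finite_range _)
  · rintro x ⟨x', _, i, j, hj⟩
    rw [Set.mem_iUnion]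
    refine ⟨i, ?_⟩
    rcases Sym2.eq_iff.1 hj with ⟨h1, _⟩ | ⟨h1, _⟩
    · exact ⟨_, h1.symm⟩
    · exact ⟨_, h1.symm⟩

/-- the polygon obtained by surgery, already enumerated as a closed walk with prescribed tile of its
root -/
theorem surgery_walk {d r : ℕ} [NeZero r] (hd : 2 ≤ d) {L : ℤ} (hL : 2 ≤ L) (hLe : Even L)
    {n k : Fin r → ℕ}
    (w : ∀ i, Fin (n i + 1) → Fin d → ℤ) (t : ∀ i, Fin (k i + 1) → Fin d → ℤ)
    (U : Set (Fin d → ℤ)) (h : ChainData L w t U)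
    (hU : ∀ b ∈ U, (∃ i j, b = t i j) ∨ (∃ i j, b = cellc L (w i j))) :
    ∃ (M : ℕ) (γ : Fin (M + 1) → Fin d → ℤ), 3 ≤ M ∧ γ (Fin.last M) = γ 0 ∧
      Function.Injective (fun i : Fin M => γ i.castSucc) ∧
      (∀ i : Fin M, ∑ a, |γ i.castSucc a - γ i.succ a| = 1) ∧
      tile L (γ 0) = t 0 0 ∧
      (∀ u v, (tile L u ∉ U ∨ tile L v ∉ U) →
        ((∃ i : Fin M, s(u, v) = s(γ i.castSucc, γ i.succ)) ↔ (Str L (pathG w)).Adj u v)) ∧
      (∀ b ∈ U, ∃ i, tile L (γ i) = b) := by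
  have hL0 : 0 < L := by omega
  have hFle := pathG_le w h.wstep
  have hFfin := pathG_finite w
  obtain ⟨A, hA1, hA2⟩ := artificial_gates hd hL (Ntot L w t) U
  choose W C m hr using fun b => rails_exist d hd L hL hLe b
  obtain ⟨G, hGΓ, hGc, hGf, _, hGconn, hGE, hGU, hGne⟩ :=
    abstract_surgery (Lat d) (tile L) (IsGate L) (opp L)
      (fun v hv => by
        obtain ⟨a, b, c, e, _⟩ := opp_gate hL0 v hv
        exact ⟨a, b, c, e⟩)
      (Str L (pathG w)) (Str_le_Lat hL0 _) (Str_card hL0 _ hFle hFfin).1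
      (fun u v huv ht => Str_gate hL0 _ u v huv ht)
      U h.Ufin ⟨_, h.tU 0 0⟩
      (fun v hv hne => Str_degree hL0 _ hFle (tile L v)
        (fun x hx hxne => pathG_degree hL w t U h x (by rw [hx]; exact hv) hxne) v rfl hne)
      A hA1
      (fun b hb => active_parity hL w t U h A hA1
        (fun b hb b' hb' hbb => (hA2 b hb b' hb' hbb).1) b hb)
      (fun α f g h1 h2 h3 => chain_connected hL w t U h hU A hA1
        (fun b hb b' hb' hbb hN => (hA2 b hb b' hb' hbb).2 hN) α f g h1 h2 h3)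
      W C m (fun b _ => hr b)
  obtain ⟨v₀, v₁, hv₀, hv₀a⟩ := hGne (t 0 0) (h.tU 0 0)
  obtain ⟨M, γ, hM3, _, hγ0, hγl, hγinj, hγadj, hγedge, hγsupp⟩ :=
    closed_walk_of_cycles G hGc hGf hGconn v₀ ⟨v₁, hv₀a⟩
  refine ⟨M, γ, hM3, by rw [hγl, hγ0], hγinj, fun i => hGΓ (hγadj i), by rw [hγ0, hv₀], ?_, ?_⟩
  · intro u v huv
    rw [← hGE u v huv]
    constructor
    · rintro ⟨i, hi⟩
      rcases Sym2.eq_iff.1 hi with ⟨h1, h2⟩ | ⟨h1, h2⟩
      · rw [h1, h2]; exact hγadj i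
      · rw [h1, h2]; exact (hγadj i).symm
    · intro hadj
      exact hγedge u v hadj
  · intro b hb
    obtain ⟨v, v', hv, hvv⟩ := hGne b hb
    obtain ⟨i, hi⟩ := (hγsupp v).1 ⟨v', hvv⟩
    exact ⟨i.castSucc, by rw [hi, hv]⟩

end Pool.Agent.Helper772.SW
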