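import Mathlib
import Pool.Agent.Helper772.Defs
import Pool.Agent.Helper772.HDefs
import Pool.Agent.Helper772.A2H
import Pool.Agent.Helper772.H2
import Pool.Agent.Helper772.P
import Pool.Agent.Helper772.Sa
import Pool.Agent.Helper772.Sb
import Pool.Agent.Helper772.CB
import Pool.Agent.Helper772.CC
import Pool.Agent.Helper772.SW
import Pool.Agent.Helper772.HB
import Pool.Agent.Helper772.HC
set_option autoImplicit false
namespace Pool.Agent.Helper772.SWH

open Pool.Agent.Helper772.A2H (abstract_surgery_strong)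
open Pool.Agent.Helper772.H2 (rails_exist)
open Pool.Agent.Helper772.P (closed_walk_of_cycles)
open Pool.Agent.Helper772.Sa (opp_gate Str_le_Lat Str_gate Str_degree)
open Pool.Agent.Helper772.Sb (Str_card)
open Pool.Agent.Helper772.CB (pathG_degree active_parity)
open Pool.Agent.Helper772.CC (chain_connected)
open Pool.Agent.Helper772.SW (pathG_le pathG_finite)
open Pool.Agent.Helper772.HB (rails_bottom)
open Pool.Agent.Helper772.HC (artificial_gates_H)

/-- heights of the support of the stretched graph -/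
theorem Str_height {L c : ℤ} (hL : 2 ≤ L) (hc : 0 ≤ c) (hc' : c < L)
    (F : SimpleGraph (Fin 3 → ℤ)) (hF : ∀ x x', F.Adj x x' → c ≤ x 2)
    (u v : Fin 3 → ℤ) (h : (Str L F).Adj u v) : c + 2 ≤ u 2 := by
  -- if `contract L y` has height at least `c` then `y` has height at least `c + 2`
  have key : ∀ y : Fin 3 → ℤ, c ≤ contract L y 2 → c + 2 ≤ y 2 := by
    intro y hy
    unfold contract at hy
    have h1 := Int.emod_add_mul_ediv (y 2) (L + 4)
    have h2 := Int.emod_nonneg (y 2) (by omega : (L + 4) ≠ 0)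
    have h3 := Int.emod_lt_of_pos (y 2) (by omega : 0 < L + 4)
    have hlo : max (-1) (min (L - 1) (y 2 % (L + 4) - 2)) ≤ L - 1 := by
      apply max_le (by omega) (min_le_left _ _)
    rcases lt_trichotomy (y 2 / (L + 4)) 0 with h4 | h4 | h4
    · exfalso
      have h5 : y 2 / (L + 4) * L ≤ -L := by nlinarith
      omega
    · rw [h4] at hy h1
      have h6 : c ≤ max (-1) (min (L - 1) (y 2 % (L + 4) - 2)) := by omega
      rcases le_max_iff.1 h6 with h7 | h7
      · omega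
      · have h8 := (le_min_iff.1 h7).2
        omega
    · have h5 : (L + 4) ≤ (L + 4) * (y 2 / (L + 4)) := by nlinarith
      omega
  obtain ⟨a, h1 | h1⟩ := h
  · exact key u (hF _ _ h1.2.2)
  · -- `u` is the upper end: `F.Adj (contract L v) (contract L v + e_a)`
    have h2 := hF _ _ h1.2.2
    have h3 := key v h2
    by_cases ha : (2 : Fin 3) = a
    · have h4 := h1.2.1
      rw [← ha] at h4
      omega
    · have h4 := (h1.1 2 ha).1
      omega

/-- transport of rails from the full lattice to the half space for tiles above the bottom layer -/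
theorem rails_upper {L c : ℤ} (hL : 2 ≤ L) (hLe : Even L) (hc' : c < L)
    (b : Fin 3 → ℤ) (hb : 1 ≤ b 2) :
    ∃ (W C : List (Fin 3 → ℤ)) (m : ℕ → ℕ),
      Rails (LatH (c + 2)) (tile L) (fun v => IsGate L v ∧ c + 2 ≤ v 2) b W C m := by
  obtain ⟨W, C, m, h⟩ := rails_exist 3 (by norm_num) L hL hLe b
  have hh : ∀ v : Fin 3 → ℤ, tile L v = b → c + 2 ≤ v 2 := by
    intro v hv
    have h0 : v 2 / (L + 4) = b 2 := congrFun hv 2
    have h1 := Int.emod_add_mul_ediv (v 2) (L + 4)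
    have h2 := Int.emod_nonneg (v 2) (by omega : (L + 4) ≠ 0)
    rw [h0] at h1
    have h5 : (L + 4) ≤ (L + 4) * b 2 := by nlinarith
    omega
  have hW : ∀ v ∈ W, c + 2 ≤ v 2 := fun v hv => hh v (h.W_tile v hv)
  have hC : ∀ v ∈ C, c + 2 ≤ v 2 := fun v hv => hh v (h.C_tile v hv)
  refine ⟨W, C, m, ?_⟩
  refine
    { W_nodup := h.W_nodup
      W_adj := fun j hj => ⟨h.W_adj j hj, hW _ (List.getElem_mem _), hW _ (List.getElem_mem _)⟩
      W_tile := h.W_tile
      C_nodup := h.C_nodup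
      C_len := h.C_len
      C_adj := fun j hj => ⟨h.C_adj j hj, hC _ (List.getElem_mem _), hC _ (List.getElem_mem _)⟩
      C_close := fun x hx y hy =>
        ⟨h.C_close x hx y hy, hC _ (List.mem_of_getLast? hy), hC _ (List.mem_of_head? hx)⟩
      C_tile := h.C_tile
      disj := h.disj
      gates := fun v hv => h.gates v hv.1
      sq := fun j hj hg => ?_
      sq_sep := fun j j' h1 h2 g1 g2 => h.sq_sep j j' h1 h2 g1.1 g2.1 }
  obtain ⟨h', h1, h2⟩ := h.sq j hj hg.1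
  exact ⟨h', ⟨h1, hW _ (List.getElem_mem _), hC _ (List.getElem_mem _)⟩,
    ⟨h2, hW _ (List.getElem_mem _), hC _ (List.getElem_mem _)⟩⟩

/-- the polygon obtained by surgery in the half space, already enumerated as a closed walk; its root
lies in a prescribed connector tile at the wall, and on the wall -/
theorem surgery_walk_H {r : ℕ} [NeZero r] {L c : ℤ} (hL : 2 ≤ L) (hLe : Even L) (hc : 0 ≤ c)
    (hc' : c < L) {n k : Fin r → ℕ}
    (w : ∀ i, Fin (n i + 1) → Fin 3 → ℤ) (t : ∀ i, Fin (k i + 1) → Fin 3 → ℤ)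
    (U : Set (Fin 3 → ℤ)) (h : ChainData L w t U)
    (hU : ∀ b ∈ U, (∃ i j, b = t i j) ∨ (∃ i j, b = cellc L (w i j)))
    (hw : ∀ i j, c ≤ w i j 2) (ht : ∀ i j, 0 ≤ t i j 2)
    (i₀ : Fin r) (j₀ : Fin (k i₀ + 1)) (h0 : t i₀ j₀ 2 = 0) :
    ∃ (M : ℕ) (γ : Fin (M + 1) → Fin 3 → ℤ), 3 ≤ M ∧ γ (Fin.last M) = γ 0 ∧
      Function.Injective (fun i : Fin M => γ i.castSucc) ∧
      (∀ i : Fin M, ∑ a, |γ i.castSucc a - γ i.succ a| = 1) ∧
      tile L (γ 0) = t i₀ j₀ ∧ γ 0 2 = c + 2 ∧ (∀ i, c + 2 ≤ γ i 2) ∧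
      (∀ u v, (tile L u ∉ U ∨ tile L v ∉ U) →
        ((∃ i : Fin M, s(u, v) = s(γ i.castSucc, γ i.succ)) ↔ (Str L (pathG w)).Adj u v)) ∧
      (∀ b ∈ U, ∃ i, tile L (γ i) = b) := by
  have hL0 : 0 < L := by omega
  have hFle := pathG_le w h.wstep
  have hFfin := pathG_finite w
  have hFh : ∀ x x', (pathG w).Adj x x' → c ≤ x 2 := by
    rintro x x' ⟨_, i, j, hj⟩
    rcases Sym2.eq_iff.1 hj with ⟨h1, _⟩ | ⟨h1, _⟩
    · rw [h1]; exact hw _ _
    · rw [h1]; exact hw _ _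
  have hSh := Str_height hL hc hc' (pathG w) hFh
  have hUh : ∀ b ∈ U, 0 ≤ b 2 := by
    intro b hb
    rcases hU b hb with ⟨i, j, rfl⟩ | ⟨i, j, rfl⟩
    · exact ht i j
    · exact Int.ediv_nonneg (by have := hw i j; omega) hL0.le
  obtain ⟨A, hA1, hAh, hA2⟩ := artificial_gates_H hL hc hc' (Ntot L w t) U hUh
  have hrl : ∀ b : Fin 3 → ℤ, ∃ (W C : List (Fin 3 → ℤ)) (m : ℕ → ℕ), 0 ≤ b 2 →
      Rails (LatH (c + 2)) (tile L) (fun v => IsGate L v ∧ c + 2 ≤ v 2) b W C m ∧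
        (b 2 = 0 → ∃ v ∈ C, v 2 = c + 2) := by
    intro b
    rcases lt_trichotomy (b 2) 0 with hb | hb | hb
    · exact ⟨[], [], fun _ => 0, fun h => absurd h (by omega)⟩
    · obtain ⟨W, C, m, h1, h2⟩ := rails_bottom L c hL hLe hc hc' b hb
      exact ⟨W, C, m, fun _ => ⟨h1, fun _ => h2⟩⟩
    · obtain ⟨W, C, m, h1⟩ := rails_upper hL hLe hc' b hb
      exact ⟨W, C, m, fun _ => ⟨h1, fun h => absurd h (by omega)⟩⟩
  choose W C m hr using hrl
  have hpar : ∀ b ∈ U, Even ({v : Fin 3 → ℤ | (IsGate L v ∧ c + 2 ≤ v 2) ∧ tile L v = b ∧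
      (((Str L (pathG w)).Adj v (opp L v) ∧ tile L (opp L v) ∉ U) ∨ A v)}.ncard) := by
    intro b hb
    have h1 := active_parity hL w t U h A hA1
        (fun b hb b' hb' hbb => (hA2 b hb b' hb' hbb).1) b hb
    have h2 : {v : Fin 3 → ℤ | (IsGate L v ∧ c + 2 ≤ v 2) ∧ tile L v = b ∧
        (((Str L (pathG w)).Adj v (opp L v) ∧ tile L (opp L v) ∉ U) ∨ A v)} =
        {v : Fin 3 → ℤ | IsGate L v ∧ tile L v = b ∧
          (((Str L (pathG w)).Adj v (opp L v) ∧ tile L (opp L v) ∉ U) ∨ A v)} := by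
      ext v
      simp only [Set.mem_setOf_eq]
      constructor
      · rintro ⟨⟨h3, _⟩, h4, h5⟩
        exact ⟨h3, h4, h5⟩
      · rintro ⟨h3, h4, h5⟩
        refine ⟨⟨h3, ?_⟩, h4, h5⟩
        rcases h5 with ⟨h5, _⟩ | h5
        · exact hSh _ _ h5
        · exact hAh v h5
    rw [h2]
    exact h1
  obtain ⟨G, hGΓ, hGc, hGf, _, hGconn, hGE, hGU, hGne⟩ :=
    abstract_surgery_strong (LatH (c + 2)) (tile L) (fun v => IsGate L v ∧ c + 2 ≤ v 2) (opp L)
      (fun v hv => by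
        obtain ⟨a, b, e, f, _⟩ := opp_gate hL0 v hv.1
        have hh : c + 2 ≤ opp L v 2 := by
          have hv2 := hv.2
          have h1 := Int.emod_add_mul_ediv (v 2) (L + 4)
          unfold opp
          split_ifs with h2 h3
          · rw [h2] at h1
            rcases lt_trichotomy (v 2 / (L + 4)) 0 with h4 | h4 | h4
            · have : (L + 4) * (v 2 / (L + 4)) ≤ -(L + 4) := by nlinarith
              omega
            · rw [h4] at h1
              omega
            · have : (L + 4) ≤ (L + 4) * (v 2 / (L + 4)) := by nlinarith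
              omega
          · omega
          · exact hv2
        exact ⟨⟨a, hh⟩, b, e, f, hv.2, hh⟩)
      (Str L (pathG w))
      (fun u v huv => ⟨Str_le_Lat hL0 _ huv, hSh _ _ huv, hSh _ _ huv.symm⟩)
      (Str_card hL0 _ hFle hFfin).1
      (fun u v huv ht => by
        obtain ⟨h1, h2⟩ := Str_gate hL0 _ u v huv ht
        exact ⟨⟨h1, hSh _ _ huv⟩, h2⟩)
      U h.Ufin ⟨_, h.tU 0 0⟩
      (fun v hv hne => Str_degree hL0 _ hFle (tile L v)
        (fun x hx hxne => pathG_degree hL w t U h x (by rw [hx]; exact hv) hxne) v rfl hne)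
      A (fun v hv => by
        obtain ⟨h1, h2, h3, h4⟩ := hA1 v hv
        exact ⟨⟨h1, hAh v hv⟩, h2, h3, h4⟩)
      hpar
      (fun α f g h1 h2 h3 => chain_connected hL w t U h hU A hA1
        (fun b hb b' hb' hbb hN => (hA2 b hb b' hb' hbb).2 hN) α f g h1 h2 h3)
      W C m (fun b hb => (hr b (hUh b hb)).1)
  obtain ⟨v₀, hv₀C, hv₀h⟩ := (hr (t i₀ j₀) (ht i₀ j₀)).2 h0
  obtain ⟨v₁, hv₀a⟩ := hGne (t i₀ j₀) (h.tU i₀ j₀) v₀ hv₀C
  have hv₀ : tile L v₀ = t i₀ j₀ := (hr (t i₀ j₀) (ht i₀ j₀)).1.C_tile v₀ hv₀C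
  obtain ⟨M, γ, hM3, _, hγ0, hγl, hγinj, hγadj, hγedge, hγsupp⟩ :=
    closed_walk_of_cycles G hGc hGf hGconn v₀ ⟨v₁, hv₀a⟩
  refine ⟨M, γ, hM3, by rw [hγl, hγ0], hγinj, fun i => (hGΓ (hγadj i)).1, by rw [hγ0, hv₀],
    by rw [hγ0, hv₀h], ?_, ?_, ?_⟩
  · intro i
    by_cases hi : i = Fin.last M
    · rw [hi, hγl, hv₀h]
    · obtain ⟨j, rfl⟩ := Fin.exists_castSucc_eq.2 hi
      exact (hGΓ (hγadj j)).2.1
  · intro u v huv
    rw [← hGE u v huv]
    constructor
    · rintro ⟨i, hi⟩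
      rcases Sym2.eq_iff.1 hi with ⟨h1, h2⟩ | ⟨h1, h2⟩
      · rw [h1, h2]; exact hγadj i
      · rw [h1, h2]; exact (hγadj i).symm
    · intro hadj
      exact hγedge u v hadj
  · intro b hb
    have hCl := (hr b (hUh b hb)).1.C_len
    obtain ⟨v, hvC⟩ := List.exists_mem_of_length_pos (by omega : 0 < (C b).length)
    obtain ⟨i, hi⟩ := (hγsupp v).1 (hGne b hb v hvC)
    exact ⟨i.castSucc, by rw [hi]; exact (hr b (hUh b hb)).1.C_tile v hvC⟩

end Pool.Agent.Helper772.SWH
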