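import Mathlib
import Pool.Agent.Helper772.Defs
import Pool.Agent.Helper772.HDefs
import Pool.Agent.Helper772.W
set_option autoImplicit false
namespace Pool.Agent.Helper772.HR1

open Pool.Agent.Helper772.W (adjPairs_le adjPairs_saw adjPairs_union_le mem_polySet mem_sawSet)

open Filter Topology

/-! Given results (proved elsewhere, use as black boxes). -/

/-! Targets. -/

/-- constant of the truncation inequality -/
noncomputable def HCst (ζ g : ℝ) : ℝ := 27 * Real.exp (|ζ| + 6 * |g|)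

theorem one_le_HCst (ζ g : ℝ) : 1 ≤ HCst ζ g := by
  unfold HCst
  have h2 : (1 : ℝ) ≤ Real.exp (|ζ| + 6 * |g|) := Real.one_le_exp (by positivity)
  linarith

theorem exp_le_HCst (ζ g : ℝ) : Real.exp |g| ≤ HCst ζ g := by
  unfold HCst
  have h2 : Real.exp |g| ≤ Real.exp (|ζ| + 6 * |g|) :=
    Real.exp_le_exp.mpr (by nlinarith [abs_nonneg ζ, abs_nonneg g])
  have h3 : 0 < Real.exp (|ζ| + 6 * |g|) := Real.exp_pos _
  linarith

theorem ZH_nonneg (ζ g : ℝ) (n : ℕ) : 0 ≤ ZH ζ g n := by
  unfold ZH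
  exact Finset.sum_nonneg (fun _ _ => (Real.exp_pos _).le)

theorem mul_le_abs_mul (a x b : ℝ) (hx : |x| ≤ b) : a * x ≤ |a| * b := by
  calc a * x ≤ |a * x| := le_abs_self _
    _ = |a| * |x| := abs_mul a x
    _ ≤ |a| * b := mul_le_mul_of_nonneg_left hx (abs_nonneg a)

theorem wallc_mono (c : ℤ) {S T : Finset (Fin 3 → ℤ)} (h : S ⊆ T) : wallc c S ≤ wallc c T := by
  unfold wallc
  exact Finset.card_le_card (Finset.filter_subset_filter _ h)

theorem wallc_union_singleton (c : ℤ) (S : Finset (Fin 3 → ℤ)) (x : Fin 3 → ℤ) :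
    wallc c (S ∪ {x}) ≤ wallc c S + 1 := by
  unfold wallc
  rw [Finset.filter_union]
  refine (Finset.card_union_le _ _).trans ?_
  have h : (Finset.filter (fun x => x 2 = c) ({x} : Finset (Fin 3 → ℤ))).card ≤ 1 := by
    refine (Finset.card_filter_le _ _).trans ?_
    rw [Finset.card_singleton]
  omega

theorem adjPairs_mono {d : ℕ} {S T : Finset (Fin d → ℤ)} (h : S ⊆ T) :
    adjPairs S ≤ adjPairs T := by
  unfold adjPairs
  exact Finset.card_le_card (Finset.filter_subset_filter _ (Finset.product_subset_product h h))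

theorem ZH_succ_le (ζ g : ℝ) (n : ℕ) :
    ZH ζ g (n + 1) ≤ HCst ζ g * ZH ζ g n := by
  classical
  let F : (Fin (n + 1 + 1) → Fin 3 → ℤ) → (Fin 3 → ℤ) × (Fin (n + 1) → Fin 3 → ℤ) :=
    fun w => (w (Fin.last (n + 1)) - w (Fin.last n).castSucc, fun i => w i.castSucc)
  let B : Finset (Fin 3 → ℤ) := Fintype.piFinset (fun _ : Fin 3 => Finset.Icc (-1 : ℤ) 1)
  have hBcard : (B.card : ℝ) = 27 := by
    have h : B.card = 27 := by
      simp only [B, Fintype.card_piFinset, Int.card_Icc, Finset.prod_const, Finset.card_univ,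
        Fintype.card_fin]
      rfl
    rw [h]
    norm_num
  have hmap : ∀ w ∈ (sawSet 3 (n + 1)).filter (fun ω => ∀ j, 0 ≤ ω j 2),
      F w ∈ B ×ˢ ((sawSet 3 n).filter (fun ω => ∀ j, 0 ≤ ω j 2)) := by
    intro w hw
    rw [Finset.mem_filter, mem_sawSet] at hw
    obtain ⟨⟨h0, hinj, hstep⟩, hpos⟩ := hw
    rw [Finset.mem_product]
    constructor
    · simp only [F, B, Fintype.mem_piFinset, Finset.mem_Icc]
      intro k
      have h1 := hstep (Fin.last n)
      have h2 : |w (Fin.last n).castSucc k - w (Fin.last n).succ k| ≤ 1 := by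
        rw [← h1]
        exact Finset.single_le_sum (f := fun k => |w (Fin.last n).castSucc k - w (Fin.last n).succ k|)
          (fun _ _ => abs_nonneg _) (Finset.mem_univ k)
      rw [Fin.succ_last] at h2
      rw [abs_le] at h2
      have h3 : w (Fin.last n.succ) k = w (Fin.last (n + 1)) k := rfl
      rw [h3] at h2
      simp only [Pi.sub_apply]
      omega
    · rw [Finset.mem_filter, mem_sawSet]
      refine ⟨⟨?_, ?_, ?_⟩, ?_⟩
      · simp only [F]
        exact h0
      · intro a b hab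
        simp only [F] at hab
        exact Fin.castSucc_injective _ (hinj hab)
      · intro i
        simp only [F]
        exact hstep i.castSucc
      · intro j
        simp only [F]
        exact hpos j.castSucc
  have hinjF : Set.InjOn F (((sawSet 3 (n + 1)).filter (fun ω => ∀ j, 0 ≤ ω j 2) :
      Finset (Fin (n + 1 + 1) → Fin 3 → ℤ)) : Set (Fin (n + 1 + 1) → Fin 3 → ℤ)) := by
    intro w _ w' _ h
    simp only [F, Prod.mk.injEq] at h
    obtain ⟨h1, h2⟩ := h
    have h3 : ∀ i : Fin (n + 1), w i.castSucc = w' i.castSucc := fun i => congrFun h2 i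
    funext i
    refine Fin.lastCases ?_ (fun i => h3 i) i
    have h4 := h3 (Fin.last n)
    rw [h4] at h1
    exact sub_left_injective h1
  let G : (Fin 3 → ℤ) × (Fin (n + 1) → Fin 3 → ℤ) → ℝ := fun p =>
    Real.exp (|ζ| + 6 * |g|) * Real.exp (ζ * wallc 0 (Finset.univ.image p.2) +
      g * ((adjPairs (Finset.univ.image p.2) : ℝ) / 2 - n))
  have hle : ∀ w ∈ (sawSet 3 (n + 1)).filter (fun ω => ∀ j, 0 ≤ ω j 2),
      Real.exp (ζ * wallc 0 (Finset.univ.image w) +
        g * ((adjPairs (Finset.univ.image w) : ℝ) / 2 - (n + 1 : ℕ))) ≤ G (F w) := by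
    intro w hw
    simp only [G, F]
    rw [← Real.exp_add]
    apply Real.exp_le_exp.mpr
    have himg : (Finset.univ.image w) =
        (Finset.univ.image (fun i : Fin (n + 1) => w i.castSucc)) ∪ {w (Fin.last (n + 1))} := by
      ext x
      simp only [Finset.mem_image, Finset.mem_univ, true_and, Finset.mem_union,
        Finset.mem_singleton]
      constructor
      · rintro ⟨i, hi⟩
        revert hi
        refine Fin.lastCases ?_ (fun i => ?_) i
        · intro hi; right; exact hi.symm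
        · intro hi; left; exact ⟨i, hi⟩
      · rintro (⟨i, hi⟩ | hi)
        · exact ⟨_, hi⟩
        · exact ⟨_, hi.symm⟩
    have h1 := adjPairs_union_le 3 (Finset.univ.image (fun i : Fin (n + 1) => w i.castSucc))
      {w (Fin.last (n + 1))}
    have h1' := adjPairs_mono (Finset.subset_union_left
      (s₁ := Finset.univ.image (fun i : Fin (n + 1) => w i.castSucc))
      (s₂ := {w (Fin.last (n + 1))}))
    have h2 := wallc_union_singleton 0 (Finset.univ.image (fun i : Fin (n + 1) => w i.castSucc))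
      (w (Fin.last (n + 1)))
    have h2' := wallc_mono 0 (Finset.subset_union_left
      (s₁ := Finset.univ.image (fun i : Fin (n + 1) => w i.castSucc))
      (s₂ := {w (Fin.last (n + 1))}))
    rw [← himg, Finset.card_singleton, mul_one] at h1
    rw [← himg] at h1' h2 h2'
    generalize adjPairs (Finset.univ.image w) = A at h1 h1'
    generalize adjPairs (Finset.univ.image (fun i : Fin (n + 1) => w i.castSucc)) = A' at h1 h1'
    generalize wallc 0 (Finset.univ.image w) = W at h2 h2'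
    generalize wallc 0 (Finset.univ.image (fun i : Fin (n + 1) => w i.castSucc)) = W' at h2 h2'
    have a1 : (A : ℝ) ≤ (A' : ℝ) + 12 := by exact_mod_cast h1
    have a2 : (A' : ℝ) ≤ (A : ℝ) := by exact_mod_cast h1'
    have a3 : (W : ℝ) ≤ (W' : ℝ) + 1 := by exact_mod_cast h2
    have a4 : (W' : ℝ) ≤ (W : ℝ) := by exact_mod_cast h2'
    have b1 : ζ * ((W : ℝ) - W') ≤ |ζ| * 1 :=
      mul_le_abs_mul _ _ _ (by rw [abs_le]; constructor <;> linarith)
    have b2 : g * (((A : ℝ) - A') / 2 - 1) ≤ |g| * 6 :=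
      mul_le_abs_mul _ _ _ (by rw [abs_le]; constructor <;> linarith)
    push_cast
    nlinarith [b1, b2]
  calc ZH ζ g (n + 1) ≤ ∑ w ∈ (sawSet 3 (n + 1)).filter (fun ω => ∀ j, 0 ≤ ω j 2), G (F w) := by
        unfold ZH
        exact Finset.sum_le_sum hle
    _ = ∑ p ∈ ((sawSet 3 (n + 1)).filter (fun ω => ∀ j, 0 ≤ ω j 2)).image F, G p := by
        rw [Finset.sum_image hinjF]
    _ ≤ ∑ p ∈ B ×ˢ ((sawSet 3 n).filter (fun ω => ∀ j, 0 ≤ ω j 2)), G p := by
        apply Finset.sum_le_sum_of_subset_of_nonneg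
        · intro p hp
          rw [Finset.mem_image] at hp
          obtain ⟨w, hw, rfl⟩ := hp
          exact hmap w hw
        · intro p _ _
          simp only [G]
          positivity
    _ = HCst ζ g * ZH ζ g n := by
        rw [Finset.sum_product]
        simp only [G]
        rw [Finset.sum_const, nsmul_eq_mul, hBcard, ← Finset.mul_sum]
        unfold HCst ZH
        ring

/-- forgetting the last `j` steps of a walk -/
theorem ZH_add_le' (ζ g : ℝ) (n j : ℕ) : ZH ζ g (n + j) ≤ HCst ζ g ^ j * ZH ζ g n := by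
  induction j with
  | zero => simp
  | succ j ih =>
    have h1 := ZH_succ_le ζ g (n + j)
    have h2 := one_le_HCst ζ g
    calc ZH ζ g (n + (j + 1)) ≤ HCst ζ g * ZH ζ g (n + j) := h1
      _ ≤ HCst ζ g * (HCst ζ g ^ j * ZH ζ g n) :=
          mul_le_mul_of_nonneg_left ih (by linarith)
      _ = HCst ζ g ^ (j + 1) * ZH ζ g n := by ring

/-- forgetting the last `j` steps of a walk -/
theorem ZH_add_le (ζ g : ℝ) :
    ∃ C : ℝ, 1 ≤ C ∧ ∀ n j : ℕ, ZH ζ g (n + j) ≤ C ^ j * ZH ζ g n :=
  ⟨HCst ζ g, one_le_HCst ζ g, ZH_add_le' ζ g⟩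

theorem PH_succ_le_ZH (ζ g : ℝ) (m : ℕ) :
    PH ζ g (m + 1) ≤ Real.exp |g| * ZH ζ g m := by
  classical
  let F : (Fin (m + 1 + 1) → Fin 3 → ℤ) → (Fin (m + 1) → Fin 3 → ℤ) :=
    fun w => fun i => w i.castSucc
  have hmap : ∀ w ∈ (polySet 3 (m + 1)).filter (fun ω => ∀ j, 0 ≤ ω j 2),
      F w ∈ (sawSet 3 m).filter (fun ω => ∀ j, 0 ≤ ω j 2) := by
    intro w hw
    rw [Finset.mem_filter, mem_polySet] at hw
    obtain ⟨⟨h0, hl, hinj, hstep⟩, hpos⟩ := hw
    rw [Finset.mem_filter, mem_sawSet]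
    refine ⟨⟨?_, ?_, ?_⟩, ?_⟩
    · simp only [F]
      exact h0
    · exact hinj
    · intro i
      simp only [F]
      exact hstep i.castSucc
    · intro j
      exact hpos j.castSucc
  have hinjF : Set.InjOn F (((polySet 3 (m + 1)).filter (fun ω => ∀ j, 0 ≤ ω j 2) :
      Finset (Fin (m + 1 + 1) → Fin 3 → ℤ)) : Set (Fin (m + 1 + 1) → Fin 3 → ℤ)) := by
    intro w hw w' hw' h
    rw [Finset.mem_coe, Finset.mem_filter, mem_polySet] at hw hw'
    have h3 : ∀ i : Fin (m + 1), w i.castSucc = w' i.castSucc := fun i => congrFun h i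
    funext i
    refine Fin.lastCases ?_ (fun i => h3 i) i
    rw [hw.1.2.1, hw'.1.2.1]
  let G : (Fin (m + 1) → Fin 3 → ℤ) → ℝ := fun p =>
    Real.exp |g| * Real.exp (ζ * wallc 0 (Finset.univ.image p) +
      g * ((adjPairs (Finset.univ.image p) : ℝ) / 2 - m))
  have hle : ∀ w ∈ (polySet 3 (m + 1)).filter (fun ω => ∀ j, 0 ≤ ω j 2),
      Real.exp (ζ * wallc 0 (Finset.univ.image w) +
        g * ((adjPairs (Finset.univ.image w) : ℝ) / 2 - (m + 1 : ℕ))) ≤ G (F w) := by
    intro w hw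
    rw [Finset.mem_filter, mem_polySet] at hw
    obtain ⟨⟨h0, hl, hinj, hstep⟩, hpos⟩ := hw
    simp only [G, F]
    rw [← Real.exp_add]
    apply Real.exp_le_exp.mpr
    have himg : (Finset.univ.image w) =
        (Finset.univ.image (fun i : Fin (m + 1) => w i.castSucc)) := by
      ext x
      simp only [Finset.mem_image, Finset.mem_univ, true_and]
      constructor
      · rintro ⟨i, hi⟩
        revert hi
        refine Fin.lastCases ?_ (fun i => ?_) i
        · intro hi
          refine ⟨0, ?_⟩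
          rw [← hi, hl]
          exact h0
        · intro hi; exact ⟨i, hi⟩
      · rintro ⟨i, hi⟩
        exact ⟨_, hi⟩
    rw [himg]
    have h5 := neg_abs_le g
    push_cast
    linarith
  calc PH ζ g (m + 1) ≤ ∑ w ∈ (polySet 3 (m + 1)).filter (fun ω => ∀ j, 0 ≤ ω j 2), G (F w) := by
        unfold PH
        exact Finset.sum_le_sum hle
    _ = ∑ p ∈ ((polySet 3 (m + 1)).filter (fun ω => ∀ j, 0 ≤ ω j 2)).image F, G p := by
        rw [Finset.sum_image hinjF]
    _ ≤ ∑ p ∈ (sawSet 3 m).filter (fun ω => ∀ j, 0 ≤ ω j 2), G p := by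
        apply Finset.sum_le_sum_of_subset_of_nonneg
        · intro p hp
          rw [Finset.mem_image] at hp
          obtain ⟨w, hw, rfl⟩ := hp
          exact hmap w hw
        · intro p _ _
          simp only [G]
          positivity
    _ = Real.exp |g| * ZH ζ g m := by
        unfold ZH
        simp only [G]
        rw [← Finset.mul_sum]

/-- a closed walk with `M` steps truncated to its first `j < M` steps -/
theorem PH_le_ZH (ζ g : ℝ) :
    ∃ C : ℝ, 1 ≤ C ∧ ∀ M j : ℕ, j < M → PH ζ g M ≤ C ^ (M - j) * ZH ζ g j := by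
  refine ⟨HCst ζ g, one_le_HCst ζ g, ?_⟩
  intro M j hj
  obtain ⟨m, rfl⟩ : ∃ m, M = m + 1 := ⟨M - 1, by omega⟩
  obtain ⟨r, rfl⟩ : ∃ r, m = j + r := ⟨m - j, by omega⟩
  have h1 := PH_succ_le_ZH ζ g (j + r)
  have h2 := ZH_add_le' ζ g j r
  have h3 : j + r + 1 - j = r + 1 := by omega
  rw [h3]
  have hC0 : 0 ≤ HCst ζ g := by linarith [one_le_HCst ζ g]
  calc PH ζ g (j + r + 1) ≤ Real.exp |g| * ZH ζ g (j + r) := h1
    _ ≤ HCst ζ g * ZH ζ g (j + r) :=
        mul_le_mul_of_nonneg_right (exp_le_HCst ζ g) (ZH_nonneg ζ g (j + r))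
    _ ≤ HCst ζ g * (HCst ζ g ^ r * ZH ζ g j) := mul_le_mul_of_nonneg_left h2 hC0
    _ = HCst ζ g ^ (r + 1) * ZH ζ g j := by ring

/-- some end point carries at least the average weight -/
theorem ZH_endpoint (ζ g : ℝ) (n : ℕ) :
    ∃ x : Fin 3 → ℤ, ZH ζ g n ≤ (2 * (n : ℝ) + 1) ^ 3 * Zpp ζ g n 0 x := by
  classical
  let B : Finset (Fin 3 → ℤ) := Fintype.piFinset (fun _ : Fin 3 => Finset.Icc (-(n : ℤ)) (n : ℤ))
  have hBcard : B.card = (2 * n + 1) ^ 3 := by
    simp only [B, Fintype.card_piFinset, Int.card_Icc, Finset.prod_const, Finset.card_univ,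
      Fintype.card_fin]
    congr 1
    omega
  have hmem : ∀ w ∈ (sawSet 3 n).filter (fun ω => ∀ j, 0 ≤ ω j 2), w (Fin.last n) ∈ B := by
    intro w hw
    have hw := (Finset.mem_filter.1 hw).1
    unfold sawSet at hw
    have h1 := (Finset.mem_filter.1 hw).1
    exact Fintype.mem_piFinset.1 h1 (Fin.last n)
  have hZ : ∀ x : Fin 3 → ℤ, Zpp ζ g n 0 x =
      ∑ ω ∈ ((sawSet 3 n).filter (fun ω => ∀ j, 0 ≤ ω j 2)).filter (fun ω => ω (Fin.last n) = x),
        Real.exp (ζ * wallc 0 (Finset.univ.image ω) +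
          g * ((adjPairs (Finset.univ.image ω) : ℝ) / 2 - n)) := by
    intro x
    unfold Zpp
    simp only [add_zero, sub_zero]
    apply Finset.sum_congr
    · ext ω
      simp only [Finset.mem_filter]
      tauto
    · intro ω _
      rfl
  have hsum : ZH ζ g n = ∑ x ∈ B, Zpp ζ g n 0 x := by
    rw [Finset.sum_congr rfl (fun x _ => hZ x)]
    unfold ZH
    have h := Finset.sum_fiberwise_of_maps_to
      (s := (sawSet 3 n).filter (fun ω => ∀ j, 0 ≤ ω j 2)) (t := B)
      (g := fun w => w (Fin.last n)) hmem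
      (fun ω => Real.exp (ζ * wallc 0 (Finset.univ.image ω) +
          g * ((adjPairs (Finset.univ.image ω) : ℝ) / 2 - n)))
    rw [← h]
  by_contra hcon
  push Not at hcon
  have hBne : B.Nonempty := by
    rw [← Finset.card_pos, hBcard]; positivity
  have hB0 : (0 : ℝ) < (2 * (n : ℝ) + 1) ^ 3 := by positivity
  have h1 : ∑ x ∈ B, (2 * (n : ℝ) + 1) ^ 3 * Zpp ζ g n 0 x < ∑ _x ∈ B, ZH ζ g n :=
    Finset.sum_lt_sum_of_nonempty hBne (fun x _ => hcon x)
  rw [← Finset.mul_sum, ← hsum, Finset.sum_const, nsmul_eq_mul, hBcard] at h1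
  push_cast at h1
  exact lt_irrefl _ h1

theorem adjPairs_translate_le {d : ℕ} (S S' : Finset (Fin d → ℤ)) (c : Fin d → ℤ)
    (h : ∀ x ∈ S, x - c ∈ S') : adjPairs S ≤ adjPairs S' := by
  unfold adjPairs
  apply Finset.card_le_card_of_injOn (fun p => (p.1 - c, p.2 - c))
  · intro p hp
    rw [Finset.mem_coe, Finset.mem_filter, Finset.mem_product] at hp
    rw [Finset.mem_coe, Finset.mem_filter, Finset.mem_product]
    refine ⟨⟨h _ hp.1.1, h _ hp.1.2⟩, ?_⟩
    rw [← hp.2]
    apply Finset.sum_congr rfl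
    intro i _
    simp
  · intro p _ q _ hpq
    simp only [Prod.mk.injEq, sub_left_inj] at hpq
    exact Prod.ext hpq.1 hpq.2

/-- the reversed walk, moved to the origin -/
def revW {n : ℕ} (ω : Fin (n + 1) → Fin 3 → ℤ) : Fin (n + 1) → Fin 3 → ℤ :=
  fun j => ω (Fin.rev j) - ω (Fin.last n)

theorem revW_mem {n : ℕ} {ω : Fin (n + 1) → Fin 3 → ℤ} (h : ω ∈ sawSet 3 n) :
    revW ω ∈ sawSet 3 n := by
  rw [mem_sawSet] at h ⊢
  obtain ⟨h0, hinj, hstep⟩ := h
  refine ⟨?_, ?_, ?_⟩
  · simp only [revW, Fin.rev_zero, sub_self]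
  · intro a b hab
    simp only [revW, sub_left_inj] at hab
    exact Fin.rev_injective (hinj hab)
  · intro i
    simp only [revW]
    have h1 := hstep (Fin.rev i)
    have e1 : Fin.rev (Fin.castSucc i) = (Fin.rev i).succ := Fin.rev_castSucc i
    have e2 : Fin.rev (Fin.succ i) = (Fin.rev i).castSucc := Fin.rev_succ i
    rw [e1, e2, ← h1]
    apply Finset.sum_congr rfl
    intro k _
    simp only [Pi.sub_apply]
    rw [abs_sub_comm]
    congr 1
    ring

theorem revW_last {n : ℕ} {ω : Fin (n + 1) → Fin 3 → ℤ} (h : ω ∈ sawSet 3 n) :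
    revW ω (Fin.last n) = - ω (Fin.last n) := by
  rw [mem_sawSet] at h
  simp only [revW, Fin.rev_last, h.1, zero_sub]

theorem revW_revW {n : ℕ} {ω : Fin (n + 1) → Fin 3 → ℤ} (h : ω ∈ sawSet 3 n) :
    revW (revW ω) = ω := by
  funext j
  have h1 := revW_last h
  show revW ω (Fin.rev j) - revW ω (Fin.last n) = ω j
  rw [h1]
  simp only [revW, Fin.rev_rev]
  abel

/-- reversal of walks -/
theorem Zpp_symm (ζ g : ℝ) (n : ℕ) (p q : Fin 3 → ℤ) : Zpp ζ g n p q = Zpp ζ g n q p := by
  classical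
  have himg : ∀ (p q : Fin 3 → ℤ) (ω : Fin (n + 1) → Fin 3 → ℤ), ω (Fin.last n) = q - p →
      ∀ j, revW ω j + q = ω (Fin.rev j) + p := by
    intro p q ω h j
    simp only [revW, h]
    abel
  have key : ∀ (p q : Fin 3 → ℤ) (ω : Fin (n + 1) → Fin 3 → ℤ),
      ω ∈ sawSet 3 n ∧ (ω (Fin.last n) = q - p ∧ ∀ j, 0 ≤ (ω j + p) 2) →
      revW ω ∈ sawSet 3 n ∧ (revW ω (Fin.last n) = p - q ∧ ∀ j, 0 ≤ (revW ω j + q) 2) := by
    intro p q ω ⟨h1, h2, h3⟩
    refine ⟨revW_mem h1, ?_, ?_⟩
    · rw [revW_last h1, h2]; abel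
    · intro j
      rw [himg p q ω h2 j]
      exact h3 _
  unfold Zpp
  refine Finset.sum_nbij' revW revW ?_ ?_ ?_ ?_ ?_
  · intro ω hω
    rw [Finset.mem_filter] at hω ⊢
    exact key p q ω hω
  · intro ω hω
    rw [Finset.mem_filter] at hω ⊢
    exact key q p ω hω
  · intro ω hω
    rw [Finset.mem_filter] at hω
    exact revW_revW hω.1
  · intro ω hω
    rw [Finset.mem_filter] at hω
    exact revW_revW hω.1
  · intro ω hω
    rw [Finset.mem_filter] at hω
    obtain ⟨h1, h2, h3⟩ := hω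
    have e1 : Finset.univ.image (fun j => revW ω j + q) =
        Finset.univ.image (fun j => ω j + p) := by
      ext x
      simp only [Finset.mem_image, Finset.mem_univ, true_and]
      constructor
      · rintro ⟨j, hj⟩
        exact ⟨Fin.rev j, by rw [← hj, himg p q ω h2 j]⟩
      · rintro ⟨j, hj⟩
        exact ⟨Fin.rev j, by rw [← hj, himg p q ω h2, Fin.rev_rev]⟩
    have e2 : adjPairs (Finset.univ.image (revW ω)) = adjPairs (Finset.univ.image ω) := by
      apply le_antisymm
      · apply adjPairs_translate_le _ _ (-ω (Fin.last n))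
        intro x hx
        rw [Finset.mem_image] at hx ⊢
        obtain ⟨j, _, rfl⟩ := hx
        refine ⟨Fin.rev j, Finset.mem_univ _, ?_⟩
        simp only [revW]
        abel
      · apply adjPairs_translate_le _ _ (ω (Fin.last n))
        intro x hx
        rw [Finset.mem_image] at hx ⊢
        obtain ⟨j, _, rfl⟩ := hx
        refine ⟨Fin.rev j, Finset.mem_univ _, ?_⟩
        simp only [revW, Fin.rev_rev]
    rw [e1, e2]

/-- the straight walk orthogonal to the wall -/
theorem ZH_lower (ζ g : ℝ) (n : ℕ) : Real.exp ζ ≤ ZH ζ g n := by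
  classical
  let w : Fin (n + 1) → Fin 3 → ℤ := fun j k => if k = 2 then (j.val : ℤ) else 0
  have hw2 : ∀ j, w j 2 = (j.val : ℤ) := fun j => if_pos rfl
  have hsumw : ∀ i j : Fin (n + 1), ∑ k, |w i k - w j k| = |(i.val : ℤ) - (j.val : ℤ)| := by
    intro i j
    rw [Finset.sum_eq_single 2]
    · rw [hw2, hw2]
    · intro k _ hk
      simp only [w, if_neg hk, sub_self, abs_zero]
    · intro h
      exact absurd (Finset.mem_univ _) h
  have hsaw : w ∈ sawSet 3 n := by
    rw [mem_sawSet]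
    refine ⟨?_, ?_, ?_⟩
    · funext k
      simp [w]
    · intro i j hij
      have h := congrFun hij 2
      rw [hw2, hw2] at h
      apply Fin.ext
      omega
    · intro i
      rw [hsumw]
      simp only [Fin.val_castSucc, Fin.val_succ]
      push_cast
      rw [show ((i.val : ℤ) - ((i.val : ℤ) + 1)) = -1 by ring]
      norm_num
  have hmem : w ∈ (sawSet 3 n).filter (fun ω => ∀ j, 0 ≤ ω j 2) := by
    rw [Finset.mem_filter]
    refine ⟨hsaw, ?_⟩
    intro j
    rw [hw2]
    positivity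
  have hadj := adjPairs_saw 3 n w hsaw
  have hz : ((Finset.univ : Finset (Fin (n + 1) × Fin (n + 1))).filter
            (fun p => p.1.val + 2 ≤ p.2.val ∧ ∑ j, |w p.1 j - w p.2 j| = 1)).card = 0 := by
    rw [Finset.card_eq_zero, Finset.filter_eq_empty_iff]
    rintro ⟨i, j⟩ _ ⟨h1, h2⟩
    simp only at h1 h2
    rw [hsumw, abs_eq (by norm_num)] at h2
    omega
  rw [hz] at hadj
  have hwall : wallc 0 (Finset.univ.image w) = 1 := by
    unfold wallc
    rw [Finset.card_eq_one]
    refine ⟨w 0, ?_⟩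
    ext x
    rw [Finset.mem_filter, Finset.mem_singleton, Finset.mem_image]
    constructor
    · rintro ⟨⟨j, _, rfl⟩, hj⟩
      rw [hw2] at hj
      have : j = 0 := by
        apply Fin.ext
        simp only [Fin.val_zero]
        omega
      rw [this]
    · rintro rfl
      refine ⟨⟨0, Finset.mem_univ _, rfl⟩, ?_⟩
      rw [hw2]
      simp
  have hval : Real.exp ζ = Real.exp (ζ * wallc 0 (Finset.univ.image w) +
      g * ((adjPairs (Finset.univ.image w) : ℝ) / 2 - n)) := by
    rw [hwall, hadj]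
    congr 1
    push_cast
    ring
  rw [hval]
  unfold ZH
  exact Finset.single_le_sum
    (f := fun ω => Real.exp (ζ * wallc 0 (Finset.univ.image ω) +
      g * ((adjPairs (Finset.univ.image ω) : ℝ) / 2 - n)))
    (fun w _ => (Real.exp_pos _).le) hmem

end Pool.Agent.Helper772.HR1
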