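import Mathlib
import Pool.Agent.Helper772.Defs
import Pool.Agent.Helper772.HDefs
import Pool.Agent.Helper772.W
set_option autoImplicit false
namespace Pool.Agent.Helper772.HR3

open Pool.Agent.Helper772.W (adjPairs_le adjPairs_union_le mem_polySet mem_sawSet)

open Filter Topology

/-! Given results (proved elsewhere, use as black boxes). -/

/-- periodic extension of a closed walk -/
noncomputable def per {d M : ℕ} (w : Fin (M + 1) → Fin d → ℤ) (a : ℤ) : Fin d → ℤ :=
  w (Fin.ofNat (M + 1) (a % (M : ℤ)).toNat)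

theorem per_congr {d M : ℕ} (w : Fin (M + 1) → Fin d → ℤ) {a b : ℤ}
    (h : a % (M : ℤ) = b % (M : ℤ)) : per w a = per w b := by
  unfold per; rw [h]

theorem per_add {d M : ℕ} (w : Fin (M + 1) → Fin d → ℤ) (a : ℤ) :
    per w (a + M) = per w a := per_congr w (by simp)

theorem per_sub {d M : ℕ} (w : Fin (M + 1) → Fin d → ℤ) (a : ℤ) :
    per w (a - M) = per w a := per_congr w (by simp)

theorem per_lt {d M : ℕ} (w : Fin (M + 1) → Fin d → ℤ) (i : ℕ) (hi : i < M) :
    per w i = w ⟨i, by omega⟩ := by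
  unfold per
  congr 1
  apply Fin.ext
  have h1 : ((i : ℤ) % (M : ℤ)) = i := Int.emod_eq_of_lt (by omega) (by omega)
  simp only [Fin.ofNat, h1, Int.toNat_natCast]
  exact Nat.mod_eq_of_lt (by omega)

theorem per_coe {d M : ℕ} (hM : 0 < M) (w : Fin (M + 1) → Fin d → ℤ)
    (hw : w ∈ polySet d M) (i : Fin (M + 1)) : per w (i : ℕ) = w i := by
  rw [mem_polySet] at hw
  obtain ⟨h0, hl, -, -⟩ := hw
  by_cases hi : (i : ℕ) < M
  · rw [per_lt w i hi]
  · have : i = Fin.last M := by
      apply Fin.ext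
      simp only [Fin.val_last]
      omega
    subst this
    rw [hl]
    simp only [Fin.val_last]
    have h2 := per_add w 0
    rw [zero_add] at h2
    rw [h2]
    have h3 := per_lt w 0 hM
    rw [show ((0 : ℕ) : ℤ) = 0 from rfl] at h3
    rw [h3]
    exact h0

theorem per_zero {d M : ℕ} (hM : 0 < M) (w : Fin (M + 1) → Fin d → ℤ)
    (hw : w ∈ polySet d M) : per w 0 = 0 := by
  have h := per_coe hM w hw 0
  rw [mem_polySet] at hw
  simpa [hw.1] using h

theorem exists_rep (M : ℕ) (hM : 0 < M) (a : ℤ) : ∃ i : ℕ, i < M ∧ ((i : ℤ) % (M : ℤ)) = a % M := by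
  refine ⟨(a % (M : ℤ)).toNat, ?_, ?_⟩
  · have := Int.emod_lt_of_pos a (by omega : (0 : ℤ) < M)
    have := Int.emod_nonneg a (by omega : (M : ℤ) ≠ 0)
    omega
  · have := Int.emod_nonneg a (by omega : (M : ℤ) ≠ 0)
    rw [Int.toNat_of_nonneg this]
    exact Int.emod_emod_of_dvd a (dvd_refl _)

theorem per_adj {d M : ℕ} (hM : 0 < M) (w : Fin (M + 1) → Fin d → ℤ)
    (hw : w ∈ polySet d M) (a : ℤ) : ∑ k, |per w a k - per w (a + 1) k| = 1 := by
  obtain ⟨i, hi, hia⟩ := exists_rep M hM a
  have h1 : per w a = per w (i : ℕ) := per_congr w hia.symm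
  have h2 : per w (a + 1) = per w ((i + 1 : ℕ) : ℤ) := per_congr w (by
    push_cast
    rw [Int.add_emod, ← hia, ← Int.add_emod])
  rw [h1, h2]
  have h3 := per_coe hM w hw ⟨i, by omega⟩
  have h4 := per_coe hM w hw ⟨i + 1, by omega⟩
  simp only at h3 h4
  rw [h3, h4]
  rw [mem_polySet] at hw
  exact hw.2.2.2 ⟨i, hi⟩

theorem per_inj {d M : ℕ} (hM : 0 < M) (w : Fin (M + 1) → Fin d → ℤ)
    (hw : w ∈ polySet d M) (a b : ℤ) (h : per w a = per w b) : a % (M : ℤ) = b % M := by
  obtain ⟨i, hi, hia⟩ := exists_rep M hM a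
  obtain ⟨j, hj, hjb⟩ := exists_rep M hM b
  rw [per_congr w hia.symm, per_congr w hjb.symm, per_lt w i hi, per_lt w j hj] at h
  rw [mem_polySet] at hw
  have h5 : (⟨i, hi⟩ : Fin M) = ⟨j, hj⟩ := hw.2.2.1 h
  have h6 : i = j := by simpa using h5
  rw [← hia, ← hjb, h6]

/-- unit step -/
theorem step_pos_zero {d : ℕ} (x y : Fin (d + 1) → ℤ) (h : ∑ k, |x k - y k| = 1)
    (h0 : x 0 ≠ y 0) : (∀ k, k ≠ 0 → x k = y k) ∧ |x 0 - y 0| = 1 := by
  have h1 : |x 0 - y 0| + ∑ k ∈ Finset.univ.erase 0, |x k - y k| = 1 := by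
    rw [Finset.add_sum_erase _ (fun k => |x k - y k|) (Finset.mem_univ 0)]
    exact h
  have h2 : 0 < |x 0 - y 0| := abs_pos.mpr (sub_ne_zero.mpr h0)
  have h3 : 0 ≤ ∑ k ∈ Finset.univ.erase 0, |x k - y k| :=
    Finset.sum_nonneg (fun _ _ => abs_nonneg _)
  have h4 : ∑ k ∈ Finset.univ.erase 0, |x k - y k| = 0 := by omega
  refine ⟨?_, by omega⟩
  intro k hk
  rw [Finset.sum_eq_zero_iff_of_nonneg (fun _ _ => abs_nonneg _)] at h4
  have := h4 k (by simp [hk])
  rw [abs_eq_zero] at this
  omega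

theorem exists_flat_edge {M : ℕ} (hM : 3 ≤ M) (w : Fin (M + 1) → Fin 3 → ℤ)
    (hw : w ∈ polySet 3 M) :
    ∃ i : ℕ, i < M ∧ per w (i : ℤ) 0 = per w ((i : ℤ) + 1) 0 ∧
      ∀ a : ℤ, per w a 0 ≤ per w (i : ℤ) 0 := by
  have hM0 : 0 < M := by omega
  obtain ⟨i0, -, hmax⟩ := Finset.exists_max_image (Finset.univ : Finset (Fin M))
    (fun i => per w (i : ℕ) 0) ⟨⟨0, hM0⟩, Finset.mem_univ _⟩
  have hmax' : ∀ a : ℤ, per w a 0 ≤ per w (i0 : ℕ) 0 := by
    intro a
    obtain ⟨i, hi, hia⟩ := exists_rep M hM0 a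
    rw [per_congr w hia.symm]
    exact hmax ⟨i, hi⟩ (Finset.mem_univ _)
  have hdir : per w (((i0 : ℕ) : ℤ) + 1) 0 = per w (i0 : ℕ) 0 ∨
      per w (((i0 : ℕ) : ℤ) + -1) 0 = per w (i0 : ℕ) 0 := by
    by_contra hcon
    push Not at hcon
    obtain ⟨hp, hn⟩ := hcon
    have a1 := per_adj hM0 w hw ((i0 : ℕ) : ℤ)
    have a2 := per_adj hM0 w hw (((i0 : ℕ) : ℤ) + -1)
    rw [show ((i0 : ℕ) : ℤ) + -1 + 1 = ((i0 : ℕ) : ℤ) by ring] at a2
    obtain ⟨b1, b2⟩ := step_pos_zero _ _ a1 (Ne.symm hp)
    obtain ⟨c1, c2⟩ := step_pos_zero _ _ a2 hn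
    have m1 := hmax' (((i0 : ℕ) : ℤ) + 1)
    have m2 := hmax' (((i0 : ℕ) : ℤ) + -1)
    have heq : per w (((i0 : ℕ) : ℤ) + 1) = per w (((i0 : ℕ) : ℤ) + -1) := by
      funext k
      by_cases hk : k = 0
      · subst hk
        rw [abs_of_nonneg (by omega)] at b2
        rw [abs_of_nonpos (by omega)] at c2
        omega
      · rw [← b1 k hk, c1 k hk]
    have h7 := per_inj hM0 w hw _ _ heq
    have h8 : (M : ℤ) ∣ 2 := by
      have := Int.ModEq.dvd (n := (M : ℤ)) (a := ((i0 : ℕ) : ℤ) + -1) (b := ((i0 : ℕ) : ℤ) + 1) h7.symm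
      rw [show ((i0 : ℕ) : ℤ) + 1 - (((i0 : ℕ) : ℤ) + -1) = 2 by ring] at this
      exact this
    have h9 := Int.le_of_dvd (by norm_num) h8
    omega
  rcases hdir with h1 | h1
  · exact ⟨i0, i0.isLt, h1.symm, hmax'⟩
  · obtain ⟨i, hi, hia⟩ := exists_rep M hM0 (((i0 : ℕ) : ℤ) + -1)
    have e1 : per w (i : ℤ) = per w (((i0 : ℕ) : ℤ) + -1) := per_congr w hia
    have e2 : per w ((i : ℤ) + 1) = per w ((i0 : ℕ) : ℤ) := per_congr w (by
      rw [Int.add_emod, hia, ← Int.add_emod]
      congr 1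
      ring)
    refine ⟨i, hi, ?_, ?_⟩
    · rw [e1, e2, h1]
    · intro a
      rw [e1, h1]
      exact hmax' a

/-- the vertices of the prolonged polygon -/
noncomputable def EE {M : ℕ} (w : Fin (M + 1) → Fin 3 → ℤ) (i h : ℕ) (j : ℕ) : Fin 3 → ℤ :=
  if j ≤ i then per w j
  else if j ≤ i + h then per w i + Pi.single 0 ((j : ℤ) - i)
  else if j ≤ i + 2 * h then per w ((i : ℤ) + 1) + Pi.single 0 ((i : ℤ) + 2 * h + 1 - j)
  else per w ((j : ℤ) - 2 * h)

theorem sum_single3 (x : Fin 3 → ℤ) (a b : ℤ) (hab : |a - b| = 1) :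
    ∑ k, |(x + Pi.single 0 a : Fin 3 → ℤ) k - (x + Pi.single 0 b : Fin 3 → ℤ) k| = 1 := by
  rw [Finset.sum_eq_single (0 : Fin 3)]
  · simp only [Pi.add_apply, Pi.single_eq_same]
    rw [show x 0 + a - (x 0 + b) = a - b by ring]
    exact hab
  · intro k _ hk
    simp [Pi.add_apply, Pi.single_eq_of_ne hk]
  · simp

theorem EE_inj {M : ℕ} (hM0 : 0 < M) (w : Fin (M + 1) → Fin 3 → ℤ) (hw : w ∈ polySet 3 M)
    (i h : ℕ) (hi : i < M) (hflat : per w (i : ℤ) 0 = per w ((i : ℤ) + 1) 0)
    (hmax : ∀ a : ℤ, per w a 0 ≤ per w (i : ℤ) 0) (a b : ℕ) (hb : b < M + 2 * h)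
    (hab : a ≤ b) (he : EE w i h a = EE w i h b) : a = b := by
  have hinj : ∀ a b : ℕ, a < M → b < M → per w (a : ℤ) = per w (b : ℤ) → a = b := by
    intro a b ha hb hab
    have h7 := per_inj hM0 w hw _ _ hab
    rw [Int.emod_eq_of_lt (by omega) (by omega), Int.emod_eq_of_lt (by omega) (by omega)] at h7
    exact_mod_cast h7
  have huv : per w ((i : ℤ) + 1) ≠ per w (i : ℤ) := by
    intro hc
    have := per_adj hM0 w hw (i : ℤ)
    rw [hc] at this
    simp at this
  unfold EE at he
  by_cases a1 : a ≤ i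
  · rw [if_pos a1] at he
    by_cases b1 : b ≤ i
    · rw [if_pos b1] at he
      exact hinj a b (by omega) (by omega) he
    · rw [if_neg b1] at he
      by_cases b2 : b ≤ i + h
      · exfalso
        rw [if_pos b2] at he
        have := congrFun he 0
        simp only [Pi.add_apply, Pi.single_eq_same] at this
        have := hmax a
        omega
      · rw [if_neg b2] at he
        by_cases b3 : b ≤ i + 2 * h
        · exfalso
          rw [if_pos b3] at he
          have := congrFun he 0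
          simp only [Pi.add_apply, Pi.single_eq_same] at this
          have := hmax a
          omega
        · rw [if_neg b3] at he
          have hc : ((b : ℤ) - 2 * h) = ((b - 2 * h : ℕ) : ℤ) := by omega
          rw [hc] at he
          have := hinj a (b - 2 * h) (by omega) (by omega) he
          omega
  · have b1 : ¬ b ≤ i := by omega
    rw [if_neg a1, if_neg b1] at he
    by_cases a2 : a ≤ i + h
    · rw [if_pos a2] at he
      by_cases b2 : b ≤ i + h
      · rw [if_pos b2] at he
        have := congrFun he 0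
        simp only [Pi.add_apply, Pi.single_eq_same] at this
        omega
      · rw [if_neg b2] at he
        by_cases b3 : b ≤ i + 2 * h
        · exfalso
          rw [if_pos b3] at he
          have h0 := congrFun he 0
          simp only [Pi.add_apply, Pi.single_eq_same] at h0
          have h1 : (a : ℤ) - i = (i : ℤ) + 2 * h + 1 - b := by omega
          rw [h1] at he
          exact huv (add_right_cancel he).symm
        · exfalso
          rw [if_neg b3] at he
          have := congrFun he 0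
          simp only [Pi.add_apply, Pi.single_eq_same] at this
          have := hmax ((b : ℤ) - 2 * h)
          omega
    · have b2 : ¬ b ≤ i + h := by omega
      rw [if_neg a2, if_neg b2] at he
      by_cases a3 : a ≤ i + 2 * h
      · rw [if_pos a3] at he
        by_cases b3 : b ≤ i + 2 * h
        · rw [if_pos b3] at he
          have := congrFun he 0
          simp only [Pi.add_apply, Pi.single_eq_same] at this
          omega
        · exfalso
          rw [if_neg b3] at he
          have := congrFun he 0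
          simp only [Pi.add_apply, Pi.single_eq_same] at this
          have := hmax ((b : ℤ) - 2 * h)
          omega
      · have b3 : ¬ b ≤ i + 2 * h := by omega
        rw [if_neg a3, if_neg b3] at he
        have hc : ((b : ℤ) - 2 * h) = ((b - 2 * h : ℕ) : ℤ) := by omega
        have hc' : ((a : ℤ) - 2 * h) = ((a - 2 * h : ℕ) : ℤ) := by omega
        rw [hc, hc'] at he
        have := hinj (a - 2 * h) (b - 2 * h) (by omega) (by omega) he
        omega

theorem EE_step {M : ℕ} (hM0 : 0 < M) (w : Fin (M + 1) → Fin 3 → ℤ) (hw : w ∈ polySet 3 M)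
    (i h : ℕ) (j : ℕ) : ∑ k, |EE w i h j k - EE w i h (j + 1) k| = 1 := by
  unfold EE
  by_cases j1 : j + 1 ≤ i
  · rw [if_pos j1, if_pos (by omega)]
    have := per_adj hM0 w hw (j : ℤ)
    push_cast
    exact this
  · rw [if_neg j1]
    by_cases j2 : j ≤ i
    · have hj : j = i := by omega
      subst hj
      rw [if_pos le_rfl]
      by_cases h0 : j + 1 ≤ j + h
      · rw [if_pos h0]
        have h6 := sum_single3 (per w (j : ℤ)) 0 (((j + 1 : ℕ) : ℤ) - j) (by
          push_cast
          rw [show (0 : ℤ) - ((j : ℤ) + 1 - j) = -1 by ring]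
          norm_num)
        rw [Pi.single_zero, add_zero] at h6
        exact h6
      · rw [if_neg h0, if_neg (by omega)]
        have hh : h = 0 := by omega
        subst hh
        have := per_adj hM0 w hw (j : ℤ)
        rw [show (((j + 1 : ℕ) : ℤ) - 2 * ((0 : ℕ) : ℤ)) = (j : ℤ) + 1 by push_cast; ring]
        exact this
    · rw [if_neg j2]
      by_cases j3 : j + 1 ≤ i + h
      · rw [if_pos j3, if_pos (by omega)]
        apply sum_single3
        push_cast
        rw [show (j : ℤ) - i - (j + 1 - i) = -1 by ring]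
        norm_num
      · rw [if_neg j3]
        by_cases j4 : j ≤ i + h
        · have hj : j = i + h := by omega
          rw [if_pos j4, if_pos (by omega)]
          have h5 : (i : ℤ) + 2 * h + 1 - ((j + 1 : ℕ) : ℤ) = (j : ℤ) - i := by
            push_cast; omega
          rw [h5]
          have h13 := per_adj hM0 w hw (i : ℤ)
          refine (Finset.sum_congr rfl (fun k _ => ?_)).trans h13
          simp only [Pi.add_apply, add_sub_add_right_eq_sub]
        · rw [if_neg j4]
          by_cases j5 : j + 1 ≤ i + 2 * h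
          · rw [if_pos j5, if_pos (by omega)]
            apply sum_single3
            push_cast
            rw [show (i : ℤ) + 2 * h + 1 - j - (i + 2 * h + 1 - (j + 1)) = 1 by ring]
            norm_num
          · rw [if_neg j5]
            by_cases j6 : j ≤ i + 2 * h
            · rw [if_pos j6]
              have hj : j = i + 2 * h := by omega
              have h6 := sum_single3 (per w ((i : ℤ) + 1)) 1 0 (by norm_num)
              rw [Pi.single_zero, add_zero] at h6
              have e1 : (i : ℤ) + 2 * h + 1 - j = 1 := by omega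
              have e2 : ((j + 1 : ℕ) : ℤ) - 2 * h = (i : ℤ) + 1 := by push_cast; omega
              rw [e1, e2]
              exact h6
            · rw [if_neg j6]
              have := per_adj hM0 w hw ((j : ℤ) - 2 * h)
              rw [show (((j + 1 : ℕ) : ℤ) - 2 * h) = (j : ℤ) - 2 * h + 1 by push_cast; ring]
              exact this

theorem EE_mem {M : ℕ} (hM0 : 0 < M) (w : Fin (M + 1) → Fin 3 → ℤ) (hw : w ∈ polySet 3 M)
    (i h : ℕ) (hi : i < M) (hflat : per w (i : ℤ) 0 = per w ((i : ℤ) + 1) 0)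
    (hmax : ∀ a : ℤ, per w a 0 ≤ per w (i : ℤ) 0) :
    (fun j : Fin (M + 2 * h + 1) => EE w i h j) ∈ polySet 3 (M + 2 * h) := by
  rw [mem_polySet]
  refine ⟨?_, ?_, ?_, ?_⟩
  · show EE w i h 0 = 0
    unfold EE
    rw [if_pos (Nat.zero_le _)]
    exact per_zero hM0 w hw
  · show EE w i h (M + 2 * h) = 0
    unfold EE
    rw [if_neg (by omega), if_neg (by omega), if_neg (by omega)]
    rw [show (((M + 2 * h : ℕ) : ℤ) - 2 * h) = 0 + (M : ℤ) by push_cast; ring, per_add]
    exact per_zero hM0 w hw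
  · intro a b hab
    apply Fin.ext
    have ha := a.isLt
    have hb := b.isLt
    rcases le_total (a : ℕ) (b : ℕ) with hle | hle
    · exact EE_inj hM0 w hw i h hi hflat hmax a b hb hle hab
    · exact (EE_inj hM0 w hw i h hi hflat hmax b a ha hle hab.symm).symm
  · intro j
    exact EE_step hM0 w hw i h j

theorem EE_low {M : ℕ} (w : Fin (M + 1) → Fin 3 → ℤ) (i h j : ℕ) (hj : j ≤ i) :
    EE w i h j = per w j := by
  unfold EE; rw [if_pos hj]

theorem EE_high {M : ℕ} (w : Fin (M + 1) → Fin 3 → ℤ) (i h j : ℕ) (hj : i < j) :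
    EE w i h (j + 2 * h) = per w j := by
  unfold EE
  rw [if_neg (by omega), if_neg (by omega), if_neg (by omega)]
  congr 1
  push_cast; ring

theorem EE_height {M : ℕ} (w : Fin (M + 1) → Fin 3 → ℤ) (h0 : ∀ a : ℤ, 0 ≤ per w a 2)
    (i h j : ℕ) : 0 ≤ EE w i h j 2 := by
  unfold EE
  have hs : ∀ a : ℤ, (Pi.single 0 a : Fin 3 → ℤ) 2 = 0 := fun a => by
    rw [Pi.single_eq_of_ne (by decide)]
  split_ifs
  · exact h0 _
  · rw [Pi.add_apply, hs, add_zero]; exact h0 _
  · rw [Pi.add_apply, hs, add_zero]; exact h0 _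
  · exact h0 _

theorem EE_image {M : ℕ} (hM0 : 0 < M) (w : Fin (M + 1) → Fin 3 → ℤ) (hw : w ∈ polySet 3 M)
    (i h : ℕ) (hi : i < M) :
    Finset.univ.image (fun j : Fin (M + 2 * h + 1) => EE w i h j) =
      Finset.univ.image w ∪ (Finset.Icc (i + 1) (i + 2 * h)).image (EE w i h) := by
  classical
  ext x
  simp only [Finset.mem_union, Finset.mem_image, Finset.mem_univ, true_and, Finset.mem_Icc]
  constructor
  · rintro ⟨j, rfl⟩
    have hjl := j.isLt
    by_cases h1 : (j : ℕ) ≤ i
    · left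
      refine ⟨⟨j, by omega⟩, ?_⟩
      rw [EE_low w i h j h1]
      exact (per_coe hM0 w hw ⟨j, by omega⟩).symm
    · by_cases h2 : (j : ℕ) ≤ i + 2 * h
      · right
        exact ⟨j, ⟨by omega, h2⟩, rfl⟩
      · left
        refine ⟨⟨(j : ℕ) - 2 * h, by omega⟩, ?_⟩
        have h3 := EE_high w i h ((j : ℕ) - 2 * h) (by omega)
        rw [show (j : ℕ) - 2 * h + 2 * h = (j : ℕ) by omega] at h3
        rw [h3]
        exact (per_coe hM0 w hw ⟨(j : ℕ) - 2 * h, by omega⟩).symm
  · rintro (⟨j, rfl⟩ | ⟨j, ⟨h1, h2⟩, rfl⟩)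
    · have hjl := j.isLt
      by_cases h1 : (j : ℕ) ≤ i
      · refine ⟨⟨j, by omega⟩, ?_⟩
        show EE w i h (j : ℕ) = w j
        rw [EE_low w i h j h1]
        exact per_coe hM0 w hw j
      · refine ⟨⟨(j : ℕ) + 2 * h, by omega⟩, ?_⟩
        show EE w i h ((j : ℕ) + 2 * h) = w j
        rw [EE_high w i h j (by omega)]
        exact per_coe hM0 w hw j
    · exact ⟨⟨j, by omega⟩, rfl⟩

theorem adjPairs_mono' {d : ℕ} {S T : Finset (Fin d → ℤ)} (h : S ⊆ T) : adjPairs S ≤ adjPairs T := by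
  unfold adjPairs
  exact Finset.card_le_card (Finset.filter_subset_filter _ (Finset.product_subset_product h h))

theorem wallc_mono' {c : ℤ} {S T : Finset (Fin 3 → ℤ)} (h : S ⊆ T) : wallc c S ≤ wallc c T := by
  unfold wallc
  exact Finset.card_le_card (Finset.filter_subset_filter _ h)

theorem wallc_union_le' (c : ℤ) (S T : Finset (Fin 3 → ℤ)) :
    wallc c (S ∪ T) ≤ wallc c S + T.card := by
  unfold wallc
  rw [Finset.filter_union]
  refine (Finset.card_union_le _ _).trans ?_
  exact Nat.add_le_add_left (Finset.card_filter_le _ _) _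

/-! Targets. -/

/-- A polygon with `M ≥ 3` steps is prolonged by `2 h` steps by pushing out one edge that lies in
the hyperplane of maximal zeroth coordinate (a direction parallel to the wall). -/
theorem PH_extend (ζ g : ℝ) :
    ∃ C : ℝ, 1 ≤ C ∧ ∀ M h : ℕ, 3 ≤ M →
      PH ζ g M ≤ 2 * (M : ℝ) * C ^ h * PH ζ g (M + 2 * h) := by
  classical
  refine ⟨Real.exp (2 * |ζ| + 14 * |g|), Real.one_le_exp (by positivity), ?_⟩
  intro M h hM
  have hM0 : 0 < M := by omega
  -- choice of the flat edge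
  have hch : ∀ w : Fin (M + 1) → Fin 3 → ℤ, ∃ i : Fin M, w ∈ polySet 3 M →
      per w ((i : ℕ) : ℤ) 0 = per w (((i : ℕ) : ℤ) + 1) 0 ∧
      ∀ a : ℤ, per w a 0 ≤ per w ((i : ℕ) : ℤ) 0 := by
    intro w
    by_cases hw : w ∈ polySet 3 M
    · obtain ⟨i, hi, h1, h2⟩ := exists_flat_edge hM w hw
      exact ⟨⟨i, hi⟩, fun _ => ⟨h1, h2⟩⟩
    · exact ⟨⟨0, hM0⟩, fun hc => absurd hc hw⟩
  choose I hI using hch
  set A := (polySet 3 M).filter (fun ω => ∀ j, 0 ≤ ω j 2) with hA
  set B := (polySet 3 (M + 2 * h)).filter (fun ω => ∀ j, 0 ≤ ω j 2) with hB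
  set F : (Fin (M + 1) → Fin 3 → ℤ) → Fin M × (Fin (M + 2 * h + 1) → Fin 3 → ℤ) :=
    fun w => (I w, fun j => EE w (I w) h j) with hF
  set wt : (Fin (M + 2 * h + 1) → Fin 3 → ℤ) → ℝ := fun ω =>
    Real.exp (ζ * wallc 0 (Finset.univ.image ω) +
      g * ((adjPairs (Finset.univ.image ω) : ℝ) / 2 - (M + 2 * h : ℕ))) with hwt
  have hinj : Set.InjOn F (A : Set (Fin (M + 1) → Fin 3 → ℤ)) := by
    intro w1 hw1 w2 hw2 h12
    have hw1' : w1 ∈ polySet 3 M := (Finset.mem_filter.1 hw1).1
    have hw2' : w2 ∈ polySet 3 M := (Finset.mem_filter.1 hw2).1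
    have e1 : I w1 = I w2 := congrArg Prod.fst h12
    have e2 : (fun j : Fin (M + 2 * h + 1) => EE w1 (I w1) h j) =
        fun j : Fin (M + 2 * h + 1) => EE w2 (I w2) h j := congrArg Prod.snd h12
    funext j
    have hjl := j.isLt
    rw [← per_coe hM0 w1 hw1' j, ← per_coe hM0 w2 hw2' j]
    by_cases h1 : (j : ℕ) ≤ (I w1 : ℕ)
    · have h3 := congrFun e2 ⟨(j : ℕ), by omega⟩
      simp only at h3
      rw [EE_low w1 (I w1) h j h1, EE_low w2 (I w2) h j (by rw [← e1]; exact h1)] at h3
      exact h3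
    · have h3 := congrFun e2 ⟨(j : ℕ) + 2 * h, by omega⟩
      simp only at h3
      rw [EE_high w1 (I w1) h j (by omega), EE_high w2 (I w2) h j (by rw [← e1]; omega)] at h3
      exact h3
  have hmem : ∀ w ∈ A, (F w).2 ∈ B := by
    intro w hw
    obtain ⟨hw1, hw2⟩ := Finset.mem_filter.1 hw
    obtain ⟨g1, g2⟩ := hI w hw1
    refine Finset.mem_filter.2 ⟨EE_mem hM0 w hw1 (I w) h (I w).isLt g1 g2, ?_⟩
    intro j
    exact EE_height w (fun a => hw2 _) _ _ _
  have hweight : ∀ w ∈ A, Real.exp (ζ * wallc 0 (Finset.univ.image w) +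
      g * ((adjPairs (Finset.univ.image w) : ℝ) / 2 - M)) ≤
      Real.exp (2 * |ζ| + 14 * |g|) ^ h * wt (F w).2 := by
    intro w hw
    obtain ⟨hw1, hw2⟩ := Finset.mem_filter.1 hw
    have himg := EE_image hM0 w hw1 (I w) h (I w).isLt
    obtain ⟨S, hS⟩ : ∃ S, S = Finset.univ.image w := ⟨_, rfl⟩
    obtain ⟨T, hT⟩ : ∃ T, T = (Finset.Icc ((I w : ℕ) + 1) ((I w : ℕ) + 2 * h)).image (EE w (I w) h) :=
      ⟨_, rfl⟩
    have hTc : T.card ≤ 2 * h := by
      rw [hT]
      refine Finset.card_image_le.trans ?_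
      rw [Nat.card_Icc]
      omega
    have himg' : Finset.univ.image (F w).2 = S ∪ T := by
      rw [hS, hT]; exact himg
    simp only [hwt]
    rw [himg', ← hS]
    rw [← Real.exp_nat_mul, ← Real.exp_add]
    apply Real.exp_le_exp.mpr
    have a1 : (adjPairs S : ℝ) ≤ adjPairs (S ∪ T) := by
      exact_mod_cast adjPairs_mono' Finset.subset_union_left
    have a2 : (adjPairs (S ∪ T) : ℝ) ≤ adjPairs S + 24 * h := by
      have h1 := adjPairs_union_le 3 S T
      have h2 : adjPairs (S ∪ T) ≤ adjPairs S + 24 * h := by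
        have : 4 * 3 * T.card ≤ 24 * h := by omega
        omega
      exact_mod_cast h2
    have b1 : (wallc 0 S : ℝ) ≤ wallc 0 (S ∪ T) := by
      exact_mod_cast wallc_mono' Finset.subset_union_left
    have b2 : (wallc 0 (S ∪ T) : ℝ) ≤ wallc 0 S + 2 * h := by
      have h1 := wallc_union_le' 0 S T
      have h2 : wallc 0 (S ∪ T) ≤ wallc 0 S + 2 * h := by omega
      exact_mod_cast h2
    push_cast
    have c1 : ζ * (wallc 0 S : ℝ) - ζ * (wallc 0 (S ∪ T) : ℝ) ≤ |ζ| * (2 * h) := by
      have d1 : ζ * (wallc 0 S : ℝ) - ζ * (wallc 0 (S ∪ T) : ℝ) =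
        (-ζ) * ((wallc 0 (S ∪ T) : ℝ) - wallc 0 S) := by ring
      rw [d1]
      have d2 : -ζ ≤ |ζ| := neg_le_abs ζ
      have d3 : 0 ≤ (wallc 0 (S ∪ T) : ℝ) - wallc 0 S := by linarith
      have d4 : (wallc 0 (S ∪ T) : ℝ) - wallc 0 S ≤ 2 * h := by linarith
      calc (-ζ) * ((wallc 0 (S ∪ T) : ℝ) - wallc 0 S)
          ≤ |ζ| * ((wallc 0 (S ∪ T) : ℝ) - wallc 0 S) := mul_le_mul_of_nonneg_right d2 d3
        _ ≤ |ζ| * (2 * h) := mul_le_mul_of_nonneg_left d4 (abs_nonneg _)
    have c2 : g * ((adjPairs S : ℝ) / 2 - M) - g * ((adjPairs (S ∪ T) : ℝ) / 2 - (M + 2 * h)) ≤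
        |g| * (14 * h) := by
      obtain ⟨D, hD⟩ : ∃ D : ℝ, D = (adjPairs (S ∪ T) : ℝ) - adjPairs S := ⟨_, rfl⟩
      have d1 : g * ((adjPairs S : ℝ) / 2 - M) - g * ((adjPairs (S ∪ T) : ℝ) / 2 - (M + 2 * h)) =
        g * (2 * h - D / 2) := by rw [hD]; ring
      rw [d1]
      have hD0 : 0 ≤ D := by rw [hD]; linarith
      have hD1 : D ≤ 24 * h := by rw [hD]; linarith
      have hh : (0 : ℝ) ≤ h := Nat.cast_nonneg _
      have d2 : |2 * (h : ℝ) - D / 2| ≤ 14 * h := by
        rw [abs_le]; constructor <;> linarith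
      calc g * (2 * h - D / 2) ≤ |g * (2 * h - D / 2)| := le_abs_self _
        _ = |g| * |2 * (h : ℝ) - D / 2| := abs_mul _ _
        _ ≤ |g| * (14 * h) := mul_le_mul_of_nonneg_left d2 (abs_nonneg _)
    linarith
  have hCnn : 0 ≤ Real.exp (2 * |ζ| + 14 * |g|) ^ h := by positivity
  calc PH ζ g M
      = ∑ w ∈ A, Real.exp (ζ * wallc 0 (Finset.univ.image w) +
          g * ((adjPairs (Finset.univ.image w) : ℝ) / 2 - M)) := rfl
    _ ≤ ∑ w ∈ A, Real.exp (2 * |ζ| + 14 * |g|) ^ h * wt (F w).2 := Finset.sum_le_sum hweight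
    _ = ∑ y ∈ A.image F, Real.exp (2 * |ζ| + 14 * |g|) ^ h * wt y.2 := by
        rw [Finset.sum_image hinj]
    _ ≤ ∑ y ∈ (Finset.univ : Finset (Fin M)) ×ˢ B,
          Real.exp (2 * |ζ| + 14 * |g|) ^ h * wt y.2 := by
        apply Finset.sum_le_sum_of_subset_of_nonneg
        · intro y hy
          rw [Finset.mem_image] at hy
          obtain ⟨w, hw, rfl⟩ := hy
          rw [Finset.mem_product]
          exact ⟨Finset.mem_univ _, hmem w hw⟩
        · intro y _ _
          exact mul_nonneg hCnn (Real.exp_pos _).le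
    _ = (M : ℝ) * Real.exp (2 * |ζ| + 14 * |g|) ^ h * ∑ ω ∈ B, wt ω := by
        rw [Finset.sum_product]
        simp only
        rw [Finset.sum_const, Finset.card_univ, Fintype.card_fin, ← Finset.mul_sum, nsmul_eq_mul]
        ring
    _ = (M : ℝ) * Real.exp (2 * |ζ| + 14 * |g|) ^ h * PH ζ g (M + 2 * h) := rfl
    _ ≤ 2 * (M : ℝ) * Real.exp (2 * |ζ| + 14 * |g|) ^ h * PH ζ g (M + 2 * h) := by
        have h1 : 0 ≤ PH ζ g (M + 2 * h) := Finset.sum_nonneg (fun _ _ => (Real.exp_pos _).le)
        have h2 : (0 : ℝ) ≤ M := Nat.cast_nonneg _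
        have h3 : 0 ≤ (M : ℝ) * Real.exp (2 * |ζ| + 14 * |g|) ^ h * PH ζ g (M + 2 * h) := by
          positivity
        linarith

/-- polygons exist for every even length at least `4` -/
theorem PH_pos (ζ g : ℝ) (m : ℕ) (hm : 2 ≤ m) : 0 < PH ζ g (2 * m) := by
  let v : ℤ → ℤ → Fin 3 → ℤ := fun x y => Fin.cons x (Fin.cons y 0)
  have hv : ∀ x y x' y' : ℤ, ∑ k, |v x y k - v x' y' k| = |x - x'| + |y - y'| := by
    intro x y x' y'
    simp only [v, Fin.sum_univ_succ, Fin.cons_zero, Fin.cons_succ, Pi.zero_apply, sub_zero,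
      abs_zero, Finset.sum_const_zero, add_zero]
  have hv0 : ∀ x y : ℤ, v x y 0 = x := fun x y => rfl
  have hv1 : ∀ x y : ℤ, v x y 1 = y := fun x y => rfl
  have hvz : v 0 0 = 0 := by
    funext k
    refine Fin.cases rfl (fun k => ?_) k
    refine Fin.cases rfl (fun k => ?_) k
    rfl
  let X : ℕ → ℤ := fun k => if k < m then (k : ℤ) else if k < 2 * m then 2 * (m : ℤ) - 1 - k else 0
  let Y : ℕ → ℤ := fun k => if k < m then 0 else if k < 2 * m then 1 else 0
  let w : Fin (2 * m + 1) → Fin 3 → ℤ := fun k => v (X k.val) (Y k.val)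
  have hw : w ∈ polySet 3 (2 * m) := by
    rw [mem_polySet]
    refine ⟨?_, ?_, ?_, ?_⟩
    · show v (X 0) (Y 0) = 0
      have h1 : X 0 = 0 := by
        simp only [X]
        rw [if_pos (by omega)]; rfl
      have h2 : Y 0 = 0 := by
        simp only [Y]
        rw [if_pos (by omega)]
      rw [h1, h2, hvz]
    · show v (X (2 * m)) (Y (2 * m)) = 0
      have h1 : X (2 * m) = 0 := by
        simp only [X]
        rw [if_neg (by omega), if_neg (by omega)]
      have h2 : Y (2 * m) = 0 := by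
        simp only [Y]
        rw [if_neg (by omega), if_neg (by omega)]
      rw [h1, h2, hvz]
    · intro i j hij
      have h0 : X i.val = X j.val := by
        have := congrFun hij 0
        exact this
      have h1 : Y i.val = Y j.val := by
        have := congrFun hij 1
        exact this
      have hi := i.isLt
      have hj := j.isLt
      apply Fin.ext
      simp only [X] at h0
      simp only [Y] at h1
      split_ifs at h0 h1 <;> omega
    · intro i
      show ∑ k, |v (X i.val) (Y i.val) k - v (X (i.val + 1)) (Y (i.val + 1)) k| = 1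
      rw [hv]
      have hi := i.isLt
      by_cases c1 : i.val + 1 < m
      · have a1 : X i.val = i.val := if_pos (by omega)
        have a2 : X (i.val + 1) = ((i.val + 1 : ℕ) : ℤ) := if_pos c1
        have a3 : Y i.val = 0 := if_pos (by omega)
        have a4 : Y (i.val + 1) = 0 := if_pos c1
        rw [a1, a2, a3, a4]
        have : ((i.val : ℤ) - ((i.val + 1 : ℕ) : ℤ)) = -1 := by push_cast; ring
        rw [this]; norm_num
      · by_cases c2 : i.val + 1 = m
        · have a1 : X i.val = i.val := if_pos (by omega)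
          have a2 : X (i.val + 1) = 2 * (m : ℤ) - 1 - ((i.val + 1 : ℕ) : ℤ) := by
            simp only [X]
            rw [if_neg (by omega), if_pos (by omega)]
          have a3 : Y i.val = 0 := if_pos (by omega)
          have a4 : Y (i.val + 1) = 1 := by
            simp only [Y]
            rw [if_neg (by omega), if_pos (by omega)]
          rw [a1, a2, a3, a4]
          have c2' : (i.val : ℤ) + 1 = (m : ℤ) := by exact_mod_cast c2
          have : ((i.val : ℤ) - (2 * (m : ℤ) - 1 - ((i.val + 1 : ℕ) : ℤ))) = 0 := by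
            push_cast; linarith
          rw [this]; norm_num
        · by_cases c3 : i.val + 1 < 2 * m
          · have a1 : X i.val = 2 * (m : ℤ) - 1 - (i.val : ℤ) := by
              simp only [X]
              rw [if_neg (by omega), if_pos (by omega)]
            have a2 : X (i.val + 1) = 2 * (m : ℤ) - 1 - ((i.val + 1 : ℕ) : ℤ) := by
              simp only [X]
              rw [if_neg (by omega), if_pos (by omega)]
            have a3 : Y i.val = 1 := by
              simp only [Y]
              rw [if_neg (by omega), if_pos (by omega)]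
            have a4 : Y (i.val + 1) = 1 := by
              simp only [Y]
              rw [if_neg (by omega), if_pos (by omega)]
            rw [a1, a2, a3, a4]
            have : (2 * (m : ℤ) - 1 - (i.val : ℤ) - (2 * (m : ℤ) - 1 - ((i.val + 1 : ℕ) : ℤ))) = 1 := by
              push_cast; ring
            rw [this]; norm_num
          · have hi2 : i.val + 1 = 2 * m := by omega
            have a1 : X i.val = 2 * (m : ℤ) - 1 - (i.val : ℤ) := by
              simp only [X]
              rw [if_neg (by omega), if_pos (by omega)]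
            have a2 : X (i.val + 1) = 0 := by
              simp only [X]
              rw [if_neg (by omega), if_neg (by omega)]
            have a3 : Y i.val = 1 := by
              simp only [Y]
              rw [if_neg (by omega), if_pos (by omega)]
            have a4 : Y (i.val + 1) = 0 := by
              simp only [Y]
              rw [if_neg (by omega), if_neg (by omega)]
            rw [a1, a2, a3, a4]
            have h5 : (i.val : ℤ) + 1 = 2 * (m : ℤ) := by exact_mod_cast hi2
            have : (2 * (m : ℤ) - 1 - (i.val : ℤ) - 0) = 0 := by linarith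
            rw [this]; norm_num
  have hw2 : ∀ j, 0 ≤ w j 2 := by
    intro j
    show 0 ≤ v (X j.val) (Y j.val) 2
    have : v (X j.val) (Y j.val) 2 = 0 := rfl
    rw [this]
  unfold PH
  apply Finset.sum_pos
  · intro ω _
    exact Real.exp_pos _
  · exact ⟨w, Finset.mem_filter.2 ⟨hw, hw2⟩⟩

end Pool.Agent.Helper772.HR3
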