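import Mathlib
import Pool.Agent.Helper772.Defs
set_option autoImplicit false
namespace Pool.Agent.Helper772.L


open Filter Topology

/-- Lower bound along the good multiples `6 k + 4` of `n0`. -/
theorem limit_walk_aux (a : ℕ → ℝ) (K δ : ℝ) (hδ : 0 < δ) (hδ1 : δ < 1) (hK : 0 ≤ K)
    (h2 : ∀ n m : ℕ, 1 ≤ n → 1 ≤ m →
      2 * a n + 2 * a m ≤ a (2 * (n + m)) + K * ((n + m : ℕ) : ℝ) ^ (1 - δ))
    (n0 : ℕ) (hn0 : 1 ≤ n0) (k : ℕ) :
    ((6 * k + 4 : ℕ) : ℝ) * a n0 - K / (2 - 2 ^ (1 - δ)) * (n0 : ℝ) ^ (1 - δ) *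
      (((6 * k + 4 : ℕ) : ℝ) - ((6 * k + 4 : ℕ) : ℝ) ^ (1 - δ)) ≤ a ((6 * k + 4) * n0) := by
  have hs : (0 : ℝ) < 1 - δ := by linarith
  have hs1 : 1 - δ ≤ 1 := by linarith
  have h2δ : (2 : ℝ) ^ (1 - δ) < 2 := by
    calc (2 : ℝ) ^ (1 - δ) < 2 ^ (1 : ℝ) := Real.rpow_lt_rpow_of_exponent_lt (by norm_num) (by linarith)
      _ = 2 := Real.rpow_one 2
  obtain ⟨D, hD⟩ : ∃ D, D = K / (2 - 2 ^ (1 - δ)) := ⟨_, rfl⟩
  have hD0 : 0 ≤ D := by rw [hD]; exact div_nonneg hK (by linarith)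
  have hDK : D * (2 - 2 ^ (1 - δ)) = K := by
    rw [hD]; exact div_mul_cancel₀ _ (by linarith)
  rw [← hD]
  obtain ⟨A, hA⟩ : ∃ A, A = (n0 : ℝ) ^ (1 - δ) := ⟨_, rfl⟩
  have hn0' : (1 : ℝ) ≤ n0 := by exact_mod_cast hn0
  have hA0 : 0 ≤ A := by rw [hA]; positivity
  rw [← hA]
  -- combining step
  have comb : ∀ x y : ℕ, 1 ≤ x → 1 ≤ y →
      ((x : ℝ) * a n0 - D * A * ((x : ℝ) - (x : ℝ) ^ (1 - δ)) ≤ a (x * n0)) →
      ((y : ℝ) * a n0 - D * A * ((y : ℝ) - (y : ℝ) ^ (1 - δ)) ≤ a (y * n0)) →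
      (((2 * (x + y) : ℕ) : ℝ) * a n0 - D * A * (((2 * (x + y) : ℕ) : ℝ) -
        ((2 * (x + y) : ℕ) : ℝ) ^ (1 - δ)) ≤ a ((2 * (x + y)) * n0)) := by
    intro x y hx hy h3 h4
    have hx1 : 1 ≤ x * n0 := Nat.mul_pos hx hn0
    have hy1 : 1 ≤ y * n0 := Nat.mul_pos hy hn0
    have h5 := h2 (x * n0) (y * n0) hx1 hy1
    have e1 : 2 * (x * n0 + y * n0) = 2 * (x + y) * n0 := by ring
    have e2 : ((x * n0 + y * n0 : ℕ) : ℝ) = ((x : ℝ) + y) * n0 := by push_cast; ring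
    have hx0 : (0 : ℝ) ≤ x := Nat.cast_nonneg x
    have hy0 : (0 : ℝ) ≤ y := Nat.cast_nonneg y
    have e3 : (((x : ℝ) + y) * n0) ^ (1 - δ) = ((x : ℝ) + y) ^ (1 - δ) * A := by
      rw [hA, Real.mul_rpow (by positivity) (by positivity)]
    have e4 : (((2 * (x + y) : ℕ) : ℝ)) ^ (1 - δ) = 2 ^ (1 - δ) * ((x : ℝ) + y) ^ (1 - δ) := by
      push_cast
      rw [Real.mul_rpow (by norm_num) (by positivity)]
    have h6 : ((x : ℝ) + y) ^ (1 - δ) ≤ (x : ℝ) ^ (1 - δ) + (y : ℝ) ^ (1 - δ) :=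
      Real.rpow_add_le_add_rpow hx0 hy0 hs.le hs1
    rw [e1, e2, e3] at h5
    rw [e4]
    push_cast
    have h7 : D * A * ((x : ℝ) + y) ^ (1 - δ) * 2 ≤
        D * A * ((x : ℝ) ^ (1 - δ) + (y : ℝ) ^ (1 - δ)) * 2 := by
      have : 0 ≤ D * A := by positivity
      have := mul_le_mul_of_nonneg_left h6 this
      linarith
    have h8 : K * (((x : ℝ) + y) ^ (1 - δ) * A) =
        D * A * ((x : ℝ) + y) ^ (1 - δ) * 2 - D * A * (2 ^ (1 - δ) * ((x : ℝ) + y) ^ (1 - δ)) := by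
      rw [← hDK]; ring
    rw [h8] at h5
    nlinarith
  have one : ((1 : ℕ) : ℝ) * a n0 - D * A * (((1 : ℕ) : ℝ) - ((1 : ℕ) : ℝ) ^ (1 - δ)) ≤
      a (1 * n0) := by
    simp
  induction k using Nat.strong_induction_on with
  | _ k ih =>
    rcases Nat.eq_zero_or_pos k with h | h
    · subst h
      have := comb 1 1 le_rfl le_rfl one one
      exact this
    · rcases Nat.even_or_odd' k with ⟨l, hl | hl⟩
      · have h3 := ih (l - 1) (by omega)
        have h4 := ih 0 (by omega)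
        have := comb (6 * (l - 1) + 4) (6 * 0 + 4) (by omega) (by omega) h3 h4
        have e : 2 * (6 * (l - 1) + 4 + (6 * 0 + 4)) = 6 * k + 4 := by omega
        rw [e] at this
        exact this
      · have h3 := ih l (by omega)
        have := comb 1 (6 * l + 4) le_rfl (by omega) one h3
        have e : 2 * (1 + (6 * l + 4)) = 6 * k + 4 := by omega
        rw [e] at this
        exact this

theorem tendsto_rpow_div (δ : ℝ) (hδ : 0 < δ) :
    Tendsto (fun n : ℕ => (n : ℝ) ^ (1 - δ) / n) atTop (𝓝 0) := by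
  have h1 : Tendsto (fun n : ℕ => (n : ℝ) ^ (-δ)) atTop (𝓝 0) :=
    (tendsto_rpow_neg_atTop hδ).comp tendsto_natCast_atTop_atTop
  refine h1.congr' ?_
  filter_upwards [eventually_ge_atTop 1] with n hn
  have hn' : (0 : ℝ) < n := by exact_mod_cast hn
  rw [show (1 - δ : ℝ) = -δ + 1 by ring, Real.rpow_add hn', Real.rpow_one]
  field_simp

/-- Approximate superadditivity along `2 (n + m)` gives a limit. -/
theorem limit_walk (a : ℕ → ℝ) (C K δ : ℝ) (hδ : 0 < δ) (hδ1 : δ < 1)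
    (h0 : ∀ n, 0 ≤ a n)
    (h1 : ∀ n j : ℕ, a (n + j) ≤ a n + C * j)
    (h2 : ∀ n m : ℕ, 1 ≤ n → 1 ≤ m →
      2 * a n + 2 * a m ≤ a (2 * (n + m)) + K * ((n + m : ℕ) : ℝ) ^ (1 - δ)) :
    ∃ F : ℝ, Tendsto (fun n : ℕ => a n / n) atTop (𝓝 F) := by
  have hs : (0 : ℝ) < 1 - δ := by linarith
  -- replace constants by nonnegative ones
  obtain ⟨K0, hK0⟩ : ∃ K0, K0 = |K| := ⟨_, rfl⟩
  have hK0n : 0 ≤ K0 := by rw [hK0]; exact abs_nonneg K
  have hKK0 : K ≤ K0 := by rw [hK0]; exact le_abs_self K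
  have h2' : ∀ n m : ℕ, 1 ≤ n → 1 ≤ m →
      2 * a n + 2 * a m ≤ a (2 * (n + m)) + K0 * ((n + m : ℕ) : ℝ) ^ (1 - δ) := by
    intro n m hn hm
    refine (h2 n m hn hm).trans ?_
    have : 0 ≤ ((n + m : ℕ) : ℝ) ^ (1 - δ) := by positivity
    have := mul_le_mul_of_nonneg_right hKK0 this
    linarith
  obtain ⟨C0, hC0⟩ : ∃ C0, C0 = |C| := ⟨_, rfl⟩
  have hC0n : 0 ≤ C0 := by rw [hC0]; exact abs_nonneg C
  have hCC0 : C ≤ C0 := by rw [hC0]; exact le_abs_self C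
  have h1' : ∀ n j : ℕ, a (n + j) ≤ a n + C0 * j := by
    intro n j
    refine (h1 n j).trans ?_
    have := mul_le_mul_of_nonneg_right hCC0 (Nat.cast_nonneg (α := ℝ) j)
    linarith
  have h2δ : (2 : ℝ) ^ (1 - δ) < 2 := by
    calc (2 : ℝ) ^ (1 - δ) < 2 ^ (1 : ℝ) := Real.rpow_lt_rpow_of_exponent_lt (by norm_num) (by linarith)
      _ = 2 := Real.rpow_one 2
  obtain ⟨D, hD⟩ : ∃ D, D = K0 / (2 - 2 ^ (1 - δ)) := ⟨_, rfl⟩
  have hD0 : 0 ≤ D := by rw [hD]; exact div_nonneg hK0n (by linarith)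
  -- main lower bound along all large N
  have main : ∀ n0 : ℕ, 1 ≤ n0 → ∀ ε : ℝ, 0 < ε → ∀ᶠ N : ℕ in atTop,
      a n0 / n0 - D * (n0 : ℝ) ^ (1 - δ) / n0 - ε ≤ a N / N := by
    intro n0 hn0 ε hε
    have hn0' : (1 : ℝ) ≤ n0 := by exact_mod_cast hn0
    obtain ⟨v, hv⟩ : ∃ v, v = a n0 / n0 - D * (n0 : ℝ) ^ (1 - δ) / n0 := ⟨_, rfl⟩
    rw [← hv]
    by_cases hv0 : v ≤ 0
    · filter_upwards with N
      have : 0 ≤ a N / N := div_nonneg (h0 N) (Nat.cast_nonneg N)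
      linarith
    push Not at hv0
    -- even N
    have heven : ∀ M : ℕ, 12 * n0 + 2 ≤ M →
        (2 * (M : ℝ) - 2 - 12 * n0) * v - K0 * (M : ℝ) ^ (1 - δ) ≤ a (2 * M) := by
      intro M hM
      -- x = 6 k + 4 largest with x n0 ≤ M - 1
      obtain ⟨k, hk⟩ : ∃ k, k = ((M - 1) / n0 - 4) / 6 := ⟨_, rfl⟩
      have hq : 12 ≤ (M - 1) / n0 := by
        rw [Nat.le_div_iff_mul_le (by omega)]
        omega
      have hk1 : (6 * k + 4) * n0 ≤ M - 1 := by
        have h3 : 6 * k + 4 ≤ (M - 1) / n0 := by omega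
        calc (6 * k + 4) * n0 ≤ (M - 1) / n0 * n0 := Nat.mul_le_mul_right _ h3
          _ ≤ M - 1 := Nat.div_mul_le_self _ _
      have hk2 : M - 1 < (6 * k + 4) * n0 + 6 * n0 := by
        have h3 : (M - 1) / n0 + 1 ≤ 6 * k + 10 := by omega
        have h4 : M - 1 < ((M - 1) / n0 + 1) * n0 := by
          have := Nat.lt_div_mul_add (a := M - 1) (b := n0) (by omega)
          linarith
        have h5 : ((M - 1) / n0 + 1) * n0 ≤ (6 * k + 10) * n0 := Nat.mul_le_mul_right _ h3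
        nlinarith
      have h3 := limit_walk_aux a K0 δ hδ hδ1 hK0n h2' n0 hn0 k
      rw [← hD] at h3
      obtain ⟨x, hx⟩ : ∃ x, x = 6 * k + 4 := ⟨_, rfl⟩
      rw [← hx] at h3 hk1 hk2
      have hx1 : 1 ≤ x := by omega
      have hxr : (1 : ℝ) ≤ x := by exact_mod_cast hx1
      have h4 := h2' (x * n0) (M - x * n0) (Nat.mul_pos hx1 hn0) (by omega)
      have e1 : x * n0 + (M - x * n0) = M := by omega
      rw [e1] at h4
      have h5 := h0 (M - x * n0)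
      have h6 : (x : ℝ) * n0 * v ≤ a (x * n0) := by
        have e2 : (x : ℝ) * n0 * v = x * a n0 - D * (n0 : ℝ) ^ (1 - δ) * x := by
          rw [hv]; field_simp
        rw [e2]
        have h7 : 0 ≤ (x : ℝ) ^ (1 - δ) := by positivity
        have h8 : 0 ≤ D * (n0 : ℝ) ^ (1 - δ) := by positivity
        have h9 := mul_nonneg h8 h7
        nlinarith
      have h7 : 2 * (M : ℝ) - 2 - 12 * n0 ≤ 2 * ((x : ℝ) * n0) := by
        have : M ≤ x * n0 + 6 * n0 := by omega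
        have : (M : ℝ) ≤ x * n0 + 6 * n0 := by exact_mod_cast this
        linarith
      have h8 : (2 * (M : ℝ) - 2 - 12 * n0) * v ≤ 2 * ((x : ℝ) * n0) * v :=
        mul_le_mul_of_nonneg_right h7 hv0.le
      linarith
    -- all N
    have hall : ∀ N : ℕ, 24 * n0 + 4 ≤ N →
        ((N : ℝ) - 2 - 12 * n0) * v - K0 * (N : ℝ) ^ (1 - δ) - C0 ≤ a N := by
      intro N hN
      have hN0 : (1 : ℝ) ≤ N := by
        have : 1 ≤ N := by omega
        exact_mod_cast this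
      rcases Nat.even_or_odd' N with ⟨M, hM | hM⟩
      · have h3 := heven M (by omega)
        have e : (N : ℝ) = 2 * M := by rw [hM]; push_cast; ring
        rw [← hM] at h3
        have h4 : (M : ℝ) ^ (1 - δ) ≤ (N : ℝ) ^ (1 - δ) := by
          apply Real.rpow_le_rpow (Nat.cast_nonneg _) _ hs.le
          have : M ≤ N := by omega
          exact_mod_cast this
        have h5 := mul_le_mul_of_nonneg_left h4 hK0n
        rw [← e] at h3
        linarith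
      · have h3 := heven (M + 1) (by omega)
        have e : 2 * (M + 1) = N + 1 := by omega
        rw [e] at h3
        have h4 := h1' N 1
        have e' : (N : ℝ) + 1 = 2 * ((M + 1 : ℕ) : ℝ) := by
          have : N + 1 = 2 * (M + 1) := by omega
          exact_mod_cast this
        have h5 : (((M + 1 : ℕ) : ℝ)) ^ (1 - δ) ≤ (N : ℝ) ^ (1 - δ) := by
          apply Real.rpow_le_rpow (Nat.cast_nonneg _) _ hs.le
          have : M + 1 ≤ N := by omega
          exact_mod_cast this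
        have h6 := mul_le_mul_of_nonneg_left h5 hK0n
        rw [← e'] at h3
        push_cast at h4
        nlinarith
    -- conclusion by limits
    have hlim : Tendsto (fun N : ℕ => v - ((2 + 12 * n0) * v + C0) / (N : ℝ)
        - K0 * ((N : ℝ) ^ (1 - δ) / N)) atTop (𝓝 (v - 0 - K0 * 0)) := by
      refine (tendsto_const_nhds.sub ?_).sub ((tendsto_rpow_div δ hδ).const_mul K0)
      exact tendsto_const_nhds.div_atTop tendsto_natCast_atTop_atTop
    have hev := hlim.eventually (lt_mem_nhds (show v - ε < v - 0 - K0 * 0 by linarith))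
    filter_upwards [hev, eventually_ge_atTop (24 * n0 + 4)] with N hN1 hN2
    have h3 := hall N hN2
    have hN0 : (0 : ℝ) < N := by
      have : 0 < N := by omega
      exact_mod_cast this
    rw [le_div_iff₀ hN0]
    have h4 : (v - ε) * N ≤ (v - ((2 + 12 * n0) * v + C0) / (N : ℝ)
        - K0 * ((N : ℝ) ^ (1 - δ) / N)) * N := mul_le_mul_of_nonneg_right hN1.le hN0.le
    have e : (v - ((2 + 12 * n0) * v + C0) / (N : ℝ)
        - K0 * ((N : ℝ) ^ (1 - δ) / N)) * N =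
        ((N : ℝ) - 2 - 12 * n0) * v - K0 * (N : ℝ) ^ (1 - δ) - C0 := by
      field_simp
      ring
    linarith
  -- boundedness
  have hub : ∀ n : ℕ, a n / n ≤ a 0 + C0 := by
    intro n
    rcases Nat.eq_zero_or_pos n with h | h
    · subst h
      simp only [Nat.cast_zero, div_zero]
      have := h0 0
      linarith
    · have hn0 : (1 : ℝ) ≤ n := by exact_mod_cast h
      rw [div_le_iff₀ (by linarith)]
      have h3 := h1' 0 n
      rw [zero_add] at h3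
      have := h0 0
      nlinarith
  have hlb : ∀ n : ℕ, 0 ≤ a n / n := fun n => div_nonneg (h0 n) (Nat.cast_nonneg n)
  obtain ⟨F, hF⟩ : ∃ F, F = limsup (fun n : ℕ => a n / n) atTop := ⟨_, rfl⟩
  have hbdd : IsBoundedUnder (· ≤ ·) atTop (fun n : ℕ => a n / n) :=
    isBoundedUnder_of ⟨a 0 + C0, hub⟩
  have hcobdd : IsCoboundedUnder (· ≤ ·) atTop (fun n : ℕ => a n / n) :=
    (isBoundedUnder_of ⟨0, hlb⟩ : IsBoundedUnder (· ≥ ·) atTop
      (fun n : ℕ => a n / n)).isCoboundedUnder_le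
  refine ⟨F, ?_⟩
  rw [Metric.tendsto_atTop']
  intro ε hε
  have hup : ∀ᶠ n : ℕ in atTop, a n / n < F + ε := by
    apply eventually_lt_of_limsup_lt _ hbdd
    rw [← hF]; linarith
  have hfreq : ∃ᶠ n : ℕ in atTop, F - ε / 4 < a n / n := by
    apply frequently_lt_of_lt_limsup hcobdd
    rw [← hF]; linarith
  have hsm : ∀ᶠ n : ℕ in atTop, D * ((n : ℝ) ^ (1 - δ) / n) < ε / 4 := by
    have := (tendsto_rpow_div δ hδ).const_mul D
    rw [mul_zero] at this
    exact this.eventually (gt_mem_nhds (by linarith))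
  obtain ⟨n0, hn1, hn2, hn3⟩ := (hfreq.and_eventually (hsm.and (eventually_ge_atTop 1))).exists
  have hlow := main n0 hn3 (ε / 4) (by linarith)
  obtain ⟨N1, hN1⟩ := eventually_atTop.mp (hup.and hlow)
  refine ⟨N1, fun N hN => ?_⟩
  obtain ⟨g1, g2⟩ := hN1 N hN.le
  rw [mul_div_assoc] at g2
  rw [Real.dist_eq, abs_lt]
  constructor <;> linarith

/-- Transfer of the limit from walks to polygons. -/
theorem limit_poly (a p : ℕ → ℝ) (C K δ F : ℝ) (hδ : 0 < δ) (hδ1 : δ < 1)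
    (hF : Tendsto (fun n : ℕ => a n / n) atTop (𝓝 F))
    (h3 : ∀ n : ℕ, 1 ≤ n → ∃ M : ℕ, Even M ∧ 4 ≤ M ∧
      |(M : ℝ) - 2 * n| ≤ K * (n : ℝ) ^ (1 - δ) ∧ 2 * a n ≤ p M + K * (n : ℝ) ^ (1 - δ))
    (h4 : ∀ M : ℕ, 4 ≤ M → Even M → p M ≤ a M + C * (1 + Real.log M))
    (h5 : ∀ M h : ℕ, 4 ≤ M → Even M → p M ≤ p (M + 2 * h) + C * (1 + h + Real.log M)) :
    Tendsto (fun m : ℕ => p (2 * m) / ((2 * m : ℕ) : ℝ)) atTop (𝓝 F) := by
  have hs : (0 : ℝ) < 1 - δ := by linarith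
  obtain ⟨K0, hK0⟩ : ∃ K0, K0 = |K| := ⟨_, rfl⟩
  have hK0n : 0 ≤ K0 := by rw [hK0]; exact abs_nonneg K
  have hKK0 : K ≤ K0 := by rw [hK0]; exact le_abs_self K
  obtain ⟨C0, hC0⟩ : ∃ C0, C0 = |C| := ⟨_, rfl⟩
  have hC0n : 0 ≤ C0 := by rw [hC0]; exact abs_nonneg C
  have hCC0 : C ≤ C0 := by rw [hC0]; exact le_abs_self C
  have hcast : Tendsto (fun m : ℕ => (m : ℝ)) atTop atTop := tendsto_natCast_atTop_atTop
  have hdbl : Tendsto (fun m : ℕ => 2 * m) atTop atTop :=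
    tendsto_id.const_mul_atTop' (by norm_num)
  have hlogdiv : Tendsto (fun x : ℝ => Real.log x / x) atTop (𝓝 0) := by
    have := Real.isLittleO_log_id_atTop.tendsto_div_nhds_zero
    exact this
  have hlog : Tendsto (fun m : ℕ => Real.log ((2 * m : ℕ) : ℝ) / ((2 * m : ℕ) : ℝ)) atTop (𝓝 0) :=
    hlogdiv.comp (hcast.comp hdbl)
  have hone : Tendsto (fun m : ℕ => 1 / ((2 * m : ℕ) : ℝ)) atTop (𝓝 0) :=
    tendsto_const_nhds.div_atTop (hcast.comp hdbl)
  -- upper bound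
  have hupper : Tendsto (fun m : ℕ => a (2 * m) / ((2 * m : ℕ) : ℝ) +
      C * (1 / ((2 * m : ℕ) : ℝ) + Real.log ((2 * m : ℕ) : ℝ) / ((2 * m : ℕ) : ℝ)))
      atTop (𝓝 (F + C * (0 + 0))) :=
    (hF.comp hdbl).add ((hone.add hlog).const_mul C)
  rw [add_zero, mul_zero, add_zero] at hupper
  -- the shifted index
  obtain ⟨ρ, hρ⟩ : ∃ ρ : ℕ → ℕ, ∀ m, ρ m = ⌈K0 * (m : ℝ) ^ (1 - δ)⌉₊ := ⟨_, fun _ => rfl⟩
  have hρ1 : ∀ m : ℕ, K0 * (m : ℝ) ^ (1 - δ) ≤ ρ m := fun m => by rw [hρ]; exact Nat.le_ceil _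
  have hρ2 : ∀ m : ℕ, (ρ m : ℝ) ≤ K0 * (m : ℝ) ^ (1 - δ) + 1 := fun m => by
    rw [hρ]; exact (Nat.ceil_lt_add_one (by positivity)).le
  have hone' : Tendsto (fun m : ℕ => 1 / (m : ℝ)) atTop (𝓝 0) :=
    tendsto_const_nhds.div_atTop hcast
  have hρ3 : Tendsto (fun m : ℕ => (ρ m : ℝ) / m) atTop (𝓝 0) := by
    have hub : Tendsto (fun m : ℕ => K0 * ((m : ℝ) ^ (1 - δ) / m) + 1 / m) atTop
        (𝓝 (K0 * 0 + 0)) := ((tendsto_rpow_div δ hδ).const_mul K0).add hone'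
    rw [mul_zero, add_zero] at hub
    refine squeeze_zero (fun m => by positivity) (fun m => ?_) hub
    rcases Nat.eq_zero_or_pos m with h | h
    · subst h; simp
    · have hm : (0 : ℝ) < m := by exact_mod_cast h
      rw [div_le_iff₀ hm]
      have := hρ2 m
      have e : (K0 * ((m : ℝ) ^ (1 - δ) / m) + 1 / m) * m = K0 * (m : ℝ) ^ (1 - δ) + 1 := by
        field_simp
      rw [e]; exact this
  have hρlt : ∀ᶠ m : ℕ in atTop, ρ m < m := by
    have := hρ3.eventually (gt_mem_nhds (show (0 : ℝ) < 1 by norm_num))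
    filter_upwards [this, eventually_ge_atTop 1] with m hm hm1
    have hm0 : (0 : ℝ) < m := by exact_mod_cast hm1
    rw [div_lt_one hm0] at hm
    exact_mod_cast hm
  obtain ⟨ν, hν⟩ : ∃ ν : ℕ → ℕ, ∀ m, ν m = m - ρ m := ⟨_, fun _ => rfl⟩
  have hνratio : Tendsto (fun m : ℕ => (ν m : ℝ) / m) atTop (𝓝 1) := by
    have h6 : Tendsto (fun m : ℕ => 1 - (ρ m : ℝ) / m) atTop (𝓝 (1 - 0)) :=
      tendsto_const_nhds.sub hρ3
    rw [sub_zero] at h6
    refine h6.congr' ?_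
    filter_upwards [hρlt, eventually_ge_atTop 1] with m hm hm1
    have hm0 : (m : ℝ) ≠ 0 := by
      have : 0 < m := hm1
      positivity
    rw [hν, Nat.cast_sub hm.le]
    field_simp
  have hνtop : Tendsto ν atTop atTop := by
    have h6 : Tendsto (fun m : ℕ => (ν m : ℝ)) atTop atTop := by
      have h7 : Tendsto (fun m : ℕ => (ν m : ℝ) / m * m) atTop atTop :=
        hνratio.pos_mul_atTop one_pos hcast
      refine h7.congr' ?_
      filter_upwards [eventually_ge_atTop 1] with m hm1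
      have hm0 : (m : ℝ) ≠ 0 := by
        have : 0 < m := hm1
        positivity
      field_simp
    exact tendsto_natCast_atTop_iff.mp h6
  have haν : Tendsto (fun m : ℕ => a (ν m) / (ν m : ℝ)) atTop (𝓝 F) := hF.comp hνtop
  -- lower bound function
  have hlower : Tendsto (fun m : ℕ => (a (ν m) / (ν m : ℝ)) * ((ν m : ℝ) / m)
      - K0 / 2 * ((m : ℝ) ^ (1 - δ) / m)
      - C0 * (1 / ((2 * m : ℕ) : ℝ) + ((ρ m : ℝ) / m + K0 * ((m : ℝ) ^ (1 - δ) / m))
        + Real.log ((2 * m : ℕ) : ℝ) / ((2 * m : ℕ) : ℝ))) atTop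
      (𝓝 (F * 1 - K0 / 2 * 0 - C0 * (0 + (0 + K0 * 0) + 0))) := by
    refine ((haν.mul hνratio).sub ((tendsto_rpow_div δ hδ).const_mul _)).sub ?_
    exact ((hone.add (hρ3.add ((tendsto_rpow_div δ hδ).const_mul K0))).add hlog).const_mul C0
  have e0 : F * 1 - K0 / 2 * 0 - C0 * (0 + (0 + K0 * 0) + 0) = F := by ring
  rw [e0] at hlower
  refine tendsto_of_tendsto_of_tendsto_of_le_of_le' hlower hupper ?_ ?_
  · filter_upwards [hρlt, eventually_ge_atTop 1] with m hm hm1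
    have hm0 : (0 : ℝ) < m := by exact_mod_cast hm1
    have hν1 : 1 ≤ ν m := by rw [hν]; omega
    have hν1' : (0 : ℝ) < ν m := by exact_mod_cast hν1
    have hνm : (ν m : ℝ) = m - ρ m := by rw [hν, Nat.cast_sub hm.le]
    obtain ⟨M, hMe, hM4, hM1, hM2⟩ := h3 (ν m) hν1
    obtain ⟨A, hA⟩ : ∃ A, A = (m : ℝ) ^ (1 - δ) := ⟨_, rfl⟩
    have hA0 : 0 ≤ A := by rw [hA]; positivity
    have hνA : (ν m : ℝ) ^ (1 - δ) ≤ A := by
      rw [hA]
      apply Real.rpow_le_rpow hν1'.le _ hs.le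
      rw [hνm]
      have : (0 : ℝ) ≤ ρ m := Nat.cast_nonneg _
      linarith
    have hνA0 : 0 ≤ (ν m : ℝ) ^ (1 - δ) := by positivity
    have hKν : K * (ν m : ℝ) ^ (1 - δ) ≤ K0 * A := by
      calc K * (ν m : ℝ) ^ (1 - δ) ≤ K0 * (ν m : ℝ) ^ (1 - δ) :=
            mul_le_mul_of_nonneg_right hKK0 hνA0
        _ ≤ K0 * A := mul_le_mul_of_nonneg_left hνA hK0n
    have hM1' := abs_le.mp (hM1.trans hKν)
    have hr1 := hρ1 m
    rw [← hA] at hr1
    have hMle : (M : ℝ) ≤ 2 * m := by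
      have : 0 ≤ K0 * A := by positivity
      linarith [hM1'.2]
    have hMle' : M ≤ 2 * m := by exact_mod_cast hMle
    obtain ⟨s, hs'⟩ := hMe
    obtain ⟨h, hh⟩ : ∃ h, h = m - s := ⟨_, rfl⟩
    have hMh : M + 2 * h = 2 * m := by omega
    have h6 := h5 M h hM4 ⟨s, hs'⟩
    rw [hMh] at h6
    have hhr : 2 * (h : ℝ) = 2 * m - M := by
      have : (M : ℝ) + 2 * h = 2 * m := by exact_mod_cast hMh
      linarith
    have hh0 : (0 : ℝ) ≤ h := Nat.cast_nonneg _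
    have hM0 : (0 : ℝ) < M := by
      have : 0 < M := by omega
      exact_mod_cast this
    have hlogM : Real.log M ≤ Real.log ((2 * m : ℕ) : ℝ) := by
      apply Real.log_le_log hM0
      push_cast; exact hMle
    have hlogM0 : 0 ≤ Real.log M := by
      apply Real.log_nonneg
      have : (1 : ℕ) ≤ M := by omega
      exact_mod_cast this
    have hbound : (h : ℝ) ≤ ρ m + K0 * A := by
      have h7 := hM1'.1
      rw [hνm] at h7
      have : 0 ≤ K0 * A := by positivity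
      linarith
    have h8 : C * (1 + h + Real.log M) ≤
        C0 * (1 + (2 * ((ρ m : ℝ) + K0 * A)) + Real.log ((2 * m : ℕ) : ℝ)) := by
      calc C * (1 + h + Real.log M) ≤ C0 * (1 + h + Real.log M) :=
            mul_le_mul_of_nonneg_right hCC0 (by linarith)
        _ ≤ _ := by
          apply mul_le_mul_of_nonneg_left _ hC0n
          have : 0 ≤ K0 * A := by positivity
          have : (0 : ℝ) ≤ ρ m := Nat.cast_nonneg _
          linarith
    have h2m : (0 : ℝ) < ((2 * m : ℕ) : ℝ) := by push_cast; linarith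
    rw [le_div_iff₀ h2m, ← hA]
    have e1 : (a (ν m) / (ν m : ℝ) * ((ν m : ℝ) / m) - K0 / 2 * (A / m) -
        C0 * (1 / ((2 * m : ℕ) : ℝ) + ((ρ m : ℝ) / m + K0 * (A / m)) +
          Real.log ((2 * m : ℕ) : ℝ) / ((2 * m : ℕ) : ℝ))) * ((2 * m : ℕ) : ℝ) =
        2 * a (ν m) - K0 * A -
        C0 * (1 + (2 * ((ρ m : ℝ) + K0 * A)) + Real.log ((2 * m : ℕ) : ℝ)) := by
      push_cast
      field_simp
    rw [e1]
    linarith
  · filter_upwards [eventually_ge_atTop 2] with m hm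
    have h2m : (0 : ℝ) < ((2 * m : ℕ) : ℝ) := by
      have : 0 < 2 * m := by omega
      exact_mod_cast this
    have h6 := h4 (2 * m) (by omega) ⟨m, by ring⟩
    rw [div_le_iff₀ h2m]
    have e1 : (a (2 * m) / ((2 * m : ℕ) : ℝ) + C * (1 / ((2 * m : ℕ) : ℝ) +
        Real.log ((2 * m : ℕ) : ℝ) / ((2 * m : ℕ) : ℝ))) * ((2 * m : ℕ) : ℝ) =
        a (2 * m) + C * (1 + Real.log ((2 * m : ℕ) : ℝ)) := by
      field_simp
    rw [e1]; exact h6

end Pool.Agent.Helper772.L
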