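import Mathlib
import Pool.Agent.Helper772.Defs
import Pool.Agent.Helper772.W
set_option autoImplicit false
namespace Pool.Agent.Helper772.NF1

open Pool.Agent.Helper772.W (adjPairs_poly mem_polySet mem_sawSet)

open Filter Topology

/-! Given results (proved in another job; use as black boxes). -/

/-! Targets. -/

/-- Choice of the parameters `L`, `R`. -/
theorem choice_LR (d : ℕ) :
    ∃ K : ℝ, 0 ≤ K ∧ ∀ N : ℕ, 1 ≤ N → ∃ L R : ℕ, 2 ≤ L ∧ Even L ∧ 1 ≤ R ∧
      (N : ℝ) / L + ((R : ℝ) + (N : ℝ) ^ 2 / (R : ℝ) ^ 2) * (L : ℝ) ^ d ≤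
        K * (N : ℝ) ^ (1 - 1 / (3 * ((d : ℝ) + 1))) := by
  refine ⟨1 + 3 * 4 ^ d, by positivity, ?_⟩
  intro N hN
  have ha1 : (1 : ℝ) ≤ (N : ℝ) := by exact_mod_cast hN
  generalize (N : ℝ) = a at ha1
  have ha0 : 0 < a := by linarith
  have hd0 : (0 : ℝ) < (d : ℝ) + 1 := by positivity
  obtain ⟨δ, hδ⟩ : ∃ δ : ℝ, δ = 1 / (3 * ((d : ℝ) + 1)) := ⟨_, rfl⟩
  rw [← hδ]
  have hδ0 : 0 < δ := by rw [hδ]; positivity
  have hx1 : 1 ≤ a ^ δ := Real.one_le_rpow ha1 hδ0.le
  have hy1 : 1 ≤ a ^ (2/3 : ℝ) := Real.one_le_rpow ha1 (by norm_num)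
  have hxc1 : a ^ δ ≤ (⌈a ^ δ⌉₊ : ℝ) := Nat.le_ceil _
  have hxc2 : (⌈a ^ δ⌉₊ : ℝ) < a ^ δ + 1 := Nat.ceil_lt_add_one (by linarith)
  have hyc1 : a ^ (2/3 : ℝ) ≤ (⌈a ^ (2/3 : ℝ)⌉₊ : ℝ) := Nat.le_ceil _
  have hyc2 : (⌈a ^ (2/3 : ℝ)⌉₊ : ℝ) < a ^ (2/3 : ℝ) + 1 := Nat.ceil_lt_add_one (by linarith)
  have hxp : 1 ≤ ⌈a ^ δ⌉₊ := by
    have : (0 : ℝ) < (⌈a ^ δ⌉₊ : ℝ) := by linarith
    exact_mod_cast this
  have hyp : 1 ≤ ⌈a ^ (2/3 : ℝ)⌉₊ := by
    have : (0 : ℝ) < (⌈a ^ (2/3 : ℝ)⌉₊ : ℝ) := by linarith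
    exact_mod_cast this
  refine ⟨2 * ⌈a ^ δ⌉₊, ⌈a ^ (2/3 : ℝ)⌉₊, by omega, even_two_mul _, hyp, ?_⟩
  push_cast
  generalize (⌈a ^ δ⌉₊ : ℝ) = x at hxc1 hxc2
  generalize (⌈a ^ (2/3 : ℝ)⌉₊ : ℝ) = y at hyc1 hyc2
  have hx0 : 0 < x := by linarith
  have hy0 : 0 < y := by linarith
  -- first term
  have e1 : a / (2 * x) ≤ a ^ (1 - δ) := by
    rw [Real.rpow_sub ha0, Real.rpow_one]
    apply div_le_div_of_nonneg_left ha0.le (by linarith)
    linarith
  have e2 : a ^ 2 / y ^ 2 ≤ a ^ (2/3 : ℝ) := by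
    rw [div_le_iff₀ (by positivity)]
    have h1 : a ^ 2 = a ^ (2/3 : ℝ) * (a ^ (2/3 : ℝ)) ^ 2 := by
      rw [← Real.rpow_natCast (a ^ (2/3 : ℝ)) 2, ← Real.rpow_mul ha0.le, ← Real.rpow_add ha0,
        ← Real.rpow_natCast a 2]
      norm_num
    rw [h1]
    have h2 : (a ^ (2/3 : ℝ)) ^ 2 ≤ y ^ 2 := pow_le_pow_left₀ (by linarith) hyc1 2
    exact mul_le_mul_of_nonneg_left h2 (by linarith)
  have e3 : y + a ^ 2 / y ^ 2 ≤ 3 * a ^ (2/3 : ℝ) := by linarith
  have e4 : (2 * x) ^ d ≤ 4 ^ d * a ^ ((d : ℝ) * δ) := by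
    have h1 : 2 * x ≤ 4 * a ^ δ := by linarith
    have h2 := pow_le_pow_left₀ (by linarith) h1 d
    rw [mul_pow 4 (a ^ δ) d, ← Real.rpow_natCast (a ^ δ) d, ← Real.rpow_mul ha0.le,
      mul_comm δ (d : ℝ)] at h2
    exact h2
  have e5 : (y + a ^ 2 / y ^ 2) * (2 * x) ^ d ≤
      (3 * a ^ (2/3 : ℝ)) * (4 ^ d * a ^ ((d : ℝ) * δ)) := by
    apply mul_le_mul e3 e4 (by positivity) (by positivity)
  have e6 : (3 * a ^ (2/3 : ℝ)) * (4 ^ d * a ^ ((d : ℝ) * δ)) = 3 * 4 ^ d * a ^ (1 - δ) := by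
    have h1 : a ^ (1 - δ) = a ^ (2/3 : ℝ) * a ^ ((d : ℝ) * δ) := by
      rw [← Real.rpow_add ha0]
      congr 1
      rw [hδ]
      field_simp
      ring
    rw [h1]; ring
  have e7 : (1 + 3 * 4 ^ d) * a ^ (1 - δ) = a ^ (1 - δ) + 3 * 4 ^ d * a ^ (1 - δ) := by ring
  linarith

/-- Some end point carries at least the average weight. -/
theorem exists_endpoint (d : ℕ) (β : ℝ) (n : ℕ) :
    ∃ x : Fin d → ℤ, Zw d β n ≤ (2 * (n : ℝ) + 1) ^ d * Zwx d β n x := by
  classical
  let B : Finset (Fin d → ℤ) := Fintype.piFinset (fun _ : Fin d => Finset.Icc (-(n : ℤ)) (n : ℤ))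
  have hBcard : B.card = (2 * n + 1) ^ d := by
    simp only [B, Fintype.card_piFinset, Int.card_Icc, Finset.prod_const, Finset.card_univ,
      Fintype.card_fin]
    congr 1
    omega
  have hmem : ∀ w ∈ sawSet d n, w (Fin.last n) ∈ B := by
    intro w hw
    unfold sawSet at hw
    have h1 := (Finset.mem_filter.1 hw).1
    exact Fintype.mem_piFinset.1 h1 (Fin.last n)
  have hsum : Zw d β n = ∑ x ∈ B, Zwx d β n x := by
    unfold Zw Zwx
    have h := Finset.sum_fiberwise_of_maps_to (s := sawSet d n) (t := B)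
      (g := fun w => w (Fin.last n)) hmem
      (fun w => Real.exp (β * ((adjPairs (Finset.univ.image w) : ℝ) / 2 - n)))
    rw [← h]
  by_contra hcon
  push Not at hcon
  have hBne : B.Nonempty := by
    rw [← Finset.card_pos, hBcard]; positivity
  have hB0 : (0 : ℝ) < (2 * (n : ℝ) + 1) ^ d := by positivity
  have h1 : ∑ x ∈ B, (2 * (n : ℝ) + 1) ^ d * Zwx d β n x < ∑ _x ∈ B, Zw d β n :=
    Finset.sum_lt_sum_of_nonempty hBne (fun x _ => hcon x)
  rw [← Finset.mul_sum, ← hsum, Finset.sum_const, nsmul_eq_mul, hBcard] at h1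
  push_cast at h1
  exact lt_irrefl _ h1

/-- Reflection symmetry. -/
theorem Zwx_neg (d : ℕ) (β : ℝ) (n : ℕ) (x : Fin d → ℤ) : Zwx d β n (-x) = Zwx d β n x := by
  have hadj : ∀ w : Fin (n + 1) → Fin d → ℤ,
      adjPairs (Finset.univ.image (-w)) = adjPairs (Finset.univ.image w) := by
    intro w
    unfold adjPairs
    refine Finset.card_bij' (fun p _ => (-p.1, -p.2)) (fun p _ => (-p.1, -p.2)) ?_ ?_ ?_ ?_
    · intro p hp
      rw [Finset.mem_filter, Finset.mem_product] at hp ⊢
      obtain ⟨⟨h1, h2⟩, h3⟩ := hp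
      rw [Finset.mem_image] at h1 h2
      obtain ⟨i, _, hi⟩ := h1
      obtain ⟨j, _, hj⟩ := h2
      refine ⟨⟨Finset.mem_image.2 ⟨i, Finset.mem_univ _, ?_⟩,
        Finset.mem_image.2 ⟨j, Finset.mem_univ _, ?_⟩⟩, ?_⟩
      · simp only [← hi, Pi.neg_apply, neg_neg]
      · simp only [← hj, Pi.neg_apply, neg_neg]
      · rw [← h3]
        apply Finset.sum_congr rfl
        intro k _
        rw [← abs_neg (p.1 k - p.2 k)]
        congr 1
        simp only [Pi.neg_apply]
        ring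
    · intro p hp
      rw [Finset.mem_filter, Finset.mem_product] at hp ⊢
      obtain ⟨⟨h1, h2⟩, h3⟩ := hp
      rw [Finset.mem_image] at h1 h2
      obtain ⟨i, _, hi⟩ := h1
      obtain ⟨j, _, hj⟩ := h2
      refine ⟨⟨Finset.mem_image.2 ⟨i, Finset.mem_univ _, ?_⟩,
        Finset.mem_image.2 ⟨j, Finset.mem_univ _, ?_⟩⟩, ?_⟩
      · simp only [← hi, Pi.neg_apply]
      · simp only [← hj, Pi.neg_apply]
      · rw [← h3]
        apply Finset.sum_congr rfl
        intro k _
        rw [← abs_neg (p.1 k - p.2 k)]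
        congr 1
        simp only [Pi.neg_apply]
        ring
    · intro p _
      simp only [neg_neg, Prod.mk.eta]
    · intro p _
      simp only [neg_neg, Prod.mk.eta]
  have hsaw : ∀ w ∈ sawSet d n, -w ∈ sawSet d n := by
    intro w hw
    rw [mem_sawSet] at hw ⊢
    obtain ⟨h1, h2, h3⟩ := hw
    refine ⟨?_, ?_, ?_⟩
    · rw [Pi.neg_apply, h1, neg_zero]
    · exact neg_injective.comp h2
    · intro i
      rw [← h3 i]
      apply Finset.sum_congr rfl
      intro k _
      rw [← abs_neg (w i.castSucc k - w i.succ k)]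
      congr 1
      simp only [Pi.neg_apply]
      ring
  unfold Zwx
  refine Finset.sum_nbij' (fun w => -w) (fun w => -w) ?_ ?_ ?_ ?_ ?_
  · intro w hw
    rw [Finset.mem_filter] at hw ⊢
    exact ⟨hsaw w hw.1, by rw [Pi.neg_apply, hw.2, neg_neg]⟩
  · intro w hw
    rw [Finset.mem_filter] at hw ⊢
    exact ⟨hsaw w hw.1, by rw [Pi.neg_apply, hw.2]⟩
  · intro w _
    exact neg_neg w
  · intro w _
    exact neg_neg w
  · intro w _
    rw [hadj w]

/-- the unit square: polygons exist for every even length at least `4`. -/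
theorem Zp_pos (d : ℕ) (hd : 2 ≤ d) (β : ℝ) (hβ : 0 ≤ β) (m : ℕ) (hm : 2 ≤ m) : 1 ≤ Zp d β (2 * m) := by
  obtain ⟨e, rfl⟩ : ∃ e, d = e + 2 := ⟨d - 2, by omega⟩
  let v : ℤ → ℤ → Fin (e + 2) → ℤ := fun x y => Fin.cons x (Fin.cons y 0)
  have hv : ∀ x y x' y' : ℤ, ∑ k, |v x y k - v x' y' k| = |x - x'| + |y - y'| := by
    intro x y x' y'
    simp only [v, Fin.sum_univ_succ, Fin.cons_zero, Fin.cons_succ, Pi.zero_apply, sub_zero,
      abs_zero, Finset.sum_const_zero, add_zero]
  have hv0 : ∀ x y : ℤ, v x y 0 = x := fun x y => rfl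
  have hv1 : ∀ x y : ℤ, v x y 1 = y := fun x y => rfl
  have hvz : v 0 0 = 0 := by
    funext k
    refine Fin.cases rfl (fun k => ?_) k
    refine Fin.cases rfl (fun k => ?_) k
    rfl
  let X : ℕ → ℤ := fun k => if k < m then (k : ℤ) else if k < 2 * m then 2 * (m : ℤ) - 1 - k else 0
  let Y : ℕ → ℤ := fun k => if k < m then 0 else if k < 2 * m then 1 else 0
  let w : Fin (2 * m + 1) → Fin (e + 2) → ℤ := fun k => v (X k.val) (Y k.val)
  have hw : w ∈ polySet (e + 2) (2 * m) := by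
    rw [mem_polySet]
    refine ⟨?_, ?_, ?_, ?_⟩
    · show v (X 0) (Y 0) = 0
      have h1 : X 0 = 0 := by
        simp only [X]
        rw [if_pos (by omega)]; rfl
      have h2 : Y 0 = 0 := by
        simp only [Y]
        rw [if_pos (by omega)]
      rw [h1, h2, hvz]
    · show v (X (2 * m)) (Y (2 * m)) = 0
      have h1 : X (2 * m) = 0 := by
        simp only [X]
        rw [if_neg (by omega), if_neg (by omega)]
      have h2 : Y (2 * m) = 0 := by
        simp only [Y]
        rw [if_neg (by omega), if_neg (by omega)]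
      rw [h1, h2, hvz]
    · intro i j hij
      have h0 : X i.val = X j.val := by
        have := congrFun hij 0
        exact this
      have h1 : Y i.val = Y j.val := by
        have := congrFun hij 1
        exact this
      have hi := i.isLt
      have hj := j.isLt
      apply Fin.ext
      simp only [X] at h0
      simp only [Y] at h1
      split_ifs at h0 h1 <;> omega
    · intro i
      show ∑ k, |v (X i.val) (Y i.val) k - v (X (i.val + 1)) (Y (i.val + 1)) k| = 1
      rw [hv]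
      have hi := i.isLt
      by_cases c1 : i.val + 1 < m
      · have a1 : X i.val = i.val := if_pos (by omega)
        have a2 : X (i.val + 1) = ((i.val + 1 : ℕ) : ℤ) := if_pos c1
        have a3 : Y i.val = 0 := if_pos (by omega)
        have a4 : Y (i.val + 1) = 0 := if_pos c1
        rw [a1, a2, a3, a4]
        have : ((i.val : ℤ) - ((i.val + 1 : ℕ) : ℤ)) = -1 := by push_cast; ring
        rw [this]; norm_num
      · by_cases c2 : i.val + 1 = m
        · have a1 : X i.val = i.val := if_pos (by omega)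
          have a2 : X (i.val + 1) = 2 * (m : ℤ) - 1 - ((i.val + 1 : ℕ) : ℤ) := by
            simp only [X]
            rw [if_neg (by omega), if_pos (by omega)]
          have a3 : Y i.val = 0 := if_pos (by omega)
          have a4 : Y (i.val + 1) = 1 := by
            simp only [Y]
            rw [if_neg (by omega), if_pos (by omega)]
          rw [a1, a2, a3, a4]
          have c2' : (i.val : ℤ) + 1 = (m : ℤ) := by exact_mod_cast c2
          have : ((i.val : ℤ) - (2 * (m : ℤ) - 1 - ((i.val + 1 : ℕ) : ℤ))) = 0 := by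
            push_cast; linarith
          rw [this]; norm_num
        · by_cases c3 : i.val + 1 < 2 * m
          · have a1 : X i.val = 2 * (m : ℤ) - 1 - (i.val : ℤ) := by
              simp only [X]
              rw [if_neg (by omega), if_pos (by omega)]
            have a2 : X (i.val + 1) = 2 * (m : ℤ) - 1 - ((i.val + 1 : ℕ) : ℤ) := by
              simp only [X]
              rw [if_neg (by omega), if_pos (by omega)]
            have a3 : Y i.val = 1 := by
              simp only [Y]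
              rw [if_neg (by omega), if_pos (by omega)]
            have a4 : Y (i.val + 1) = 1 := by
              simp only [Y]
              rw [if_neg (by omega), if_pos (by omega)]
            rw [a1, a2, a3, a4]
            have : (2 * (m : ℤ) - 1 - (i.val : ℤ) - (2 * (m : ℤ) - 1 - ((i.val + 1 : ℕ) : ℤ))) = 1 := by
              push_cast; ring
            rw [this]; norm_num
          · have hi2 : i.val + 1 = 2 * m := by omega
            have a1 : X i.val = 2 * (m : ℤ) - 1 - (i.val : ℤ) := by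
              simp only [X]
              rw [if_neg (by omega), if_pos (by omega)]
            have a2 : X (i.val + 1) = 0 := by
              simp only [X]
              rw [if_neg (by omega), if_neg (by omega)]
            have a3 : Y i.val = 1 := by
              simp only [Y]
              rw [if_neg (by omega), if_pos (by omega)]
            have a4 : Y (i.val + 1) = 0 := by
              simp only [Y]
              rw [if_neg (by omega), if_neg (by omega)]
            rw [a1, a2, a3, a4]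
            have h5 : (i.val : ℤ) + 1 = 2 * (m : ℤ) := by exact_mod_cast hi2
            have : (2 * (m : ℤ) - 1 - (i.val : ℤ) - 0) = 0 := by linarith
            rw [this]; norm_num
  have hweight := adjPairs_poly (e + 2) m hm w hw
  unfold Zp
  have h1 : (1 : ℝ) ≤ Real.exp (β * ((adjPairs (Finset.univ.image w) : ℝ) / 2 - ((2 * m : ℕ) : ℝ))) := by
    apply Real.one_le_exp
    apply mul_nonneg hβ
    rw [hweight]
    push_cast
    have : (0 : ℝ) ≤ (((Finset.univ : Finset (Fin (2 * m) × Fin (2 * m))).filter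
            (fun p => p.1.val + 2 ≤ p.2.val ∧ ¬ (p.1.val = 0 ∧ p.2.val + 1 = 2 * m) ∧
              ∑ j, |w p.1.castSucc j - w p.2.castSucc j| = 1)).card : ℝ) := Nat.cast_nonneg _
    linarith
  refine h1.trans ?_
  exact Finset.single_le_sum
    (f := fun w => Real.exp (β * ((adjPairs (Finset.univ.image w) : ℝ) / 2 - ((2 * m : ℕ) : ℝ))))
    (fun w _ => (Real.exp_pos _).le) hw

end Pool.Agent.Helper772.NF1
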