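import Mathlib
import Pool.Agent.Helper772.Defs
import Pool.Agent.Helper772.HDefs
import Pool.Agent.Helper772.HNE
import Pool.Agent.Helper772.HR1
import Pool.Agent.Helper772.HR3
import Pool.Agent.Helper772.L
import Pool.Agent.Helper772.NF1
import Pool.Agent.Helper772.W
set_option autoImplicit false
namespace Pool.Agent.Helper772.HNF

open Pool.Agent.Helper772.HNE (main_ineq_H)
open Pool.Agent.Helper772.HR1 (PH_le_ZH ZH_add_le ZH_endpoint ZH_lower Zpp_symm)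
open Pool.Agent.Helper772.HR3 (PH_extend PH_pos)
open Pool.Agent.Helper772.L (limit_poly limit_walk)
open Pool.Agent.Helper772.NF1 (choice_LR)
open Pool.Agent.Helper772.W (polySet_even)

open Filter Topology

/-! Given results (proved elsewhere, use as black boxes). -/

/-! Targets. -/

lemma hnf_pow_bounds (d : ℕ) (N : ℝ) (hN : 1 ≤ N) :
    1 ≤ N ^ (1 - 1 / (3 * ((d : ℝ) + 1))) ∧
      Real.log N ≤ 2 * N ^ (1 - 1 / (3 * ((d : ℝ) + 1))) ∧
      Real.log (2 * N + 1) ≤ 4 * N ^ (1 - 1 / (3 * ((d : ℝ) + 1))) := by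
  have hd : (0 : ℝ) ≤ d := Nat.cast_nonneg d
  set δ : ℝ := 1 / (3 * ((d : ℝ) + 1)) with hδ
  have hδ0 : 0 < δ := by positivity
  have hδ1 : δ ≤ 1 / 3 := by
    rw [hδ]
    apply one_div_le_one_div_of_le (by norm_num)
    linarith
  have h1 : 1 ≤ N ^ (1 - δ) := Real.one_le_rpow hN (by linarith)
  have h2 : Real.log N ≤ 2 * N ^ (1 - δ) := by
    have h3 := Real.log_le_rpow_div (by linarith : (0 : ℝ) ≤ N) (by linarith : 0 < 1 - δ)
    have h4 : N ^ (1 - δ) / (1 - δ) ≤ 2 * N ^ (1 - δ) := by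
      rw [div_le_iff₀ (by linarith)]
      nlinarith
    linarith
  refine ⟨h1, h2, ?_⟩
  have h5 : Real.log (2 * N + 1) ≤ Real.log (3 * N) :=
    Real.log_le_log (by linarith) (by linarith)
  have h6 : Real.log (3 * N) = Real.log 3 + Real.log N :=
    Real.log_mul (by norm_num) (by linarith)
  have h7 : Real.log 3 ≤ 2 := by
    have := Real.log_le_sub_one_of_pos (by norm_num : (0 : ℝ) < 3)
    linarith
  linarith

lemma hnf_Zpp_nonneg (ζ g : ℝ) (n : ℕ) (p q : Fin 3 → ℤ) : 0 ≤ Zpp ζ g n p q := by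
  unfold Zpp
  exact Finset.sum_nonneg fun _ _ => (Real.exp_pos _).le

lemma hnf_PH_even (ζ g : ℝ) (M : ℕ) (h : 0 < PH ζ g M) : Even M := by
  unfold PH at h
  by_contra hM
  have : polySet 3 M = ∅ := by
    apply Finset.eq_empty_of_forall_notMem
    intro w hw
    exact hM (polySet_even 3 M w hw)
  rw [this] at h
  simp at h

lemma hnf_ZH_pos (ζ g : ℝ) (n : ℕ) : 0 < ZH ζ g n :=
  lt_of_lt_of_le (Real.exp_pos ζ) (ZH_lower ζ g n)

lemma hnf_log2 : Real.log 2 ≤ 1 := by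
  have := Real.log_le_sub_one_of_pos (by norm_num : (0 : ℝ) < 2)
  linarith

lemma hnf_Zpp_pos (ζ g : ℝ) (n : ℕ) (x : Fin 3 → ℤ)
    (hx : ZH ζ g n ≤ (2 * (n : ℝ) + 1) ^ 3 * Zpp ζ g n 0 x) : 0 < Zpp ζ g n 0 x := by
  by_contra hcon
  have h0 : Zpp ζ g n 0 x = 0 := le_antisymm (not_lt.mp hcon) (hnf_Zpp_nonneg ζ g n 0 x)
  rw [h0, mul_zero] at hx
  exact absurd hx (not_le.mpr (hnf_ZH_pos ζ g n))

/-- closing up two walks -/
lemma hnf_two (ζ g : ℝ) :
    ∃ K : ℝ, 0 ≤ K ∧ ∀ n : ℕ, 1 ≤ n → ∃ M : ℕ, 3 ≤ M ∧ 0 < PH ζ g M ∧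
      |(M : ℝ) - 2 * n| ≤ K * (n : ℝ) ^ (1 - 1 / (3 * (((3 : ℕ) : ℝ) + 1))) ∧
      2 * Real.log (ZH ζ g n) ≤ Real.log (PH ζ g M) +
        K * (n : ℝ) ^ (1 - 1 / (3 * (((3 : ℕ) : ℝ) + 1))) := by
  obtain ⟨C, hC, hmain⟩ := main_ineq_H ζ g 2
  obtain ⟨K0, hK0, hLR⟩ := choice_LR 3
  refine ⟨2 * (C * K0) + 24, by positivity, ?_⟩
  intro n hn
  obtain ⟨x, hx⟩ := ZH_endpoint ζ g n
  obtain ⟨L, R, hL, hLe, hR, hΦ⟩ := hLR (2 * n) (by omega)
  set Φ : ℝ := ((2 * n : ℕ) : ℝ) / L +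
    ((R : ℝ) + ((2 * n : ℕ) : ℝ) ^ 2 / (R : ℝ) ^ 2) * (L : ℝ) ^ 3 with hΦd
  obtain ⟨M, hM3, hMN, hprod⟩ := hmain ![n, n] (by intro i; fin_cases i <;> simpa using hn)
    ![0, x] (by simp) L R hL hLe hR (2 * n)
    (by simp [Fin.sum_univ_two]; ring) Φ hΦd
  have hn1 : (1 : ℝ) ≤ n := by exact_mod_cast hn
  have hZw : 0 < ZH ζ g n := hnf_ZH_pos ζ g n
  have hpow : (0 : ℝ) < (2 * (n : ℝ) + 1) ^ 3 := by positivity
  have hZx : 0 < Zpp ζ g n 0 x := hnf_Zpp_pos ζ g n x hx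
  have hprod' : Zpp ζ g n 0 x * Zpp ζ g n 0 x ≤ Real.exp (C * Φ) * PH ζ g M := by
    have h := hprod
    rw [Fin.prod_univ_two] at h
    have e1 : (![(0 : Fin 3 → ℤ), x]) (0 + 1) = x := rfl
    have e2 : (![(0 : Fin 3 → ℤ), x]) (1 + 1) = 0 := rfl
    rw [e1, e2] at h
    simp only [Matrix.cons_val_zero, Matrix.cons_val_one] at h
    rw [Zpp_symm ζ g n x 0] at h
    exact h
  have hZp : 0 < PH ζ g M := by
    have h1 : 0 < Zpp ζ g n 0 x * Zpp ζ g n 0 x := by positivity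
    have h2 : 0 < Real.exp (C * Φ) * PH ζ g M := lt_of_lt_of_le h1 hprod'
    exact (mul_pos_iff_of_pos_left (Real.exp_pos _)).mp h2
  obtain ⟨hb1, hb2, hb3⟩ := hnf_pow_bounds 3 (n : ℝ) hn1
  set δ : ℝ := 1 / (3 * (((3 : ℕ) : ℝ) + 1)) with hδ
  have hδ0 : 0 < δ := by positivity
  have hδ1 : δ ≤ 1 / 3 := by
    rw [hδ]
    apply one_div_le_one_div_of_le (by norm_num)
    norm_num
  clear_value δ
  clear hδ
  have hΦ2 : Φ ≤ 2 * K0 * (n : ℝ) ^ (1 - δ) := by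
    refine le_trans hΦ ?_
    have h1 : (((2 * n : ℕ) : ℝ)) ^ (1 - δ) ≤ 2 * (n : ℝ) ^ (1 - δ) := by
      push_cast
      rw [Real.mul_rpow (by norm_num) (by linarith)]
      apply mul_le_mul_of_nonneg_right _ (by positivity)
      calc (2 : ℝ) ^ (1 - δ) ≤ 2 ^ (1 : ℝ) :=
            Real.rpow_le_rpow_of_exponent_le (by norm_num) (by linarith)
        _ = 2 := by norm_num
    calc K0 * (((2 * n : ℕ) : ℝ)) ^ (1 - δ) ≤ K0 * (2 * (n : ℝ) ^ (1 - δ)) :=
          mul_le_mul_of_nonneg_left h1 hK0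
      _ = 2 * K0 * (n : ℝ) ^ (1 - δ) := by ring
  have hCΦ : C * Φ ≤ 2 * (C * K0) * (n : ℝ) ^ (1 - δ) := by
    calc C * Φ ≤ C * (2 * K0 * (n : ℝ) ^ (1 - δ)) := mul_le_mul_of_nonneg_left hΦ2 hC
      _ = _ := by ring
  have hd8 : 0 ≤ 24 * (n : ℝ) ^ (1 - δ) := by positivity
  refine ⟨M, hM3, hZp, ?_, ?_⟩
  · push_cast at hMN
    refine le_trans hMN ?_
    linarith [hCΦ, hd8, add_mul (2 * (C * K0)) (24 : ℝ) ((n : ℝ) ^ (1 - δ))]
  · have h1 : Real.log (ZH ζ g n) ≤ 3 * Real.log (2 * n + 1) + Real.log (Zpp ζ g n 0 x) := by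
      have h2 := Real.log_le_log hZw hx
      rw [Real.log_mul hpow.ne' hZx.ne', Real.log_pow] at h2
      exact_mod_cast h2
    have h3 : 2 * Real.log (Zpp ζ g n 0 x) ≤ C * Φ + Real.log (PH ζ g M) := by
      have h4 := Real.log_le_log (by positivity) hprod'
      rw [Real.log_mul hZx.ne' hZx.ne', Real.log_mul (Real.exp_pos _).ne' hZp.ne',
        Real.log_exp] at h4
      linarith
    nlinarith [hCΦ, h1, h3, hb3]

/-- from closed walks to walks -/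
lemma hnf_close (ζ g : ℝ) :
    ∃ c : ℝ, 1 ≤ c ∧ ∀ M N : ℕ, 3 ≤ M → 1 ≤ N → 0 < PH ζ g M → ∀ D : ℝ, |(M : ℝ) - N| ≤ D →
      Real.log (PH ζ g M) ≤ Real.log (ZH ζ g N) + Real.log N + c * (1 + D) := by
  obtain ⟨C2, hC2, htr⟩ := PH_le_ZH ζ g
  obtain ⟨C3, hC3, hex⟩ := PH_extend ζ g
  have l2 : 0 ≤ Real.log C2 := Real.log_nonneg hC2
  have l3 : 0 ≤ Real.log C3 := Real.log_nonneg hC3
  refine ⟨1 + Real.log C3 + 2 * Real.log C2, by linarith, ?_⟩
  intro M N hM hN hpos D hD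
  have hD0 : 0 ≤ D := (abs_nonneg _).trans hD
  have habs := abs_le.mp hD
  have hN1 : (1 : ℝ) ≤ N := by exact_mod_cast hN
  have hlogN : 0 ≤ Real.log N := Real.log_nonneg hN1
  have hZN : 0 < ZH ζ g N := hnf_ZH_pos ζ g N
  have g1 : 0 ≤ Real.log C2 * D := by positivity
  have g2 : 0 ≤ Real.log C3 * D := by positivity
  by_cases hMN' : N < M
  · have h1 := htr M N hMN'
    have h2 := Real.log_le_log hpos h1
    rw [Real.log_mul (by positivity) hZN.ne', Real.log_pow, Nat.cast_sub hMN'.le] at h2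
    have h3 : ((M : ℝ) - N) * Real.log C2 ≤ D * Real.log C2 :=
      mul_le_mul_of_nonneg_right habs.2 l2
    nlinarith
  · push Not at hMN'
    obtain ⟨h, hh1, hh2⟩ : ∃ h : ℕ, N < M + 2 * h ∧ M + 2 * h ≤ N + 2 :=
      ⟨(N - M) / 2 + 1, by omega, by omega⟩
    have h1 := hex M h hM
    have h2 := htr (M + 2 * h) N hh1
    have hM0 : (0 : ℝ) < M := by exact_mod_cast (by omega : 0 < M)
    have h3 : PH ζ g M ≤ 2 * (M : ℝ) * C3 ^ h * (C2 ^ (M + 2 * h - N) * ZH ζ g N) :=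
      h1.trans (mul_le_mul_of_nonneg_left h2 (by positivity))
    have h4 := Real.log_le_log hpos h3
    rw [Real.log_mul (by positivity) (by positivity), Real.log_mul (by positivity) (by positivity),
      Real.log_mul (by norm_num) hM0.ne', Real.log_pow, Real.log_mul (by positivity) hZN.ne',
      Real.log_pow] at h4
    have h5 : Real.log M ≤ Real.log N :=
      Real.log_le_log hM0 (by exact_mod_cast hMN')
    have h6 : ((M + 2 * h - N : ℕ) : ℝ) ≤ 2 := by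
      have : M + 2 * h - N ≤ 2 := by omega
      exact_mod_cast this
    have h7 : (h : ℝ) ≤ 1 + D := by
      have h8 : ((M + 2 * h : ℕ) : ℝ) ≤ ((N + 2 : ℕ) : ℝ) := by exact_mod_cast hh2
      push_cast at h8
      have h9 : (0 : ℝ) ≤ h := Nat.cast_nonneg h
      linarith
    have h8 := mul_le_mul_of_nonneg_right h6 l2
    have h9 := mul_le_mul_of_nonneg_right h7 l3
    have h10 := hnf_log2
    nlinarith

/-- closing up four walks -/
lemma hnf_four (ζ g : ℝ) :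
    ∃ K : ℝ, 0 ≤ K ∧ ∀ n m : ℕ, 1 ≤ n → 1 ≤ m →
      2 * Real.log (ZH ζ g n) + 2 * Real.log (ZH ζ g m) ≤ Real.log (ZH ζ g (2 * (n + m))) +
        K * ((n + m : ℕ) : ℝ) ^ (1 - 1 / (3 * (((3 : ℕ) : ℝ) + 1))) := by
  obtain ⟨C, hC, hmain⟩ := main_ineq_H ζ g 4
  obtain ⟨K0, hK0, hLR⟩ := choice_LR 3
  obtain ⟨c, hc, hclose⟩ := hnf_close ζ g
  refine ⟨(1 + c) * (2 * (C * K0)) + 100 + c, by positivity, ?_⟩
  intro n m hn hm
  obtain ⟨x, hx⟩ := ZH_endpoint ζ g n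
  obtain ⟨y, hy⟩ := ZH_endpoint ζ g m
  obtain ⟨L, R, hL, hLe, hR, hΦ⟩ := hLR (2 * (n + m)) (by omega)
  set N : ℕ := 2 * (n + m) with hN
  set Φ : ℝ := (N : ℝ) / L + ((R : ℝ) + (N : ℝ) ^ 2 / (R : ℝ) ^ 2) * (L : ℝ) ^ 3 with hΦd
  obtain ⟨M, hM3, hMN, hprod⟩ := hmain ![n, n, m, m]
    (by intro i; fin_cases i <;> simp <;> omega)
    ![0, x, 0, y] (by simp) L R hL hLe hR N
    (by simp [Fin.sum_univ_four]; omega) Φ hΦd
  have hn1 : (1 : ℝ) ≤ n := by exact_mod_cast hn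
  have hm1 : (1 : ℝ) ≤ m := by exact_mod_cast hm
  have hNR : (N : ℝ) = 2 * ((n + m : ℕ) : ℝ) := by rw [hN]; push_cast; ring
  have hNn : (n : ℝ) ≤ N := by rw [hNR]; push_cast; linarith
  have hNm : (m : ℝ) ≤ N := by rw [hNR]; push_cast; linarith
  have hN1 : (1 : ℝ) ≤ N := by linarith
  have hZx := hnf_Zpp_pos ζ g n x hx
  have hZy := hnf_Zpp_pos ζ g m y hy
  have hprod' : Zpp ζ g n 0 x * Zpp ζ g n 0 x * Zpp ζ g m 0 y * Zpp ζ g m 0 y ≤
      Real.exp (C * Φ) * PH ζ g M := by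
    have h := hprod
    rw [Fin.prod_univ_four] at h
    have e1 : (![(0 : Fin 3 → ℤ), x, 0, y]) (0 + 1) = x := rfl
    have e2 : (![(0 : Fin 3 → ℤ), x, 0, y]) (1 + 1) = 0 := rfl
    have e3 : (![(0 : Fin 3 → ℤ), x, 0, y]) (2 + 1) = y := rfl
    have e4 : (![(0 : Fin 3 → ℤ), x, 0, y]) (3 + 1) = 0 := rfl
    rw [e1, e2, e3, e4] at h
    simp only [Matrix.cons_val_zero, Matrix.cons_val_one, Matrix.cons_val] at h
    rw [Zpp_symm ζ g n x 0, Zpp_symm ζ g m y 0] at h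
    exact h
  have hZp : 0 < PH ζ g M := by
    have h1 : 0 < Zpp ζ g n 0 x * Zpp ζ g n 0 x * Zpp ζ g m 0 y * Zpp ζ g m 0 y := by positivity
    have h2 : 0 < Real.exp (C * Φ) * PH ζ g M := lt_of_lt_of_le h1 hprod'
    exact (mul_pos_iff_of_pos_left (Real.exp_pos _)).mp h2
  obtain ⟨hb1, hb2, hb3⟩ := hnf_pow_bounds 3 (N : ℝ) hN1
  set δ : ℝ := 1 / (3 * (((3 : ℕ) : ℝ) + 1)) with hδ
  have hδ0 : 0 < δ := by positivity
  have hδ1 : δ ≤ 1 / 3 := by
    rw [hδ]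
    apply one_div_le_one_div_of_le (by norm_num)
    norm_num
  clear_value δ
  clear hδ
  set s : ℝ := ((n + m : ℕ) : ℝ) ^ (1 - δ) with hs
  have hN2s : (N : ℝ) ^ (1 - δ) ≤ 2 * s := by
    rw [hNR, Real.mul_rpow (by norm_num) (by positivity)]
    apply mul_le_mul_of_nonneg_right _ (by positivity)
    calc (2 : ℝ) ^ (1 - δ) ≤ 2 ^ (1 : ℝ) :=
          Real.rpow_le_rpow_of_exponent_le (by norm_num) (by linarith)
      _ = 2 := by norm_num
  have hs0 : 0 ≤ s := by positivity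
  have hs1 : 1 ≤ s := by
    apply Real.one_le_rpow _ (by linarith)
    push_cast
    linarith
  have hΦ0 : 0 ≤ Φ := by positivity
  have hΦ2 : Φ ≤ 2 * K0 * s := by
    calc Φ ≤ K0 * (N : ℝ) ^ (1 - δ) := hΦ
      _ ≤ K0 * (2 * s) := mul_le_mul_of_nonneg_left hN2s hK0
      _ = 2 * K0 * s := by ring
  have hCΦ : C * Φ ≤ 2 * (C * K0) * s := by
    calc C * Φ ≤ C * (2 * K0 * s) := mul_le_mul_of_nonneg_left hΦ2 hC
      _ = _ := by ring
  have hCΦ0 : 0 ≤ C * Φ := by positivity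
  have hlogN : Real.log N ≤ 4 * s := by linarith
  have hlogN2 : Real.log (2 * N + 1) ≤ 8 * s := by linarith
  have hcl := hclose M N hM3 (by omega) hZp (C * Φ) hMN
  have hend : ∀ (k : ℕ) (z : Fin 3 → ℤ), (k : ℝ) ≤ N → 0 < Zpp ζ g k 0 z →
      ZH ζ g k ≤ (2 * (k : ℝ) + 1) ^ 3 * Zpp ζ g k 0 z →
      Real.log (ZH ζ g k) ≤ 3 * (8 * s) + Real.log (Zpp ζ g k 0 z) := by
    intro k z hk h2 h3
    have h4 := Real.log_le_log (hnf_ZH_pos ζ g k) h3
    rw [Real.log_mul (by positivity) h2.ne', Real.log_pow] at h4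
    have hk0 : (0 : ℝ) ≤ k := Nat.cast_nonneg k
    have h5 : Real.log (2 * (k : ℝ) + 1) ≤ Real.log (2 * (N : ℝ) + 1) :=
      Real.log_le_log (by linarith) (by linarith)
    push_cast at h4
    linarith
  have hn' := hend n x hNn hZx hx
  have hm' := hend m y hNm hZy hy
  have h3 : 2 * Real.log (Zpp ζ g n 0 x) + 2 * Real.log (Zpp ζ g m 0 y) ≤
      C * Φ + Real.log (PH ζ g M) := by
    have h4 := Real.log_le_log (by positivity) hprod'
    rw [Real.log_mul (by positivity) hZy.ne', Real.log_mul (by positivity) hZy.ne',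
      Real.log_mul hZx.ne' hZx.ne', Real.log_mul (Real.exp_pos _).ne' hZp.ne',
      Real.log_exp] at h4
    linarith
  have h7 : (1 + c) * (C * Φ) ≤ (1 + c) * (2 * (C * K0) * s) :=
    mul_le_mul_of_nonneg_left hCΦ (by linarith)
  have h8 : c ≤ c * s := by nlinarith
  have h9 : ((1 + c) * (2 * (C * K0)) + 100 + c) * s =
      (1 + c) * (2 * (C * K0) * s) + 100 * s + c * s := by ring
  rw [h9]
  have h10 : (1 + c) * (C * Φ) = C * Φ + c * (C * Φ) := by ring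
  have h11 : c * (1 + C * Φ) = c + c * (C * Φ) := by ring
  linarith

/-- The free energies of adsorbing and interacting walks and polygons exist and coincide. -/
theorem free_energy_H (ζ g : ℝ) :
    ∃ F : ℝ, Tendsto (fun n : ℕ => Real.log (ZH ζ g n) / n) atTop (𝓝 F) ∧
      Tendsto (fun m : ℕ => Real.log (PH ζ g (2 * m)) / ((2 * m : ℕ) : ℝ)) atTop (𝓝 F) := by
  obtain ⟨K2, hK2, htwo⟩ := hnf_two ζ g
  obtain ⟨K4, hK4, hfour⟩ := hnf_four ζ g
  obtain ⟨C1, hC1, hadd⟩ := ZH_add_le ζ g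
  obtain ⟨C2, hC2, htr⟩ := PH_le_ZH ζ g
  obtain ⟨C3, hC3, hex⟩ := PH_extend ζ g
  have l2 : 0 ≤ Real.log C2 := Real.log_nonneg hC2
  have l3 : 0 ≤ Real.log C3 := Real.log_nonneg hC3
  have hz0 : 0 ≤ |ζ| := abs_nonneg ζ
  set δ : ℝ := 1 / (3 * (((3 : ℕ) : ℝ) + 1)) with hδ
  have hδ0 : 0 < δ := by positivity
  have hδ1 : δ ≤ 1 / 3 := by
    rw [hδ]
    apply one_div_le_one_div_of_le (by norm_num)
    norm_num
  clear_value δ
  clear hδ
  have hw : ∀ n, 0 < ZH ζ g n := fun n => hnf_ZH_pos ζ g n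
  have hwl : ∀ n, 0 ≤ Real.log (ZH ζ g n) + |ζ| := by
    intro n
    have h1 := Real.log_le_log (Real.exp_pos ζ) (ZH_lower ζ g n)
    rw [Real.log_exp] at h1
    have := neg_abs_le ζ
    linarith
  have hp : ∀ M : ℕ, 4 ≤ M → Even M → 0 < PH ζ g M := by
    intro M hM hMe
    obtain ⟨m, hm⟩ := hMe
    have : M = 2 * m := by omega
    rw [this]
    exact PH_pos ζ g m (by omega)
  obtain ⟨F, hF⟩ := limit_walk (fun n => Real.log (ZH ζ g n) + |ζ|) (Real.log C1)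
    (K4 + 3 * |ζ|) δ hδ0 (by linarith) hwl
    (by
      intro n j
      have h1 := Real.log_le_log (hw (n + j)) (hadd n j)
      rw [Real.log_mul (by positivity) (hw n).ne', Real.log_pow] at h1
      linarith)
    (by
      intro n m hn hm
      have h1 := hfour n m hn hm
      have h2 : (1 : ℝ) ≤ ((n + m : ℕ) : ℝ) ^ (1 - δ) := by
        apply Real.one_le_rpow _ (by linarith)
        exact_mod_cast (by omega : 1 ≤ n + m)
      have h3 : |ζ| ≤ |ζ| * ((n + m : ℕ) : ℝ) ^ (1 - δ) := by nlinarith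
      have h4 : (K4 + 3 * |ζ|) * ((n + m : ℕ) : ℝ) ^ (1 - δ) =
        K4 * ((n + m : ℕ) : ℝ) ^ (1 - δ) + 3 * (|ζ| * ((n + m : ℕ) : ℝ) ^ (1 - δ)) := by ring
      rw [h4]
      linarith)
  refine ⟨F, ?_, ?_⟩
  · have h1 : Tendsto (fun n : ℕ => |ζ| / (n : ℝ)) atTop (𝓝 0) :=
      tendsto_const_div_atTop_nhds_zero_nat _
    have h2 := hF.sub h1
    rw [sub_zero] at h2
    refine h2.congr fun n => ?_
    rw [← sub_div]
    congr 1
    ring
  refine limit_poly (fun n => Real.log (ZH ζ g n) + |ζ|) (fun M => Real.log (PH ζ g M))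
    (2 + 2 * Real.log C2 + Real.log C3) (K2 + 2 * |ζ|) δ F hδ0 (by linarith) hF ?_ ?_ ?_
  · intro n hn
    obtain ⟨M, hM3, hZp, h1, h2⟩ := htwo n hn
    have hMe := hnf_PH_even ζ g M hZp
    have h2' : (1 : ℝ) ≤ (n : ℝ) ^ (1 - δ) := by
      apply Real.one_le_rpow _ (by linarith)
      exact_mod_cast hn
    have h3 : |ζ| ≤ |ζ| * (n : ℝ) ^ (1 - δ) := by nlinarith
    have h4 : (K2 + 2 * |ζ|) * (n : ℝ) ^ (1 - δ) =
      K2 * (n : ℝ) ^ (1 - δ) + 2 * (|ζ| * (n : ℝ) ^ (1 - δ)) := by ring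
    refine ⟨M, hMe, ?_, ?_, ?_⟩
    · rcases hMe with ⟨k, hk⟩
      omega
    · rw [h4]; linarith
    · rw [h4]; linarith
  · intro M hM hMe
    have hM0 : (0 : ℝ) < M := by exact_mod_cast (by omega : 0 < M)
    have hM1 : (1 : ℝ) ≤ M := by exact_mod_cast (by omega : 1 ≤ M)
    have h3 : 0 ≤ Real.log M := Real.log_nonneg hM1
    have h1 := hex M 1 (by omega)
    have h2 := htr (M + 2 * 1) M (by omega)
    have h4 : PH ζ g M ≤ 2 * (M : ℝ) * C3 ^ 1 * (C2 ^ (M + 2 * 1 - M) * ZH ζ g M) :=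
      h1.trans (mul_le_mul_of_nonneg_left h2 (by positivity))
    have h5 := Real.log_le_log (hp M hM hMe) h4
    have e1 : M + 2 * 1 - M = 2 := by omega
    rw [e1, Real.log_mul (by positivity) (by have := hw M; positivity),
      Real.log_mul (by positivity) (by positivity),
      Real.log_mul (by norm_num) hM0.ne', Real.log_pow, Real.log_mul (by positivity) (hw M).ne',
      Real.log_pow] at h5
    push_cast at h5
    have h6 := hnf_log2
    have g1 : 0 ≤ Real.log C2 * Real.log M := mul_nonneg l2 h3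
    have g2 : 0 ≤ Real.log C3 * Real.log M := mul_nonneg l3 h3
    show Real.log (PH ζ g M) ≤ Real.log (ZH ζ g M) + |ζ| +
      (2 + 2 * Real.log C2 + Real.log C3) * (1 + Real.log M)
    nlinarith
  · intro M h hM hMe
    have h1 := hex M h (by omega)
    have hM0 : (0 : ℝ) < M := by exact_mod_cast (by omega : 0 < M)
    have hM1 : (1 : ℝ) ≤ M := by exact_mod_cast (by omega : 1 ≤ M)
    have hp2 : 0 < PH ζ g (M + 2 * h) := hp (M + 2 * h) (by omega) (hMe.add (even_two_mul h))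
    have h2 := Real.log_le_log (hp M hM hMe) h1
    rw [Real.log_mul (by positivity) hp2.ne', Real.log_mul (by positivity) (by positivity),
      Real.log_mul (by norm_num) hM0.ne', Real.log_pow] at h2
    have h3 : 0 ≤ Real.log M := Real.log_nonneg hM1
    have h4 := hnf_log2
    have h5 : (0 : ℝ) ≤ h := Nat.cast_nonneg h
    have g1 : 0 ≤ Real.log C2 * Real.log M := mul_nonneg l2 h3
    have g2 : 0 ≤ Real.log C3 * Real.log M := mul_nonneg l3 h3
    have g3 : 0 ≤ Real.log C2 * h := mul_nonneg l2 h5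
    show Real.log (PH ζ g M) ≤ Real.log (PH ζ g (M + 2 * h)) +
      (2 + 2 * Real.log C2 + Real.log C3) * (1 + h + Real.log M)
    nlinarith

end Pool.Agent.Helper772.HNF
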