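import Mathlib
import Pool.Agent.Helper772.Defs
import Pool.Agent.Helper772.HDefs
import Pool.Agent.Helper772.HStat
import Pool.Agent.Helper772.HF1
import Pool.Agent.Helper772.HF2
import Pool.Agent.Helper772.HNF
import Pool.Agent.Helper772.HR3
set_option autoImplicit false
namespace Pool.Agent.Helper772.HF3

open Pool.Agent.Helper772.HF1 (Z_eq)
open Pool.Agent.Helper772.HF2 (PH_le Q_le)
open Pool.Agent.Helper772.HNF (free_energy_H)
open Pool.Agent.Helper772.HR3 (PH_pos)

open Filter Topology

/-! Definitions of the problem. -/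

/-! Given results (proved elsewhere, use as black boxes). -/

/-! Targets. -/

/-- Complete answer to the question: for all `(ζ, γ)` the walk free energy exists and equals the
polygon free energy. -/
theorem result : ∀ ζ γ : ℝ, ∃ κ : ℝ,
    Tendsto (fun m : ℕ => 1 / ((2 * m : ℕ) : ℝ) * Real.log (Q (2 * m) ζ γ)) atTop (𝓝 κ) ∧
    Tendsto (fun n : ℕ => 1 / (n : ℝ) * Real.log (Z n ζ γ)) atTop (𝓝 κ) := by
  intro ζ γ
  obtain ⟨F, hZ, hP⟩ := free_energy_H ζ γ
  refine ⟨F, ?_, ?_⟩
  · -- squeeze between `log PH - log (6 M)` and `log PH`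
    have hlog : Tendsto (fun m : ℕ => Real.log (6 * ((2 * m : ℕ) : ℝ)) / ((2 * m : ℕ) : ℝ))
        atTop (𝓝 0) := by
      have h1 : Tendsto (fun x : ℝ => Real.log x / x) atTop (𝓝 0) := by
        simpa using Real.tendsto_pow_log_div_mul_add_atTop 1 0 1 one_ne_zero
      have h2 : Tendsto (fun m : ℕ => 6 * ((2 * m : ℕ) : ℝ)) atTop atTop := by
        apply Tendsto.const_mul_atTop (by norm_num)
        apply tendsto_natCast_atTop_atTop.comp
        exact tendsto_atTop_mono (fun k => (by simp only [id]; omega : id k ≤ 2 * k)) tendsto_id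
      have h3 := (h1.comp h2).const_mul (6 : ℝ)
      rw [mul_zero] at h3
      refine h3.congr (fun m => ?_)
      simp only [Function.comp]
      by_cases hm : ((2 * m : ℕ) : ℝ) = 0
      · rw [hm]; simp
      · field_simp
    have hlow : Tendsto (fun m : ℕ => Real.log (PH ζ γ (2 * m)) / ((2 * m : ℕ) : ℝ) -
        Real.log (6 * ((2 * m : ℕ) : ℝ)) / ((2 * m : ℕ) : ℝ)) atTop (𝓝 F) := by
      have := hP.sub hlog
      rwa [sub_zero] at this
    refine tendsto_of_tendsto_of_tendsto_of_le_of_le' hlow hP ?_ ?_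
    · filter_upwards [eventually_ge_atTop 2] with m hm
      have hpos := PH_pos ζ γ m hm
      have hle := PH_le (2 * m) (by omega) ζ γ
      have hm0 : (0 : ℝ) < ((2 * m : ℕ) : ℝ) := by exact_mod_cast (by omega : 0 < 2 * m)
      have hQ : 0 < Q (2 * m) ζ γ := by
        by_contra hcon
        have h1 : 6 * ((2 * m : ℕ) : ℝ) * Q (2 * m) ζ γ ≤ 0 :=
          mul_nonpos_of_nonneg_of_nonpos (by positivity) (not_lt.1 hcon)
        linarith
      have h2 : Real.log (PH ζ γ (2 * m)) ≤
          Real.log (6 * ((2 * m : ℕ) : ℝ)) + Real.log (Q (2 * m) ζ γ) := by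
        rw [← Real.log_mul (by positivity) hQ.ne']
        exact Real.log_le_log hpos hle
      rw [← sub_div, one_div, inv_mul_eq_div]
      exact div_le_div_of_nonneg_right (by linarith) hm0.le
    · filter_upwards [eventually_ge_atTop 2] with m hm
      have hpos := PH_pos ζ γ m hm
      have hle := PH_le (2 * m) (by omega) ζ γ
      have hm0 : (0 : ℝ) < ((2 * m : ℕ) : ℝ) := by exact_mod_cast (by omega : 0 < 2 * m)
      have hQ : 0 < Q (2 * m) ζ γ := by
        by_contra hcon
        have h1 : 6 * ((2 * m : ℕ) : ℝ) * Q (2 * m) ζ γ ≤ 0 :=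
          mul_nonpos_of_nonneg_of_nonpos (by positivity) (not_lt.1 hcon)
        linarith
      rw [one_div, inv_mul_eq_div]
      exact div_le_div_of_nonneg_right (Real.log_le_log hQ (Q_le _ _ _)) hm0.le
  · refine hZ.congr (fun n => ?_)
    rw [Z_eq, one_div, inv_mul_eq_div]

end Pool.Agent.Helper772.HF3
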