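import Mathlib
import Pool.Agent.Helper772.Defs
import Pool.Agent.Helper772.NA
import Pool.Agent.Helper772.T1
import Pool.Agent.Helper772.W
set_option autoImplicit false
namespace Pool.Agent.Helper772.ND

open Pool.Agent.Helper772.NA (exists_connector)
open Pool.Agent.Helper772.T1 (exists_offset exists_translations)
open Pool.Agent.Helper772.W (mem_sawSet)

/-! Given results (proved in other jobs, use as black boxes). -/

/-! Helper lemmas. -/

/-- prefix sums -/
def preS {d r : ℕ} (x : Fin r → Fin d → ℤ) (i : Fin r) : Fin d → ℤ :=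
  ∑ j, if j < i then x j else 0

theorem preS_succ {d r : ℕ} [NeZero r] (x : Fin r → Fin d → ℤ) (hx : ∑ i, x i = 0) (i : Fin r) :
    preS x (i + 1) = preS x i + x i := by
  obtain ⟨m, rfl⟩ : ∃ m, r = m + 1 := ⟨r - 1, by have := NeZero.ne r; omega⟩
  have key : ∀ P : Fin (m + 1) → Prop, [DecidablePred P] →
      (∀ j, P j ↔ (j < i ∨ j = i)) →
      ∑ j, (if P j then x j else 0) = preS x i + x i := by
    intro P _ hP
    have h1 : x i = ∑ j, if j = i then x j else 0 := by simp
    unfold preS
    conv_rhs => rw [h1]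
    rw [← Finset.sum_add_distrib]
    apply Finset.sum_congr rfl
    intro j _
    by_cases hj : j < i
    · have h2 : ¬ j = i := ne_of_lt hj
      rw [if_pos ((hP j).2 (Or.inl hj)), if_pos hj, if_neg h2, add_zero]
    · by_cases hj2 : j = i
      · rw [if_pos ((hP j).2 (Or.inr hj2)), if_neg hj, if_pos hj2, zero_add]
      · rw [if_neg (fun h => ((hP j).1 h).elim hj hj2), if_neg hj, if_neg hj2, add_zero]
  by_cases hi : i = Fin.last m
  · have h1 : i + 1 = 0 := by rw [hi]; exact Fin.last_add_one m
    rw [h1]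
    have h2 : preS x (0 : Fin (m + 1)) = 0 := by
      unfold preS
      apply Finset.sum_eq_zero
      intro j _
      rw [if_neg (Fin.not_lt_zero j)]
    rw [h2, ← key (fun _ => True) (by
      intro j
      have : j ≤ i := by rw [hi]; exact Fin.le_last j
      simp [le_iff_lt_or_eq.1 this])]
    simp [hx]
  · have hlt : i < Fin.last m := lt_of_le_of_ne (Fin.le_last i) hi
    have h1 : (i + 1).val = i.val + 1 := Fin.val_add_one_of_lt hlt
    rw [← key (fun j => j < i + 1) (by
      intro j
      rw [Fin.lt_def, h1, Fin.lt_def, Fin.ext_iff]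
      omega)]
    rfl

theorem saw_coord {d n : ℕ} (w : Fin (n + 1) → Fin d → ℤ) (h0 : w 0 = 0)
    (hw : ∀ i : Fin n, ∑ k, |w i.castSucc k - w i.succ k| = 1) (a : Fin d) :
    |w (Fin.last n) a| ≤ n := by
  have key : ∀ m : ℕ, ∀ hm : m < n + 1, |w ⟨m, hm⟩ a| ≤ m := by
    intro m
    induction m with
    | zero =>
      intro hm
      have : w ⟨0, hm⟩ = 0 := h0
      rw [this]; simp
    | succ m ih =>
      intro hm
      have h1 := ih (by omega)
      have h2 := hw ⟨m, by omega⟩
      have h3 : |w (Fin.castSucc ⟨m, by omega⟩) a - w (Fin.succ ⟨m, by omega⟩) a| ≤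
          ∑ k, |w (Fin.castSucc ⟨m, by omega⟩) k - w (Fin.succ ⟨m, by omega⟩) k| :=
        Finset.single_le_sum (f := fun k => |w (Fin.castSucc ⟨m, by omega⟩) k -
          w (Fin.succ ⟨m, by omega⟩) k|) (fun _ _ => abs_nonneg _) (Finset.mem_univ a)
      rw [h2] at h3
      have h4 : w (Fin.castSucc ⟨m, by omega⟩) a = w ⟨m, by omega⟩ a := rfl
      have h5 : w (Fin.succ ⟨m, by omega⟩) a = w ⟨m + 1, hm⟩ a := rfl
      rw [h4, h5] at h3
      rw [abs_le] at h1 h3 ⊢
      push_cast
      omega
  exact key n (by omega)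

theorem card_filter_translate {d : ℕ} (S : Finset (Fin d → ℤ)) (u : Fin d → ℤ)
    (p q : (Fin d → ℤ) × (Fin d → ℤ) → Prop) [DecidablePred p] [DecidablePred q]
    (hpq : ∀ x y, p (x + u, y + u) ↔ q (x, y)) :
    (((S.image (fun x => x + u)) ×ˢ (S.image (fun x => x + u))).filter p).card =
      ((S ×ˢ S).filter q).card := by
  symm
  apply Finset.card_bij (fun z _ => (z.1 + u, z.2 + u))
  · rintro ⟨x, y⟩ hz
    rw [Finset.mem_filter, Finset.mem_product] at hz ⊢
    refine ⟨⟨?_, ?_⟩, (hpq x y).2 hz.2⟩
    · exact Finset.mem_image_of_mem (fun x => x + u) hz.1.1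
    · exact Finset.mem_image_of_mem (fun x => x + u) hz.1.2
  · rintro ⟨x, y⟩ _ ⟨x', y'⟩ _ h
    rw [Prod.mk.injEq] at h
    rw [Prod.mk.injEq]
    exact ⟨add_right_cancel h.1, add_right_cancel h.2⟩
  · rintro ⟨x, y⟩ hz
    rw [Finset.mem_filter, Finset.mem_product] at hz
    obtain ⟨x', hx', hx⟩ := Finset.mem_image.1 hz.1.1
    obtain ⟨y', hy', hy⟩ := Finset.mem_image.1 hz.1.2
    simp only at hx hy
    refine ⟨(x', y'), ?_, ?_⟩
    · rw [Finset.mem_filter, Finset.mem_product]
      refine ⟨⟨hx', hy'⟩, (hpq x' y').1 ?_⟩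
      rw [hx, hy]; exact hz.2
    · simp only [hx, hy]

theorem image_translate {d n : ℕ} (w : Fin (n + 1) → Fin d → ℤ) (u : Fin d → ℤ) :
    Finset.univ.image (fun j => w j + u) = (Finset.univ.image w).image (fun x => x + u) := by
  rw [Finset.image_image]; rfl

theorem adjPairs_translate {d n : ℕ} (w : Fin (n + 1) → Fin d → ℤ) (u : Fin d → ℤ) :
    adjPairs (Finset.univ.image (fun j => w j + u)) = adjPairs (Finset.univ.image w) := by
  rw [image_translate]
  unfold adjPairs
  apply card_filter_translate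
  intro x y
  have : ∀ i, (x + u) i - (y + u) i = x i - y i := by
    intro i; rw [Pi.add_apply, Pi.add_apply]; ring
  simp only [this]

theorem div_shift (L : ℕ) (hL : 2 ≤ L) (a b : ℤ) : (a + L * b) / (L : ℤ) = a / (L : ℤ) + b := by
  have : (L : ℤ) ≠ 0 := by omega
  rw [Int.add_mul_ediv_left _ _ this]

theorem div_close (L : ℕ) (hL : 2 ≤ L) (a c c' : ℤ) (h0 : 0 ≤ c) (h1 : c < L) (h0' : 0 ≤ c')
    (h1' : c' < L) : |(a + c) / (L : ℤ) - (a + c') / (L : ℤ)| ≤ 1 := by
  have hL' : (0 : ℤ) < L := by omega
  have e1 := Int.emod_add_mul_ediv (a + c) L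
  have e2 := Int.emod_add_mul_ediv (a + c') L
  have r1 := Int.emod_nonneg (a + c) hL'.ne'
  have r2 := Int.emod_lt_of_pos (a + c) hL'
  have r3 := Int.emod_nonneg (a + c') hL'.ne'
  have r4 := Int.emod_lt_of_pos (a + c') hL'
  set A := (a + c) / (L : ℤ)
  set B := (a + c') / (L : ℤ)
  have h2 : (L : ℤ) * (A - B) < L * 2 := by nlinarith
  have h3 : (L : ℤ) * (B - A) < L * 2 := by nlinarith
  have h4 := lt_of_mul_lt_mul_left h2 hL'.le
  have h5 := lt_of_mul_lt_mul_left h3 hL'.le
  rw [abs_le]
  omega

/-! Target. -/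

/-- Choice of the positions of `r` walks forming a closed chain, of the connectors and of the set
`U`, with few collisions. -/
theorem exists_chain (d : ℕ) (hd : 2 ≤ d) (r : ℕ) [NeZero r] (n : Fin r → ℕ)
    (x : Fin r → Fin d → ℤ) (hx : ∑ i, x i = 0)
    (ω : ∀ i, Fin (n i + 1) → Fin d → ℤ) (hω : ∀ i, ω i ∈ sawSet d (n i))
    (hωx : ∀ i, ω i (Fin.last (n i)) = x i)
    (L : ℕ) (hL : 2 ≤ L) (R : ℕ) (hR : 1 ≤ R) :
    ∃ (v : Fin r → Fin d → ℤ) (k : Fin r → ℕ) (t : ∀ i, Fin (k i + 1) → Fin d → ℤ)
      (U : Finset (Fin d → ℤ)),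
      ChainData (L : ℤ) (fun i j => ω i j + v i) t (U : Set (Fin d → ℤ)) ∧
      (∀ b ∈ U, (∃ i j, b = t i j) ∨ (∃ i j, b = cellc (L : ℤ) (ω i j + v i))) ∧
      R ^ 2 * U.card ≤ R ^ 2 * (r * (2 * R + d + 1)) + (∑ i, (n i + 1)) ^ 2 ∧
      L * ∑ i, (crossNum (L : ℤ) (fun j => ω i j + v i) + adjCross (L : ℤ) (fun j => ω i j + v i)) ≤
        ∑ i, (n i + adjPairs (Finset.univ.image (ω i))) ∧
      (∀ i a, |v i a| ≤ ∑ j, (n j : ℤ) + L + L * R) := by
  classical
  have hs0 : ∀ i, ω i 0 = 0 := fun i => ((mem_sawSet d (n i) (ω i)).1 (hω i)).1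
  have hsi : ∀ i, Function.Injective (ω i) := fun i => ((mem_sawSet d (n i) (ω i)).1 (hω i)).2.1
  have hss : ∀ i, ∀ j : Fin (n i), ∑ k, |ω i j.castSucc k - ω i j.succ k| = 1 :=
    fun i => ((mem_sawSet d (n i) (ω i)).1 (hω i)).2.2
  have hoff : ∀ i, ∃ c : Fin d → ℤ, (∀ k, 0 ≤ c k ∧ c k < L) ∧
      L * (((Finset.univ : Finset (Fin (n i))).filter
              (fun j => (fun k => ((fun j => ω i j + preS x i) j.castSucc k + c k) / (L : ℤ)) ≠
                (fun k => ((fun j => ω i j + preS x i) j.succ k + c k) / (L : ℤ)))).card +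
            (((Finset.univ.image (fun j => ω i j + preS x i)) ×ˢ
              (Finset.univ.image (fun j => ω i j + preS x i))).filter
              (fun p => ∑ k, |p.1 k - p.2 k| = 1 ∧
              (fun k => (p.1 k + c k) / (L : ℤ)) ≠ (fun k => (p.2 k + c k) / (L : ℤ)))).card)
        ≤ n i + ((((Finset.univ.image (fun j => ω i j + preS x i)) ×ˢ
              (Finset.univ.image (fun j => ω i j + preS x i)))).filter
              (fun p => ∑ k, |p.1 k - p.2 k| = 1)).card := by
    intro i
    apply exists_offset d L (by omega) (n i) (fun j => ω i j + preS x i)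
    intro j
    have : ∀ k, (ω i j.castSucc + preS x i) k - (ω i j.succ + preS x i) k =
        ω i j.castSucc k - ω i j.succ k := by
      intro k; rw [Pi.add_apply, Pi.add_apply]; ring
    simp only [this]
    exact hss i j
  choose c hc hcL using hoff
  set T : Fin r → Finset (Fin d → ℤ) := fun i =>
    Finset.univ.image (fun j => cellc (L : ℤ) (ω i j + preS x i + c i)) with hT
  have hTcard : ∀ i, (T i).card ≤ n i + 1 := by
    intro i
    refine le_trans Finset.card_image_le ?_
    simp
  obtain ⟨τ, hτ, hτT⟩ := exists_translations d hd r R hR T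
  set v : Fin r → Fin d → ℤ := fun i k => preS x i k + c i k + L * τ i k with hv
  have hcell : ∀ i j, cellc (L : ℤ) (ω i j + v i) =
      cellc (L : ℤ) (ω i j + preS x i + c i) + τ i := by
    intro i j
    funext k
    unfold cellc
    rw [Pi.add_apply]
    simp only [Pi.add_apply, hv]
    rw [← div_shift L hL]
    congr 1
    ring
  have hcon : ∀ i, ∃ (k : ℕ) (t : Fin (k + 1) → Fin d → ℤ),
      (k : ℤ) = ∑ a, |cellc (L : ℤ) (ω i (Fin.last (n i)) + v i) a -
        cellc (L : ℤ) (ω (i + 1) 0 + v (i + 1)) a| ∧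
      t 0 = cellc (L : ℤ) (ω i (Fin.last (n i)) + v i) ∧
      t (Fin.last k) = cellc (L : ℤ) (ω (i + 1) 0 + v (i + 1)) ∧
      (∀ j : Fin k, ∑ i, |t j.castSucc i - t j.succ i| = 1) := by
    intro i
    obtain ⟨k, t, h1, h2, h3, h4, _⟩ := exists_connector d
      (cellc (L : ℤ) (ω i (Fin.last (n i)) + v i)) (cellc (L : ℤ) (ω (i + 1) 0 + v (i + 1)))
    exact ⟨k, t, h1, h2, h3, h4⟩
  choose k t hk ht0 htl hts using hcon
  have hkle : ∀ i, k i + 1 ≤ 2 * R + d + 1 := by
    intro i
    have hR' : (1 : ℤ) ≤ R := by exact_mod_cast hR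
    have hbd : ∀ a : Fin d, |cellc (L : ℤ) (ω i (Fin.last (n i)) + v i) a -
        cellc (L : ℤ) (ω (i + 1) 0 + v (i + 1)) a| ≤ 1 + (if a.val < 2 then (R : ℤ) - 1 else 0) := by
      intro a
      rw [hcell, hcell, hωx, hs0]
      have e1 : cellc (L : ℤ) (x i + preS x i + c i) a = (preS x (i + 1) a + c i a) / (L : ℤ) := by
        unfold cellc
        rw [preS_succ x hx]
        simp only [Pi.add_apply]
        congr 1
        ring
      have e2 : cellc (L : ℤ) (0 + preS x (i + 1) + c (i + 1)) a =
          (preS x (i + 1) a + c (i + 1) a) / (L : ℤ) := by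
        unfold cellc
        simp only [Pi.add_apply, Pi.zero_apply, zero_add]
      rw [Pi.add_apply, Pi.add_apply, e1, e2]
      have h1 := div_close L hL (preS x (i + 1) a) (c i a) (c (i + 1) a) (hc i a).1 (hc i a).2
        (hc (i + 1) a).1 (hc (i + 1) a).2
      obtain ⟨h2, h3, h4⟩ := hτ i a
      obtain ⟨h5, h6, h7⟩ := hτ (i + 1) a
      rw [abs_le] at h1 ⊢
      split_ifs with ha
      · omega
      · have := h4 (by omega)
        have := h7 (by omega)
        omega
    have h1 : (k i : ℤ) ≤ ∑ a : Fin d, (1 + (if a.val < 2 then (R : ℤ) - 1 else 0)) := by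
      rw [hk]
      exact Finset.sum_le_sum (fun a _ => hbd a)
    rw [Finset.sum_add_distrib] at h1
    have h2 : ∑ a : Fin d, (if a.val < 2 then (R : ℤ) - 1 else 0) =
        ((Finset.univ.filter (fun a : Fin d => a.val < 2)).card : ℤ) * (R - 1) := by
      rw [← Finset.sum_filter, Finset.sum_const, nsmul_eq_mul]
    have h3 : (Finset.univ.filter (fun a : Fin d => a.val < 2)).card ≤ 2 := by
      calc (Finset.univ.filter (fun a : Fin d => a.val < 2)).card
          = ((Finset.univ.filter (fun a : Fin d => a.val < 2)).image (fun a : Fin d => a.val)).card := by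
            rw [Finset.card_image_of_injective _ Fin.val_injective]
        _ ≤ (Finset.range 2).card := by
            apply Finset.card_le_card
            intro y hy
            obtain ⟨a, ha, rfl⟩ := Finset.mem_image.1 hy
            exact Finset.mem_range.2 (Finset.mem_filter.1 ha).2
        _ = 2 := by simp
    have h4 : ∑ a : Fin d, (1 : ℤ) = d := by simp
    rw [h2, h4] at h1
    have h5 : ((Finset.univ.filter (fun a : Fin d => a.val < 2)).card : ℤ) * (R - 1) ≤
        2 * (R - 1) := by
      apply mul_le_mul_of_nonneg_right _ (by omega)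
      exact_mod_cast h3
    omega
  set U1 : Finset (Fin d → ℤ) := Finset.univ.biUnion (fun i : Fin r => Finset.univ.image (t i))
    with hU1
  set U2 : Finset (Fin d → ℤ) := Finset.univ.biUnion (fun i : Fin r =>
    Finset.univ.biUnion (fun j : Fin r => if i < j then
      (((T i).image (fun x => x + τ i)) ∩ ((T j).image (fun x => x + τ j))) else ∅)) with hU2
  have hmemT : ∀ i j, cellc (L : ℤ) (ω i j + v i) ∈ (T i).image (fun x => x + τ i) := by
    intro i j
    rw [hcell]
    apply Finset.mem_image_of_mem (fun x => x + τ i)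
    rw [hT]
    exact Finset.mem_image_of_mem _ (Finset.mem_univ j)
  have hmemT' : ∀ i y, y ∈ (T i).image (fun x => x + τ i) → ∃ j, y = cellc (L : ℤ) (ω i j + v i) := by
    intro i y hy
    obtain ⟨z, hz, rfl⟩ := Finset.mem_image.1 hy
    rw [hT] at hz
    obtain ⟨j, _, rfl⟩ := Finset.mem_image.1 hz
    exact ⟨j, (hcell i j).symm⟩
  refine ⟨v, k, t, U1 ∪ U2, ⟨?_, ?_, ?_, ?_, ?_, ?_, ?_, ?_⟩, ?_, ?_, ?_, ?_⟩
  · intro i j j' h
    exact hsi i (add_right_cancel h)
  · intro i j
    change ∑ a, |(ω i j.castSucc + v i) a - (ω i j.succ + v i) a| = 1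
    have : ∀ a, (ω i j.castSucc + v i) a - (ω i j.succ + v i) a =
        ω i j.castSucc a - ω i j.succ a := by
      intro a; rw [Pi.add_apply, Pi.add_apply]; ring
    simp only [this]
    exact hss i j
  · intro i j
    exact hts i j
  · intro i
    exact ht0 i
  · intro i
    exact htl i
  · exact Finset.finite_toSet _
  · intro i j
    rw [Finset.mem_coe, Finset.mem_union]
    left
    rw [hU1, Finset.mem_biUnion]
    exact ⟨i, Finset.mem_univ i, Finset.mem_image_of_mem _ (Finset.mem_univ j)⟩
  · intro i i' j j' hne heq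
    rw [Finset.mem_coe, Finset.mem_union]
    right
    rw [hU2]
    have h1 := hmemT i j
    have h2 := hmemT i' j'
    have heq' : cellc (L : ℤ) (ω i j + v i) = cellc (L : ℤ) (ω i' j' + v i') := heq
    change cellc (L : ℤ) (ω i j + v i) ∈ _
    rcases lt_or_gt_of_ne hne with hlt | hlt
    · rw [Finset.mem_biUnion]
      refine ⟨i, Finset.mem_univ i, ?_⟩
      rw [Finset.mem_biUnion]
      refine ⟨i', Finset.mem_univ i', ?_⟩
      rw [if_pos hlt, Finset.mem_inter]
      exact ⟨h1, heq' ▸ h2⟩
    · rw [Finset.mem_biUnion]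
      refine ⟨i', Finset.mem_univ i', ?_⟩
      rw [Finset.mem_biUnion]
      refine ⟨i, Finset.mem_univ i, ?_⟩
      rw [if_pos hlt, Finset.mem_inter]
      exact ⟨heq' ▸ h2, h1⟩
  · intro b hb
    rw [Finset.mem_union] at hb
    rcases hb with hb | hb
    · left
      rw [hU1, Finset.mem_biUnion] at hb
      obtain ⟨i, _, hb⟩ := hb
      obtain ⟨j, _, hb⟩ := Finset.mem_image.1 hb
      exact ⟨i, j, hb.symm⟩
    · right
      rw [hU2, Finset.mem_biUnion] at hb
      obtain ⟨i, _, hb⟩ := hb
      rw [Finset.mem_biUnion] at hb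
      obtain ⟨j, _, hb⟩ := hb
      split_ifs at hb with hij
      · rw [Finset.mem_inter] at hb
        obtain ⟨l, hl⟩ := hmemT' i b hb.1
        exact ⟨i, l, hl⟩
      · exact absurd hb (Finset.notMem_empty b)
  · have h1 : U1.card ≤ r * (2 * R + d + 1) := by
      calc U1.card ≤ ∑ i : Fin r, (Finset.univ.image (t i)).card := Finset.card_biUnion_le
        _ ≤ ∑ i : Fin r, (2 * R + d + 1) := by
            apply Finset.sum_le_sum
            intro i _
            refine le_trans Finset.card_image_le ?_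
            rw [Finset.card_univ, Fintype.card_fin]
            exact hkle i
        _ = r * (2 * R + d + 1) := by simp
    have h2 : U2.card ≤ ∑ i : Fin r, ∑ j : Fin r, if i < j then
          (((T i).image (fun x => x + τ i)) ∩ ((T j).image (fun x => x + τ j))).card else 0 := by
      refine le_trans Finset.card_biUnion_le (Finset.sum_le_sum fun i _ => ?_)
      refine le_trans Finset.card_biUnion_le (Finset.sum_le_sum fun j _ => ?_)
      split_ifs with hij
      · exact le_refl _
      · simp
    have h3 : ∑ i : Fin r, ∑ j : Fin r, (if i < j then (T i).card * (T j).card else 0) ≤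
        (∑ i, (n i + 1)) ^ 2 := by
      rw [sq, Finset.sum_mul_sum]
      refine Finset.sum_le_sum fun i _ => Finset.sum_le_sum fun j _ => ?_
      split_ifs with hij
      · exact Nat.mul_le_mul (hTcard i) (hTcard j)
      · exact Nat.zero_le _
    calc R ^ 2 * (U1 ∪ U2).card ≤ R ^ 2 * (U1.card + U2.card) :=
          Nat.mul_le_mul_left _ (Finset.card_union_le _ _)
      _ = R ^ 2 * U1.card + R ^ 2 * U2.card := by ring
      _ ≤ R ^ 2 * (r * (2 * R + d + 1)) + (∑ i, (n i + 1)) ^ 2 := by
          apply Nat.add_le_add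
          · exact Nat.mul_le_mul_left _ h1
          · exact le_trans (Nat.mul_le_mul_left _ h2) (le_trans hτT h3)
  · rw [Finset.mul_sum]
    apply Finset.sum_le_sum
    intro i _
    have e1 : crossNum (L : ℤ) (fun j => ω i j + v i) =
        ((Finset.univ : Finset (Fin (n i))).filter
              (fun j => (fun k => ((fun j => ω i j + preS x i) j.castSucc k + c i k) / (L : ℤ)) ≠
                (fun k => ((fun j => ω i j + preS x i) j.succ k + c i k) / (L : ℤ)))).card := by
      unfold crossNum
      congr 1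
      apply Finset.filter_congr
      intro j _
      rw [hcell, hcell]
      rw [not_iff_not, add_left_inj]
      exact Iff.rfl
    have e2 : adjCross (L : ℤ) (fun j => ω i j + v i) =
        (((Finset.univ.image (fun j => ω i j + preS x i)) ×ˢ
              (Finset.univ.image (fun j => ω i j + preS x i))).filter
              (fun p => ∑ k, |p.1 k - p.2 k| = 1 ∧
              (fun k => (p.1 k + c i k) / (L : ℤ)) ≠ (fun k => (p.2 k + c i k) / (L : ℤ)))).card := by
      unfold adjCross
      rw [image_translate, image_translate]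
      rw [card_filter_translate (Finset.univ.image (ω i)) (v i) _
        (fun q => ∑ k, |q.1 k - q.2 k| = 1 ∧
          cellc (L : ℤ) (q.1 + v i) ≠ cellc (L : ℤ) (q.2 + v i))]
      · symm
        apply card_filter_translate (Finset.univ.image (ω i)) (preS x i)
        intro y z
        have h1 : ∀ k, (y + preS x i) k - (z + preS x i) k = y k - z k := by
          intro k; rw [Pi.add_apply, Pi.add_apply]; ring
        simp only [h1]
        apply and_congr Iff.rfl
        rw [not_iff_not]
        have h2 : ∀ y : Fin d → ℤ, cellc (L : ℤ) (y + v i) =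
            (fun k => ((y + preS x i) k + c i k) / (L : ℤ)) + τ i := by
          intro y
          funext k
          unfold cellc
          rw [Pi.add_apply]
          simp only [Pi.add_apply, hv]
          rw [← div_shift L hL]
          congr 1
          ring
        rw [h2, h2, add_left_inj]
      · intro y z
        have h1 : ∀ k, (y + v i) k - (z + v i) k = y k - z k := by
          intro k; rw [Pi.add_apply, Pi.add_apply]; ring
        simp only [h1]
    have e3 : adjPairs (Finset.univ.image (ω i)) =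
        ((((Finset.univ.image (fun j => ω i j + preS x i)) ×ˢ
              (Finset.univ.image (fun j => ω i j + preS x i)))).filter
              (fun p => ∑ k, |p.1 k - p.2 k| = 1)).card := by
      rw [← adjPairs_translate (ω i) (preS x i)]
      rfl
    rw [e1, e2, e3]
    exact hcL i
  · intro i a
    have h1 : |preS x i a| ≤ ∑ j, (n j : ℤ) := by
      unfold preS
      rw [Finset.sum_apply]
      refine le_trans (Finset.abs_sum_le_sum_abs _ _) (Finset.sum_le_sum fun j _ => ?_)
      split_ifs with hj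
      · rw [← hωx j]
        exact saw_coord (ω j) (hs0 j) (hss j) a
      · simp
    have h2 := hc i a
    obtain ⟨h3, h4, _⟩ := hτ i a
    have h5 : (0 : ℤ) ≤ L * τ i a := by positivity
    have h6 : (L : ℤ) * τ i a ≤ L * R := by
      apply mul_le_mul_of_nonneg_left h4.le (by positivity)
    have h7 : v i a = preS x i a + c i a + L * τ i a := rfl
    rw [h7]
    rw [abs_le] at h1 ⊢
    constructor <;> omega

end Pool.Agent.Helper772.ND
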