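import Mathlib
import Pool.Agent.Helper772.Defs
import Pool.Agent.Helper772.NA
import Pool.Agent.Helper772.NB
import Pool.Agent.Helper772.NC1
import Pool.Agent.Helper772.NC2
import Pool.Agent.Helper772.ND
import Pool.Agent.Helper772.SW
import Pool.Agent.Helper772.W
set_option autoImplicit false
namespace Pool.Agent.Helper772.NE

open Pool.Agent.Helper772.NA (exists_enc sum_le_of_code)
open Pool.Agent.Helper772.NB (decode)
open Pool.Agent.Helper772.NC1 (chain_bounds1)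
open Pool.Agent.Helper772.NC2 (chain_bounds2)
open Pool.Agent.Helper772.ND (exists_chain)
open Pool.Agent.Helper772.SW (surgery_walk)
open Pool.Agent.Helper772.W (adjPairs_le mem_polySet mem_sawSet)

/-! Given results (proved in other jobs, use as black boxes). -/

/-! Helper lemmas. -/

open Classical in
theorem adjPairs_image_add {d : ℕ} (S : Finset (Fin d → ℤ)) (v : Fin d → ℤ) :
    adjPairs (S.image (fun x => x + v)) = adjPairs S := by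
  unfold adjPairs
  have hinj : Function.Injective (fun p : (Fin d → ℤ) × (Fin d → ℤ) => (p.1 + v, p.2 + v)) := by
    rintro ⟨a, b⟩ ⟨a', b'⟩ h
    simp only [Prod.mk.injEq, add_left_inj] at h
    exact Prod.ext h.1 h.2
  have key : (((S.image (fun x => x + v)) ×ˢ (S.image (fun x => x + v))).filter
      (fun p => ∑ i, |p.1 i - p.2 i| = 1)) =
      ((S ×ˢ S).filter (fun p => ∑ i, |p.1 i - p.2 i| = 1)).image
        (fun p => (p.1 + v, p.2 + v)) := by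
    ext ⟨a, b⟩
    simp only [Finset.mem_filter, Finset.mem_product, Finset.mem_image, Prod.mk.injEq,
      Prod.exists]
    constructor
    · rintro ⟨⟨⟨a', ha', rfl⟩, ⟨b', hb', rfl⟩⟩, h⟩
      refine ⟨a', b', ⟨⟨ha', hb'⟩, ?_⟩, rfl, rfl⟩
      simpa using h
    · rintro ⟨a', b', ⟨⟨ha', hb'⟩, h⟩, rfl, rfl⟩
      refine ⟨⟨⟨a', ha', rfl⟩, ⟨b', hb', rfl⟩⟩, ?_⟩
      simpa using h
  rw [key, Finset.card_image_of_injective _ hinj]

open Classical in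
theorem adjPairs_translate {d m : ℕ} (f : Fin (m + 1) → Fin d → ℤ) (v : Fin d → ℤ) :
    adjPairs (Finset.univ.image (fun j => f j + v)) = adjPairs (Finset.univ.image f) := by
  rw [← adjPairs_image_add (Finset.univ.image f) v, Finset.image_image]
  rfl

/-- the points whose cell lies in `U` -/
noncomputable def pts {d : ℕ} (L : ℕ) (U : Finset (Fin d → ℤ)) : Finset (Fin d → ℤ) :=
  U.biUnion (fun b => Fintype.piFinset (fun a : Fin d =>
    Finset.Ico (b a * (L : ℤ)) (b a * (L : ℤ) + (L : ℤ))))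

theorem mem_pts {d L : ℕ} (hL : 2 ≤ L) (U : Finset (Fin d → ℤ)) (x : Fin d → ℤ) :
    x ∈ pts L U ↔ cellc (L : ℤ) x ∈ U := by
  have hL' : (0 : ℤ) < (L : ℤ) := by exact_mod_cast (by omega : 0 < L)
  have key : ∀ b : Fin d → ℤ, (∀ a, b a * (L : ℤ) ≤ x a ∧ x a < b a * (L : ℤ) + (L : ℤ)) ↔
      cellc (L : ℤ) x = b := by
    intro b
    constructor
    · intro h
      funext a
      obtain ⟨h1, h2⟩ := h a
      unfold cellc
      apply le_antisymm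
      · have h3 : x a / (L : ℤ) < b a + 1 := by
          apply Int.ediv_lt_of_lt_mul hL'
          linarith
        omega
      · exact (Int.le_ediv_iff_mul_le hL').mpr h1
    · intro h a
      rw [← h]
      unfold cellc
      constructor
      · exact Int.ediv_mul_le _ hL'.ne'
      · have := Int.lt_ediv_add_one_mul_self (x a) hL'
        linarith
  unfold pts
  simp only [Finset.mem_biUnion, Fintype.mem_piFinset, Finset.mem_Ico, key]
  constructor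
  · rintro ⟨b, hb, rfl⟩
    exact hb
  · intro h
    exact ⟨_, h, rfl⟩

theorem card_pts_le {d : ℕ} (L : ℕ) (U : Finset (Fin d → ℤ)) :
    (pts L U).card ≤ U.card * L ^ d := by
  unfold pts
  refine Finset.card_biUnion_le_card_mul _ _ _ ?_
  intro b _
  rw [Fintype.card_piFinset]
  simp

/-- the ordered pairs of adjacent points with both cells in `U` -/
noncomputable def prs {d : ℕ} (L : ℕ) (U : Finset (Fin d → ℤ)) :
    Finset ((Fin d → ℤ) × (Fin d → ℤ)) :=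
  ((pts L U) ×ˢ (pts L U)).filter (fun p => ∑ i, |p.1 i - p.2 i| = 1)

theorem card_prs_le {d : ℕ} (L : ℕ) (U : Finset (Fin d → ℤ)) :
    (prs L U).card ≤ 2 * d * (U.card * L ^ d) := by
  have h1 : (prs L U).card = adjPairs (pts L U) := rfl
  rw [h1]
  exact (adjPairs_le d _).trans (Nat.mul_le_mul_left _ (card_pts_le L U))

theorem phi_facts {d : ℕ} (hd : 2 ≤ d) {L R N : ℕ} (hL : 2 ≤ L) (hR : 1 ≤ R) {Φ : ℝ}
    (hΦ : Φ = (N : ℝ) / L + ((R : ℝ) + (N : ℝ) ^ 2 / (R : ℝ) ^ 2) * (L : ℝ) ^ d) :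
    1 ≤ Φ ∧ (L : ℝ) ≤ Φ ∧ (R : ℝ) ≤ Φ ∧ (N : ℝ) ≤ Φ ^ 2 ∧ (N : ℝ) / L ≤ Φ ∧
      ((R : ℝ) + (N : ℝ) ^ 2 / (R : ℝ) ^ 2) * (L : ℝ) ^ d ≤ Φ := by
  have hL1 : (2 : ℝ) ≤ L := by exact_mod_cast hL
  have hR1 : (1 : ℝ) ≤ R := by exact_mod_cast hR
  have hN0 : (0 : ℝ) ≤ N := Nat.cast_nonneg N
  have hLd : (L : ℝ) ≤ (L : ℝ) ^ d := le_self_pow₀ (by linarith) (by omega)
  have hq : 0 ≤ (N : ℝ) ^ 2 / (R : ℝ) ^ 2 := by positivity
  have hNL : 0 ≤ (N : ℝ) / L := by positivity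
  have h1 : (R : ℝ) * L ≤ ((R : ℝ) + (N : ℝ) ^ 2 / (R : ℝ) ^ 2) * (L : ℝ) ^ d := by
    apply mul_le_mul (by linarith) hLd (by linarith) (by linarith)
  have h2 : (N : ℝ) ^ 2 / (R : ℝ) ^ 2 * 1 ≤
      ((R : ℝ) + (N : ℝ) ^ 2 / (R : ℝ) ^ 2) * (L : ℝ) ^ d := by
    apply mul_le_mul (by linarith) (by linarith) (by norm_num) (by linarith)
  have hLΦ : (L : ℝ) ≤ Φ := by nlinarith
  have hRΦ : (R : ℝ) ≤ Φ := by nlinarith
  have h1Φ : 1 ≤ Φ := by linarith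
  refine ⟨h1Φ, hLΦ, hRΦ, ?_, by nlinarith, by linarith⟩
  have h3 : (N : ℝ) ^ 2 / (R : ℝ) ^ 2 ≤ Φ := by linarith
  have h4 : (N : ℝ) ^ 2 ≤ Φ * (R : ℝ) ^ 2 := by
    rwa [div_le_iff₀ (by positivity)] at h3
  have h5 : Φ * (R : ℝ) ^ 2 ≤ Φ * Φ ^ 2 := by
    apply mul_le_mul_of_nonneg_left _ (by linarith)
    exact pow_le_pow_left₀ (by linarith) hRΦ 2
  have h6 : Φ * Φ ^ 2 ≤ (Φ ^ 2) ^ 2 := by nlinarith [sq_nonneg Φ, mul_pos (by linarith : 0 < Φ) (by linarith : 0 < Φ)]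
  have h7 : (N : ℝ) ^ 2 ≤ (Φ ^ 2) ^ 2 := by linarith
  exact le_of_sq_le_sq h7 (by positivity)

/-- the data attached to one family of walks -/
structure Dat {d r : ℕ} (n : Fin r → ℕ) (L K1 K2 : ℕ) (ω : ∀ i, Fin (n i + 1) → Fin d → ℤ)
    (v : Fin r → Fin d → ℤ) (U : Finset (Fin d → ℤ)) (M : ℕ) (γ : Fin (M + 1) → Fin d → ℤ) :
    Prop where
  start : ∀ i, ω i 0 = 0
  winj : ∀ i, Function.Injective (fun j => ω i j + v i)
  wstep : ∀ i (j : Fin (n i)), (Lat d).Adj (ω i j.castSucc + v i) (ω i j.succ + v i)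
  coll : ∀ i i' j j', i ≠ i' → cellc (L : ℤ) (ω i j + v i) = cellc (L : ℤ) (ω i' j' + v i') →
    cellc (L : ℤ) (ω i j + v i) ∈ U
  hR : ∀ a b, (tile (L : ℤ) a ∉ U ∨ tile (L : ℤ) b ∉ U) →
    ((∃ i : Fin M, s(a, b) = s(γ i.castSucc, γ i.succ)) ↔
      (Str (L : ℤ) (pathG (fun i j => ω i j + v i))).Adj a b)
  UT : ∀ b ∈ U, ∃ i, tile (L : ℤ) (γ i) = b
  cellsT : ∀ i j, cellc (L : ℤ) (ω i j + v i) ∉ U →
    ∃ m, tile (L : ℤ) (γ m) = cellc (L : ℤ) (ω i j + v i)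
  cardT : ((Finset.univ.image γ).image (tile (L : ℤ))).card ≤ K1
  cardP : (prs L U).card ≤ K2
  closed : γ (Fin.last M) = γ 0
  ginj : Function.Injective (fun i : Fin M => γ i.castSucc)
  gstep : ∀ i : Fin M, ∑ a, |γ i.castSucc a - γ i.succ a| = 1

/-- tiles of `γ` -/
noncomputable def tls {d M : ℕ} (L : ℕ) (γ : Fin (M + 1) → Fin d → ℤ) : Finset (Fin d → ℤ) :=
  (Finset.univ.image γ).image (tile (L : ℤ))

theorem mem_tls {d M : ℕ} (L : ℕ) (γ : Fin (M + 1) → Fin d → ℤ) (b : Fin d → ℤ) :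
    b ∈ tls L γ ↔ ∃ m, tile (L : ℤ) (γ m) = b := by
  unfold tls
  simp only [Finset.mem_image, Finset.mem_univ, true_and, exists_exists_eq_and]

open Classical in
/-- cells visited by a walk, inside the tiles of `γ` -/
noncomputable def vis {d m M : ℕ} (L : ℕ) (w : Fin (m + 1) → Fin d → ℤ)
    (γ : Fin (M + 1) → Fin d → ℤ) : Finset (Fin d → ℤ) :=
  (tls L γ).filter (fun b => ∃ j, cellc (L : ℤ) (w j) = b)

open Classical in
/-- edges of a walk, inside the cells of `U` -/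
noncomputable def edg {d m : ℕ} (L : ℕ) (w : Fin (m + 1) → Fin d → ℤ)
    (U : Finset (Fin d → ℤ)) : Finset ((Fin d → ℤ) × (Fin d → ℤ)) :=
  (prs L U).filter (fun p => ∃ j : Fin m, s(p.1, p.2) = s(w j.castSucc, w j.succ))

theorem dat_unique {d r : ℕ} {n : Fin r → ℕ} {L K1 K2 : ℕ} (hL : 2 ≤ L)
    {ω ω' : ∀ i, Fin (n i + 1) → Fin d → ℤ}
    {v : Fin r → Fin d → ℤ} {U U' : Finset (Fin d → ℤ)} {M : ℕ} {γ : Fin (M + 1) → Fin d → ℤ}
    (h : Dat n L K1 K2 ω v U M γ) (h' : Dat n L K1 K2 ω' v U' M γ)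
    (enc1 : Finset (Fin d → ℤ) → Finset (Fin d → ℤ) → Finset (Fin K1))
    (henc1 : ∀ T A B : Finset (Fin d → ℤ), T.card ≤ K1 → A ⊆ T → B ⊆ T →
      enc1 T A = enc1 T B → A = B)
    (enc2 : Finset ((Fin d → ℤ) × (Fin d → ℤ)) → Finset ((Fin d → ℤ) × (Fin d → ℤ)) →
      Finset (Fin K2))
    (henc2 : ∀ T A B : Finset ((Fin d → ℤ) × (Fin d → ℤ)), T.card ≤ K2 → A ⊆ T → B ⊆ T →
      enc2 T A = enc2 T B → A = B)
    (e1 : enc1 (tls L γ) U = enc1 (tls L γ) U')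
    (e2 : ∀ i, enc1 (tls L γ) (vis L (fun j => ω i j + v i) γ) =
      enc1 (tls L γ) (vis L (fun j => ω' i j + v i) γ))
    (e3 : ∀ i, enc2 (prs L U) (edg L (fun j => ω i j + v i) U) =
      enc2 (prs L U') (edg L (fun j => ω' i j + v i) U')) :
    ω = ω' := by
  have hT : (tls L γ).card ≤ K1 := h.cardT
  have hUT : U ⊆ tls L γ := fun b hb => (mem_tls L γ b).mpr (h.UT b hb)
  have hUT' : U' ⊆ tls L γ := fun b hb => (mem_tls L γ b).mpr (h'.UT b hb)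
  have hUU : U = U' := henc1 _ _ _ hT hUT hUT' e1
  subst hUU
  have hV : ∀ i, vis L (fun j => ω i j + v i) γ = vis L (fun j => ω' i j + v i) γ :=
    fun i => henc1 _ _ _ hT (Finset.filter_subset _ _) (Finset.filter_subset _ _) (e2 i)
  have hD : ∀ i, edg L (fun j => ω i j + v i) U = edg L (fun j => ω' i j + v i) U :=
    fun i => henc2 _ _ _ h.cardP (Finset.filter_subset _ _) (Finset.filter_subset _ _) (e3 i)
  have hvis : ∀ (ω₁ : ∀ i, Fin (n i + 1) → Fin d → ℤ), Dat n L K1 K2 ω₁ v U M γ →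
      ∀ i b, b ∉ U → ((∃ j, cellc (L : ℤ) (ω₁ i j + v i) = b) ↔
        b ∈ vis L (fun j => ω₁ i j + v i) γ) := by
    intro ω₁ h₁ i b hb
    unfold vis
    rw [Finset.mem_filter]
    constructor
    · rintro ⟨j, rfl⟩
      exact ⟨(mem_tls L γ _).mpr (h₁.cellsT i j hb), j, rfl⟩
    · rintro ⟨_, h2⟩
      exact h2
  have hedg : ∀ (ω₁ : ∀ i, Fin (n i + 1) → Fin d → ℤ), Dat n L K1 K2 ω₁ v U M γ →
      ∀ i x x', cellc (L : ℤ) x ∈ U → cellc (L : ℤ) x' ∈ U →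
        ((∃ j : Fin (n i), s(x, x') = s(ω₁ i j.castSucc + v i, ω₁ i j.succ + v i)) ↔
          (x, x') ∈ edg L (fun j => ω₁ i j + v i) U) := by
    intro ω₁ h₁ i x x' hx hx'
    unfold edg
    rw [Finset.mem_filter]
    constructor
    · rintro ⟨j, hj⟩
      refine ⟨?_, j, hj⟩
      unfold prs
      rw [Finset.mem_filter, Finset.mem_product, mem_pts hL, mem_pts hL]
      refine ⟨⟨hx, hx'⟩, ?_⟩
      have h2 : (Lat d).Adj x x' := by
        have h3 := h₁.wstep i j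
        rw [← SimpleGraph.mem_edgeSet] at h3 ⊢
        rw [hj]
        exact h3
      exact h2
    · rintro ⟨_, h2⟩
      exact h2
  have hw : (fun i j => ω i j + v i) = (fun i j => ω' i j + v i) := by
    refine decode (L := (L : ℤ)) (by exact_mod_cast hL) (fun i j => ω i j + v i)
      (fun i j => ω' i j + v i) h.winj h'.winj h.wstep h'.wstep (U : Set (Fin d → ℤ))
      h.coll h'.coll ?_ (fun a b => ∃ i : Fin M, s(a, b) = s(γ i.castSucc, γ i.succ))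
      h.hR h'.hR ?_ ?_
    · intro i
      show ω i 0 + v i = ω' i 0 + v i
      rw [h.start, h'.start]
    · intro i b hb
      have hb' : b ∉ U := hb
      have h1 := hvis ω h i b hb'
      have h2 := hvis ω' h' i b hb'
      rw [hV i] at h1
      exact h1.trans h2.symm
    · intro i x x' hx hx'
      have h1 := hedg ω h i x x' hx hx'
      have h2 := hedg ω' h' i x x' hx hx'
      rw [hD i] at h1
      exact h1.trans h2.symm
  funext i j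
  have h1 := congrFun (congrFun hw i) j
  exact add_right_cancel h1

theorem abs_ediv_le {a : ℤ} {L : ℕ} (_hL : 2 ≤ L) {B : ℤ} (h : |a| ≤ B) : |a / (L : ℤ)| ≤ B := by
  have hB : 0 ≤ B := (abs_nonneg a).trans h
  rw [abs_le] at h ⊢
  have hL' : (0 : ℤ) < (L : ℤ) := by exact_mod_cast (by omega : 0 < L)
  constructor
  · rw [Int.le_ediv_iff_mul_le hL']
    have : B * 1 ≤ B * (L : ℤ) := mul_le_mul_of_nonneg_left (by omega) hB
    linarith
  · have h1 : a / (L : ℤ) < B + 1 := by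
      apply Int.ediv_lt_of_lt_mul hL'
      have : (B + 1) * 1 ≤ (B + 1) * (L : ℤ) := mul_le_mul_of_nonneg_left (by omega) (by omega)
      linarith
    omega

theorem saw_bound {d n : ℕ} {w : Fin (n + 1) → Fin d → ℤ} (hw : w ∈ sawSet d n)
    (j : Fin (n + 1)) (a : Fin d) : |w j a| ≤ (n : ℤ) := by
  unfold sawSet at hw
  rw [Finset.mem_filter, Fintype.mem_piFinset] at hw
  have h1 := hw.1 j
  rw [Fintype.mem_piFinset] at h1
  have h2 := Finset.mem_Icc.mp (h1 a)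
  rw [abs_le]
  exact h2

/-- the constants -/
structure Csts (d r : ℕ) where
  a1 : ℝ
  a2 : ℝ
  a3 : ℝ
  a4 : ℝ
  a5 : ℝ
  a6 : ℝ
  h1 : a1 = r * (d + 3) + 4
  h2 : a2 = 1 + 4 * d
  h3 : a3 = r + 4 * a2 + 3 ^ d * a1 + r * a1
  h4 : a4 = a1 + a2 + r
  h5 : a5 = 2 * d * a1
  h6 : a6 = a3 + a2 + 2 * d * r * a1

theorem arith_X {L N r d X : ℝ} (hL : 2 ≤ L) (hd : 0 ≤ d) (hrN : r ≤ N)
    (h : L * X ≤ N + 2 * d * (N + r)) : X ≤ (1 + 4 * d) * (N / L) := by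
  rw [mul_div_assoc', le_div_iff₀ (by linarith)]
  have h5 : d * r ≤ d * N := mul_le_mul_of_nonneg_left hrN hd
  linarith

theorem arith_U {R N r d u a : ℝ} (hR : 1 ≤ R) (hN : 0 ≤ N) (hr : 0 ≤ r) (hd : 0 ≤ d) (hrN : r ≤ N)
    (ha : a = r * (d + 3) + 4)
    (h : R ^ 2 * u ≤ R ^ 2 * (r * (2 * R + d + 1)) + (N + r) ^ 2) :
    u ≤ a * (R + N ^ 2 / R ^ 2) := by
  have hR2 : 0 < R ^ 2 := by positivity
  have h3 : R ^ 2 * u ≤ R ^ 2 * (a * (R + N ^ 2 / R ^ 2)) := by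
    have h4 : R ^ 2 * (a * (R + N ^ 2 / R ^ 2)) = a * (R ^ 2 * R + N ^ 2) := by
      field_simp
    rw [h4, ha]
    have h5 : (N + r) ^ 2 ≤ 4 * N ^ 2 := by nlinarith
    have h6 : (2 * R + d + 1) ≤ (d + 3) * R := by nlinarith
    have h7 : R ^ 2 * (r * (2 * R + d + 1)) ≤ R ^ 2 * (r * ((d + 3) * R)) := by
      apply mul_le_mul_of_nonneg_left _ hR2.le
      exact mul_le_mul_of_nonneg_left h6 hr
    have h8 : 0 ≤ r * (d + 3) * N ^ 2 := by positivity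
    have h9 : 0 ≤ 4 * (R ^ 2 * R) := by positivity
    have h10 : (r * (d + 3) + 4) * (R ^ 2 * R + N ^ 2) =
        R ^ 2 * (r * ((d + 3) * R)) + r * (d + 3) * N ^ 2 + 4 * (R ^ 2 * R) + 4 * N ^ 2 := by ring
    rw [h10]
    linarith
  exact le_of_mul_le_mul_left h3 hR2

theorem arith_L4 {L u a Φ : ℝ} {d : ℕ} (hL : 2 ≤ L) (hu : 0 ≤ u) (h : u * L ^ d ≤ a * Φ) :
    u * (L + 4) ^ d ≤ 3 ^ d * a * Φ := by
  have h1 : (L + 4) ^ d ≤ (3 * L) ^ d := pow_le_pow_left₀ (by linarith) (by linarith) d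
  rw [mul_pow] at h1
  have h2 : (0 : ℝ) ≤ 3 ^ d := by positivity
  calc u * (L + 4) ^ d ≤ u * (3 ^ d * L ^ d) := mul_le_mul_of_nonneg_left h1 hu
    _ = 3 ^ d * (u * L ^ d) := by ring
    _ ≤ 3 ^ d * (a * Φ) := mul_le_mul_of_nonneg_left h h2
    _ = 3 ^ d * a * Φ := by ring

theorem arith_box {L : ℕ} {D q : ℤ} (_hD : 0 ≤ D) (h : |q / ((L : ℤ) + 4)| ≤ D) :
    |q| ≤ (D + 1) * ((L : ℤ) + 4) := by
  have hL4 : (0 : ℤ) < (L : ℤ) + 4 := by positivity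
  have h4 := Int.ediv_mul_le q hL4.ne'
  have h5 := Int.lt_ediv_add_one_mul_self q hL4
  rw [abs_le] at h ⊢
  obtain ⟨h6, h7⟩ := h
  constructor
  · nlinarith
  · nlinarith

theorem one_chain {d : ℕ} (hd : 2 ≤ d) {r : ℕ} [NeZero r] (c : Csts d r) {n : Fin r → ℕ}
    (hn : ∀ i, 1 ≤ n i) {x : Fin r → Fin d → ℤ} (hx : ∑ i, x i = 0) {L R : ℕ} (hL : 2 ≤ L)
    (hLe : Even L) (hR : 1 ≤ R) {N : ℕ} (hN : N = ∑ i, n i) {Φ : ℝ}
    (hΦ : Φ = (N : ℝ) / L + ((R : ℝ) + (N : ℝ) ^ 2 / (R : ℝ) ^ 2) * (L : ℝ) ^ d)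
    (ω : ∀ i, Fin (n i + 1) → Fin d → ℤ) (hω : ∀ i, ω i ∈ sawSet d (n i))
    (hωx : ∀ i, ω i (Fin.last (n i)) = x i) :
    ∃ (v : Fin r → Fin d → ℤ) (U : Finset (Fin d → ℤ)) (M : ℕ) (γ : Fin (M + 1) → Fin d → ℤ),
      Dat n L ⌊c.a4 * Φ⌋₊ ⌊c.a5 * Φ⌋₊ ω v U M γ ∧ 3 ≤ M ∧ |(M : ℝ) - N| ≤ c.a3 * Φ ∧
      (∀ i a, |v i a| ≤ ((N + L + L * R : ℕ) : ℤ)) ∧
      (∀ a, |γ 0 a| ≤ (((N + (N + L + L * R) + 1) * (L + 4) : ℕ) : ℤ)) ∧
      ∑ i, ((adjPairs (Finset.univ.image (ω i)) : ℝ) / 2 - n i) ≤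
        ((adjPairs (Finset.univ.image γ) : ℝ) / 2 - M) + c.a6 * Φ := by
  obtain ⟨hΦ1, hΦL, hΦR, hΦN, hNL, hbig⟩ := phi_facts hd hL hR hΦ
  have hL1 : (2 : ℝ) ≤ L := by exact_mod_cast hL
  have hR1 : (1 : ℝ) ≤ R := by exact_mod_cast hR
  have hN0 : (0 : ℝ) ≤ N := Nat.cast_nonneg N
  have hr0 : (0 : ℝ) ≤ r := Nat.cast_nonneg r
  have hd0 : (0 : ℝ) ≤ d := Nat.cast_nonneg d
  have hrN : r ≤ N := by
    rw [hN]
    calc r = ∑ _i : Fin r, 1 := by simp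
      _ ≤ ∑ i, n i := Finset.sum_le_sum (fun i _ => hn i)
  have hrN' : (r : ℝ) ≤ N := by exact_mod_cast hrN
  have hsum1 : ∑ i, (n i + 1) = N + r := by
    rw [Finset.sum_add_distrib, ← hN]; simp
  obtain ⟨v, k, t, U, hch, hU, hUc, hXc, hv⟩ :=
    exists_chain d hd r n x hx ω hω hωx L hL R hR
  obtain ⟨M, γ, hM, hclose, hinj, hstep, htile, hedge, hUT⟩ :=
    surgery_walk hd (L := (L : ℤ)) (by exact_mod_cast hL) (by exact_mod_cast hLe)
      (fun i j => ω i j + v i) t (U : Set (Fin d → ℤ)) hch hU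
  obtain ⟨b1, b2, b3⟩ := chain_bounds1 hL (fun i j => ω i j + v i) t U hch hn M hM γ hclose hinj
    hedge
  obtain ⟨b4, b5⟩ := chain_bounds2 hL (fun i j => ω i j + v i) t U hch hn M hM γ hclose hinj
    hedge
  simp only [adjPairs_translate] at b5
  rw [hsum1] at b1 b4 hUc
  -- sizes
  obtain ⟨X1, hX1⟩ : ∃ X1 : ℕ, X1 = ∑ i, crossNum (L : ℤ) (fun j => ω i j + v i) := ⟨_, rfl⟩
  obtain ⟨X2, hX2⟩ : ∃ X2 : ℕ, X2 = ∑ i, adjCross (L : ℤ) (fun j => ω i j + v i) := ⟨_, rfl⟩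
  rw [Finset.sum_add_distrib, ← hX1, ← hX2] at hXc
  rw [← hX1] at b1
  rw [Finset.sum_add_distrib, ← hX1] at b2
  rw [← hX2] at b5
  have hXr : ((X1 : ℝ) + X2) ≤ c.a2 * Φ := by
    have h1 : ∑ i, (n i + adjPairs (Finset.univ.image (ω i))) ≤ N + 2 * d * (N + r) := by
      rw [Finset.sum_add_distrib, ← hN, ← hsum1, Finset.mul_sum]
      apply Nat.add_le_add_left
      apply Finset.sum_le_sum
      intro i _
      refine (adjPairs_le d _).trans (Nat.mul_le_mul_left _ ?_)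
      refine Finset.card_image_le.trans ?_
      simp
    have h2 : L * (X1 + X2) ≤ N + 2 * d * (N + r) := hXc.trans h1
    have h3 : (L : ℝ) * ((X1 : ℝ) + X2) ≤ N + 2 * d * (N + r) := by exact_mod_cast h2
    rw [c.h2]
    exact (arith_X hL1 hd0 hrN' h3).trans (mul_le_mul_of_nonneg_left hNL (by positivity))
  have hX10 : (0 : ℝ) ≤ X1 := Nat.cast_nonneg _
  have hX20 : (0 : ℝ) ≤ X2 := Nat.cast_nonneg _
  have ha1 : 0 ≤ c.a1 := by rw [c.h1]; positivity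
  have ha2 : 0 ≤ c.a2 := by rw [c.h2]; positivity
  have huL : (U.card : ℝ) * (L : ℝ) ^ d ≤ c.a1 * Φ := by
    have h1 : ((R : ℝ) ^ 2) * U.card ≤ (R : ℝ) ^ 2 * (r * (2 * R + d + 1)) + (N + r) ^ 2 := by
      exact_mod_cast hUc
    have h2 := arith_U hR1 hN0 hr0 hd0 hrN' c.h1 h1
    calc (U.card : ℝ) * (L : ℝ) ^ d
        ≤ c.a1 * ((R : ℝ) + (N : ℝ) ^ 2 / (R : ℝ) ^ 2) * (L : ℝ) ^ d :=
          mul_le_mul_of_nonneg_right h2 (by positivity)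
      _ = c.a1 * (((R : ℝ) + (N : ℝ) ^ 2 / (R : ℝ) ^ 2) * (L : ℝ) ^ d) := by rw [mul_assoc]
      _ ≤ c.a1 * Φ := mul_le_mul_of_nonneg_left hbig ha1
  have hu0 : (0 : ℝ) ≤ U.card := Nat.cast_nonneg _
  have huu : (U.card : ℝ) ≤ U.card * (L : ℝ) ^ d :=
    le_mul_of_one_le_right hu0 (one_le_pow₀ (by linarith))
  have huL4 : (U.card : ℝ) * ((L : ℝ) + 4) ^ d ≤ 3 ^ d * c.a1 * Φ := arith_L4 hL1 hu0 huL
  have hΦ0 : 0 ≤ Φ := by linarith
  have hrΦ : (r : ℝ) ≤ r * Φ := le_mul_of_one_le_right hr0 hΦ1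
  have hb1 : (M : ℝ) ≤ (N + r) + 4 * X1 + U.card * ((L : ℝ) + 4) ^ d := by exact_mod_cast b1
  have hb4 : (N : ℝ) + r ≤ M + r * (U.card * (L : ℝ) ^ d) := by exact_mod_cast b4
  have hruL : (r : ℝ) * (U.card * (L : ℝ) ^ d) ≤ r * (c.a1 * Φ) :=
    mul_le_mul_of_nonneg_left huL hr0
  have h3d : (0 : ℝ) ≤ 3 ^ d * c.a1 * Φ := by positivity
  have ha1Φ : 0 ≤ r * (c.a1 * Φ) := by positivity
  have ha2Φ : 0 ≤ c.a2 * Φ := by positivity
  have hMN : |(M : ℝ) - N| ≤ c.a3 * Φ := by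
    have e : c.a3 * Φ = r * Φ + 4 * (c.a2 * Φ) + 3 ^ d * c.a1 * Φ + r * (c.a1 * Φ) := by
      rw [c.h3]; ring
    rw [e, abs_le]
    clear hΦ hUc hXc b1 b2 b4 b5 hΦN hbig hNL
    constructor
    · linarith
    · linarith
  refine ⟨v, U, M, γ, ?_, hM, hMN, ?_, ?_, ?_⟩
  · refine ⟨?_, hch.winj, hch.wstep, hch.coll, hedge, hUT, b3, ?_, ?_, hclose, hinj, hstep⟩
    · intro i
      exact ((mem_sawSet d (n i) (ω i)).mp (hω i)).1
    · apply Nat.le_floor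
      have h1 : (((Finset.univ.image γ).image (tile (L : ℤ))).card : ℝ) ≤
          U.card + (X1 + ((∑ _i : Fin r, 1 : ℕ) : ℝ)) := by exact_mod_cast b2
      have h2 : ((∑ _i : Fin r, 1 : ℕ) : ℝ) = r := by simp
      rw [h2] at h1
      have e : c.a4 * Φ = c.a1 * Φ + c.a2 * Φ + r * Φ := by rw [c.h4]; ring
      rw [e]
      clear hΦ hUc hXc b1 b2 b4 b5 hΦN hbig hNL
      linarith
    · apply Nat.le_floor
      have h1 : ((prs L U).card : ℝ) ≤ 2 * d * (U.card * (L : ℝ) ^ d) := by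
        exact_mod_cast card_prs_le L U
      have e : c.a5 * Φ = 2 * d * (c.a1 * Φ) := by rw [c.h5]; ring
      rw [e]
      exact h1.trans (mul_le_mul_of_nonneg_left huL (by positivity))
  · intro i a
    have h1 := hv i a
    rw [hN]
    push_cast
    exact h1
  · intro a
    have hv0 : |v 0 a| ≤ ((N + L + L * R : ℕ) : ℤ) := by
      have h1 := hv 0 a
      rw [hN]
      push_cast
      exact h1
    have hw0 : |ω 0 (Fin.last (n 0)) a| ≤ (N : ℤ) := by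
      refine (saw_bound (hω 0) _ a).trans ?_
      rw [hN]
      exact_mod_cast Finset.single_le_sum (fun i _ => Nat.zero_le (n i)) (Finset.mem_univ 0)
    have htile' : tile (L : ℤ) (γ 0) a =
        (ω 0 (Fin.last (n 0)) + v 0) a / (L : ℤ) := by
      rw [htile, hch.tstart]
      rfl
    obtain ⟨D, hD⟩ : ∃ D : ℕ, D = N + (N + L + L * R) := ⟨_, rfl⟩
    have h2 : |(ω 0 (Fin.last (n 0)) + v 0) a| ≤ (D : ℤ) := by
      rw [Pi.add_apply, hD, Nat.cast_add]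
      exact (abs_add_le _ _).trans (add_le_add hw0 hv0)
    have h3 := abs_ediv_le hL h2
    rw [← htile'] at h3
    have h8 := arith_box (Int.natCast_nonneg D) h3
    rw [← hD, Nat.cast_mul, Nat.cast_add, Nat.cast_add]
    exact h8
  · have hs : ∑ i, ((adjPairs (Finset.univ.image (ω i)) : ℝ) / 2 - n i) =
        (((∑ i, adjPairs (Finset.univ.image (ω i)) : ℕ)) : ℝ) / 2 - N := by
      rw [Finset.sum_sub_distrib, hN]
      push_cast
      rw [Finset.sum_div]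
    rw [hs]
    have h1 : ((∑ i, adjPairs (Finset.univ.image (ω i)) : ℕ) : ℝ) ≤
        adjPairs (Finset.univ.image γ) + X2 + 4 * d * (r * (U.card * (L : ℝ) ^ d)) := by
      exact_mod_cast b5
    have h2 : (M : ℝ) - N ≤ c.a3 * Φ := (le_abs_self _).trans hMN
    have e : c.a6 * Φ = c.a3 * Φ + c.a2 * Φ + 2 * d * (r * (c.a1 * Φ)) := by rw [c.h6]; ring
    have h3 : 4 * d * (r * (U.card * (L : ℝ) ^ d)) ≤ 4 * d * (r * (c.a1 * Φ)) :=
      mul_le_mul_of_nonneg_left hruL (by positivity)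
    rw [e]
    clear hΦ hUc hXc b1 b2 b4 b5 hΦN hbig hNL
    linarith

theorem poly_le_exp (a k : ℕ) {Φ : ℝ} (hΦ : 1 ≤ Φ) :
    (a : ℝ) * Φ ^ k ≤ Real.exp (((a : ℝ) + k) * Φ) := by
  have h1 : (a : ℝ) ≤ Real.exp (a * Φ) := by
    have h2 := Real.add_one_le_exp ((a : ℝ) * Φ)
    have h3 : (a : ℝ) ≤ a * Φ := le_mul_of_one_le_right (Nat.cast_nonneg a) hΦ
    linarith
  have h4 : Φ ^ k ≤ Real.exp (k * Φ) := by
    rw [Real.exp_nat_mul]
    exact pow_le_pow_left₀ (by linarith) (by have := Real.add_one_le_exp Φ; linarith) k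
  rw [add_mul, Real.exp_add]
  exact mul_le_mul h1 h4 (by positivity) (Real.exp_pos _).le

theorem two_pow_le_exp {K : ℕ} {a : ℝ} (h : (K : ℝ) ≤ a) : (2 : ℝ) ^ K ≤ Real.exp a := by
  have h1 : (2 : ℝ) ≤ Real.exp 1 := by
    have := Real.add_one_le_exp (1 : ℝ)
    linarith
  calc (2 : ℝ) ^ K ≤ (Real.exp 1) ^ K := pow_le_pow_left₀ (by norm_num) h1 K
    _ = Real.exp (K * 1) := by rw [Real.exp_nat_mul]
    _ ≤ Real.exp a := Real.exp_le_exp.mpr (by linarith)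

/-- boxes -/
noncomputable def boxv (d r B : ℕ) : Finset (Fin r → Fin d → ℤ) :=
  Fintype.piFinset (fun _ : Fin r => Fintype.piFinset (fun _ : Fin d =>
    Finset.Icc (-(B : ℤ)) (B : ℤ)))

noncomputable def boxg (d B : ℕ) : Finset (Fin d → ℤ) :=
  Fintype.piFinset (fun _ : Fin d => Finset.Icc (-(B : ℤ)) (B : ℤ))

theorem mem_boxv {d r B : ℕ} (v : Fin r → Fin d → ℤ) : v ∈ boxv d r B ↔ ∀ i a, |v i a| ≤ B := by
  unfold boxv
  simp only [Fintype.mem_piFinset, Finset.mem_Icc, abs_le]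

theorem mem_boxg {d B : ℕ} (v : Fin d → ℤ) : v ∈ boxg d B ↔ ∀ a, |v a| ≤ B := by
  unfold boxg
  simp only [Fintype.mem_piFinset, Finset.mem_Icc, abs_le]

theorem card_boxg (d B : ℕ) : (boxg d B).card = (2 * B + 1) ^ d := by
  unfold boxg
  rw [Fintype.card_piFinset, Finset.prod_const, Int.card_Icc, Finset.card_univ, Fintype.card_fin]
  congr 1
  omega

theorem card_boxv (d r B : ℕ) : (boxv d r B).card = ((2 * B + 1) ^ d) ^ r := by
  have h : boxv d r B = Fintype.piFinset (fun _ : Fin r => boxg d B) := rfl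
  rw [h, Fintype.card_piFinset, Finset.prod_const, Finset.card_univ, Fintype.card_fin, card_boxg]

/-- the type of codes -/
abbrev Code (d r B B2 K1 K2 : ℕ) : Type :=
  {v // v ∈ boxv d r B} × {g // g ∈ boxg d B2} × Finset (Fin K1) ×
    (Fin r → Finset (Fin K1)) × (Fin r → Finset (Fin K2))

theorem card_Code (d r B B2 K1 K2 : ℕ) : Fintype.card (Code d r B B2 K1 K2) =
    ((2 * B + 1) ^ d) ^ r * ((2 * B2 + 1) ^ d * (2 ^ K1 * ((2 ^ K1) ^ r * (2 ^ K2) ^ r))) := by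
  simp only [Code, Fintype.card_prod, Fintype.card_coe, card_boxv, card_boxg, Fintype.card_finset,
    Fintype.card_fin, Fintype.card_fun]

theorem card_Code_le {d r : ℕ} (a4 a5 : ℝ) (ha4 : 0 ≤ a4) (ha5 : 0 ≤ a5) {N L R : ℕ} {Φ : ℝ}
    (h1 : 1 ≤ Φ) (hLΦ : (L : ℝ) ≤ Φ) (hRΦ : (R : ℝ) ≤ Φ) (hNΦ : (N : ℝ) ≤ Φ ^ 2) :
    (Fintype.card (Code d r (N + L + L * R) ((N + (N + L + L * R) + 1) * (L + 4))
      ⌊a4 * Φ⌋₊ ⌊a5 * Φ⌋₊) : ℝ) ≤
      Real.exp ((9 * d * r + 54 * d + a4 + r * a4 + r * a5) * Φ) := by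
  rw [card_Code]
  have hL0 : (0 : ℝ) ≤ L := Nat.cast_nonneg L
  have hR0 : (0 : ℝ) ≤ R := Nat.cast_nonneg R
  have hN0 : (0 : ℝ) ≤ N := Nat.cast_nonneg N
  have hΦ0 : (0 : ℝ) ≤ Φ := by linarith
  have hΦ2 : Φ ≤ Φ ^ 2 := by nlinarith
  have hLR : (L : ℝ) * R ≤ Φ ^ 2 := by
    rw [sq]; exact mul_le_mul hLΦ hRΦ hR0 hΦ0
  have hB : (N : ℝ) + L + L * R ≤ 3 * Φ ^ 2 := by linarith
  have e1 : ((2 * (N + L + L * R) + 1 : ℕ) : ℝ) ≤ Real.exp (9 * Φ) := by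
    have h2 := poly_le_exp 7 2 h1
    have h3 : ((7 : ℕ) : ℝ) + ((2 : ℕ) : ℝ) = 9 := by norm_num
    rw [h3] at h2
    refine le_trans ?_ h2
    push_cast
    linarith
  have e2 : ((2 * ((N + (N + L + L * R) + 1) * (L + 4)) + 1 : ℕ) : ℝ) ≤ Real.exp (54 * Φ) := by
    have h2 := poly_le_exp 51 3 h1
    have h3 : ((51 : ℕ) : ℝ) + ((3 : ℕ) : ℝ) = 54 := by norm_num
    rw [h3] at h2
    refine le_trans ?_ h2
    push_cast
    have h4 : (N : ℝ) + (N + L + L * R) + 1 ≤ 5 * Φ ^ 2 := by nlinarith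
    have h5 : (L : ℝ) + 4 ≤ 5 * Φ := by linarith
    have h6 : ((N : ℝ) + (N + L + L * R) + 1) * (L + 4) ≤ (5 * Φ ^ 2) * (5 * Φ) :=
      mul_le_mul h4 h5 (by positivity) (by positivity)
    have h7 : (1 : ℝ) ≤ Φ ^ 3 := one_le_pow₀ h1
    have h8 : (5 * Φ ^ 2) * (5 * Φ) = 25 * Φ ^ 3 := by ring
    linarith
  have e3 : (2 : ℝ) ^ ⌊a4 * Φ⌋₊ ≤ Real.exp (a4 * Φ) :=
    two_pow_le_exp (Nat.floor_le (by positivity))
  have e4 : (2 : ℝ) ^ ⌊a5 * Φ⌋₊ ≤ Real.exp (a5 * Φ) :=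
    two_pow_le_exp (Nat.floor_le (by positivity))
  simp only [Nat.cast_mul, Nat.cast_pow, Nat.cast_ofNat]
  have f1 : (((2 * (N + L + L * R) + 1 : ℕ) : ℝ) ^ d) ^ r ≤ Real.exp (9 * d * r * Φ) := by
    rw [← pow_mul]
    calc _ ≤ (Real.exp (9 * Φ)) ^ (d * r) := pow_le_pow_left₀ (Nat.cast_nonneg _) e1 _
      _ = Real.exp (9 * d * r * Φ) := by
        rw [← Real.exp_nat_mul]; congr 1; push_cast; ring
  have f2 : ((2 * ((N + (N + L + L * R) + 1) * (L + 4)) + 1 : ℕ) : ℝ) ^ d ≤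
      Real.exp (54 * d * Φ) := by
    calc _ ≤ (Real.exp (54 * Φ)) ^ d := pow_le_pow_left₀ (Nat.cast_nonneg _) e2 _
      _ = Real.exp (54 * d * Φ) := by
        rw [← Real.exp_nat_mul]; congr 1; ring
  have f3 : ((2 : ℝ) ^ ⌊a4 * Φ⌋₊) ^ r ≤ Real.exp (r * a4 * Φ) := by
    calc _ ≤ (Real.exp (a4 * Φ)) ^ r := pow_le_pow_left₀ (by positivity) e3 _
      _ = Real.exp (r * a4 * Φ) := by
        rw [← Real.exp_nat_mul]; congr 1; ring
  have f4 : ((2 : ℝ) ^ ⌊a5 * Φ⌋₊) ^ r ≤ Real.exp (r * a5 * Φ) := by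
    calc _ ≤ (Real.exp (a5 * Φ)) ^ r := pow_le_pow_left₀ (by positivity) e4 _
      _ = Real.exp (r * a5 * Φ) := by
        rw [← Real.exp_nat_mul]; congr 1; ring
  have e : (9 * d * r + 54 * d + a4 + r * a4 + r * a5) * Φ =
      9 * d * r * Φ + (54 * d * Φ + (a4 * Φ + (r * a4 * Φ + r * a5 * Φ))) := by ring
  rw [e, Real.exp_add, Real.exp_add, Real.exp_add, Real.exp_add]
  have g1 : (0 : ℝ) ≤ Real.exp (r * a4 * Φ) := (Real.exp_pos _).le
  refine mul_le_mul f1 ?_ (by positivity) (Real.exp_pos _).le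
  refine mul_le_mul f2 ?_ (by positivity) (Real.exp_pos _).le
  refine mul_le_mul e3 ?_ (by positivity) (Real.exp_pos _).le
  exact mul_le_mul f3 f4 (by positivity) (Real.exp_pos _).le

open Classical in
/-- admissible lengths -/
noncomputable def lens (N : ℕ) (a : ℝ) : Finset ℕ :=
  (Finset.range (⌊(N : ℝ) + a⌋₊ + 1)).filter (fun M => 3 ≤ M ∧ |(M : ℝ) - N| ≤ a)

theorem mem_lens {N : ℕ} {a : ℝ} {M : ℕ} (h3 : 3 ≤ M) (h : |(M : ℝ) - N| ≤ a) : M ∈ lens N a := by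
  unfold lens
  rw [Finset.mem_filter, Finset.mem_range]
  refine ⟨Nat.lt_succ_of_le (Nat.le_floor ?_), h3, h⟩
  have := le_abs_self ((M : ℝ) - N)
  linarith

theorem of_mem_lens {N : ℕ} {a : ℝ} {M : ℕ} (h : M ∈ lens N a) : 3 ≤ M ∧ |(M : ℝ) - N| ≤ a := by
  unfold lens at h
  exact (Finset.mem_filter.mp h).2

theorem card_lens_le {N : ℕ} {a Φ : ℝ} (ha : 0 ≤ a) (h1 : 1 ≤ Φ) (hN : (N : ℝ) ≤ Φ ^ 2) :
    ((lens N (a * Φ)).card : ℝ) ≤ Real.exp ((a + 6) * Φ) := by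
  have hΦ0 : (0 : ℝ) ≤ Φ := by linarith
  have h2 : (lens N (a * Φ)).card ≤ ⌊(N : ℝ) + a * Φ⌋₊ + 1 := by
    unfold lens
    refine (Finset.card_filter_le _ _).trans ?_
    rw [Finset.card_range]
  have h3 : ((lens N (a * Φ)).card : ℝ) ≤ (N : ℝ) + a * Φ + 1 := by
    have h4 : ((⌊(N : ℝ) + a * Φ⌋₊ : ℕ) : ℝ) ≤ (N : ℝ) + a * Φ := Nat.floor_le (by positivity)
    have h5 : ((lens N (a * Φ)).card : ℝ) ≤ ((⌊(N : ℝ) + a * Φ⌋₊ + 1 : ℕ) : ℝ) := by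
      exact_mod_cast h2
    push_cast at h5
    linarith
  have h6 : (1 : ℝ) ≤ Φ ^ 2 := one_le_pow₀ h1
  have h7 : Φ ≤ Φ ^ 2 := by nlinarith
  have h8 := poly_le_exp 2 2 h1
  have h9 : a * Φ ≤ Real.exp (a * Φ) := by
    have := Real.add_one_le_exp (a * Φ)
    linarith
  have h10 : Real.exp ((a + 6) * Φ) = Real.exp (a * Φ) * (Real.exp (2 * Φ) *
      Real.exp ((((2 : ℕ) : ℝ) + ((2 : ℕ) : ℝ)) * Φ)) := by
    rw [← Real.exp_add, ← Real.exp_add]; congr 1; push_cast; ring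
  rw [h10]
  have h11 : (1 : ℝ) ≤ Real.exp (a * Φ) := Real.one_le_exp (by positivity)
  have h12 : (2 : ℝ) ≤ Real.exp (2 * Φ) := by
    have := Real.add_one_le_exp (2 * Φ)
    linarith
  have h13 : (1 : ℝ) ≤ Real.exp ((((2 : ℕ) : ℝ) + ((2 : ℕ) : ℝ)) * Φ) :=
    Real.one_le_exp (by positivity)
  push_cast at h8
  have h14 : 2 * Φ ^ 2 ≤ Real.exp ((((2 : ℕ) : ℝ) + ((2 : ℕ) : ℝ)) * Φ) := by
    push_cast; exact h8
  generalize Real.exp (a * Φ) = x at *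
  generalize Real.exp (2 * Φ) = y at *
  generalize Real.exp ((((2 : ℕ) : ℝ) + ((2 : ℕ) : ℝ)) * Φ) = z at *
  have h15 : (N : ℝ) + a * Φ + 1 ≤ z + x := by linarith
  have h16 : 2 * z ≤ y * z := mul_le_mul_of_nonneg_right h12 (by linarith)
  have h17 : x * (2 * z) ≤ x * (y * z) := mul_le_mul_of_nonneg_left h16 (by linarith)
  have h18 : z + x ≤ x * (2 * z) := by nlinarith
  linarith

theorem Zp_nonneg (d : ℕ) (β : ℝ) (M : ℕ) : 0 ≤ Zp d β M :=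
  Finset.sum_nonneg (fun _ _ => (Real.exp_pos _).le)

/-- the relation between families of walks, polygons and codes -/
def Rl {d r : ℕ} (n : Fin r → ℕ) (L B B2 K1 K2 : ℕ)
    (enc1 : Finset (Fin d → ℤ) → Finset (Fin d → ℤ) → Finset (Fin K1))
    (enc2 : Finset ((Fin d → ℤ) × (Fin d → ℤ)) → Finset ((Fin d → ℤ) × (Fin d → ℤ)) →
      Finset (Fin K2))
    (ω : ∀ i, Fin (n i + 1) → Fin d → ℤ) (y : Σ M : ℕ, Fin (M + 1) → Fin d → ℤ)
    (b : Code d r B B2 K1 K2) : Prop :=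
  ∃ (U : Finset (Fin d → ℤ)) (γ : Fin (y.1 + 1) → Fin d → ℤ),
    (γ = fun j => y.2 j + b.2.1.1) ∧ Dat n L K1 K2 ω b.1.1 U y.1 γ ∧
    b.2.2.1 = enc1 (tls L γ) U ∧
    (∀ i, b.2.2.2.1 i = enc1 (tls L γ) (vis L (fun j => ω i j + b.1.1 i) γ)) ∧
    (∀ i, b.2.2.2.2 i = enc2 (prs L U) (edg L (fun j => ω i j + b.1.1 i) U))

theorem sum_bound {d : ℕ} (hd : 2 ≤ d) (β : ℝ) (hβ : 0 ≤ β) {r : ℕ} [NeZero r] (c : Csts d r)
    {n : Fin r → ℕ} (hn : ∀ i, 1 ≤ n i) {x : Fin r → Fin d → ℤ} (hx : ∑ i, x i = 0) {L R : ℕ}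
    (hL : 2 ≤ L) (hLe : Even L) (hR : 1 ≤ R) {N : ℕ} (hN : N = ∑ i, n i) {Φ : ℝ}
    (hΦ : Φ = (N : ℝ) / L + ((R : ℝ) + (N : ℝ) ^ 2 / (R : ℝ) ^ 2) * (L : ℝ) ^ d) :
    ∏ i, Zwx d β (n i) (x i) ≤ Real.exp (β * (c.a6 * Φ)) *
      (Fintype.card (Code d r (N + L + L * R) ((N + (N + L + L * R) + 1) * (L + 4))
        ⌊c.a4 * Φ⌋₊ ⌊c.a5 * Φ⌋₊)) * ∑ M ∈ lens N (c.a3 * Φ), Zp d β M := by
  classical
  obtain ⟨enc1, henc1⟩ := exists_enc (Fin d → ℤ) ⌊c.a4 * Φ⌋₊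
  obtain ⟨enc2, henc2⟩ := exists_enc ((Fin d → ℤ) × (Fin d → ℤ)) ⌊c.a5 * Φ⌋₊
  have hprod : ∏ i, Zwx d β (n i) (x i) =
      ∑ ω ∈ Fintype.piFinset (fun i => (sawSet d (n i)).filter
        (fun w => w (Fin.last (n i)) = x i)),
        Real.exp (β * ∑ i, ((adjPairs (Finset.univ.image (ω i)) : ℝ) / 2 - n i)) := by
    unfold Zwx
    rw [Finset.prod_univ_sum]
    apply Finset.sum_congr rfl
    intro ω _
    rw [← Real.exp_sum, Finset.mul_sum]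
  have hZ : ∑ M ∈ lens N (c.a3 * Φ), Zp d β M =
      ∑ y ∈ (lens N (c.a3 * Φ)).sigma (fun M => polySet d M),
        Real.exp (β * ((adjPairs (Finset.univ.image y.2) : ℝ) / 2 - y.1)) := by
    rw [Finset.sum_sigma]
    rfl
  rw [hprod, hZ]
  refine sum_le_of_code _ _ _ _ _ (fun y _ => (Real.exp_pos _).le) (Real.exp_pos _).le
    (Rl n L (N + L + L * R) ((N + (N + L + L * R) + 1) * (L + 4)) ⌊c.a4 * Φ⌋₊ ⌊c.a5 * Φ⌋₊
      enc1 enc2) ?_ ?_
  · intro ω hω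
    rw [Fintype.mem_piFinset] at hω
    have hω1 : ∀ i, ω i ∈ sawSet d (n i) := fun i => (Finset.mem_filter.mp (hω i)).1
    have hω2 : ∀ i, ω i (Fin.last (n i)) = x i := fun i => (Finset.mem_filter.mp (hω i)).2
    obtain ⟨v, U, M, γ, hdat, hM, hMN, hv, hg, hwt⟩ :=
      one_chain hd c hn hx hL hLe hR hN hΦ ω hω1 hω2
    refine ⟨⟨M, fun j => γ j - γ 0⟩, ?_, (⟨v, (mem_boxv v).mpr hv⟩, ⟨γ 0, (mem_boxg _).mpr hg⟩,
      enc1 (tls L γ) U, fun i => enc1 (tls L γ) (vis L (fun j => ω i j + v i) γ),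
      fun i => enc2 (prs L U) (edg L (fun j => ω i j + v i) U)), ?_, ?_⟩
    · rw [Finset.mem_sigma]
      refine ⟨mem_lens hM hMN, ?_⟩
      rw [mem_polySet]
      refine ⟨sub_self _, ?_, ?_, ?_⟩
      · show γ (Fin.last M) - γ 0 = 0
        rw [hdat.closed, sub_self]
      · intro i j hij
        have h1 : γ i.castSucc - γ 0 = γ j.castSucc - γ 0 := hij
        exact hdat.ginj (sub_left_inj.mp h1)
      · intro i
        have h1 := hdat.gstep i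
        show ∑ k, |(γ i.castSucc - γ 0) k - (γ i.succ - γ 0) k| = 1
        simp only [Pi.sub_apply, sub_sub_sub_cancel_right]
        exact h1
    · refine ⟨U, γ, ?_, hdat, rfl, fun _ => rfl, fun _ => rfl⟩
      funext j
      exact (sub_add_cancel (γ j) (γ 0)).symm
    · have h1 : adjPairs (Finset.univ.image (fun j => γ j - γ 0)) =
          adjPairs (Finset.univ.image γ) := by
        have h2 := adjPairs_translate γ (-γ 0)
        simp only [← sub_eq_add_neg] at h2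
        exact h2
      show Real.exp (β * ∑ i, ((adjPairs (Finset.univ.image (ω i)) : ℝ) / 2 - n i)) ≤
        Real.exp (β * (c.a6 * Φ)) *
          Real.exp (β * ((adjPairs (Finset.univ.image (fun j => γ j - γ 0)) : ℝ) / 2 - M))
      rw [h1, ← Real.exp_add, ← mul_add]
      apply Real.exp_le_exp.mpr
      apply mul_le_mul_of_nonneg_left _ hβ
      linarith
  · rintro ω _ ω' _ y b ⟨U, γ, hγ, hdat, c1, c2, c3⟩ ⟨U', γ', hγ', hdat', c1', c2', c3'⟩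
    have hgg : γ' = γ := hγ'.trans hγ.symm
    subst hgg
    refine dat_unique hL hdat hdat' enc1 henc1 enc2 henc2 (c1.symm.trans c1') ?_ ?_
    · intro i
      exact (c2 i).symm.trans (c2' i)
    · intro i
      exact (c3 i).symm.trans (c3' i)

/-! Target. -/

/-- Main inequality: `r` walks whose displacements add up to zero are closed up to one polygon. The
error term is `C * Φ` with `Φ = N / L + (R + N² / R²) * L^d`, `N = ∑ n i`. -/
theorem main_ineq (d : ℕ) (hd : 2 ≤ d) (β : ℝ) (hβ : 0 ≤ β) (r : ℕ) [NeZero r] :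
    ∃ C : ℝ, 0 ≤ C ∧ ∀ (n : Fin r → ℕ) (_ : ∀ i, 1 ≤ n i) (x : Fin r → Fin d → ℤ)
      (_ : ∑ i, x i = 0) (L R : ℕ) (_ : 2 ≤ L) (_ : Even L) (_ : 1 ≤ R) (N : ℕ)
      (_ : N = ∑ i, n i) (Φ : ℝ)
      (_ : Φ = (N : ℝ) / L + ((R : ℝ) + (N : ℝ) ^ 2 / (R : ℝ) ^ 2) * (L : ℝ) ^ d),
      ∃ M : ℕ, 3 ≤ M ∧ |(M : ℝ) - N| ≤ C * Φ ∧
        ∏ i, Zwx d β (n i) (x i) ≤ Real.exp (C * Φ) * Zp d β M := by
  obtain ⟨c⟩ : Nonempty (Csts d r) := ⟨⟨_, _, _, _, _, _, rfl, rfl, rfl, rfl, rfl, rfl⟩⟩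
  have ha1 : 0 ≤ c.a1 := by rw [c.h1]; positivity
  have ha2 : 0 ≤ c.a2 := by rw [c.h2]; positivity
  have ha3 : 0 ≤ c.a3 := by rw [c.h3]; positivity
  have ha4 : 0 ≤ c.a4 := by rw [c.h4]; positivity
  have ha5 : 0 ≤ c.a5 := by rw [c.h5]; positivity
  have ha6 : 0 ≤ c.a6 := by rw [c.h6]; positivity
  obtain ⟨k, hk⟩ : ∃ k : ℝ, k = 9 * d * r + 54 * d + c.a4 + r * c.a4 + r * c.a5 := ⟨_, rfl⟩
  have hk0 : 0 ≤ k := by rw [hk]; positivity
  have hC : 0 ≤ c.a3 + 3 + β * c.a6 + k + (c.a3 + 6) := by positivity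
  refine ⟨c.a3 + 3 + β * c.a6 + k + (c.a3 + 6), hC, ?_⟩
  intro n hn x hx L R hL hLe hR N hN Φ hΦ
  obtain ⟨h1, hΦL, hΦR, hΦN, _, _⟩ := phi_facts hd hL hR hΦ
  have hΦ0 : 0 ≤ Φ := by linarith
  have hmain := sum_bound hd β hβ c hn hx hL hLe hR hN hΦ
  have hcode := card_Code_le (d := d) (r := r) c.a4 c.a5 ha4 ha5 h1 hΦL hΦR hΦN
  rw [← hk] at hcode
  have hlens := card_lens_le ha3 h1 hΦN
  have hb1 : 0 ≤ β * c.a6 * Φ := by positivity
  have hb2 : 0 ≤ k * Φ := by positivity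
  have hb3 : 0 ≤ (c.a3 + 6) * Φ := by positivity
  have hb4 : 0 ≤ c.a3 * Φ := by positivity
  by_cases hne : (lens N (c.a3 * Φ)).Nonempty
  · obtain ⟨M, hM, hmax⟩ := Finset.exists_max_image _ (fun M => Zp d β M) hne
    obtain ⟨hM3, hMN⟩ := of_mem_lens hM
    refine ⟨M, hM3, ?_, ?_⟩
    · refine hMN.trans ?_
      have e : (c.a3 + 3 + β * c.a6 + k + (c.a3 + 6)) * Φ =
        c.a3 * Φ + 3 * Φ + β * c.a6 * Φ + k * Φ + (c.a3 + 6) * Φ := by ring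
      rw [e]
      linarith
    · have hZ : ∑ M ∈ lens N (c.a3 * Φ), Zp d β M ≤ (lens N (c.a3 * Φ)).card * Zp d β M := by
        rw [← nsmul_eq_mul]
        exact Finset.sum_le_card_nsmul _ _ _ hmax
      have hZM := Zp_nonneg d β M
      have hZ2 : ∑ M ∈ lens N (c.a3 * Φ), Zp d β M ≤ Real.exp ((c.a3 + 6) * Φ) * Zp d β M :=
        hZ.trans (mul_le_mul_of_nonneg_right hlens hZM)
      have hZ0 : 0 ≤ ∑ M ∈ lens N (c.a3 * Φ), Zp d β M :=
        Finset.sum_nonneg (fun M _ => Zp_nonneg d β M)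
      refine hmain.trans ?_
      calc _ ≤ (Real.exp (β * (c.a6 * Φ)) * Real.exp (k * Φ)) *
            (Real.exp ((c.a3 + 6) * Φ) * Zp d β M) := by
            refine mul_le_mul ?_ hZ2 hZ0 (by positivity)
            exact mul_le_mul_of_nonneg_left hcode (Real.exp_pos _).le
        _ = Real.exp (β * (c.a6 * Φ) + k * Φ + (c.a3 + 6) * Φ) * Zp d β M := by
            rw [Real.exp_add, Real.exp_add]; ring
        _ ≤ _ := by
            apply mul_le_mul_of_nonneg_right _ hZM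
            apply Real.exp_le_exp.mpr
            have e : (c.a3 + 3 + β * c.a6 + k + (c.a3 + 6)) * Φ =
              c.a3 * Φ + 3 * Φ + β * (c.a6 * Φ) + k * Φ + (c.a3 + 6) * Φ := by ring
            rw [e]
            linarith
  · rw [Finset.not_nonempty_iff_eq_empty] at hne
    rw [hne, Finset.sum_empty, mul_zero] at hmain
    refine ⟨N + 3, by omega, ?_, ?_⟩
    · have e : (c.a3 + 3 + β * c.a6 + k + (c.a3 + 6)) * Φ =
        c.a3 * Φ + 3 * Φ + β * c.a6 * Φ + k * Φ + (c.a3 + 6) * Φ := by ring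
      rw [e]
      push_cast
      rw [show (N : ℝ) + 3 - N = 3 by ring, abs_of_pos (by norm_num)]
      linarith
    · exact hmain.trans (mul_nonneg (Real.exp_pos _).le (Zp_nonneg d β _))

end Pool.Agent.Helper772.NE
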