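import Mathlib
import Pool.Agent.Helper772.Defs
import Pool.Agent.Helper772.W
set_option autoImplicit false
namespace Pool.Agent.Helper772.R1

open Pool.Agent.Helper772.W (adjPairs_le adjPairs_union_le mem_polySet mem_sawSet)

/-! Given results (proved in another job; use as black boxes). -/

/-! Targets. -/

/-- constant -/
noncomputable def Cst (d : ℕ) (β : ℝ) : ℝ := 3 ^ d * Real.exp (2 * d * β)

theorem one_le_Cst (d : ℕ) (β : ℝ) (hβ : 0 ≤ β) : 1 ≤ Cst d β := by
  unfold Cst
  have h1 : (1 : ℝ) ≤ 3 ^ d := one_le_pow₀ (by norm_num)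
  have h2 : (1 : ℝ) ≤ Real.exp (2 * d * β) := Real.one_le_exp (by positivity)
  nlinarith

theorem Zw_nonneg (d : ℕ) (β : ℝ) (n : ℕ) : 0 ≤ Zw d β n := by
  unfold Zw
  exact Finset.sum_nonneg (fun _ _ => (Real.exp_pos _).le)

theorem Zw_succ_le (d : ℕ) (β : ℝ) (hβ : 0 ≤ β) (n : ℕ) :
    Zw d β (n + 1) ≤ Cst d β * Zw d β n := by
  classical
  let F : (Fin (n + 1 + 1) → Fin d → ℤ) → (Fin d → ℤ) × (Fin (n + 1) → Fin d → ℤ) :=
    fun w => (w (Fin.last (n + 1)) - w (Fin.last n).castSucc, fun i => w i.castSucc)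
  let B : Finset (Fin d → ℤ) := Fintype.piFinset (fun _ : Fin d => Finset.Icc (-1 : ℤ) 1)
  have hBcard : (B.card : ℝ) = 3 ^ d := by
    simp only [B, Fintype.card_piFinset]
    simp
  have hmap : ∀ w ∈ sawSet d (n + 1), F w ∈ B ×ˢ sawSet d n := by
    intro w hw
    rw [mem_sawSet] at hw
    obtain ⟨h0, hinj, hstep⟩ := hw
    rw [Finset.mem_product]
    constructor
    · simp only [F, B, Fintype.mem_piFinset, Finset.mem_Icc]
      intro k
      have h1 := hstep (Fin.last n)
      have h2 : |w (Fin.last n).castSucc k - w (Fin.last n).succ k| ≤ 1 := by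
        rw [← h1]
        exact Finset.single_le_sum (f := fun k => |w (Fin.last n).castSucc k - w (Fin.last n).succ k|)
          (fun _ _ => abs_nonneg _) (Finset.mem_univ k)
      rw [Fin.succ_last] at h2
      rw [abs_le] at h2
      have h3 : w (Fin.last n.succ) k = w (Fin.last (n + 1)) k := rfl
      rw [h3] at h2
      simp only [Pi.sub_apply]
      omega
    · rw [mem_sawSet]
      refine ⟨?_, ?_, ?_⟩
      · simp only [F]
        exact h0
      · intro a b hab
        simp only [F] at hab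
        exact Fin.castSucc_injective _ (hinj hab)
      · intro i
        simp only [F]
        exact hstep i.castSucc
  have hinjF : Set.InjOn F (sawSet d (n + 1) : Set (Fin (n + 1 + 1) → Fin d → ℤ)) := by
    intro w _ w' _ h
    simp only [F, Prod.mk.injEq] at h
    obtain ⟨h1, h2⟩ := h
    have h3 : ∀ i : Fin (n + 1), w i.castSucc = w' i.castSucc := fun i => congrFun h2 i
    funext i
    refine Fin.lastCases ?_ (fun i => h3 i) i
    have h4 := h3 (Fin.last n)
    rw [h4] at h1
    exact sub_left_injective h1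
  let g : (Fin d → ℤ) × (Fin (n + 1) → Fin d → ℤ) → ℝ := fun p =>
    Real.exp (2 * d * β) * Real.exp (β * ((adjPairs (Finset.univ.image p.2) : ℝ) / 2 - n))
  have hle : ∀ w ∈ sawSet d (n + 1),
      Real.exp (β * ((adjPairs (Finset.univ.image w) : ℝ) / 2 - (n + 1 : ℕ))) ≤ g (F w) := by
    intro w hw
    simp only [g, F]
    rw [← Real.exp_add]
    apply Real.exp_le_exp.mpr
    have himg : (Finset.univ.image w) =
        (Finset.univ.image (fun i : Fin (n + 1) => w i.castSucc)) ∪ {w (Fin.last (n + 1))} := by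
      ext x
      simp only [Finset.mem_image, Finset.mem_univ, true_and, Finset.mem_union,
        Finset.mem_singleton]
      constructor
      · rintro ⟨i, hi⟩
        revert hi
        refine Fin.lastCases ?_ (fun i => ?_) i
        · intro hi; right; exact hi.symm
        · intro hi; left; exact ⟨i, hi⟩
      · rintro (⟨i, hi⟩ | hi)
        · exact ⟨_, hi⟩
        · exact ⟨_, hi.symm⟩
    have h1 := adjPairs_union_le d (Finset.univ.image (fun i : Fin (n + 1) => w i.castSucc))
      {w (Fin.last (n + 1))}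
    rw [← himg, Finset.card_singleton, mul_one] at h1
    have h2 : (adjPairs (Finset.univ.image w) : ℝ) ≤
        (adjPairs (Finset.univ.image (fun i : Fin (n + 1) => w i.castSucc)) : ℝ) + 4 * d := by
      exact_mod_cast h1
    push_cast
    nlinarith
  calc Zw d β (n + 1) ≤ ∑ w ∈ sawSet d (n + 1), g (F w) := by
        unfold Zw
        exact Finset.sum_le_sum hle
    _ = ∑ p ∈ (sawSet d (n + 1)).image F, g p := by
        rw [Finset.sum_image hinjF]
    _ ≤ ∑ p ∈ B ×ˢ sawSet d n, g p := by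
        apply Finset.sum_le_sum_of_subset_of_nonneg
        · intro p hp
          rw [Finset.mem_image] at hp
          obtain ⟨w, hw, rfl⟩ := hp
          exact hmap w hw
        · intro p _ _
          simp only [g]
          positivity
    _ = Cst d β * Zw d β n := by
        rw [Finset.sum_product]
        simp only [g]
        rw [Finset.sum_const, nsmul_eq_mul, hBcard, ← Finset.mul_sum]
        unfold Cst Zw
        ring

/-- forgetting the last `j` steps of a walk -/
theorem Zw_add_le (d : ℕ) (β : ℝ) (hβ : 0 ≤ β) :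
    ∃ C : ℝ, 1 ≤ C ∧ ∀ n j : ℕ, Zw d β (n + j) ≤ C ^ j * Zw d β n := by
  refine ⟨Cst d β, one_le_Cst d β hβ, ?_⟩
  intro n j
  induction j with
  | zero => simp
  | succ j ih =>
    have h1 := Zw_succ_le d β hβ (n + j)
    have h2 := one_le_Cst d β hβ
    calc Zw d β (n + (j + 1)) ≤ Cst d β * Zw d β (n + j) := h1
      _ ≤ Cst d β * (Cst d β ^ j * Zw d β n) :=
          mul_le_mul_of_nonneg_left ih (by linarith)
      _ = Cst d β ^ (j + 1) * Zw d β n := by ring

theorem Zp_succ_le_Zw (d : ℕ) (β : ℝ) (hβ : 0 ≤ β) (m : ℕ) :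
    Zp d β (m + 1) ≤ Zw d β m := by
  classical
  let F : (Fin (m + 1 + 1) → Fin d → ℤ) → (Fin (m + 1) → Fin d → ℤ) :=
    fun w => fun i => w i.castSucc
  have hmap : ∀ w ∈ polySet d (m + 1), F w ∈ sawSet d m := by
    intro w hw
    rw [mem_polySet] at hw
    obtain ⟨h0, hl, hinj, hstep⟩ := hw
    rw [mem_sawSet]
    refine ⟨?_, ?_, ?_⟩
    · simp only [F]
      exact h0
    · exact hinj
    · intro i
      simp only [F]
      exact hstep i.castSucc
  have hinjF : Set.InjOn F (polySet d (m + 1) : Set (Fin (m + 1 + 1) → Fin d → ℤ)) := by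
    intro w hw w' hw' h
    rw [Finset.mem_coe, mem_polySet] at hw hw'
    have h3 : ∀ i : Fin (m + 1), w i.castSucc = w' i.castSucc := fun i => congrFun h i
    funext i
    refine Fin.lastCases ?_ (fun i => h3 i) i
    rw [hw.2.1, hw'.2.1]
  let g : (Fin (m + 1) → Fin d → ℤ) → ℝ := fun p =>
    Real.exp (β * ((adjPairs (Finset.univ.image p) : ℝ) / 2 - m))
  have hle : ∀ w ∈ polySet d (m + 1),
      Real.exp (β * ((adjPairs (Finset.univ.image w) : ℝ) / 2 - (m + 1 : ℕ))) ≤ g (F w) := by
    intro w hw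
    rw [mem_polySet] at hw
    obtain ⟨h0, hl, hinj, hstep⟩ := hw
    simp only [g, F]
    apply Real.exp_le_exp.mpr
    have himg : (Finset.univ.image w) =
        (Finset.univ.image (fun i : Fin (m + 1) => w i.castSucc)) := by
      ext x
      simp only [Finset.mem_image, Finset.mem_univ, true_and]
      constructor
      · rintro ⟨i, hi⟩
        revert hi
        refine Fin.lastCases ?_ (fun i => ?_) i
        · intro hi
          refine ⟨0, ?_⟩
          rw [← hi, hl]
          exact h0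
        · intro hi; exact ⟨i, hi⟩
      · rintro ⟨i, hi⟩
        exact ⟨_, hi⟩
    rw [himg]
    push_cast
    nlinarith
  calc Zp d β (m + 1) ≤ ∑ w ∈ polySet d (m + 1), g (F w) := by
        unfold Zp
        exact Finset.sum_le_sum hle
    _ = ∑ p ∈ (polySet d (m + 1)).image F, g p := by
        rw [Finset.sum_image hinjF]
    _ ≤ ∑ p ∈ sawSet d m, g p := by
        apply Finset.sum_le_sum_of_subset_of_nonneg
        · intro p hp
          rw [Finset.mem_image] at hp
          obtain ⟨w, hw, rfl⟩ := hp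
          exact hmap w hw
        · intro p _ _
          simp only [g]
          positivity
    _ = Zw d β m := by
        unfold Zw
        rfl

/-- a closed walk with `M` steps cut open and truncated to `j < M` steps -/
theorem Zp_le_Zw_trunc (d : ℕ) (β : ℝ) (hβ : 0 ≤ β) :
    ∃ C : ℝ, 1 ≤ C ∧ ∀ M j : ℕ, j < M → Zp d β M ≤ C ^ (M - j) * Zw d β j := by
  obtain ⟨C, hC, h⟩ := Zw_add_le d β hβ
  refine ⟨C, hC, ?_⟩
  intro M j hj
  obtain ⟨m, rfl⟩ : ∃ m, M = m + 1 := ⟨M - 1, by omega⟩
  obtain ⟨r, rfl⟩ : ∃ r, m = j + r := ⟨m - j, by omega⟩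
  have h1 := Zp_succ_le_Zw d β hβ (j + r)
  have h2 := h j r
  have h3 : j + r + 1 - j = r + 1 := by omega
  rw [h3]
  have h4 : C ^ r ≤ C ^ (r + 1) := pow_le_pow_right₀ hC (by omega)
  calc Zp d β (j + r + 1) ≤ Zw d β (j + r) := h1
    _ ≤ C ^ r * Zw d β j := h2
    _ ≤ C ^ (r + 1) * Zw d β j := mul_le_mul_of_nonneg_right h4 (Zw_nonneg d β j)

/-- periodic extension -/
def perExt {d m : ℕ} (w : Fin (m + 1 + 1) → Fin d → ℤ) (n : ℕ) : Fin d → ℤ :=
  w (Fin.castSucc ⟨n % (m + 1), Nat.mod_lt _ (Nat.succ_pos m)⟩)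

theorem perExt_step {d m : ℕ} (w : Fin (m + 1 + 1) → Fin d → ℤ) (hw : w ∈ polySet d (m + 1))
    (n : ℕ) : ∑ k, |perExt w n k - perExt w (n + 1) k| = 1 := by
  rw [mem_polySet] at hw
  obtain ⟨h0, hl, hinj, hstep⟩ := hw
  have hlt : n % (m + 1) < m + 1 := Nat.mod_lt _ (Nat.succ_pos m)
  have hs := hstep ⟨n % (m + 1), hlt⟩
  have key : w (Fin.succ ⟨n % (m + 1), hlt⟩) = perExt w (n + 1) := by
    unfold perExt
    by_cases hc : n % (m + 1) = m
    · have h1 : (n + 1) % (m + 1) = 0 := by
        rw [Nat.add_mod, hc]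
        rcases Nat.eq_zero_or_pos m with h | h
        · subst h; simp
        · rw [Nat.mod_eq_of_lt (show 1 < m + 1 by omega)]
          exact Nat.mod_self _
      have h2 : (Fin.succ ⟨n % (m + 1), hlt⟩ : Fin (m + 1 + 1)) = Fin.last (m + 1) := by
        ext
        simp [hc]
      have h3 : (Fin.castSucc ⟨(n + 1) % (m + 1), Nat.mod_lt _ (Nat.succ_pos m)⟩ :
          Fin (m + 1 + 1)) = 0 := by
        ext
        simp [h1]
      rw [h2, h3, hl, h0]
    · congr 1
      ext
      simp only [Fin.val_succ, Fin.val_castSucc]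
      have h4 : n % (m + 1) + 1 < m + 1 := by omega
      rw [← Nat.mod_eq_of_lt h4]
      simp [Nat.add_mod]
  rw [← key]
  exact hs

theorem perExt_inj {d m : ℕ} (w : Fin (m + 1 + 1) → Fin d → ℤ) (hw : w ∈ polySet d (m + 1))
    (a b : ℕ) (h : perExt w a = perExt w b) : a % (m + 1) = b % (m + 1) := by
  rw [mem_polySet] at hw
  obtain ⟨h0, hl, hinj, hstep⟩ := hw
  have := hinj h
  simpa using this

theorem perExt_zero {d m : ℕ} (w : Fin (m + 1 + 1) → Fin d → ℤ) (hw : w ∈ polySet d (m + 1))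
    (a : ℕ) (h : a % (m + 1) = 0) : perExt w a = 0 := by
  rw [mem_polySet] at hw
  obtain ⟨h0, hl, hinj, hstep⟩ := hw
  unfold perExt
  have h3 : (Fin.castSucc ⟨a % (m + 1), Nat.mod_lt _ (Nat.succ_pos m)⟩ :
      Fin (m + 1 + 1)) = 0 := by
    ext
    simp [h]
  rw [h3, h0]

theorem perExt_coe {d m : ℕ} (w : Fin (m + 1 + 1) → Fin d → ℤ) (i : Fin (m + 1)) :
    perExt w (i : ℕ) = w i.castSucc := by
  unfold perExt
  congr 2
  ext
  exact Nat.mod_eq_of_lt i.2

theorem perExt_congr {d m : ℕ} (w : Fin (m + 1 + 1) → Fin d → ℤ) (a b : ℕ)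
    (h : a % (m + 1) = b % (m + 1)) : perExt w a = perExt w b := by
  unfold perExt
  congr 2
  ext
  exact h

theorem adjPairs_translate {d : ℕ} (S S' : Finset (Fin d → ℤ)) (c : Fin d → ℤ)
    (h : ∀ x ∈ S, x - c ∈ S') : adjPairs S ≤ adjPairs S' := by
  unfold adjPairs
  apply Finset.card_le_card_of_injOn (fun p => (p.1 - c, p.2 - c))
  · intro p hp
    rw [Finset.mem_coe, Finset.mem_filter, Finset.mem_product] at hp
    rw [Finset.mem_coe, Finset.mem_filter, Finset.mem_product]
    refine ⟨⟨h _ hp.1.1, h _ hp.1.2⟩, ?_⟩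
    rw [← hp.2]
    apply Finset.sum_congr rfl
    intro i _
    simp
  · intro p _ q _ hpq
    simp only [Prod.mk.injEq, sub_left_inj] at hpq
    exact Prod.ext hpq.1 hpq.2

/-- cut open at index `i`, prolonged by `t` steps in direction `k0` -/
def newWalk {d m : ℕ} (k0 : Fin d) (j : ℕ) (w : Fin (m + 1 + 1) → Fin d → ℤ) (i : ℕ) :
    Fin (j + 1) → Fin d → ℤ :=
  fun s k => perExt w (i + ((s : ℕ) - (j - m))) k - perExt w i k +
    (if k = k0 then (((j - m) - (s : ℕ) : ℕ) : ℤ) - ((j - m : ℕ) : ℤ) else 0)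

theorem newWalk_mem {d m : ℕ} (k0 : Fin d) (j : ℕ) (hj : m ≤ j)
    (w : Fin (m + 1 + 1) → Fin d → ℤ) (hw : w ∈ polySet d (m + 1)) (i : ℕ)
    (hi : ∀ a, perExt w a k0 ≤ perExt w i k0) : newWalk k0 j w i ∈ sawSet d j := by
  obtain ⟨t, rfl⟩ : ∃ t, j = m + t := ⟨j - m, by omega⟩
  have ht : m + t - m = t := by omega
  rw [mem_sawSet]
  refine ⟨?_, ?_, ?_⟩
  · funext k
    simp only [newWalk, ht]
    simp
  · -- injective
    intro s s' h
    have hk0 := congrFun h k0
    simp only [newWalk, ht, if_true] at hk0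
    have hsl := s.2
    have hsl' := s'.2
    ext
    rcases lt_or_ge (s : ℕ) t with h1 | h1
    · rcases lt_or_ge (s' : ℕ) t with h2 | h2
      · rw [show (s : ℕ) - t = 0 by omega, show (s' : ℕ) - t = 0 by omega] at hk0
        have e1 : ((t - (s : ℕ) : ℕ) : ℤ) = (t : ℤ) - (s : ℕ) := by omega
        have e2 : ((t - (s' : ℕ) : ℕ) : ℤ) = (t : ℤ) - (s' : ℕ) := by omega
        rw [e1, e2] at hk0
        omega
      · exfalso
        rw [show (s : ℕ) - t = 0 by omega, show t - (s' : ℕ) = 0 by omega] at hk0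
        have e1 : ((t - (s : ℕ) : ℕ) : ℤ) = (t : ℤ) - (s : ℕ) := by omega
        have e3 := hi (i + ((s' : ℕ) - t))
        rw [e1] at hk0
        simp only [add_zero] at hk0
        push_cast at hk0
        omega
    · rcases lt_or_ge (s' : ℕ) t with h2 | h2
      · exfalso
        rw [show (s' : ℕ) - t = 0 by omega, show t - (s : ℕ) = 0 by omega] at hk0
        have e1 : ((t - (s' : ℕ) : ℕ) : ℤ) = (t : ℤ) - (s' : ℕ) := by omega
        have e3 := hi (i + ((s : ℕ) - t))
        rw [e1] at hk0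
        simp only [add_zero] at hk0
        push_cast at hk0
        omega
      · have h3 : perExt w (i + ((s : ℕ) - t)) = perExt w (i + ((s' : ℕ) - t)) := by
          funext k
          have hk := congrFun h k
          simp only [newWalk, ht] at hk
          rw [show t - (s' : ℕ) = 0 by omega, show t - (s : ℕ) = 0 by omega] at hk
          simpa using hk
        have h4 := perExt_inj w hw _ _ h3
        have h5 : ((s : ℕ) - t) % (m + 1) = ((s' : ℕ) - t) % (m + 1) :=
          Nat.ModEq.add_left_cancel' i h4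
        rw [Nat.mod_eq_of_lt (by omega), Nat.mod_eq_of_lt (by omega)] at h5
        omega
  · intro s
    have hsl := s.2
    simp only [newWalk, ht, Fin.val_castSucc, Fin.val_succ]
    rcases lt_or_ge (s : ℕ) t with h1 | h1
    · rw [show (s : ℕ) - t = 0 by omega, show (s : ℕ) + 1 - t = 0 by omega]
      have e1 : ((t - (s : ℕ) : ℕ) : ℤ) = (t : ℤ) - (s : ℕ) := by omega
      have e2 : ((t - ((s : ℕ) + 1) : ℕ) : ℤ) = (t : ℤ) - (s : ℕ) - 1 := by omega
      rw [e1, e2]
      rw [Finset.sum_eq_single k0]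
      · simp only [if_true]
        rw [show ∀ x y z : ℤ, x - y + (z - (s : ℕ) - z) - (x - y + (z - (s : ℕ) - 1 - z)) = 1 by
          intro x y z; ring]
        simp
      · intro k _ hk
        simp [hk]
      · intro h
        exact absurd (Finset.mem_univ _) h
    · have h2 : (s : ℕ) + 1 - t = ((s : ℕ) - t) + 1 := by omega
      rw [h2, show t - (s : ℕ) = 0 by omega, show t - ((s : ℕ) + 1) = 0 by omega]
      have h3 := perExt_step w hw (i + ((s : ℕ) - t))
      rw [← h3]
      apply Finset.sum_congr rfl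
      intro k _
      congr 1
      rw [← add_assoc]
      ring

theorem newWalk_inj {d m : ℕ} (k0 : Fin d) (j : ℕ) (hj : m ≤ j)
    (w w' : Fin (m + 1 + 1) → Fin d → ℤ) (hw : w ∈ polySet d (m + 1))
    (hw' : w' ∈ polySet d (m + 1)) (i : ℕ) (him : i < m + 1)
    (h : newWalk k0 j w i = newWalk k0 j w' i) : w = w' := by
  obtain ⟨t, rfl⟩ : ∃ t, j = m + t := ⟨j - m, by omega⟩
  have ht : m + t - m = t := by omega
  have h1 : ∀ r, r ≤ m → perExt w (i + r) - perExt w i = perExt w' (i + r) - perExt w' i := by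
    intro r hr
    funext k
    have h2 := congrFun (congrFun h ⟨t + r, by omega⟩) k
    simp only [newWalk, ht] at h2
    rw [show t + r - t = r by omega] at h2
    simp only [Pi.sub_apply]
    linarith
  have h3 : perExt w i = perExt w' i := by
    rcases Nat.eq_zero_or_pos i with hi | hi
    · subst hi
      rw [perExt_zero w hw 0 (by simp), perExt_zero w' hw' 0 (by simp)]
    · have h4 := h1 (m + 1 - i) (by omega)
      rw [show i + (m + 1 - i) = m + 1 by omega] at h4
      rw [perExt_zero w hw (m + 1) (by simp), perExt_zero w' hw' (m + 1) (by simp)] at h4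
      simpa using h4
  have h5 : ∀ a : Fin (m + 1), w a.castSucc = w' a.castSucc := by
    intro a
    have ha := a.2
    rw [← perExt_coe w a, ← perExt_coe w' a]
    rcases le_or_gt i (a : ℕ) with hia | hia
    · have h6 := h1 ((a : ℕ) - i) (by omega)
      rw [show i + ((a : ℕ) - i) = (a : ℕ) by omega, h3] at h6
      simpa using h6
    · have h6 := h1 ((a : ℕ) + (m + 1) - i) (by omega)
      rw [show i + ((a : ℕ) + (m + 1) - i) = (a : ℕ) + (m + 1) by omega, h3] at h6
      rw [perExt_congr w ((a : ℕ) + (m + 1)) (a : ℕ) (by simp),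
        perExt_congr w' ((a : ℕ) + (m + 1)) (a : ℕ) (by simp)] at h6
      simpa using h6
  funext a
  refine Fin.lastCases ?_ (fun a => h5 a) a
  rw [mem_polySet] at hw hw'
  rw [hw.2.1, hw'.2.1]

theorem newWalk_adj {d m : ℕ} (k0 : Fin d) (j : ℕ) (hj : m ≤ j)
    (w : Fin (m + 1 + 1) → Fin d → ℤ) (hw : w ∈ polySet d (m + 1)) (i : ℕ) (him : i < m + 1) :
    adjPairs (Finset.univ.image w) ≤ adjPairs (Finset.univ.image (newWalk k0 j w i)) := by
  obtain ⟨t, rfl⟩ : ∃ t, j = m + t := ⟨j - m, by omega⟩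
  have ht : m + t - m = t := by omega
  have hmem : ∀ r, r ≤ m → perExt w (i + r) - (perExt w i + fun k => if k = k0 then (t : ℤ) else 0)
      ∈ Finset.univ.image (newWalk k0 (m + t) w i) := by
    intro r hr
    rw [Finset.mem_image]
    refine ⟨⟨t + r, by omega⟩, Finset.mem_univ _, ?_⟩
    funext k
    simp only [newWalk, ht, Pi.sub_apply, Pi.add_apply]
    rw [show t + r - t = r by omega, show t - (t + r) = 0 by omega]
    by_cases hk : k = k0
    · simp [hk]
      ring
    · simp [hk]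
  apply adjPairs_translate _ _ (perExt w i + fun k => if k = k0 then (t : ℤ) else 0)
  intro x hx
  rw [Finset.mem_image] at hx
  obtain ⟨a, -, rfl⟩ := hx
  have key : ∀ a : Fin (m + 1), ∃ r, r ≤ m ∧ w a.castSucc = perExt w (i + r) := by
    intro a
    have ha := a.2
    rw [← perExt_coe w a]
    rcases le_or_gt i (a : ℕ) with hia | hia
    · refine ⟨(a : ℕ) - i, by omega, ?_⟩
      rw [show i + ((a : ℕ) - i) = (a : ℕ) by omega]
    · refine ⟨(a : ℕ) + (m + 1) - i, by omega, ?_⟩
      rw [show i + ((a : ℕ) + (m + 1) - i) = (a : ℕ) + (m + 1) by omega]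
      exact perExt_congr w _ _ (by simp)
  have key2 : ∃ b : Fin (m + 1), w a = w b.castSucc := by
    refine Fin.lastCases ?_ (fun a => ⟨a, rfl⟩) a
    refine ⟨0, ?_⟩
    rw [mem_polySet] at hw
    rw [hw.2.1]
    exact hw.1.symm
  obtain ⟨b, hb⟩ := key2
  obtain ⟨r, hr, hr2⟩ := key b
  rw [hb, hr2]
  exact hmem r hr

/-- a closed walk with `M` steps, cut open at a vertex with maximal first coordinate and prolonged
by a straight segment leaving the polygon, to a walk with `j ≥ M - 1` steps -/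
theorem Zp_le_Zw_extend (d : ℕ) (hd : 1 ≤ d) (β : ℝ) (hβ : 0 ≤ β) :
    ∀ M j : ℕ, 1 ≤ M → M ≤ j + 1 →
      Zp d β M ≤ (M : ℝ) * Real.exp (β * (j + 1 - M : ℝ)) * Zw d β j := by
  classical
  intro M j hM hMj
  obtain ⟨m, rfl⟩ : ∃ m, M = m + 1 := ⟨M - 1, by omega⟩
  have hmj : m ≤ j := by omega
  let k0 : Fin d := ⟨0, by omega⟩
  have hmax : ∀ w : Fin (m + 1 + 1) → Fin d → ℤ, ∃ i : Fin (m + 1), ∀ a : ℕ,
      perExt w a k0 ≤ perExt w (i : ℕ) k0 := by
    intro w
    obtain ⟨i, hi⟩ := Finite.exists_max (fun i : Fin (m + 1) => perExt w (i : ℕ) k0)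
    refine ⟨i, ?_⟩
    intro a
    have h1 := hi ⟨a % (m + 1), Nat.mod_lt _ (Nat.succ_pos m)⟩
    rw [perExt_congr w a (a % (m + 1)) (by simp)]
    exact h1
  choose I hI using hmax
  let F : (Fin (m + 1 + 1) → Fin d → ℤ) → Fin (m + 1) × (Fin (j + 1) → Fin d → ℤ) :=
    fun w => (I w, newWalk k0 j w (I w : ℕ))
  have hmap : ∀ w ∈ polySet d (m + 1), F w ∈ (Finset.univ : Finset (Fin (m + 1))) ×ˢ sawSet d j := by
    intro w hw
    rw [Finset.mem_product]
    exact ⟨Finset.mem_univ _, newWalk_mem k0 j hmj w hw _ (hI w)⟩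
  have hinjF : Set.InjOn F (polySet d (m + 1) : Set (Fin (m + 1 + 1) → Fin d → ℤ)) := by
    intro w hw w' hw' h
    simp only [F, Prod.mk.injEq] at h
    obtain ⟨h1, h2⟩ := h
    rw [← h1] at h2
    exact newWalk_inj k0 j hmj w w' hw hw' _ (I w).2 h2
  let g : Fin (m + 1) × (Fin (j + 1) → Fin d → ℤ) → ℝ := fun p =>
    Real.exp (β * (j + 1 - (m + 1 : ℕ) : ℝ)) *
      Real.exp (β * ((adjPairs (Finset.univ.image p.2) : ℝ) / 2 - j))
  have hle : ∀ w ∈ polySet d (m + 1),
      Real.exp (β * ((adjPairs (Finset.univ.image w) : ℝ) / 2 - (m + 1 : ℕ))) ≤ g (F w) := by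
    intro w hw
    simp only [g, F]
    rw [← Real.exp_add]
    apply Real.exp_le_exp.mpr
    have h1 := newWalk_adj k0 j hmj w hw (I w : ℕ) (I w).2
    have h2 : (adjPairs (Finset.univ.image w) : ℝ) ≤
        (adjPairs (Finset.univ.image (newWalk k0 j w (I w : ℕ))) : ℝ) := by
      exact_mod_cast h1
    push_cast
    nlinarith
  calc Zp d β (m + 1) ≤ ∑ w ∈ polySet d (m + 1), g (F w) := by
        unfold Zp
        exact Finset.sum_le_sum hle
    _ = ∑ p ∈ (polySet d (m + 1)).image F, g p := by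
        rw [Finset.sum_image hinjF]
    _ ≤ ∑ p ∈ (Finset.univ : Finset (Fin (m + 1))) ×ˢ sawSet d j, g p := by
        apply Finset.sum_le_sum_of_subset_of_nonneg
        · intro p hp
          rw [Finset.mem_image] at hp
          obtain ⟨w, hw, rfl⟩ := hp
          exact hmap w hw
        · intro p _ _
          simp only [g]
          positivity
    _ = ((m + 1 : ℕ) : ℝ) * Real.exp (β * (j + 1 - (m + 1 : ℕ) : ℝ)) * Zw d β j := by
        rw [Finset.sum_product]
        simp only [g]
        rw [Finset.sum_const, nsmul_eq_mul, Finset.card_univ, Fintype.card_fin, ← Finset.mul_sum]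
        unfold Zw
        ring

end Pool.Agent.Helper772.R1
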