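import Mathlib
import Pool.Agent.Helper772.Defs
import Pool.Agent.Helper772.W
set_option autoImplicit false
namespace Pool.Agent.Helper772.R3

open Pool.Agent.Helper772.W (adjPairs_le adjPairs_union_le mem_polySet mem_sawSet)

/-! Given results (proved in another job; use as black boxes). -/

/-! Target. -/

theorem adjPairs_mono_shift {d : ℕ} (S T : Finset (Fin d → ℤ)) (u : Fin d → ℤ)
    (h : ∀ x ∈ S, x - u ∈ T) : adjPairs S ≤ adjPairs T := by
  unfold adjPairs
  apply Finset.card_le_card_of_injOn (fun p => (p.1 - u, p.2 - u))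
  · intro p hp
    simp only [Finset.coe_filter, Finset.mem_product, Set.mem_ofPred_eq] at hp ⊢
    refine ⟨⟨h _ hp.1.1, h _ hp.1.2⟩, ?_⟩
    simpa using hp.2
  · intro p _ q _ hpq
    simp only [Prod.mk.injEq, sub_left_inj] at hpq
    exact Prod.ext hpq.1 hpq.2

/-- periodic extension of a closed walk -/
noncomputable def per {d M : ℕ} (w : Fin (M + 1) → Fin d → ℤ) (a : ℤ) : Fin d → ℤ :=
  w (Fin.ofNat (M + 1) (a % (M : ℤ)).toNat)

theorem per_congr {d M : ℕ} (w : Fin (M + 1) → Fin d → ℤ) {a b : ℤ}
    (h : a % (M : ℤ) = b % (M : ℤ)) : per w a = per w b := by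
  unfold per; rw [h]

theorem per_add {d M : ℕ} (w : Fin (M + 1) → Fin d → ℤ) (a : ℤ) :
    per w (a + M) = per w a := per_congr w (by simp)

theorem per_sub {d M : ℕ} (w : Fin (M + 1) → Fin d → ℤ) (a : ℤ) :
    per w (a - M) = per w a := per_congr w (by simp)

theorem per_lt {d M : ℕ} (w : Fin (M + 1) → Fin d → ℤ) (i : ℕ) (hi : i < M) :
    per w i = w ⟨i, by omega⟩ := by
  unfold per
  congr 1
  apply Fin.ext
  have h1 : ((i : ℤ) % (M : ℤ)) = i := Int.emod_eq_of_lt (by omega) (by omega)
  simp only [Fin.ofNat, h1, Int.toNat_natCast]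
  exact Nat.mod_eq_of_lt (by omega)

theorem per_coe {d M : ℕ} (hM : 0 < M) (w : Fin (M + 1) → Fin d → ℤ)
    (hw : w ∈ polySet d M) (i : Fin (M + 1)) : per w (i : ℕ) = w i := by
  rw [mem_polySet] at hw
  obtain ⟨h0, hl, -, -⟩ := hw
  by_cases hi : (i : ℕ) < M
  · rw [per_lt w i hi]
  · have : i = Fin.last M := by
      apply Fin.ext
      simp only [Fin.val_last]
      omega
    subst this
    rw [hl]
    simp only [Fin.val_last]
    have h2 := per_add w 0
    rw [zero_add] at h2
    rw [h2]
    have h3 := per_lt w 0 hM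
    rw [show ((0 : ℕ) : ℤ) = 0 from rfl] at h3
    rw [h3]
    exact h0

theorem per_zero {d M : ℕ} (hM : 0 < M) (w : Fin (M + 1) → Fin d → ℤ)
    (hw : w ∈ polySet d M) : per w 0 = 0 := by
  have h := per_coe hM w hw 0
  rw [mem_polySet] at hw
  simpa [hw.1] using h

theorem exists_rep (M : ℕ) (hM : 0 < M) (a : ℤ) : ∃ i : ℕ, i < M ∧ ((i : ℤ) % (M : ℤ)) = a % M := by
  refine ⟨(a % (M : ℤ)).toNat, ?_, ?_⟩
  · have := Int.emod_lt_of_pos a (by omega : (0 : ℤ) < M)
    have := Int.emod_nonneg a (by omega : (M : ℤ) ≠ 0)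
    omega
  · have := Int.emod_nonneg a (by omega : (M : ℤ) ≠ 0)
    rw [Int.toNat_of_nonneg this]
    exact Int.emod_emod_of_dvd a (dvd_refl _)

theorem per_adj {d M : ℕ} (hM : 0 < M) (w : Fin (M + 1) → Fin d → ℤ)
    (hw : w ∈ polySet d M) (a : ℤ) : ∑ k, |per w a k - per w (a + 1) k| = 1 := by
  obtain ⟨i, hi, hia⟩ := exists_rep M hM a
  have h1 : per w a = per w (i : ℕ) := per_congr w hia.symm
  have h2 : per w (a + 1) = per w ((i + 1 : ℕ) : ℤ) := per_congr w (by
    push_cast
    rw [Int.add_emod, ← hia, ← Int.add_emod])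
  rw [h1, h2]
  have h3 := per_coe hM w hw ⟨i, by omega⟩
  have h4 := per_coe hM w hw ⟨i + 1, by omega⟩
  simp only at h3 h4
  rw [h3, h4]
  rw [mem_polySet] at hw
  exact hw.2.2.2 ⟨i, hi⟩

theorem per_inj {d M : ℕ} (hM : 0 < M) (w : Fin (M + 1) → Fin d → ℤ)
    (hw : w ∈ polySet d M) (a b : ℤ) (h : per w a = per w b) : a % (M : ℤ) = b % M := by
  obtain ⟨i, hi, hia⟩ := exists_rep M hM a
  obtain ⟨j, hj, hjb⟩ := exists_rep M hM b
  rw [per_congr w hia.symm, per_congr w hjb.symm, per_lt w i hi, per_lt w j hj] at h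
  rw [mem_polySet] at hw
  have h5 : (⟨i, hi⟩ : Fin M) = ⟨j, hj⟩ := hw.2.2.1 h
  have h6 : i = j := by simpa using h5
  rw [← hia, ← hjb, h6]

/-- unit step -/
theorem step_pos_zero {d : ℕ} (x y : Fin (d + 1) → ℤ) (h : ∑ k, |x k - y k| = 1)
    (h0 : x 0 ≠ y 0) : (∀ k, k ≠ 0 → x k = y k) ∧ |x 0 - y 0| = 1 := by
  have h1 : |x 0 - y 0| + ∑ k ∈ Finset.univ.erase 0, |x k - y k| = 1 := by
    rw [Finset.add_sum_erase _ (fun k => |x k - y k|) (Finset.mem_univ 0)]
    exact h
  have h2 : 0 < |x 0 - y 0| := abs_pos.mpr (sub_ne_zero.mpr h0)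
  have h3 : 0 ≤ ∑ k ∈ Finset.univ.erase 0, |x k - y k| :=
    Finset.sum_nonneg (fun _ _ => abs_nonneg _)
  have h4 : ∑ k ∈ Finset.univ.erase 0, |x k - y k| = 0 := by omega
  refine ⟨?_, by omega⟩
  intro k hk
  rw [Finset.sum_eq_zero_iff_of_nonneg (fun _ _ => abs_nonneg _)] at h4
  have := h4 k (by simp [hk])
  rw [abs_eq_zero] at this
  omega

/-- the extended closed walk -/
noncomputable def ext {d M : ℕ} (h : ℕ) (W : ℤ → Fin (d + 1) → ℤ) (i0 : ℤ) (ε : ℤ) :
    Fin (M + 2 * h + 1) → Fin (d + 1) → ℤ := fun j =>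
  (if (j : ℕ) < M then W (i0 + ((j : ℕ) + 1) * ε)
   else if (j : ℕ) < M + h then W i0 + Pi.single 0 (((j : ℕ) : ℤ) - M + 1)
   else W (i0 + ε) + Pi.single 0 ((M : ℤ) + 2 * h - (j : ℕ))) - W (i0 + ε)

theorem sum_single {d : ℕ} (x : Fin (d + 1) → ℤ) (a b : ℤ) (hab : |a - b| = 1) :
    ∑ k, |(x + Pi.single 0 a : Fin (d + 1) → ℤ) k - (x + Pi.single 0 b : Fin (d + 1) → ℤ) k| = 1 := by
  rw [Finset.sum_eq_single (0 : Fin (d + 1))]
  · simp only [Pi.add_apply, Pi.single_eq_same]
    rw [show x 0 + a - (x 0 + b) = a - b by ring]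
    exact hab
  · intro k _ hk
    simp [Pi.add_apply, Pi.single_eq_of_ne hk]
  · simp

theorem exists_ext {d M h : ℕ} (hM : 3 ≤ M) (w : Fin (M + 1) → Fin (d + 1) → ℤ)
    (hw : w ∈ polySet (d + 1) M) :
    ∃ (i0 : Fin M) (s : Bool) (w' : Fin (M + 2 * h + 1) → Fin (d + 1) → ℤ),
      w' ∈ polySet (d + 1) (M + 2 * h) ∧
      (∀ j : ℕ, ∀ hj : j < M, w' ⟨j, by omega⟩ =
        per w ((i0 : ℕ) + ((j : ℤ) + 1) * (if s then 1 else -1)) -
          per w ((i0 : ℕ) + (if s then 1 else -1))) ∧
      adjPairs (Finset.univ.image w) ≤ adjPairs (Finset.univ.image w') := by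
  have hM0 : 0 < M := by omega
  obtain ⟨i0, -, hmax⟩ := Finset.exists_max_image (Finset.univ : Finset (Fin M))
    (fun i => per w (i : ℕ) 0) ⟨⟨0, hM0⟩, Finset.mem_univ _⟩
  have hmax' : ∀ a : ℤ, per w a 0 ≤ per w (i0 : ℕ) 0 := by
    intro a
    obtain ⟨i, hi, hia⟩ := exists_rep M hM0 a
    rw [per_congr w hia.symm]
    exact hmax ⟨i, hi⟩ (Finset.mem_univ _)
  -- choose direction
  have hdir : ∃ s : Bool, per w ((i0 : ℕ) + (if s then 1 else -1)) 0 = per w (i0 : ℕ) 0 := by
    by_contra hcon
    push Not at hcon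
    have hp := hcon true
    have hn := hcon false
    simp only [if_true] at hp
    simp only [Bool.false_eq_true, if_false] at hn
    have a1 := per_adj hM0 w hw ((i0 : ℕ) : ℤ)
    have a2 := per_adj hM0 w hw (((i0 : ℕ) : ℤ) + -1)
    rw [show ((i0 : ℕ) : ℤ) + -1 + 1 = ((i0 : ℕ) : ℤ) by ring] at a2
    obtain ⟨b1, b2⟩ := step_pos_zero _ _ a1 (Ne.symm hp)
    obtain ⟨c1, c2⟩ := step_pos_zero _ _ a2 hn
    have m1 := hmax' (((i0 : ℕ) : ℤ) + 1)
    have m2 := hmax' (((i0 : ℕ) : ℤ) + -1)
    have heq : per w (((i0 : ℕ) : ℤ) + 1) = per w (((i0 : ℕ) : ℤ) + -1) := by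
      funext k
      by_cases hk : k = 0
      · subst hk
        rw [abs_of_nonneg (by omega)] at b2
        rw [abs_of_nonpos (by omega)] at c2
        omega
      · rw [← b1 k hk, c1 k hk]
    have h7 := per_inj hM0 w hw _ _ heq
    have h8 : (M : ℤ) ∣ 2 := by
      have := Int.ModEq.dvd (n := (M : ℤ)) (a := ((i0 : ℕ) : ℤ) + -1) (b := ((i0 : ℕ) : ℤ) + 1) h7.symm
      rw [show ((i0 : ℕ) : ℤ) + 1 - (((i0 : ℕ) : ℤ) + -1) = 2 by ring] at this
      exact this
    have h9 := Int.le_of_dvd (by norm_num) h8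
    omega
  obtain ⟨s, hs⟩ := hdir
  set ε : ℤ := if s then 1 else -1 with hε
  have hε2 : ε = 1 ∨ ε = -1 := by
    rw [hε]; cases s <;> simp
  set W := per w with hW
  set I : ℤ := ((i0 : ℕ) : ℤ) with hI
  have hadjE : ∀ a : ℤ, ∑ k, |W a k - W (a + ε) k| = 1 := by
    intro a
    rcases hε2 with h1 | h1
    · rw [h1]; exact per_adj hM0 w hw a
    · rw [h1]
      have := per_adj hM0 w hw (a + -1)
      rw [show a + -1 + 1 = a by ring] at this
      exact (Finset.sum_congr rfl (fun k _ => abs_sub_comm _ _)).trans this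
  have hloop : W (I + (M : ℤ) * ε) = W I := by
    rcases hε2 with h1 | h1
    · rw [h1, mul_one]; exact per_add w I
    · rw [h1, show I + (M : ℤ) * (-1) = I - M by ring]; exact per_sub w I
  have huv : W (I + ε) ≠ W I := by
    intro hc
    have := hadjE I
    rw [hc] at this
    simp at this
  have hWinj : ∀ j k : ℕ, j < M → k < M →
      W (I + ((j : ℤ) + 1) * ε) = W (I + ((k : ℤ) + 1) * ε) → j = k := by
    intro j k hj hk hjk
    have h7 := per_inj hM0 w hw _ _ hjk
    have h8 : (M : ℤ) ∣ (k : ℤ) - j := by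
      have h9 := Int.ModEq.dvd (n := (M : ℤ)) h7
      rcases hε2 with h1 | h1
      · rw [h1] at h9
        rw [show I + ((k : ℤ) + 1) * 1 - (I + ((j : ℤ) + 1) * 1) = k - j by ring] at h9
        exact h9
      · rw [h1] at h9
        rw [show I + ((k : ℤ) + 1) * (-1) - (I + ((j : ℤ) + 1) * (-1)) = -((k : ℤ) - j) by ring] at h9
        exact (dvd_neg.mp h9)
    have h10 : (k : ℤ) - j = 0 := by
      apply Int.eq_zero_of_abs_lt_dvd h8
      rw [abs_lt]
      constructor <;> omega
    omega
  refine ⟨i0, s, ext (M := M) h W I ε, ?_, ?_, ?_⟩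
  · rw [mem_polySet]
    refine ⟨?_, ?_, ?_, ?_⟩
    · simp only [ext, Fin.val_zero, hM0, if_true]
      simp
    · simp only [ext, Fin.val_last]
      rw [if_neg (by omega), if_neg (by omega)]
      simp
    · intro a b hab
      obtain ⟨a, ha⟩ := a
      obtain ⟨b, hb⟩ := b
      simp only [ext, Fin.castSucc_mk, sub_left_inj] at hab
      apply Fin.ext
      simp only
      -- key: compare cases
      have key : ∀ a b : ℕ, a < M + 2 * h → b < M + 2 * h → a ≤ b →
          ((if a < M then W (I + ((a : ℤ) + 1) * ε)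
            else if a < M + h then W I + Pi.single 0 ((a : ℤ) - M + 1)
            else W (I + ε) + Pi.single 0 ((M : ℤ) + 2 * h - a)) =
          (if b < M then W (I + ((b : ℤ) + 1) * ε)
            else if b < M + h then W I + Pi.single 0 ((b : ℤ) - M + 1)
            else W (I + ε) + Pi.single 0 ((M : ℤ) + 2 * h - b))) → a = b := by
        clear hab ha hb a b
        intro a b ha hb hle hab
        by_cases ha1 : a < M
        · rw [if_pos ha1] at hab
          by_cases hb1 : b < M
          · rw [if_pos hb1] at hab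
            exact hWinj a b ha1 hb1 hab
          · rw [if_neg hb1] at hab
            exfalso
            have m := hmax' (I + ((a : ℤ) + 1) * ε)
            by_cases hb2 : b < M + h
            · rw [if_pos hb2] at hab
              have := congrFun hab 0
              simp only [Pi.add_apply, Pi.single_eq_same] at this
              omega
            · rw [if_neg hb2] at hab
              have := congrFun hab 0
              simp only [Pi.add_apply, Pi.single_eq_same] at this
              omega
        · have hb1 : ¬ b < M := by omega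
          rw [if_neg ha1, if_neg hb1] at hab
          by_cases ha2 : a < M + h
          · rw [if_pos ha2] at hab
            by_cases hb2 : b < M + h
            · rw [if_pos hb2] at hab
              have := congrFun hab 0
              simp only [Pi.add_apply, Pi.single_eq_same] at this
              omega
            · rw [if_neg hb2] at hab
              exfalso
              have h0 := congrFun hab 0
              simp only [Pi.add_apply, Pi.single_eq_same] at h0
              have h1 : (a : ℤ) - M + 1 = (M : ℤ) + 2 * h - b := by omega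
              rw [h1] at hab
              exact huv (add_right_cancel hab).symm
          · have hb2 : ¬ b < M + h := by omega
            rw [if_neg ha2, if_neg hb2] at hab
            have := congrFun hab 0
            simp only [Pi.add_apply, Pi.single_eq_same] at this
            omega
      rcases le_total a b with hle | hle
      · exact key a b ha hb hle hab
      · exact (key b a hb ha hle hab.symm).symm
    · intro i
      obtain ⟨i, hi⟩ := i
      simp only [ext, Fin.castSucc_mk, Fin.succ_mk, Pi.sub_apply, sub_sub_sub_cancel_right]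
      by_cases h1 : i + 1 < M
      · rw [if_pos h1, if_pos (by omega)]
        have h11 := hadjE (I + ((i : ℤ) + 1) * ε)
        have h12 : I + ((((i + 1 : ℕ) : ℤ)) + 1) * ε = I + ((i : ℤ) + 1) * ε + ε := by
          push_cast; ring
        rw [h12]
        exact h11
      · by_cases h2 : i < M
        · have h3 : i + 1 = M := by omega
          have h4 : ((i : ℤ) + 1) = M := by exact_mod_cast h3
          rw [if_pos h2, if_neg h1, h4, hloop]
          by_cases h5 : i + 1 < M + h
          · rw [if_pos h5]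
            have h6 := sum_single (W I) 0 (((i + 1 : ℕ) : ℤ) - M + 1) (by
              push_cast
              rw [h4]; norm_num)
            rw [Pi.single_zero, add_zero] at h6
            exact h6
          · rw [if_neg h5]
            have h6 : (M : ℤ) + 2 * h - ((i + 1 : ℕ) : ℤ) = 0 := by
              push_cast
              omega
            rw [h6, Pi.single_zero, add_zero]
            exact hadjE I
        · rw [if_neg h1, if_neg h2]
          by_cases h3 : i + 1 < M + h
          · rw [if_pos h3, if_pos (by omega)]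
            apply sum_single
            push_cast
            rw [show (i : ℤ) - M + 1 - (i + 1 - M + 1) = -1 by ring]
            norm_num
          · rw [if_neg h3]
            by_cases h4 : i < M + h
            · rw [if_pos h4]
              have h5 : (i : ℤ) - M + 1 = (M : ℤ) + 2 * h - ((i + 1 : ℕ) : ℤ) := by
                push_cast; omega
              rw [h5]
              have h13 := hadjE I
              refine (Finset.sum_congr rfl (fun k _ => ?_)).trans h13
              simp only [Pi.add_apply, add_sub_add_right_eq_sub]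
            · rw [if_neg h4]
              apply sum_single
              push_cast
              rw [show (M : ℤ) + 2 * h - i - (M + 2 * h - (i + 1)) = 1 by ring]
              norm_num
  · intro j hj
    simp only [ext, hj, if_true]
    rfl
  · apply adjPairs_mono_shift _ _ (W (I + ε))
    intro x hx
    simp only [Finset.mem_image, Finset.mem_univ, true_and] at hx ⊢
    obtain ⟨i, rfl⟩ := hx
    -- find j < M with I + (j+1) ε ≡ i
    have hex : ∃ j : ℕ, j < M ∧ W (I + ((j : ℤ) + 1) * ε) = w i := by
      rcases hε2 with h1 | h1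
      · obtain ⟨j, hj, hja⟩ := exists_rep M hM0 ((i : ℕ) - I - 1)
        refine ⟨j, hj, ?_⟩
        rw [← per_coe hM0 w hw i, h1]
        apply per_congr
        have h3 : (M : ℤ) ∣ (((i : ℕ) : ℤ) - I - 1) - j := Int.ModEq.dvd hja
        apply Int.ModEq.symm
        apply Int.ModEq.symm
        apply (Int.modEq_iff_dvd).mpr
        rw [show ((i : ℕ) : ℤ) - (I + ((j : ℤ) + 1) * 1) = ((i : ℕ) : ℤ) - I - 1 - j by ring]
        exact h3
      · obtain ⟨j, hj, hja⟩ := exists_rep M hM0 (I - (i : ℕ) - 1)
        refine ⟨j, hj, ?_⟩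
        rw [← per_coe hM0 w hw i, h1]
        apply per_congr
        have h3 : (M : ℤ) ∣ (I - ((i : ℕ) : ℤ) - 1) - j := Int.ModEq.dvd hja
        apply (Int.modEq_iff_dvd).mpr
        rw [show ((i : ℕ) : ℤ) - (I + ((j : ℤ) + 1) * (-1)) = -(I - ((i : ℕ) : ℤ) - 1 - j) by ring]
        exact (dvd_neg.mpr h3)
    obtain ⟨j, hj, hjw⟩ := hex
    refine ⟨⟨j, by omega⟩, ?_⟩
    simp only [ext, hj, if_true]
    rw [hjw]

/-- A polygon with `M ≥ 3` steps is prolonged by `2 h` steps by pushing out one edge that lies in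
the hyperplane of maximal first coordinate. -/
theorem Zp_extend (d : ℕ) (β : ℝ) (hβ : 0 ≤ β) :
    ∀ M h : ℕ, 3 ≤ M →
      Zp d β M ≤ 2 * (M : ℝ) * Real.exp (β * (2 * h : ℝ)) * Zp d β (M + 2 * h) := by
  intro M h hM
  classical
  have hM0 : 0 < M := by omega
  rcases d with _ | d
  · have h1 : Zp 0 β M = 0 := by
      unfold Zp
      apply Finset.sum_eq_zero
      intro w hw
      rw [mem_polySet] at hw
      have := hw.2.2.2 ⟨0, hM0⟩
      simp at this
    rw [h1]
    have h2 : 0 ≤ Zp 0 β (M + 2 * h) := Finset.sum_nonneg (fun _ _ => (Real.exp_pos _).le)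
    positivity
  · have hch : ∀ w : Fin (M + 1) → Fin (d + 1) → ℤ, ∃ y : (Fin M × Bool) ×
        (Fin (M + 2 * h + 1) → Fin (d + 1) → ℤ), w ∈ polySet (d + 1) M →
        y.2 ∈ polySet (d + 1) (M + 2 * h) ∧
        (∀ j : ℕ, ∀ hj : j < M, y.2 ⟨j, by omega⟩ =
          per w ((y.1.1 : ℕ) + ((j : ℤ) + 1) * (if y.1.2 then 1 else -1)) -
            per w ((y.1.1 : ℕ) + (if y.1.2 then 1 else -1))) ∧
        adjPairs (Finset.univ.image w) ≤ adjPairs (Finset.univ.image y.2) := by
      intro w
      by_cases hw : w ∈ polySet (d + 1) M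
      · obtain ⟨i0, s, w', h1, h2, h3⟩ := exists_ext (h := h) hM w hw
        exact ⟨((i0, s), w'), fun _ => ⟨h1, h2, h3⟩⟩
      · exact ⟨((⟨0, hM0⟩, true), fun _ _ => 0), fun h => absurd h hw⟩
    choose F hF using hch
    set g : (Fin M × Bool) × (Fin (M + 2 * h + 1) → Fin (d + 1) → ℤ) → ℝ := fun y =>
      Real.exp (β * (2 * h : ℝ)) * Real.exp (β * ((adjPairs (Finset.univ.image y.2) : ℝ) / 2 -
        ((M + 2 * h : ℕ) : ℝ))) with hg
    have hg0 : ∀ y, 0 ≤ g y := fun y => by rw [hg]; positivity
    have hinj : Set.InjOn F (polySet (d + 1) M : Set (Fin (M + 1) → Fin (d + 1) → ℤ)) := by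
      intro w1 hw1 w2 hw2 h12
      have hw1' : w1 ∈ polySet (d + 1) M := hw1
      have hw2' : w2 ∈ polySet (d + 1) M := hw2
      obtain ⟨-, p1, -⟩ := hF w1 hw1'
      obtain ⟨-, p2, -⟩ := hF w2 hw2'
      rw [← h12] at p2
      set I : ℤ := (((F w1).1.1 : ℕ) : ℤ) with hI
      set ε : ℤ := if (F w1).1.2 then 1 else -1 with hε
      have hε2 : ε = 1 ∨ ε = -1 := by
        rw [hε]; cases (F w1).1.2 <;> simp
      have hall : ∀ a : ℤ, per w1 a - per w1 (I + ε) = per w2 a - per w2 (I + ε) := by
        intro a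
        have hex : ∃ j : ℕ, j < M ∧ (I + ((j : ℤ) + 1) * ε) % (M : ℤ) = a % M := by
          rcases hε2 with h1 | h1
          · obtain ⟨j, hj, hja⟩ := exists_rep M hM0 (a - I - 1)
            refine ⟨j, hj, ?_⟩
            rw [h1]
            have h3 : (M : ℤ) ∣ (a - I - 1) - j := Int.ModEq.dvd hja
            apply (Int.modEq_iff_dvd).mpr
            rw [show a - (I + ((j : ℤ) + 1) * 1) = a - I - 1 - j by ring]
            exact h3
          · obtain ⟨j, hj, hja⟩ := exists_rep M hM0 (I - a - 1)
            refine ⟨j, hj, ?_⟩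
            rw [h1]
            have h3 : (M : ℤ) ∣ (I - a - 1) - j := Int.ModEq.dvd hja
            apply (Int.modEq_iff_dvd).mpr
            rw [show a - (I + ((j : ℤ) + 1) * (-1)) = -(I - a - 1 - j) by ring]
            exact (dvd_neg.mpr h3)
        obtain ⟨j, hj, hja⟩ := hex
        rw [per_congr w1 hja.symm, per_congr w2 hja.symm, ← p1 j hj, ← p2 j hj]
      have h0 := hall 0
      rw [per_zero hM0 w1 hw1', per_zero hM0 w2 hw2'] at h0
      have h00 : per w1 (I + ε) = per w2 (I + ε) := by
        have := neg_injective (by simpa using h0 : -(per w1 (I + ε)) = -(per w2 (I + ε)))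
        exact this
      funext i
      rw [← per_coe hM0 w1 hw1' i, ← per_coe hM0 w2 hw2' i]
      have := hall ((i : ℕ) : ℤ)
      rw [h00] at this
      exact sub_left_injective this
    calc Zp (d + 1) β M
        = ∑ w ∈ polySet (d + 1) M,
            Real.exp (β * ((adjPairs (Finset.univ.image w) : ℝ) / 2 - M)) := rfl
      _ ≤ ∑ w ∈ polySet (d + 1) M, g (F w) := by
          apply Finset.sum_le_sum
          intro w hw
          obtain ⟨-, -, h3⟩ := hF w hw
          rw [hg]
          simp only
          rw [← Real.exp_add]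
          apply Real.exp_le_exp.mpr
          rw [← mul_add]
          apply mul_le_mul_of_nonneg_left _ hβ
          have h4 : (adjPairs (Finset.univ.image w) : ℝ) ≤
              (adjPairs (Finset.univ.image (F w).2) : ℝ) := by exact_mod_cast h3
          push_cast
          linarith
      _ = ∑ y ∈ (polySet (d + 1) M).image F, g y := by
          rw [Finset.sum_image hinj]
      _ ≤ ∑ y ∈ (Finset.univ : Finset (Fin M × Bool)) ×ˢ polySet (d + 1) (M + 2 * h), g y := by
          apply Finset.sum_le_sum_of_subset_of_nonneg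
          · intro y hy
            rw [Finset.mem_image] at hy
            obtain ⟨w, hw, rfl⟩ := hy
            rw [Finset.mem_product]
            exact ⟨Finset.mem_univ _, (hF w hw).1⟩
          · intro y _ _
            exact hg0 y
      _ = 2 * (M : ℝ) * Real.exp (β * (2 * h : ℝ)) * Zp (d + 1) β (M + 2 * h) := by
          rw [Finset.sum_product]
          simp only [hg]
          rw [Finset.sum_const, Finset.card_univ, Fintype.card_prod, Fintype.card_fin,
            Fintype.card_bool, ← Finset.mul_sum, nsmul_eq_mul]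
          unfold Zp
          push_cast
          ring

end Pool.Agent.Helper772.R3
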