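import Mathlib
import Pool.Agent.Helper772.Defs
import Pool.Agent.Helper772.L
import Pool.Agent.Helper772.NE
import Pool.Agent.Helper772.NF1
import Pool.Agent.Helper772.R1
import Pool.Agent.Helper772.R3
import Pool.Agent.Helper772.W
set_option autoImplicit false
namespace Pool.Agent.Helper772.NF2

open Pool.Agent.Helper772.L (limit_poly limit_walk)
open Pool.Agent.Helper772.NE (main_ineq)
open Pool.Agent.Helper772.NF1 (Zp_pos Zwx_neg choice_LR exists_endpoint)
open Pool.Agent.Helper772.R1 (Zp_le_Zw_extend Zp_le_Zw_trunc Zw_add_le)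
open Pool.Agent.Helper772.R3 (Zp_extend)
open Pool.Agent.Helper772.W (one_le_Zw polySet_even)

open Filter Topology

/-! Given results (proved in other jobs; use as black boxes). -/

/-! Target. -/

lemma nf2_pow_bounds (d : ℕ) (N : ℝ) (hN : 1 ≤ N) :
    1 ≤ N ^ (1 - 1 / (3 * ((d : ℝ) + 1))) ∧
      Real.log N ≤ 2 * N ^ (1 - 1 / (3 * ((d : ℝ) + 1))) ∧
      Real.log (2 * N + 1) ≤ 4 * N ^ (1 - 1 / (3 * ((d : ℝ) + 1))) := by
  have hd : (0 : ℝ) ≤ d := Nat.cast_nonneg d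
  set δ : ℝ := 1 / (3 * ((d : ℝ) + 1)) with hδ
  have hδ0 : 0 < δ := by positivity
  have hδ1 : δ ≤ 1 / 3 := by
    rw [hδ]
    apply one_div_le_one_div_of_le (by norm_num)
    linarith
  have h1 : 1 ≤ N ^ (1 - δ) := Real.one_le_rpow hN (by linarith)
  have h2 : Real.log N ≤ 2 * N ^ (1 - δ) := by
    have h3 := Real.log_le_rpow_div (by linarith : (0 : ℝ) ≤ N) (by linarith : 0 < 1 - δ)
    have h4 : N ^ (1 - δ) / (1 - δ) ≤ 2 * N ^ (1 - δ) := by
      rw [div_le_iff₀ (by linarith)]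
      nlinarith
    linarith
  refine ⟨h1, h2, ?_⟩
  have h5 : Real.log (2 * N + 1) ≤ Real.log (3 * N) :=
    Real.log_le_log (by linarith) (by linarith)
  have h6 : Real.log (3 * N) = Real.log 3 + Real.log N :=
    Real.log_mul (by norm_num) (by linarith)
  have h7 : Real.log 3 ≤ 2 := by
    have := Real.log_le_sub_one_of_pos (by norm_num : (0 : ℝ) < 3)
    linarith
  linarith

lemma nf2_Zwx_nonneg (d : ℕ) (β : ℝ) (n : ℕ) (x : Fin d → ℤ) : 0 ≤ Zwx d β n x := by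
  unfold Zwx
  exact Finset.sum_nonneg fun _ _ => (Real.exp_pos _).le

lemma nf2_Zp_even (d : ℕ) (β : ℝ) (M : ℕ) (h : 0 < Zp d β M) : Even M := by
  unfold Zp at h
  by_contra hM
  have : polySet d M = ∅ := by
    apply Finset.eq_empty_of_forall_notMem
    intro w hw
    exact hM (polySet_even d M w hw)
  rw [this] at h
  simp at h

/-- closing up two walks -/
lemma nf2_two (d : ℕ) (hd : 2 ≤ d) (β : ℝ) (hβ : 0 ≤ β) :
    ∃ K : ℝ, 0 ≤ K ∧ ∀ n : ℕ, 1 ≤ n → ∃ M : ℕ, 3 ≤ M ∧ 0 < Zp d β M ∧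
      |(M : ℝ) - 2 * n| ≤ K * (n : ℝ) ^ (1 - 1 / (3 * ((d : ℝ) + 1))) ∧
      2 * Real.log (Zw d β n) ≤ Real.log (Zp d β M) +
        K * (n : ℝ) ^ (1 - 1 / (3 * ((d : ℝ) + 1))) := by
  obtain ⟨C, hC, hmain⟩ := main_ineq d hd β hβ 2
  obtain ⟨K0, hK0, hLR⟩ := choice_LR d
  refine ⟨2 * (C * K0) + 8 * d, by positivity, ?_⟩
  intro n hn
  obtain ⟨x, hx⟩ := exists_endpoint d β n
  obtain ⟨L, R, hL, hLe, hR, hΦ⟩ := hLR (2 * n) (by omega)
  set Φ : ℝ := ((2 * n : ℕ) : ℝ) / L +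
    ((R : ℝ) + ((2 * n : ℕ) : ℝ) ^ 2 / (R : ℝ) ^ 2) * (L : ℝ) ^ d with hΦd
  obtain ⟨M, hM3, hMN, hprod⟩ := hmain ![n, n] (by intro i; fin_cases i <;> simpa using hn)
    ![x, -x] (by simp) L R hL hLe hR (2 * n)
    (by simp [Fin.sum_univ_two]; ring) Φ hΦd
  have hn1 : (1 : ℝ) ≤ n := by exact_mod_cast hn
  have hZw : 1 ≤ Zw d β n := one_le_Zw d (by omega) β n
  have hpow : (0 : ℝ) < (2 * (n : ℝ) + 1) ^ d := by positivity
  have hZx : 0 < Zwx d β n x := by
    by_contra hcon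
    have h0 : Zwx d β n x = 0 := le_antisymm (not_lt.mp hcon) (nf2_Zwx_nonneg d β n x)
    rw [h0, mul_zero] at hx
    linarith
  simp only [Fin.prod_univ_two, Matrix.cons_val_zero, Matrix.cons_val_one, Zwx_neg] at hprod
  have hZp : 0 < Zp d β M := by
    have h1 : 0 < Zwx d β n x * Zwx d β n x := by positivity
    have h2 : 0 < Real.exp (C * Φ) * Zp d β M := lt_of_lt_of_le h1 hprod
    exact (mul_pos_iff_of_pos_left (Real.exp_pos _)).mp h2
  set δ : ℝ := 1 / (3 * ((d : ℝ) + 1)) with hδ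
  have hd0 : (0 : ℝ) ≤ d := Nat.cast_nonneg d
  have hδ0 : 0 < δ := by positivity
  have hδ1 : δ ≤ 1 / 3 := by
    rw [hδ]
    apply one_div_le_one_div_of_le (by norm_num)
    linarith
  have hΦ2 : Φ ≤ 2 * K0 * (n : ℝ) ^ (1 - δ) := by
    refine le_trans hΦ ?_
    have h1 : (((2 * n : ℕ) : ℝ)) ^ (1 - δ) ≤ 2 * (n : ℝ) ^ (1 - δ) := by
      push_cast
      rw [Real.mul_rpow (by norm_num) (by linarith)]
      apply mul_le_mul_of_nonneg_right _ (by positivity)
      calc (2 : ℝ) ^ (1 - δ) ≤ 2 ^ (1 : ℝ) :=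
            Real.rpow_le_rpow_of_exponent_le (by norm_num) (by linarith)
        _ = 2 := by norm_num
    calc K0 * (((2 * n : ℕ) : ℝ)) ^ (1 - δ) ≤ K0 * (2 * (n : ℝ) ^ (1 - δ)) :=
          mul_le_mul_of_nonneg_left h1 hK0
      _ = 2 * K0 * (n : ℝ) ^ (1 - δ) := by ring
  obtain ⟨hb1, hb2, hb3⟩ := nf2_pow_bounds d (n : ℝ) hn1
  rw [← hδ] at hb1 hb2 hb3
  have hCΦ : C * Φ ≤ 2 * (C * K0) * (n : ℝ) ^ (1 - δ) := by
    calc C * Φ ≤ C * (2 * K0 * (n : ℝ) ^ (1 - δ)) := mul_le_mul_of_nonneg_left hΦ2 hC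
      _ = _ := by ring
  have hd8 : 0 ≤ 8 * (d : ℝ) * (n : ℝ) ^ (1 - δ) := by positivity
  refine ⟨M, hM3, hZp, ?_, ?_⟩
  · push_cast at hMN
    refine le_trans hMN ?_
    linarith [hCΦ, hd8, add_mul (2 * (C * K0)) (8 * (d : ℝ)) ((n : ℝ) ^ (1 - δ))]
  · have h1 : Real.log (Zw d β n) ≤ d * Real.log (2 * n + 1) + Real.log (Zwx d β n x) := by
      have h2 := Real.log_le_log (by linarith) hx
      rw [Real.log_mul hpow.ne' hZx.ne', Real.log_pow] at h2
      exact h2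
    have h3 : 2 * Real.log (Zwx d β n x) ≤ C * Φ + Real.log (Zp d β M) := by
      have h4 := Real.log_le_log (by positivity) hprod
      rw [Real.log_mul hZx.ne' hZx.ne', Real.log_mul (Real.exp_pos _).ne' hZp.ne',
        Real.log_exp] at h4
      linarith
    have h5 : (d : ℝ) * Real.log (2 * n + 1) ≤ d * (4 * (n : ℝ) ^ (1 - δ)) :=
      mul_le_mul_of_nonneg_left hb3 hd0
    nlinarith [hCΦ, h1, h3, h5]

/-- closing up four walks -/
lemma nf2_four (d : ℕ) (hd : 2 ≤ d) (β : ℝ) (hβ : 0 ≤ β) :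
    ∃ K : ℝ, 0 ≤ K ∧ ∀ n m : ℕ, 1 ≤ n → 1 ≤ m →
      2 * Real.log (Zw d β n) + 2 * Real.log (Zw d β m) ≤ Real.log (Zw d β (2 * (n + m))) +
        K * ((n + m : ℕ) : ℝ) ^ (1 - 1 / (3 * ((d : ℝ) + 1))) := by
  obtain ⟨C, hC, hmain⟩ := main_ineq d hd β hβ 4
  obtain ⟨K0, hK0, hLR⟩ := choice_LR d
  obtain ⟨Ct, hCt, htrunc⟩ := Zp_le_Zw_trunc d β hβ
  have hlCt : 0 ≤ Real.log Ct := Real.log_nonneg hCt
  refine ⟨(1 + β + Real.log Ct) * (2 * (C * K0)) + 32 * d + 4 + β, by positivity, ?_⟩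
  intro n m hn hm
  obtain ⟨x, hx⟩ := exists_endpoint d β n
  obtain ⟨y, hy⟩ := exists_endpoint d β m
  obtain ⟨L, R, hL, hLe, hR, hΦ⟩ := hLR (2 * (n + m)) (by omega)
  set N : ℕ := 2 * (n + m) with hN
  set Φ : ℝ := (N : ℝ) / L + ((R : ℝ) + (N : ℝ) ^ 2 / (R : ℝ) ^ 2) * (L : ℝ) ^ d with hΦd
  obtain ⟨M, hM3, hMN, hprod⟩ := hmain ![n, n, m, m]
    (by intro i; fin_cases i <;> simp <;> omega)
    ![x, -x, y, -y] (by simp [Fin.sum_univ_four]) L R hL hLe hR N
    (by simp [Fin.sum_univ_four]; omega) Φ hΦd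
  have hn1 : (1 : ℝ) ≤ n := by exact_mod_cast hn
  have hm1 : (1 : ℝ) ≤ m := by exact_mod_cast hm
  have hNR : (N : ℝ) = 2 * ((n + m : ℕ) : ℝ) := by rw [hN]; push_cast; ring
  have hNn : (n : ℝ) ≤ N := by rw [hNR]; push_cast; linarith
  have hNm : (m : ℝ) ≤ N := by rw [hNR]; push_cast; linarith
  have hN1 : (1 : ℝ) ≤ N := by linarith
  have hZwn : 1 ≤ Zw d β n := one_le_Zw d (by omega) β n
  have hZwm : 1 ≤ Zw d β m := one_le_Zw d (by omega) β m
  have hZwN : 1 ≤ Zw d β N := one_le_Zw d (by omega) β N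
  have hpos : ∀ (k : ℕ) (z : Fin d → ℤ), 1 ≤ Zw d β k →
      Zw d β k ≤ (2 * (k : ℝ) + 1) ^ d * Zwx d β k z → 0 < Zwx d β k z := by
    intro k z h1 h2
    by_contra hcon
    have h0 : Zwx d β k z = 0 := le_antisymm (not_lt.mp hcon) (nf2_Zwx_nonneg d β k z)
    rw [h0, mul_zero] at h2
    linarith
  have hZx := hpos n x hZwn hx
  have hZy := hpos m y hZwm hy
  have hprod' : Zwx d β n x * Zwx d β n x * Zwx d β m y * Zwx d β m y ≤
      Real.exp (C * Φ) * Zp d β M := by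
    have h := hprod
    rw [Fin.prod_univ_four] at h
    simp only [Matrix.cons_val_zero, Matrix.cons_val_one, Matrix.cons_val, Zwx_neg] at h
    exact h
  have hZp : 0 < Zp d β M := by
    have h1 : 0 < Zwx d β n x * Zwx d β n x * Zwx d β m y * Zwx d β m y := by positivity
    have h2 : 0 < Real.exp (C * Φ) * Zp d β M := lt_of_lt_of_le h1 hprod'
    exact (mul_pos_iff_of_pos_left (Real.exp_pos _)).mp h2
  set δ : ℝ := 1 / (3 * ((d : ℝ) + 1)) with hδ
  have hd0 : (0 : ℝ) ≤ d := Nat.cast_nonneg d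
  have hδ0 : 0 < δ := by positivity
  have hδ1 : δ ≤ 1 / 3 := by
    rw [hδ]
    apply one_div_le_one_div_of_le (by norm_num)
    linarith
  set s : ℝ := ((n + m : ℕ) : ℝ) ^ (1 - δ) with hs
  have hN2s : (N : ℝ) ^ (1 - δ) ≤ 2 * s := by
    rw [hNR, Real.mul_rpow (by norm_num) (by positivity)]
    apply mul_le_mul_of_nonneg_right _ (by positivity)
    calc (2 : ℝ) ^ (1 - δ) ≤ 2 ^ (1 : ℝ) :=
          Real.rpow_le_rpow_of_exponent_le (by norm_num) (by linarith)
      _ = 2 := by norm_num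
  have hs0 : 0 ≤ s := by positivity
  have hs1 : 1 ≤ s := by
    apply Real.one_le_rpow _ (by linarith)
    push_cast
    linarith
  have hΦ0 : 0 ≤ Φ := by positivity
  have hΦ2 : Φ ≤ 2 * K0 * s := by
    calc Φ ≤ K0 * (N : ℝ) ^ (1 - δ) := hΦ
      _ ≤ K0 * (2 * s) := mul_le_mul_of_nonneg_left hN2s hK0
      _ = 2 * K0 * s := by ring
  have hCΦ : C * Φ ≤ 2 * (C * K0) * s := by
    calc C * Φ ≤ C * (2 * K0 * s) := mul_le_mul_of_nonneg_left hΦ2 hC
      _ = _ := by ring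
  have hCΦ0 : 0 ≤ C * Φ := by positivity
  obtain ⟨hb1, hb2, hb3⟩ := nf2_pow_bounds d (N : ℝ) hN1
  rw [← hδ] at hb1 hb2 hb3
  have hlogN : Real.log N ≤ 4 * s := by linarith
  have hlogN2 : Real.log (2 * N + 1) ≤ 8 * s := by linarith
  have hlogN0 : 0 ≤ Real.log N := Real.log_nonneg hN1
  -- from closed walks to walks
  have hclose : Real.log (Zp d β M) ≤ Real.log (Zw d β N) + Real.log N + β +
      (β + Real.log Ct) * (C * Φ) := by
    have hβΦ : 0 ≤ β * (C * Φ) := by positivity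
    have hlΦ : 0 ≤ Real.log Ct * (C * Φ) := by positivity
    have habs := abs_le.mp hMN
    by_cases hMN' : N < M
    · have h1 := htrunc M N hMN'
      have h2 := Real.log_le_log hZp h1
      rw [Real.log_mul (by positivity) (by linarith), Real.log_pow, Nat.cast_sub hMN'.le] at h2
      have h3 : ((M : ℝ) - N) * Real.log Ct ≤ (C * Φ) * Real.log Ct :=
        mul_le_mul_of_nonneg_right habs.2 hlCt
      nlinarith
    · have h1 := Zp_le_Zw_extend d (by omega) β hβ M N (by omega) (by omega)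
      have h2 := Real.log_le_log hZp h1
      have hM0 : (0 : ℝ) < M := by exact_mod_cast (by omega : 0 < M)
      rw [Real.log_mul (by positivity) (by linarith), Real.log_mul hM0.ne' (Real.exp_pos _).ne',
        Real.log_exp] at h2
      have h3 : Real.log M ≤ Real.log N :=
        Real.log_le_log hM0 (by exact_mod_cast not_lt.mp hMN')
      have h4 : β * ((N : ℝ) + 1 - M) ≤ β * (C * Φ + 1) :=
        mul_le_mul_of_nonneg_left (by linarith) hβ
      nlinarith
  have hend : ∀ (k : ℕ) (z : Fin d → ℤ), (k : ℝ) ≤ N → 1 ≤ Zw d β k → 0 < Zwx d β k z →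
      Zw d β k ≤ (2 * (k : ℝ) + 1) ^ d * Zwx d β k z →
      Real.log (Zw d β k) ≤ d * (8 * s) + Real.log (Zwx d β k z) := by
    intro k z hk h1 h2 h3
    have h4 := Real.log_le_log (by linarith) h3
    rw [Real.log_mul (by positivity) h2.ne', Real.log_pow] at h4
    have hk0 : (0 : ℝ) ≤ k := Nat.cast_nonneg k
    have h5 : Real.log (2 * (k : ℝ) + 1) ≤ Real.log (2 * (N : ℝ) + 1) :=
      Real.log_le_log (by linarith) (by linarith)
    have h6 : (d : ℝ) * Real.log (2 * (k : ℝ) + 1) ≤ d * (8 * s) :=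
      mul_le_mul_of_nonneg_left (by linarith) hd0
    linarith
  have hn' := hend n x hNn hZwn hZx hx
  have hm' := hend m y hNm hZwm hZy hy
  have h3 : 2 * Real.log (Zwx d β n x) + 2 * Real.log (Zwx d β m y) ≤
      C * Φ + Real.log (Zp d β M) := by
    have h4 := Real.log_le_log (by positivity) hprod'
    rw [Real.log_mul (by positivity) hZy.ne', Real.log_mul (by positivity) hZy.ne',
      Real.log_mul hZx.ne' hZx.ne', Real.log_mul (Real.exp_pos _).ne' hZp.ne',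
      Real.log_exp] at h4
    linarith
  have h7 : (1 + β + Real.log Ct) * (C * Φ) ≤
      (1 + β + Real.log Ct) * (2 * (C * K0) * s) :=
    mul_le_mul_of_nonneg_left hCΦ (by linarith)
  have h8 : β ≤ β * s := by nlinarith
  have h9 : ((1 + β + Real.log Ct) * (2 * (C * K0)) + 32 * d + 4 + β) * s =
      (1 + β + Real.log Ct) * (2 * (C * K0) * s) + 32 * (d * s) + 4 * s + β * s := by ring
  rw [h9]
  have h10 : (1 + β + Real.log Ct) * (C * Φ) = C * Φ + (β + Real.log Ct) * (C * Φ) := by ring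
  linarith

/-- The free energies of interacting self-avoiding walks and polygons exist and coincide. -/
theorem free_energy (d : ℕ) (hd : 2 ≤ d) (β : ℝ) (hβ : 0 ≤ β) :
    ∃ F : ℝ, Tendsto (fun n : ℕ => Real.log (Zw d β n) / n) atTop (𝓝 F) ∧
      Tendsto (fun m : ℕ => Real.log (Zp d β (2 * m)) / ((2 * m : ℕ) : ℝ)) atTop (𝓝 F) := by
  obtain ⟨K2, hK2, htwo⟩ := nf2_two d hd β hβ
  obtain ⟨K4, hK4, hfour⟩ := nf2_four d hd β hβ
  obtain ⟨C1, hC1, hadd⟩ := Zw_add_le d β hβ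
  set δ : ℝ := 1 / (3 * ((d : ℝ) + 1)) with hδ
  have hd0 : (0 : ℝ) ≤ d := Nat.cast_nonneg d
  have hδ0 : 0 < δ := by positivity
  have hδ1 : δ ≤ 1 / 3 := by
    rw [hδ]
    apply one_div_le_one_div_of_le (by norm_num)
    linarith
  have hw : ∀ n, 1 ≤ Zw d β n := fun n => one_le_Zw d (by omega) β n
  have hp : ∀ M : ℕ, 4 ≤ M → Even M → 1 ≤ Zp d β M := by
    intro M hM hMe
    obtain ⟨m, hm⟩ := hMe
    have : M = 2 * m := by omega
    rw [this]
    exact Zp_pos d hd β hβ m (by omega)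
  obtain ⟨F, hF⟩ := limit_walk (fun n => Real.log (Zw d β n)) (Real.log C1) K4 δ hδ0
    (by linarith) (fun n => Real.log_nonneg (hw n))
    (by
      intro n j
      have h1 := Real.log_le_log (by linarith [hw (n + j)]) (hadd n j)
      rw [Real.log_mul (by positivity) (by linarith [hw n]), Real.log_pow] at h1
      linarith)
    (by
      intro n m hn hm
      exact hfour n m hn hm)
  refine ⟨F, hF, ?_⟩
  refine limit_poly (fun n => Real.log (Zw d β n)) (fun M => Real.log (Zp d β M))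
    (2 + 2 * β) K2 δ F hδ0 (by linarith) hF ?_ ?_ ?_
  · intro n hn
    obtain ⟨M, hM3, hZp, h1, h2⟩ := htwo n hn
    have hMe := nf2_Zp_even d β M hZp
    refine ⟨M, hMe, ?_, h1, h2⟩
    rcases hMe with ⟨k, hk⟩
    omega
  · intro M hM hMe
    have h1 := Zp_le_Zw_extend d (by omega) β hβ M M (by omega) (by omega)
    have hM0 : (0 : ℝ) < M := by exact_mod_cast (by omega : 0 < M)
    have hM1 : (1 : ℝ) ≤ M := by exact_mod_cast (by omega : 1 ≤ M)
    have h2 := Real.log_le_log (by linarith [hp M hM hMe]) h1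
    rw [Real.log_mul (by positivity) (by linarith [hw M]),
      Real.log_mul hM0.ne' (Real.exp_pos _).ne', Real.log_exp] at h2
    have h3 : 0 ≤ Real.log M := Real.log_nonneg hM1
    nlinarith
  · intro M h hM hMe
    have h1 := Zp_extend d β hβ M h (by omega)
    have hM0 : (0 : ℝ) < M := by exact_mod_cast (by omega : 0 < M)
    have hM1 : (1 : ℝ) ≤ M := by exact_mod_cast (by omega : 1 ≤ M)
    have hp2 : 1 ≤ Zp d β (M + 2 * h) := hp (M + 2 * h) (by omega) (hMe.add (even_two_mul h))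
    have h2 := Real.log_le_log (by linarith [hp M hM hMe]) h1
    rw [Real.log_mul (by positivity) (by linarith),
      Real.log_mul (by positivity) (Real.exp_pos _).ne', Real.log_exp,
      Real.log_mul (by norm_num) hM0.ne'] at h2
    have h3 : 0 ≤ Real.log M := Real.log_nonneg hM1
    have h4 : Real.log 2 ≤ 1 := by
      have := Real.log_le_sub_one_of_pos (by norm_num : (0 : ℝ) < 2)
      linarith
    have h5 : (0 : ℝ) ≤ h := Nat.cast_nonneg h
    nlinarith [mul_nonneg hβ h3, mul_nonneg hβ h5]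

end Pool.Agent.Helper772.NF2
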