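import Mathlib
import Pool.Agent.Helper772.Defs
import Pool.Agent.Helper772.NF2
import Pool.Agent.Helper772.W
set_option autoImplicit false
namespace Pool.Agent.Helper772.NG

open Pool.Agent.Helper772.NF2 (free_energy)
open Pool.Agent.Helper772.W (adjPairs_poly adjPairs_saw mem_polySet mem_sawSet)

open Filter Topology

/-! Given results (proved in other jobs; use as black boxes). -/

/-! Targets. -/

lemma tsum_sub_eq {α : Type*} (s : Finset α) (P : α → Prop) (h : ∀ w, w ∈ s ↔ P w)
    (f : α → ℝ) : ∑' w : {w : α // P w}, f w.1 = ∑ w ∈ s, f w := by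
  have hP : P = fun w => w ∈ s := funext fun w => propext (h w).symm
  subst hP
  exact Finset.tsum_subtype s f

theorem statement_S11889 :
  ∀ d : ℕ, 2 ≤ d → ∀ β : ℝ, 0 < β → ∃ L : ℝ,
    Filter.Tendsto
      (fun n : ℕ => (1 / (n : ℝ)) * Real.log
        (∑' w : {w : Fin (n+1) → Fin d → ℤ //
              w 0 = 0 ∧ Function.Injective w ∧
              ∀ i : Fin n, ∑ j, |w i.castSucc j - w i.succ j| = 1},
          Real.exp (β * (((Finset.univ : Finset (Fin (n+1) × Fin (n+1))).filter
            (fun p => p.1.val + 2 ≤ p.2.val ∧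
              ∑ j, |w.1 p.1 j - w.1 p.2 j| = 1)).card : ℝ))))
      Filter.atTop (nhds L) ∧
    Filter.Tendsto
      (fun m : ℕ => (1 / ((2 * m : ℕ) : ℝ)) * Real.log
        (∑' w : {w : Fin (2*m+1) → Fin d → ℤ //
              w 0 = 0 ∧ w (Fin.last (2*m)) = 0 ∧
              Function.Injective (fun i : Fin (2*m) => w i.castSucc) ∧
              ∀ i : Fin (2*m), ∑ j, |w i.castSucc j - w i.succ j| = 1},
          Real.exp (β * (((Finset.univ : Finset (Fin (2*m) × Fin (2*m))).filter
            (fun p => p.1.val + 2 ≤ p.2.val ∧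
              ¬ (p.1.val = 0 ∧ p.2.val + 1 = 2*m) ∧
              ∑ j, |w.1 p.1.castSucc j - w.1 p.2.castSucc j| = 1)).card : ℝ))))
      Filter.atTop (nhds L) := by
  intro d hd β hβ
  obtain ⟨F, hF1, hF2⟩ := free_energy d hd β hβ.le
  refine ⟨F, hF1.congr (fun n => ?_), hF2.congr' ?_⟩
  · rw [tsum_sub_eq (sawSet d n) _ (fun w => mem_sawSet d n w) (fun w =>
      Real.exp (β * (((Finset.univ : Finset (Fin (n+1) × Fin (n+1))).filter
            (fun p => p.1.val + 2 ≤ p.2.val ∧
              ∑ j, |w p.1 j - w p.2 j| = 1)).card : ℝ)))]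
    rw [one_div, inv_mul_eq_div]
    congr 2
    unfold Zw
    apply Finset.sum_congr rfl
    intro w hw
    rw [adjPairs_saw d n w hw]
    congr 1
    push_cast
    ring
  · filter_upwards [eventually_ge_atTop 2] with m hm
    rw [tsum_sub_eq (polySet d (2 * m)) _ (fun w => mem_polySet d (2 * m) w) (fun w =>
      Real.exp (β * (((Finset.univ : Finset (Fin (2*m) × Fin (2*m))).filter
            (fun p => p.1.val + 2 ≤ p.2.val ∧
              ¬ (p.1.val = 0 ∧ p.2.val + 1 = 2*m) ∧
              ∑ j, |w p.1.castSucc j - w p.2.castSucc j| = 1)).card : ℝ)))]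
    rw [one_div, inv_mul_eq_div]
    congr 2
    unfold Zp
    apply Finset.sum_congr rfl
    intro w hw
    rw [adjPairs_poly d m hm w hw]
    congr 1
    push_cast
    ring

section

open Classical Filter Topology

theorem statement_S11753 :
    ∀ d : ℕ, 2 ≤ d → ∀ β : ℝ, 0 < β →
      ∃ L : ℝ, Tendsto
        (fun n : ℕ =>
          (1 / (n : ℝ)) * Real.log
            (∑ w ∈ (Fintype.piFinset
                (fun _ : Fin (n + 1) =>
                  Fintype.piFinset (fun _ : Fin d => Finset.Icc (-(n : ℤ)) (n : ℤ)))).filter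
                (fun w : Fin (n + 1) → Fin d → ℤ =>
                  w 0 = 0 ∧
                  (∀ i j : Fin (n + 1), w i = w j → i = j) ∧
                  (∀ i : Fin n, ∑ k : Fin d, |w i.succ k - w i.castSucc k| = 1)),
              Real.exp (β * ((((Finset.univ : Finset (Fin (n + 1) × Fin (n + 1))).filter
                (fun p : Fin (n + 1) × Fin (n + 1) =>
                  p.1.val + 1 < p.2.val ∧
                  ∑ k : Fin d, |w p.1 k - w p.2 k| = 1)).card : ℕ) : ℝ))))
        atTop (𝓝 L) := by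
  intro d hd β hβ
  obtain ⟨F, hF1, -⟩ := free_energy d hd β hβ.le
  refine ⟨F, hF1.congr (fun n => ?_)⟩
  rw [one_div, inv_mul_eq_div]
  congr 2
  unfold Zw
  apply Finset.sum_congr
  · ext w
    rw [mem_sawSet, Finset.mem_filter, Fintype.mem_piFinset]
    constructor
    · rintro ⟨h0, h1, h2⟩
      have hw := (mem_sawSet d n w).2 ⟨h0, h1, h2⟩
      unfold sawSet at hw
      rw [Finset.mem_filter, Fintype.mem_piFinset] at hw
      refine ⟨hw.1, h0, fun i j hij => h1 hij, fun i => ?_⟩
      rw [← h2 i]
      exact Finset.sum_congr rfl fun k _ => abs_sub_comm _ _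
    · rintro ⟨-, h0, h1, h2⟩
      refine ⟨h0, fun i j hij => h1 i j hij, fun i => ?_⟩
      rw [← h2 i]
      exact Finset.sum_congr rfl fun k _ => abs_sub_comm _ _
  · intro w hw
    have hw' : w ∈ sawSet d n := by
      rw [mem_sawSet]
      rw [Finset.mem_filter] at hw
      obtain ⟨-, h0, h1, h2⟩ := hw
      refine ⟨h0, fun i j hij => h1 i j hij, fun i => ?_⟩
      rw [← h2 i]
      exact Finset.sum_congr rfl fun k _ => abs_sub_comm _ _
    rw [adjPairs_saw d n w hw']
    have hcard : ((Finset.univ : Finset (Fin (n + 1) × Fin (n + 1))).filter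
            (fun p => p.1.val + 2 ≤ p.2.val ∧ ∑ j, |w p.1 j - w p.2 j| = 1)) =
        ((Finset.univ : Finset (Fin (n + 1) × Fin (n + 1))).filter
                (fun p : Fin (n + 1) × Fin (n + 1) =>
                  p.1.val + 1 < p.2.val ∧
                  ∑ k : Fin d, |w p.1 k - w p.2 k| = 1)) := by
      ext p
      rw [Finset.mem_filter, Finset.mem_filter]
      constructor
      · rintro ⟨h1, h2, h3⟩
        exact ⟨h1, by omega, h3⟩
      · rintro ⟨h1, h2, h3⟩
        exact ⟨h1, by omega, h3⟩
    rw [← hcard]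
    congr 1
    push_cast
    ring

end

end Pool.Agent.Helper772.NG
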